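import Pool.Agent.H779R2.An.Basic

set_option autoImplicit false

namespace Pool.Agent.H779R2.An

open Pool.Agent.H721R2 Filter Topology MeasureTheory
open scoped BigOperators

variable {X E : Type*} [MetricSpace X] [CompactSpace X] [NormedAddCommGroup E]
  [InnerProductSpace ℝ E] [FiniteDimensional ℝ E]

omit [CompactSpace X] [FiniteDimensional ℝ E] in
private theorem MinR_iter {S : HypSys X E} {R : Set X} (hR : MinR S R) (n : ℕ) {x : X}
    (hx : x ∈ R) : S.g^[n] x ∈ R := by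
  induction n with
  | zero => exact hx
  | succ n ih =>
    rw [Function.iterate_succ_apply']
    exact hR.map _ ih

omit [CompactSpace X] [FiniteDimensional ℝ E] in
private theorem MinR_symm_iter {S : HypSys X E} {R : Set X} (hR : MinR S R) (n : ℕ) {x : X}
    (hx : x ∈ R) : S.g.symm^[n] x ∈ R := by
  induction n with
  | zero => exact hx
  | succ n ih =>
    rw [Function.iterate_succ_apply']
    exact hR.map' _ ih

private theorem cover_s {S : HypSys X E} (F : Flat S) {R : Set X} (hR : MinR S R)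
    (hL : LinProp' F R) (hS : SegProp S) : ∃ ε' > 0, ∀ v v', S.SRel ε' v v' →
      (∃ x ∈ R, UAsym S v x) → ∃ x ∈ R, UAsym S v' x := by
  obtain ⟨εL, hεL, hlin⟩ := hL
  have hg := F.geo
  have hε3 : 0 < min εL F.ε₀ := lt_min hεL hg.pos
  obtain ⟨εc, hεc, hcor⟩ := exists_corner S (min εL F.ε₀) hε3
  set ε2 := min εc (min εL F.ε₀) with hε2def
  have hε2 : 0 < ε2 := lt_min hεc hε3
  have h2c : ε2 ≤ εc := min_le_left _ _
  have h2L : ε2 ≤ εL := (min_le_right _ _).trans (min_le_left _ _)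
  have h20 : ε2 ≤ F.ε₀ := (min_le_right _ _).trans (min_le_right _ _)
  obtain ⟨ε', hε', hseg⟩ := hS F.ε₀ hg.pos
  refine ⟨ε', hε', ?_⟩
  rintro v v' hvv' ⟨x, hx, hvx⟩
  obtain ⟨ρ, hρ, hsm⟩ := F.small ε2 hε2
  have hlim : Tendsto (fun n : ℕ => (1 / 16 : ℝ) ^ n * (2 * ‖F.Lc v x‖)) atTop (𝓝 0) := by
    have := (tendsto_pow_atTop_nhds_zero_of_lt_one (by norm_num : (0 : ℝ) ≤ 1 / 16)
      (by norm_num)).mul_const (2 * ‖F.Lc v x‖)
    simpa using this
  obtain ⟨n, hn⟩ := (hlim.eventually (gt_mem_nhds hρ)).exists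
  obtain ⟨m, c, hc0, hcm, hcv, hcc⟩ := hseg v v' hvv' n ε2 hε2
  have hind : ∀ i, i ≤ m → ∃ z ∈ R, UAsym S (c i) z ∧ F.Lc (c i) z = F.H v (c i) (F.Lc v x) := by
    intro i
    induction i with
    | zero =>
      intro _
      refine ⟨x, hx, ?_, ?_⟩
      · rw [hc0]; exact hvx
      · rw [hc0, F.H_self v _ (F.Lc_mem _ _ hvx)]
    | succ i ih =>
      intro hi
      obtain ⟨z, hz, hcz, hLz⟩ := ih (by omega)
      have hi' : i ≤ m := by omega
      have hww' := hcc i (by omega)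
      have hyR : S.g.symm^[n] z ∈ R := MinR_symm_iter hR n hz
      have hwy : UAsym S (S.g.symm^[n] (c i)) (S.g.symm^[n] z) := hcz.symm_iter n
      have hnorm : ‖F.Lc (S.g.symm^[n] (c i)) (S.g.symm^[n] z)‖ ≤ ρ := by
        rw [F.toLin0.Lc_back hcz n]
        have e1 := Dn_symm_le S n (c i) (F.Lc_mem _ _ hcz)
        have e2 : ‖F.Lc (c i) z‖ ≤ 2 * ‖F.Lc v x‖ := by
          rw [hLz]
          exact F.H_le _ _ (hcv i hi') _ (F.Lc_mem _ _ hvx)
        have e3 : (1 / 16 : ℝ) ^ n * ‖F.Lc (c i) z‖ ≤ (1 / 16 : ℝ) ^ n * (2 * ‖F.Lc v x‖) :=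
          mul_le_mul_of_nonneg_left e2 (by positivity)
        linarith
      have hU := hsm _ _ hwy hnorm
      obtain ⟨y', h1, h2⟩ := hcor _ _ _ (hww'.mono h2c) (hU.mono h2c)
      have hmL : min εL F.ε₀ ≤ εL := min_le_left _ _
      have hm0 : min εL F.ε₀ ≤ F.ε₀ := min_le_right _ _
      have hkey := hlin _ hyR y' _ _ (h2.mono hmL) (hU.mono h2L).symm (hww'.mono h2L)
        (h1.mono hmL).symm
      have hy'R : y' ∈ R := hR.sat _ hyR _ (hg.sasym _ _ (h2.mono hm0))
      have hU' : UAsym S (S.g.symm^[n] (c (i + 1))) y' := hg.uasym _ _ (h1.mono hm0)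
      have hSw : SAsym S (S.g.symm^[n] (c i)) (S.g.symm^[n] (c (i + 1))) :=
        hg.sasym _ _ (hww'.mono h20)
      have hSc : SAsym S (c i) (c (i + 1)) := hSw.of_symm_iter n
      refine ⟨S.g^[n] y', MinR_iter hR n hy'R, ?_, ?_⟩
      · have := hU'.iter n
        rwa [iter_iter_symm] at this
      · have e1 := F.toLin0.Lc_iter hU' n
        rw [iter_iter_symm, hkey] at e1
        have e2 := F.toLin0.H_iter hSw n (F.Lc_mem _ _ hwy)
        rw [iter_iter_symm, iter_iter_symm, ← F.toLin0.Lc_iter hwy n, iter_iter_symm,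
          iter_iter_symm] at e2
        rw [e1, ← e2, hLz]
        exact F.H_comp v (c i) (c (i + 1)) (hg.sasym _ _ (hcv i hi')) hSc _
          (F.Lc_mem _ _ hvx)
  obtain ⟨z, hz, hcz, -⟩ := hind m le_rfl
  rw [hcm] at hcz
  exact ⟨z, hz, hcz⟩

/-- T18 -/
theorem cover [PreconnectedSpace X] {S : HypSys X E} (F : Flat S) {R : Set X} (hR : MinR S R)
    (hL : LinProp' F R) (hS : SegProp S) : ∀ v, ∃ x ∈ R, UAsym S v x := by
  obtain ⟨ε', hε', hs⟩ := cover_s F hR hL hS
  have hg := F.geo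
  obtain ⟨εb, hεb, hb⟩ := exists_bracket S (min ε' F.ε₀) (lt_min hε' hg.pos)
  set V : Set X := {v | ∃ x ∈ R, UAsym S v x} with hV
  have hloc : ∀ v ∈ V, ∀ v', dist v v' ≤ εb → v' ∈ V := by
    intro v hv v' hd
    obtain ⟨w, h1, h2⟩ := hb v v' hd
    obtain ⟨x, hx, hwx⟩ := hs v w (h1.mono (min_le_left _ _)) hv
    exact ⟨x, hx, (hg.uasym _ _ (h2.mono (min_le_right _ _))).symm.trans hwx⟩
  have hopen : IsOpen V := by
    rw [Metric.isOpen_iff]
    intro v hv
    refine ⟨εb, hεb, fun v' hv' => hloc v hv v' ?_⟩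
    rw [dist_comm]
    exact (Metric.mem_ball.mp hv').le
  have hopen' : IsOpen Vᶜ := by
    rw [Metric.isOpen_iff]
    intro v hv
    refine ⟨εb, hεb, fun v' hv' hmem => hv (hloc v' hmem v ?_)⟩
    exact (Metric.mem_ball.mp hv').le
  have hclop : IsClopen V := ⟨isOpen_compl_iff.mp hopen', hopen⟩
  have hne : V.Nonempty := by
    obtain ⟨x, hx⟩ := hR.nonempty
    exact ⟨x, x, hx, UAsym.refl S x⟩
  have huniv := hclop.eq_univ hne
  intro v
  have : v ∈ V := by rw [huniv]; exact Set.mem_univ v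
  exact this

end Pool.Agent.H779R2.An
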