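import Pool.Agent.H779R2.An.Basic

set_option autoImplicit false

namespace Pool.Agent.H779R2.An

open Pool.Agent.H721R2 Filter Topology MeasureTheory
open scoped BigOperators

variable {X E : Type*} [MetricSpace X] [CompactSpace X] [NormedAddCommGroup E]
  [InnerProductSpace ℝ E] [FiniteDimensional ℝ E]

/-- T5a -/
theorem lin1_inj {S : HypSys X E} (L : Lin1 S) (x y z : X) (h : UAsym S x y)
    (h' : UAsym S x z) (h'' : L.Lc x y = L.Lc x z) : y = z := by
  have h1 : L.Lc y z = 0 := by
    rw [L.base x y z h h', h'', sub_self, map_zero]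
  have h2 : UAsym S y z := h.symm.trans h'
  obtain ⟨N, hN⟩ := h2.eventually L.geo.pos
  have h3 := L.dist_le _ _ (hN N le_rfl)
  rw [L.toLin0.Lc_back h2 N, h1, map_zero, norm_zero, mul_zero] at h3
  have h4 : S.g.symm^[N] y = S.g.symm^[N] z := dist_le_zero.mp h3
  have h5 := congrArg (S.g^[N]) h4
  rwa [iter_iter_symm, iter_iter_symm] at h5

end Pool.Agent.H779R2.An
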