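import Pool.Agent.H779R2.An.Basic

set_option autoImplicit false

namespace Pool.Agent.H779R2.An

open Pool.Agent.H721R2 Filter Topology MeasureTheory
open scoped BigOperators

variable {X E : Type*} [MetricSpace X] [CompactSpace X] [NormedAddCommGroup E]
  [InnerProductSpace ℝ E] [FiniteDimensional ℝ E]

private theorem approx_surj {S : HypSys X E} (L : Lin1 S) (η : ℝ) (hη : 0 < η) (ε : ℝ)
    (hε : 0 < ε) : ∃ ρ > 0, ∀ x, ∀ v ∈ S.Vu x, ‖v‖ ≤ ρ →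
      ∃ z, S.URel ε x z ∧ dist x z ≤ 18 * S.K * ‖v‖ ∧ ‖L.Lc x z - v‖ ≤ η * ‖v‖ := by
  have hK := S.one_le_K
  set K := S.K with hKdef
  have hK0 : 0 < K := by linarith
  set η₁ := min (1 / 2) (η / (180 * K ^ 2)) with hη₁
  have hη₁0 : 0 < η₁ := lt_min (by norm_num) (by positivity)
  have hη₁1 : η₁ ≤ 1 / 2 := min_le_left _ _
  have hη₁2 : 180 * K ^ 2 * η₁ ≤ η := by
    have : η₁ ≤ η / (180 * K ^ 2) := min_le_right _ _
    rw [le_div_iff₀ (by positivity)] at this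
    linarith
  obtain ⟨r2, hr2, A2⟩ := S.A2 η₁ hη₁0
  obtain ⟨r3, hr3, A3⟩ := S.A3 η₁ hη₁0
  obtain ⟨εl, hεl, lp⟩ := S.local_product
  obtain ⟨εc, hεc, cs⟩ := S.coneS' η₁ hη₁0 (by linarith)
  obtain ⟨εu, hεu, cu⟩ := S.symm.coneS' η₁ hη₁0 (by linarith)
  obtain ⟨εn, hεn, near⟩ := L.Lc_near η₁ hη₁0
  set R0 := min (min r2 r3) (min (min εl εc) (min (min εu εn) ε)) with hR0
  have hR0p : 0 < R0 := by
    simp only [hR0, lt_min_iff]
    exact ⟨⟨hr2, hr3⟩, ⟨hεl, hεc⟩, ⟨hεu, hεn⟩, hε⟩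
  have hR2 : R0 ≤ r2 := (min_le_left _ _).trans (min_le_left _ _)
  have hR3 : R0 ≤ r3 := (min_le_left _ _).trans (min_le_right _ _)
  have hRl : R0 ≤ εl := (min_le_right _ _).trans ((min_le_left _ _).trans (min_le_left _ _))
  have hRc : R0 ≤ εc := (min_le_right _ _).trans ((min_le_left _ _).trans (min_le_right _ _))
  have hRu : R0 ≤ εu := (min_le_right _ _).trans ((min_le_right _ _).trans
    ((min_le_left _ _).trans (min_le_left _ _)))
  have hRn : R0 ≤ εn := (min_le_right _ _).trans ((min_le_right _ _).trans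
    ((min_le_left _ _).trans (min_le_right _ _)))
  have hRε : R0 ≤ ε := (min_le_right _ _).trans ((min_le_right _ _).trans (min_le_right _ _))
  refine ⟨R0 / (36 * K), by positivity, fun x v hv hvρ => ?_⟩
  have hnv : 0 ≤ ‖v‖ := norm_nonneg _
  set σ := 18 * K * ‖v‖ with hσ
  have hσ0 : 0 ≤ σ := by positivity
  have hσR : σ ≤ R0 / 2 := by
    rw [le_div_iff₀ (by positivity)] at hvρ
    rw [hσ]; linarith
  have hKv : ‖v‖ ≤ K * ‖v‖ := by nlinarith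
  have h2v : 2 * ‖v‖ ≤ σ := by rw [hσ]; nlinarith
  obtain ⟨y0, hy0⟩ := A2 x 0 (Submodule.zero_mem _) v hv (by
    rw [zero_add]; linarith)
  rw [zero_add] at hy0
  have hd : dist y0 x ≤ 2 * ‖v‖ := by
    rw [S.isom]
    have h1 := norm_add_le (S.e y0 - S.e x - v) v
    rw [sub_add_cancel] at h1
    have h2 : η₁ * ‖v‖ ≤ 1 / 2 * ‖v‖ := mul_le_mul_of_nonneg_right hη₁1 hnv
    linarith
  obtain ⟨z, hz1, hz2⟩ := lp y0 x (by linarith)
  have hσd : 9 * S.K * dist y0 x ≤ σ := by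
    rw [hσ]
    have : 9 * K * dist y0 x ≤ 9 * K * (2 * ‖v‖) :=
      mul_le_mul_of_nonneg_left hd (by positivity)
    linarith
  have hz1' : S.SRel σ y0 z := hz1.mono hσd
  have hz2' : S.URel σ x z := (hz2.mono hσd).symm
  obtain ⟨s0, hs0, hs01⟩ := cs _ _ (hz1'.mono (by linarith))
  obtain ⟨u0, hu0, hu01⟩ := cu _ _ ((S.SRel_symm_sys _ _ _).mpr (hz2'.mono (by linarith)))
  change u0 ∈ S.Vu x at hu0
  change ‖S.e z - S.e x - u0‖ ≤ 2 * η₁ * dist x z at hu01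
  have hd1 : dist y0 z ≤ σ := hz1'.dist_le
  have hd2 : dist x z ≤ σ := hz2'.dist_le
  have hs02 : ‖S.e z - S.e y0 - s0‖ ≤ 2 * (η₁ * σ) := by
    refine hs01.trans ?_
    have : 2 * η₁ * dist y0 z ≤ 2 * η₁ * σ := mul_le_mul_of_nonneg_left hd1 (by positivity)
    linarith
  have hu02 : ‖S.e z - S.e x - u0‖ ≤ 2 * (η₁ * σ) := by
    refine hu01.trans ?_
    have : 2 * η₁ * dist x z ≤ 2 * η₁ * σ := mul_le_mul_of_nonneg_left hd2 (by positivity)
    linarith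
  have hns0 : ‖s0‖ ≤ 2 * σ := by
    have e0 : dist y0 z = ‖S.e z - S.e y0‖ := by rw [dist_comm, S.isom]
    have h1 := norm_sub_le (S.e z - S.e y0) (S.e z - S.e y0 - s0)
    rw [sub_sub_cancel, ← e0] at h1
    have : η₁ * σ ≤ 1 / 2 * σ := mul_le_mul_of_nonneg_right hη₁1 hσ0
    linarith
  obtain ⟨s1, hs1, hs11⟩ := A3 y0 x (by linarith) s0 hs0
  have hs12 : ‖s0 - s1‖ ≤ 2 * (η₁ * σ) := by
    refine hs11.trans ?_
    have : η₁ * ‖s0‖ ≤ η₁ * (2 * σ) := mul_le_mul_of_nonneg_left hns0 hη₁0.le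
    linarith
  have hsum : ‖(-s1) + (u0 - v)‖ ≤ 7 * (η₁ * σ) := by
    have e1 : (-s1) + (u0 - v) = (S.e z - S.e y0 - s0) + (S.e y0 - S.e x - v)
        - (S.e z - S.e x - u0) + (s0 - s1) := by abel
    rw [e1]
    have h1 := norm_add_le ((S.e z - S.e y0 - s0) + (S.e y0 - S.e x - v)
        - (S.e z - S.e x - u0)) (s0 - s1)
    have h2 := norm_sub_le ((S.e z - S.e y0 - s0) + (S.e y0 - S.e x - v))
        (S.e z - S.e x - u0)
    have h3 := norm_add_le (S.e z - S.e y0 - s0) (S.e y0 - S.e x - v)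
    have h4 : η₁ * ‖v‖ ≤ η₁ * σ := mul_le_mul_of_nonneg_left (by linarith) hη₁0.le
    linarith
  have hang := (S.angle x _ (Submodule.neg_mem _ hs1) _ (Submodule.sub_mem _ hu0 hv)).2
  have huv : ‖u0 - v‖ ≤ K * (7 * (η₁ * σ)) :=
    hang.trans (mul_le_mul_of_nonneg_left hsum hK0.le)
  have hnear := near x z (hz2'.mono (by linarith))
  have hnear2 : ‖L.Lc x z - (S.e z - S.e x)‖ ≤ η₁ * σ :=
    hnear.trans (mul_le_mul_of_nonneg_left hd2 hη₁0.le)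
  refine ⟨z, hz2'.mono (by linarith), hd2, ?_⟩
  have e1 : L.Lc x z - v = (L.Lc x z - (S.e z - S.e x)) + (S.e z - S.e x - u0) + (u0 - v) := by
    abel
  rw [e1]
  have h1 := norm_add_le ((L.Lc x z - (S.e z - S.e x)) + (S.e z - S.e x - u0)) (u0 - v)
  have h2 := norm_add_le (L.Lc x z - (S.e z - S.e x)) (S.e z - S.e x - u0)
  have h3 : η₁ * σ ≤ K * (η₁ * σ) := by
    have : 0 ≤ η₁ * σ := by positivity
    nlinarith
  have h4 : 180 * K ^ 2 * η₁ * ‖v‖ ≤ η * ‖v‖ := mul_le_mul_of_nonneg_right hη₁2 hnv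
  have h5 : 180 * K ^ 2 * η₁ * ‖v‖ = 10 * (K * (η₁ * σ)) := by rw [hσ]; ring
  linarith

private theorem surj_step {S : HypSys X E} (L : Lin1 S) : ∃ ρ > 0, ∀ x z v, S.URel L.ε₀ x z →
    v ∈ S.Vu x → ‖v - L.Lc x z‖ ≤ ρ → ∃ z', S.URel (36 * S.K * ‖v - L.Lc x z‖) z z' ∧
      UAsym S z z' ∧ ‖v - L.Lc x z'‖ ≤ 1 / 4 * ‖v - L.Lc x z‖ := by
  have hε0 := L.geo.pos
  have hK := S.one_le_K
  obtain ⟨ρ, hρ, hA⟩ := approx_surj L (1 / 16) (by norm_num) L.ε₀ hε0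
  refine ⟨ρ / 2, by positivity, fun x z v hxz hv hle => ?_⟩
  have hU : UAsym S x z := L.geo.uasym _ _ hxz
  have hmem : v - L.Lc x z ∈ S.Vu x := Submodule.sub_mem _ hv (L.Lc_mem _ _ hU)
  have hv' : L.τ x z (v - L.Lc x z) ∈ S.Vu z := L.τ_mem _ _ hU _ hmem
  have hn : ‖L.τ x z (v - L.Lc x z)‖ ≤ 2 * ‖v - L.Lc x z‖ := L.τ_le _ _ hxz _ hmem
  obtain ⟨z', h1, h2, h3⟩ := hA z _ hv' (by linarith)
  have hU' : UAsym S z z' := L.geo.uasym _ _ h1
  have hU2 : UAsym S x z' := hU.trans hU'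
  refine ⟨z', ?_, hU', ?_⟩
  · apply (L.geo.URel_dist h1).mono
    have : 18 * S.K * ‖L.τ x z (v - L.Lc x z)‖ ≤ 18 * S.K * (2 * ‖v - L.Lc x z‖) :=
      mul_le_mul_of_nonneg_left hn (by positivity)
    linarith
  · have hb := L.base x z z' hU hU2
    have hmem2 : L.Lc x z' - v ∈ S.Vu x := Submodule.sub_mem _ (L.Lc_mem _ _ hU2) hv
    have e1 : L.τ x z (L.Lc x z' - v) = L.Lc z z' - L.τ x z (v - L.Lc x z) := by
      rw [hb, ← map_sub]
      congr 1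
      abel
    have h4 := L.le_τ x z hxz _ hmem2
    rw [e1] at h4
    rw [norm_sub_rev v (L.Lc x z')]
    linarith

/-- T5b -/
theorem lin1_surj {S : HypSys X E} (L : Lin1 S) (ε : ℝ) (hε : 0 < ε) : ∃ ρ > 0, ∀ x,
    ∀ v ∈ S.Vu x, ‖v‖ ≤ ρ → ∃ y, S.URel ε x y ∧ L.Lc x y = v := by
  have hε0 := L.geo.pos
  have hK := S.one_le_K
  have hK0 : 0 < S.K := by linarith
  obtain ⟨ρ, hρ, hstep⟩ := surj_step L
  set R := min ε (L.ε₀ / 2) with hR
  have hR0 : 0 < R := lt_min hε (by positivity)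
  refine ⟨min ρ (R / (54 * S.K)), lt_min hρ (by positivity), fun x v hv hvn => ?_⟩
  have hv1 : ‖v‖ ≤ ρ := hvn.trans (min_le_left _ _)
  have hv2 : 54 * S.K * ‖v‖ ≤ R := by
    have := hvn.trans (min_le_right _ _)
    rw [le_div_iff₀ (by positivity)] at this
    linarith
  set T := 54 * S.K * ‖v‖ with hT
  have hT0 : 0 ≤ T := by positivity
  have hTε : T ≤ ε := hv2.trans (min_le_left _ _)
  have hTε0 : T ≤ L.ε₀ / 2 := hv2.trans (min_le_right _ _)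
  let P : ℕ → X → Prop := fun k z => S.URel (T * (1 - (1 / 4) ^ k)) x z ∧
    ‖v - L.Lc x z‖ ≤ (1 / 4) ^ k * ‖v‖
  have hURT : ∀ k z, P k z → S.URel T x z := by
    intro k z hz
    apply hz.1.mono
    have h1 : (0 : ℝ) ≤ (1 / 4) ^ k := by positivity
    nlinarith
  have hst : ∀ (k : ℕ) (z : {z : X // P k z}), ∃ z' : {z : X // P (k + 1) z},
      dist z.1 z'.1 ≤ (36 * S.K * ‖v‖) * (1 / 4) ^ k := by
    intro k z
    have hz := z.2
    have h4k : (0 : ℝ) < (1 / 4) ^ k := by positivity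
    have h4k1 : (1 / 4 : ℝ) ^ k ≤ 1 := pow_le_one₀ (by norm_num) (by norm_num)
    have hle : ‖v - L.Lc x z.1‖ ≤ ρ := by
      refine hz.2.trans ?_
      have : (1 / 4 : ℝ) ^ k * ‖v‖ ≤ 1 * ‖v‖ := mul_le_mul_of_nonneg_right h4k1 (norm_nonneg _)
      linarith
    obtain ⟨z', h1, h2, h3⟩ := hstep x z.1 v ((hURT k _ hz).mono (by linarith)) hv hle
    have h4 : 36 * S.K * ‖v - L.Lc x z.1‖ ≤ 36 * S.K * ((1 / 4) ^ k * ‖v‖) :=
      mul_le_mul_of_nonneg_left hz.2 (by positivity)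
    refine ⟨⟨z', ?_, ?_⟩, ?_⟩
    · apply (hz.1.trans h1).mono
      have e1 : (1 / 4 : ℝ) ^ (k + 1) = (1 / 4) ^ k * (1 / 4) := pow_succ _ _
      rw [e1]
      have e2 : T * (1 - (1 / 4 : ℝ) ^ k * (1 / 4)) = T * (1 - (1 / 4 : ℝ) ^ k) +
          3 / 4 * (54 * (S.K * ((1 / 4 : ℝ) ^ k * ‖v‖))) := by rw [hT]; ring
      rw [e2]
      have : 0 ≤ S.K * ((1 / 4 : ℝ) ^ k * ‖v‖) := by positivity
      linarith
    · rw [pow_succ]
      calc ‖v - L.Lc x z'‖ ≤ 1 / 4 * ‖v - L.Lc x z.1‖ := h3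
        _ ≤ 1 / 4 * ((1 / 4) ^ k * ‖v‖) := mul_le_mul_of_nonneg_left hz.2 (by norm_num)
        _ = _ := by ring
    · refine (h1.dist_le.trans h4).trans (le_of_eq ?_)
      ring
  choose G hG using hst
  have hP0 : P 0 x := by
    refine ⟨fun k => ?_, ?_⟩
    · rw [dist_self]; simp
    · rw [L.Lc_self, sub_zero, pow_zero, one_mul]
  let Z : (k : ℕ) → {z : X // P k z} := fun k => Nat.rec ⟨x, hP0⟩ (fun k z => G k z) k
  have hZ : ∀ k, dist (Z k).1 (Z (k + 1)).1 ≤ (36 * S.K * ‖v‖) * (1 / 4) ^ k := fun k =>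
    hG k (Z k)
  have hcs : CauchySeq (fun k => (Z k).1) :=
    cauchySeq_of_le_geometric (1 / 4) _ (by norm_num) hZ
  obtain ⟨z, hz⟩ := cauchySeq_tendsto_of_complete hcs
  have hxz : S.URel T x z := by
    intro j
    have h1 : Tendsto (fun k => dist (S.g.symm^[j] x) (S.g.symm^[j] (Z k).1)) atTop
        (𝓝 (dist (S.g.symm^[j] x) (S.g.symm^[j] z))) :=
      tendsto_const_nhds.dist (((S.g.symm.continuous.iterate j).tendsto _).comp hz)
    exact le_of_tendsto' h1 (fun k => hURT k _ (Z k).2 j)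
  refine ⟨z, hxz.mono hTε, ?_⟩
  have hUz : UAsym S x z := L.geo.uasym _ _ (hxz.mono (by linarith))
  have hb : ∀ k, ‖L.Lc x z - v‖ ≤ 4 * dist (Z k).1 z + (1 / 4) ^ k * ‖v‖ := by
    intro k
    have hk := (Z k).2
    have hxk := hURT k _ hk
    have hUk : UAsym S x (Z k).1 := L.geo.uasym _ _ (hxk.mono (by linarith))
    have h1 := L.base x (Z k).1 z hUk hUz
    have h2 : S.URel L.ε₀ (Z k).1 z := (hxk.symm.trans hxz).mono (by linarith)
    have h3 := L.Lc_le _ _ h2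
    have h4 := L.le_τ x (Z k).1 (hxk.mono (by linarith)) _
      (Submodule.sub_mem _ (L.Lc_mem _ _ hUz) (L.Lc_mem _ _ hUk))
    rw [← h1] at h4
    have e1 : L.Lc x z - v = (L.Lc x z - L.Lc x (Z k).1) - (v - L.Lc x (Z k).1) := by abel
    rw [e1]
    have h5 := norm_sub_le (L.Lc x z - L.Lc x (Z k).1) (v - L.Lc x (Z k).1)
    have h6 := hk.2
    linarith
  have hl1 : Tendsto (fun k => 4 * dist (Z k).1 z + (1 / 4 : ℝ) ^ k * ‖v‖) atTop
      (𝓝 (4 * 0 + 0 * ‖v‖)) := by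
    apply Tendsto.add
    · apply Tendsto.const_mul
      have : Tendsto (fun k => dist (Z k).1 z) atTop (𝓝 (dist z z)) :=
        hz.dist tendsto_const_nhds
      rwa [dist_self] at this
    · apply Tendsto.mul_const
      exact tendsto_pow_atTop_nhds_zero_of_lt_one (by norm_num) (by norm_num)
  have hl2 : ‖L.Lc x z - v‖ ≤ 4 * 0 + 0 * ‖v‖ := ge_of_tendsto' hl1 hb
  have hl3 : ‖L.Lc x z - v‖ ≤ 0 := by linarith
  exact sub_eq_zero.mp (norm_le_zero_iff.mp hl3)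

end Pool.Agent.H779R2.An
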