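import Pool.Agent.H779R2.An.Basic
import Pool.Agent.H779R2.An.Inj
import Pool.Agent.H779R2.An.Surj

set_option autoImplicit false

namespace Pool.Agent.H779R2.An

open Pool.Agent.H721R2 Filter Topology MeasureTheory
open scoped BigOperators

variable {X E : Type*} [MetricSpace X] [CompactSpace X] [NormedAddCommGroup E]
  [InnerProductSpace ℝ E] [FiniteDimensional ℝ E]

/-- T5c -/
theorem exists_flat {S : HypSys X E} (L : Lin1 S) : Nonempty (Flat S) := by
  refine ⟨{ toLin1 := L, inj := lin1_inj L, surj := lin1_surj L, small := ?_ }⟩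
  intro ε hε
  obtain ⟨ρ, hρ, h⟩ := lin1_surj L (min ε L.ε₀) (lt_min hε L.geo.pos)
  refine ⟨ρ, hρ, fun x y hxy hn => ?_⟩
  obtain ⟨y', h1, h2⟩ := h x _ (L.Lc_mem x y hxy) hn
  have h3 : UAsym S x y' := L.geo.uasym _ _ (h1.mono (min_le_right _ _))
  have h4 : y' = y := lin1_inj L x y' y h3 hxy h2
  subst h4
  exact h1.mono (min_le_left _ _)

end Pool.Agent.H779R2.An
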