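import Pool.Agent.H779R2.An.Basic

set_option autoImplicit false

namespace Pool.Agent.H779R2.An

open Pool.Agent.H721R2 Filter Topology MeasureTheory
open scoped BigOperators

variable {X E : Type*} [MetricSpace X] [CompactSpace X] [NormedAddCommGroup E]
  [InnerProductSpace ℝ E] [FiniteDimensional ℝ E]

private theorem proj_point (S : HypSys X E) (x : X) : ∃ Pu Ps : E →ₗ[ℝ] E,
    (∀ v, Pu v ∈ S.Vu x) ∧ (∀ v, Ps v ∈ S.Vs x) ∧ (∀ v, ‖Pu v‖ ≤ S.K * ‖v‖) ∧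
    (∀ v, ‖Ps v‖ ≤ S.K * ‖v‖) ∧
    ∀ s ∈ S.Vs x, ∀ u ∈ S.Vu x, Pu (s + u) = u ∧ Ps (s + u) = s := by
  set f : (S.Vs x × S.Vu x) →ₗ[ℝ] E := (S.Vs x).subtype.coprod (S.Vu x).subtype with hf
  have hfa : ∀ (s : S.Vs x) (u : S.Vu x), f (s, u) = (s : E) + (u : E) := fun s u => by
    simp [hf]
  have hker : LinearMap.ker f = ⊥ := by
    rw [LinearMap.ker_eq_bot']
    rintro ⟨s, u⟩ h
    rw [hfa] at h
    have h1 := S.angle x s s.2 u u.2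
    rw [h, norm_zero, mul_zero] at h1
    ext
    · exact norm_le_zero_iff.1 h1.1
    · exact norm_le_zero_iff.1 h1.2
  obtain ⟨L, hL⟩ := f.exists_leftInverse_of_injective hker
  have hLa : ∀ (s : S.Vs x) (u : S.Vu x), L ((s : E) + (u : E)) = (s, u) := fun s u => by
    have := LinearMap.congr_fun hL (s, u)
    rw [LinearMap.comp_apply, hfa] at this
    exact this
  set T : Submodule ℝ E := S.Vs x ⊔ S.Vu x with hT
  set P : E →ₗ[ℝ] E := (T.starProjection : E →L[ℝ] E).toLinearMap with hP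
  have hPmem : ∀ v, P v ∈ T := fun v => T.starProjection_apply_mem v
  have hPnorm : ∀ v, ‖P v‖ ≤ ‖v‖ := fun v => T.norm_starProjection_apply_le v
  have hPself : ∀ v ∈ T, P v = v := fun v hv => (T.starProjection_eq_self_iff).2 hv
  have hK : 0 ≤ S.K := by linarith [S.one_le_K]
  refine ⟨(S.Vu x).subtype.comp ((LinearMap.snd ℝ _ _).comp (L.comp P)),
    (S.Vs x).subtype.comp ((LinearMap.fst ℝ _ _).comp (L.comp P)), ?_, ?_, ?_, ?_, ?_⟩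
  · intro v; exact ((L (P v)).2).2
  · intro v; exact ((L (P v)).1).2
  · intro v
    obtain ⟨s, hs, u, hu, hsu⟩ := Submodule.mem_sup.1 (hPmem v)
    have h1 : (((L (P v)).2 : S.Vu x) : E) = u := by
      rw [← hsu, hLa ⟨s, hs⟩ ⟨u, hu⟩]
    show ‖(((L (P v)).2 : S.Vu x) : E)‖ ≤ _
    rw [h1]
    calc ‖u‖ ≤ S.K * ‖s + u‖ := (S.angle x s hs u hu).2
      _ = S.K * ‖P v‖ := by rw [hsu]
      _ ≤ S.K * ‖v‖ := mul_le_mul_of_nonneg_left (hPnorm v) hK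
  · intro v
    obtain ⟨s, hs, u, hu, hsu⟩ := Submodule.mem_sup.1 (hPmem v)
    have h1 : (((L (P v)).1 : S.Vs x) : E) = s := by
      rw [← hsu, hLa ⟨s, hs⟩ ⟨u, hu⟩]
    show ‖(((L (P v)).1 : S.Vs x) : E)‖ ≤ _
    rw [h1]
    calc ‖s‖ ≤ S.K * ‖s + u‖ := (S.angle x s hs u hu).1
      _ = S.K * ‖P v‖ := by rw [hsu]
      _ ≤ S.K * ‖v‖ := mul_le_mul_of_nonneg_left (hPnorm v) hK
  · intro s hs u hu
    have h1 : P (s + u) = s + u := hPself _ (Submodule.add_mem_sup hs hu)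
    have h2 := hLa ⟨s, hs⟩ ⟨u, hu⟩
    constructor
    · show (((L (P (s + u))).2 : S.Vu x) : E) = u
      rw [h1]
      exact congrArg (fun p : S.Vs x × S.Vu x => (p.2 : E)) h2
    · show (((L (P (s + u))).1 : S.Vs x) : E) = s
      rw [h1]
      exact congrArg (fun p : S.Vs x × S.Vu x => (p.1 : E)) h2

/-- P0 -/
theorem exists_proj (S : HypSys X E) : ∃ Pu Ps : X → E →ₗ[ℝ] E, ∀ x,
    (∀ v, Pu x v ∈ S.Vu x) ∧ (∀ v, Ps x v ∈ S.Vs x) ∧ (∀ v, ‖Pu x v‖ ≤ S.K * ‖v‖) ∧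
    (∀ v, ‖Ps x v‖ ≤ S.K * ‖v‖) ∧
    ∀ s ∈ S.Vs x, ∀ u ∈ S.Vu x, Pu x (s + u) = u ∧ Ps x (s + u) = s := by
  choose Pu Ps h using proj_point S
  exact ⟨Pu, Ps, h⟩

end Pool.Agent.H779R2.An
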