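import Pool.Agent.H779R2.An.Basic
import Pool.Agent.H779R2.An.Proj

/-! Common lemmas for `hasLc`, `hasTau`, `hasHol` (helper627). -/

set_option autoImplicit false

namespace Pool.Agent.H779R2.An

open Pool.Agent.H721R2 Filter Topology MeasureTheory
open scoped BigOperators

namespace TauAux

/-- relative geometric convergence -/
theorem seq_conv {E : Type*} [NormedAddCommGroup E] [CompleteSpace E] (t : ℕ → E) (c : ℝ)
    (hc0 : 0 ≤ c) (hc : c ≤ 1 / 4)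
    (h : ∀ n, ‖t (n + 1) - t n‖ ≤ c * (1 / 2) ^ n * ‖t n‖) :
    ∃ T, Tendsto t atTop (𝓝 T) ∧ ‖T - t 0‖ ≤ 4 * c * ‖t 0‖ := by
  set a := ‖t 0‖ with ha
  have ha0 : 0 ≤ a := norm_nonneg _
  have hb : ∀ n, ‖t n - t 0‖ ≤ 4 * c * (1 - (1 / 2) ^ n) * a ∧ ‖t n‖ ≤ 2 * a := by
    intro n
    have hpow : ∀ n : ℕ, (0 : ℝ) < (1 / 2) ^ n ∧ ((1 / 2 : ℝ)) ^ n ≤ 1 := fun n =>
      ⟨by positivity, pow_le_one₀ (by norm_num) (by norm_num)⟩
    have hstep : ∀ n, ‖t n - t 0‖ ≤ 4 * c * (1 - (1 / 2) ^ n) * a → ‖t n‖ ≤ 2 * a := by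
      intro n hn
      have h1 : ‖t n‖ ≤ ‖t n - t 0‖ + a := by
        have := norm_add_le (t n - t 0) (t 0)
        rwa [sub_add_cancel] at this
      have h2 : 4 * c * (1 - (1 / 2) ^ n) * a ≤ 1 * a := by
        apply mul_le_mul_of_nonneg_right _ ha0
        have := (hpow n).1
        nlinarith
      linarith
    induction n with
    | zero =>
      refine ⟨by simp, by linarith⟩
    | succ n ih =>
      obtain ⟨h1, h2⟩ := ih
      have h3 := h n
      have h4 : ‖t (n + 1) - t 0‖ ≤ ‖t (n + 1) - t n‖ + ‖t n - t 0‖ := by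
        have := norm_add_le (t (n + 1) - t n) (t n - t 0)
        rwa [sub_add_sub_cancel] at this
      have h5 : c * (1 / 2) ^ n * ‖t n‖ ≤ c * (1 / 2) ^ n * (2 * a) :=
        mul_le_mul_of_nonneg_left h2 (by positivity)
      have h6 : ‖t (n + 1) - t 0‖ ≤ 4 * c * (1 - (1 / 2) ^ (n + 1)) * a := by
        have e : 4 * c * (1 - (1 / 2) ^ (n + 1)) * a =
            4 * c * (1 - (1 / 2) ^ n) * a + c * (1 / 2) ^ n * (2 * a) := by
          rw [pow_succ]; ring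
        rw [e]; linarith
      exact ⟨h6, hstep _ h6⟩
  have hc1 : CauchySeq t := by
    refine cauchySeq_of_le_geometric (1 / 2) (c * (2 * a)) (by norm_num) (fun n => ?_)
    rw [dist_comm, dist_eq_norm]
    calc _ ≤ c * (1 / 2) ^ n * ‖t n‖ := h n
      _ ≤ c * (1 / 2) ^ n * (2 * a) := mul_le_mul_of_nonneg_left (hb n).2 (by positivity)
      _ = _ := by ring
  obtain ⟨T, hT⟩ := cauchySeq_tendsto_of_complete hc1
  refine ⟨T, hT, ?_⟩
  have h1 : Tendsto (fun n => ‖t n - t 0‖) atTop (𝓝 ‖T - t 0‖) := (hT.sub_const _).norm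
  refine le_of_tendsto h1 (Eventually.of_forall fun n => ?_)
  refine (hb n).1.trans ?_
  apply mul_le_mul_of_nonneg_right _ ha0
  have : (0 : ℝ) < (1 / 2) ^ n := by positivity
  nlinarith

/-- pointwise limits of linear maps -/
theorem exists_lim {X E : Type*} [NormedAddCommGroup E] [NormedSpace ℝ E]
    (R : X → X → Prop) (T : ℕ → X → X → E →ₗ[ℝ] E)
    (h : ∀ x y, R x y → ∀ v, ∃ t, Tendsto (fun n => T n x y v) atTop (𝓝 t)) :
    ∃ τ : X → X → E →ₗ[ℝ] E, ∀ x y, R x y → ∀ v,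
      Tendsto (fun n => T n x y v) atTop (𝓝 (τ x y v)) := by
  classical
  have h1 : ∀ x y, ∃ τ : E →ₗ[ℝ] E, R x y → ∀ v, Tendsto (fun n => T n x y v) atTop (𝓝 (τ v)) := by
    intro x y
    by_cases hxy : R x y
    · choose f hf using h x y hxy
      refine ⟨linearMapOfTendsto f (fun n => T n x y) (tendsto_pi_nhds.2 hf), fun _ v => hf v⟩
    · exact ⟨0, fun h' => absurd h' hxy⟩
  choose τ hτ using h1
  exact ⟨τ, fun x y hxy v => hτ x y hxy v⟩

variable {X E : Type*} [MetricSpace X] [CompactSpace X] [NormedAddCommGroup E]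
  [InnerProductSpace ℝ E] [FiniteDimensional ℝ E]

/-- projections onto the unstable spaces -/
structure PD (S : HypSys X E) (Pu : X → E →ₗ[ℝ] E) : Prop where
  mem : ∀ x v, Pu x v ∈ S.Vu x
  norm : ∀ x v, ‖Pu x v‖ ≤ S.K * ‖v‖
  su : ∀ x, ∀ s ∈ S.Vs x, ∀ u ∈ S.Vu x, Pu x (s + u) = u

theorem exists_PD (S : HypSys X E) : ∃ Pu : X → E →ₗ[ℝ] E, PD S Pu := by
  obtain ⟨Pu, Ps, h⟩ := exists_proj S
  exact ⟨Pu, ⟨fun x v => (h x).1 v, fun x v => (h x).2.2.1 v,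
    fun x s hs u hu => ((h x).2.2.2.2 s hs u hu).1⟩⟩

variable {S : HypSys X E} {Pu : X → E →ₗ[ℝ] E}

theorem PD.id (h : PD S Pu) (x : X) {u : E} (hu : u ∈ S.Vu x) : Pu x u = u := by
  have := h.su x 0 (Submodule.zero_mem _) u hu
  rwa [zero_add] at this

theorem PD.near (h : PD S Pu) (η : ℝ) (hη : 0 < η) : ∃ r > 0, ∀ x y, dist x y < r →
    ∀ v ∈ S.Vu x, ‖Pu y v - v‖ ≤ η * ‖v‖ := by
  have hK := S.one_le_K
  obtain ⟨r, hr, h1⟩ := S.A3' (η / (S.K + 1)) (by positivity)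
  refine ⟨r, hr, fun x y hxy v hv => ?_⟩
  obtain ⟨u', hu', h2⟩ := h1 x y hxy v hv
  have e : Pu y v - v = Pu y (v - u') - (v - u') := by
    rw [map_sub, h.id y hu']; abel
  rw [e]
  have h3 := norm_sub_le (Pu y (v - u')) (v - u')
  have h4 := h.norm y (v - u')
  have h5 : (S.K + 1) * ‖v - u'‖ ≤ (S.K + 1) * (η / (S.K + 1) * ‖v‖) :=
    mul_le_mul_of_nonneg_left h2 (by linarith)
  have h6 : (S.K + 1) * (η / (S.K + 1) * ‖v‖) = η * ‖v‖ := by
    field_simp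
  linarith

theorem PD.step (h : PD S Pu) {Q r : ℝ} (hQ : Quad S Q r) : ∀ x y, dist x y < r →
    ∀ v ∈ S.Vu x, ‖S.D y (Pu y v) - Pu (S.g y) (S.D x v)‖ ≤
      (S.Lu + 1) * S.K * Q * dist x y * ‖v‖ := by
  intro x y hxy v hv
  have hK := S.one_le_K
  have hLu := S.one_le_Lu
  obtain ⟨s', hs', u', hu', h1, h2⟩ := hQ.q2 x y hxy 0 (Submodule.zero_mem _) v hv
  rw [zero_add] at h1 h2
  have e1 : Pu y v - u' = Pu y (v - (s' + u')) := by
    rw [map_sub, h.su y s' hs' u' hu']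
  have e2 : Pu (S.g y) (S.D x v) - S.D y u' = Pu (S.g y) (S.D x v - S.D y (s' + u')) := by
    rw [map_sub, map_add, h.su (S.g y) _ (S.mapS y s' hs') _ (S.mapU y u' hu')]
  have e3 : S.D y (Pu y v) - Pu (S.g y) (S.D x v) =
      S.D y (Pu y v - u') - (Pu (S.g y) (S.D x v) - S.D y u') := by
    rw [map_sub]; abel
  have b1 : ‖Pu y v - u'‖ ≤ S.K * (Q * dist x y * ‖v‖) := by
    rw [e1]
    exact (h.norm _ _).trans (mul_le_mul_of_nonneg_left h1 (by linarith))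
  have b2 : ‖Pu (S.g y) (S.D x v) - S.D y u'‖ ≤ S.K * (Q * dist x y * ‖v‖) := by
    rw [e2]
    exact (h.norm _ _).trans (mul_le_mul_of_nonneg_left h2 (by linarith))
  have b3 : ‖S.D y (Pu y v - u')‖ ≤ S.Lu * (S.K * (Q * dist x y * ‖v‖)) :=
    (S.boundU y _ (Submodule.sub_mem _ (h.mem y v) hu')).trans
      (mul_le_mul_of_nonneg_left b1 (by linarith))
  rw [e3]
  have b4 := norm_sub_le (S.D y (Pu y v - u')) (Pu (S.g y) (S.D x v) - S.D y u')
  have e4 : (S.Lu + 1) * S.K * Q * dist x y * ‖v‖ =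
      S.Lu * (S.K * (Q * dist x y * ‖v‖)) + S.K * (Q * dist x y * ‖v‖) := by ring
  linarith

end TauAux

end Pool.Agent.H779R2.An
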