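import Pool.Agent.H779R2.An.Basic
import Pool.Agent.H779R2.An.Proj
import Pool.Agent.H779R2.An.TauAux

set_option autoImplicit false

namespace Pool.Agent.H779R2.An

open Pool.Agent.H721R2 Filter Topology MeasureTheory
open scoped BigOperators

variable {X E : Type*} [MetricSpace X] [CompactSpace X] [NormedAddCommGroup E]
  [InnerProductSpace ℝ E] [FiniteDimensional ℝ E]

namespace T3

open TauAux

variable {S : HypSys X E} {Pu : X → E →ₗ[ℝ] E}

/-- the approximations of `H` -/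
noncomputable def HH (S : HypSys X E) (Pu : X → E →ₗ[ℝ] E) (n : ℕ) (x y : X) : E →ₗ[ℝ] E :=
  (Dn S.symm n (S.g^[n] y)).comp ((Pu (S.g^[n] y)).comp ((Dn S n x).comp (Pu x)))

theorem HH_apply (n : ℕ) (x y : X) (v : E) : HH S Pu n x y v =
    Dn S.symm n (S.g^[n] y) (Pu (S.g^[n] y) (Dn S n x (Pu x v))) := rfl

theorem HH_mem (h : PD S Pu) (n : ℕ) (x y : X) (v : E) : HH S Pu n x y v ∈ S.Vu y := by
  rw [HH_apply]
  have := Dn_symm_mem S n (S.g^[n] y) (h.mem (S.g^[n] y) (Dn S n x (Pu x v)))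
  rwa [iter_symm_iter] at this

theorem HH_tail (h : PD S Pu) (N m : ℕ) (x y : X) (v : E) : HH S Pu (N + m) x y v =
    Dn S.symm N (S.g^[N] y) (HH S Pu m (S.g^[N] x) (S.g^[N] y)
      (Dn S N x (Pu x v))) := by
  have hw : Dn S N x (Pu x v) ∈ S.Vu (S.g^[N] x) := Dn_mem S N x (h.mem x v)
  rw [HH_apply, HH_apply, h.id _ hw]
  have e1 : S.g^[N + m] y = S.g^[m] (S.g^[N] y) := by
    rw [add_comm, Function.iterate_add_apply]
  have e2 : Dn S (N + m) x (Pu x v) =
      Dn S m (S.g^[N] x) (Dn S N x (Pu x v)) := by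
    rw [add_comm, Dn_add]
  have e3 : S.symm.g^[m] (S.g^[m] (S.g^[N] y)) = S.g^[N] y := iter_symm_iter S m _
  rw [e1, e2, Dn_add, e3]

theorem HH_equi (h : PD S Pu) (n : ℕ) (x y : X) {v : E} (hv : v ∈ S.Vu x) :
    HH S Pu n (S.g x) (S.g y) (S.D x v) = S.D y (HH S Pu (n + 1) x y v) := by
  rw [HH_apply, HH_apply, h.id _ hv, h.id _ (S.mapU x v hv)]
  have e2 : Dn S n (S.g x) (S.D x v) = Dn S (n + 1) x v := by
    rw [Dn_succ']
  rw [e2, ← Function.iterate_succ_apply, Dn_succ]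
  set z := S.g^[n.succ] y with hz
  change _ = S.D y (S.D' (S.g.symm^[n] z) (Dn S.symm n z (Pu z (Dn S (n + 1) x v))))
  have e3 : S.g.symm^[n] z = S.g y := by
    rw [hz, Function.iterate_succ_apply, iter_symm_iter]
  have hm : Dn S.symm n z (Pu z (Dn S (n + 1) x v)) ∈ S.Vu (S.g y) := by
    have := Dn_symm_mem S n z (h.mem z (Dn S (n + 1) x v))
    rwa [e3] at this
  rw [e3]
  have := S.invU' (S.g y) _ hm
  rw [Homeomorph.symm_apply_apply] at this
  exact this.symm

theorem HH_step (h : PD S Pu) {Q r K : ℝ} (hQ : Quad S Q r) (hK : QC S K) :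
    ∃ ε > 0, ∃ C > 0, ∀ x y, S.SRel ε x y → ∀ v n,
      ‖HH S Pu (n + 1) x y v - HH S Pu n x y v‖ ≤
        C * dist (S.g^[n] x) (S.g^[n] y) * ‖HH S Pu n x y v‖ := by
  obtain ⟨ε₀, hg⟩ := exists_geo S
  obtain ⟨r1, hr1, hnear⟩ := h.near (1 / 2) (by norm_num)
  have hK1 := S.one_le_K
  have hLu := S.one_le_Lu
  have hQ0 := hQ.Q_pos
  have hr0 := hQ.r_pos
  set C1 := (S.Lu + 1) * S.K * Q with hC1
  have hC10 : 0 < C1 := by positivity
  refine ⟨min ε₀ (min (r1 / 2) (r / 2)), lt_min hg.pos (lt_min (by positivity) (by positivity)),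
    (|K| + 1) * C1, by positivity, fun x y hxy v n => ?_⟩
  have hd1 : ∀ k, dist (S.g^[k] x) (S.g^[k] y) < r1 := fun k => by
    have := (hxy k).trans ((min_le_right _ _).trans (min_le_left _ _))
    linarith
  have hd2 : ∀ k, dist (S.g^[k] x) (S.g^[k] y) < r := fun k => by
    have := (hxy k).trans ((min_le_right _ _).trans (min_le_right _ _))
    linarith
  set xn := S.g^[n] x with hxn
  set yn := S.g^[n] y with hyn
  set y' := S.g^[n + 1] y with hy'
  have ey : S.g yn = y' := by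
    rw [hy', Function.iterate_succ_apply']
  set vn := Dn S n x (Pu x v) with hvn
  have hvn_mem : vn ∈ S.Vu xn := Dn_mem S n x (h.mem x v)
  set v' := Dn S (n + 1) x (Pu x v) with hv'
  have hv'eq : v' = S.D xn vn := by
    rw [hv', Dn_succ]
  set w' := Pu y' v' with hw'
  have hw'_mem : w' ∈ S.Vu y' := h.mem y' v'
  set diff := S.D' y' w' - Pu yn vn with hdiff
  have hyy : S.g.symm y' = yn := by rw [← ey, Homeomorph.symm_apply_apply]
  have hdiff_mem : diff ∈ S.Vu yn := by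
    refine Submodule.sub_mem _ ?_ (h.mem yn vn)
    have := S.mapU' y' _ hw'_mem
    rwa [hyy] at this
  have hw_mem : Pu yn vn ∈ S.Vu yn := h.mem yn vn
  have e1 : HH S Pu (n + 1) x y v - HH S Pu n x y v = Dn S.symm n yn diff := by
    rw [hdiff, map_sub, HH_apply, HH_apply, ← hy', ← hv', Dn_succ']
    congr 1
    change Dn S.symm n (S.g.symm y') (S.D' y' (Pu y' v')) = _
    rw [hyy]
  -- `diff = D' y' (w' - D yn (Pu yn vn))`
  have e2 : diff = S.D' y' (w' - S.D yn (Pu yn vn)) := by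
    rw [map_sub, ← ey, S.invU yn _ hw_mem, ey]
  have hm2 : w' - S.D yn (Pu yn vn) ∈ S.Vu y' := by
    refine Submodule.sub_mem _ hw'_mem ?_
    have := S.mapU yn _ hw_mem
    rwa [ey] at this
  have b1 : ‖w' - S.D yn (Pu yn vn)‖ ≤ C1 * dist xn yn * ‖vn‖ := by
    have := h.step hQ xn yn (hd2 n) vn hvn_mem
    rw [ey, ← hv'eq] at this
    rw [norm_sub_rev]
    exact this
  have b2 : ‖diff‖ ≤ 1 / 16 * (C1 * dist xn yn * ‖vn‖) := by
    rw [e2]
    refine (S.contrU y' _ hm2).trans ?_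
    exact mul_le_mul S.b_le b1 (norm_nonneg _) (by norm_num)
  have b3 : ‖vn‖ ≤ 2 * ‖Pu yn vn‖ := by
    have h1 := hnear xn yn (hd1 n) vn hvn_mem
    have h2 : ‖vn‖ ≤ ‖Pu yn vn‖ + ‖Pu yn vn - vn‖ := by
      have := norm_sub_le (Pu yn vn) (Pu yn vn - vn)
      rwa [sub_sub_cancel] at this
    linarith
  have b5 : ‖diff‖ ≤ C1 * dist xn yn * ‖Pu yn vn‖ := by
    have h2 : C1 * dist xn yn * ‖vn‖ ≤ C1 * dist xn yn * (2 * ‖Pu yn vn‖) :=
      mul_le_mul_of_nonneg_left b3 (by positivity)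
    have h3 : 0 ≤ C1 * dist xn yn * ‖Pu yn vn‖ := by positivity
    have h4 : C1 * dist xn yn * (2 * ‖Pu yn vn‖) = 2 * (C1 * dist xn yn * ‖Pu yn vn‖) := by ring
    linarith
  rw [e1]
  have hqc := hK.back n yn hdiff_mem hw_mem
  have eT : Dn S.symm n yn (Pu yn vn) = HH S Pu n x y v := by rw [HH_apply]
  rw [eT] at hqc
  set w := ‖Pu yn vn‖ with hw
  have hw0 : 0 ≤ w := norm_nonneg _
  rcases eq_or_lt_of_le hw0 with hw1 | hw1
  · have h1 : ‖diff‖ ≤ 0 := by rw [← hw1] at b5; simpa using b5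
    have h2 : diff = 0 := norm_le_zero_iff.1 h1
    rw [h2, map_zero, norm_zero]
    positivity
  · have h1 : K * (‖HH S Pu n x y v‖ * ‖diff‖) ≤
        (|K| + 1) * (‖HH S Pu n x y v‖ * (C1 * dist xn yn * w)) := by
      calc K * (‖HH S Pu n x y v‖ * ‖diff‖) ≤ (|K| + 1) * (‖HH S Pu n x y v‖ * ‖diff‖) := by
            apply mul_le_mul_of_nonneg_right _ (by positivity)
            linarith [le_abs_self K]
        _ ≤ _ := by
            apply mul_le_mul_of_nonneg_left _ (by positivity)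
            exact mul_le_mul_of_nonneg_left b5 (norm_nonneg _)
    have h2 : ‖Dn S.symm n yn diff‖ * w ≤
        ((|K| + 1) * C1 * dist xn yn * ‖HH S Pu n x y v‖) * w := by
      calc _ ≤ _ := hqc
        _ ≤ _ := h1
        _ = _ := by ring
    exact le_of_mul_le_mul_right h2 hw1

theorem HH_conv (h : PD S Pu) {Q r K : ℝ} (hQ : Quad S Q r) (hK : QC S K) (η : ℝ) (hη : 0 < η) :
    ∃ ε > 0, ∀ x y, S.SRel ε x y → ∀ v, ∃ t, Tendsto (fun n => HH S Pu n x y v) atTop (𝓝 t) ∧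
      ‖t - HH S Pu 0 x y v‖ ≤ η * ‖HH S Pu 0 x y v‖ := by
  obtain ⟨ε₀, hg⟩ := exists_geo S
  obtain ⟨ε, hε, C, hC, hs⟩ := HH_step h hQ hK
  set c := min (1 / 4) (η / 4) with hc
  have hc0 : 0 < c := lt_min (by norm_num) (by positivity)
  refine ⟨min ε₀ (min ε (c / C)), lt_min hg.pos (lt_min hε (by positivity)),
    fun x y hxy v => ?_⟩
  have hxy0 : S.SRel ε₀ x y := hxy.mono (min_le_left _ _)
  have hxy1 : S.SRel ε x y := hxy.mono ((min_le_right _ _).trans (min_le_left _ _))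
  have hd : C * dist x y ≤ c := by
    have := (hxy.dist_le).trans ((min_le_right _ _).trans (min_le_right _ _))
    rw [le_div_iff₀ hC] at this
    linarith
  obtain ⟨t, ht, ht2⟩ := seq_conv (fun n => HH S Pu n x y v) c hc0.le (min_le_left _ _)
    (fun n => by
      refine (hs x y hxy1 v n).trans ?_
      apply mul_le_mul_of_nonneg_right _ (norm_nonneg _)
      have h1 := hg.scontr x y hxy0 n
      have h2 : ((1 : ℝ) / 8) ^ n ≤ (1 / 2) ^ n := pow_le_pow_left₀ (by norm_num) (by norm_num) n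
      calc C * dist (S.g^[n] x) (S.g^[n] y) ≤ C * ((1 / 8) ^ n * dist x y) :=
            mul_le_mul_of_nonneg_left h1 hC.le
        _ = (C * dist x y) * (1 / 8) ^ n := by ring
        _ ≤ c * (1 / 2) ^ n := by
            apply mul_le_mul hd h2 (by positivity) hc0.le)
  refine ⟨t, ht, ht2.trans ?_⟩
  apply mul_le_mul_of_nonneg_right _ (norm_nonneg _)
  have := min_le_right (1 / 4 : ℝ) (η / 4)
  linarith

end T3

open TauAux in
/-- T3 -/
theorem hasHol (S : HypSys X E) {Q r K : ℝ} (hQ : Quad S Q r) (hK : QC S K) : HasHol S := by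
  obtain ⟨Pu, h⟩ := exists_PD S
  have hconv : ∀ x y, SAsym S x y → ∀ v, ∃ t, Tendsto (fun n => T3.HH S Pu n x y v) atTop (𝓝 t) := by
    intro x y hxy v
    obtain ⟨ε, hε, hc⟩ := T3.HH_conv h hQ hK 1 one_pos
    obtain ⟨N, hN⟩ := hxy.eventually hε
    obtain ⟨t, ht, -⟩ := hc _ _ (hN N le_rfl) (Dn S N x (Pu x v))
    refine ⟨Dn S.symm N (S.g^[N] y) t, ?_⟩
    rw [← tendsto_add_atTop_iff_nat N]
    have hcont : Continuous (Dn S.symm N (S.g^[N] y)) :=
      LinearMap.continuous_of_finiteDimensional _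
    refine ((hcont.tendsto t).comp ht).congr (fun m => ?_)
    rw [add_comm m N, T3.HH_tail h]
    rfl
  obtain ⟨τ, hτ⟩ := exists_lim (SAsym S) (T3.HH S Pu) hconv
  refine ⟨τ, ?_, ?_, ?_⟩
  · intro x y hxy v _
    exact (Submodule.closed_of_finiteDimensional (S.Vu y)).mem_of_tendsto (hτ x y hxy v)
      (Eventually.of_forall fun n => T3.HH_mem h n x y v)
  · intro x y hxy v hv
    have h1 := hτ _ _ hxy.map (S.D x v)
    have h2 := (tendsto_add_atTop_iff_nat 1).2 (hτ x y hxy v)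
    have hcont : Continuous (S.D y) := LinearMap.continuous_of_finiteDimensional _
    have h3 := (hcont.tendsto _).comp h2
    refine tendsto_nhds_unique h1 (h3.congr fun n => ?_)
    exact (T3.HH_equi h n x y hv).symm
  · intro η hη
    obtain ⟨ε₀, hg⟩ := exists_geo S
    obtain ⟨ε, hε, hc⟩ := T3.HH_conv h hQ hK (min 1 (η / 4)) (lt_min one_pos (by positivity))
    obtain ⟨r1, hr1, hnear⟩ := h.near (min 1 (η / 2)) (lt_min one_pos (by positivity))
    refine ⟨min ε₀ (min ε (r1 / 2)), lt_min hg.pos (lt_min hε (by positivity)),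
      fun x y hxy v hv => ?_⟩
    have hxy0 := hxy.mono (min_le_left _ _)
    have hxy1 : S.SRel ε x y := hxy.mono ((min_le_right _ _).trans (min_le_left _ _))
    have hd : dist x y < r1 := by
      have := (hxy.dist_le).trans ((min_le_right _ _).trans (min_le_right _ _))
      linarith
    obtain ⟨t, ht, ht2⟩ := hc x y hxy1 v
    have e0 : T3.HH S Pu 0 x y v = Pu y v := by
      rw [T3.HH_apply]
      simp only [Function.iterate_zero, id_eq, Dn_zero]
      rw [h.id x hv]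
    rw [e0] at ht2
    have et : τ x y v = t := tendsto_nhds_unique (hτ x y (hg.sasym _ _ hxy0) v) ht
    rw [et]
    have h1 := hnear x y hd v hv
    have h2 : ‖Pu y v‖ ≤ 2 * ‖v‖ := by
      have h3 : ‖Pu y v‖ ≤ ‖Pu y v - v‖ + ‖v‖ := by
        have := norm_add_le (Pu y v - v) v
        rwa [sub_add_cancel] at this
      have h4 : min 1 (η / 2) * ‖v‖ ≤ 1 * ‖v‖ :=
        mul_le_mul_of_nonneg_right (min_le_left _ _) (norm_nonneg _)
      linarith
    have h5 : ‖t - v‖ ≤ ‖t - Pu y v‖ + ‖Pu y v - v‖ := by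
      have := norm_add_le (t - Pu y v) (Pu y v - v)
      rwa [sub_add_sub_cancel] at this
    have h6 : min 1 (η / 4) * ‖Pu y v‖ ≤ η / 4 * (2 * ‖v‖) :=
      mul_le_mul (min_le_right _ _) h2 (norm_nonneg _) (by positivity)
    have h7 : min 1 (η / 2) * ‖v‖ ≤ η / 2 * ‖v‖ :=
      mul_le_mul_of_nonneg_right (min_le_right _ _) (norm_nonneg _)
    linarith

end Pool.Agent.H779R2.An
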