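import Pool.Agent.H779R2.An.Basic
import Pool.Agent.H779R2.An.Proj

set_option autoImplicit false

namespace Pool.Agent.H779R2.An

open Pool.Agent.H721R2 Filter Topology MeasureTheory
open scoped BigOperators

variable {X E : Type*} [MetricSpace X] [CompactSpace X] [NormedAddCommGroup E]
  [InnerProductSpace ℝ E] [FiniteDimensional ℝ E]

namespace HasLcAux

/-- the approximations of the linearizing coordinate -/
noncomputable def A (S : HypSys X E) (Pu : X → E →ₗ[ℝ] E) (n : ℕ) (x y : X) : E :=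
  Dn S n (S.g.symm^[n] x) (Pu (S.g.symm^[n] x) (S.e (S.g.symm^[n] y) - S.e (S.g.symm^[n] x)))

/-- property of the projections -/
structure IsPu (S : HypSys X E) (Pu : X → E →ₗ[ℝ] E) : Prop where
  mem : ∀ x v, Pu x v ∈ S.Vu x
  le : ∀ x v, ‖Pu x v‖ ≤ S.K * ‖v‖
  add : ∀ x, ∀ s ∈ S.Vs x, ∀ u ∈ S.Vu x, Pu x (s + u) = u

theorem IsPu.self {S : HypSys X E} {Pu : X → E →ₗ[ℝ] E} (h : IsPu S Pu) (x : X) {u : E}
    (hu : u ∈ S.Vu x) : Pu x u = u := by
  have := h.add x 0 (Submodule.zero_mem _) u hu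
  rwa [zero_add] at this

/-- the second order estimate for one step -/
theorem step (S : HypSys X E) {Q r : ℝ} (hQ : Quad S Q r) {Pu : X → E →ₗ[ℝ] E}
    (hP : IsPu S Pu) : ∃ C : ℝ, 0 < C ∧ ∀ p q : X, dist p q < r →
      ‖Pu (S.g p) (S.e (S.g q) - S.e (S.g p)) - S.D p (Pu p (S.e q - S.e p))‖ ≤
        C * dist p q ^ 2 := by
  have hK := S.one_le_K
  have hLu := S.one_le_Lu
  have hQ0 := hQ.Q_pos
  refine ⟨S.K * Q * (1 + S.Lu), by positivity, ?_⟩
  intro p q hpq
  obtain ⟨s, hs, u, hu, h1, h2⟩ := hQ.q1 p q hpq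
  have e1 : Pu p (S.e q - S.e p) - u = Pu p (S.e q - S.e p - (s + u)) := by
    rw [map_sub (Pu p) (S.e q - S.e p) (s + u), hP.add p s hs u hu]
  have h3 : ‖Pu p (S.e q - S.e p) - u‖ ≤ S.K * (Q * dist p q ^ 2) := by
    rw [e1]
    exact (hP.le p _).trans (mul_le_mul_of_nonneg_left h1 (by linarith))
  have hmem : Pu p (S.e q - S.e p) - u ∈ S.Vu p := Submodule.sub_mem _ (hP.mem p _) hu
  have h4 : ‖S.D p (Pu p (S.e q - S.e p) - u)‖ ≤ S.Lu * (S.K * (Q * dist p q ^ 2)) :=
    (S.boundU p _ hmem).trans (mul_le_mul_of_nonneg_left h3 (by linarith))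
  have e2 : Pu (S.g p) (S.e (S.g q) - S.e (S.g p)) - S.D p u =
      Pu (S.g p) (S.e (S.g q) - S.e (S.g p) - S.D p (s + u)) := by
    rw [map_sub (Pu (S.g p)) (S.e (S.g q) - S.e (S.g p)) (S.D p (s + u)),
      map_add (S.D p) s u, hP.add (S.g p) _ (S.mapS p s hs) _ (S.mapU p u hu)]
  have h5 : ‖Pu (S.g p) (S.e (S.g q) - S.e (S.g p)) - S.D p u‖ ≤ S.K * (Q * dist p q ^ 2) := by
    rw [e2]
    exact (hP.le _ _).trans (mul_le_mul_of_nonneg_left h2 (by linarith))
  have e3 : Pu (S.g p) (S.e (S.g q) - S.e (S.g p)) - S.D p (Pu p (S.e q - S.e p)) =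
      (Pu (S.g p) (S.e (S.g q) - S.e (S.g p)) - S.D p u) -
        S.D p (Pu p (S.e q - S.e p) - u) := by
    rw [map_sub (S.D p)]
    abel
  rw [e3]
  have h6 := norm_sub_le (Pu (S.g p) (S.e (S.g q) - S.e (S.g p)) - S.D p u)
    (S.D p (Pu p (S.e q - S.e p) - u))
  have e4 : S.K * Q * (1 + S.Lu) * dist p q ^ 2 =
      S.K * (Q * dist p q ^ 2) + S.Lu * (S.K * (Q * dist p q ^ 2)) := by ring
  rw [e4]
  linarith

/-- the unstable part of the difference -/
theorem near_w (S : HypSys X E) {Pu : X → E →ₗ[ℝ] E} (hP : IsPu S Pu) (η : ℝ) (hη : 0 < η) :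
    ∃ ε : ℝ, 0 < ε ∧ ∀ p q : X, S.URel ε p q →
      ‖Pu p (S.e q - S.e p) - (S.e q - S.e p)‖ ≤ η * dist p q := by
  have hK := S.one_le_K
  set η' : ℝ := min 1 (η / (2 * (S.K + 1))) with hη'
  have hη'0 : 0 < η' := lt_min one_pos (by positivity)
  have hη'1 : η' ≤ 1 := min_le_left _ _
  have hη'2 : η' * (2 * (S.K + 1)) ≤ η := by
    have : η' ≤ η / (2 * (S.K + 1)) := min_le_right _ _
    rwa [le_div_iff₀ (by positivity)] at this
  obtain ⟨ε, hε, h⟩ := S.symm.coneS' η' hη'0 hη'1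
  refine ⟨ε, hε, ?_⟩
  intro p q hpq
  obtain ⟨u, hu, h1⟩ := h p q hpq
  have hu' : u ∈ S.Vu p := hu
  have h1' : ‖S.e q - S.e p - u‖ ≤ 2 * η' * dist p q := h1
  have e1 : Pu p (S.e q - S.e p) - (S.e q - S.e p) =
      Pu p (S.e q - S.e p - u) - (S.e q - S.e p - u) := by
    rw [map_sub (Pu p) (S.e q - S.e p) u, hP.self p hu']
    abel
  rw [e1]
  have h2 := norm_sub_le (Pu p (S.e q - S.e p - u)) (S.e q - S.e p - u)
  have h3 := hP.le p (S.e q - S.e p - u)
  have h4 : S.K * ‖S.e q - S.e p - u‖ ≤ S.K * (2 * η' * dist p q) :=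
    mul_le_mul_of_nonneg_left h1' (by linarith)
  have h5 : η' * (2 * (S.K + 1)) * dist p q ≤ η * dist p q :=
    mul_le_mul_of_nonneg_right hη'2 dist_nonneg
  have e2 : η' * (2 * (S.K + 1)) * dist p q =
      S.K * (2 * η' * dist p q) + 2 * η' * dist p q := by ring
  rw [e2] at h5
  linarith

/-- the main estimate for close points -/
theorem close (S : HypSys X E) {Q r K : ℝ} (hQ : Quad S Q r) (hK : QC S K)
    {Pu : X → E →ₗ[ℝ] E} (hP : IsPu S Pu) :
    ∃ M : ℝ, 0 < M ∧ ∃ ε : ℝ, 0 < ε ∧ ∀ x y : X, S.URel ε x y →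
      ∃ L : E, Tendsto (fun n : ℕ => A S Pu n x y) atTop (𝓝 L) ∧
        ‖L - Pu x (S.e y - S.e x)‖ ≤ M * dist x y * dist x y := by
  obtain ⟨C, hC, hstep⟩ := step S hQ hP
  obtain ⟨ε₀, hgeo⟩ := exists_geo S
  obtain ⟨ε₁, hε₁, hw⟩ := near_w S hP (1 / 2) (by norm_num)
  have hSK := S.one_le_K
  have hr := hQ.r_pos
  set M : ℝ := |K| * C + 1 with hM
  have hM0 : 0 < M := by positivity
  have hε₀ := hgeo.pos
  set ε : ℝ := min (min ε₀ ε₁) (min (r / 2) (1 / (4 * M))) with hε
  have hεpos : 0 < ε := lt_min (lt_min hε₀ hε₁) (lt_min (by positivity) (by positivity))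
  have hε0' : ε ≤ ε₀ := (min_le_left _ _).trans (min_le_left _ _)
  have hε1' : ε ≤ ε₁ := (min_le_left _ _).trans (min_le_right _ _)
  have hεr : ε ≤ r / 2 := (min_le_right _ _).trans (min_le_left _ _)
  have hεM : ε ≤ 1 / (4 * M) := (min_le_right _ _).trans (min_le_right _ _)
  refine ⟨3 * M * S.K, by positivity, ε, hεpos, ?_⟩
  intro x y hxy
  set d : ℝ := dist x y with hd
  have hd0 : 0 ≤ d := dist_nonneg
  have hdε : d ≤ ε := hxy.dist_le
  have hMd : M * d ≤ 1 / 4 := by
    have h1 : d ≤ 1 / (4 * M) := hdε.trans hεM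
    rw [le_div_iff₀ (by positivity)] at h1
    linarith
  -- the increments
  have hinc : ∀ n : ℕ, ‖A S Pu (n + 1) x y - A S Pu n x y‖ ≤
      M * d * (1 / 8) ^ n * ‖A S Pu n x y‖ := by
    intro n
    set xn := S.g.symm^[n] x with hxn
    set yn := S.g.symm^[n] y with hyn
    set p := S.g.symm^[n + 1] x with hp
    set q := S.g.symm^[n + 1] y with hq
    have hgp : S.g p = xn := by
      rw [hp, Function.iterate_succ_apply', Homeomorph.apply_symm_apply]
    have hgq : S.g q = yn := by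
      rw [hq, Function.iterate_succ_apply', Homeomorph.apply_symm_apply]
    have hpe : p = S.g.symm^[1] xn := by
      rw [hp, Function.iterate_succ_apply']
      rfl
    have hqe : q = S.g.symm^[1] yn := by
      rw [hq, Function.iterate_succ_apply']
      rfl
    have hUn : S.URel ε xn yn := hxy.iter n
    have hdn : dist xn yn ≤ (1 / 8) ^ n * d := hgeo.ucontr x y (hxy.mono hε0') n
    have hdn1 : dist p q ≤ 1 / 8 * dist xn yn := by
      have := hgeo.ucontr xn yn (hUn.mono hε0') 1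
      rw [pow_one, ← hpe, ← hqe] at this
      exact this
    have hdn0 : 0 ≤ dist xn yn := dist_nonneg
    have hpq0 : 0 ≤ dist p q := dist_nonneg
    have hpqr : dist p q < r := by
      have := hUn.dist_le
      linarith
    set w := Pu xn (S.e yn - S.e xn) with hw'
    set w1 := Pu p (S.e q - S.e p) with hw1
    have hwmem : w ∈ S.Vu xn := hP.mem _ _
    have hDmem : S.D p w1 ∈ S.Vu xn := by
      rw [← hgp]
      exact S.mapU p w1 (hP.mem _ _)
    have e1 : A S Pu (n + 1) x y = Dn S n xn (S.D p w1) := by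
      show Dn S (n + 1) p w1 = _
      rw [Dn_succ', hgp]
    have e0 : A S Pu n x y = Dn S n xn w := rfl
    have e2 : A S Pu (n + 1) x y - A S Pu n x y = Dn S n xn (S.D p w1 - w) := by
      rw [e1, e0, map_sub]
    have hst : ‖S.D p w1 - w‖ ≤ C * dist p q ^ 2 := by
      have := hstep p q hpqr
      rw [hgp, hgq] at this
      rw [norm_sub_rev]
      exact this
    have hwlow : dist xn yn ≤ 2 * ‖w‖ := by
      have h1 := hw xn yn (hUn.mono hε1')
      have h2 : dist xn yn = ‖S.e yn - S.e xn‖ := by rw [dist_comm, S.isom]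
      have h3 := norm_sub_le w (w - (S.e yn - S.e xn))
      rw [sub_sub_cancel, ← h2] at h3
      linarith
    rcases hdn0.eq_or_lt with hz | hz
    · -- equal points
      have hxy' : xn = yn := dist_le_zero.1 hz.symm.le
      have hpq' : dist p q = 0 := by
        have : dist p q ≤ 0 := by
          rw [← hz] at hdn1
          linarith
        linarith
      have h1 : S.D p w1 - w = 0 := by
        have : ‖S.D p w1 - w‖ ≤ 0 := by
          rw [hpq'] at hst
          simpa using hst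
        exact norm_le_zero_iff.1 this
      rw [e2, h1, map_zero, norm_zero]
      positivity
    · have hw0 : 0 < ‖w‖ := by linarith
      have hq := hK n xn (S.D p w1 - w) (Submodule.sub_mem _ hDmem hwmem) w hwmem
      rw [← e2, ← e0] at hq
      have h1 : K * (‖A S Pu n x y‖ * ‖S.D p w1 - w‖) ≤
          |K| * (‖A S Pu n x y‖ * (C * dist p q ^ 2)) := by
        have h2 : K * (‖A S Pu n x y‖ * ‖S.D p w1 - w‖) ≤
            |K| * (‖A S Pu n x y‖ * ‖S.D p w1 - w‖) :=
          mul_le_mul_of_nonneg_right (le_abs_self K) (by positivity)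
        have h3 : |K| * (‖A S Pu n x y‖ * ‖S.D p w1 - w‖) ≤
            |K| * (‖A S Pu n x y‖ * (C * dist p q ^ 2)) :=
          mul_le_mul_of_nonneg_left (mul_le_mul_of_nonneg_left hst (norm_nonneg _))
            (abs_nonneg _)
        linarith
      have h4 : dist p q ^ 2 ≤ (1 / 8) ^ n * d * ‖w‖ := by
        have h5 : dist p q ^ 2 ≤ (1 / 8 * dist xn yn) * (1 / 8 * dist xn yn) := by
          rw [sq]
          exact mul_le_mul hdn1 hdn1 hpq0 (by positivity)
        have h6 : dist xn yn * dist xn yn ≤ ((1 / 8) ^ n * d) * (2 * ‖w‖) :=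
          mul_le_mul hdn hwlow hdn0 (by positivity)
        have h7 : 0 ≤ (1 / 8 : ℝ) ^ n * d * ‖w‖ := by positivity
        nlinarith
      have h8 : ‖A S Pu (n + 1) x y - A S Pu n x y‖ * ‖w‖ ≤
          (M * d * (1 / 8) ^ n * ‖A S Pu n x y‖) * ‖w‖ := by
        have h9 : |K| * (‖A S Pu n x y‖ * (C * dist p q ^ 2)) ≤
            |K| * (‖A S Pu n x y‖ * (C * ((1 / 8) ^ n * d * ‖w‖))) :=
          mul_le_mul_of_nonneg_left (mul_le_mul_of_nonneg_left
            (mul_le_mul_of_nonneg_left h4 hC.le) (norm_nonneg _)) (abs_nonneg _)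
        have h10 : (M * d * (1 / 8) ^ n * ‖A S Pu n x y‖) * ‖w‖ =
            |K| * (‖A S Pu n x y‖ * (C * ((1 / 8) ^ n * d * ‖w‖))) +
              d * (1 / 8) ^ n * ‖A S Pu n x y‖ * ‖w‖ := by
          rw [hM]
          ring
        have h11 : 0 ≤ d * (1 / 8) ^ n * ‖A S Pu n x y‖ * ‖w‖ := by positivity
        rw [h10]
        linarith
      exact le_of_mul_le_mul_right h8 hw0
  -- boundedness
  set N0 := ‖A S Pu 0 x y‖ with hN0
  have hN0' : 0 ≤ N0 := norm_nonneg _
  have hbound : ∀ n : ℕ, ‖A S Pu n x y - A S Pu 0 x y‖ ≤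
      2 * (M * d) * N0 * (8 / 7 * (1 - (1 / 8) ^ n)) := by
    intro n
    induction n with
    | zero => simp
    | succ n ih =>
      have hp1 : (0 : ℝ) < (1 / 8) ^ n := by positivity
      have h1 : ‖A S Pu n x y‖ ≤ 2 * N0 := by
        have h2 := norm_add_le (A S Pu n x y - A S Pu 0 x y) (A S Pu 0 x y)
        rw [sub_add_cancel] at h2
        have h3 : 2 * (M * d) * N0 * (8 / 7 * (1 - (1 / 8) ^ n)) ≤
            2 * (1 / 4) * N0 * (8 / 7 * 1) := by
          have h4 : 2 * (M * d) * N0 ≤ 2 * (1 / 4) * N0 :=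
            mul_le_mul_of_nonneg_right (by linarith) hN0'
          have h5 : (8 : ℝ) / 7 * (1 - (1 / 8) ^ n) ≤ 8 / 7 * 1 := by linarith
          have h6 : (0 : ℝ) ≤ 8 / 7 * (1 - (1 / 8) ^ n) := by
            have : (1 / 8 : ℝ) ^ n ≤ 1 := pow_le_one₀ (by norm_num) (by norm_num)
            linarith
          exact mul_le_mul h4 h5 h6 (by positivity)
        linarith
      have h2 := hinc n
      have h3 : M * d * (1 / 8) ^ n * ‖A S Pu n x y‖ ≤ M * d * (1 / 8) ^ n * (2 * N0) :=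
        mul_le_mul_of_nonneg_left h1 (by positivity)
      have h4 := norm_add_le (A S Pu (n + 1) x y - A S Pu n x y)
        (A S Pu n x y - A S Pu 0 x y)
      rw [sub_add_sub_cancel] at h4
      have h5 : 2 * (M * d) * N0 * (8 / 7 * (1 - (1 / 8) ^ (n + 1))) =
          M * d * (1 / 8) ^ n * (2 * N0) + 2 * (M * d) * N0 * (8 / 7 * (1 - (1 / 8) ^ n)) := by
        rw [pow_succ]
        ring
      rw [h5]
      linarith
  have hle2 : ∀ n : ℕ, ‖A S Pu n x y‖ ≤ 2 * N0 := by
    intro n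
    have hp1 : (0 : ℝ) < (1 / 8) ^ n := by positivity
    have h2 := norm_add_le (A S Pu n x y - A S Pu 0 x y) (A S Pu 0 x y)
    rw [sub_add_cancel] at h2
    have h3 : 2 * (M * d) * N0 * (8 / 7 * (1 - (1 / 8) ^ n)) ≤
        2 * (1 / 4) * N0 * (8 / 7 * 1) := by
      have h4 : 2 * (M * d) * N0 ≤ 2 * (1 / 4) * N0 :=
        mul_le_mul_of_nonneg_right (by linarith) hN0'
      have h5 : (8 : ℝ) / 7 * (1 - (1 / 8) ^ n) ≤ 8 / 7 * 1 := by linarith
      have h6 : (0 : ℝ) ≤ 8 / 7 * (1 - (1 / 8) ^ n) := by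
        have : (1 / 8 : ℝ) ^ n ≤ 1 := pow_le_one₀ (by norm_num) (by norm_num)
        linarith
      exact mul_le_mul h4 h5 h6 (by positivity)
    have := hbound n
    linarith
  have hgeom : ∀ n : ℕ, dist (A S Pu n x y) (A S Pu (n + 1) x y) ≤
      (2 * (M * d) * N0) * (1 / 8) ^ n := by
    intro n
    rw [dist_comm, dist_eq_norm]
    have h3 : M * d * (1 / 8) ^ n * ‖A S Pu n x y‖ ≤ M * d * (1 / 8) ^ n * (2 * N0) :=
      mul_le_mul_of_nonneg_left (hle2 n) (by positivity)
    have h4 := hinc n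
    have h5 : (2 * (M * d) * N0) * (1 / 8) ^ n = M * d * (1 / 8) ^ n * (2 * N0) := by ring
    rw [h5]
    linarith
  have hcs : CauchySeq (fun n : ℕ => A S Pu n x y) :=
    cauchySeq_of_le_geometric (1 / 8) (2 * (M * d) * N0) (by norm_num) hgeom
  obtain ⟨L, hL⟩ := cauchySeq_tendsto_of_complete hcs
  refine ⟨L, hL, ?_⟩
  have h1 := dist_le_of_le_geometric_of_tendsto₀ (1 / 8) (2 * (M * d) * N0) (by norm_num)
    hgeom hL
  rw [dist_comm, dist_eq_norm] at h1
  have h2 : A S Pu 0 x y = Pu x (S.e y - S.e x) := rfl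
  rw [h2] at h1
  have h3 : N0 ≤ S.K * d := by
    have h4 := hP.le x (S.e y - S.e x)
    have h5 : dist x y = ‖S.e y - S.e x‖ := by rw [dist_comm, S.isom]
    rw [← h5] at h4
    exact h4
  have h6 : 2 * (M * d) * N0 / (1 - 1 / 8) ≤ 3 * M * S.K * d * d := by
    have h7 : (M * d) * N0 ≤ (M * d) * (S.K * d) := mul_le_mul_of_nonneg_left h3 (by positivity)
    have h8 : 0 ≤ (M * d) * (S.K * d) := by positivity
    rw [div_le_iff₀ (by norm_num)]
    nlinarith
  exact h1.trans h6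

/-- the limit exists for all points of the same unstable leaf -/
theorem conv (S : HypSys X E) {Pu : X → E →ₗ[ℝ] E} {ε : ℝ} (hε : 0 < ε)
    (h : ∀ x y : X, S.URel ε x y → ∃ L : E, Tendsto (fun n : ℕ => A S Pu n x y) atTop (𝓝 L))
    (x y : X) (hxy : UAsym S x y) : ∃ L : E, Tendsto (fun n : ℕ => A S Pu n x y) atTop (𝓝 L) := by
  obtain ⟨N, hN⟩ := hxy.eventually hε
  obtain ⟨L, hL⟩ := h _ _ (hN N le_rfl)
  refine ⟨Dn S N (S.g.symm^[N] x) L, ?_⟩
  rw [← tendsto_add_atTop_iff_nat N]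
  have hcont : Continuous (Dn S N (S.g.symm^[N] x)) :=
    LinearMap.continuous_of_finiteDimensional _
  refine ((hcont.tendsto L).comp hL).congr (fun m => ?_)
  show Dn S N (S.g.symm^[N] x) (Dn S m (S.g.symm^[m] (S.g.symm^[N] x))
    (Pu (S.g.symm^[m] (S.g.symm^[N] x)) (S.e (S.g.symm^[m] (S.g.symm^[N] y)) -
      S.e (S.g.symm^[m] (S.g.symm^[N] x))))) = A S Pu (m + N) x y
  unfold A
  rw [Function.iterate_add_apply, Function.iterate_add_apply, add_comm m N, Dn_add,
    iter_iter_symm]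

end HasLcAux

open HasLcAux in
/-- T1 -/
theorem hasLc (S : HypSys X E) {Q r K : ℝ} (hQ : Quad S Q r) (hK : QC S K) : HasLc S := by
  classical
  obtain ⟨Pu, Ps, hPP⟩ := exists_proj S
  have hP : IsPu S Pu := ⟨fun x v => (hPP x).1 v, fun x v => (hPP x).2.2.1 v,
    fun x s hs u hu => ((hPP x).2.2.2.2 s hs u hu).1⟩
  obtain ⟨M, hM, ε, hε, hclose⟩ := close S hQ hK hP
  have hconv : ∀ x y, UAsym S x y →
      ∃ L : E, Tendsto (fun n : ℕ => A S Pu n x y) atTop (𝓝 L) := fun x y hxy =>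
    conv S hε (fun x y h => by obtain ⟨L, hL, -⟩ := hclose x y h; exact ⟨L, hL⟩) x y hxy
  obtain ⟨ε₀, hgeo⟩ := exists_geo S
  refine ⟨fun x y => if h : UAsym S x y then Classical.choose (hconv x y h) else 0, ?_, ?_, ?_⟩
  · intro x y hxy
    beta_reduce
    rw [dif_pos hxy]
    have hspec := Classical.choose_spec (hconv x y hxy)
    have hcl : IsClosed (S.Vu x : Set E) := Submodule.closed_of_finiteDimensional _
    refine hcl.mem_of_tendsto hspec (Filter.Eventually.of_forall (fun n => ?_))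
    have h1 := Dn_mem S n (S.g.symm^[n] x) (hP.mem (S.g.symm^[n] x)
      (S.e (S.g.symm^[n] y) - S.e (S.g.symm^[n] x)))
    rw [iter_iter_symm] at h1
    exact h1
  · intro x y hxy
    have hxy' := hxy.map
    beta_reduce
    rw [dif_pos hxy, dif_pos hxy']
    have h1 := Classical.choose_spec (hconv x y hxy)
    have h2 := Classical.choose_spec (hconv _ _ hxy')
    have hcont : Continuous (S.D x) := LinearMap.continuous_of_finiteDimensional _
    have h3 := (hcont.tendsto _).comp h1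
    have h4 := (tendsto_add_atTop_iff_nat 1).mpr h2
    refine tendsto_nhds_unique h4 (h3.congr (fun n => ?_))
    show S.D x (A S Pu n x y) = A S Pu (n + 1) (S.g x) (S.g y)
    unfold A
    rw [Function.iterate_succ_apply, Function.iterate_succ_apply, Homeomorph.symm_apply_apply,
      Homeomorph.symm_apply_apply, Dn_succ, iter_iter_symm]
  · intro η hη
    obtain ⟨ε₁, hε₁, hw⟩ := near_w S hP (η / 2) (by positivity)
    have hε₀ := hgeo.pos
    refine ⟨min (min ε ε₀) (min ε₁ (η / (2 * M))), lt_min (lt_min hε hε₀)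
      (lt_min hε₁ (by positivity)), ?_⟩
    intro x y hxy
    have hU : UAsym S x y := hgeo.uasym x y
      (hxy.mono ((min_le_left _ _).trans (min_le_right _ _)))
    beta_reduce
    rw [dif_pos hU]
    have h1 := Classical.choose_spec (hconv x y hU)
    obtain ⟨L, hL, hL2⟩ := hclose x y (hxy.mono ((min_le_left _ _).trans (min_le_left _ _)))
    rw [tendsto_nhds_unique h1 hL]
    have h3 := hw x y (hxy.mono ((min_le_right _ _).trans (min_le_left _ _)))
    have h4 : dist x y ≤ η / (2 * M) :=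
      hxy.dist_le.trans ((min_le_right _ _).trans (min_le_right _ _))
    have h5 : M * dist x y ≤ η / 2 := by
      rw [le_div_iff₀ (by positivity)] at h4
      linarith
    have h6 : M * dist x y * dist x y ≤ η / 2 * dist x y :=
      mul_le_mul_of_nonneg_right h5 dist_nonneg
    have h7 := norm_add_le (L - Pu x (S.e y - S.e x))
      (Pu x (S.e y - S.e x) - (S.e y - S.e x))
    rw [sub_add_sub_cancel] at h7
    have h8 : η * dist x y = η / 2 * dist x y + η / 2 * dist x y := by ring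
    rw [h8]
    linarith

end Pool.Agent.H779R2.An
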