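import Pool.Agent.H779R2.An.Basic
import Pool.Agent.H779R2.An.Proj
import Pool.Agent.H779R2.An.TauAux

set_option autoImplicit false

namespace Pool.Agent.H779R2.An

open Pool.Agent.H721R2 Filter Topology MeasureTheory
open scoped BigOperators

variable {X E : Type*} [MetricSpace X] [CompactSpace X] [NormedAddCommGroup E]
  [InnerProductSpace ℝ E] [FiniteDimensional ℝ E]

namespace T2

open TauAux

variable {S : HypSys X E} {Pu : X → E →ₗ[ℝ] E}

/-- the approximations of `τ` -/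
noncomputable def TT (S : HypSys X E) (Pu : X → E →ₗ[ℝ] E) (n : ℕ) (x y : X) : E →ₗ[ℝ] E :=
  (Dn S n (S.g.symm^[n] y)).comp ((Pu (S.g.symm^[n] y)).comp ((Dn S.symm n x).comp (Pu x)))

theorem TT_apply (n : ℕ) (x y : X) (v : E) : TT S Pu n x y v =
    Dn S n (S.g.symm^[n] y) (Pu (S.g.symm^[n] y) (Dn S.symm n x (Pu x v))) := rfl

theorem TT_mem (h : PD S Pu) (n : ℕ) (x y : X) (v : E) : TT S Pu n x y v ∈ S.Vu y := by
  rw [TT_apply]
  have := Dn_mem S n (S.g.symm^[n] y) (h.mem (S.g.symm^[n] y) (Dn S.symm n x (Pu x v)))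
  rwa [iter_iter_symm] at this

theorem TT_tail (h : PD S Pu) (N m : ℕ) (x y : X) (v : E) : TT S Pu (N + m) x y v =
    Dn S N (S.g.symm^[N] y) (TT S Pu m (S.g.symm^[N] x) (S.g.symm^[N] y)
      (Dn S.symm N x (Pu x v))) := by
  have hw : Dn S.symm N x (Pu x v) ∈ S.Vu (S.g.symm^[N] x) := Dn_symm_mem S N x (h.mem x v)
  rw [TT_apply, TT_apply, h.id _ hw]
  have e1 : S.g.symm^[N + m] y = S.g.symm^[m] (S.g.symm^[N] y) := by
    rw [add_comm, Function.iterate_add_apply]
  have e2 : Dn S.symm (N + m) x (Pu x v) =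
      Dn S.symm m (S.g.symm^[N] x) (Dn S.symm N x (Pu x v)) := by
    rw [add_comm, Dn_add]
    rfl
  rw [e1, e2, Dn_add, iter_iter_symm]

theorem TT_equi (h : PD S Pu) (n : ℕ) (x y : X) {v : E} (hv : v ∈ S.Vu x) :
    TT S Pu (n + 1) (S.g x) (S.g y) (S.D x v) = S.D y (TT S Pu n x y v) := by
  rw [TT_apply, TT_apply, h.id _ hv, h.id _ (S.mapU x v hv)]
  have e1 : S.g.symm^[n + 1] (S.g y) = S.g.symm^[n] y := by
    rw [Function.iterate_succ_apply, Homeomorph.symm_apply_apply]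
  have e2 : Dn S.symm (n + 1) (S.g x) (S.D x v) = Dn S.symm n x v := by
    rw [Dn_succ']
    change Dn S.symm n (S.g.symm (S.g x)) (S.D' (S.g x) (S.D x v)) = _
    rw [S.invU x v hv, Homeomorph.symm_apply_apply]
  rw [e1, e2, Dn_succ, iter_iter_symm]

theorem TT_step (h : PD S Pu) {Q r K : ℝ} (hQ : Quad S Q r) (hK : QC S K) :
    ∃ ε > 0, ∃ C > 0, ∀ x y, S.URel ε x y → ∀ v n,
      ‖TT S Pu (n + 1) x y v - TT S Pu n x y v‖ ≤
        C * dist (S.g.symm^[n] x) (S.g.symm^[n] y) * ‖TT S Pu n x y v‖ := by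
  obtain ⟨ε₀, hg⟩ := exists_geo S
  obtain ⟨r1, hr1, hnear⟩ := h.near (1 / 2) (by norm_num)
  have hK1 := S.one_le_K
  have hLu := S.one_le_Lu
  have hQ0 := hQ.Q_pos
  have hr0 := hQ.r_pos
  set C1 := (S.Lu + 1) * S.K * Q with hC1
  have hC10 : 0 < C1 := by positivity
  refine ⟨min ε₀ (min (r1 / 2) (r / 2)), lt_min hg.pos (lt_min (by positivity) (by positivity)),
    (|K| + 1) * C1, by positivity, fun x y hxy v n => ?_⟩
  have hxy0 : S.URel ε₀ x y := hxy.mono (min_le_left _ _)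
  have hd1 : ∀ k, dist (S.g.symm^[k] x) (S.g.symm^[k] y) < r1 := fun k => by
    have := (hxy k).trans ((min_le_right _ _).trans (min_le_left _ _))
    linarith
  have hd2 : ∀ k, dist (S.g.symm^[k] x) (S.g.symm^[k] y) < r := fun k => by
    have := (hxy k).trans ((min_le_right _ _).trans (min_le_right _ _))
    linarith
  set xn := S.g.symm^[n] x with hxn
  set yn := S.g.symm^[n] y with hyn
  set x' := S.g.symm^[n + 1] x with hx'
  set y' := S.g.symm^[n + 1] y with hy'
  have ex : S.g x' = xn := by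
    rw [hx', Function.iterate_succ_apply', Homeomorph.apply_symm_apply]
  have ey : S.g y' = yn := by
    rw [hy', Function.iterate_succ_apply', Homeomorph.apply_symm_apply]
  have ey' : y' = S.g.symm yn := by rw [← ey, Homeomorph.symm_apply_apply]
  have ex' : x' = S.g.symm xn := by rw [← ex, Homeomorph.symm_apply_apply]
  set vn := Dn S.symm n x (Pu x v) with hvn
  have hvn_mem : vn ∈ S.Vu xn := Dn_symm_mem S n x (h.mem x v)
  set v' := Dn S.symm (n + 1) x (Pu x v) with hv'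
  have hv'_mem : v' ∈ S.Vu x' := Dn_symm_mem S (n + 1) x (h.mem x v)
  have hv'eq : v' = S.D' xn vn := by
    rw [hv', Dn_succ]; rfl
  have hDv' : S.D x' v' = vn := by
    rw [hv'eq, ex']
    exact S.invU' xn vn hvn_mem
  set diff := S.D y' (Pu y' v') - Pu yn vn with hdiff
  have hdiff_mem : diff ∈ S.Vu yn := by
    refine Submodule.sub_mem _ ?_ (h.mem yn vn)
    have := S.mapU y' _ (h.mem y' v')
    rwa [ey] at this
  have hw_mem : Pu yn vn ∈ S.Vu yn := h.mem yn vn
  have e1 : TT S Pu (n + 1) x y v - TT S Pu n x y v = Dn S n yn diff := by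
    rw [hdiff, map_sub, TT_apply, TT_apply, ← hy', ← hv', Dn_succ', ey]
  have b1 : ‖diff‖ ≤ C1 * dist x' y' * ‖v'‖ := by
    have := h.step hQ x' y' (hd2 (n + 1)) v' hv'_mem
    rwa [hDv', ey] at this
  have b2 : ‖v'‖ ≤ 1 / 16 * ‖vn‖ := by
    rw [hv'eq]
    exact (S.contrU xn vn hvn_mem).trans (mul_le_mul_of_nonneg_right S.b_le (norm_nonneg _))
  have b3 : ‖vn‖ ≤ 2 * ‖Pu yn vn‖ := by
    have h1 := hnear xn yn (hd1 n) vn hvn_mem
    have h2 : ‖vn‖ ≤ ‖Pu yn vn‖ + ‖Pu yn vn - vn‖ := by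
      have := norm_sub_le (Pu yn vn) (Pu yn vn - vn)
      rwa [sub_sub_cancel] at this
    linarith
  have b4 : dist x' y' ≤ dist xn yn := by
    have h1 := hg.ucontr xn yn (hxy0.iter n) 1
    rw [Function.iterate_one, ← ex', ← ey'] at h1
    have := dist_nonneg (x := xn) (y := yn)
    linarith
  have b5 : ‖diff‖ ≤ C1 * dist xn yn * ‖Pu yn vn‖ := by
    have h1 : C1 * dist x' y' * ‖v'‖ ≤ C1 * dist xn yn * ‖v'‖ :=
      mul_le_mul_of_nonneg_right (mul_le_mul_of_nonneg_left b4 hC10.le) (norm_nonneg _)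
    have h2 : C1 * dist xn yn * ‖v'‖ ≤ C1 * dist xn yn * ‖Pu yn vn‖ := by
      apply mul_le_mul_of_nonneg_left _ (by positivity)
      have := norm_nonneg (Pu yn vn)
      linarith
    linarith
  rw [e1]
  have hqc := hK n yn diff hdiff_mem (Pu yn vn) hw_mem
  have eT : Dn S n yn (Pu yn vn) = TT S Pu n x y v := by rw [TT_apply]
  rw [eT] at hqc
  set w := ‖Pu yn vn‖ with hw
  have hw0 : 0 ≤ w := norm_nonneg _
  rcases eq_or_lt_of_le hw0 with hw1 | hw1
  · have h1 : ‖diff‖ ≤ 0 := by rw [← hw1] at b5; simpa using b5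
    have h2 : diff = 0 := norm_le_zero_iff.1 h1
    rw [h2, map_zero, norm_zero]
    positivity
  · have h1 : K * (‖TT S Pu n x y v‖ * ‖diff‖) ≤
        (|K| + 1) * (‖TT S Pu n x y v‖ * (C1 * dist xn yn * w)) := by
      calc K * (‖TT S Pu n x y v‖ * ‖diff‖) ≤ (|K| + 1) * (‖TT S Pu n x y v‖ * ‖diff‖) := by
            apply mul_le_mul_of_nonneg_right _ (by positivity)
            linarith [le_abs_self K]
        _ ≤ _ := by
            apply mul_le_mul_of_nonneg_left _ (by positivity)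
            exact mul_le_mul_of_nonneg_left b5 (norm_nonneg _)
    have h2 : ‖Dn S n yn diff‖ * w ≤ ((|K| + 1) * C1 * dist xn yn * ‖TT S Pu n x y v‖) * w := by
      calc _ ≤ _ := hqc
        _ ≤ _ := h1
        _ = _ := by ring
    exact le_of_mul_le_mul_right h2 hw1

theorem TT_conv (h : PD S Pu) {Q r K : ℝ} (hQ : Quad S Q r) (hK : QC S K) (η : ℝ) (hη : 0 < η) :
    ∃ ε > 0, ∀ x y, S.URel ε x y → ∀ v, ∃ t, Tendsto (fun n => TT S Pu n x y v) atTop (𝓝 t) ∧
      ‖t - TT S Pu 0 x y v‖ ≤ η * ‖TT S Pu 0 x y v‖ := by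
  obtain ⟨ε₀, hg⟩ := exists_geo S
  obtain ⟨ε, hε, C, hC, hs⟩ := TT_step h hQ hK
  set c := min (1 / 4) (η / 4) with hc
  have hc0 : 0 < c := lt_min (by norm_num) (by positivity)
  refine ⟨min ε₀ (min ε (c / C)), lt_min hg.pos (lt_min hε (by positivity)),
    fun x y hxy v => ?_⟩
  have hxy0 : S.URel ε₀ x y := hxy.mono (min_le_left _ _)
  have hxy1 : S.URel ε x y := hxy.mono ((min_le_right _ _).trans (min_le_left _ _))
  have hd : C * dist x y ≤ c := by
    have := (hxy.dist_le).trans ((min_le_right _ _).trans (min_le_right _ _))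
    rw [le_div_iff₀ hC] at this
    linarith
  obtain ⟨t, ht, ht2⟩ := seq_conv (fun n => TT S Pu n x y v) c hc0.le (min_le_left _ _)
    (fun n => by
      refine (hs x y hxy1 v n).trans ?_
      apply mul_le_mul_of_nonneg_right _ (norm_nonneg _)
      have h1 := hg.ucontr x y hxy0 n
      have h2 : ((1 : ℝ) / 8) ^ n ≤ (1 / 2) ^ n := pow_le_pow_left₀ (by norm_num) (by norm_num) n
      calc C * dist (S.g.symm^[n] x) (S.g.symm^[n] y) ≤ C * ((1 / 8) ^ n * dist x y) :=
            mul_le_mul_of_nonneg_left h1 hC.le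
        _ = (C * dist x y) * (1 / 8) ^ n := by ring
        _ ≤ c * (1 / 2) ^ n := by
            apply mul_le_mul hd h2 (by positivity) hc0.le)
  refine ⟨t, ht, ht2.trans ?_⟩
  apply mul_le_mul_of_nonneg_right _ (norm_nonneg _)
  have := min_le_right (1 / 4 : ℝ) (η / 4)
  linarith

end T2

open TauAux in
/-- T2 -/
theorem hasTau (S : HypSys X E) {Q r K : ℝ} (hQ : Quad S Q r) (hK : QC S K) : HasTau S := by
  obtain ⟨Pu, h⟩ := exists_PD S
  have hconv : ∀ x y, UAsym S x y → ∀ v, ∃ t, Tendsto (fun n => T2.TT S Pu n x y v) atTop (𝓝 t) := by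
    intro x y hxy v
    obtain ⟨ε, hε, hc⟩ := T2.TT_conv h hQ hK 1 one_pos
    obtain ⟨N, hN⟩ := hxy.eventually hε
    obtain ⟨t, ht, -⟩ := hc _ _ (hN N le_rfl) (Dn S.symm N x (Pu x v))
    refine ⟨Dn S N (S.g.symm^[N] y) t, ?_⟩
    rw [← tendsto_add_atTop_iff_nat N]
    have hcont : Continuous (Dn S N (S.g.symm^[N] y)) :=
      LinearMap.continuous_of_finiteDimensional _
    refine ((hcont.tendsto t).comp ht).congr (fun m => ?_)
    rw [add_comm m N, T2.TT_tail h]
    rfl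
  obtain ⟨τ, hτ⟩ := exists_lim (UAsym S) (T2.TT S Pu) hconv
  refine ⟨τ, ?_, ?_, ?_⟩
  · intro x y hxy v _
    exact (Submodule.closed_of_finiteDimensional (S.Vu y)).mem_of_tendsto (hτ x y hxy v)
      (Eventually.of_forall fun n => T2.TT_mem h n x y v)
  · intro x y hxy v hv
    have h1 := hτ _ _ hxy.map (S.D x v)
    have h2 := (tendsto_add_atTop_iff_nat 1).2 h1
    have hcont : Continuous (S.D y) := LinearMap.continuous_of_finiteDimensional _
    have h3 := (hcont.tendsto _).comp (hτ x y hxy v)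
    refine tendsto_nhds_unique h2 (h3.congr fun n => ?_)
    exact (T2.TT_equi h n x y hv).symm
  · intro η hη
    obtain ⟨ε₀, hg⟩ := exists_geo S
    obtain ⟨ε, hε, hc⟩ := T2.TT_conv h hQ hK (min 1 (η / 4)) (lt_min one_pos (by positivity))
    obtain ⟨r1, hr1, hnear⟩ := h.near (min 1 (η / 2)) (lt_min one_pos (by positivity))
    refine ⟨min ε₀ (min ε (r1 / 2)), lt_min hg.pos (lt_min hε (by positivity)),
      fun x y hxy v hv => ?_⟩
    have hxy0 := hxy.mono (min_le_left _ _)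
    have hxy1 : S.URel ε x y := hxy.mono ((min_le_right _ _).trans (min_le_left _ _))
    have hd : dist x y < r1 := by
      have := (hxy.dist_le).trans ((min_le_right _ _).trans (min_le_right _ _))
      linarith
    obtain ⟨t, ht, ht2⟩ := hc x y hxy1 v
    have e0 : T2.TT S Pu 0 x y v = Pu y v := by
      rw [T2.TT_apply]
      simp only [Function.iterate_zero, id_eq, Dn_zero]
      rw [h.id x hv]
    rw [e0] at ht2
    have et : τ x y v = t := tendsto_nhds_unique (hτ x y (hg.uasym _ _ hxy0) v) ht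
    rw [et]
    have h1 := hnear x y hd v hv
    have h2 : ‖Pu y v‖ ≤ 2 * ‖v‖ := by
      have h3 : ‖Pu y v‖ ≤ ‖Pu y v - v‖ + ‖v‖ := by
        have := norm_add_le (Pu y v - v) v
        rwa [sub_add_cancel] at this
      have h4 : min 1 (η / 2) * ‖v‖ ≤ 1 * ‖v‖ :=
        mul_le_mul_of_nonneg_right (min_le_left _ _) (norm_nonneg _)
      linarith
    have h5 : ‖t - v‖ ≤ ‖t - Pu y v‖ + ‖Pu y v - v‖ := by
      have := norm_add_le (t - Pu y v) (Pu y v - v)
      rwa [sub_add_sub_cancel] at this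
    have h6 : min 1 (η / 4) * ‖Pu y v‖ ≤ η / 4 * (2 * ‖v‖) :=
      mul_le_mul (min_le_right _ _) h2 (norm_nonneg _) (by positivity)
    have h7 : min 1 (η / 2) * ‖v‖ ≤ η / 2 * ‖v‖ :=
      mul_le_mul_of_nonneg_right (min_le_right _ _) (norm_nonneg _)
    linarith

end Pool.Agent.H779R2.An
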