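import Pool.Agent.H779R2.An.Basic

set_option autoImplicit false

namespace Pool.Agent.H779R2.An

open Pool.Agent.H721R2 Filter Topology MeasureTheory
open scoped BigOperators

variable {X E : Type*} [MetricSpace X] [CompactSpace X] [NormedAddCommGroup E]
  [InnerProductSpace ℝ E] [FiniteDimensional ℝ E]

/-- T10b: holes of definite size at definite scale -/
theorem holes {S : HypSys X E} (F : Flat S) {R : Set X} (hR : MinR S R) (ρ₁ : ℝ)
    (hρ₁ : 0 < ρ₁) : ∃ δ₁ > 0, ∀ c ∈ R, ∃ v ∈ S.Vu c, ‖v‖ ≤ ρ₁ ∧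
      ∀ q, UAsym S c q → ‖F.Lc c q - v‖ < δ₁ → q ∉ R := by
  by_contra hcon
  push Not at hcon
  have hε₀ := F.geo.pos
  -- the bad points
  have hbad : ∀ n : ℕ, ∃ c ∈ R, ∀ v ∈ S.Vu c, ‖v‖ ≤ ρ₁ →
      ∃ q, UAsym S c q ∧ ‖F.Lc c q - v‖ < 1 / ((n : ℝ) + 1) ∧ q ∈ R := fun n =>
    hcon (1 / ((n : ℝ) + 1)) (by positivity)
  choose c hcR hc using hbad
  obtain ⟨c', hc'R, φ, hφ, hlim⟩ := hR.closed.isCompact.tendsto_subseq hcR
  -- scales
  set ε'' : ℝ := min (F.ε₀ / 3) (ρ₁ / 2) with hε''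
  have hε''0 : 0 < ε'' := lt_min (by positivity) (by positivity)
  have hε''1 : ε'' ≤ F.ε₀ / 3 := min_le_left _ _
  have hε''2 : ε'' ≤ ρ₁ / 2 := min_le_right _ _
  obtain ⟨δa, hδa, hbra⟩ := exists_bracket S ε'' hε''0
  set ε' : ℝ := min (F.ε₀ / 3) (δa / 2) with hε'
  have hε'0 : 0 < ε' := lt_min (by positivity) (by positivity)
  have hε'1 : ε' ≤ F.ε₀ / 3 := min_le_left _ _
  have hε'2 : ε' ≤ δa / 2 := min_le_right _ _
  obtain ⟨δb, hδb, hbrb⟩ := exists_bracket S ε' hε'0
  obtain ⟨ρs, hρs, hsmall⟩ := F.small F.ε₀ hε₀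
  -- a ball around the limit is contained in `R`
  have hball : Metric.ball c' δb ⊆ R := by
    intro z hz
    rw [Metric.mem_ball] at hz
    obtain ⟨w, hzw, hwc⟩ := hbrb z c' hz.le
    have hφt : Tendsto φ atTop atTop := hφ.tendsto_atTop
    have hsmallt : Tendsto (fun n : ℕ => 1 / (((φ n : ℕ) : ℝ) + 1)) atTop (𝓝 0) :=
      tendsto_one_div_add_atTop_nhds_zero_nat.comp hφt
    have hev1 : ∀ᶠ n in atTop, dist c' (c (φ n)) ≤ δa / 2 := by
      have := (Metric.tendsto_nhds.mp hlim) (δa / 2) (by positivity)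
      filter_upwards [this] with n hn
      rw [dist_comm]; exact hn.le
    have hev2 : ∀ᶠ n in atTop, 1 / (((φ n : ℕ) : ℝ) + 1) < ρs / 2 :=
      (hsmallt.eventually (gt_mem_nhds (by positivity)))
    obtain ⟨N, hN⟩ := eventually_atTop.mp (hev1.and hev2)
    have hex : ∀ n : ℕ, ∃ wn qn : X, S.SRel ε'' w wn ∧ S.URel ε'' wn (c (φ (n + N))) ∧ qn ∈ R ∧
        dist wn qn ≤ 4 * (1 / (((φ (n + N) : ℕ) : ℝ) + 1)) := by
      intro n
      obtain ⟨h1, h2⟩ := hN (n + N) (by omega)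
      set cn := c (φ (n + N)) with hcn
      have hdw : dist w cn ≤ δa := by
        have := dist_triangle w c' cn
        have := hwc.dist_le
        linarith
      obtain ⟨wn, hw1, hw2⟩ := hbra w cn hdw
      have hU : S.URel F.ε₀ cn wn := (hw2.mono (by linarith)).symm
      have hUA : UAsym S cn wn := F.geo.uasym _ _ hU
      have hv : F.Lc cn wn ∈ S.Vu cn := F.Lc_mem _ _ hUA
      have hvn : ‖F.Lc cn wn‖ ≤ ρ₁ := by
        have h3 := F.Lc_le _ _ hU
        have h4 : dist cn wn ≤ ε'' := hw2.symm.dist_le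
        linarith
      obtain ⟨qn, hq1, hq2, hq3⟩ := hc (φ (n + N)) _ hv hvn
      refine ⟨wn, qn, hw1, hw2, hq3, ?_⟩
      have hUA2 : UAsym S wn qn := hUA.symm.trans hq1
      have hb := F.base cn wn qn hUA hq1
      have hτ := F.τ_le cn wn hU (F.Lc cn qn - F.Lc cn wn)
        (Submodule.sub_mem _ (F.Lc_mem _ _ hq1) hv)
      rw [← hb] at hτ
      have hle : ‖F.Lc wn qn‖ ≤ 2 * (1 / (((φ (n + N) : ℕ) : ℝ) + 1)) := by
        refine hτ.trans ?_
        exact mul_le_mul_of_nonneg_left hq2.le (by norm_num)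
      have hU2 : S.URel F.ε₀ wn qn := hsmall wn qn hUA2 (by linarith)
      have := F.dist_le wn qn hU2
      linarith
    choose wn qn hw1 hw2 hq1 hq2 using hex
    obtain ⟨w', ψ, hψ, hw'⟩ := CompactSpace.tendsto_subseq wn
    have hψt : Tendsto ψ atTop atTop := hψ.tendsto_atTop
    have hS : S.SRel ε'' w w' := by
      intro k
      have hcont : Tendsto (fun n => S.g^[k] ((wn ∘ ψ) n)) atTop (𝓝 (S.g^[k] w')) :=
        ((S.g.continuous.iterate k).tendsto w').comp hw'
      have h1 : Tendsto (fun n => dist (S.g^[k] w) (S.g^[k] ((wn ∘ ψ) n))) atTop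
          (𝓝 (dist (S.g^[k] w) (S.g^[k] w'))) := tendsto_const_nhds.dist hcont
      exact le_of_tendsto' h1 (fun n => hw1 (ψ n) k)
    have hcψ : Tendsto (fun n => c (φ (ψ n + N))) atTop (𝓝 c') :=
      hlim.comp ((tendsto_add_atTop_iff_nat N).mpr tendsto_id |>.comp hψt)
    have hU : S.URel ε'' w' c' := by
      intro k
      have hcont : Tendsto (fun n => S.g.symm^[k] ((wn ∘ ψ) n)) atTop (𝓝 (S.g.symm^[k] w')) :=
        ((S.g.symm.continuous.iterate k).tendsto w').comp hw'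
      have hcont2 : Tendsto (fun n => S.g.symm^[k] (c (φ (ψ n + N)))) atTop
          (𝓝 (S.g.symm^[k] c')) :=
        ((S.g.symm.continuous.iterate k).tendsto c').comp hcψ
      have h1 := hcont.dist hcont2
      exact le_of_tendsto' h1 (fun n => hw2 (ψ n) k)
    have hww : w = w' := by
      refine F.geo.uniq w w' (hS.mono (by linarith)) ?_
      exact (hwc.trans hU.symm).mono (by linarith)
    -- the points of `R` converge to `w`
    have hdist0 : Tendsto (fun n => dist ((wn ∘ ψ) n) (qn (ψ n))) atTop (𝓝 0) := by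
      have h1 : Tendsto (fun n => 4 * (1 / (((φ (ψ n + N) : ℕ) : ℝ) + 1))) atTop (𝓝 0) := by
        have h2 : Tendsto (fun n => 1 / (((φ (ψ n + N) : ℕ) : ℝ) + 1)) atTop (𝓝 0) :=
          hsmallt.comp ((tendsto_add_atTop_iff_nat N).mpr tendsto_id |>.comp hψt)
        simpa using h2.const_mul 4
      exact squeeze_zero (fun _ => dist_nonneg) (fun n => hq2 (ψ n)) h1
    have hqt : Tendsto (fun n => qn (ψ n)) atTop (𝓝 w') := by
      rw [tendsto_iff_dist_tendsto_zero]
      have h1 : Tendsto (fun n => dist ((wn ∘ ψ) n) w') atTop (𝓝 0) :=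
        tendsto_iff_dist_tendsto_zero.mp hw'
      have h2 := hdist0.add h1
      rw [add_zero] at h2
      refine squeeze_zero (fun _ => dist_nonneg) (fun n => ?_) h2
      have := dist_triangle (qn (ψ n)) ((wn ∘ ψ) n) w'
      rw [dist_comm (qn (ψ n)) ((wn ∘ ψ) n)] at this
      exact this
    have hwR : w ∈ R := by
      rw [hww]
      exact hR.closed.mem_of_tendsto hqt (Eventually.of_forall fun n => hq1 (ψ n))
    exact hR.sat w hwR z (F.geo.sasym _ _ (hzw.symm.mono (by linarith)))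
  have hint : c' ∈ interior R :=
    mem_interior.mpr ⟨Metric.ball c' δb, hball, Metric.isOpen_ball, Metric.mem_ball_self hδb⟩
  rw [hR.intr] at hint
  exact hint

end Pool.Agent.H779R2.An
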