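import Pool.Agent.H779R2.An.Basic

set_option autoImplicit false

namespace Pool.Agent.H779R2.An

open Pool.Agent.H721R2 Filter Topology MeasureTheory
open scoped BigOperators

variable {X E : Type*} [MetricSpace X] [CompactSpace X] [NormedAddCommGroup E]
  [InnerProductSpace ℝ E] [FiniteDimensional ℝ E]

omit [FiniteDimensional ℝ E] in
private theorem base_est {ex ey ez A B C T A' : E} {dxy dyz dxz η : ℝ} (hη0 : 0 ≤ η)
    (hη : η ≤ 1 / 2) (hxy : dxy = ‖ex - ey‖) (hyz : dyz = ‖ey - ez‖) (hxz : dxz = ‖ex - ez‖)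
    (hA : ‖A - (ez - ey)‖ ≤ η * dyz) (hB : ‖B - (ez - ex)‖ ≤ η * dxz)
    (hC : ‖C - (ey - ex)‖ ≤ η * dxy) (hT : ‖T - (B - C)‖ ≤ η * ‖B - C‖)
    (hA' : ‖A' - (ex - ey)‖ ≤ η * dxy) :
    ‖A - T‖ ≤ 12 * η * (‖A'‖ + ‖A‖) := by
  have p1 : 0 ≤ dxy := by rw [hxy]; exact norm_nonneg _
  have p2 : 0 ≤ dyz := by rw [hyz]; exact norm_nonneg _
  have p3 : 0 ≤ dxz := by rw [hxz]; exact norm_nonneg _
  have tri : dxz ≤ dxy + dyz := by
    rw [hxy, hyz, hxz]
    have := norm_add_le (ex - ey) (ey - ez)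
    simpa using this
  have q1 : dxy ≤ 2 * ‖A'‖ := by
    have : ‖ex - ey‖ ≤ ‖A'‖ + ‖A' - (ex - ey)‖ := by
      have := norm_sub_norm_le (ex - ey) A'
      rw [norm_sub_rev (ex - ey) A'] at this
      linarith
    rw [← hxy] at this
    nlinarith
  have q2 : dyz ≤ 2 * ‖A‖ := by
    have : ‖ez - ey‖ ≤ ‖A‖ + ‖A - (ez - ey)‖ := by
      have := norm_sub_norm_le (ez - ey) A
      rw [norm_sub_rev (ez - ey) A] at this
      linarith
    rw [norm_sub_rev, ← hyz] at this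
    nlinarith
  have r1 : ‖B‖ ≤ 3 / 2 * dxz := by
    have : ‖B‖ ≤ ‖B - (ez - ex)‖ + ‖ez - ex‖ := by
      simpa using norm_add_le (B - (ez - ex)) (ez - ex)
    rw [norm_sub_rev ez ex, ← hxz] at this
    nlinarith
  have r2 : ‖C‖ ≤ 3 / 2 * dxy := by
    have : ‖C‖ ≤ ‖C - (ey - ex)‖ + ‖ey - ex‖ := by
      simpa using norm_add_le (C - (ey - ex)) (ey - ex)
    rw [norm_sub_rev ey ex, ← hxy] at this
    nlinarith
  have r3 : ‖B - C‖ ≤ 2 * (dxz + dxy) := by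
    have := norm_sub_le B C
    linarith
  have r4 : ‖T - (B - C)‖ ≤ η * (2 * (dxz + dxy)) := hT.trans (mul_le_mul_of_nonneg_left r3 hη0)
  have s1 : ‖A - T‖ ≤ ‖A - (ez - ey)‖ + ‖B - (ez - ex)‖ + ‖C - (ey - ex)‖ + ‖T - (B - C)‖ := by
    have : A - T = (A - (ez - ey)) - (B - (ez - ex)) + (C - (ey - ex)) - (T - (B - C)) := by abel
    rw [this]
    refine (norm_sub_le _ _).trans ?_
    gcongr
    refine (norm_add_le _ _).trans ?_
    gcongr
    exact norm_sub_le _ _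
  have s2 : ‖A - T‖ ≤ η * (dyz + 3 * dxz + 3 * dxy) := by nlinarith
  have s3 : η * (dyz + 3 * dxz + 3 * dxy) ≤ η * (12 * (‖A'‖ + ‖A‖)) :=
    mul_le_mul_of_nonneg_left (by nlinarith [norm_nonneg A, norm_nonneg A']) hη0
  calc _ ≤ _ := s2
    _ ≤ _ := s3
    _ = _ := by ring

/-- T4c -/
theorem base_rule {S : HypSys X E} (L : Lin0 S) (x y z : X) (h : UAsym S x y)
    (h' : UAsym S x z) : L.Lc y z = L.τ x y (L.Lc x z - L.Lc x y) := by
  have hyz := h.symm.trans h'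
  have m1 := L.Lc_mem x z h'
  have m2 := L.Lc_mem x y h
  have m3 := (S.Vu x).sub_mem m1 m2
  have m4 := L.τ_mem x y h _ m3
  have m5 := L.Lc_mem y z hyz
  have m6 := L.Lc_mem y x h.symm
  rw [← sub_eq_zero]
  refine null_back L.qc y ((S.Vu y).sub_mem m5 m4) m6 m5 fun η hη => ?_
  set η' := min (1 / 2) (η / 12) with hη'
  have hη'0 : 0 < η' := lt_min (by norm_num) (by positivity)
  obtain ⟨ε1, hε1, k1⟩ := L.Lc_near η' hη'0
  obtain ⟨ε2, hε2, k2⟩ := L.τ_near η' hη'0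
  obtain ⟨N1, hN1⟩ := h.eventually (lt_min hε1 hε2)
  obtain ⟨N2, hN2⟩ := h'.eventually (lt_min hε1 hε2)
  obtain ⟨N3, hN3⟩ := hyz.eventually (lt_min hε1 hε2)
  set n := max N1 (max N2 N3) with hn
  have u1 := hN1 n (le_max_left _ _)
  have u2 := hN2 n ((le_max_left _ _).trans (le_max_right _ _))
  have u3 := hN3 n ((le_max_right _ _).trans (le_max_right _ _))
  refine ⟨n, ?_⟩
  rw [map_sub, ← L.Lc_back hyz n, ← L.τ_back h n m3, map_sub, ← L.Lc_back h' n,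
    ← L.Lc_back h n, ← L.Lc_back h.symm n]
  have v1 := k1 _ _ (u3.mono (min_le_left _ _))
  have v2 := k1 _ _ (u2.mono (min_le_left _ _))
  have v3 := k1 _ _ (u1.mono (min_le_left _ _))
  have v4 := k2 _ _ (u1.mono (min_le_right _ _)) _ ((S.Vu _).sub_mem
    (L.Lc_mem _ _ (h'.symm_iter n)) (L.Lc_mem _ _ (h.symm_iter n)))
  have v5 := k1 _ _ ((u1.mono (min_le_left _ _)).symm)
  rw [dist_comm] at v5
  refine (base_est hη'0.le (min_le_left _ _) (S.isom _ _) (S.isom _ _) (S.isom _ _)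
    v1 v2 v3 v4 v5).trans ?_
  have k4 : 12 * η' ≤ η := by
    have := min_le_right (1 / 2 : ℝ) (η / 12)
    linarith
  exact mul_le_mul_of_nonneg_right k4 (by positivity)

end Pool.Agent.H779R2.An
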