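import Pool.Agent.H779R2.An.Basic

set_option autoImplicit false

namespace Pool.Agent.H779R2.An

open Pool.Agent.H721R2 Filter Topology MeasureTheory
open scoped BigOperators

variable {X E : Type*} [MetricSpace X] [CompactSpace X] [NormedAddCommGroup E]
  [InnerProductSpace ℝ E] [FiniteDimensional ℝ E]

omit [FiniteDimensional ℝ E] in
private theorem eq_zero_of_small {δ : E} {c : ℝ} (hc : 0 ≤ c) (h : ∀ η > 0, ‖δ‖ ≤ η * c) :
    δ = 0 := by
  by_contra hne
  have hδ : 0 < ‖δ‖ := norm_pos_iff.2 hne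
  have h1 := h (‖δ‖ / (2 * (c + 1))) (by positivity)
  have h2 : ‖δ‖ / (2 * (c + 1)) * c = ‖δ‖ * (c / (2 * (c + 1))) := by ring
  have h3 : c / (2 * (c + 1)) ≤ 1 / 2 := by
    rw [div_le_div_iff₀ (by positivity) (by norm_num)]; linarith
  rw [h2] at h1
  nlinarith

omit [FiniteDimensional ℝ E] in
private theorem comp_est {v w1 w2 w3 : E} {η : ℝ} (hη0 : 0 ≤ η) (hη : η ≤ 1 / 2)
    (h1 : ‖w1 - v‖ ≤ η * ‖v‖) (h2 : ‖w2 - w1‖ ≤ η * ‖w1‖) (h3 : ‖w3 - v‖ ≤ η * ‖v‖) :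
    ‖w2 - w3‖ ≤ 8 * η * ‖w3‖ := by
  have hv : 0 ≤ ‖v‖ := norm_nonneg v
  have e1 : ‖w1‖ ≤ 2 * ‖v‖ := by
    have : ‖w1‖ ≤ ‖w1 - v‖ + ‖v‖ := by
      simpa using norm_add_le (w1 - v) v
    nlinarith
  have e2 : ‖v‖ ≤ 2 * ‖w3‖ := by
    have : ‖v‖ ≤ ‖w3 - v‖ + ‖w3‖ := by
      have := norm_sub_norm_le v w3
      rw [norm_sub_rev] at this
      linarith
    nlinarith
  have e3 : ‖w2 - w3‖ ≤ ‖w2 - w1‖ + ‖w1 - v‖ + ‖w3 - v‖ := by
    have : w2 - w3 = (w2 - w1) + (w1 - v) + (v - w3) := by abel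
    rw [this]
    refine (norm_add₃_le).trans ?_
    rw [norm_sub_rev v w3]
  have e4 : ‖w2 - w1‖ ≤ η * (2 * ‖v‖) := h2.trans (mul_le_mul_of_nonneg_left e1 hη0)
  nlinarith

/-- T4a -/
theorem tau_rules {S : HypSys X E} (L : Lin0 S) :
    (∀ x, ∀ v ∈ S.Vu x, L.τ x x v = v) ∧
    (∀ x y z, UAsym S x y → UAsym S y z → ∀ v ∈ S.Vu x, L.τ y z (L.τ x y v) = L.τ x z v) := by
  constructor
  · intro x v hv
    rw [← sub_eq_zero]
    refine eq_zero_of_small (norm_nonneg v) fun η hη => ?_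
    obtain ⟨ε, hε, h⟩ := L.τ_near η hη
    exact h x x (fun k => by rw [dist_self]; exact hε.le) v hv
  · intro x y z hxy hyz v hv
    have hxz := hxy.trans hyz
    have ha := L.τ_mem x z hxz v hv
    have hb := L.τ_mem y z hyz _ (L.τ_mem x y hxy v hv)
    rw [← sub_eq_zero]
    refine null_back L.qc z ((S.Vu z).sub_mem hb ha) ha ha fun η hη => ?_
    set η' := min (1 / 2) (η / 4) with hη'
    have hη'0 : 0 < η' := lt_min (by norm_num) (by positivity)
    obtain ⟨ε, hε, h⟩ := L.τ_near η' hη'0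
    obtain ⟨N1, hN1⟩ := hxy.eventually hε
    obtain ⟨N2, hN2⟩ := hyz.eventually hε
    obtain ⟨N3, hN3⟩ := hxz.eventually hε
    set n := max N1 (max N2 N3) with hn
    have hvn := Dn_symm_mem S n x hv
    have hwn := L.τ_mem _ _ (hxy.symm_iter n) _ hvn
    refine ⟨n, ?_⟩
    rw [map_sub, ← L.τ_back hyz n (L.τ_mem x y hxy v hv), ← L.τ_back hxy n hv,
      ← L.τ_back hxz n hv]
    have k1 := h _ _ (hN1 n (le_max_left _ _)) _ hvn
    have k2 := h _ _ (hN2 n ((le_max_left _ _).trans (le_max_right _ _))) _ hwn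
    have k3 := h _ _ (hN3 n ((le_max_right _ _).trans (le_max_right _ _))) _ hvn
    refine (comp_est hη'0.le (min_le_left _ _) k1 k2 k3).trans ?_
    have k4 : 8 * η' ≤ η * 2 := by
      have := min_le_right (1 / 2 : ℝ) (η / 4)
      linarith
    calc _ ≤ (η * 2) * _ := mul_le_mul_of_nonneg_right k4 (norm_nonneg _)
      _ = _ := by ring

/-- T4b -/
theorem hol_rules {S : HypSys X E} (L : Lin0 S) :
    (∀ x, ∀ v ∈ S.Vu x, L.H x x v = v) ∧
    (∀ x y z, SAsym S x y → SAsym S y z → ∀ v ∈ S.Vu x, L.H y z (L.H x y v) = L.H x z v) := by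
  constructor
  · intro x v hv
    rw [← sub_eq_zero]
    refine eq_zero_of_small (norm_nonneg v) fun η hη => ?_
    obtain ⟨ε, hε, h⟩ := L.H_near η hη
    exact h x x (fun k => by rw [dist_self]; exact hε.le) v hv
  · intro x y z hxy hyz v hv
    have hxz := hxy.trans hyz
    have ha := L.H_mem x z hxz v hv
    have hb := L.H_mem y z hyz _ (L.H_mem x y hxy v hv)
    rw [← sub_eq_zero]
    refine null_fwd L.qc z ((S.Vu z).sub_mem hb ha) ha ha fun η hη => ?_
    set η' := min (1 / 2) (η / 4) with hη'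
    have hη'0 : 0 < η' := lt_min (by norm_num) (by positivity)
    obtain ⟨ε, hε, h⟩ := L.H_near η' hη'0
    obtain ⟨N1, hN1⟩ := hxy.eventually hε
    obtain ⟨N2, hN2⟩ := hyz.eventually hε
    obtain ⟨N3, hN3⟩ := hxz.eventually hε
    set n := max N1 (max N2 N3) with hn
    have hvn := Dn_mem S n x hv
    have hwn := L.H_mem _ _ (hxy.iter n) _ hvn
    refine ⟨n, ?_⟩
    rw [map_sub, ← L.H_iter hyz n (L.H_mem x y hxy v hv), ← L.H_iter hxy n hv,
      ← L.H_iter hxz n hv]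
    have k1 := h _ _ (hN1 n (le_max_left _ _)) _ hvn
    have k2 := h _ _ (hN2 n ((le_max_left _ _).trans (le_max_right _ _))) _ hwn
    have k3 := h _ _ (hN3 n ((le_max_right _ _).trans (le_max_right _ _))) _ hvn
    refine (comp_est hη'0.le (min_le_left _ _) k1 k2 k3).trans ?_
    have k4 : 8 * η' ≤ η * 2 := by
      have := min_le_right (1 / 2 : ℝ) (η / 4)
      linarith
    calc _ ≤ (η * 2) * _ := mul_le_mul_of_nonneg_right k4 (norm_nonneg _)
      _ = _ := by ring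

end Pool.Agent.H779R2.An
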