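import Pool.Agent.H779R2.An.Basic
import Pool.Agent.H779R2.An.Rules
import Pool.Agent.H779R2.An.Base

set_option autoImplicit false

namespace Pool.Agent.H779R2.An

open Pool.Agent.H721R2 Filter Topology MeasureTheory
open scoped BigOperators

variable {X E : Type*} [MetricSpace X] [CompactSpace X] [NormedAddCommGroup E]
  [InnerProductSpace ℝ E] [FiniteDimensional ℝ E]

/-- T4d -/
theorem exists_lin1 {S : HypSys X E} (L : Lin0 S) : Nonempty (Lin1 S) := by
  obtain ⟨ε₁, G⟩ := exists_geo S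
  obtain ⟨ε₂, hε₂, h2⟩ := L.Lc_near (1 / 2) (by norm_num)
  obtain ⟨ε₃, hε₃, h3⟩ := L.τ_near (1 / 2) (by norm_num)
  obtain ⟨ε₄, hε₄, h4⟩ := L.H_near (1 / 2) (by norm_num)
  set ε := min (min ε₁ ε₂) (min ε₃ ε₄) with hε
  have hε0 : 0 < ε := lt_min (lt_min G.pos hε₂) (lt_min hε₃ hε₄)
  have e1 : ε ≤ ε₁ := (min_le_left _ _).trans (min_le_left _ _)
  have e2 : ε ≤ ε₂ := (min_le_left _ _).trans (min_le_right _ _)
  have e3 : ε ≤ ε₃ := (min_le_right _ _).trans (min_le_left _ _)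
  have e4 : ε ≤ ε₄ := (min_le_right _ _).trans (min_le_right _ _)
  obtain ⟨t1, t2⟩ := tau_rules L
  obtain ⟨s1, s2⟩ := hol_rules L
  have hd : ∀ x y, dist x y = ‖S.e y - S.e x‖ := fun x y => by rw [dist_comm, S.isom]
  have key : ∀ (v w : E), ‖w - v‖ ≤ 1 / 2 * ‖v‖ → ‖w‖ ≤ 2 * ‖v‖ ∧ ‖v‖ ≤ 2 * ‖w‖ := by
    intro v w h
    have h5 := norm_add_le (w - v) v
    rw [sub_add_cancel] at h5
    have h6 := norm_sub_le w (w - v)
    rw [sub_sub_cancel] at h6
    constructor
    · linarith [norm_nonneg v]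
    · linarith
  refine ⟨{ toLin0 := L, ε₀ := ε, geo := G.mono hε0 e1, Lc_le := ?_, dist_le := ?_, τ_le := ?_,
            le_τ := ?_, H_le := ?_, le_H := ?_, Lc_self := ?_, τ_self := t1, τ_comp := t2,
            base := base_rule L, H_self := s1, H_comp := s2 }⟩
  · intro x y hxy
    have := h2 x y (hxy.mono e2)
    rw [hd] at this ⊢
    exact (key _ _ this).1
  · intro x y hxy
    have := h2 x y (hxy.mono e2)
    rw [hd] at this ⊢
    exact (key _ _ this).2
  · intro x y hxy v hv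
    exact (key _ _ (h3 x y (hxy.mono e3) v hv)).1
  · intro x y hxy v hv
    exact (key _ _ (h3 x y (hxy.mono e3) v hv)).2
  · intro x y hxy v hv
    exact (key _ _ (h4 x y (hxy.mono e4) v hv)).1
  · intro x y hxy v hv
    exact (key _ _ (h4 x y (hxy.mono e4) v hv)).2
  · intro x
    have := base_rule L x x x (UAsym.refl S x) (UAsym.refl S x)
    rw [this, sub_self, map_zero]

end Pool.Agent.H779R2.An
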