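import Pool.Agent.H779R2.An.Basic

set_option autoImplicit false

namespace Pool.Agent.H779R2.An

open Pool.Agent.H721R2 Filter Topology MeasureTheory
open scoped BigOperators

variable {X E : Type*} [MetricSpace X] [CompactSpace X] [NormedAddCommGroup E]
  [InnerProductSpace ℝ E] [FiniteDimensional ℝ E]

/-- T16 -/
theorem lin' {S : HypSys X E} (F : Flat S) {R : Set X} (hCD : CDProp F)
    (hL : LinProp F R) : LinProp' F R := by
  obtain ⟨εC, hεC, hCD⟩ := hCD
  obtain ⟨εL, hεL, hL⟩ := hL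
  have hε₀ := F.geo.pos
  set ε₀ := F.ε₀ with hε₀def
  obtain ⟨ε₁, hε₁, h1C, h1L, h10⟩ : ∃ ε₁ > 0, ε₁ ≤ εC / 4 ∧ ε₁ ≤ εL / 4 ∧ ε₁ ≤ ε₀ / 4 := by
    refine ⟨min (εC / 4) (min (εL / 4) (ε₀ / 4)), ?_, min_le_left _ _,
      (min_le_right _ _).trans (min_le_left _ _), (min_le_right _ _).trans (min_le_right _ _)⟩
    exact lt_min (by positivity) (lt_min (by positivity) (by positivity))
  obtain ⟨εK, hεK, hcor⟩ := exists_corner S ε₁ hε₁
  obtain ⟨ρs, hρs, hsurj⟩ := F.surj (min ε₁ εK) (lt_min hε₁ hεK)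
  obtain ⟨ε, hε, hε1, hεεK, hερ⟩ : ∃ ε > 0, ε ≤ ε₁ ∧ ε ≤ εK ∧ ε ≤ ρs / 4 := by
    refine ⟨min ε₁ (min εK (ρs / 4)), ?_, min_le_left _ _,
      (min_le_right _ _).trans (min_le_left _ _), (min_le_right _ _).trans (min_le_right _ _)⟩
    exact lt_min hε₁ (lt_min hεK (by positivity))
  refine ⟨ε, hε, fun y hy y' w w' hyy' hyw hww' hy'w' => ?_⟩
  have hUyw : UAsym S y w := F.geo.uasym _ _ (hyw.mono (by linarith))
  have hUy'w' : UAsym S y' w' := F.geo.uasym _ _ (hy'w'.mono (by linarith))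
  have hLw : F.Lc y' w' = F.H y y' (F.Lc y w) :=
    hL y hy y' w w' (hyy'.mono (by linarith)) (hyw.mono (by linarith)) (hww'.mono (by linarith))
      (hy'w'.mono (by linarith))
  have hLyw : ‖F.Lc y w‖ ≤ ρs / 2 := by
    have h1 := F.Lc_le y w (hyw.mono (by linarith))
    have h2 := hyw.dist_le
    linarith
  -- Step 1
  have step1 : ∀ u ∈ S.Vu y, F.τ y' w' (F.H y y' u) = F.H w w' (F.τ y w u) := by
    intro u hu
    have key : ∀ η > 0, ‖F.τ y' w' (F.H y y' u) - F.H w w' (F.τ y w u)‖ ≤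
        η * ‖F.τ y w u‖ := by
      intro η hη
      obtain ⟨ρ, hρ, hρ'⟩ := hCD w w' (hww'.mono (by linarith)) η hη
      obtain ⟨s, hs, hs1, hs2⟩ : ∃ s > 0, s * ‖u‖ ≤ ρs / 2 ∧ s * ‖F.τ y w u‖ ≤ ρ := by
        refine ⟨min (ρs / 2 / (‖u‖ + 1)) (ρ / (‖F.τ y w u‖ + 1)), ?_, ?_, ?_⟩
        · exact lt_min (by positivity) (by positivity)
        · have h1 : min (ρs / 2 / (‖u‖ + 1)) (ρ / (‖F.τ y w u‖ + 1)) * ‖u‖ ≤
              ρs / 2 / (‖u‖ + 1) * ‖u‖ :=
            mul_le_mul_of_nonneg_right (min_le_left _ _) (norm_nonneg _)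
          refine h1.trans ?_
          rw [div_mul_eq_mul_div, div_le_iff₀ (by positivity)]
          have := norm_nonneg u
          nlinarith
        · have h1 : min (ρs / 2 / (‖u‖ + 1)) (ρ / (‖F.τ y w u‖ + 1)) * ‖F.τ y w u‖ ≤
              ρ / (‖F.τ y w u‖ + 1) * ‖F.τ y w u‖ :=
            mul_le_mul_of_nonneg_right (min_le_right _ _) (norm_nonneg _)
          refine h1.trans ?_
          rw [div_mul_eq_mul_div, div_le_iff₀ (by positivity)]
          have := norm_nonneg (F.τ y w u)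
          nlinarith
      have hvm : F.Lc y w + s • u ∈ S.Vu y :=
        (S.Vu y).add_mem (F.Lc_mem _ _ hUyw) ((S.Vu y).smul_mem _ hu)
      have hvn : ‖F.Lc y w + s • u‖ ≤ ρs := by
        refine (norm_add_le _ _).trans ?_
        rw [norm_smul, Real.norm_of_nonneg hs.le]
        linarith
      obtain ⟨q, hyq, hq⟩ := hsurj y _ hvm hvn
      have hyq1 : S.URel ε₁ y q := hyq.mono (min_le_left _ _)
      obtain ⟨q', hy'q', hqq'⟩ := hcor y y' q (hyy'.mono hεεK) (hyq.mono (min_le_right _ _))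
      have hUyq : UAsym S y q := F.geo.uasym _ _ (hyq1.mono (by linarith))
      have hUy'q' : UAsym S y' q' := F.geo.uasym _ _ (hy'q'.mono (by linarith))
      have hLq : F.Lc y' q' = F.H y y' (F.Lc y q) :=
        hL y hy y' q q' (hyy'.mono (by linarith)) (hyq1.mono (by linarith))
          (hqq'.mono (by linarith)) (hy'q'.mono (by linarith))
      have e1 : F.Lc w q = s • F.τ y w u := by
        rw [F.base y w q hUyw hUyq, hq, add_sub_cancel_left, map_smul]
      have e2 : F.Lc w' q' = s • F.τ y' w' (F.H y y' u) := by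
        rw [F.base y' w' q' hUy'w' hUy'q', hLq, hLw, hq, map_add, add_sub_cancel_left, map_smul,
          map_smul]
      have hwq : S.URel εC w q := (hyw.symm.trans hyq1).mono (by linarith)
      have hw'q' : S.URel εC w' q' := (hy'w'.symm.trans hy'q').mono (by linarith)
      have h1 : ‖F.Lc w q‖ ≤ ρ := by
        rw [e1, norm_smul, Real.norm_of_nonneg hs.le]
        exact hs2
      have h2 := hρ' q q' hwq h1 (hqq'.mono (by linarith)) hw'q'
      rw [e1, e2, map_smul, ← smul_sub, norm_smul, norm_smul, Real.norm_of_nonneg hs.le] at h2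
      have h3 : s * ‖F.τ y' w' (F.H y y' u) - F.H w w' (F.τ y w u)‖ ≤
          s * (η * ‖F.τ y w u‖) := by linarith
      exact le_of_mul_le_mul_left h3 hs
    have hz : ‖F.τ y' w' (F.H y y' u) - F.H w w' (F.τ y w u)‖ ≤ 0 := by
      by_contra hcon
      push Not at hcon
      have h1 := key (‖F.τ y' w' (F.H y y' u) - F.H w w' (F.τ y w u)‖ /
        (2 * (‖F.τ y w u‖ + 1))) (by positivity)
      have h2 : ‖F.τ y' w' (F.H y y' u) - F.H w w' (F.τ y w u)‖ /
        (2 * (‖F.τ y w u‖ + 1)) * ‖F.τ y w u‖ <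
          ‖F.τ y' w' (F.H y y' u) - F.H w w' (F.τ y w u)‖ := by
        rw [div_mul_eq_mul_div, div_lt_iff₀ (by positivity)]
        have := norm_nonneg (F.τ y w u)
        nlinarith
      linarith
    have := norm_le_zero_iff.mp hz
    exact sub_eq_zero.mp this
  -- Step 2
  have e1 : F.Lc w y = - F.τ y w (F.Lc y w) := by
    rw [F.base y w y hUyw (UAsym.refl S y), F.Lc_self, zero_sub, map_neg]
  have e2 : F.Lc w' y' = - F.τ y' w' (F.Lc y' w') := by
    rw [F.base y' w' y' hUy'w' (UAsym.refl S y'), F.Lc_self, zero_sub, map_neg]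
  rw [e1, e2, hLw, step1 _ (F.Lc_mem _ _ hUyw), map_neg]

end Pool.Agent.H779R2.An
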