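import Mathlib

set_option autoImplicit false

namespace Pool.Agent.H779R2.An

open Filter Topology MeasureTheory
open scoped BigOperators

namespace ChainExt

/-- a chain from a reflexive transitive closure -/
theorem exists_seq {ι : Type*} (R : ι → ι → Prop) (a b : ι) (h : Relation.ReflTransGen R a b) :
    ∃ (m : ℕ) (c : ℕ → ι), c 0 = a ∧ c m = b ∧ ∀ k < m, R (c k) (c (k + 1)) := by
  induction h with
  | refl => exact ⟨0, fun _ => a, rfl, rfl, fun k hk => absurd hk (Nat.not_lt_zero k)⟩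
  | @tail b' c' _ hbc ih =>
    obtain ⟨m, c, h0, hm, hR⟩ := ih
    refine ⟨m + 1, fun k => if k ≤ m then c k else c', ?_, ?_, ?_⟩
    · simp [h0]
    · simp
    · intro k hk
      rcases Nat.lt_or_ge k m with h1 | h1
      · have h2 : k ≤ m := h1.le
        have h3 : k + 1 ≤ m := h1
        simp only [h2, h3, if_true]
        exact hR k h1
      · have h2 : k = m := by omega
        subst h2
        have h3 : ¬ (k + 1 ≤ k) := by omega
        simp only [le_refl, h3, if_true, if_false]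
        rw [hm]
        exact hbc

/-- the chain property with `m` steps -/
def Ch {ι : Type*} (u : Finset ι) (Z : ι → Set ℝ) (m : ℕ) : Prop :=
  ∃ c : ℕ → ι, (∀ i ≤ m, c i ∈ u) ∧ (0 : ℝ) ∈ Z (c 0) ∧ (1 : ℝ) ∈ Z (c m) ∧
      (∀ i ≤ m, (Z (c i) ∩ Set.Icc (0 : ℝ) 1).Nonempty) ∧
      ∀ i < m, (Z (c i) ∩ Z (c (i + 1)) ∩ Set.Icc (0 : ℝ) 1).Nonempty

theorem exists_ch {ι : Type*} [DecidableEq ι] (u : Finset ι) (Z : ι → Set ℝ)
    (hZ : ∀ i ∈ u, IsClosed (Z i)) (hcov : ∀ t ∈ Set.Icc (0 : ℝ) 1, ∃ i ∈ u, t ∈ Z i) :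
    ∃ m, Ch u Z m := by
  classical
  obtain ⟨i0, hi0, h0⟩ := hcov 0 ⟨le_refl _, zero_le_one⟩
  set R : ι → ι → Prop := fun i j => i ∈ u ∧ j ∈ u ∧ (Z i ∩ Z j ∩ Set.Icc (0 : ℝ) 1).Nonempty
    with hR
  set A : Set ℝ := ⋃ i ∈ u.filter (fun i => Relation.ReflTransGen R i0 i), Z i with hA
  set B : Set ℝ := ⋃ i ∈ u.filter (fun i => ¬ Relation.ReflTransGen R i0 i), Z i with hB
  have hAc : IsClosed A := by
    refine isClosed_biUnion_finset fun i hi => hZ i (Finset.mem_filter.1 hi).1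
  have hBc : IsClosed B := by
    refine isClosed_biUnion_finset fun i hi => hZ i (Finset.mem_filter.1 hi).1
  have hsub : Set.Icc (0 : ℝ) 1 ⊆ A ∪ B := by
    intro t ht
    obtain ⟨i, hi, hit⟩ := hcov t ht
    by_cases h : Relation.ReflTransGen R i0 i
    · left
      rw [hA]
      simp only [Set.mem_iUnion]
      exact ⟨i, Finset.mem_filter.2 ⟨hi, h⟩, hit⟩
    · right
      rw [hB]
      simp only [Set.mem_iUnion]
      exact ⟨i, Finset.mem_filter.2 ⟨hi, h⟩, hit⟩
  have hA0 : (Set.Icc (0 : ℝ) 1 ∩ A).Nonempty := by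
    refine ⟨0, ⟨le_refl _, zero_le_one⟩, ?_⟩
    rw [hA]
    simp only [Set.mem_iUnion]
    exact ⟨i0, Finset.mem_filter.2 ⟨hi0, Relation.ReflTransGen.refl⟩, h0⟩
  have hBe : ¬ (Set.Icc (0 : ℝ) 1 ∩ B).Nonempty := by
    intro hB0
    obtain ⟨x, hx, hxA, hxB⟩ :=
      isPreconnected_closed_iff.1 (isPreconnected_Icc (a := (0 : ℝ)) (b := 1)) A B hAc hBc hsub
        hA0 hB0
    rw [hA] at hxA
    rw [hB] at hxB
    simp only [Set.mem_iUnion] at hxA hxB
    obtain ⟨i, hi, hxi⟩ := hxA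
    obtain ⟨j, hj, hxj⟩ := hxB
    rw [Finset.mem_filter] at hi hj
    exact hj.2 (hi.2.tail ⟨hi.1, hj.1, x, ⟨hxi, hxj⟩, hx⟩)
  have h1A : (1 : ℝ) ∈ A := by
    rcases hsub ⟨zero_le_one, le_refl _⟩ with h | h
    · exact h
    · exact absurd ⟨1, ⟨zero_le_one, le_refl _⟩, h⟩ hBe
  rw [hA] at h1A
  simp only [Set.mem_iUnion] at h1A
  obtain ⟨j, hj, h1j⟩ := h1A
  rw [Finset.mem_filter] at hj
  obtain ⟨m, c, hc0, hcm, hcR⟩ := exists_seq R i0 j hj.2
  have hmem : ∀ i ≤ m, c i ∈ u := by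
    intro i hi
    rcases Nat.lt_or_ge i m with h | h
    · exact (hcR i h).1
    · have : i = m := by omega
      rw [this, hcm]
      exact hj.1
  refine ⟨m, c, hmem, by rw [hc0]; exact h0, by rw [hcm]; exact h1j, ?_, fun i hi => (hcR i hi).2.2⟩
  intro i hi
  rcases Nat.lt_or_ge i m with h | h
  · obtain ⟨x, ⟨hx1, hx2⟩, hx3⟩ := (hcR i h).2.2
    exact ⟨x, hx1, hx3⟩
  · have : i = m := by omega
    rw [this, hcm]
    exact ⟨1, h1j, zero_le_one, le_refl _⟩

end ChainExt

open ChainExt in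
/-- T13: chains of distinct sets in a finite closed cover of `[0,1]` -/
theorem chain_extract {ι : Type*} [DecidableEq ι] (u : Finset ι) (Z : ι → Set ℝ)
    (hZ : ∀ i ∈ u, IsClosed (Z i)) (hcov : ∀ t ∈ Set.Icc (0 : ℝ) 1, ∃ i ∈ u, t ∈ Z i) :
    ∃ (m : ℕ) (c : ℕ → ι), (∀ i ≤ m, c i ∈ u) ∧
      (∀ i ≤ m, ∀ j ≤ m, c i = c j → i = j) ∧ (0 : ℝ) ∈ Z (c 0) ∧ (1 : ℝ) ∈ Z (c m) ∧
      (∀ i ≤ m, (Z (c i) ∩ Set.Icc (0 : ℝ) 1).Nonempty) ∧
      ∀ i < m, (Z (c i) ∩ Z (c (i + 1)) ∩ Set.Icc (0 : ℝ) 1).Nonempty := by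
  classical
  have hex := exists_ch u Z hZ hcov
  obtain ⟨c, h1, h2, h3, h4, h5⟩ := Nat.find_spec hex
  have hmin := fun k (hk : k < Nat.find hex) => Nat.find_min hex hk
  set m := Nat.find hex with hm
  refine ⟨m, c, h1, ?_, h2, h3, h4, h5⟩
  have key : ∀ i j, i < j → j ≤ m → c i = c j → False := by
    intro i j hij hj hcc
    apply hmin (m - (j - i)) (by omega)
    refine ⟨fun k => if k ≤ i then c k else c (k + (j - i)), ?_, ?_, ?_, ?_, ?_⟩
    · intro k hk
      by_cases hki : k ≤ i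
      · simp only [hki, if_true]
        exact h1 k (by omega)
      · simp only [hki, if_false]
        exact h1 _ (by omega)
    · simp only [Nat.zero_le, if_true]
      exact h2
    · by_cases hki : m - (j - i) ≤ i
      · have hjm : j = m := by omega
        have h6 : m - (j - i) = i := by omega
        simp only [hki, if_true]
        rw [h6, hcc, hjm]
        exact h3
      · simp only [hki, if_false]
        have h6 : m - (j - i) + (j - i) = m := by omega
        rw [h6]
        exact h3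
    · intro k hk
      by_cases hki : k ≤ i
      · simp only [hki, if_true]
        exact h4 k (by omega)
      · simp only [hki, if_false]
        exact h4 _ (by omega)
    · intro k hk
      rcases Nat.lt_or_ge k i with hki | hki
      · have e1 : k ≤ i := hki.le
        have e2 : k + 1 ≤ i := hki
        simp only [e1, e2, if_true]
        exact h5 k (by omega)
      · rcases Nat.eq_or_lt_of_le hki with hki | hki
        · subst hki
          have e2 : ¬ (i + 1 ≤ i) := by omega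
          simp only [le_refl, e2, if_true, if_false]
          rw [hcc]
          have e3 : i + 1 + (j - i) = j + 1 := by omega
          rw [e3]
          exact h5 j (by omega)
        · have e1 : ¬ (k ≤ i) := by omega
          have e2 : ¬ (k + 1 ≤ i) := by omega
          simp only [e1, e2, if_false]
          have e3 : k + 1 + (j - i) = k + (j - i) + 1 := by omega
          rw [e3]
          exact h5 _ (by omega)
  intro i hi j hj hcc
  rcases Nat.lt_trichotomy i j with h | h | h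
  · exact (key i j h hj hcc).elim
  · exact h
  · exact (key j i h hi hcc.symm).elim

end Pool.Agent.H779R2.An
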