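import Mathlib

set_option autoImplicit false

namespace Pool.Agent.H779R2.An

open Filter Topology MeasureTheory
open scoped BigOperators

namespace MeasLine

/-- total volume of the disjoint balls -/
theorem sum_rad (d : ℕ) (ρ₁ : ℝ) (hρ₁ : 0 < ρ₁) (u : Finset (EuclideanSpace ℝ (Fin d)))
    (rad : EuclideanSpace ℝ (Fin d) → ℝ)
    (hu : ∀ a ∈ u, ‖a‖ ≤ ρ₁ ∧ 0 < rad a ∧ rad a ≤ 1)
    (hdisj : ∀ a ∈ u, ∀ a' ∈ u, a ≠ a' →
      Disjoint (Metric.closedBall a (rad a / 5)) (Metric.closedBall a' (rad a' / 5))) :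
    ∑ a ∈ u, rad a ^ d ≤ (5 * (ρ₁ + 1)) ^ d := by
  have hV0 : volume (Metric.ball (0 : EuclideanSpace ℝ (Fin d)) 1) ≠ 0 :=
    (Metric.measure_ball_pos volume 0 one_pos).ne'
  have hVt : volume (Metric.ball (0 : EuclideanSpace ℝ (Fin d)) 1) ≠ ⊤ :=
    measure_ball_lt_top.ne
  have h1 : ∑ a ∈ u, volume (Metric.closedBall a (rad a / 5)) ≤
      volume (Metric.closedBall (0 : EuclideanSpace ℝ (Fin d)) (ρ₁ + 1)) := by
    rw [← measure_biUnion_finset (fun a ha a' ha' h => hdisj a ha a' ha' h)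
      (fun a _ => Metric.isClosed_closedBall.measurableSet)]
    apply measure_mono
    intro z hz
    simp only [Set.mem_iUnion] at hz
    obtain ⟨a, ha, hz⟩ := hz
    obtain ⟨h2, h3, h4⟩ := hu a ha
    rw [mem_closedBall_zero_iff]
    rw [Metric.mem_closedBall, dist_eq_norm] at hz
    calc ‖z‖ = ‖(z - a) + a‖ := by rw [sub_add_cancel]
      _ ≤ ‖z - a‖ + ‖a‖ := norm_add_le _ _
      _ ≤ rad a / 5 + ρ₁ := add_le_add hz h2
      _ ≤ ρ₁ + 1 := by linarith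
  have h2 : ∀ a ∈ u, volume (Metric.closedBall a (rad a / 5)) =
      ENNReal.ofReal ((rad a / 5) ^ d) * volume (Metric.ball (0 : EuclideanSpace ℝ (Fin d)) 1) := by
    intro a ha
    rw [Measure.addHaar_closedBall _ _ (by have := (hu a ha).2.1; positivity),
      finrank_euclideanSpace_fin]
  rw [Finset.sum_congr rfl h2, ← Finset.sum_mul,
    Measure.addHaar_closedBall _ _ (by positivity), finrank_euclideanSpace_fin] at h1
  have h3 := (ENNReal.mul_le_mul_iff_left hV0 hVt).mp h1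
  rw [← ENNReal.ofReal_sum_of_nonneg (fun a ha => by have := (hu a ha).2.1; positivity)] at h3
  have h4 := (ENNReal.ofReal_le_ofReal_iff (by positivity)).mp h3
  have h5 : ∑ a ∈ u, (rad a / 5) ^ d = (∑ a ∈ u, rad a ^ d) / 5 ^ d := by
    rw [Finset.sum_div]
    exact Finset.sum_congr rfl fun a _ => div_pow _ _ _
  rw [h5, div_le_iff₀ (by positivity)] at h4
  rw [mul_pow]
  linarith

/-- covering of the set of hitting translates -/
theorem cover (d : ℕ) (ρ₁ : ℝ) (hρ₁ : 0 < ρ₁) (hd : 1 ≤ d) (r : ℝ) (hr : 0 < r) (hr1 : r ≤ 1)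
    (a b : EuclideanSpace ℝ (Fin d)) (hb : ‖b‖ ≤ ρ₁) :
    ∃ U : Set (EuclideanSpace ℝ (Fin d)), MeasurableSet U ∧
      (∀ w, (∃ t ∈ Set.Icc (0 : ℝ) 1, ‖t • b + w - a‖ ≤ r) → w ∈ U) ∧
      volume U ≤ ENNReal.ofReal ((ρ₁ + 2) * 2 ^ d * r ^ (d - 1)) *
        volume (Metric.ball (0 : EuclideanSpace ℝ (Fin d)) 1) := by
  obtain ⟨J, hJ0, hJ1, hJ2⟩ : ∃ J : ℕ, 0 < J ∧ ρ₁ ≤ J * r ∧ (J : ℝ) + 1 ≤ (ρ₁ + 2) / r := by
    refine ⟨⌈ρ₁ / r⌉₊, Nat.ceil_pos.mpr (by positivity), ?_, ?_⟩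
    · have := Nat.le_ceil (ρ₁ / r)
      rwa [div_le_iff₀ hr] at this
    · have h1 := Nat.ceil_lt_add_one (a := ρ₁ / r) (by positivity)
      have h2 : (1 : ℝ) ≤ 1 / r := by
        rw [le_div_iff₀ hr]
        linarith
      have h3 : (ρ₁ + 2) / r = ρ₁ / r + 2 * (1 / r) := by
        field_simp
      rw [h3]
      linarith
  have hJ0' : (0 : ℝ) < J := by exact_mod_cast hJ0
  refine ⟨⋃ j ∈ Finset.range (J + 1), Metric.closedBall (a - ((j : ℝ) / J) • b) (2 * r), ?_, ?_, ?_⟩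
  · exact Finset.measurableSet_biUnion _ (fun j _ => Metric.isClosed_closedBall.measurableSet)
  · rintro w ⟨t, ⟨ht0, ht1⟩, ht⟩
    simp only [Set.mem_iUnion]
    refine ⟨⌊t * J⌋₊, ?_, ?_⟩
    · rw [Finset.mem_range]
      have h1 : ⌊t * (J : ℝ)⌋₊ ≤ ⌊(J : ℝ)⌋₊ := Nat.floor_le_floor (by nlinarith)
      rw [Nat.floor_natCast] at h1
      omega
    · rw [Metric.mem_closedBall, dist_eq_norm]
      have h1 := Nat.floor_le (a := t * (J : ℝ)) (by positivity)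
      have h2 := Nat.lt_floor_add_one (t * (J : ℝ))
      have e1 : w - (a - ((⌊t * (J : ℝ)⌋₊ : ℝ) / J) • b) =
          (t • b + w - a) - (t - (⌊t * (J : ℝ)⌋₊ : ℝ) / J) • b := by
        rw [sub_smul]
        abel
      have h3 : |t - (⌊t * (J : ℝ)⌋₊ : ℝ) / J| ≤ 1 / J := by
        rw [abs_le]
        constructor
        · have : (⌊t * (J : ℝ)⌋₊ : ℝ) / J ≤ t := by
            rw [div_le_iff₀ hJ0']
            exact h1
          have h5 : (0 : ℝ) ≤ 1 / J := by positivity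
          linarith
        · rw [sub_le_iff_le_add, ← add_div, le_div_iff₀ hJ0']
          linarith
      rw [e1]
      calc ‖(t • b + w - a) - (t - (⌊t * (J : ℝ)⌋₊ : ℝ) / J) • b‖
          ≤ ‖t • b + w - a‖ + ‖(t - (⌊t * (J : ℝ)⌋₊ : ℝ) / J) • b‖ := norm_sub_le _ _
        _ ≤ r + 1 / J * ρ₁ := by
            refine add_le_add ht ?_
            rw [norm_smul, Real.norm_eq_abs]
            exact mul_le_mul h3 hb (norm_nonneg _) (by positivity)
        _ ≤ r + r := by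
            have : 1 / (J : ℝ) * ρ₁ ≤ r := by
              rw [one_div, inv_mul_le_iff₀ hJ0']
              exact hJ1
            linarith
        _ = 2 * r := by ring
  · refine (measure_biUnion_finset_le _ _).trans ?_
    have h1 : ∀ j ∈ Finset.range (J + 1), volume (Metric.closedBall (a - ((j : ℝ) / J) • b) (2 * r)) =
        ENNReal.ofReal ((2 * r) ^ d) * volume (Metric.ball (0 : EuclideanSpace ℝ (Fin d)) 1) := by
      intro j _
      rw [Measure.addHaar_closedBall _ _ (by positivity), finrank_euclideanSpace_fin]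
    rw [Finset.sum_congr rfl h1, Finset.sum_const, Finset.card_range, nsmul_eq_mul, ← mul_assoc]
    gcongr
    rw [← ENNReal.ofReal_natCast, ← ENNReal.ofReal_mul (by positivity)]
    apply ENNReal.ofReal_le_ofReal
    push_cast
    obtain ⟨e, rfl⟩ : ∃ e, d = e + 1 := ⟨d - 1, by omega⟩
    rw [Nat.add_sub_cancel]
    have h2 : ((J : ℝ) + 1) * r ≤ ρ₁ + 2 := by
      rwa [le_div_iff₀ hr] at hJ2
    calc ((J : ℝ) + 1) * (2 * r) ^ (e + 1) = (((J : ℝ) + 1) * r) * (2 ^ (e + 1) * r ^ e) := by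
          rw [mul_pow]; ring
      _ ≤ (ρ₁ + 2) * (2 ^ (e + 1) * r ^ e) := by
          apply mul_le_mul_of_nonneg_right h2 (by positivity)
      _ = (ρ₁ + 2) * 2 ^ (e + 1) * r ^ e := by ring

/-- Young type inequality -/
theorem young (d D : ℕ) (hD : 1 ≤ D) (hd : D ≤ d) (lam : ℝ) (hlam : 0 < lam) (r ω : ℝ)
    (hr : 0 < r) (h0 : 0 ≤ ω) (h1 : ω ≤ 1) :
    ω * r ^ (d - 1) ≤ lam * r ^ d + (lam ^ (d - 1))⁻¹ * ω ^ D := by
  obtain ⟨e, rfl⟩ : ∃ e, d = e + 1 := ⟨d - 1, by omega⟩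
  rw [Nat.add_sub_cancel]
  by_cases h : ω ≤ lam * r
  · have h2 : ω * r ^ e ≤ lam * r * r ^ e := mul_le_mul_of_nonneg_right h (by positivity)
    have h3 : 0 ≤ (lam ^ e)⁻¹ * ω ^ D := by positivity
    rw [pow_succ]
    linarith
  · push Not at h
    have h2 : r ≤ ω / lam := by
      rw [le_div_iff₀ hlam]
      linarith
    have h3 : ω * r ^ e ≤ ω * (ω / lam) ^ e :=
      mul_le_mul_of_nonneg_left (pow_le_pow_left₀ hr.le h2 e) h0
    have h4 : ω * (ω / lam) ^ e = (lam ^ e)⁻¹ * ω ^ (e + 1) := by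
      rw [div_pow, pow_succ]
      field_simp
    have h5 : ω ^ (e + 1) ≤ ω ^ D := pow_le_pow_of_le_one h0 h1 hd
    have h6 : (lam ^ e)⁻¹ * ω ^ (e + 1) ≤ (lam ^ e)⁻¹ * ω ^ D :=
      mul_le_mul_of_nonneg_left h5 (by positivity)
    have h7 : 0 ≤ lam * r ^ (e + 1) := by positivity
    linarith

end MeasLine

open MeasLine in
/-- T12a: a straight segment in almost every small translate has a small weighted sum of hit
balls. -/
theorem meas_line (d D : ℕ) (hD : 1 ≤ D) (hd : D ≤ d) (ρ₁ : ℝ) (hρ₁ : 0 < ρ₁) (δ : ℝ)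
    (hδ : 0 < δ) : ∃ θ > 0, ∀ (u : Finset (EuclideanSpace ℝ (Fin d)))
    (rad ω : EuclideanSpace ℝ (Fin d) → ℝ),
    (∀ a ∈ u, ‖a‖ ≤ ρ₁ ∧ 0 < rad a ∧ rad a ≤ 1 ∧ 0 ≤ ω a ∧ ω a ≤ 1) →
    (∀ a ∈ u, ∀ a' ∈ u, a ≠ a' →
      Disjoint (Metric.closedBall a (rad a / 5)) (Metric.closedBall a' (rad a' / 5))) →
    ∑ a ∈ u, ω a ^ D ≤ θ →
    ∀ b : EuclideanSpace ℝ (Fin d), ‖b‖ ≤ ρ₁ → ∃ w : EuclideanSpace ℝ (Fin d), ‖w‖ ≤ δ ∧
      ∀ v ⊆ u, (∀ a ∈ v, ∃ t ∈ Set.Icc (0 : ℝ) 1, ‖t • b + w - a‖ ≤ rad a) →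
        ∑ a ∈ v, ω a ≤ δ := by
  classical
  have hd1 : 1 ≤ d := hD.trans hd
  obtain ⟨C1, hC1⟩ : ∃ C1 : ℝ, C1 = (5 * (ρ₁ + 1)) ^ d := ⟨_, rfl⟩
  obtain ⟨C2, hC2⟩ : ∃ C2 : ℝ, C2 = (ρ₁ + 2) * 2 ^ d := ⟨_, rfl⟩
  have hC1p : 0 < C1 := by rw [hC1]; positivity
  have hC2p : 0 < C2 := by rw [hC2]; positivity
  obtain ⟨lam, hlam⟩ : ∃ lam : ℝ, lam = δ ^ (d + 1) / (4 * C1 * C2) := ⟨_, rfl⟩
  have hlamp : 0 < lam := by rw [hlam]; positivity
  refine ⟨lam ^ (d - 1) * δ ^ (d + 1) / (4 * C2), by positivity, ?_⟩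
  intro u rad ω hu hdisj hθ b hb
  by_contra hcon
  push Not at hcon
  have hV0 : volume (Metric.ball (0 : EuclideanSpace ℝ (Fin d)) 1) ≠ 0 :=
    (Metric.measure_ball_pos volume 0 one_pos).ne'
  have hVt : volume (Metric.ball (0 : EuclideanSpace ℝ (Fin d)) 1) ≠ ⊤ :=
    measure_ball_lt_top.ne
  have hU : ∀ a : EuclideanSpace ℝ (Fin d), ∃ U : Set (EuclideanSpace ℝ (Fin d)),
      MeasurableSet U ∧ (a ∈ u → (∀ w, (∃ t ∈ Set.Icc (0 : ℝ) 1, ‖t • b + w - a‖ ≤ rad a) → w ∈ U) ∧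
      volume U ≤ ENNReal.ofReal ((ρ₁ + 2) * 2 ^ d * rad a ^ (d - 1)) *
        volume (Metric.ball (0 : EuclideanSpace ℝ (Fin d)) 1)) := by
    intro a
    by_cases ha : a ∈ u
    · obtain ⟨h1, h2, h3, -, -⟩ := hu a ha
      obtain ⟨U, hU1, hU2, hU3⟩ := cover d ρ₁ hρ₁ hd1 (rad a) h2 h3 a b hb
      exact ⟨U, hU1, fun _ => ⟨hU2, hU3⟩⟩
    · exact ⟨∅, MeasurableSet.empty, fun h => absurd h ha⟩
  choose U hUm hUu using hU
  obtain ⟨g, hg⟩ : ∃ g : EuclideanSpace ℝ (Fin d) → ENNReal,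
      g = fun w => ∑ a ∈ u, (U a).indicator (fun _ => ENNReal.ofReal (ω a)) w := ⟨_, rfl⟩
  have hglow : ∀ w ∈ Metric.closedBall (0 : EuclideanSpace ℝ (Fin d)) δ, ENNReal.ofReal δ ≤ g w := by
    intro w hw
    rw [mem_closedBall_zero_iff] at hw
    obtain ⟨v, hv, hhit, hlt⟩ := hcon w hw
    have h1 : ENNReal.ofReal δ ≤ ∑ a ∈ v, ENNReal.ofReal (ω a) := by
      rw [← ENNReal.ofReal_sum_of_nonneg (fun a ha => (hu a (hv ha)).2.2.2.1)]
      exact ENNReal.ofReal_le_ofReal hlt.le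
    refine h1.trans ?_
    have h2 : ∑ a ∈ v, ENNReal.ofReal (ω a) =
        ∑ a ∈ v, (U a).indicator (fun _ => ENNReal.ofReal (ω a)) w := by
      refine Finset.sum_congr rfl fun a ha => ?_
      rw [Set.indicator_of_mem ((hUu a (hv ha)).1 w (hhit a ha))]
    rw [h2, hg]
    exact Finset.sum_le_sum_of_subset hv
  have hgup : ∫⁻ w in Metric.closedBall (0 : EuclideanSpace ℝ (Fin d)) δ, g w ≤
      ∑ a ∈ u, ENNReal.ofReal (ω a) * volume (U a) := by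
    refine (setLIntegral_le_lintegral _ _).trans (le_of_eq ?_)
    rw [hg, lintegral_finsetSum _ (fun a _ => measurable_const.indicator (hUm a))]
    refine Finset.sum_congr rfl fun a _ => ?_
    rw [lintegral_indicator (hUm a), setLIntegral_const]
  have hlow : ENNReal.ofReal δ * volume (Metric.closedBall (0 : EuclideanSpace ℝ (Fin d)) δ) ≤
      ∫⁻ w in Metric.closedBall (0 : EuclideanSpace ℝ (Fin d)) δ, g w := by
    rw [← setLIntegral_const]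
    exact setLIntegral_mono' Metric.isClosed_closedBall.measurableSet hglow
  have hsum : ∑ a ∈ u, ENNReal.ofReal (ω a) * volume (U a) ≤
      ENNReal.ofReal (∑ a ∈ u, ω a * (C2 * rad a ^ (d - 1))) *
        volume (Metric.ball (0 : EuclideanSpace ℝ (Fin d)) 1) := by
    rw [ENNReal.ofReal_sum_of_nonneg (fun a ha => by
      obtain ⟨-, h2, -, h4, -⟩ := hu a ha
      positivity), Finset.sum_mul]
    refine Finset.sum_le_sum fun a ha => ?_
    rw [ENNReal.ofReal_mul (hu a ha).2.2.2.1, mul_assoc]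
    gcongr
    rw [hC2]
    exact (hUu a ha).2
  rw [Measure.addHaar_closedBall _ _ hδ.le, finrank_euclideanSpace_fin, ← mul_assoc,
    ← ENNReal.ofReal_mul hδ.le] at hlow
  have h1 := (ENNReal.mul_le_mul_iff_left hV0 hVt).mp ((hlow.trans hgup).trans hsum)
  have h2 : δ * δ ^ d ≤ ∑ a ∈ u, ω a * (C2 * rad a ^ (d - 1)) := by
    refine (ENNReal.ofReal_le_ofReal_iff (Finset.sum_nonneg fun a ha => ?_)).mp h1
    obtain ⟨-, h2, -, h4, -⟩ := hu a ha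
    positivity
  have h3 : ∑ a ∈ u, ω a * (C2 * rad a ^ (d - 1)) ≤
      ∑ a ∈ u, C2 * (lam * rad a ^ d + (lam ^ (d - 1))⁻¹ * ω a ^ D) := by
    refine Finset.sum_le_sum fun a ha => ?_
    obtain ⟨-, h5, -, h6, h7⟩ := hu a ha
    have h8 := young d D hD hd lam hlamp (rad a) (ω a) h5 h6 h7
    calc ω a * (C2 * rad a ^ (d - 1)) = C2 * (ω a * rad a ^ (d - 1)) := by ring
      _ ≤ _ := mul_le_mul_of_nonneg_left h8 hC2p.le
  have h4 : ∑ a ∈ u, C2 * (lam * rad a ^ d + (lam ^ (d - 1))⁻¹ * ω a ^ D) =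
      C2 * (lam * ∑ a ∈ u, rad a ^ d + (lam ^ (d - 1))⁻¹ * ∑ a ∈ u, ω a ^ D) := by
    rw [← Finset.mul_sum, Finset.sum_add_distrib, ← Finset.mul_sum, ← Finset.mul_sum]
  have h5 : ∑ a ∈ u, rad a ^ d ≤ C1 := by
    rw [hC1]
    exact sum_rad d ρ₁ hρ₁ u rad (fun a ha => ⟨(hu a ha).1, (hu a ha).2.1, (hu a ha).2.2.1⟩) hdisj
  have h6 : C2 * (lam * ∑ a ∈ u, rad a ^ d + (lam ^ (d - 1))⁻¹ * ∑ a ∈ u, ω a ^ D) ≤
      C2 * (lam * C1 + (lam ^ (d - 1))⁻¹ * (lam ^ (d - 1) * δ ^ (d + 1) / (4 * C2))) := by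
    gcongr
  have h7 : C2 * (lam * C1 + (lam ^ (d - 1))⁻¹ * (lam ^ (d - 1) * δ ^ (d + 1) / (4 * C2))) =
      δ ^ (d + 1) / 2 := by
    have h8 : lam * C1 = δ ^ (d + 1) / (4 * C2) := by
      rw [hlam]
      field_simp
    have h9 : lam ^ (d - 1) ≠ 0 := by positivity
    rw [h8]
    field_simp
    ring
  have h8 : (0 : ℝ) < δ ^ (d + 1) := by positivity
  have h9 : δ * δ ^ d = δ ^ (d + 1) := by ring
  linarith

end Pool.Agent.H779R2.An
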