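import Mathlib

set_option autoImplicit false

namespace Pool.Agent.H779R2.An

open Filter Topology MeasureTheory
open scoped BigOperators

/-- T12b: finite Vitali covering -/
theorem vitali_finite (d : ℕ) (ρ₁ r₀ : ℝ) (hr₀ : 0 < r₀)
    (rad : EuclideanSpace ℝ (Fin d) → ℝ) (h : ∀ a, ‖a‖ ≤ ρ₁ → r₀ ≤ rad a ∧ rad a ≤ 1) :
    ∃ u : Finset (EuclideanSpace ℝ (Fin d)), (∀ a ∈ u, ‖a‖ ≤ ρ₁) ∧
      (∀ a ∈ u, ∀ a' ∈ u, a ≠ a' →
        Disjoint (Metric.closedBall a (rad a / 5)) (Metric.closedBall a' (rad a' / 5))) ∧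
      ∀ b, ‖b‖ ≤ ρ₁ → ∃ a ∈ u, ‖b - a‖ ≤ rad a := by
  classical
  obtain ⟨u, hut, hdisj, hcov⟩ := Vitali.exists_disjoint_subfamily_covering_enlargement_closedBall
    {a : EuclideanSpace ℝ (Fin d) | ‖a‖ ≤ ρ₁} id (fun a => rad a / 5) (1 / 5)
    (fun a ha => by have := (h a ha).2; linarith) 5 (by norm_num)
  have hfin : u.Finite := by
    have hcomp : TotallyBounded (Metric.closedBall (0 : EuclideanSpace ℝ (Fin d)) ρ₁) :=
      (isCompact_closedBall _ _).totallyBounded
    obtain ⟨s, hs, hsc⟩ := Metric.totallyBounded_iff.1 hcomp (r₀ / 10) (by linarith)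
    have hch : ∀ a ∈ u, ∃ y ∈ s, a ∈ Metric.ball y (r₀ / 10) := by
      intro a ha
      have h1 : a ∈ Metric.closedBall (0 : EuclideanSpace ℝ (Fin d)) ρ₁ := by
        rw [mem_closedBall_zero_iff]
        exact hut ha
      have h2 := hsc h1
      simp only [Set.mem_iUnion] at h2
      obtain ⟨y, hy, hay⟩ := h2
      exact ⟨y, hy, hay⟩
    choose! f hf1 hf2 using hch
    refine Set.Finite.of_injOn (f := f) (t := s) (fun a ha => hf1 a ha) ?_ hs
    intro a ha a' ha' haa
    by_contra hne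
    have h1 := hf2 a ha
    have h2 := hf2 a' ha'
    rw [← haa] at h2
    have h3 : dist a' a < r₀ / 5 := by
      have := dist_triangle_right a' a (f a)
      rw [Metric.mem_ball] at h1 h2
      linarith
    have h4 : Disjoint (Metric.closedBall a (rad a / 5)) (Metric.closedBall a' (rad a' / 5)) :=
      hdisj ha ha' hne
    have h5 : a' ∈ Metric.closedBall a (rad a / 5) := by
      rw [Metric.mem_closedBall]
      have := (h a (hut ha)).1
      linarith
    have h6 : a' ∈ Metric.closedBall a' (rad a' / 5) := by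
      apply Metric.mem_closedBall_self
      have := (h a' (hut ha')).1
      linarith
    exact Set.disjoint_left.1 h4 h5 h6
  refine ⟨hfin.toFinset, ?_, ?_, ?_⟩
  · intro a ha
    exact hut (hfin.mem_toFinset.1 ha)
  · intro a ha a' ha' hne
    exact hdisj (hfin.mem_toFinset.1 ha) (hfin.mem_toFinset.1 ha') hne
  · intro b hb
    obtain ⟨a, ha, hsub⟩ := hcov b hb
    refine ⟨a, hfin.mem_toFinset.2 ha, ?_⟩
    have h1 : b ∈ Metric.closedBall (id b) (rad b / 5) := by
      apply Metric.mem_closedBall_self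
      have := (h b hb).1
      linarith
    have h2 := hsub h1
    rw [Metric.mem_closedBall, dist_eq_norm] at h2
    have h3 : 5 * (rad a / 5) = rad a := by ring
    rw [h3] at h2
    exact h2

end Pool.Agent.H779R2.An
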