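import Pool.Agent.H779R2.An.Basic

set_option autoImplicit false

namespace Pool.Agent.H779R2.An

open Pool.Agent.H721R2 Filter Topology MeasureTheory
open scoped BigOperators

variable {X E : Type*} [MetricSpace X] [CompactSpace X] [NormedAddCommGroup E]
  [InnerProductSpace ℝ E] [FiniteDimensional ℝ E]

omit [CompactSpace X] [FiniteDimensional ℝ E] in
private theorem isClosed_SRel_pair (S : HypSys X E) (ε : ℝ) :
    IsClosed {p : X × X | S.SRel ε p.1 p.2} := by
  have h : {p : X × X | S.SRel ε p.1 p.2} =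
      ⋂ k : ℕ, {p : X × X | dist (S.g^[k] p.1) (S.g^[k] p.2) ≤ ε} := by
    ext p
    simp [HypSys.SRel]
  rw [h]
  refine isClosed_iInter (fun k => ?_)
  exact isClosed_le (((S.g.continuous.iterate k).comp continuous_fst).dist
    ((S.g.continuous.iterate k).comp continuous_snd)) continuous_const

omit [FiniteDimensional ℝ E] in
private theorem interior_sat (S : HypSys X E) (R : Set X)
    (hmap : ∀ x ∈ R, S.g x ∈ R) (hmap' : ∀ x ∈ R, S.g.symm x ∈ R)
    (hsat : ∀ x ∈ R, ∀ y, SAsym S x y → y ∈ R) :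
    (∀ x ∈ interior R, S.g x ∈ interior R) ∧ (∀ x ∈ interior R, S.g.symm x ∈ interior R) ∧
    (∀ x ∈ interior R, ∀ y, SAsym S x y → y ∈ interior R) := by
  have m1 : ∀ x ∈ interior R, S.g x ∈ interior R := by
    intro x hx
    have h1 : IsOpen (S.g '' interior R) := S.g.isOpenMap _ isOpen_interior
    have h2 : S.g '' interior R ⊆ R := by
      rintro _ ⟨y, hy, rfl⟩
      exact hmap _ (interior_subset hy)
    exact interior_maximal h2 h1 ⟨x, hx, rfl⟩
  have m2 : ∀ x ∈ interior R, S.g.symm x ∈ interior R := by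
    intro x hx
    have h1 : IsOpen (S.g.symm '' interior R) := S.g.symm.isOpenMap _ isOpen_interior
    have h2 : S.g.symm '' interior R ⊆ R := by
      rintro _ ⟨y, hy, rfl⟩
      exact hmap' _ (interior_subset hy)
    exact interior_maximal h2 h1 ⟨x, hx, rfl⟩
  refine ⟨m1, m2, ?_⟩
  obtain ⟨ε₀, hg⟩ := exists_geo S
  have hε₀ := hg.pos
  obtain ⟨δ, hδ, hbr⟩ := exists_bracket S (ε₀ / 2) (by positivity)
  set ε := min (ε₀ / 2) (δ / 2) with hε
  have hεp : 0 < ε := lt_min (by positivity) (by positivity)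
  have key : ∀ y ∈ interior R, ∀ x, S.SRel ε y x → x ∈ interior R := by
    intro y hy x hyx
    set C : Set (X × X) := {p : X × X | (S.SRel (ε₀ / 2) p.1 p.2 ∧ S.URel (ε₀ / 2) p.2 y) ∧
      p.2 ∈ (interior R)ᶜ} with hC
    have hCc : IsClosed C := by
      refine IsClosed.inter (IsClosed.inter (isClosed_SRel_pair S (ε₀ / 2)) ?_) ?_
      · have h1 := isClosed_SRel_pair S.symm (ε₀ / 2)
        exact h1.preimage (continuous_snd.prodMk continuous_const)
      · exact (isOpen_interior.isClosed_compl).preimage continuous_snd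
    have hCk : IsCompact C := hCc.isCompact
    have hP : IsClosed (Prod.fst '' C) := (hCk.image continuous_fst).isClosed
    have hx : x ∉ Prod.fst '' C := by
      rintro ⟨⟨x', w⟩, ⟨⟨h1, h2⟩, h3⟩, rfl⟩
      simp only at h1 h2 h3 hyx
      apply h3
      have h4 : S.SRel ε₀ w y := (h1.symm.trans hyx.symm).mono (by
        have := min_le_left (ε₀ / 2) (δ / 2)
        linarith)
      have h5 : S.URel ε₀ w y := h2.mono (by linarith)
      rw [hg.uniq w y h4 h5]
      exact hy
    rw [mem_interior]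
    refine ⟨(Prod.fst '' C)ᶜ ∩ Metric.ball x (δ / 2), ?_, hP.isOpen_compl.inter Metric.isOpen_ball,
      ⟨hx, Metric.mem_ball_self (by positivity)⟩⟩
    rintro x' ⟨h1, h2⟩
    have h3 : dist x' y ≤ δ := by
      have h4 := dist_triangle x' x y
      have h5 := Metric.mem_ball.mp h2
      have h6 := hyx.dist_le
      rw [dist_comm] at h6
      have h7 : ε ≤ δ / 2 := min_le_right _ _
      linarith
    obtain ⟨w, hw1, hw2⟩ := hbr x' y h3
    have hwI : w ∈ interior R := by
      by_contra hcon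
      exact h1 ⟨(x', w), ⟨⟨hw1, hw2⟩, hcon⟩, rfl⟩
    exact hsat w (interior_subset hwI) x' (hg.sasym _ _ (hw1.mono (by linarith))).symm
  intro x hx y hxy
  obtain ⟨N, hN⟩ := hxy.eventually hεp
  have h1 : ∀ n : ℕ, S.g^[n] x ∈ interior R := by
    intro n
    induction n with
    | zero => exact hx
    | succ n ih =>
      rw [Function.iterate_succ_apply']
      exact m1 _ ih
  have h2 : ∀ n : ℕ, ∀ z ∈ interior R, S.g.symm^[n] z ∈ interior R := by
    intro n
    induction n with
    | zero => exact fun z hz => hz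
    | succ n ih =>
      intro z hz
      rw [Function.iterate_succ_apply]
      exact ih _ (m2 _ hz)
  have h3 := key _ (h1 N) _ (hN N le_rfl)
  have h4 := h2 N _ h3
  rwa [iter_symm_iter] at h4

/-- T9 -/
theorem exists_minR [PreconnectedSpace X] (S : HypSys X E) (W : Set X) (hW : IsOpen W)
    (hne : W.Nonempty) (hnu : W ≠ Set.univ) (htrap : ∀ y ∈ closure W, S.g y ∈ W) :
    ∃ R, MinR S R ∧ R ∩ W = ∅ := by
  set R0 : Set X := {x | ∀ n : ℕ, S.g^[n] x ∉ W} with hR0
  -- the forward orbit avoiding `W`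
  have hfwd : ∃ b, ∀ n : ℕ, S.g^[n] b ∈ Wᶜ := by
    let F : ℕ → Set X := fun n => S.g.symm^[n] '' Wᶜ
    have hFc : ∀ n, IsCompact (F n) := fun n =>
      hW.isClosed_compl.isCompact.image (S.g.symm.continuous.iterate n)
    have hF : ∀ n, F (n + 1) ⊆ F n := by
      rintro n _ ⟨y, hy, rfl⟩
      refine ⟨S.g.symm y, ?_, ?_⟩
      · intro h
        apply hy
        have := htrap _ (subset_closure h)
        rwa [Homeomorph.apply_symm_apply] at this
      · rw [← Function.iterate_succ_apply]
    have hcne : (Wᶜ).Nonempty := Set.nonempty_compl.mpr hnu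
    have hFn : ∀ n, (F n).Nonempty := fun n => hcne.image _
    obtain ⟨b, hb⟩ := IsCompact.nonempty_iInter_of_sequence_nonempty_isCompact_isClosed F hF hFn
      (hFc 0) (fun n => (hFc n).isClosed)
    refine ⟨b, fun n => ?_⟩
    obtain ⟨y, hy, hyb⟩ := Set.mem_iInter.mp hb n
    rw [← hyb, iter_iter_symm]
    exact hy
  have hAc : IsCompact (S.g '' closure W) := isClosed_closure.isCompact.image S.g.continuous
  have hAW : S.g '' closure W ⊆ W := by
    rintro _ ⟨y, hy, rfl⟩
    exact htrap y hy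
  obtain ⟨r, hr0, hr⟩ := hAc.exists_thickening_subset_open hW hAW
  have hsep : ∀ y ∈ S.g '' closure W, ∀ z, dist y z < r → z ∈ W := by
    intro y hy z hz
    apply hr
    rw [Metric.mem_thickening_iff]
    exact ⟨y, hy, by rwa [dist_comm]⟩
  have hinv : ∀ m : ℕ, ∀ z ∈ W, S.g^[m + 1] z ∈ S.g '' closure W := by
    intro m
    induction m with
    | zero =>
      intro z hz
      exact ⟨z, subset_closure hz, rfl⟩
    | succ m ih =>
      intro z hz
      rw [Function.iterate_succ_apply]
      exact ih _ (htrap z (subset_closure hz))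
  have hR0c : IsClosed R0 := by
    have h : R0 = ⋂ n : ℕ, (S.g^[n]) ⁻¹' Wᶜ := by
      ext x
      simp [hR0]
    rw [h]
    exact isClosed_iInter (fun n => hW.isClosed_compl.preimage (S.g.continuous.iterate n))
  have hR0n : R0.Nonempty := by
    obtain ⟨b, hb⟩ := hfwd
    exact ⟨b, hb⟩
  have hR0m : ∀ x ∈ R0, S.g x ∈ R0 := by
    intro x hx n
    rw [← Function.iterate_succ_apply]
    exact hx (n + 1)
  have hR0m' : ∀ x ∈ R0, S.g.symm x ∈ R0 := by
    intro x hx n
    match n with
    | 0 =>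
      intro h
      apply hx 0
      have := htrap _ (subset_closure h)
      simpa using this
    | n + 1 =>
      rw [Function.iterate_succ_apply, Homeomorph.apply_symm_apply]
      exact hx n
  have hR0s : ∀ x ∈ R0, ∀ y, SAsym S x y → y ∈ R0 := by
    intro x hx y hxy n hn
    have h1 := (tendsto_add_atTop_iff_nat (n + 1)).mpr hxy
    obtain ⟨m, hm⟩ := ((tendsto_order.mp h1).2 r hr0).exists
    apply hx (m + (n + 1))
    refine hsep (S.g^[m + (n + 1)] y) ?_ _ (by rwa [dist_comm])
    have h2 := hinv m _ hn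
    rw [← Function.iterate_add_apply] at h2
    rwa [show m + (n + 1) = m + 1 + n by ring]
  -- Zorn
  set 𝒮 : Set (Set X) := {R | IsClosed R ∧ R.Nonempty ∧ (∀ x ∈ R, S.g x ∈ R) ∧
    (∀ x ∈ R, S.g.symm x ∈ R) ∧ (∀ x ∈ R, ∀ y, SAsym S x y → y ∈ R) ∧ R ⊆ R0} with h𝒮
  have hz : ∃ m, Minimal (· ∈ 𝒮) m := by
    apply zorn_superset
    intro c hc hchain
    rcases c.eq_empty_or_nonempty with rfl | hcn
    · exact ⟨R0, ⟨hR0c, hR0n, hR0m, hR0m', hR0s, subset_rfl⟩, by simp⟩
    · refine ⟨⋂₀ c, ⟨isClosed_sInter (fun s hs => (hc hs).1), ?_, ?_, ?_, ?_, ?_⟩,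
        fun s hs => Set.sInter_subset_of_mem hs⟩
      · have : Nonempty c := hcn.to_subtype
        refine IsCompact.nonempty_sInter_of_directed_nonempty_isCompact_isClosed ?_
          (fun s hs => (hc hs).2.1) (fun s hs => (hc hs).1.isCompact) (fun s hs => (hc hs).1)
        intro s hs' t ht'
        rcases hchain.total hs' ht' with h | h
        · exact ⟨s, hs', subset_rfl, h⟩
        · exact ⟨t, ht', h, subset_rfl⟩
      · intro x hx s hs
        exact (hc hs).2.2.1 x (hx s hs)
      · intro x hx s hs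
        exact (hc hs).2.2.2.1 x (hx s hs)
      · intro x hx y hxy s hs
        exact (hc hs).2.2.2.2.1 x (hx s hs) y hxy
      · obtain ⟨s, hs⟩ := hcn
        exact (Set.sInter_subset_of_mem hs).trans (hc hs).2.2.2.2.2
  obtain ⟨R, hRm⟩ := hz
  obtain ⟨hc, hn, hm, hm', hs, hR⟩ := hRm.prop
  have hRW : R ∩ W = ∅ := by
    rw [Set.eq_empty_iff_forall_notMem]
    rintro x ⟨h1, h2⟩
    exact hR h1 0 h2
  refine ⟨R, ⟨hc, hn, hm, hm', hs, ?_⟩, hRW⟩
  obtain ⟨i1, i2, i3⟩ := interior_sat S R hm hm' hs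
  by_contra hI
  have hIn : (interior R).Nonempty := Set.nonempty_iff_ne_empty.mpr hI
  rcases (R \ interior R).eq_empty_or_nonempty with hem | hnem
  · have hRI : R ⊆ interior R := by
      intro x hx
      by_contra hxI
      have : x ∈ R \ interior R := ⟨hx, hxI⟩
      rw [hem] at this
      exact this
    have hRo : IsOpen R := by
      have : R = interior R := Set.Subset.antisymm hRI interior_subset
      rw [this]
      exact isOpen_interior
    have hRu : R = Set.univ := IsClopen.eq_univ ⟨hc, hRo⟩ hn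
    obtain ⟨w, hw⟩ := hne
    have : w ∈ R ∩ W := ⟨by rw [hRu]; trivial, hw⟩
    rw [hRW] at this
    exact this
  · have hmem : R \ interior R ∈ 𝒮 := by
      refine ⟨hc.sdiff isOpen_interior, hnem, ?_, ?_, ?_, Set.sdiff_subset.trans hR⟩
      · rintro x ⟨h1, h2⟩
        refine ⟨hm x h1, fun h3 => h2 ?_⟩
        have := i2 _ h3
        rwa [Homeomorph.symm_apply_apply] at this
      · rintro x ⟨h1, h2⟩
        refine ⟨hm' x h1, fun h3 => h2 ?_⟩
        have := i1 _ h3
        rwa [Homeomorph.apply_symm_apply] at this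
      · rintro x ⟨h1, h2⟩ y hxy
        exact ⟨hs x h1 y hxy, fun h3 => h2 (i3 y h3 x hxy.symm)⟩
    have h1 : R ⊆ R \ interior R := hRm.le_of_le hmem Set.sdiff_subset
    obtain ⟨x, hx⟩ := hIn
    exact (h1 (interior_subset hx)).2 hx

end Pool.Agent.H779R2.An
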