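import Pool.Agent.H779R2.An.Basic

set_option autoImplicit false

namespace Pool.Agent.H779R2.An

open Pool.Agent.H721R2 Filter Topology MeasureTheory
open scoped BigOperators

variable {X E : Type*} [MetricSpace X] [CompactSpace X] [NormedAddCommGroup E]
  [InnerProductSpace ℝ E] [FiniteDimensional ℝ E]

/-- T10a -/
theorem es_closed {S : HypSys X E} (F : Flat S) (R : Set X) (hR : IsClosed R) (D : ℕ) :
    ∀ ε ρ : ℝ, ε ≤ F.ε₀ / 2 → ∀ (t : X) (A : EuclideanSpace ℝ (Fin D) →ₗᵢ[ℝ] E),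
      IsClosed (ES F R t A ε ρ) := by
  intro ε ρ hε t A
  have hε0 := F.geo.pos
  apply IsSeqClosed.isClosed
  intro ζs ζ hmem hlim
  have h1 : ∀ n, ‖ζs n‖ ≤ ρ := fun n => (hmem n).1
  have h2 : ∀ n, ∃ c ∈ R, S.URel ε t c ∧ F.Lc t c = A (ζs n) := fun n => (hmem n).2
  choose c hcR hcU hcL using h2
  obtain ⟨c0, hc0R, φ, hφ, hφlim⟩ := hR.isCompact.tendsto_subseq hcR
  have hU0 : S.URel ε t c0 := by
    intro k
    have hcont : Continuous fun y => dist (S.g.symm^[k] t) (S.g.symm^[k] y) :=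
      continuous_const.dist (S.g.symm.continuous.iterate k)
    exact le_of_tendsto ((hcont.tendsto c0).comp hφlim)
      (Eventually.of_forall fun n => hcU (φ n) k)
  have hle : ∀ n, ‖A (ζs (φ n)) - F.Lc t c0‖ ≤ 4 * dist c0 (c (φ n)) := by
    intro n
    have u1 : S.URel F.ε₀ t c0 := hU0.mono (by linarith)
    have u2 : S.URel F.ε₀ t (c (φ n)) := (hcU (φ n)).mono (by linarith)
    have u3 : S.URel F.ε₀ c0 (c (φ n)) := (hU0.symm.trans (hcU (φ n))).mono (by linarith)
    have a1 := F.geo.uasym _ _ u1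
    have a2 := F.geo.uasym _ _ u2
    have b1 := F.base t c0 (c (φ n)) a1 a2
    have b2 := F.Lc_le _ _ u3
    have b3 := F.le_τ t c0 u1 _ ((S.Vu t).sub_mem (F.Lc_mem _ _ a2) (F.Lc_mem _ _ a1))
    rw [← b1, hcL] at b3
    linarith
  have hlim2 : Tendsto (fun n => A (ζs (φ n))) atTop (𝓝 (A ζ)) :=
    (A.continuous.tendsto ζ).comp (hlim.comp hφ.tendsto_atTop)
  have hlim3 : Tendsto (fun n => A (ζs (φ n))) atTop (𝓝 (F.Lc t c0)) := by
    rw [tendsto_iff_norm_sub_tendsto_zero]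
    have h4 : Tendsto (fun n => 4 * dist c0 (c (φ n))) atTop (𝓝 0) := by
      have : Tendsto (fun n => dist c0 (c (φ n))) atTop (𝓝 (dist c0 c0)) :=
        (continuous_const.dist continuous_id).tendsto c0 |>.comp hφlim
      rw [dist_self] at this
      simpa using this.const_mul 4
    exact squeeze_zero (fun n => norm_nonneg _) hle h4
  refine ⟨?_, c0, hc0R, hU0, tendsto_nhds_unique hlim3 hlim2⟩
  exact le_of_tendsto (hlim.norm) (Eventually.of_forall h1)

end Pool.Agent.H779R2.An
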