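import Mathlib

set_option autoImplicit false

namespace Pool.Agent.H779R2.An

open Filter Topology MeasureTheory
open scoped BigOperators

/-- T10d: porous sets are null -/
theorem porous_null (D : ℕ) (s : Set (EuclideanSpace ℝ (Fin D))) (ρ δ : ℝ) (hρ : 0 < ρ)
    (hδ : 0 < δ)
    (h : ∀ ζ ∈ s, ∀ r, 0 < r → r ≤ ρ → ∃ ζ', ‖ζ' - ζ‖ ≤ r ∧ ∀ ζ'' ∈ s, δ * r ≤ ‖ζ'' - ζ'‖) :
    volume s = 0 := by
  have hae := Besicovitch.ae_tendsto_measure_inter_div
    (volume : Measure (EuclideanSpace ℝ (Fin D))) s
  rw [ae_iff] at hae
  set δ' : ℝ := min δ 1 with hδ'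
  have hδ'0 : 0 < δ' := lt_min hδ one_pos
  have hδ'1 : δ' ≤ 1 := min_le_right _ _
  have hδ'δ : δ' ≤ δ := min_le_left _ _
  set c : ENNReal := ENNReal.ofReal ((δ' / 2) ^ D) with hc
  have hc0 : 0 < c := by
    rw [hc, ENNReal.ofReal_pos]
    positivity
  have hsub : s ⊆ {x : EuclideanSpace ℝ (Fin D) | ¬ Tendsto (fun r =>
      volume (s ∩ Metric.closedBall x r) / volume (Metric.closedBall x r)) (𝓝[>] 0) (𝓝 1)} := by
    intro x hx ht
    have hev : ∀ᶠ R in 𝓝[>] (0 : ℝ),
        volume (s ∩ Metric.closedBall x R) / volume (Metric.closedBall x R) + c ≤ 1 := by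
      have h1 : Set.Ioo (0 : ℝ) (2 * ρ) ∈ 𝓝[>] (0 : ℝ) := Ioo_mem_nhdsGT (by linarith)
      filter_upwards [h1] with R hR
      obtain ⟨hR0, hR1⟩ := hR
      obtain ⟨ζ', h2, h3⟩ := h x hx (R / 2) (by linarith) (by linarith)
      have hball : Metric.ball ζ' (δ' * (R / 2)) ⊆ Metric.closedBall x R := by
        intro z hz
        rw [Metric.mem_ball] at hz
        rw [Metric.mem_closedBall]
        have h4 := dist_triangle z ζ' x
        rw [dist_eq_norm ζ' x] at h4
        have h5 : δ' * (R / 2) ≤ 1 * (R / 2) :=
          mul_le_mul_of_nonneg_right hδ'1 (by linarith)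
        linarith
      have hdis : Disjoint (s ∩ Metric.closedBall x R) (Metric.ball ζ' (δ' * (R / 2))) := by
        rw [Set.disjoint_left]
        intro z hz hz2
        have h4 := h3 z hz.1
        rw [Metric.mem_ball, dist_eq_norm] at hz2
        have h5 : δ' * (R / 2) ≤ δ * (R / 2) :=
          mul_le_mul_of_nonneg_right hδ'δ (by linarith)
        linarith
      have hsum : volume (s ∩ Metric.closedBall x R) + volume (Metric.ball ζ' (δ' * (R / 2))) ≤
          volume (Metric.closedBall x R) := by
        rw [← measure_union hdis measurableSet_ball]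
        exact measure_mono (Set.union_subset Set.inter_subset_right hball)
      have hvb : volume (Metric.ball ζ' (δ' * (R / 2))) = c * volume (Metric.closedBall x R) := by
        rw [Measure.addHaar_ball_of_pos _ _ (by positivity),
          Measure.addHaar_closedBall _ _ hR0.le, hc, ← mul_assoc,
          ← ENNReal.ofReal_mul (by positivity)]
        congr 2
        rw [finrank_euclideanSpace_fin, ← mul_pow]
        congr 1
        ring
      have hv0 : volume (Metric.closedBall x R) ≠ 0 :=
        (Metric.measure_closedBall_pos _ _ hR0).ne'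
      have hvt : volume (Metric.closedBall x R) ≠ ⊤ := measure_closedBall_lt_top.ne
      calc volume (s ∩ Metric.closedBall x R) / volume (Metric.closedBall x R) + c
          = volume (s ∩ Metric.closedBall x R) / volume (Metric.closedBall x R) +
            c * volume (Metric.closedBall x R) / volume (Metric.closedBall x R) := by
            rw [mul_div_assoc, ENNReal.div_self hv0 hvt, mul_one]
        _ = (volume (s ∩ Metric.closedBall x R) + c * volume (Metric.closedBall x R)) /
            volume (Metric.closedBall x R) := by rw [ENNReal.add_div]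
        _ ≤ volume (Metric.closedBall x R) / volume (Metric.closedBall x R) := by
            rw [← hvb]
            exact ENNReal.div_le_div_right hsum _
        _ = 1 := ENNReal.div_self hv0 hvt
    have hlim : (1 : ENNReal) + c ≤ 1 := le_of_tendsto (ht.add_const c) hev
    have : (1 : ENNReal) < 1 + c := ENNReal.lt_add_right ENNReal.one_ne_top hc0.ne'
    exact absurd hlim (not_le.2 this)
  have h1 : (volume.restrict s) s ≤ 0 := by
    rw [← hae]
    exact measure_mono hsub
  rw [Measure.restrict_apply_self] at h1
  exact le_antisymm h1 bot_le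

end Pool.Agent.H779R2.An
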