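import Pool.Agent.H779R2.An.Basic
import Pool.Agent.H779R2.An.Porous
import Pool.Agent.H779R2.An.ESClosed

set_option autoImplicit false

namespace Pool.Agent.H779R2.An

open Pool.Agent.H721R2 Filter Topology MeasureTheory
open scoped BigOperators

variable {X E : Type*} [MetricSpace X] [CompactSpace X] [NormedAddCommGroup E]
  [InnerProductSpace ℝ E] [FiniteDimensional ℝ E]

/-- T10c -/
theorem null {S : HypSys X E} (F : Flat S) (B : UV S) {R : Set X} (hR : MinR S R)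
    (hol : ∀ ρ₁ > 0, ∃ δ₁ > 0, ∀ c ∈ R, ∃ v ∈ S.Vu c, ‖v‖ ≤ ρ₁ ∧
      ∀ q, UAsym S c q → ‖F.Lc c q - v‖ < δ₁ → q ∉ R) (D : ℕ) : NullProp F R D := by
  have hε₀ := F.geo.pos
  refine ⟨F.ε₀ / 2, by positivity, 1, one_pos, ?_⟩
  intro ε' ρ' hε' _ t A hA
  refine ⟨es_closed F R hR.closed D ε' ρ' hε' t A, ?_⟩
  -- constants
  set K' : ℝ := max F.K 1 with hK'
  have hK1 : 1 ≤ K' := le_max_right _ _
  have hKpos : 0 < K' := by linarith
  have hqc : ∀ (n : ℕ) (x : X), ∀ v ∈ S.Vu x, ∀ w ∈ S.Vu x,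
      ‖Dn S n x v‖ * ‖w‖ ≤ K' * (‖Dn S n x w‖ * ‖v‖) := by
    intro n x v hv w hw
    refine (F.qc n x v hv w hw).trans ?_
    exact mul_le_mul_of_nonneg_right (le_max_left _ _) (by positivity)
  obtain ⟨δ₁, hδ₁, hhol⟩ := hol 1 one_pos
  have hLu : 1 ≤ S.Lu := S.one_le_Lu
  have hLupos : 0 < S.Lu := by linarith
  set M : ℝ := 4 * K' with hM
  have hMpos : 0 < M := by positivity
  set δ : ℝ := δ₁ / (2 * (K' * (S.Lu * M))) with hδ
  have hδpos : 0 < δ := by positivity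
  have hRn : ∀ (n : ℕ) (x : X), x ∈ R → S.g^[n] x ∈ R := by
    intro n x hx
    induction n with
    | zero => exact hx
    | succ n ih =>
      rw [Function.iterate_succ_apply']
      exact hR.map _ ih
  apply porous_null D _ 1 δ one_pos hδpos
  rintro ζ ⟨-, c, hcR, htc, hLc⟩ r hr hr1
  have htc0 : S.URel F.ε₀ t c := htc.mono (by linarith)
  have hct0 : S.URel F.ε₀ c t := htc0.symm
  have hau : UAsym S t c := F.geo.uasym _ _ htc0
  have hau' : UAsym S c t := hau.symm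
  -- the unit vector and the level
  have hbm := B.mem c
  have hbn := B.norm c
  have hex : ∃ n : ℕ, M ≤ r * ‖Dn S n c (B.b c)‖ := by
    obtain ⟨n, hn⟩ := pow_unbounded_of_one_lt (M / r) (show (1:ℝ) < 16 by norm_num)
    refine ⟨n, ?_⟩
    have h1 := le_Dn S n c hbm
    rw [hbn, mul_one] at h1
    have h2 : M / r ≤ ‖Dn S n c (B.b c)‖ := hn.le.trans h1
    rw [div_le_iff₀ hr] at h2
    linarith
  classical
  set n := Nat.find hex with hn
  have hn1 : M ≤ r * ‖Dn S n c (B.b c)‖ := Nat.find_spec hex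
  have hn0 : n ≠ 0 := by
    intro h0
    rw [h0] at hn1
    simp only [Dn_zero] at hn1
    rw [hbn] at hn1
    linarith
  have hn2 : r * ‖Dn S n c (B.b c)‖ ≤ S.Lu * M := by
    obtain ⟨m, hm⟩ := Nat.exists_eq_succ_of_ne_zero hn0
    have h1 : r * ‖Dn S m c (B.b c)‖ < M := by
      have := Nat.find_min hex (m := m) (by omega)
      push Not at this
      exact this
    rw [hm, Nat.succ_eq_add_one, Dn_succ]
    have h2 := S.boundU _ _ (Dn_mem S m c hbm)
    calc r * ‖S.D (S.g^[m] c) (Dn S m c (B.b c))‖ ≤ r * (S.Lu * ‖Dn S m c (B.b c)‖) :=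
          mul_le_mul_of_nonneg_left h2 hr.le
      _ = S.Lu * (r * ‖Dn S m c (B.b c)‖) := by ring
      _ ≤ S.Lu * M := mul_le_mul_of_nonneg_left h1.le hLupos.le
  set N : ℝ := ‖Dn S n c (B.b c)‖ with hN
  have hNpos : 0 < N := by
    by_contra h
    push Not at h
    have : r * N ≤ 0 := mul_nonpos_of_nonneg_of_nonpos hr.le h
    linarith
  -- the hole
  obtain ⟨vn, hvn, hvn1, hvn2⟩ := hhol (S.g^[n] c) (hRn n c hcR)
  set v : E := Dn S.symm n (S.g^[n] c) vn with hv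
  have hvm : v ∈ S.Vu c := by
    have := Dn_symm_mem S n (S.g^[n] c) hvn
    rwa [iter_symm_iter] at this
  have hDv : Dn S n c v = vn := by
    have := Dn_Dn_symm S n (S.g^[n] c) hvn
    rwa [iter_symm_iter] at this
  have hvr : ‖v‖ ≤ r / 4 := by
    have h1 := hqc n c (B.b c) hbm v hvm
    rw [hDv, hbn, mul_one] at h1
    have h2 : N * ‖v‖ ≤ K' := h1.trans (by nlinarith)
    have h3 : M * ‖v‖ ≤ r * K' := by
      calc M * ‖v‖ ≤ (r * N) * ‖v‖ := mul_le_mul_of_nonneg_right hn1 (norm_nonneg _)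
        _ = r * (N * ‖v‖) := by ring
        _ ≤ r * K' := mul_le_mul_of_nonneg_left h2 hr.le
    rw [hM] at h3
    have h4 : K' * (4 * ‖v‖) ≤ K' * r := by linarith
    have h5 := le_of_mul_le_mul_left h4 hKpos
    linarith
  -- separation of the trace of `R`
  have hsep : ∀ q ∈ R, UAsym S c q → 2 * (δ * r) ≤ ‖F.Lc c q - v‖ := by
    intro q hq hcq
    have hwm : F.Lc c q - v ∈ S.Vu c := (S.Vu c).sub_mem (F.Lc_mem _ _ hcq) hvm
    have h1 : ¬ ‖F.Lc (S.g^[n] c) (S.g^[n] q) - vn‖ < δ₁ := fun h =>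
      hvn2 _ (hcq.iter n) h (hRn n q hq)
    have h2 : δ₁ ≤ ‖Dn S n c (F.Lc c q - v)‖ := by
      rw [map_sub, hDv, ← F.Lc_iter hcq n]
      exact not_lt.1 h1
    have h3 := hqc n c _ hwm (B.b c) hbm
    rw [hbn, mul_one] at h3
    have h4 : δ₁ ≤ K' * (N * ‖F.Lc c q - v‖) := h2.trans h3
    have h5 : δ₁ * r ≤ K' * (S.Lu * M) * ‖F.Lc c q - v‖ := by
      calc δ₁ * r ≤ K' * (N * ‖F.Lc c q - v‖) * r := mul_le_mul_of_nonneg_right h4 hr.le
        _ = K' * (r * N) * ‖F.Lc c q - v‖ := by ring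
        _ ≤ K' * (S.Lu * M) * ‖F.Lc c q - v‖ := by
            apply mul_le_mul_of_nonneg_right _ (norm_nonneg _)
            exact mul_le_mul_of_nonneg_left hn2 hKpos.le
    have h6 : 2 * (δ * r) = δ₁ * r / (K' * (S.Lu * M)) := by
      rw [hδ]
      field_simp
    rw [h6, div_le_iff₀ (by positivity)]
    linarith
  -- the centre of the hole
  have hτm : F.τ c t v ∈ S.Vu t := F.τ_mem _ _ hau' _ hvm
  obtain ⟨ζ', hζ'⟩ := hA.2 (F.Lc t c + F.τ c t v)
    ((S.Vu t).add_mem (F.Lc_mem _ _ hau) hτm)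
  have hdiff : A (ζ' - ζ) = F.τ c t v := by
    rw [map_sub, hζ', ← hLc]
    abel
  refine ⟨ζ', ?_, ?_⟩
  · have h1 : ‖ζ' - ζ‖ = ‖F.τ c t v‖ := by rw [← hdiff, A.norm_map]
    have h2 := F.τ_le c t hct0 v hvm
    rw [h1]
    linarith
  · rintro ζ'' ⟨-, c'', hc''R, htc'', hLc''⟩
    have htc''0 : S.URel F.ε₀ t c'' := htc''.mono (by linarith)
    have hau'' : UAsym S t c'' := F.geo.uasym _ _ htc''0
    have hcc'' : UAsym S c c'' := hau'.trans hau''
    have h1 := hsep c'' hc''R hcc''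
    have h2 : F.Lc c c'' - v = F.τ t c (A (ζ'' - ζ')) := by
      have h3 : F.τ t c (F.τ c t v) = v := by
        rw [F.τ_comp c t c hau' hau v hvm, F.τ_self c v hvm]
      rw [F.base t c c'' hau hau'', hLc'', hLc, ← map_sub A]
      conv_lhs => rw [← h3]
      rw [← map_sub, ← hdiff, ← map_sub A]
      congr 2
      abel
    have h4 : A (ζ'' - ζ') ∈ S.Vu t := hA.1 _
    have h5 := F.τ_le t c htc0 _ h4
    rw [A.norm_map] at h5
    rw [h2] at h1
    linarith

end Pool.Agent.H779R2.An
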