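import Mathlib

set_option autoImplicit false

namespace Pool.Agent.H779R2.An

open Filter Topology MeasureTheory
open scoped BigOperators

/-- T7a -/
theorem schwarz_two (F : ℂ → ℂ) (ρ M : ℝ) (hρ : 0 < ρ)
    (hF : DifferentiableOn ℂ F (Metric.ball 0 ρ)) (hM : ∀ z ∈ Metric.ball (0 : ℂ) ρ, ‖F z‖ ≤ M)
    (h0 : F 0 = 0) (h1 : deriv F 0 = 0) :
    ∀ z ∈ Metric.ball (0 : ℂ) ρ, ‖F z‖ ≤ M * (‖z‖ / ρ) ^ 2 := by
  intro z hz
  have hd : DifferentiableAt ℂ F 0 := hF.differentiableAt (Metric.ball_mem_nhds _ hρ)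
  have hh : HasDerivAt F 0 0 := by
    have := hd.hasDerivAt
    rwa [h1] at this
  have hn : (fun w => F w - F 0) =o[𝓝 0] (fun w : ℂ => ‖w - 0‖ ^ 1) := by
    have h2 := hasDerivAt_iff_isLittleO.1 hh
    simp only [smul_zero, sub_zero] at h2
    simpa using h2.norm_right
  have h3 := Complex.dist_le_mul_div_pow_of_mapsTo_ball_of_isLittleO (f := F) (c := 0) (z := z)
    (R₁ := ρ) (R₂ := M) (n := 1) hF (by
      intro w hw
      rw [h0, mem_closedBall_zero_iff]
      exact hM w hw) hn hz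
  simpa [h0, dist_eq_norm] using h3

end Pool.Agent.H779R2.An
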