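import Mathlib
import Pool.Agent.H779R2.An.Schwarz

set_option autoImplicit false

namespace Pool.Agent.H779R2.An

open Filter Topology

/-- Abstract quadratic estimate: a bounded map between complex vector spaces with complex linear
derivatives everywhere and zero derivative at `0` is quadratically small. -/
theorem quad_abs {E : Type*} [NormedAddCommGroup E] [NormedSpace ℝ E]
    (V V' : Submodule ℝ E) (J J' : E →ₗ[ℝ] E) (C M ρ0 : ℝ) (hC : 0 ≤ C) (hρ0 : 0 < ρ0)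
    (hJ : ∀ v ∈ V, J v ∈ V) (hJn : ∀ v ∈ V, ‖J v‖ ≤ C * ‖v‖)
    (hJ'2 : ∀ v ∈ V', J' (J' v) = -v) (hJ'n : ∀ v ∈ V', ‖J' v‖ ≤ C * ‖v‖)
    (h : E → E) (hmem : ∀ u ∈ V, ‖u‖ ≤ ρ0 → h u ∈ V') (hM : ∀ u ∈ V, ‖u‖ ≤ ρ0 → ‖h u‖ ≤ M)
    (h0 : h 0 = 0)
    (hd : ∀ u0 ∈ V, ‖u0‖ ≤ ρ0 → ∃ B : E →ₗ[ℝ] E, (∀ v ∈ V, B v ∈ V') ∧
      (∀ v ∈ V, B (J v) = J' (B v)) ∧
      (∀ η > 0, ∃ ρ > 0, ∀ u ∈ V, ‖u‖ ≤ ρ0 → ‖u - u0‖ ≤ ρ →
        ‖h u - h u0 - B (u - u0)‖ ≤ η * ‖u - u0‖))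
    (hd0 : ∀ η > 0, ∃ ρ > 0, ∀ u ∈ V, ‖u‖ ≤ ρ0 → ‖u‖ ≤ ρ → ‖h u‖ ≤ η * ‖u‖) :
    ∀ u ∈ V, (1 + C) * ‖u‖ < ρ0 →
      ‖h u‖ ≤ ((1 + C) * M) * ((1 + C) * ‖u‖ / ρ0) ^ 2 := by
  intro u hu huρ
  have hM0 : 0 ≤ M := by
    have := hM 0 V.zero_mem (by simpa using hρ0.le)
    exact (norm_nonneg _).trans this
  have hC1 : 0 < 1 + C := by linarith
  by_cases hu0 : u = 0
  · subst hu0
    rw [h0, norm_zero]
    positivity
  have hun : 0 < ‖u‖ := norm_pos_iff.mpr hu0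
  set v : E := ‖u‖⁻¹ • u with hv
  have hvV : v ∈ V := V.smul_mem _ hu
  have hvn : ‖v‖ = 1 := by
    rw [hv, norm_smul, norm_inv, norm_norm, inv_mul_cancel₀ hun.ne']
  obtain ⟨φ, hφ1, hφ2⟩ := exists_dual_vector'' ℝ (h u)
  have hφb : ∀ y, |φ y| ≤ ‖y‖ := by
    intro y
    have := φ.le_opNorm y
    rw [Real.norm_eq_abs] at this
    exact this.trans (by
      calc ‖φ‖ * ‖y‖ ≤ 1 * ‖y‖ := mul_le_mul_of_nonneg_right hφ1 (norm_nonneg _)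
        _ = ‖y‖ := one_mul _)
  set Ψ : E → ℂ := fun y => (φ y : ℂ) - Complex.I * (φ (J' y) : ℂ) with hΨ
  have hΨsub : ∀ x y, Ψ (x - y) = Ψ x - Ψ y := by
    intro x y
    simp only [hΨ, map_sub]
    push_cast
    ring
  have hΨadd : ∀ x y, Ψ (x + y) = Ψ x + Ψ y := by
    intro x y
    simp only [hΨ, map_add]
    push_cast
    ring
  have hΨsmul : ∀ (a : ℝ) (x : E), Ψ (a • x) = (a : ℂ) * Ψ x := by
    intro a x
    simp only [hΨ, map_smul, smul_eq_mul]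
    push_cast
    ring
  have hΨJ : ∀ y ∈ V', Ψ (J' y) = Complex.I * Ψ y := by
    intro y hy
    simp only [hΨ]
    rw [hJ'2 y hy, map_neg]
    push_cast
    linear_combination ((φ (J' y) : ℂ)) * Complex.I_mul_I
  have hΨb : ∀ y ∈ V', ‖Ψ y‖ ≤ (1 + C) * ‖y‖ := by
    intro y hy
    have h1 : ‖(φ y : ℂ)‖ ≤ ‖y‖ := by rw [Complex.norm_real]; exact hφb y
    have h2 : ‖Complex.I * (φ (J' y) : ℂ)‖ ≤ C * ‖y‖ := by
      rw [norm_mul, Complex.norm_I, one_mul, Complex.norm_real]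
      exact (hφb _).trans (hJ'n y hy)
    calc ‖Ψ y‖ ≤ ‖(φ y : ℂ)‖ + ‖Complex.I * (φ (J' y) : ℂ)‖ := norm_sub_le _ _
      _ ≤ ‖y‖ + C * ‖y‖ := add_le_add h1 h2
      _ = (1 + C) * ‖y‖ := by ring
  set p : ℂ → E := fun ζ => ζ.re • v + ζ.im • J v with hp
  have hpV : ∀ ζ, p ζ ∈ V := fun ζ => V.add_mem (V.smul_mem _ hvV) (V.smul_mem _ (hJ v hvV))
  have hpn : ∀ ζ, ‖p ζ‖ ≤ (1 + C) * ‖ζ‖ := by
    intro ζ
    have h1 : ‖ζ.re • v‖ ≤ ‖ζ‖ := by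
      rw [norm_smul, hvn, mul_one, Real.norm_eq_abs]; exact Complex.abs_re_le_norm ζ
    have h2 : ‖ζ.im • J v‖ ≤ C * ‖ζ‖ := by
      rw [norm_smul, Real.norm_eq_abs]
      have h3 := hJn v hvV
      rw [hvn, mul_one] at h3
      calc |ζ.im| * ‖J v‖ ≤ ‖ζ‖ * C :=
            mul_le_mul (Complex.abs_im_le_norm ζ) h3 (norm_nonneg _) (norm_nonneg _)
        _ = C * ‖ζ‖ := mul_comm _ _
    calc ‖p ζ‖ ≤ ‖ζ.re • v‖ + ‖ζ.im • J v‖ := norm_add_le _ _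
      _ ≤ ‖ζ‖ + C * ‖ζ‖ := add_le_add h1 h2
      _ = (1 + C) * ‖ζ‖ := by ring
  have hpsub : ∀ ζ ζ', p ζ - p ζ' = p (ζ - ζ') := by
    intro ζ ζ'
    simp only [hp, Complex.sub_re, Complex.sub_im, sub_smul]
    abel
  set ρ1 : ℝ := ρ0 / (1 + C) with hρ1
  have hρ1pos : 0 < ρ1 := by positivity
  set Fn : ℂ → ℂ := fun ζ => Ψ (h (p ζ)) with hFn
  have hball : ∀ ζ : ℂ, ‖ζ‖ < ρ1 → ‖p ζ‖ ≤ ρ0 := by
    intro ζ hζ
    refine (hpn ζ).trans ?_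
    rw [hρ1, lt_div_iff₀ hC1] at hζ
    linarith
  -- differentiability
  have hder : ∀ ζ0 : ℂ, ‖ζ0‖ < ρ1 → ∀ B : E →ₗ[ℝ] E, (∀ v ∈ V, B v ∈ V') →
      (∀ v ∈ V, B (J v) = J' (B v)) →
      (∀ η > 0, ∃ ρ > 0, ∀ u ∈ V, ‖u‖ ≤ ρ0 → ‖u - p ζ0‖ ≤ ρ →
        ‖h u - h (p ζ0) - B (u - p ζ0)‖ ≤ η * ‖u - p ζ0‖) →
      HasDerivAt Fn (Ψ (B v)) ζ0 := by
    intro ζ0 hζ0 B hB1 hB2 hB3
    rw [hasDerivAt_iff_isLittleO, Asymptotics.isLittleO_iff]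
    intro c hc
    obtain ⟨ρ, hρ, h1⟩ := hB3 (c / (1 + C) ^ 2) (by positivity)
    have h2 : 0 < min (ρ / (1 + C)) (ρ1 - ‖ζ0‖) := lt_min (by positivity) (by linarith)
    filter_upwards [Metric.ball_mem_nhds ζ0 h2] with ζ hζ
    rw [Metric.mem_ball, dist_eq_norm, lt_min_iff] at hζ
    have h3 : ‖ζ‖ < ρ1 := by
      have : ‖ζ‖ ≤ ‖ζ - ζ0‖ + ‖ζ0‖ := by
        calc ‖ζ‖ = ‖(ζ - ζ0) + ζ0‖ := by rw [sub_add_cancel]
          _ ≤ _ := norm_add_le _ _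
      linarith [hζ.2]
    have h4 : ‖p ζ - p ζ0‖ ≤ (1 + C) * ‖ζ - ζ0‖ := by rw [hpsub]; exact hpn _
    have h5 : ‖p ζ - p ζ0‖ ≤ ρ := by
      refine h4.trans ?_
      have := hζ.1
      rw [lt_div_iff₀ hC1] at this
      linarith
    have h6 := h1 (p ζ) (hpV ζ) (hball ζ h3) h5
    have h7 : Fn ζ - Fn ζ0 - (ζ - ζ0) • Ψ (B v) =
        Ψ (h (p ζ) - h (p ζ0) - B (p ζ - p ζ0)) := by
      rw [hΨsub, hΨsub]
      have h8 : Ψ (B (p ζ - p ζ0)) = (ζ - ζ0) • Ψ (B v) := by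
        rw [hpsub]
        simp only [hp, map_add, map_smul]
        rw [hB2 v hvV, hΨadd, hΨsmul, hΨsmul, hΨJ _ (hB1 v hvV), smul_eq_mul]
        have h9 : (ζ - ζ0) = ((ζ - ζ0).re : ℂ) + ((ζ - ζ0).im : ℂ) * Complex.I :=
          (Complex.re_add_im _).symm
        conv_rhs => rw [h9]
        ring
      rw [h8]
    rw [h7]
    have h10 : h (p ζ) - h (p ζ0) - B (p ζ - p ζ0) ∈ V' :=
      V'.sub_mem (V'.sub_mem (hmem _ (hpV ζ) (hball ζ h3)) (hmem _ (hpV ζ0) (hball ζ0 hζ0)))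
        (hB1 _ (V.sub_mem (hpV ζ) (hpV ζ0)))
    calc ‖Ψ (h (p ζ) - h (p ζ0) - B (p ζ - p ζ0))‖
        ≤ (1 + C) * ‖h (p ζ) - h (p ζ0) - B (p ζ - p ζ0)‖ := hΨb _ h10
      _ ≤ (1 + C) * (c / (1 + C) ^ 2 * ‖p ζ - p ζ0‖) := mul_le_mul_of_nonneg_left h6 hC1.le
      _ ≤ (1 + C) * (c / (1 + C) ^ 2 * ((1 + C) * ‖ζ - ζ0‖)) := by gcongr
      _ = c * ‖ζ - ζ0‖ := by field_simp
  have hF0 : Fn 0 = 0 := by
    have h1 : p 0 = 0 := by simp [hp]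
    simp only [hFn, h1, h0, hΨ, map_zero]
    simp
  have hF1 : deriv Fn 0 = 0 := by
    have h1 : p 0 = 0 := by simp [hp]
    have h2 := hder 0 (by simpa using hρ1pos) 0 (fun v _ => by simp)
      (fun v _ => by simp) (fun η hη => by
        obtain ⟨ρ, hρ, h3⟩ := hd0 η hη
        refine ⟨ρ, hρ, fun u hu hu1 hu2 => ?_⟩
        rw [h1, sub_zero] at hu2 ⊢
        rw [h0, LinearMap.zero_apply, sub_zero, sub_zero]
        exact h3 u hu hu1 hu2)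
    have h3 : Ψ ((0 : E →ₗ[ℝ] E) v) = 0 := by
      simp [hΨ]
    rw [h3] at h2
    exact h2.deriv
  have hFd : DifferentiableOn ℂ Fn (Metric.ball 0 ρ1) := by
    intro ζ hζ
    rw [mem_ball_zero_iff] at hζ
    obtain ⟨B, hB1, hB2, hB3⟩ := hd (p ζ) (hpV ζ) (hball ζ hζ)
    exact (hder ζ hζ B hB1 hB2 hB3).differentiableAt.differentiableWithinAt
  have hFM : ∀ ζ ∈ Metric.ball (0 : ℂ) ρ1, ‖Fn ζ‖ ≤ (1 + C) * M := by
    intro ζ hζ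
    rw [mem_ball_zero_iff] at hζ
    exact (hΨb _ (hmem _ (hpV ζ) (hball ζ hζ))).trans
      (mul_le_mul_of_nonneg_left (hM _ (hpV ζ) (hball ζ hζ)) hC1.le)
  have hmain := schwarz_two Fn ρ1 ((1 + C) * M) hρ1pos hFd hFM hF0 hF1 (‖u‖ : ℂ) (by
    rw [mem_ball_zero_iff, Complex.norm_real, norm_norm, hρ1, lt_div_iff₀ hC1]
    linarith)
  have hpu : p (‖u‖ : ℂ) = u := by
    simp only [hp, Complex.ofReal_re, Complex.ofReal_im, zero_smul, add_zero]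
    rw [hv, smul_smul, mul_inv_cancel₀ hun.ne', one_smul]
  have hre : ‖h u‖ ≤ ‖Fn (‖u‖ : ℂ)‖ := by
    have h1 : (Fn (‖u‖ : ℂ)).re = ‖h u‖ := by
      simp only [hFn, hpu, hΨ]
      rw [hφ2]
      simp
    rw [← h1]
    exact Complex.re_le_norm _
  refine hre.trans (hmain.trans (le_of_eq ?_))
  rw [Complex.norm_real, norm_norm, hρ1]
  congr 2
  field_simp

end Pool.Agent.H779R2.An
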