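import Pool.Agent.H779R2.An.Basic
import Pool.Agent.H779R2.An.QEAux

set_option autoImplicit false

namespace Pool.Agent.H779R2.An

open Pool.Agent.H721R2 Filter Topology MeasureTheory
open scoped BigOperators

variable {X E : Type*} [MetricSpace X] [CompactSpace X] [NormedAddCommGroup E]
  [InnerProductSpace ℝ E] [FiniteDimensional ℝ E]

/-- T7 -/
theorem qe {S : HypSys X E} (F : Flat S) (J : CJ F) (hCD : CDProp F) : QEProp F := by
  obtain ⟨εcd, hεcd, hcd⟩ := hCD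
  have hε₀ := F.geo.pos
  set e2 : ℝ := min F.ε₀ εcd / 8 with he2def
  have he2 : 0 < e2 := by
    have := lt_min hε₀ hεcd
    positivity
  have he2a : 8 * e2 ≤ F.ε₀ := by
    have := min_le_left F.ε₀ εcd
    rw [he2def]; linarith
  have he2b : 8 * e2 ≤ εcd := by
    have := min_le_right F.ε₀ εcd
    rw [he2def]; linarith
  obtain ⟨e1', he1', hcor⟩ := exists_corner S e2 he2
  set e1 : ℝ := min e1' e2 with he1def
  have he1 : 0 < e1 := lt_min he1' he2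
  have he1a : e1 ≤ e1' := min_le_left _ _
  have he1b : e1 ≤ e2 := min_le_right _ _
  obtain ⟨ρ0, hρ0, hsurj⟩ := F.surj e1 he1
  set C1 : ℝ := |J.C| with hC1
  have hC1n : 0 ≤ C1 := abs_nonneg _
  set M : ℝ := 2 * e2 + 2 * ρ0 with hM
  have hMpos : 0 < M := by positivity
  set ρ1 : ℝ := ρ0 / (1 + C1) with hρ1
  have h1C : 0 < 1 + C1 := by linarith
  have hρ1pos : 0 < ρ1 := by positivity
  have hρ1le : ρ1 ≤ ρ0 := div_le_self hρ0.le (by linarith)
  refine ⟨((1 + C1) * M) * ((1 + C1) / ρ0) ^ 2 + 1, by positivity, min e1 (ρ1 / 4),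
    lt_min he1 (by positivity), ?_⟩
  intro z z' p p' hzz hzp hpp hzp'
  have hεa : min e1 (ρ1 / 4) ≤ e1 := min_le_left _ _
  have hεb : min e1 (ρ1 / 4) ≤ ρ1 / 4 := min_le_right _ _
  have hzz1 : S.SRel e1 z z' := hzz.mono hεa
  have hzz0 : S.SRel F.ε₀ z z' := hzz1.mono (by linarith)
  have hsas : SAsym S z z' := F.geo.sasym _ _ hzz0
  -- the choice of the points
  have key : ∀ u : E, ∃ q q' : X, u ∈ S.Vu z → ‖u‖ ≤ ρ0 →
      S.URel e1 z q ∧ F.Lc z q = u ∧ S.URel e2 z' q' ∧ S.SRel e2 q q' := by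
    intro u
    by_cases hu : u ∈ S.Vu z ∧ ‖u‖ ≤ ρ0
    · obtain ⟨q, hq1, hq2⟩ := hsurj z u hu.1 hu.2
      obtain ⟨q', hq3, hq4⟩ := hcor z z' q (hzz1.mono he1a) (hq1.mono he1a)
      exact ⟨q, q', fun _ _ => ⟨hq1, hq2, hq3, hq4⟩⟩
    · exact ⟨z, z, fun h1 h2 => absurd ⟨h1, h2⟩ hu⟩
  choose P P' hP using key
  have huas : ∀ u ∈ S.Vu z, ‖u‖ ≤ ρ0 → UAsym S z (P u) := fun u hu hn =>
    F.geo.uasym _ _ ((hP u hu hn).1.mono (by linarith))
  have huas' : ∀ u ∈ S.Vu z, ‖u‖ ≤ ρ0 → UAsym S z' (P' u) := fun u hu hn =>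
    F.geo.uasym _ _ ((hP u hu hn).2.2.1.mono (by linarith))
  have hsasP : ∀ u ∈ S.Vu z, ‖u‖ ≤ ρ0 → SAsym S (P u) (P' u) := fun u hu hn =>
    F.geo.sasym _ _ ((hP u hu hn).2.2.2.mono (by linarith))
  have h0ρ : ‖(0 : E)‖ ≤ ρ0 := by rw [norm_zero]; exact hρ0.le
  have hz0 := (S.Vu z).zero_mem
  have hP0 : P 0 = z := by
    apply F.inj z (P 0) z (huas 0 hz0 h0ρ) (UAsym.refl S z)
    rw [(hP 0 hz0 h0ρ).2.1, F.Lc_self]
  have hP'0 : P' 0 = z' := by
    have h1 := (hP 0 hz0 h0ρ).2.2.2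
    rw [hP0] at h1
    exact (F.geo.uniq z' (P' 0) ((hzz1.symm.trans h1).mono (by linarith))
      ((hP 0 hz0 h0ρ).2.2.1.mono (by linarith))).symm
  -- the basic estimate
  have est : ∀ u0 ∈ S.Vu z, ‖u0‖ ≤ ρ0 → ∀ η > 0, ∃ ρ > 0, ∀ u ∈ S.Vu z, ‖u‖ ≤ ρ0 →
      ‖u - u0‖ ≤ ρ → ‖F.Lc z' (P' u) - F.Lc z' (P' u0) -
        F.τ (P' u0) z' (F.H (P u0) (P' u0) (F.τ z (P u0) (u - u0)))‖ ≤ η * ‖u - u0‖ := by
    intro u0 hu0 hn0 η hη
    obtain ⟨k1, k2, k3, k4⟩ := hP u0 hu0 hn0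
    obtain ⟨ρ', hρ', hcd'⟩ := hcd (P u0) (P' u0) (k4.mono (by linarith)) (η / 4) (by positivity)
    refine ⟨ρ' / 2, by positivity, fun u hu hn hd => ?_⟩
    obtain ⟨l1, l2, l3, l4⟩ := hP u hu hn
    have b1 : F.Lc (P u0) (P u) = F.τ z (P u0) (u - u0) := by
      rw [F.base z (P u0) (P u) (huas u0 hu0 hn0) (huas u hu hn), l2, k2]
    have b2 : F.Lc (P' u0) (P' u) = F.τ z' (P' u0) (F.Lc z' (P' u) - F.Lc z' (P' u0)) :=
      F.base z' (P' u0) (P' u) (huas' u0 hu0 hn0) (huas' u hu hn)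
    have b3 : ‖F.Lc (P u0) (P u)‖ ≤ 2 * ‖u - u0‖ := by
      rw [b1]
      exact F.τ_le z (P u0) (k1.mono (by linarith)) _ ((S.Vu z).sub_mem hu hu0)
    have b4 := hcd' (P u) (P' u) ((k1.symm.trans l1).mono (by linarith)) (by linarith)
      (l4.mono (by linarith)) ((k3.symm.trans l3).mono (by linarith))
    set w := F.Lc z' (P' u) - F.Lc z' (P' u0) with hw
    have hwV : w ∈ S.Vu z' := (S.Vu z').sub_mem (F.Lc_mem _ _ (huas' u hu hn))
      (F.Lc_mem _ _ (huas' u0 hu0 hn0))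
    have b5 : F.τ (P' u0) z' (F.τ z' (P' u0) w) = w := by
      rw [F.τ_comp z' (P' u0) z' (huas' u0 hu0 hn0) (huas' u0 hu0 hn0).symm w hwV,
        F.τ_self z' w hwV]
    have b6 : w - F.τ (P' u0) z' (F.H (P u0) (P' u0) (F.τ z (P u0) (u - u0))) =
        F.τ (P' u0) z' (F.Lc (P' u0) (P' u) - F.H (P u0) (P' u0) (F.Lc (P u0) (P u))) := by
      rw [map_sub (F.τ (P' u0) z'), b2, b5, b1]
    have b7 : F.Lc (P' u0) (P' u) - F.H (P u0) (P' u0) (F.Lc (P u0) (P u)) ∈ S.Vu (P' u0) := by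
      apply (S.Vu (P' u0)).sub_mem
      · exact F.Lc_mem _ _ ((huas' u0 hu0 hn0).symm.trans (huas' u hu hn))
      · exact F.H_mem _ _ (hsasP u0 hu0 hn0) _
          (F.Lc_mem _ _ ((huas u0 hu0 hn0).symm.trans (huas u hu hn)))
    rw [b6]
    have b8 := F.τ_le (P' u0) z' (k3.symm.mono (by linarith)) _ b7
    calc _ ≤ 2 * ‖F.Lc (P' u0) (P' u) - F.H (P u0) (P' u0) (F.Lc (P u0) (P u))‖ := b8
      _ ≤ 2 * (η / 4 * ‖F.Lc (P u0) (P u)‖) := by gcongr
      _ ≤ 2 * (η / 4 * (2 * ‖u - u0‖)) := by gcongr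
      _ = η * ‖u - u0‖ := by ring
  set h : E → E := fun u => F.Lc z' (P' u) - F.H z z' u with hh
  have hJle : ∀ x, ∀ v ∈ S.Vu x, ‖J.J x v‖ ≤ C1 * ‖v‖ := fun x v hv =>
    (J.J_le x v hv).trans (mul_le_mul_of_nonneg_right (le_abs_self _) (norm_nonneg _))
  have hmain := quad_abs (S.Vu z) (S.Vu z') (J.J z) (J.J z') C1 M ρ0 hC1n hρ0
    (J.J_mem z) (hJle z) (J.J_sq z') (hJle z') h
    (by
      intro u hu hn
      exact (S.Vu z').sub_mem (F.Lc_mem _ _ (huas' u hu hn)) (F.H_mem _ _ hsas _ hu))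
    (by
      intro u hu hn
      obtain ⟨k1, k2, k3, k4⟩ := hP u hu hn
      have a1 := F.Lc_le z' (P' u) (k3.mono (by linarith))
      have a2 := F.H_le z z' hzz0 u hu
      have a3 := k3.dist_le
      calc ‖h u‖ ≤ ‖F.Lc z' (P' u)‖ + ‖F.H z z' u‖ := norm_sub_le _ _
        _ ≤ M := by rw [hM]; linarith)
    (by
      simp only [hh]
      rw [hP'0, F.Lc_self, map_zero, sub_zero])
    (by
      intro u0 hu0 hn0
      refine ⟨(F.τ (P' u0) z').comp ((F.H (P u0) (P' u0)).comp (F.τ z (P u0))) - F.H z z',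
        ?_, ?_, ?_⟩
      · intro v hv
        rw [LinearMap.sub_apply, LinearMap.comp_apply, LinearMap.comp_apply]
        exact (S.Vu z').sub_mem (F.τ_mem _ _ (huas' u0 hu0 hn0).symm _
          (F.H_mem _ _ (hsasP u0 hu0 hn0) _ (F.τ_mem _ _ (huas u0 hu0 hn0) _ hv)))
          (F.H_mem _ _ hsas _ hv)
      · intro v hv
        have m1 := F.τ_mem _ _ (huas u0 hu0 hn0) _ hv
        have m2 := F.H_mem _ _ (hsasP u0 hu0 hn0) _ m1
        rw [LinearMap.sub_apply, LinearMap.comp_apply, LinearMap.comp_apply,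
          LinearMap.sub_apply, LinearMap.comp_apply, LinearMap.comp_apply, map_sub,
          J.J_τ _ _ (huas u0 hu0 hn0) v hv, J.J_H _ _ (hsasP u0 hu0 hn0) _ m1,
          J.J_τ _ _ (huas' u0 hu0 hn0).symm _ m2, J.J_H _ _ hsas v hv]
      · intro η hη
        obtain ⟨ρ, hρ, h1⟩ := est u0 hu0 hn0 η hη
        refine ⟨ρ, hρ, fun u hu hn hd => ?_⟩
        have h2 : h u - h u0 - ((F.τ (P' u0) z').comp ((F.H (P u0) (P' u0)).comp
            (F.τ z (P u0))) - F.H z z') (u - u0) = F.Lc z' (P' u) - F.Lc z' (P' u0) -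
            F.τ (P' u0) z' (F.H (P u0) (P' u0) (F.τ z (P u0) (u - u0))) := by
          simp only [hh]
          rw [LinearMap.sub_apply, LinearMap.comp_apply, LinearMap.comp_apply, map_sub (F.H z z')]
          abel
        rw [h2]
        exact h1 u hu hn hd)
    (by
      intro η hη
      obtain ⟨ρ, hρ, h1⟩ := est 0 hz0 h0ρ η hη
      refine ⟨ρ, hρ, fun u hu hn hd => ?_⟩
      have h2 := h1 u hu hn (by rwa [sub_zero])
      rw [sub_zero, hP0, hP'0, F.Lc_self, sub_zero, F.τ_self z u hu,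
        F.τ_self z' _ (F.H_mem _ _ hsas _ hu)] at h2
      exact h2)
  -- conclusion
  set u := F.Lc z p with hu
  have hzpu : UAsym S z p := F.geo.uasym _ _ (hzp.mono (by linarith))
  have huV : u ∈ S.Vu z := F.Lc_mem _ _ hzpu
  have hun : ‖u‖ ≤ ρ1 / 2 := by
    have a1 := F.Lc_le z p (hzp.mono (by linarith))
    have a2 := hzp.dist_le
    linarith
  have hun0 : ‖u‖ ≤ ρ0 := by linarith
  have hPp : P u = p := by
    apply F.inj z (P u) p (huas u huV hun0) hzpu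
    rw [(hP u huV hun0).2.1]
  have hPp' : P' u = p' := by
    have h1 := (hP u huV hun0).2.2.2
    have h2 := (hP u huV hun0).2.2.1
    rw [hPp] at h1
    exact (F.geo.uniq p' (P' u) ((hpp.symm.trans h1).mono (by linarith))
      ((hzp'.symm.trans h2).mono (by linarith))).symm
  have h3 := hmain u huV (by
    have : (1 + C1) * ‖u‖ ≤ (1 + C1) * (ρ1 / 2) := by gcongr
    have h4 : (1 + C1) * (ρ1 / 2) = ρ0 / 2 := by rw [hρ1]; field_simp
    linarith)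
  have h4 : h u = F.Lc z' p' - F.H z z' u := by
    simp only [hh]
    rw [hPp']
  rw [h4] at h3
  calc ‖F.Lc z' p' - F.H z z' u‖ ≤ (1 + C1) * M * ((1 + C1) * ‖u‖ / ρ0) ^ 2 := h3
    _ = (1 + C1) * M * ((1 + C1) / ρ0) ^ 2 * ‖u‖ ^ 2 := by ring
    _ ≤ ((1 + C1) * M * ((1 + C1) / ρ0) ^ 2 + 1) * ‖u‖ ^ 2 := by
      apply mul_le_mul_of_nonneg_right _ (by positivity)
      linarith

end Pool.Agent.H779R2.An
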