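import Pool.Agent.H779R2.An.Basic

set_option autoImplicit false

namespace Pool.Agent.H779R2.An

open Pool.Agent.H721R2 Filter Topology MeasureTheory
open scoped BigOperators

variable {X E : Type*} [MetricSpace X] [CompactSpace X] [NormedAddCommGroup E]
  [InnerProductSpace ℝ E] [FiniteDimensional ℝ E]

/-- T8 -/
theorem qek {S : HypSys X E} (F : Flat S) (B : UV S) (hQE : QEProp F) : QEkProp F B := by
  obtain ⟨C0, hC0, ε1, hε1, hQ⟩ := hQE
  have hg := F.geo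
  set ε := min ε1 F.ε₀ / 3 with hεdef
  have hεm : 0 < min ε1 F.ε₀ := lt_min hε1 hg.pos
  have hε : 0 < ε := by positivity
  have h3ε1 : 3 * ε ≤ ε1 := by
    have := min_le_left ε1 F.ε₀
    rw [hεdef]; linarith
  have h3ε0 : 3 * ε ≤ F.ε₀ := by
    have := min_le_right ε1 F.ε₀
    rw [hεdef]; linarith
  have hεε1 : ε ≤ ε1 := by linarith
  have hεε0 : ε ≤ F.ε₀ := by linarith
  refine ⟨4 * |F.K| ^ 2 * C0 + 1, by positivity, ε, hε, ?_⟩
  intro k y y' q q' hzz' hyq hy'q' hqq'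
  have hzp : S.URel ε (S.g.symm^[k] y) (S.g.symm^[k] q) := hyq.iter k
  have hz'p' : S.URel ε (S.g.symm^[k] y') (S.g.symm^[k] q') := hy'q'.iter k
  have hyy' : S.SRel ε y y' := SRel_fwd k hzz'
  have hpp' : S.SRel (3 * ε) (S.g.symm^[k] q) (S.g.symm^[k] q') := by
    refine SRel_back k (hqq'.mono (by linarith)) (fun j hj => ?_)
    have h1 := hyq j
    have h2 := hy'q' j
    have h3 := hzz' (k - j)
    rw [iter_symm_iter_le S (Nat.sub_le k j), iter_symm_iter_le S (Nat.sub_le k j),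
      Nat.sub_sub_self hj] at h3
    have h4 := dist_triangle4 (S.g.symm^[j] q) (S.g.symm^[j] y) (S.g.symm^[j] y')
      (S.g.symm^[j] q')
    rw [dist_comm (S.g.symm^[j] q) (S.g.symm^[j] y)] at h4
    linarith
  have hU : UAsym S y q := hg.uasym _ _ (hyq.mono hεε0)
  have hU' : UAsym S y' q' := hg.uasym _ _ (hy'q'.mono hεε0)
  have hS : SAsym S y y' := hg.sasym _ _ (hyy'.mono hεε0)
  have ha : F.Lc y q ∈ S.Vu y := F.Lc_mem _ _ hU
  have hc : F.Lc y' q' ∈ S.Vu y' := F.Lc_mem _ _ hU'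
  have hb : F.H y y' (F.Lc y q) ∈ S.Vu y' := F.H_mem _ _ hS _ ha
  have hak := F.toLin0.Lc_back hU k
  have hck := F.toLin0.Lc_back hU' k
  have hbk := F.toLin0.H_back hS k ha
  have hδ : F.Lc y' q' - F.H y y' (F.Lc y q) ∈ S.Vu y' := Submodule.sub_mem _ hc hb
  have hmain := hQ _ _ _ _ (hzz'.mono hεε1) (hzp.mono hεε1) (hpp'.mono h3ε1) (hz'p'.mono hεε1)
  rw [hak, hck, hbk, ← map_sub] at hmain
  have hH2 : ‖F.H y y' (F.Lc y q)‖ ≤ 2 * ‖F.Lc y q‖ := F.H_le _ _ (hyy'.mono hεε0) _ ha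
  have hle : ‖Dn S.symm k y (F.Lc y q)‖ ≤ 2 * ‖Dn S.symm k y' (F.H y y' (F.Lc y q))‖ := by
    have := F.le_H _ _ (hzz'.mono hεε0) _ (Dn_symm_mem S k y ha)
    rwa [hbk] at this
  have hq1 := F.qc.back k y' hb hδ
  have hq2 := F.qc.back k y ha (B.mem y)
  rw [B.norm y, mul_one] at hq2
  have hom : om S B k y = ‖Dn S.symm k y (B.b y)‖ := rfl
  rw [← hom] at hq2
  have hom0 : 0 ≤ om S B k y := norm_nonneg _
  set a := F.Lc y q with hadef
  set b := F.H y y' a with hbdef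
  set δ := F.Lc y' q' - b with hδdef
  set ak := ‖Dn S.symm k y a‖ with hakdef
  set bk := ‖Dn S.symm k y' b‖ with hbkdef
  set dk := ‖Dn S.symm k y' δ‖ with hdkdef
  have hak0 : 0 ≤ ak := norm_nonneg _
  have hbk0 : 0 ≤ bk := norm_nonneg _
  have hdk0 : 0 ≤ dk := norm_nonneg _
  have hK0 : 0 ≤ |F.K| := abs_nonneg _
  have hKle : F.K ≤ |F.K| := le_abs_self _
  have hq2' : ak ≤ |F.K| * (om S B k y * ‖a‖) :=
    hq2.trans (mul_le_mul_of_nonneg_right hKle (by positivity))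
  have hq1' : bk * ‖δ‖ ≤ |F.K| * (dk * ‖b‖) :=
    hq1.trans (mul_le_mul_of_nonneg_right hKle (by positivity))
  rcases hak0.eq_or_lt with h0 | hpos
  · -- `a_k = 0`
    have h1 : dk ≤ 0 := by
      have : C0 * ak ^ 2 = 0 := by rw [← h0]; ring
      linarith
    have h2 : Dn S.symm k y' δ = 0 := norm_le_zero_iff.mp h1
    have h3 : δ = 0 := Dn_symm_eq_zero S k y' hδ h2
    rw [h3, norm_zero]
    positivity
  · have h1 : ak * ‖δ‖ ≤ ak * (4 * |F.K| * C0 * (ak * ‖a‖)) := by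
      have e1 : ak * ‖δ‖ ≤ 2 * bk * ‖δ‖ := mul_le_mul_of_nonneg_right hle (norm_nonneg _)
      have e2 : |F.K| * (dk * ‖b‖) ≤ |F.K| * ((C0 * ak ^ 2) * (2 * ‖a‖)) := by
        apply mul_le_mul_of_nonneg_left _ hK0
        exact mul_le_mul hmain hH2 (norm_nonneg _) (by positivity)
      calc ak * ‖δ‖ ≤ 2 * (bk * ‖δ‖) := by linarith
        _ ≤ 2 * (|F.K| * ((C0 * ak ^ 2) * (2 * ‖a‖))) := by linarith
        _ = _ := by ring
    have h2 : ‖δ‖ ≤ 4 * |F.K| * C0 * (ak * ‖a‖) := le_of_mul_le_mul_left h1 hpos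
    have h3 : 4 * |F.K| * C0 * (ak * ‖a‖) ≤
        4 * |F.K| * C0 * (|F.K| * (om S B k y * ‖a‖) * ‖a‖) := by
      apply mul_le_mul_of_nonneg_left _ (by positivity)
      exact mul_le_mul_of_nonneg_right hq2' (norm_nonneg _)
    have h4 : 0 ≤ om S B k y * ‖a‖ ^ 2 := by positivity
    calc ‖δ‖ ≤ _ := h2
      _ ≤ _ := h3
      _ = (4 * |F.K| ^ 2 * C0) * (om S B k y * ‖a‖ ^ 2) := by ring
      _ ≤ (4 * |F.K| ^ 2 * C0 + 1) * (om S B k y * ‖a‖ ^ 2) :=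
        mul_le_mul_of_nonneg_right (by linarith) h4
      _ = _ := by ring

end Pool.Agent.H779R2.An
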