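import Pool.Agent.H779R2.An.Basic

set_option autoImplicit false

namespace Pool.Agent.H779R2.An

open Pool.Agent.H721R2 Filter Topology MeasureTheory
open scoped BigOperators

variable {X E : Type*} [MetricSpace X] [CompactSpace X] [NormedAddCommGroup E]
  [InnerProductSpace ℝ E] [FiniteDimensional ℝ E]

/-- Segments in linearizing coordinates of an unstable leaf. -/
theorem seg_u {T : HypSys X E} (F : Flat T) : ∀ ε > 0, ∃ ε' > 0, ∀ v v', T.URel ε' v v' →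
    ∀ n : ℕ, ∀ ε'' > 0, ∃ (m : ℕ) (c : ℕ → X), c 0 = v ∧ c m = v' ∧
      (∀ i ≤ m, T.URel ε v (c i)) ∧
      ∀ i < m, T.URel ε'' (T.g^[n] (c i)) (T.g^[n] (c (i + 1))) := by
  intro ε hε
  have hε₁ : 0 < min ε F.ε₀ := lt_min hε F.geo.pos
  obtain ⟨ρ₁, hρ₁, hsurj⟩ := F.surj _ hε₁
  refine ⟨min F.ε₀ (ρ₁ / 2), lt_min F.geo.pos (by positivity), ?_⟩
  intro v v' hvv n ε'' hε''
  obtain ⟨ρ, hρ, hsmall⟩ := F.small ε'' hε''
  have hvv₀ : T.URel F.ε₀ v v' := hvv.mono (min_le_left _ _)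
  have hU : UAsym T v v' := F.geo.uasym _ _ hvv₀
  set a : E := F.Lc v v' with ha
  have hamem : a ∈ T.Vu v := F.Lc_mem _ _ hU
  have hanorm : ‖a‖ ≤ ρ₁ := by
    have h1 := F.Lc_le _ _ hvv₀
    have h2 := hvv.dist_le.trans (min_le_right _ _)
    rw [← ha] at h1
    linarith
  obtain ⟨m, hm⟩ := exists_nat_gt (T.Lu ^ n * (2 * ‖a‖) / ρ)
  have hLu : 0 ≤ T.Lu := by linarith [T.one_le_Lu]
  have hm0 : (0 : ℝ) < m := lt_of_le_of_lt (by positivity) hm
  have hmn : T.Lu ^ n * (2 * ((1 / m : ℝ) * ‖a‖)) ≤ ρ := by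
    rw [div_lt_iff₀ hρ] at hm
    have : T.Lu ^ n * (2 * ((1 / m : ℝ) * ‖a‖)) = (T.Lu ^ n * (2 * ‖a‖)) / m := by ring
    rw [this, div_le_iff₀ hm0]
    linarith
  have hex : ∀ i : ℕ, i ≤ m → ∃ y, T.URel (min ε F.ε₀) v y ∧ F.Lc v y = ((i : ℝ) / m) • a := by
    intro i hi
    apply hsurj v _ ((T.Vu v).smul_mem _ hamem)
    rw [norm_smul, Real.norm_eq_abs, abs_of_nonneg (by positivity)]
    have h1 : (i : ℝ) / m ≤ 1 := by
      rw [div_le_one hm0]; exact_mod_cast hi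
    calc (i : ℝ) / m * ‖a‖ ≤ 1 * ‖a‖ := mul_le_mul_of_nonneg_right h1 (norm_nonneg _)
      _ ≤ ρ₁ := by rw [one_mul]; exact hanorm
  haveI : Nonempty X := ⟨v⟩
  choose! c hc1 hc2 using hex
  have hUc : ∀ i ≤ m, UAsym T v (c i) := fun i hi =>
    F.geo.uasym _ _ ((hc1 i hi).mono (min_le_right _ _))
  refine ⟨m, c, ?_, ?_, fun i hi => (hc1 i hi).mono (min_le_left _ _), ?_⟩
  · apply F.inj v (c 0) v (hUc 0 (Nat.zero_le _)) (UAsym.refl T v)
    rw [hc2 0 (Nat.zero_le _), F.Lc_self]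
    simp
  · apply F.inj v (c m) v' (hUc m le_rfl) hU
    rw [hc2 m le_rfl, div_self hm0.ne', one_smul]
  · intro i hi
    have hUx := hUc i hi.le
    have hUy := hUc (i + 1) hi
    have hbase := F.base v (c i) (c (i + 1)) hUx hUy
    have hdiff : F.Lc v (c (i + 1)) - F.Lc v (c i) = (1 / m : ℝ) • a := by
      rw [hc2 i hi.le, hc2 (i + 1) hi, ← sub_smul]
      congr 1
      push_cast
      ring
    rw [hdiff] at hbase
    have hwmem : (1 / m : ℝ) • a ∈ T.Vu v := (T.Vu v).smul_mem _ hamem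
    have hτ := F.τ_le v (c i) ((hc1 i hi.le).mono (min_le_right _ _)) _ hwmem
    rw [norm_smul, Real.norm_eq_abs, abs_of_nonneg (by positivity : (0 : ℝ) ≤ 1 / m)] at hτ
    have hUxy : UAsym T (c i) (c (i + 1)) := hUx.symm.trans hUy
    apply hsmall _ _ (hUxy.iter n)
    rw [F.toLin0.Lc_iter hUxy n]
    calc ‖Dn T n (c i) (F.Lc (c i) (c (i + 1)))‖
        ≤ T.Lu ^ n * ‖F.Lc (c i) (c (i + 1))‖ := Dn_le T n _ (F.Lc_mem _ _ hUxy)
      _ ≤ T.Lu ^ n * (2 * ((1 / m : ℝ) * ‖a‖)) := by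
          apply mul_le_mul_of_nonneg_left _ (by positivity)
          rw [hbase]
          exact hτ
      _ ≤ ρ := hmn

/-- T17 -/
theorem seg {S : HypSys X E} (F : Flat S.symm) : SegProp S := seg_u F

end Pool.Agent.H779R2.An
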