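import Pool.Agent.H779R2.An.Basic

set_option autoImplicit false
set_option linter.unusedSectionVars false

namespace Pool.Agent.H779R2.An

open Pool.Agent.H721R2 Filter Topology MeasureTheory
open scoped BigOperators

variable {X E : Type*} [MetricSpace X] [CompactSpace X] [NormedAddCommGroup E]
  [InnerProductSpace ℝ E] [FiniteDimensional ℝ E]

/-- Packing of balls centred at points of a compact null set. -/
private theorem sum_packing {D : ℕ} {s : Set (EuclideanSpace ℝ (Fin D))} (hs : IsCompact s)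
    (h0 : volume s = 0) {θ : ℝ} (hθ : 0 < θ) : ∃ r > 0, ∀ (A : Finset X)
      (ζ : X → EuclideanSpace ℝ (Fin D)) (rad : X → ℝ), (∀ y ∈ A, ζ y ∈ s) →
      (∀ y ∈ A, 0 ≤ rad y ∧ rad y ≤ r) →
      (∀ y ∈ A, ∀ y' ∈ A, y ≠ y' →
        Disjoint (Metric.closedBall (ζ y) (rad y)) (Metric.closedBall (ζ y') (rad y'))) →
      ∑ y ∈ A, rad y ^ D ≤ θ := by
  set V : ENNReal := volume (Metric.ball (0 : EuclideanSpace ℝ (Fin D)) 1) with hV
  have hV0 : V ≠ 0 := (Metric.measure_ball_pos volume _ one_pos).ne'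
  have hV1 : V ≠ ⊤ := measure_ball_lt_top.ne
  have hpos : 0 < ENNReal.ofReal θ * V := by
    apply ENNReal.mul_pos _ hV0
    simpa using hθ
  have h1 := tendsto_measure_cthickening_of_isCompact (μ := volume) hs
  rw [h0] at h1
  have h2 : ∀ᶠ r in 𝓝 (0 : ℝ), volume (Metric.cthickening r s) < ENNReal.ofReal θ * V :=
    h1.eventually_lt_const hpos
  obtain ⟨r, hr, h3⟩ := Metric.eventually_nhds_iff.mp h2
  refine ⟨r / 2, by positivity, fun A ζ rad hζ hrad hdis => ?_⟩
  have h4 : volume (Metric.cthickening (r / 2) s) < ENNReal.ofReal θ * V := by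
    apply h3
    rw [Real.dist_eq, sub_zero, abs_of_pos (by positivity)]
    linarith
  have h5 : volume (⋃ y ∈ A, Metric.closedBall (ζ y) (rad y)) =
      ∑ y ∈ A, volume (Metric.closedBall (ζ y) (rad y)) := by
    apply measure_biUnion_finset
    · intro y hy y' hy' hne
      exact hdis y hy y' hy' hne
    · intro y _
      exact measurableSet_closedBall
  have h6 : (⋃ y ∈ A, Metric.closedBall (ζ y) (rad y)) ⊆ Metric.cthickening (r / 2) s := by
    intro z hz
    simp only [Set.mem_iUnion] at hz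
    obtain ⟨y, hy, hz⟩ := hz
    exact Metric.closedBall_subset_cthickening (hζ y hy) _
      (Metric.closedBall_subset_closedBall (hrad y hy).2 hz)
  have h7 : ∑ y ∈ A, volume (Metric.closedBall (ζ y) (rad y)) =
      ENNReal.ofReal (∑ y ∈ A, rad y ^ D) * V := by
    rw [ENNReal.ofReal_sum_of_nonneg (fun y hy => pow_nonneg (hrad y hy).1 D), Finset.sum_mul]
    apply Finset.sum_congr rfl
    intro y hy
    rw [Measure.addHaar_closedBall _ _ (hrad y hy).1, finrank_euclideanSpace_fin]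
  have h8 : ENNReal.ofReal (∑ y ∈ A, rad y ^ D) * V < ENNReal.ofReal θ * V := by
    rw [← h7, ← h5]
    exact lt_of_le_of_lt (measure_mono h6) h4
  have h9 := lt_of_mul_lt_mul_right' h8
  exact ((ENNReal.ofReal_lt_ofReal_iff hθ).mp h9).le

/-- A linear isometry onto the unstable space. -/
private theorem exists_onto {S : HypSys X E} {D : ℕ} (hD : ∀ x, Module.finrank ℝ (S.Vu x) = D) (x : X) :
    ∃ A : EuclideanSpace ℝ (Fin D) →ₗᵢ[ℝ] E, Onto A (S.Vu x) := by
  set b := (stdOrthonormalBasis ℝ (S.Vu x)).reindex (finCongr (hD x)) with hb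
  refine ⟨(S.Vu x).subtypeₗᵢ.comp b.repr.symm.toLinearIsometry, fun ζ => ?_, fun v hv => ?_⟩
  · change ((b.repr.symm ζ : S.Vu x) : E) ∈ S.Vu x
    exact Submodule.coe_mem _
  · refine ⟨b.repr ⟨v, hv⟩, ?_⟩
    change ((b.repr.symm (b.repr ⟨v, hv⟩) : S.Vu x) : E) = v
    rw [LinearIsometryEquiv.symm_apply_apply]

private theorem om_pos (S : HypSys X E) (B : UV S) (k : ℕ) (y : X) : 0 < om S B k y := by
  unfold om
  rw [norm_pos_iff]
  intro h
  have h1 := Dn_symm_eq_zero S k y (B.mem y) h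
  have h2 := B.norm y
  rw [h1, norm_zero] at h2
  exact zero_ne_one h2

private theorem om_le (S : HypSys X E) (B : UV S) (k : ℕ) (y : X) : om S B k y ≤ (1 / 16) ^ k := by
  have h1 := Dn_symm_le S k y (B.mem y)
  rw [B.norm y, mul_one] at h1
  exact h1

private theorem om_le_one (S : HypSys X E) (B : UV S) (k : ℕ) (y : X) : om S B k y ≤ 1 :=
  (om_le S B k y).trans (pow_le_one₀ (by norm_num) (by norm_num))

/-- A common radius. -/
private theorem sum_common (T : Finset X) (rr : X → ℝ) (hrr : ∀ t, 0 < rr t) :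
    ∃ r > 0, ∀ t ∈ T, r ≤ rr t := by
  classical
  induction T using Finset.induction_on with
  | empty => exact ⟨1, one_pos, by simp⟩
  | insert a T _ ih =>
    obtain ⟨r, hr, h1⟩ := ih
    refine ⟨min r (rr a), lt_min hr (hrr a), fun t ht => ?_⟩
    rcases Finset.mem_insert.mp ht with rfl | h2
    · exact min_le_right _ _
    · exact (min_le_left _ _).trans (h1 t h2)

/-- The one sided estimate. -/
private theorem sum_side {S : HypSys X E} (F : Flat S) (B : UV S) (hQE : QEProp F) {κ : ℝ}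
    (hκ : 0 < κ) : ∃ ε > 0, ε ≤ F.ε₀ ∧ ∃ c' > 0, ∀ (k : ℕ) (t y w q : X)
      (u : E), S.SRel ε (S.g.symm^[k] y) w → S.URel ε w t → S.URel ε t q → u ∈ S.Vu t →
      F.Lc t q - F.Lc t w = u → ‖u‖ ≤ c' * om S B k y →
      ∃ p, S.SRel κ q p ∧ ∀ j ≤ k, dist (S.g.symm^[j] y) (S.g^[k - j] p) ≤ κ := by
  obtain ⟨C, hC, εQ, hεQ, hQ⟩ := hQE
  obtain ⟨ρc, hρc, hsmall⟩ := F.small κ hκ
  set δ₃ : ℝ := min κ (min εQ F.ε₀) with hδ₃
  have hε₀ := F.geo.pos
  have hδ₃0 : 0 < δ₃ := lt_min hκ (lt_min hεQ hε₀)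
  have hδκ : δ₃ ≤ κ := min_le_left _ _
  have hδQ : δ₃ ≤ εQ := (min_le_right _ _).trans (min_le_left _ _)
  have hδε : δ₃ ≤ F.ε₀ := (min_le_right _ _).trans (min_le_right _ _)
  obtain ⟨εc, hεc, hcor⟩ := exists_corner S δ₃ hδ₃0
  set ε : ℝ := min (εc / 2) (min (εQ / 2) (F.ε₀ / 2)) with hε
  have hε0 : 0 < ε := lt_min (by positivity) (lt_min (by positivity) (by positivity))
  have hεc2 : ε ≤ εc / 2 := min_le_left _ _
  have hεQ2 : ε ≤ εQ / 2 := (min_le_right _ _).trans (min_le_left _ _)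
  have hεε : ε ≤ F.ε₀ / 2 := (min_le_right _ _).trans (min_le_right _ _)
  set M : ℝ := (|F.K| + 1) * (4 + 4 * C) with hM
  have hM0 : 0 < M := by positivity
  refine ⟨ε, hε0, by linarith, min 1 (ρc / M), lt_min one_pos (by positivity), ?_⟩
  intro k t y w q u hyw hwt htq hu hLu hun
  set c' : ℝ := min 1 (ρc / M) with hc'
  have hc'0 : 0 < c' := lt_min one_pos (by positivity)
  have hc'1 : c' ≤ 1 := min_le_left _ _
  have hc'2 : M * c' ≤ ρc := by
    have := min_le_right 1 (ρc / M)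
    rw [← hc', le_div_iff₀ hM0] at this
    linarith
  have hom := om_pos S B k y
  have hom1 := om_le_one S B k y
  set z := S.g.symm^[k] y with hz
  have hwq : S.URel (2 * ε) w q := by
    have := hwt.trans htq
    rwa [← two_mul] at this
  obtain ⟨p, hzp, hqp⟩ := hcor w z q (hyw.symm.mono (by linarith)) (hwq.mono (by linarith))
  -- linearizing coordinates from `w`
  have utw : UAsym S t w := F.geo.uasym _ _ (hwt.symm.mono (by linarith))
  have utq : UAsym S t q := F.geo.uasym _ _ (htq.mono (by linarith))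
  have hbase := F.base t w q utw utq
  have hwqn : ‖F.Lc w q‖ ≤ 2 * ‖u‖ := by
    rw [hbase, hLu]
    exact F.τ_le _ _ (hwt.symm.mono (by linarith)) u hu
  have uwq : UAsym S w q := utw.symm.trans utq
  have hQ1 := hQ w z q p (hyw.symm.mono (by linarith)) (hwq.mono (by linarith))
    (hqp.mono hδQ) (hzp.mono hδQ)
  have hH := F.H_le w z (hyw.symm.mono (by linarith)) _ (F.Lc_mem w q uwq)
  have hrn : ‖u‖ ≤ 1 := by
    have : c' * om S B k y ≤ 1 * 1 := mul_le_mul hc'1 hom1 hom.le (by norm_num)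
    linarith
  have hsq : ‖F.Lc w q‖ ^ 2 ≤ 4 * ‖u‖ := by
    have h1 : ‖F.Lc w q‖ ^ 2 ≤ (2 * ‖u‖) ^ 2 :=
      pow_le_pow_left₀ (norm_nonneg _) hwqn 2
    have h2 : ‖u‖ ^ 2 ≤ ‖u‖ := by
      have := mul_le_mul_of_nonneg_right hrn (norm_nonneg u)
      nlinarith
    nlinarith
  have hzpn : ‖F.Lc z p‖ ≤ (4 + 4 * C) * ‖u‖ := by
    have h1 : ‖F.Lc z p‖ ≤ ‖F.Lc z p - F.H w z (F.Lc w q)‖ + ‖F.H w z (F.Lc w q)‖ := by
      have := norm_add_le (F.Lc z p - F.H w z (F.Lc w q)) (F.H w z (F.Lc w q))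
      rwa [sub_add_cancel] at this
    have h2 : C * ‖F.Lc w q‖ ^ 2 ≤ C * (4 * ‖u‖) := mul_le_mul_of_nonneg_left hsq hC.le
    linarith
  -- forward
  have uzp : UAsym S z p := F.geo.uasym _ _ (hzp.mono hδε)
  have hzy : S.g^[k] z = y := iter_iter_symm S k y
  have hLck := F.Lc_iter uzp k
  rw [hzy] at hLck
  have hQC := F.qc k z (F.Lc z p) (F.Lc_mem z p uzp) (Dn S.symm k y (B.b y))
    (Dn_symm_mem S k y (B.mem y))
  rw [Dn_Dn_symm S k y (B.mem y), B.norm, one_mul, ← hLck] at hQC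
  change ‖F.Lc y (S.g^[k] p)‖ * om S B k y ≤ F.K * ‖F.Lc z p‖ at hQC
  have hfin : ‖F.Lc y (S.g^[k] p)‖ ≤ ρc := by
    have h1 : F.K * ‖F.Lc z p‖ ≤ (|F.K| + 1) * ((4 + 4 * C) * ‖u‖) := by
      apply mul_le_mul _ hzpn (norm_nonneg _) (by positivity)
      linarith [le_abs_self F.K]
    have h2 : (|F.K| + 1) * ((4 + 4 * C) * ‖u‖) ≤ M * (c' * om S B k y) := by
      rw [hM]
      have := mul_le_mul_of_nonneg_left hun hM0.le
      rw [hM] at this
      linarith
    have h3 : ‖F.Lc y (S.g^[k] p)‖ * om S B k y ≤ ρc * om S B k y := by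
      calc _ ≤ M * (c' * om S B k y) := by linarith
        _ = (M * c') * om S B k y := by ring
        _ ≤ _ := mul_le_mul_of_nonneg_right hc'2 hom.le
    exact le_of_mul_le_mul_right h3 hom
  have uyp : UAsym S y (S.g^[k] p) := by
    have := uzp.iter k
    rwa [hzy] at this
  have hU := hsmall y (S.g^[k] p) uyp hfin
  refine ⟨p, hqp.mono hδκ, fun j hj => ?_⟩
  have := hU j
  rwa [symm_iter_iter_le S hj] at this

/-- T11 -/
theorem sum_prop {S : HypSys X E} (F : Flat S) (B : UV S) (hQE : QEProp F) {R : Set X}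
    (hR : MinR S R) (D : ℕ) (hD : ∀ x, Module.finrank ℝ (S.Vu x) = D) (hN : NullProp F R D) :
    SumProp S B R D := by
  intro κ hκ
  have hε₀ := F.geo.pos
  obtain ⟨ε, hε, hεε, c', hc', hside⟩ := sum_side F B hQE (κ := κ / 4) (by positivity)
  obtain ⟨εN, hεN, ρN, hρN, hN⟩ := hN
  obtain ⟨ρs, hρs, hsurj⟩ := F.surj ε hε
  set δ' : ℝ := min ε (min (ρs / 4) (min εN (ρN / 2))) with hδ'
  have hδ'0 : 0 < δ' := lt_min hε (lt_min (by positivity) (lt_min hεN (by positivity)))
  have hδε : δ' ≤ ε := min_le_left _ _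
  have hδs : δ' ≤ ρs / 4 := (min_le_right _ _).trans (min_le_left _ _)
  have hδN : δ' ≤ εN := ((min_le_right _ _).trans (min_le_right _ _)).trans (min_le_left _ _)
  have hδρ : δ' ≤ ρN / 2 := ((min_le_right _ _).trans (min_le_right _ _)).trans (min_le_right _ _)
  obtain ⟨εb, hεb, hbr⟩ := exists_bracket S δ' hδ'0
  obtain ⟨T₀, -, hT₀, hcov⟩ := finite_cover_balls_of_compact (isCompact_univ (X := X)) hεb
  set T : Finset X := hT₀.toFinset with hT
  have hnet : ∀ z : X, ∃ t ∈ T, dist z t ≤ εb := by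
    intro z
    have := hcov (Set.mem_univ z)
    simp only [Set.mem_iUnion] at this
    obtain ⟨t, ht, hz⟩ := this
    exact ⟨t, hT₀.mem_toFinset.mpr ht, (Metric.mem_ball.mp hz).le⟩
  choose tt htt htd using hnet
  choose Φ hΦ using fun t : X => exists_onto hD t
  -- the brackets
  have hw : ∀ z : X, ∃ w, S.SRel δ' z w ∧ S.URel δ' w (tt z) := fun z => hbr z (tt z) (htd z)
  choose ww hw1 hw2 using hw
  have hζ : ∀ z : X, ∃ ζ, Φ (tt z) ζ = F.Lc (tt z) (ww z) := by
    intro z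
    exact (hΦ (tt z)).2 _ (F.Lc_mem _ _ (F.geo.uasym _ _ ((hw2 z).symm.mono (by linarith))))
  choose ζ hζ using hζ
  have hζn : ∀ z : X, ‖ζ z‖ ≤ 2 * δ' := by
    intro z
    rw [← (Φ (tt z)).norm_map, hζ z]
    have h1 := F.Lc_le (tt z) (ww z) ((hw2 z).symm.mono (by linarith))
    have h2 := (hw2 z).symm.dist_le
    linarith
  refine ⟨min (κ / 2) F.ε₀, lt_min (by positivity) hε₀, fun θ hθ => ?_⟩
  set c : ℝ := min c' (ρs / 2) with hc
  have hc0 : 0 < c := lt_min hc' (by positivity)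
  -- packing radius for each `t`
  have hcard : 0 < ((T.card : ℝ) + 1) := by positivity
  have hpack : ∀ t : X, ∃ r > 0, ∀ (A : Finset X)
      (ζ : X → EuclideanSpace ℝ (Fin D)) (rad : X → ℝ),
      (∀ y ∈ A, ζ y ∈ ES F R t (Φ t) δ' (2 * δ')) →
      (∀ y ∈ A, 0 ≤ rad y ∧ rad y ≤ r) →
      (∀ y ∈ A, ∀ y' ∈ A, y ≠ y' →
        Disjoint (Metric.closedBall (ζ y) (rad y)) (Metric.closedBall (ζ y') (rad y'))) →
      ∑ y ∈ A, rad y ^ D ≤ c ^ D * θ / (T.card + 1) := by
    intro t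
    obtain ⟨h1, h2⟩ := hN δ' (2 * δ') hδN (by linarith) t (Φ t) (hΦ t)
    refine sum_packing ?_ h2 (by positivity)
    apply Metric.isCompact_of_isClosed_isBounded h1
    apply (Metric.isBounded_closedBall (x := (0 : EuclideanSpace ℝ (Fin D))) (r := 2 * δ')).subset
    intro z hz
    rw [mem_closedBall_zero_iff]
    exact hz.1
  choose rr hrr hpack using hpack
  -- common radius
  have hcom : ∃ r > 0, ∀ t ∈ T, r ≤ rr t := sum_common T rr (fun t => hrr t)
  obtain ⟨r, hr, hrT⟩ := hcom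
  obtain ⟨N, hNN⟩ := exists_pow_lt_of_lt_one (show 0 < r / c by positivity)
    (show (1 / 16 : ℝ) < 1 by norm_num)
  refine ⟨N, fun k hk x hx A hA1 hA2 => ?_⟩
  set rad : X → ℝ := fun y => c * om S B k y with hrad
  have hrad0 : ∀ y, 0 ≤ rad y := fun y => mul_nonneg hc0.le (om_pos S B k y).le
  have hradr : ∀ y, rad y ≤ r := by
    intro y
    have h1 : om S B k y ≤ (1 / 16) ^ N :=
      (om_le S B k y).trans (pow_le_pow_of_le_one (by norm_num) (by norm_num) hk)
    have h2 : c * om S B k y ≤ c * (r / c) := mul_le_mul_of_nonneg_left (by linarith) hc0.le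
    rwa [mul_div_cancel₀ _ hc0.ne'] at h2
  have hyR : ∀ y ∈ A, y ∈ R := fun y hy =>
    hR.sat x hx y (F.geo.sasym _ _ ((hA1 y hy).mono (min_le_right _ _)))
  have hzR : ∀ y ∈ A, S.g.symm^[k] y ∈ R := by
    intro y hy
    have : ∀ n : ℕ, S.g.symm^[n] y ∈ R := by
      intro n
      induction n with
      | zero => exact hyR y hy
      | succ n ih =>
        rw [Function.iterate_succ_apply']
        exact hR.map' _ ih
    exact this k
  have hzES : ∀ y ∈ A, ζ (S.g.symm^[k] y) ∈ ES F R (tt (S.g.symm^[k] y))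
      (Φ (tt (S.g.symm^[k] y))) δ' (2 * δ') := by
    intro y hy
    refine ⟨hζn _, ww (S.g.symm^[k] y), ?_, (hw2 _).symm, (hζ _).symm⟩
    exact hR.sat _ (hzR y hy) _ (F.geo.sasym _ _ ((hw1 _).mono (by linarith)))
  -- disjointness
  have hdis : ∀ t : X, ∀ y ∈ A, ∀ y' ∈ A, tt (S.g.symm^[k] y) = t → tt (S.g.symm^[k] y') = t →
      y ≠ y' → Disjoint (Metric.closedBall (ζ (S.g.symm^[k] y)) (rad y))
        (Metric.closedBall (ζ (S.g.symm^[k] y')) (rad y')) := by
    intro t y hy y' hy' ht ht' hne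
    by_contra hcon
    obtain ⟨ζ', h1, h2⟩ := Set.not_disjoint_iff.mp hcon
    apply hA2 y hy y' hy' hne
    -- the point `q`
    have hζ'n : ‖ζ'‖ ≤ ρs := by
      have h3 : ‖ζ' - ζ (S.g.symm^[k] y)‖ ≤ rad y := by
        rw [← dist_eq_norm]
        exact Metric.mem_closedBall.mp h1
      have h4 : rad y ≤ ρs / 2 := by
        have h5 : c * om S B k y ≤ (ρs / 2) * 1 :=
          mul_le_mul (min_le_right _ _) (om_le_one S B k y) (om_pos S B k y).le (by positivity)
        rw [mul_one] at h5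
        exact h5
      have h5 := hζn (S.g.symm^[k] y)
      have h6 : ‖ζ'‖ ≤ ‖ζ' - ζ (S.g.symm^[k] y)‖ + ‖ζ (S.g.symm^[k] y)‖ := by
        have := norm_add_le (ζ' - ζ (S.g.symm^[k] y)) (ζ (S.g.symm^[k] y))
        rwa [sub_add_cancel] at this
      linarith
    obtain ⟨q, hq1, hq2⟩ := hsurj t (Φ t ζ') ((hΦ t).1 ζ') (by rw [(Φ t).norm_map]; exact hζ'n)
    have hone : ∀ y₁, tt (S.g.symm^[k] y₁) = t →
        ζ' ∈ Metric.closedBall (ζ (S.g.symm^[k] y₁)) (rad y₁) →
        ∃ p, S.SRel (κ / 4) q p ∧ ∀ j ≤ k, dist (S.g.symm^[j] y₁) (S.g^[k - j] p) ≤ κ / 4 := by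
      intro y₁ ht₁ h3
      have e1 := hw1 (S.g.symm^[k] y₁)
      have e2 := hw2 (S.g.symm^[k] y₁)
      have e3 := hζ (S.g.symm^[k] y₁)
      rw [ht₁] at e2 e3
      refine hside k t y₁ (ww (S.g.symm^[k] y₁)) q (Φ t (ζ' - ζ (S.g.symm^[k] y₁)))
        (e1.mono hδε) (e2.mono hδε) hq1 ((hΦ t).1 _) ?_ ?_
      · rw [map_sub, e3, hq2]
      · rw [(Φ t).norm_map, ← dist_eq_norm]
        refine (Metric.mem_closedBall.mp h3).trans ?_
        exact mul_le_mul_of_nonneg_right (min_le_left _ _) (om_pos S B k y₁).le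
    obtain ⟨p, hp1, hp2⟩ := hone y ht h1
    obtain ⟨p', hp1', hp2'⟩ := hone y' ht' h2
    refine SRel_back k ?_ ?_
    · have := (hA1 y hy).symm.trans (hA1 y' hy')
      refine this.mono ?_
      have := min_le_left (κ / 2) F.ε₀
      linarith
    · intro j hj
      have e1 := hp2 j hj
      have e2 := hp2' j hj
      have e3 := (hp1.symm.trans hp1') (k - j)
      have e4 := dist_triangle (S.g.symm^[j] y) (S.g^[k - j] p) (S.g.symm^[j] y')
      have e5 := dist_triangle (S.g^[k - j] p) (S.g^[k - j] p') (S.g.symm^[j] y')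
      rw [dist_comm (S.g^[k - j] p') (S.g.symm^[j] y')] at e5
      linarith
  -- the sum
  classical
  have hsum : ∑ y ∈ A, rad y ^ D ≤ c ^ D * θ := by
    rw [← Finset.sum_fiberwise_of_maps_to (g := fun y => tt (S.g.symm^[k] y)) (t := T)
      (fun y _ => htt _)]
    have h1 : ∀ t ∈ T, ∑ y ∈ A with tt (S.g.symm^[k] y) = t, rad y ^ D ≤
        c ^ D * θ / (T.card + 1) := by
      intro t ht
      apply hpack t _ (fun y => ζ (S.g.symm^[k] y)) rad
      · intro y hy
        obtain ⟨h2, h3⟩ := Finset.mem_filter.mp hy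
        have := hzES y h2
        rwa [h3] at this
      · intro y _
        exact ⟨hrad0 y, (hradr y).trans (hrT t ht)⟩
      · intro y hy y' hy' hne
        obtain ⟨h2, h3⟩ := Finset.mem_filter.mp hy
        obtain ⟨h2', h3'⟩ := Finset.mem_filter.mp hy'
        exact hdis t y h2 y' h2' h3 h3' hne
    refine (Finset.sum_le_sum h1).trans ?_
    rw [Finset.sum_const, nsmul_eq_mul]
    have h2 : (T.card : ℝ) * (c ^ D * θ / (T.card + 1)) = c ^ D * θ * (T.card / (T.card + 1)) := by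
      ring
    rw [h2]
    apply mul_le_of_le_one_right (by positivity)
    rw [div_le_one hcard]
    linarith
  have hsum2 : c ^ D * ∑ y ∈ A, om S B k y ^ D ≤ c ^ D * θ := by
    rw [Finset.mul_sum]
    refine le_trans (le_of_eq ?_) hsum
    apply Finset.sum_congr rfl
    intro y _
    rw [hrad, mul_pow]
  exact le_of_mul_le_mul_left hsum2 (by positivity)

end Pool.Agent.H779R2.An
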