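import Pool.Agent.H779R2.An.Basic
import Pool.Agent.H721R2.Chain

set_option autoImplicit false

namespace Pool.Agent.H779R2.An

open Pool.Agent.H721R2 Pool.Agent.H721R2.HypSys Filter Topology MeasureTheory
open scoped BigOperators

variable {X E : Type*} [MetricSpace X] [CompactSpace X] [NormedAddCommGroup E]
  [InnerProductSpace ℝ E] [FiniteDimensional ℝ E]

/-- T20 -/
theorem transitive_of_no_trap (S : HypSys X E)
    (hno : ∀ W : Set X, IsOpen W → W.Nonempty → (∀ y ∈ closure W, S.g y ∈ W) → W = Set.univ)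
    (U V : Set X) (hU : IsOpen U) (hUn : U.Nonempty) (hV : IsOpen V) (hVn : V.Nonempty) :
    ∃ n : ℕ, (S.g^[n] '' U ∩ V).Nonempty := by
  obtain ⟨a, ha⟩ := hUn
  obtain ⟨b, hb⟩ := hVn
  obtain ⟨r1, hr1, hU1⟩ := Metric.isOpen_iff.mp hU a ha
  obtain ⟨r2, hr2, hV1⟩ := Metric.isOpen_iff.mp hV b hb
  obtain ⟨ε₀, hε₀, hsh⟩ := S.shadowing
  have hK := S.one_le_K
  have hK0 : 0 < S.K := by linarith
  set r := min r1 r2 with hr
  have hr0 : 0 < r := lt_min hr1 hr2
  set ε := min ε₀ (r / (16 * S.K)) with hε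
  have hεp : 0 < ε := lt_min hε₀ (by positivity)
  have hεr : 8 * S.K * ε < r := by
    have : ε ≤ r / (16 * S.K) := min_le_right _ _
    rw [le_div_iff₀ (by positivity)] at this
    linarith
  -- reachable set
  let R : X → X → Prop := fun x y => dist (S.g x) y < ε
  set W : Set X := {y | ∃ n, Chain R (n + 1) a y} with hW
  have hWopen : IsOpen W := by
    rw [Metric.isOpen_iff]
    rintro y ⟨n, c, h0, h1, h2⟩
    have h3 : dist (S.g (c n)) y < ε := by
      have := h2 n (by omega)
      rwa [h1] at this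
    refine ⟨ε - dist (S.g (c n)) y, by linarith, fun y' hy' => ?_⟩
    have h4 : dist (S.g (c n)) y' < ε := by
      have := dist_triangle (S.g (c n)) y y'
      have := Metric.mem_ball.mp hy'
      rw [dist_comm] at this
      linarith
    have h5 : Chain R n a (c n) := ⟨c, h0, rfl, fun i hi => h2 i (by omega)⟩
    exact ⟨n, h5.trans (Chain.single h4)⟩
  have hWne : W.Nonempty := ⟨S.g a, 0, Chain.single (by show dist _ _ < ε; rw [dist_self]; exact hεp)⟩
  have htrap : ∀ y ∈ closure W, S.g y ∈ W := by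
    intro y hy
    have hcont := Metric.continuous_iff.mp S.g.continuous y ε hεp
    obtain ⟨δ, hδ, hcont⟩ := hcont
    obtain ⟨y', hy', hd⟩ := Metric.mem_closure_iff.mp hy δ hδ
    have h1 := hcont y' (by rwa [dist_comm])
    obtain ⟨n, hn⟩ := hy'
    exact ⟨n + 1, hn.trans (Chain.single h1)⟩
  have hWuniv := hno W hWopen hWne htrap
  have hbW : b ∈ W := by rw [hWuniv]; trivial
  obtain ⟨n, c, h0, h1, h2⟩ := hbW
  -- bi-infinite pseudo orbit
  let p : ℤ → X := fun k => match k with
    | Int.ofNat k => if k ≤ n + 1 then c k else S.g^[k - (n + 1)] b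
    | Int.negSucc k => S.g.symm^[k + 1] a
  have hp : ∀ k, dist (S.g (p k)) (p (k + 1)) ≤ ε := by
    intro k
    match k with
    | Int.ofNat k =>
      have e1 : p (Int.ofNat k + 1) = if k + 1 ≤ n + 1 then c (k + 1) else
        S.g^[k + 1 - (n + 1)] b := rfl
      have e2 : p (Int.ofNat k) = if k ≤ n + 1 then c k else S.g^[k - (n + 1)] b := rfl
      rw [e1, e2]
      by_cases hk : k + 1 ≤ n + 1
      · rw [if_pos hk, if_pos (by omega)]
        exact (h2 k (by omega)).le
      · rw [if_neg hk]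
        by_cases hk2 : k ≤ n + 1
        · have : k = n + 1 := by omega
          subst this
          rw [if_pos le_rfl, h1, show n + 1 + 1 - (n + 1) = 1 by omega]
          simp only [Function.iterate_one, dist_self]
          exact hεp.le
        · rw [if_neg hk2, show k + 1 - (n + 1) = (k - (n + 1)) + 1 by omega,
            Function.iterate_succ_apply', dist_self]
          exact hεp.le
    | Int.negSucc 0 =>
      have e1 : p (Int.negSucc 0 + 1) = if 0 ≤ n + 1 then c 0 else S.g^[0 - (n + 1)] b := rfl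
      have e2 : p (Int.negSucc 0) = S.g.symm a := rfl
      rw [e1, e2, if_pos (by omega), h0, Homeomorph.apply_symm_apply, dist_self]
      exact hεp.le
    | Int.negSucc (k + 1) =>
      have e1 : p (Int.negSucc (k + 1) + 1) = S.g.symm^[k + 1] a := rfl
      have e2 : p (Int.negSucc (k + 1)) = S.g.symm^[k + 1 + 1] a := rfl
      rw [e1, e2, Function.iterate_succ_apply' _ (k + 1), Homeomorph.apply_symm_apply, dist_self]
      exact hεp.le
  obtain ⟨y, hy, hyd⟩ := hsh ε (min_le_left _ _) p hp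
  refine ⟨n + 1, S.g^[n + 1] (y 0), ⟨y 0, hU1 ?_, rfl⟩, hV1 ?_⟩
  · rw [Metric.mem_ball]
    have h3 := hyd 0
    have e1 : p 0 = if 0 ≤ n + 1 then c 0 else S.g^[0 - (n + 1)] b := rfl
    rw [e1, if_pos (by omega), h0] at h3
    exact lt_of_le_of_lt h3 (lt_of_lt_of_le hεr (min_le_left _ _))
  · rw [Metric.mem_ball, ← S.orbit_nat y hy (n + 1)]
    have h3 := hyd ((n + 1 : ℕ) : ℤ)
    have e1 : p ((n + 1 : ℕ) : ℤ) = if n + 1 ≤ n + 1 then c (n + 1) else
      S.g^[n + 1 - (n + 1)] b := rfl
    rw [e1, if_pos le_rfl, h1] at h3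
    exact lt_of_le_of_lt h3 (lt_of_lt_of_le hεr (min_le_right _ _))

end Pool.Agent.H779R2.An
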