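import Pool.Agent.H779R2.An.Basic

set_option autoImplicit false

namespace Pool.Agent.H779R2.An

open Pool.Agent.H721R2 Filter Topology MeasureTheory
open scoped BigOperators

variable {X E : Type*} [MetricSpace X] [CompactSpace X] [NormedAddCommGroup E]
  [InnerProductSpace ℝ E] [FiniteDimensional ℝ E]

/-- T19 -/
theorem trap_contra {S : HypSys X E} {R W : Set X} (hR : MinR S R) (hRW : R ∩ W = ∅)
    (hW : IsOpen W) (hne : W.Nonempty) (htrap : ∀ y ∈ closure W, S.g y ∈ W)
    (hcov : ∀ v, ∃ x ∈ R, UAsym S v x) : False := by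
  -- a point with backward orbit in `closure W`
  have hback : ∃ a, ∀ n : ℕ, S.g.symm^[n] a ∈ closure W := by
    let F : ℕ → Set X := fun n => S.g^[n] '' closure W
    have hFc : ∀ n, IsCompact (F n) := fun n =>
      isClosed_closure.isCompact.image (S.g.continuous.iterate n)
    have hF : ∀ n, F (n + 1) ⊆ F n := by
      rintro n _ ⟨y, hy, rfl⟩
      refine ⟨S.g y, subset_closure (htrap y hy), ?_⟩
      rw [← Function.iterate_succ_apply]
    have hFn : ∀ n, (F n).Nonempty := fun n => (hne.mono subset_closure).image _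
    obtain ⟨a, ha⟩ := IsCompact.nonempty_iInter_of_sequence_nonempty_isCompact_isClosed F hF hFn
      (hFc 0) (fun n => (hFc n).isClosed)
    refine ⟨a, fun n => ?_⟩
    obtain ⟨y, hy, hya⟩ := Set.mem_iInter.mp ha n
    rw [← hya, iter_symm_iter]
    exact hy
  obtain ⟨a, ha⟩ := hback
  obtain ⟨x, hxR, hax⟩ := hcov a
  have hxn : ∀ n : ℕ, S.g.symm^[n] x ∈ R := by
    intro n
    induction n with
    | zero => exact hxR
    | succ n ih =>
      rw [Function.iterate_succ_apply']
      exact hR.map' _ ih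
  have hK : IsCompact (S.g '' closure W) := isClosed_closure.isCompact.image S.g.continuous
  have hKW : S.g '' closure W ⊆ W := by
    rintro _ ⟨y, hy, rfl⟩
    exact htrap y hy
  obtain ⟨δ, hδ, hδW⟩ := hK.exists_thickening_subset_open hW hKW
  obtain ⟨n, hn⟩ := (Filter.Tendsto.eventually (show Tendsto (fun n : ℕ => dist (S.g.symm^[n] a) (S.g.symm^[n] x)) atTop (𝓝 0) from hax) (gt_mem_nhds hδ)).exists
  have haK : S.g.symm^[n] a ∈ S.g '' closure W := by
    refine ⟨S.g.symm^[n + 1] a, ha (n + 1), ?_⟩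
    rw [Function.iterate_succ_apply', Homeomorph.apply_symm_apply]
  have hmem : S.g.symm^[n] x ∈ W := by
    apply hδW
    rw [Metric.mem_thickening_iff]
    exact ⟨_, haK, by rw [dist_comm]; exact hn⟩
  have : S.g.symm^[n] x ∈ R ∩ W := ⟨hxn n, hmem⟩
  rw [hRW] at this
  exact this

end Pool.Agent.H779R2.An
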