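import Pool.Agent.H779R2.An.Basic
import Pool.Agent.H779R2.An.HasLc
import Pool.Agent.H779R2.An.HasTau
import Pool.Agent.H779R2.An.HasHol
import Pool.Agent.H779R2.An.Lin1E
import Pool.Agent.H779R2.An.FlatE
import Pool.Agent.H779R2.An.CJE
import Pool.Agent.H779R2.An.CD
import Pool.Agent.H779R2.An.QE
import Pool.Agent.H779R2.An.QEk
import Pool.Agent.H779R2.An.MinRE
import Pool.Agent.H779R2.An.Holes
import Pool.Agent.H779R2.An.Null
import Pool.Agent.H779R2.An.Sum
import Pool.Agent.H779R2.An.Cells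
import Pool.Agent.H779R2.An.Line
import Pool.Agent.H779R2.An.Lin
import Pool.Agent.H779R2.An.Lin2
import Pool.Agent.H779R2.An.Seg
import Pool.Agent.H779R2.An.Cover
import Pool.Agent.H779R2.An.Trap
import Pool.Agent.H779R2.An.TransNT

set_option autoImplicit false

namespace Pool.Agent.H779R2.An

open Pool.Agent.H721R2 Filter Topology MeasureTheory
open scoped BigOperators

variable {X E : Type*} [MetricSpace X] [CompactSpace X] [NormedAddCommGroup E]
  [InnerProductSpace ℝ E] [FiniteDimensional ℝ E]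

/-- Abstract main theorem -/
theorem abstract_main [PreconnectedSpace X] (S : HypSys X E) {Q r K K' : ℝ} (hQ : Quad S Q r)
    (hK : QC S K) (hK' : QC S.symm K') (J₀ : CJ0 S) (D d : ℕ) (hD : 1 ≤ D) (hDd : D ≤ d)
    (hfu : ∀ x, Module.finrank ℝ (S.Vu x) = D) (hfs : ∀ x, Module.finrank ℝ (S.Vs x) = d)
    (U V : Set X) (hU : IsOpen U) (hUn : U.Nonempty) (hV : IsOpen V) (hVn : V.Nonempty) :
    ∃ n : ℕ, (S.g^[n] '' U ∩ V).Nonempty := by
  have hflat : ∀ (S : HypSys X E) {K : ℝ}, Quad S Q r → QC S K → Nonempty (Flat S) := by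
    intro S K hQ hK
    obtain ⟨Lc, a1, a2, a3⟩ := hasLc S hQ hK
    obtain ⟨τ, b1, b2, b3⟩ := hasTau S hQ hK
    obtain ⟨H, c1, c2, c3⟩ := hasHol S hQ hK
    obtain ⟨L⟩ := exists_lin1 (S := S) ⟨K, hK, Lc, a1, a2, a3, τ, b1, b2, b3, H, c1, c2, c3⟩
    exact exists_flat L
  have hunit : ∀ (S : HypSys X E), (∀ x, 1 ≤ Module.finrank ℝ (S.Vu x)) → Nonempty (UV S) := by
    intro S h
    have : ∀ x, ∃ b ∈ S.Vu x, ‖b‖ = 1 := by
      intro x
      have hpos : 0 < Module.finrank ℝ (S.Vu x) := h x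
      have : Nontrivial (S.Vu x) := Module.finrank_pos_iff.mp hpos
      obtain ⟨v, hv⟩ := exists_ne (0 : S.Vu x)
      have hv' : ‖(v : E)‖ ≠ 0 := by
        rw [norm_ne_zero_iff]
        exact fun h => hv (Subtype.ext h)
      refine ⟨‖(v : E)‖⁻¹ • (v : E), Submodule.smul_mem _ _ v.2, ?_⟩
      rw [norm_smul, norm_inv, norm_norm, inv_mul_cancel₀ hv']
    choose b hb1 hb2 using this
    exact ⟨⟨b, hb1, hb2⟩⟩
  obtain ⟨F⟩ := hflat S hQ hK
  obtain ⟨Fs⟩ := hflat S.symm hQ.symm hK'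
  obtain ⟨B⟩ := hunit S (fun x => by rw [hfu]; exact hD)
  obtain ⟨Bs⟩ := hunit S.symm (fun x => by
    change 1 ≤ Module.finrank ℝ (S.Vs x)
    rw [hfs]; omega)
  obtain ⟨J⟩ := exists_cj F J₀
  have hCD := cd F
  have hQE := qe F J hCD
  have hQEk := qek F B hQE
  have hseg := seg (S := S) Fs
  have hcell := cells (S := S) Fs Bs d hfs
  apply transitive_of_no_trap S _ U V hU hUn hV hVn
  intro W hW hne htrap
  by_contra hnu
  obtain ⟨R, hR, hRW⟩ := exists_minR S W hW hne hnu htrap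
  have hnull := null F B hR (fun ρ₁ hρ₁ => holes F hR ρ₁ hρ₁) D
  have hsum := sum_prop F B hQE hR D hfu hnull
  have hline := line F.geo B hR d D hD hDd hcell hsum
  have hlin := lin F B hR hQEk hline
  have hlin' := lin' F hCD hlin
  have hcov := cover F hR hlin' hseg
  exact trap_contra hR hRW hW hne htrap hcov

end Pool.Agent.H779R2.An
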