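import Mathlib

set_option autoImplicit false

namespace Pool.Agent.H779R2.An

open Filter Topology MeasureTheory
open scoped BigOperators

private theorem exists_orth (d : ℕ) (hd : 2 ≤ d) (w : EuclideanSpace ℝ (Fin d)) :
    ∃ e : EuclideanSpace ℝ (Fin d), ‖e‖ = 1 ∧ inner ℝ w e = 0 := by
  have h1 : Module.finrank ℝ (ℝ ∙ w) ≤ 1 := by
    simpa using finrank_span_le_card (R := ℝ) ({w} : Set (EuclideanSpace ℝ (Fin d)))
  have h2 := (ℝ ∙ w).finrank_add_finrank_orthogonal
  have h3 : Module.finrank ℝ (EuclideanSpace ℝ (Fin d)) = d := by simp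
  have h4 : 0 < Module.finrank ℝ (ℝ ∙ w)ᗮ := by omega
  have h5 : Nontrivial (ℝ ∙ w)ᗮ := Module.finrank_pos_iff.mp h4
  obtain ⟨⟨e, he⟩, hne⟩ := exists_ne (0 : (ℝ ∙ w)ᗮ)
  have hne' : e ≠ 0 := fun h => hne (Subtype.ext h)
  have hw : inner ℝ w e = 0 := Submodule.mem_orthogonal_singleton_iff_inner_right.mp he
  have hn : ‖e‖ ≠ 0 := norm_ne_zero_iff.mpr hne'
  refine ⟨‖e‖⁻¹ • e, ?_, ?_⟩
  · rw [norm_smul, norm_inv, norm_norm, inv_mul_cancel₀ hn]
  · rw [inner_smul_right, hw, mul_zero]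

/-- K21a -/
theorem lens_arcs (d : ℕ) (hd : 2 ≤ d) (w : EuclideanSpace ℝ (Fin d)) (hw : w ≠ 0) (N : ℕ) :
    ∃ γ : Fin N → ℝ → EuclideanSpace ℝ (Fin d), (∀ j, Continuous (γ j)) ∧
      (∀ j, γ j 0 = 0) ∧ (∀ j, γ j 1 = w) ∧
      (∀ j, ∀ t ∈ Set.Icc (0 : ℝ) 1, ‖γ j t - (1 / 2 : ℝ) • w‖ ≤ ‖w‖ / 2) ∧
      ∀ i j, i ≠ j → ∀ t ∈ Set.Ioo (0 : ℝ) 1, ∀ t' ∈ Set.Ioo (0 : ℝ) 1, γ i t ≠ γ j t' := by
  obtain ⟨e, he1, hwe⟩ := exists_orth d hd w
  have hww : 0 < ‖w‖ := norm_pos_iff.mpr hw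
  set s : Fin N → ℝ := fun j => ((j : ℝ) + 1) / (N + 1) with hs
  have hs0 : ∀ j, 0 < s j := fun j => by simp only [hs]; positivity
  have hs1 : ∀ j, s j ≤ 1 := fun j => by
    simp only [hs]
    rw [div_le_one (by positivity)]
    have : (j : ℝ) + 1 ≤ N := by exact_mod_cast j.2
    linarith
  have hee : inner ℝ e e = (1 : ℝ) := by rw [real_inner_self_eq_norm_sq, he1]; norm_num
  have hW : inner ℝ w w = ‖w‖ ^ 2 := real_inner_self_eq_norm_sq w
  have hew : inner ℝ e w = (0 : ℝ) := by rw [real_inner_comm]; exact hwe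
  refine ⟨fun j t => ((1 - Real.cos (Real.pi * t)) / 2) • w +
    (s j * Real.sin (Real.pi * t) * (‖w‖ / 2)) • e, ?_, ?_, ?_, ?_, ?_⟩
  · intro j
    fun_prop
  · intro j; simp
  · intro j; simp
  · intro j t _
    have h1 : ((1 - Real.cos (Real.pi * t)) / 2) • w +
        (s j * Real.sin (Real.pi * t) * (‖w‖ / 2)) • e - (1 / 2 : ℝ) • w =
        (-Real.cos (Real.pi * t) / 2) • w + (s j * Real.sin (Real.pi * t) * (‖w‖ / 2)) • e := by
      module
    simp only [h1]
    have h2 : ‖(-Real.cos (Real.pi * t) / 2) • w +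
        (s j * Real.sin (Real.pi * t) * (‖w‖ / 2)) • e‖ ^ 2 =
        (Real.cos (Real.pi * t)) ^ 2 / 4 * ‖w‖ ^ 2 +
          (s j) ^ 2 * (Real.sin (Real.pi * t)) ^ 2 * ‖w‖ ^ 2 / 4 := by
      rw [← real_inner_self_eq_norm_sq, inner_add_left, inner_add_right, inner_add_right,
        inner_smul_left, inner_smul_left, inner_smul_left, inner_smul_left,
        inner_smul_right, inner_smul_right, inner_smul_right, inner_smul_right, hee, hwe, hew, hW]
      simp only [conj_trivial]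
      ring
    have h3 : (s j) ^ 2 ≤ 1 := by
      have := hs0 j; have := hs1 j; nlinarith
    have h4 := Real.sin_sq_add_cos_sq (Real.pi * t)
    have h5 : ‖(-Real.cos (Real.pi * t) / 2) • w +
        (s j * Real.sin (Real.pi * t) * (‖w‖ / 2)) • e‖ ^ 2 ≤ (‖w‖ / 2) ^ 2 := by
      rw [h2]
      have h6 : (s j) ^ 2 * (Real.sin (Real.pi * t)) ^ 2 ≤ (Real.sin (Real.pi * t)) ^ 2 := by
        have := sq_nonneg (Real.sin (Real.pi * t))
        nlinarith
      have h7 : (Real.cos (Real.pi * t)) ^ 2 + (s j) ^ 2 * (Real.sin (Real.pi * t)) ^ 2 ≤ 1 := by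
        linarith
      have h8 := sq_nonneg ‖w‖
      nlinarith
    exact le_of_sq_le_sq h5 (by positivity) |> fun h => h
  · intro i j hij t ht t' ht' h
    simp only at h
    have e1 := congrArg (fun v => inner ℝ w v) h
    have e2 := congrArg (fun v => inner ℝ e v) h
    simp only [inner_add_right, inner_smul_right, hwe, hew, hee, hW, mul_zero, add_zero,
      zero_add, mul_one] at e1 e2
    have hc : Real.cos (Real.pi * t) = Real.cos (Real.pi * t') := by
      have : (‖w‖ ^ 2) ≠ 0 := by positivity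
      have h3 := mul_right_cancel₀ this e1
      linarith
    have hpi := Real.pi_pos
    have htt : Real.pi * t = Real.pi * t' := by
      apply Real.injOn_cos _ _ hc
      · exact ⟨by have := ht.1; positivity, by nlinarith [ht.2]⟩
      · exact ⟨by have := ht'.1; positivity, by nlinarith [ht'.2]⟩
    rw [← htt] at e2
    have hsin : 0 < Real.sin (Real.pi * t) :=
      Real.sin_pos_of_pos_of_lt_pi (by have := ht.1; positivity) (by nlinarith [ht.2])
    have h4 : s i = s j := by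
      have h5 : s i * (Real.sin (Real.pi * t) * (‖w‖ / 2)) =
        s j * (Real.sin (Real.pi * t) * (‖w‖ / 2)) := by linarith
      exact mul_right_cancel₀ (by positivity) h5
    apply hij
    simp only [hs] at h4
    have h6 : ((i : ℝ) + 1) = (j : ℝ) + 1 := by
      field_simp at h4
      exact h4
    apply Fin.ext
    have : ((i : ℕ) : ℝ) = ((j : ℕ) : ℝ) := by linarith
    exact_mod_cast this

end Pool.Agent.H779R2.An
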