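import Pool.Agent.H779R2.An.CDefs

set_option autoImplicit false
set_option linter.unusedSectionVars false

namespace Pool.Agent.H779R2.An

open Pool.Agent.H721R2 Filter Topology MeasureTheory
open scoped BigOperators

variable {X E : Type*} [MetricSpace X] [CompactSpace X] [NormedAddCommGroup E]
  [InnerProductSpace ℝ E] [FiniteDimensional ℝ E]

private theorem c6_approx (S : HypSys X E) (η : ℝ) (hη : 0 < η) (ε : ℝ)
    (hε : 0 < ε) : ∃ ρ > 0, ∀ x, ∀ v ∈ S.Vu x, ‖v‖ ≤ ρ →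
      ∃ z, S.URel ε x z ∧ dist x z ≤ 18 * S.K * ‖v‖ ∧ ‖S.e z - S.e x - v‖ ≤ η * ‖v‖ := by
  have hK := S.one_le_K
  set K := S.K with hKdef
  have hK0 : 0 < K := by linarith
  set η₁ := min (1 / 2) (η / (180 * K ^ 2)) with hη₁
  have hη₁0 : 0 < η₁ := lt_min (by norm_num) (by positivity)
  have hη₁1 : η₁ ≤ 1 / 2 := min_le_left _ _
  have hη₁2 : 180 * K ^ 2 * η₁ ≤ η := by
    have : η₁ ≤ η / (180 * K ^ 2) := min_le_right _ _
    rw [le_div_iff₀ (by positivity)] at this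
    linarith
  obtain ⟨r2, hr2, A2⟩ := S.A2 η₁ hη₁0
  obtain ⟨r3, hr3, A3⟩ := S.A3 η₁ hη₁0
  obtain ⟨εl, hεl, lp⟩ := S.local_product
  obtain ⟨εc, hεc, cs⟩ := S.coneS' η₁ hη₁0 (by linarith)
  obtain ⟨εu, hεu, cu⟩ := S.symm.coneS' η₁ hη₁0 (by linarith)
  set R0 := min (min r2 r3) (min (min εl εc) (min εu ε)) with hR0
  have hR0p : 0 < R0 := by
    simp only [hR0, lt_min_iff]
    exact ⟨⟨hr2, hr3⟩, ⟨hεl, hεc⟩, hεu, hε⟩
  have hR2 : R0 ≤ r2 := (min_le_left _ _).trans (min_le_left _ _)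
  have hR3 : R0 ≤ r3 := (min_le_left _ _).trans (min_le_right _ _)
  have hRl : R0 ≤ εl := (min_le_right _ _).trans ((min_le_left _ _).trans (min_le_left _ _))
  have hRc : R0 ≤ εc := (min_le_right _ _).trans ((min_le_left _ _).trans (min_le_right _ _))
  have hRu : R0 ≤ εu := (min_le_right _ _).trans ((min_le_right _ _).trans (min_le_left _ _))
  have hRε : R0 ≤ ε := (min_le_right _ _).trans ((min_le_right _ _).trans (min_le_right _ _))
  refine ⟨R0 / (36 * K), by positivity, fun x v hv hvρ => ?_⟩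
  have hnv : 0 ≤ ‖v‖ := norm_nonneg _
  set σ := 18 * K * ‖v‖ with hσ
  have hσ0 : 0 ≤ σ := by positivity
  have hσR : σ ≤ R0 / 2 := by
    rw [le_div_iff₀ (by positivity)] at hvρ
    rw [hσ]; linarith
  have hKv : ‖v‖ ≤ K * ‖v‖ := by nlinarith
  have h2v : 2 * ‖v‖ ≤ σ := by rw [hσ]; nlinarith
  obtain ⟨y0, hy0⟩ := A2 x 0 (Submodule.zero_mem _) v hv (by
    rw [zero_add]; linarith)
  rw [zero_add] at hy0
  have hd : dist y0 x ≤ 2 * ‖v‖ := by
    rw [S.isom]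
    have h1 := norm_add_le (S.e y0 - S.e x - v) v
    rw [sub_add_cancel] at h1
    have h2 : η₁ * ‖v‖ ≤ 1 / 2 * ‖v‖ := mul_le_mul_of_nonneg_right hη₁1 hnv
    linarith
  obtain ⟨z, hz1, hz2⟩ := lp y0 x (by linarith)
  have hσd : 9 * S.K * dist y0 x ≤ σ := by
    rw [hσ]
    have : 9 * K * dist y0 x ≤ 9 * K * (2 * ‖v‖) :=
      mul_le_mul_of_nonneg_left hd (by positivity)
    linarith
  have hz1' : S.SRel σ y0 z := hz1.mono hσd
  have hz2' : S.URel σ x z := (hz2.mono hσd).symm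
  obtain ⟨s0, hs0, hs01⟩ := cs _ _ (hz1'.mono (by linarith))
  obtain ⟨u0, hu0, hu01⟩ := cu _ _ ((S.SRel_symm_sys _ _ _).mpr (hz2'.mono (by linarith)))
  change u0 ∈ S.Vu x at hu0
  change ‖S.e z - S.e x - u0‖ ≤ 2 * η₁ * dist x z at hu01
  have hd1 : dist y0 z ≤ σ := hz1'.dist_le
  have hd2 : dist x z ≤ σ := hz2'.dist_le
  have hs02 : ‖S.e z - S.e y0 - s0‖ ≤ 2 * (η₁ * σ) := by
    refine hs01.trans ?_
    have : 2 * η₁ * dist y0 z ≤ 2 * η₁ * σ := mul_le_mul_of_nonneg_left hd1 (by positivity)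
    linarith
  have hu02 : ‖S.e z - S.e x - u0‖ ≤ 2 * (η₁ * σ) := by
    refine hu01.trans ?_
    have : 2 * η₁ * dist x z ≤ 2 * η₁ * σ := mul_le_mul_of_nonneg_left hd2 (by positivity)
    linarith
  have hns0 : ‖s0‖ ≤ 2 * σ := by
    have e0 : dist y0 z = ‖S.e z - S.e y0‖ := by rw [dist_comm, S.isom]
    have h1 := norm_sub_le (S.e z - S.e y0) (S.e z - S.e y0 - s0)
    rw [sub_sub_cancel, ← e0] at h1
    have : η₁ * σ ≤ 1 / 2 * σ := mul_le_mul_of_nonneg_right hη₁1 hσ0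
    linarith
  obtain ⟨s1, hs1, hs11⟩ := A3 y0 x (by linarith) s0 hs0
  have hs12 : ‖s0 - s1‖ ≤ 2 * (η₁ * σ) := by
    refine hs11.trans ?_
    have : η₁ * ‖s0‖ ≤ η₁ * (2 * σ) := mul_le_mul_of_nonneg_left hns0 hη₁0.le
    linarith
  have hsum : ‖(-s1) + (u0 - v)‖ ≤ 7 * (η₁ * σ) := by
    have e1 : (-s1) + (u0 - v) = (S.e z - S.e y0 - s0) + (S.e y0 - S.e x - v)
        - (S.e z - S.e x - u0) + (s0 - s1) := by abel
    rw [e1]
    have h1 := norm_add_le ((S.e z - S.e y0 - s0) + (S.e y0 - S.e x - v)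
        - (S.e z - S.e x - u0)) (s0 - s1)
    have h2 := norm_sub_le ((S.e z - S.e y0 - s0) + (S.e y0 - S.e x - v))
        (S.e z - S.e x - u0)
    have h3 := norm_add_le (S.e z - S.e y0 - s0) (S.e y0 - S.e x - v)
    have h4 : η₁ * ‖v‖ ≤ η₁ * σ := mul_le_mul_of_nonneg_left (by linarith) hη₁0.le
    linarith
  have hang := (S.angle x _ (Submodule.neg_mem _ hs1) _ (Submodule.sub_mem _ hu0 hv)).2
  have huv : ‖u0 - v‖ ≤ K * (7 * (η₁ * σ)) :=
    hang.trans (mul_le_mul_of_nonneg_left hsum hK0.le)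
  refine ⟨z, hz2'.mono (by linarith), hd2, ?_⟩
  have e1 : S.e z - S.e x - v = (S.e z - S.e x - u0) + (u0 - v) := by
    abel
  rw [e1]
  have h1 := norm_add_le (S.e z - S.e x - u0) (u0 - v)
  have h3 : η₁ * σ ≤ K * (η₁ * σ) := by
    have : 0 ≤ η₁ * σ := by positivity
    nlinarith
  have h4 : 180 * K ^ 2 * η₁ * ‖v‖ ≤ η * ‖v‖ := mul_le_mul_of_nonneg_right hη₁2 hnv
  have h5 : 180 * K ^ 2 * η₁ * ‖v‖ = 10 * (K * (η₁ * σ)) := by rw [hσ]; ring
  have h6 : 0 ≤ K * (η₁ * σ) := by positivity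
  linarith

/-- Approximation by points of the stable plaque. -/
private theorem c6_approxS (S : HypSys X E) (η : ℝ) (hη : 0 < η) (ε : ℝ)
    (hε : 0 < ε) : ∃ ρ > 0, ∀ x, ∀ v ∈ S.Vs x, ‖v‖ ≤ ρ →
      ∃ z, S.SRel ε x z ∧ dist x z ≤ 18 * S.K * ‖v‖ ∧ ‖S.e z - S.e x - v‖ ≤ η * ‖v‖ :=
  c6_approx S.symm η hη ε hε

/-- Differences of points of a small stable plaque of `x` are almost in `Vs x`. -/
private theorem c6_almost (S : HypSys X E) (η : ℝ) (hη : 0 < η) (hη1 : η ≤ 1) : ∃ ρ > 0,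
    ∀ x y y', S.SRel ρ x y → S.SRel ρ x y' →
      ∃ s ∈ S.Vs x, ‖S.e y' - S.e y - s‖ ≤ η * dist y y' := by
  obtain ⟨r3, hr3, A3⟩ := S.A3 (η / 8) (by positivity)
  obtain ⟨εc, hεc, cs⟩ := S.coneS' (η / 8) (by positivity) (by linarith)
  refine ⟨min (r3 / 2) (εc / 2), by positivity, fun x y y' h h' => ?_⟩
  have h1 : S.SRel εc y y' := by
    refine (h.symm.trans h').mono ?_
    have := min_le_right (r3 / 2) (εc / 2)
    linarith
  obtain ⟨s, hs, hs1⟩ := cs y y' h1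
  have h2 : dist y x < r3 := by
    have h3 := h.dist_le
    rw [dist_comm] at h3
    have := min_le_left (r3 / 2) (εc / 2)
    linarith
  obtain ⟨s', hs', hs2⟩ := A3 y x h2 s hs
  refine ⟨s', hs', ?_⟩
  have hd : dist y y' = ‖S.e y' - S.e y‖ := by rw [dist_comm, S.isom]
  have hd0 : 0 ≤ dist y y' := dist_nonneg
  have h3 : ‖s‖ ≤ 2 * dist y y' := by
    have h4 := norm_sub_le (S.e y' - S.e y) (S.e y' - S.e y - s)
    rw [sub_sub_cancel, ← hd] at h4
    have h5 : 2 * (η / 8) * dist y y' ≤ 1 * dist y y' :=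
      mul_le_mul_of_nonneg_right (by linarith) hd0
    linarith
  have e1 : S.e y' - S.e y - s' = (S.e y' - S.e y - s) + (s - s') := by abel
  rw [e1]
  have h4 := norm_add_le (S.e y' - S.e y - s) (s - s')
  have h5 : η / 8 * ‖s‖ ≤ η / 8 * (2 * dist y y') := mul_le_mul_of_nonneg_left h3 (by positivity)
  have h6 : 0 ≤ η * dist y y' := by positivity
  linarith

/-- The projection onto `Vs x`. -/
private noncomputable def c6_P (S : HypSys X E) (x : X) : E →L[ℝ] E := (S.Vs x).starProjection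

private theorem c6_P_le (S : HypSys X E) (x : X) (w : E) : ‖c6_P S x w‖ ≤ ‖w‖ :=
  Submodule.norm_starProjection_apply_le _ w

private theorem c6_P_mem (S : HypSys X E) (x : X) (w : E) : c6_P S x w ∈ S.Vs x :=
  Submodule.starProjection_apply_mem _ w

private theorem c6_P_eq (S : HypSys X E) (x : X) {w : E} (hw : w ∈ S.Vs x) : c6_P S x w = w :=
  Submodule.starProjection_eq_self_iff.2 hw

/-- The projection is almost isometric on plaques. -/
private theorem c6_bilip (S : HypSys X E) : ∃ ρ > 0,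
    ∀ x y y', S.SRel ρ x y → S.SRel ρ x y' →
      3 / 4 * dist y y' ≤ ‖c6_P S x (S.e y' - S.e y)‖ ∧
      ‖c6_P S x (S.e y' - S.e y)‖ ≤ dist y y' := by
  obtain ⟨ρ, hρ, h⟩ := c6_almost S (1 / 8) (by norm_num) (by norm_num)
  refine ⟨ρ, hρ, fun x y y' h1 h2 => ?_⟩
  obtain ⟨s, hs, hs1⟩ := h x y y' h1 h2
  have hd : dist y y' = ‖S.e y' - S.e y‖ := by rw [dist_comm, S.isom]
  constructor
  · have e2 : c6_P S x (S.e y' - S.e y - s) = c6_P S x (S.e y' - S.e y) - s := by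
      rw [map_sub (c6_P S x) (S.e y' - S.e y) s, c6_P_eq S x hs]
    have e1 : S.e y' - S.e y = c6_P S x (S.e y' - S.e y) +
        ((S.e y' - S.e y - s) - c6_P S x (S.e y' - S.e y - s)) := by
      rw [e2]
      abel
    have h3 : ‖S.e y' - S.e y‖ ≤ ‖c6_P S x (S.e y' - S.e y)‖ +
        ‖(S.e y' - S.e y - s) - c6_P S x (S.e y' - S.e y - s)‖ := by
      conv_lhs => rw [e1]
      exact norm_add_le _ _
    have h4 := norm_sub_le (S.e y' - S.e y - s) (c6_P S x (S.e y' - S.e y - s))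
    have h5 := c6_P_le S x (S.e y' - S.e y - s)
    rw [← hd] at h3
    linarith
  · rw [hd]
    exact c6_P_le S x _

private theorem c6_step (S : HypSys X E) {ε₀ : ℝ} (geo : Geo S ε₀) : ∃ r > 0, ∃ ρ > 0,
    ∀ x z v, S.SRel r x z → v ∈ S.Vs x → ‖v - c6_P S x (S.e z - S.e x)‖ ≤ ρ →
      ∃ z', S.SRel (36 * S.K * ‖v - c6_P S x (S.e z - S.e x)‖) z z' ∧
        ‖v - c6_P S x (S.e z' - S.e x)‖ ≤ 1 / 4 * ‖v - c6_P S x (S.e z - S.e x)‖ := by
  have hK := S.one_le_K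
  obtain ⟨r3, hr3, A3⟩ := S.A3 (1 / 16) (by norm_num)
  obtain ⟨ρ, hρ, hA⟩ := c6_approxS S (1 / 16) (by norm_num) ε₀ geo.pos
  refine ⟨r3 / 2, by positivity, ρ / 2, by positivity, fun x z v hxz hv hle => ?_⟩
  set w := v - c6_P S x (S.e z - S.e x) with hw
  have hwm : w ∈ S.Vs x := Submodule.sub_mem _ hv (c6_P_mem S x _)
  have hdist : dist x z < r3 := by
    have := hxz.dist_le
    linarith
  obtain ⟨w', hw', hw1⟩ := A3 x z hdist w hwm
  have hn0 : 0 ≤ ‖w‖ := norm_nonneg _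
  have hn : ‖w'‖ ≤ 2 * ‖w‖ := by
    have h1 := norm_sub_le w (w - w')
    rw [sub_sub_cancel] at h1
    linarith
  obtain ⟨z', h1, h2, h3⟩ := hA z w' hw' (by linarith)
  refine ⟨z', ?_, ?_⟩
  · apply (geo.SRel_dist h1).mono
    have : 18 * S.K * ‖w'‖ ≤ 18 * S.K * (2 * ‖w‖) :=
      mul_le_mul_of_nonneg_left hn (by positivity)
    linarith
  · have e1 : v - c6_P S x (S.e z' - S.e x) = c6_P S x (w - (S.e z' - S.e z)) := by
      have e2 : S.e z' - S.e x = (S.e z - S.e x) + (S.e z' - S.e z) := by abel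
      have e3 : c6_P S x (w - (S.e z' - S.e z)) = w - c6_P S x (S.e z' - S.e z) := by
        rw [map_sub (c6_P S x) w (S.e z' - S.e z), c6_P_eq S x hwm]
      rw [e3, e2, map_add, hw]
      abel
    rw [e1]
    refine (c6_P_le S x _).trans ?_
    have e2 : w - (S.e z' - S.e z) = (w - w') - (S.e z' - S.e z - w') := by abel
    rw [e2]
    have h4 := norm_sub_le (w - w') (S.e z' - S.e z - w')
    linarith

private theorem c6_surj (S : HypSys X E) (ε : ℝ) (hε : 0 < ε) : ∃ ρ > 0,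
    ∀ x, ∀ v ∈ S.Vs x, ‖v‖ ≤ ρ → ∃ z, S.SRel ε x z ∧ c6_P S x (S.e z - S.e x) = v := by
  have hK := S.one_le_K
  obtain ⟨ε₀, geo⟩ := exists_geo S
  obtain ⟨r, hr, ρ, hρ, hstep⟩ := c6_step S geo
  set R := min ε r with hR
  have hR0 : 0 < R := lt_min hε hr
  refine ⟨min ρ (R / (54 * S.K)), lt_min hρ (by positivity), fun x v hv hvn => ?_⟩
  have hv1 : ‖v‖ ≤ ρ := hvn.trans (min_le_left _ _)
  have hv2 : 54 * S.K * ‖v‖ ≤ R := by
    have := hvn.trans (min_le_right _ _)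
    rw [le_div_iff₀ (by positivity)] at this
    linarith
  set T := 54 * S.K * ‖v‖ with hT
  have hT0 : 0 ≤ T := by positivity
  have hTε : T ≤ ε := hv2.trans (min_le_left _ _)
  have hTr : T ≤ r := hv2.trans (min_le_right _ _)
  let P : ℕ → X → Prop := fun k z => S.SRel (T * (1 - (1 / 4) ^ k)) x z ∧
    ‖v - c6_P S x (S.e z - S.e x)‖ ≤ (1 / 4) ^ k * ‖v‖
  have hURT : ∀ k z, P k z → S.SRel T x z := by
    intro k z hz
    apply hz.1.mono
    have h1 : (0 : ℝ) ≤ (1 / 4) ^ k := by positivity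
    nlinarith
  have hst : ∀ (k : ℕ) (z : {z : X // P k z}), ∃ z' : {z : X // P (k + 1) z},
      dist z.1 z'.1 ≤ (36 * S.K * ‖v‖) * (1 / 4) ^ k := by
    intro k z
    have hz := z.2
    have h4k : (0 : ℝ) < (1 / 4) ^ k := by positivity
    have h4k1 : (1 / 4 : ℝ) ^ k ≤ 1 := pow_le_one₀ (by norm_num) (by norm_num)
    have hle : ‖v - c6_P S x (S.e z.1 - S.e x)‖ ≤ ρ := by
      refine hz.2.trans ?_
      have : (1 / 4 : ℝ) ^ k * ‖v‖ ≤ 1 * ‖v‖ := mul_le_mul_of_nonneg_right h4k1 (norm_nonneg _)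
      linarith
    obtain ⟨z', h1, h3⟩ := hstep x z.1 v ((hURT k _ hz).mono hTr) hv hle
    have h4 : 36 * S.K * ‖v - c6_P S x (S.e z.1 - S.e x)‖ ≤ 36 * S.K * ((1 / 4) ^ k * ‖v‖) :=
      mul_le_mul_of_nonneg_left hz.2 (by positivity)
    refine ⟨⟨z', ?_, ?_⟩, ?_⟩
    · apply (hz.1.trans h1).mono
      have e1 : (1 / 4 : ℝ) ^ (k + 1) = (1 / 4) ^ k * (1 / 4) := pow_succ _ _
      rw [e1]
      have e2 : T * (1 - (1 / 4 : ℝ) ^ k * (1 / 4)) = T * (1 - (1 / 4 : ℝ) ^ k) +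
          3 / 4 * (54 * (S.K * ((1 / 4 : ℝ) ^ k * ‖v‖))) := by rw [hT]; ring
      rw [e2]
      have : 0 ≤ S.K * ((1 / 4 : ℝ) ^ k * ‖v‖) := by positivity
      linarith
    · rw [pow_succ]
      calc ‖v - c6_P S x (S.e z' - S.e x)‖ ≤ 1 / 4 * ‖v - c6_P S x (S.e z.1 - S.e x)‖ := h3
        _ ≤ 1 / 4 * ((1 / 4) ^ k * ‖v‖) := mul_le_mul_of_nonneg_left hz.2 (by norm_num)
        _ = _ := by ring
    · refine (h1.dist_le.trans h4).trans (le_of_eq ?_)
      ring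
  choose G hG using hst
  have hP0 : P 0 x := by
    refine ⟨fun k => ?_, ?_⟩
    · rw [dist_self]; simp
    · rw [sub_self, map_zero, sub_zero, pow_zero, one_mul]
  let Z : (k : ℕ) → {z : X // P k z} := fun k => Nat.rec ⟨x, hP0⟩ (fun k z => G k z) k
  have hZ : ∀ k, dist (Z k).1 (Z (k + 1)).1 ≤ (36 * S.K * ‖v‖) * (1 / 4) ^ k := fun k =>
    hG k (Z k)
  have hcs : CauchySeq (fun k => (Z k).1) :=
    cauchySeq_of_le_geometric (1 / 4) _ (by norm_num) hZ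
  obtain ⟨z, hz⟩ := cauchySeq_tendsto_of_complete hcs
  have hxz : S.SRel T x z := by
    intro j
    have h1 : Tendsto (fun k => dist (S.g^[j] x) (S.g^[j] (Z k).1)) atTop
        (𝓝 (dist (S.g^[j] x) (S.g^[j] z))) :=
      tendsto_const_nhds.dist (((S.g.continuous.iterate j).tendsto _).comp hz)
    exact le_of_tendsto' h1 (fun k => hURT k _ (Z k).2 j)
  refine ⟨z, hxz.mono hTε, ?_⟩
  have hb : ∀ k, ‖c6_P S x (S.e z - S.e x) - v‖ ≤ dist (Z k).1 z + (1 / 4) ^ k * ‖v‖ := by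
    intro k
    have hk := (Z k).2
    have e1 : c6_P S x (S.e z - S.e x) - v = c6_P S x (S.e z - S.e (Z k).1) -
        (v - c6_P S x (S.e (Z k).1 - S.e x)) := by
      have e2 : S.e z - S.e x = (S.e z - S.e (Z k).1) + (S.e (Z k).1 - S.e x) := by abel
      rw [e2, map_add]
      abel
    rw [e1]
    have h5 := norm_sub_le (c6_P S x (S.e z - S.e (Z k).1))
      (v - c6_P S x (S.e (Z k).1 - S.e x))
    have h6 := hk.2
    have h7 := c6_P_le S x (S.e z - S.e (Z k).1)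
    have h8 : dist (Z k).1 z = ‖S.e z - S.e (Z k).1‖ := by rw [dist_comm, S.isom]
    rw [h8]
    linarith
  have hl1 : Tendsto (fun k => dist (Z k).1 z + (1 / 4 : ℝ) ^ k * ‖v‖) atTop
      (𝓝 (0 + 0 * ‖v‖)) := by
    apply Tendsto.add
    · have : Tendsto (fun k => dist (Z k).1 z) atTop (𝓝 (dist z z)) :=
        hz.dist tendsto_const_nhds
      rwa [dist_self] at this
    · apply Tendsto.mul_const
      exact tendsto_pow_atTop_nhds_zero_of_lt_one (by norm_num) (by norm_num)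
  have hl2 : ‖c6_P S x (S.e z - S.e x) - v‖ ≤ 0 + 0 * ‖v‖ := ge_of_tendsto' hl1 hb
  have hl3 : ‖c6_P S x (S.e z - S.e x) - v‖ ≤ 0 := by linarith
  exact sub_eq_zero.mp (norm_le_zero_iff.mp hl3)

/-- K6 -/
theorem chart_prop (S : HypSys X E) (d : ℕ) (hd : ∀ x, Module.finrank ℝ (S.Vs x) = d) :
    ChartProp S d := by
  classical
  intro ρ hρ
  obtain ⟨ρ₂, hρ₂, hb⟩ := c6_bilip S
  obtain ⟨ρ₁, hρ₁, hs⟩ := c6_surj S (min ρ ρ₂) (lt_min hρ hρ₂)
  refine ⟨ρ₁, hρ₁, min (ρ₁ / 4) ρ₂, lt_min (by positivity) hρ₂, fun x => ?_⟩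
  let A : EuclideanSpace ℝ (Fin d) ≃ₗᵢ[ℝ] S.Vs x :=
    ((stdOrthonormalBasis ℝ (S.Vs x)).reindex (finCongr (hd x))).repr.symm
  have hA : ∀ a, ‖((A a : S.Vs x) : E)‖ = ‖a‖ := fun a => A.norm_map a
  have hex : ∀ a : EuclideanSpace ℝ (Fin d), ‖a‖ ≤ ρ₁ → ∃ z, S.SRel (min ρ ρ₂) x z ∧
      c6_P S x (S.e z - S.e x) = (A a : S.Vs x) := fun a ha =>
    hs x _ (A a).2 (by rw [hA]; exact ha)
  let ψ : EuclideanSpace ℝ (Fin d) → X := fun a =>
    if h : ‖a‖ ≤ ρ₁ then (hex a h).choose else x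
  have hψ : ∀ a, ‖a‖ ≤ ρ₁ → S.SRel (min ρ ρ₂) x (ψ a) ∧
      c6_P S x (S.e (ψ a) - S.e x) = (A a : S.Vs x) := by
    intro a ha
    have h1 : ψ a = (hex a ha).choose := dif_pos ha
    rw [h1]
    exact (hex a ha).choose_spec
  have key : ∀ (a a' : EuclideanSpace ℝ (Fin d)) (y y' : X), S.SRel ρ₂ x y → S.SRel ρ₂ x y' →
      c6_P S x (S.e y - S.e x) = (A a : S.Vs x) → c6_P S x (S.e y' - S.e x) = (A a' : S.Vs x) →
      3 / 4 * dist y y' ≤ ‖a - a'‖ ∧ ‖a - a'‖ ≤ dist y y' := by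
    intro a a' y y' h1 h2 h3 h4
    have h5 := hb x y y' h1 h2
    have h6 : ‖c6_P S x (S.e y' - S.e y)‖ = ‖a - a'‖ := by
      have e1 : S.e y' - S.e y = (S.e y' - S.e x) - (S.e y - S.e x) := by abel
      rw [e1, map_sub, h3, h4, norm_sub_rev a a', ← hA (a' - a), map_sub]
      rfl
    rw [h6] at h5
    exact h5
  have h0x : S.SRel ρ₂ x x := fun k => by rw [dist_self]; exact hρ₂.le
  refine ⟨ψ, ⟨?_, ?_, ?_, ?_⟩, ?_⟩
  · have h1 := hψ 0 (by rw [norm_zero]; exact hρ₁.le)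
    have h2 := (key 0 0 (ψ 0) x (h1.1.mono (min_le_right _ _)) h0x h1.2
      (by rw [sub_self, map_zero, map_zero]; rfl)).1
    rw [sub_self, norm_zero] at h2
    have h3 : dist (ψ 0) x ≤ 0 := by linarith
    exact dist_le_zero.1 h3
  · intro a ha
    exact (hψ a ha).1.mono (min_le_left _ _)
  · intro a a' ha ha'
    have h1 := hψ a ha
    have h2 := hψ a' ha'
    have h3 := (key a a' _ _ (h1.1.mono (min_le_right _ _)) (h2.1.mono (min_le_right _ _))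
      h1.2 h2.2).1
    have h4 : 0 ≤ ‖a - a'‖ := norm_nonneg _
    linarith
  · intro a a' ha ha'
    have h1 := hψ a ha
    have h2 := hψ a' ha'
    have h3 := (key a a' _ _ (h1.1.mono (min_le_right _ _)) (h2.1.mono (min_le_right _ _))
      h1.2 h2.2).2
    have h4 : 0 ≤ dist (ψ a) (ψ a') := dist_nonneg
    linarith
  · intro x' hx'
    let b : EuclideanSpace ℝ (Fin d) := A.symm ⟨c6_P S x (S.e x' - S.e x), c6_P_mem S x _⟩
    have hAb : ((A b : S.Vs x) : E) = c6_P S x (S.e x' - S.e x) := by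
      show ((A (A.symm _) : S.Vs x) : E) = _
      rw [LinearIsometryEquiv.apply_symm_apply]
    have hbn : ‖b‖ ≤ ρ₁ / 4 := by
      rw [← hA b, hAb]
      refine (c6_P_le S x _).trans ?_
      have h1 := hx'.dist_le
      rw [dist_comm, S.isom] at h1
      exact h1.trans (min_le_left _ _)
    refine ⟨b, hbn, ?_⟩
    have h1 := hψ b (by linarith)
    have h2 := (key b b (ψ b) x' (h1.1.mono (min_le_right _ _))
      (hx'.mono (min_le_right _ _)) h1.2 hAb.symm).1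
    rw [sub_self, norm_zero] at h2
    have h3 : dist (ψ b) x' ≤ 0 := by linarith
    exact dist_le_zero.1 h3

end Pool.Agent.H779R2.An
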