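import Pool.Agent.H779R2.An.CDefs

set_option autoImplicit false

namespace Pool.Agent.H779R2.An

open Pool.Agent.H721R2 Filter Topology MeasureTheory
open scoped BigOperators

variable {X E : Type*} [MetricSpace X] [CompactSpace X] [NormedAddCommGroup E]
  [InnerProductSpace ℝ E] [FiniteDimensional ℝ E]

omit [CompactSpace X] [FiniteDimensional ℝ E] in
private theorem isClosed_SRel_pair' (S : HypSys X E) (ε : ℝ) :
    IsClosed {p : X × X | S.SRel ε p.1 p.2} := by
  have h : {p : X × X | S.SRel ε p.1 p.2} =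
      ⋂ k : ℕ, {p : X × X | dist (S.g^[k] p.1) (S.g^[k] p.2) ≤ ε} := by
    ext p
    simp [HypSys.SRel]
  rw [h]
  refine isClosed_iInter (fun k => ?_)
  exact isClosed_le (((S.g.continuous.iterate k).comp continuous_fst).dist
    ((S.g.continuous.iterate k).comp continuous_snd)) continuous_const

omit [FiniteDimensional ℝ E] in
/-- The closure of an invariant saturated set is saturated. -/
private theorem closure_sat (S : HypSys X E) (O : Set X) (hm : ∀ y ∈ O, S.g y ∈ O)
    (hm' : ∀ y ∈ O, S.g.symm y ∈ O) (hs : ∀ y ∈ O, ∀ y', SAsym S y y' → y' ∈ O) :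
    (∀ y ∈ closure O, S.g y ∈ closure O) ∧ (∀ y ∈ closure O, S.g.symm y ∈ closure O) ∧
      ∀ y ∈ closure O, ∀ y', SAsym S y y' → y' ∈ closure O := by
  have c1 : ∀ y ∈ closure O, S.g y ∈ closure O := fun y hy =>
    map_mem_closure S.g.continuous hy hm
  have c2 : ∀ y ∈ closure O, S.g.symm y ∈ closure O := fun y hy =>
    map_mem_closure S.g.symm.continuous hy hm'
  refine ⟨c1, c2, ?_⟩
  obtain ⟨ε₀, hg⟩ := exists_geo S
  have hε₀ := hg.pos
  obtain ⟨δ, hδ, hbr⟩ := exists_bracket S (ε₀ / 2) (by positivity)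
  set ε := min (ε₀ / 2) (δ / 2) with hε
  have hεp : 0 < ε := lt_min (by positivity) (by positivity)
  have key : ∀ y ∈ closure O, ∀ x, S.SRel ε y x → x ∈ closure O := by
    intro y hy x hyx
    obtain ⟨z, hzO, hz⟩ := mem_closure_iff_seq_limit.mp hy
    obtain ⟨N, hN⟩ := Metric.tendsto_atTop.mp hz (δ / 2) (by positivity)
    have hd : ∀ n, dist (z (n + N)) x ≤ δ := by
      intro n
      have h1 := hN (n + N) (by omega)
      have h2 := hyx.dist_le
      have h3 : ε ≤ δ / 2 := min_le_right _ _
      have h4 := dist_triangle (z (n + N)) y x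
      linarith
    choose w hw1 hw2 using fun n => hbr _ _ (hd n)
    have hwO : ∀ n, w n ∈ O := fun n =>
      hs _ (hzO _) _ (hg.sasym _ _ ((hw1 n).mono (by linarith)))
    obtain ⟨a, φ, hφ, ha⟩ := CompactSpace.tendsto_subseq w
    have hz' : Tendsto (fun n => z (φ n + N)) atTop (𝓝 y) :=
      hz.comp ((tendsto_add_atTop_nat N).comp hφ.tendsto_atTop)
    have h1 : S.SRel (ε₀ / 2) y a := by
      have := (isClosed_SRel_pair' S (ε₀ / 2)).mem_of_tendsto (hz'.prodMk_nhds ha)
        (Filter.Eventually.of_forall fun n => hw1 (φ n))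
      exact this
    have h2 : S.URel (ε₀ / 2) a x := by
      have := (isClosed_SRel_pair' S.symm (ε₀ / 2)).mem_of_tendsto
        (ha.prodMk_nhds (tendsto_const_nhds (x := x)))
        (Filter.Eventually.of_forall fun n => hw2 (φ n))
      exact this
    have h3 : a = x := by
      refine hg.uniq a x ((h1.symm.trans hyx).mono ?_) (h2.mono (by linarith))
      have := min_le_left (ε₀ / 2) (δ / 2)
      linarith
    rw [← h3]
    exact mem_closure_of_tendsto ha (Filter.Eventually.of_forall fun n => hwO _)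
  intro y hy y' hyy'
  obtain ⟨N, hN⟩ := hyy'.eventually hεp
  have h1 : ∀ n : ℕ, S.g^[n] y ∈ closure O := by
    intro n
    induction n with
    | zero => exact hy
    | succ n ih =>
      rw [Function.iterate_succ_apply']
      exact c1 _ ih
  have h2 : ∀ (n : ℕ) (u : X), u ∈ closure O → S.g.symm^[n] u ∈ closure O := by
    intro n u hu
    induction n with
    | zero => exact hu
    | succ n ih =>
      rw [Function.iterate_succ_apply']
      exact c2 _ ih
  have h3 := key _ (h1 N) _ (hN N le_rfl)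
  have h4 := h2 N _ h3
  rwa [iter_symm_iter] at h4

/-- K14 -/
theorem dense_prop {S : HypSys X E} {R : Set X} (hR : MinR2 S R) : DenseProp S R := by
  intro x hx z hz ε hε
  set O : Set X := {y | ∃ n : ℕ, SAsym S (S.g^[n] x) y ∨ SAsym S (S.g.symm^[n] x) y} with hO
  have hxn : ∀ n : ℕ, S.g^[n] x ∈ R := by
    intro n
    induction n with
    | zero => exact hx
    | succ n ih =>
      rw [Function.iterate_succ_apply']
      exact hR.map _ ih
  have hxn' : ∀ n : ℕ, S.g.symm^[n] x ∈ R := by
    intro n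
    induction n with
    | zero => exact hx
    | succ n ih =>
      rw [Function.iterate_succ_apply']
      exact hR.map' _ ih
  have hOR : O ⊆ R := by
    rintro y ⟨n, h | h⟩
    · exact hR.sat _ (hxn n) _ h
    · exact hR.sat _ (hxn' n) _ h
  have hm : ∀ y ∈ O, S.g y ∈ O := by
    rintro y ⟨n, h | h⟩
    · refine ⟨n + 1, Or.inl ?_⟩
      rw [Function.iterate_succ_apply']
      exact h.map
    · match n, h with
      | 0, h => exact ⟨1, Or.inl h.map⟩
      | n + 1, h =>
        refine ⟨n, Or.inr ?_⟩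
        have := h.map
        rwa [Function.iterate_succ_apply', Homeomorph.apply_symm_apply] at this
  have hm' : ∀ y ∈ O, S.g.symm y ∈ O := by
    rintro y ⟨n, h | h⟩
    · match n, h with
      | 0, h => exact ⟨1, Or.inr h.symm_map⟩
      | n + 1, h =>
        refine ⟨n, Or.inl ?_⟩
        have := h.symm_map
        rwa [Function.iterate_succ_apply', Homeomorph.symm_apply_apply] at this
    · refine ⟨n + 1, Or.inr ?_⟩
      rw [Function.iterate_succ_apply']
      exact h.symm_map
  have hs : ∀ y ∈ O, ∀ y', SAsym S y y' → y' ∈ O := by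
    rintro y ⟨n, h | h⟩ y' h'
    · exact ⟨n, Or.inl (h.trans h')⟩
    · exact ⟨n, Or.inr (h.trans h')⟩
  obtain ⟨c1, c2, c3⟩ := closure_sat S O hm hm' hs
  have hcl : closure O = R := by
    refine hR.minimal _ (closure_minimal hOR hR.closed) isClosed_closure ?_ c1 c2 c3
    exact ⟨x, subset_closure ⟨0, Or.inl (SAsym.refl S x)⟩⟩
  rw [← hcl] at hz
  obtain ⟨y, hy, hyz⟩ := Metric.mem_closure_iff.mp hz ε hε
  exact ⟨y, hOR hy, by rwa [dist_comm], hy⟩

end Pool.Agent.H779R2.An
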