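import Pool.Agent.H779R2.An.DefsB
import Pool.Agent.H779R2.An.Basic

set_option autoImplicit false
set_option linter.unusedSectionVars false

open scoped Manifold ContDiff Topology Bundle
open Set Filter Bundle

namespace Pool.Agent.H779R2.An

open Pool.Agent.H721R2

section aux

variable {E₀ : Type*} [NormedAddCommGroup E₀] [NormedSpace ℝ E₀] [FiniteDimensional ℝ E₀]
  {M : Type*} [MetricSpace M] [CompactSpace M] [ChartedSpace E₀ M] [IsManifold 𝓘(ℝ, E₀) 1 M]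
  {F : Type*} [NormedAddCommGroup F] [NormedSpace ℝ F]

private theorem cj0m_cpt {e : M → F} (he : ContMDiff 𝓘(ℝ, E₀) 𝓘(ℝ, F) 1 e)
    (hinj : ∀ x, Function.Injective (dm E₀ e x)) {x : ℕ → M} {x₀ : M} {v : ℕ → E₀} {B : ℝ}
    (hx : Tendsto x atTop (𝓝 x₀)) (hB : ∀ n, ‖dm E₀ e (x n) (v n)‖ ≤ B) :
    ∃ v₀ : E₀, ∃ φ : ℕ → ℕ, StrictMono φ ∧
      Tendsto (fun n => (⟨x (φ n), v (φ n)⟩ : TangentBundle 𝓘(ℝ, E₀) M)) atTop
        (𝓝 (⟨x₀, v₀⟩ : TangentBundle 𝓘(ℝ, E₀) M)) := by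
  obtain ⟨t, ht⟩ : ∃ t, t = trivializationAt E₀ (TangentSpace 𝓘(ℝ, E₀) : M → Type _) x₀ := ⟨_, rfl⟩
  have hlin : t.IsLinear ℝ := by rw [ht]; infer_instance
  have hb₀ : x₀ ∈ t.baseSet := by
    rw [ht]; exact FiberBundle.mem_baseSet_trivializationAt' x₀
  have hbase : ∀ᶠ x in 𝓝 x₀, x ∈ t.baseSet := t.open_baseSet.mem_nhds hb₀
  have hA : ∀ x ∈ t.baseSet, ∀ v : E₀,
      (t.symmL ℝ x : E₀ → E₀) (dm E₀ (extChartAt 𝓘(ℝ, E₀) x₀) x v) = v := by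
    intro x hx v
    have hx' : x ∈ (chartAt E₀ x₀).source := by
      rwa [ht, TangentBundle.trivializationAt_baseSet] at hx
    have h1 : (trivializationAt E₀ (TangentSpace 𝓘(ℝ, E₀) : M → Type _) x₀).continuousLinearMapAt
        ℝ x v = dm E₀ (extChartAt 𝓘(ℝ, E₀) x₀) x v := by
      rw [TangentBundle.continuousLinearMapAt_trivializationAt hx']
      rfl
    rw [← h1]
    subst ht
    exact (trivializationAt E₀ (TangentSpace 𝓘(ℝ, E₀) : M → Type _)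
      x₀).symmL_continuousLinearMapAt hx v
  obtain ⟨⟨C, hC, h1⟩, -⟩ := local_all e he hinj e he x₀
  have hev := hx.eventually (hbase.and h1)
  set w : ℕ → E₀ := fun n => dm E₀ (extChartAt 𝓘(ℝ, E₀) x₀) (x n) (v n) with hw
  have hfr : ∃ᶠ n in atTop, w n ∈ Metric.closedBall (0 : E₀) (C * B) := by
    apply Filter.Eventually.frequently
    filter_upwards [hev] with n hn
    rw [mem_closedBall_zero_iff]
    exact ((hn.2 (v n)).1).trans (mul_le_mul_of_nonneg_left (hB n) hC.le)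
  obtain ⟨a, -, φ, hφ, hlim⟩ := (isCompact_closedBall (0 : E₀) (C * B)).tendsto_subseq' hfr
  refine ⟨t.symmL ℝ x₀ a, φ, hφ, ?_⟩
  have hcont : ContinuousAt (fun z : M × E₀ =>
      (⟨z.1, t.symmL ℝ z.1 z.2⟩ : TangentBundle 𝓘(ℝ, E₀) M)) (x₀, a) := by
    have h2 : ContinuousOn (fun z : M × E₀ =>
      (⟨z.1, t.symmL ℝ z.1 z.2⟩ : TangentBundle 𝓘(ℝ, E₀) M)) (t.baseSet ×ˢ univ) := by
      refine (t.continuousOn_symm).congr (fun z hz => ?_)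
      rw [t.symmL_apply hz.1]
    exact h2.continuousAt ((t.open_baseSet.prod isOpen_univ).mem_nhds ⟨hb₀, trivial⟩)
  have hl2 : Tendsto (fun n => (x (φ n), w (φ n))) atTop (𝓝 (x₀, a)) :=
    (hx.comp hφ.tendsto_atTop).prodMk_nhds hlim
  have h3 := hcont.tendsto.comp hl2
  refine h3.congr' ?_
  have hev2 := hφ.tendsto_atTop.eventually hev
  filter_upwards [hev2] with n hn
  show (⟨x (φ n), t.symmL ℝ (x (φ n)) (w (φ n))⟩ : TangentBundle 𝓘(ℝ, E₀) M) = _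
  rw [hw]
  have := hA (x (φ n)) hn.1 (v (φ n))
  exact congrArg (fun z => (⟨x (φ n), z⟩ : TangentBundle 𝓘(ℝ, E₀) M)) this

private theorem cj0m_phi {e : M → F} (he : ContMDiff 𝓘(ℝ, E₀) 𝓘(ℝ, F) 1 e) :
    Continuous (fun p : TangentBundle 𝓘(ℝ, E₀) M => dm E₀ e p.1 p.2) := by
  have h1 := he.continuous_tangentMap (le_refl 1)
  have h2 := (tangentBundleModelSpaceHomeomorph 𝓘(ℝ, F)).continuous.comp h1
  exact continuous_snd.comp h2

private theorem cj0m_closed {e : M → F} (he : ContMDiff 𝓘(ℝ, E₀) 𝓘(ℝ, F) 1 e)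
    (hinj : ∀ x, Function.Injective (dm E₀ e x))
    {f : M ≃ₜ M} {Es Eu : M → Submodule ℝ E₀} {C a b Ls Lu : ℝ}
    (h : EAnosov e f Es Eu C a b Ls Lu)
    {p : ℕ → TangentBundle 𝓘(ℝ, E₀) M} {q : TangentBundle 𝓘(ℝ, E₀) M}
    (hp : Tendsto p atTop (𝓝 q)) (hm : ∀ n, (p n).2 ∈ Eu (p n).1) : q.2 ∈ Eu q.1 := by
  have hφ := ((cj0m_phi he).tendsto q).comp hp
  have hx : Tendsto (fun n => (p n).1) atTop (𝓝 q.1) :=
    ((FiberBundle.continuous_proj E₀ (TangentSpace 𝓘(ℝ, E₀) : M → Type _)).tendsto q).comp hp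
  set V : Submodule ℝ F := (Eu q.1).map (dm E₀ e q.1).toLinearMap with hV
  have hVc : IsClosed (V : Set F) := Submodule.closed_of_finiteDimensional V
  have hmem : dm E₀ e q.1 q.2 ∈ (V : Set F) := by
    rw [← hVc.closure_eq, Metric.mem_closure_iff]
    intro ε hε
    set B := ‖dm E₀ e q.1 q.2‖ + 1 with hB
    have hB0 : 0 < B := by positivity
    obtain ⟨r, hr, h1⟩ := h.symm.contS he hinj (ε / (2 * B)) (by positivity)
    have e1 : ∀ᶠ n in atTop, dist (p n).1 q.1 < r := (Metric.tendsto_nhds.mp hx) r hr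
    have e2 : ∀ᶠ n in atTop, dist (dm E₀ e (p n).1 (p n).2) (dm E₀ e q.1 q.2) < min 1 (ε / 2) :=
      (Metric.tendsto_nhds.mp hφ) _ (lt_min one_pos (by positivity))
    obtain ⟨n, hn1, hn2⟩ := (e1.and e2).exists
    obtain ⟨u, hu, hu2⟩ := h1 _ _ hn1 _ (hm n)
    refine ⟨dm E₀ e q.1 u, ⟨u, hu, rfl⟩, ?_⟩
    have h3 : ‖dm E₀ e (p n).1 (p n).2‖ ≤ B := by
      have h4 := norm_sub_norm_le (dm E₀ e (p n).1 (p n).2) (dm E₀ e q.1 q.2)
      rw [← dist_eq_norm] at h4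
      have h5 := hn2.le.trans (min_le_left _ _)
      linarith
    have h4 : ε / (2 * B) * ‖dm E₀ e (p n).1 (p n).2‖ ≤ ε / 2 := by
      calc _ ≤ ε / (2 * B) * B := mul_le_mul_of_nonneg_left h3 (by positivity)
        _ = ε / 2 := by field_simp
    have h5 := hn2.trans_le (min_le_right _ _)
    rw [dist_comm] at h5
    have h6 := dist_triangle (dm E₀ e q.1 q.2) (dm E₀ e (p n).1 (p n).2) (dm E₀ e q.1 u)
    rw [dist_eq_norm (dm E₀ e (p n).1 (p n).2) (dm E₀ e q.1 u)] at h6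
    linarith
  obtain ⟨u, hu, hu2⟩ := hmem
  have := hinj q.1 hu2
  rw [← this]
  exact hu

private theorem cj0m_cont {e : M → F} (he : ContMDiff 𝓘(ℝ, E₀) 𝓘(ℝ, F) 1 e)
    (hinj : ∀ x, Function.Injective (dm E₀ e x))
    {f : M ≃ₜ M} {Es Eu : M → Submodule ℝ E₀} {C a b Ls Lu : ℝ}
    (h : EAnosov e f Es Eu C a b Ls Lu)
    (J : ∀ x : M, TangentSpace 𝓘(ℝ, E₀) x →ₗ[ℝ] TangentSpace 𝓘(ℝ, E₀) x)
    (hJ : InvComplexOn f Eu J) (η : ℝ) (hη : 0 < η) :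
    ∃ r > 0, ∀ x y, dist x y < r → ∀ v ∈ Eu x, ∀ w ∈ Eu y,
      ‖dm E₀ e x v - dm E₀ e y w‖ ≤ r * ‖dm E₀ e x v‖ →
      ‖dm E₀ e x (J x v) - dm E₀ e y (J y w)‖ ≤ η * ‖dm E₀ e x v‖ := by
  by_contra hcon
  push Not at hcon
  -- normalised violating sequences
  have hseq : ∀ n : ℕ, ∃ x y : M, ∃ v w : E₀, dist x y < 1 / ((n : ℝ) + 1) ∧ v ∈ Eu x ∧
      w ∈ Eu y ∧ ‖dm E₀ e x v‖ = 1 ∧ ‖dm E₀ e x v - dm E₀ e y w‖ ≤ 1 / ((n : ℝ) + 1) ∧
      η < ‖dm E₀ e x (J x v) - dm E₀ e y (J y w)‖ := by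
    intro n
    obtain ⟨x, y, hxy, v, hv, w, hw, h1, h2⟩ := hcon (1 / ((n : ℝ) + 1)) (by positivity)
    have hn0 : 0 < ‖dm E₀ e x v‖ := by
      rcases (norm_nonneg (dm E₀ e x v)).lt_or_eq with h3 | h3
      · exact h3
      · exfalso
        have h4 : dm E₀ e x v = 0 := norm_eq_zero.mp h3.symm
        have h5 : v = 0 := hinj x (by rw [h4, map_zero])
        rw [← h3, mul_zero, h4, zero_sub, norm_neg] at h1
        have h6 : dm E₀ e y w = 0 := norm_eq_zero.mp (le_antisymm h1 (norm_nonneg _))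
        have h7 : w = 0 := hinj y (by rw [h6, map_zero])
        subst h5
        subst h7
        have h8 : J x (0 : E₀) = 0 := map_zero (J x)
        have h9 : J y (0 : E₀) = 0 := map_zero (J y)
        rw [h8, h9] at h2
        have h10 : dm E₀ e x (0 : E₀) = 0 := map_zero _
        have h11 : dm E₀ e y (0 : E₀) = 0 := map_zero _
        erw [h10, h11] at h2
        simp at h2
    set c := ‖dm E₀ e x v‖⁻¹ with hc
    have hc0 : 0 < c := inv_pos.mpr hn0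
    refine ⟨x, y, c • v, c • w, hxy, Submodule.smul_mem _ _ hv, Submodule.smul_mem _ _ hw,
      ?_, ?_, ?_⟩
    · rw [map_smul, norm_smul, Real.norm_of_nonneg hc0.le, hc, inv_mul_cancel₀ hn0.ne']
    · rw [map_smul, map_smul, ← smul_sub, norm_smul, Real.norm_of_nonneg hc0.le, hc,
        inv_mul_le_iff₀ hn0]
      linarith
    · have h3 : J x (c • v : E₀) = c • J x v := map_smul (J x) c v
      have h4 : J y (c • w : E₀) = c • J y w := map_smul (J y) c w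
      have h5 : dm E₀ e x (c • J x v : E₀) = c • dm E₀ e x (J x v) := map_smul _ _ _
      have h6 : dm E₀ e y (c • J y w : E₀) = c • dm E₀ e y (J y w) := map_smul _ _ _
      rw [h3, h4]
      erw [h5, h6]
      rw [← smul_sub, norm_smul, Real.norm_of_nonneg hc0.le, hc, lt_inv_mul_iff₀ hn0]
      linarith
  choose x y v w hxy hv hw hv1 hvw hJJ using hseq
  obtain ⟨x₀, -, φ, hφ, hx⟩ := (isCompact_univ (X := M)).tendsto_subseq (fun n => mem_univ (x n))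
  obtain ⟨v₀, φ₁, hφ₁, hp⟩ := cj0m_cpt he hinj (v := v ∘ φ) (B := 1) hx
    (fun n => (hv1 (φ n)).le)
  have h0 : Tendsto (fun n : ℕ => 1 / ((n : ℝ) + 1)) atTop (𝓝 0) := tendsto_one_div_add_atTop_nhds_zero_nat
  have hy : Tendsto (fun n => y (φ (φ₁ n))) atTop (𝓝 x₀) := by
    have h1 : Tendsto (fun n => x (φ (φ₁ n))) atTop (𝓝 x₀) := hx.comp hφ₁.tendsto_atTop
    have h2 : Tendsto (fun n => dist (x (φ (φ₁ n))) (y (φ (φ₁ n)))) atTop (𝓝 0) := by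
      refine squeeze_zero (fun n => dist_nonneg) (fun n => (hxy _).le)
        ((h0.comp (hφ.comp hφ₁).tendsto_atTop))
    exact (tendsto_iff_of_dist h2).mp h1
  obtain ⟨w₀, φ₂, hφ₂, hq⟩ := cj0m_cpt he hinj (x := fun n => y (φ (φ₁ n)))
    (v := fun n => w (φ (φ₁ n))) (B := 2) hy (fun n => by
      have h1 := hvw (φ (φ₁ n))
      have h2 := hv1 (φ (φ₁ n))
      have h3 : (1 : ℝ) / (((φ (φ₁ n) : ℕ) : ℝ) + 1) ≤ 1 := by
        rw [div_le_one (by positivity)]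
        have : (0 : ℝ) ≤ ((φ (φ₁ n) : ℕ) : ℝ) := by positivity
        linarith
      have h4 := norm_sub_norm_le (dm E₀ e (y (φ (φ₁ n))) (w (φ (φ₁ n))))
        (dm E₀ e (x (φ (φ₁ n))) (v (φ (φ₁ n))))
      rw [norm_sub_rev] at h4
      linarith)
  have hp' := hp.comp hφ₂.tendsto_atTop
  -- the index sequence
  set ψ : ℕ → ℕ := fun n => φ (φ₁ (φ₂ n)) with hψ
  have hψm : StrictMono ψ := (hφ.comp hφ₁).comp hφ₂
  have hp2 : Tendsto (fun n => (⟨x (ψ n), v (ψ n)⟩ : TangentBundle 𝓘(ℝ, E₀) M)) atTop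
      (𝓝 ⟨x₀, v₀⟩) := hp'
  have hq2 : Tendsto (fun n => (⟨y (ψ n), w (ψ n)⟩ : TangentBundle 𝓘(ℝ, E₀) M)) atTop
      (𝓝 ⟨x₀, w₀⟩) := hq
  have hΦ := cj0m_phi (E₀ := E₀) he
  have t1 := (hΦ.tendsto _).comp hp2
  have t2 := (hΦ.tendsto _).comp hq2
  have t3 : Tendsto (fun n => dm E₀ e (x (ψ n)) (v (ψ n)) - dm E₀ e (y (ψ n)) (w (ψ n))) atTop
      (𝓝 0) := by
    refine squeeze_zero_norm (fun n => hvw (ψ n)) (h0.comp hψm.tendsto_atTop)
  have hvw0 : v₀ = w₀ := by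
    have t4 := t1.sub t2
    have t5 := tendsto_nhds_unique t4 t3
    exact hinj x₀ (sub_eq_zero.mp t5)
  subst hvw0
  have hmem : v₀ ∈ Eu x₀ := cj0m_closed he hinj h hp2 (fun n => hv _)
  have hJc := hJ.continuousOn (⟨x₀, v₀⟩ : TangentBundle 𝓘(ℝ, E₀) M) hmem
  have j1 := hJc.tendsto.comp (tendsto_nhdsWithin_iff.mpr ⟨hp2, Eventually.of_forall fun n => hv _⟩)
  have j2 := hJc.tendsto.comp (tendsto_nhdsWithin_iff.mpr ⟨hq2, Eventually.of_forall fun n => hw _⟩)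
  have k1 := (hΦ.tendsto _).comp j1
  have k2 := (hΦ.tendsto _).comp j2
  have k3 := (k1.sub k2).norm
  rw [sub_self, norm_zero] at k3
  have k4 := (tendsto_order.mp k3).2 η hη
  obtain ⟨n, hn⟩ := k4.exists
  exact absurd hn (not_lt.mpr (hJJ (ψ n)).le)

private theorem cj0m_iter {f : M ≃ₜ M} {Es Eu : M → Submodule ℝ E₀} {e : M → F}
    {C a b Ls Lu : ℝ} (h : EAnosov e f Es Eu C a b Ls Lu)
    (J : M → E₀ →ₗ[ℝ] E₀)
    (hJ : ∀ x, ∀ v ∈ Eu x, dg E₀ f x (J x v) = J (f x) (dg E₀ f x v))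
    (n : ℕ) (x : M) (v : E₀) (hv : v ∈ Eu x) :
    dg E₀ (f^[n]) x (J x v) = J (f^[n] x) (dg E₀ (f^[n]) x v) := by
  induction n with
  | zero =>
    have h1 : ∀ u : E₀, dg E₀ (f^[0]) x u = u := by
      intro u
      show mfderiv 𝓘(ℝ, E₀) 𝓘(ℝ, E₀) id x u = u
      rw [mfderiv_id]; rfl
    rw [h1, h1]
    rfl
  | succ n ih =>
    rw [Function.iterate_succ']
    rw [dg_comp _ _ (iter_smooth f h.smooth n) h.smooth, ih,
      dg_comp _ _ (iter_smooth f h.smooth n) h.smooth]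
    exact hJ _ _ (h.mapU n x v hv)

end aux

variable {E₀ : Type*} [NormedAddCommGroup E₀] [NormedSpace ℝ E₀] [FiniteDimensional ℝ E₀]
  {M : Type*} [MetricSpace M] [CompactSpace M] [ChartedSpace E₀ M] [IsManifold 𝓘(ℝ, E₀) ∞ M]
  {F : Type*} [NormedAddCommGroup F] [NormedSpace ℝ F]

/-- G4 -/
theorem cj0_of_realizes {e : M → F} (hiso : ∀ x y, dist x y = ‖e x - e y‖)
    (he : ContMDiff 𝓘(ℝ, E₀) 𝓘(ℝ, F) 1 e) (hinj : ∀ x, Function.Injective (dm E₀ e x))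
    {f : M ≃ₜ M} {Es Eu : M → Submodule ℝ E₀} {C a b Ls Lu : ℝ}
    (h : EAnosov e f Es Eu C a b Ls Lu)
    (J : ∀ x : M, TangentSpace 𝓘(ℝ, E₀) x →ₗ[ℝ] TangentSpace 𝓘(ℝ, E₀) x)
    (hJ : InvComplexOn f Eu J) {S : HypSys M F} {N : ℕ}
    (hS : Realizes S e f Es Eu N) : Nonempty (CJ0 S) := by
  have hleft : ∀ x, ∃ L : F →ₗ[ℝ] E₀, ∀ v, L (dm E₀ e x v) = v := by
    intro x
    obtain ⟨L, hL⟩ := LinearMap.exists_leftInverse_of_injective (dm E₀ e x).toLinearMap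
      (LinearMap.ker_eq_bot.mpr (hinj x))
    exact ⟨L, fun v => LinearMap.congr_fun hL v⟩
  choose L hL using hleft
  let J₀ : M → E₀ →ₗ[ℝ] E₀ := fun x => J x
  let J' : M → F →ₗ[ℝ] F := fun x => (dm E₀ e x).toLinearMap ∘ₗ J₀ x ∘ₗ L x
  have hJ' : ∀ x v, J' x (dm E₀ e x v) = dm E₀ e x (J₀ x v) := by
    intro x v
    show dm E₀ e x (J₀ x (L x (dm E₀ e x v))) = _
    rw [hL]
  have hmem : ∀ x w, w ∈ S.Vu x ↔ ∃ v ∈ Eu x, dm E₀ e x v = w := by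
    intro x w
    rw [hS.Vu_eq]
    exact Iff.rfl
  refine ⟨⟨J', ?_, ?_, ?_, ?_⟩⟩
  · intro x w hw
    rw [hmem] at hw ⊢
    obtain ⟨v, hv, rfl⟩ := hw
    exact ⟨J₀ x v, hJ.mem x v hv, (hJ' x v).symm⟩
  · intro x w hw
    rw [hmem] at hw
    obtain ⟨v, hv, rfl⟩ := hw
    rw [hJ', hJ', ← map_neg]
    exact congrArg (dm E₀ e x) (hJ.sq x v hv)
  · intro x w hw
    rw [hmem] at hw
    obtain ⟨v, hv, rfl⟩ := hw
    have hg : S.g x = f^[N] x := by rw [hS.g_eq]; rfl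
    rw [hJ', hS.D_eq, hS.D_eq, hg, hJ']
    exact congrArg (dm E₀ e (f^[N] x)) (cj0m_iter h J₀ (fun x v hv => hJ.comm x v hv) N x v hv)
  · intro η hη
    obtain ⟨r, hr, h1⟩ := cj0m_cont he hinj h J hJ η hη
    refine ⟨r, hr, ?_⟩
    intro x y hxy v hv w hw hvw
    rw [hmem] at hv hw
    obtain ⟨v, hv, rfl⟩ := hv
    obtain ⟨w, hw, rfl⟩ := hw
    rw [hJ', hJ']
    exact h1 x y hxy v hv w hw hvw

/-- G4b -/
theorem invComplexOn_symm {e : M → F} {f : M ≃ₜ M} {Es Eu : M → Submodule ℝ E₀}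
    {C a b Ls Lu : ℝ} (h : EAnosov e f Es Eu C a b Ls Lu)
    {J : ∀ x : M, TangentSpace 𝓘(ℝ, E₀) x →ₗ[ℝ] TangentSpace 𝓘(ℝ, E₀) x}
    (hJ : InvComplexOn f Es J) : InvComplexOn f.symm Es J := by
  refine ⟨hJ.continuousOn, hJ.mem, hJ.sq, ?_⟩
  have key : ∀ (J₀ : M → E₀ →ₗ[ℝ] E₀),
      (∀ x, ∀ v ∈ Es x, dg E₀ f x (J₀ x v) = J₀ (f x) (dg E₀ f x v)) →
      ∀ x, ∀ v ∈ Es x, dg E₀ f.symm x (J₀ x v) = J₀ (f.symm x) (dg E₀ f.symm x v) := by
    intro J₀ hc x v hv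
    have h1 : dg E₀ f (f.symm x) (dg E₀ f.symm x v) = v :=
      dg_inv f.symm f h.smooth' h.smooth (fun x => f.apply_symm_apply x) x v
    have h2 : ∀ (z : M) (u : E₀), dg E₀ f.symm (f z) (dg E₀ f z u) = u := fun z u =>
      dg_inv f f.symm h.smooth h.smooth' (fun x => f.symm_apply_apply x) z u
    have h3 := hc (f.symm x) (dg E₀ f.symm x v) (h.mapS' 1 x v hv)
    have h4 := h2 (f.symm x) (J₀ (f.symm x) (dg E₀ f.symm x v))
    rw [h3, h1, f.apply_symm_apply] at h4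
    exact h4
  exact key J (fun x v hv => hJ.comm x v hv)

end Pool.Agent.H779R2.An
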