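import Pool.Agent.H779R2.An.DefsB
import Pool.Agent.H789R2.AN.Man

set_option autoImplicit false
set_option linter.unusedSectionVars false

open scoped Manifold ContDiff Topology Bundle
open Set Filter Bundle

namespace Pool.Agent.H779R2.An

open Pool.Agent.H721R2 Pool.Agent.H789R2.AN

section

variable {E : Type*} [NormedAddCommGroup E] [NormedSpace ℝ E]
  {M : Type*} [TopologicalSpace M] [ChartedSpace E M]

/-- `J` is a continuous almost complex structure on `M` preserved by `f` (for instance, the complex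
structure of a complex manifold, when `f` is holomorphic). -/
structure PreservesAC [IsManifold 𝓘(ℝ, E) 1 M] (f : M → M)
    (J : ∀ x : M, TangentSpace 𝓘(ℝ, E) x →ₗ[ℝ] TangentSpace 𝓘(ℝ, E) x) : Prop where
  continuous : Continuous (fun p : TangentBundle 𝓘(ℝ, E) M =>
    (⟨p.1, J p.1 p.2⟩ : TangentBundle 𝓘(ℝ, E) M))
  sq : ∀ x v, J x (J x v) = -v
  comm : ∀ x v, mfderiv 𝓘(ℝ, E) 𝓘(ℝ, E) f x (J x v) =
    J (f x) (mfderiv 𝓘(ℝ, E) 𝓘(ℝ, E) f x v)

end

section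

variable {E₀ : Type*} [NormedAddCommGroup E₀] [NormedSpace ℝ E₀] [FiniteDimensional ℝ E₀]
  {M : Type*} [MetricSpace M] [CompactSpace M] [ChartedSpace E₀ M] [IsManifold 𝓘(ℝ, E₀) 1 M]
  {F : Type*} [NormedAddCommGroup F] [NormedSpace ℝ F]

/-- The twisted norm `v ↦ N (J v)` is a tangent norm. -/
theorem twist_norm {N : TangentBundle 𝓘(ℝ, E₀) M → ℝ} (hN : IsTangentNorm N) {f : M → M}
    {J : ∀ x : M, TangentSpace 𝓘(ℝ, E₀) x →ₗ[ℝ] TangentSpace 𝓘(ℝ, E₀) x}
    (h : PreservesAC f J) : IsTangentNorm (fun p : TangentBundle 𝓘(ℝ, E₀) M =>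
      N (⟨p.1, J p.1 p.2⟩ : TangentBundle 𝓘(ℝ, E₀) M)) where
  continuous := hN.continuous.comp h.continuous
  pos := fun x v hv => by
    refine hN.pos x _ (fun h0 => hv ?_)
    have h1 := h.sq x v
    have h0' : J x v = 0 := h0
    rw [h0', map_zero] at h1
    exact neg_eq_zero.mp h1.symm
  smul := fun x c v => by
    change N ⟨x, J x (c • v)⟩ = |c| * N ⟨x, J x v⟩
    rw [map_smul]
    exact hN.smul x c _
  add := fun x v w => by
    change N ⟨x, J x (v + w)⟩ ≤ N ⟨x, J x v⟩ + N ⟨x, J x w⟩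
    rw [map_add]
    exact hN.add x _ _

/-- `J` is uniformly bounded in the ambient norm. -/
theorem ac_bound {N : TangentBundle 𝓘(ℝ, E₀) M → ℝ} (hN : IsTangentNorm N) {f : M → M}
    {J : ∀ x : M, TangentSpace 𝓘(ℝ, E₀) x →ₗ[ℝ] TangentSpace 𝓘(ℝ, E₀) x}
    (h : PreservesAC f J) (e : M → F) (he : ContMDiff 𝓘(ℝ, E₀) 𝓘(ℝ, F) 1 e)
    (hinj : ∀ x, Function.Injective (dm E₀ e x)) :
    ∃ R > 0, ∀ (x : M) (v : E₀), ‖dm E₀ e x (J x v)‖ ≤ R * ‖dm E₀ e x v‖ := by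
  obtain ⟨R, hR, h1⟩ := tnm_compare hN e he hinj
  obtain ⟨R', hR', h2⟩ := tnm_compare (twist_norm hN h) e he hinj
  refine ⟨R * R', by positivity, fun x v => ?_⟩
  have h3 := (h1 x (J x v)).1
  have h4 := (h2 x v).2
  have h5 : tnm N x (J x v) = tnm (fun p : TangentBundle 𝓘(ℝ, E₀) M =>
      N (⟨p.1, J p.1 p.2⟩ : TangentBundle 𝓘(ℝ, E₀) M)) x v := rfl
  rw [h5] at h3
  calc _ ≤ R * tnm (fun p : TangentBundle 𝓘(ℝ, E₀) M =>
        N (⟨p.1, J p.1 p.2⟩ : TangentBundle 𝓘(ℝ, E₀) M)) x v := h3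
    _ ≤ R * (R' * ‖dm E₀ e x v‖) := mul_le_mul_of_nonneg_left h4 hR.le
    _ = _ := by ring

/-- `J` commutes with iterates. -/
theorem ac_iter {f : M → M} (hf : ContMDiff 𝓘(ℝ, E₀) 𝓘(ℝ, E₀) 1 f)
    {J : ∀ x : M, TangentSpace 𝓘(ℝ, E₀) x →ₗ[ℝ] TangentSpace 𝓘(ℝ, E₀) x}
    (h : ∀ (x : M) (v : E₀), dg E₀ f x (J x v) = J (f x) (dg E₀ f x v)) (n : ℕ) :
    ∀ (x : M) (v : E₀), dg E₀ (f^[n]) x (J x v) = J (f^[n] x) (dg E₀ (f^[n]) x v) := by
  induction n with
  | zero =>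
    intro x v
    have h0 : ∀ w : E₀, dg E₀ (f^[0]) x w = w := by
      intro w
      show mfderiv 𝓘(ℝ, E₀) 𝓘(ℝ, E₀) id x w = w
      rw [mfderiv_id]; rfl
    rw [h0, h0]; rfl
  | succ n ih =>
    intro x v
    rw [Function.iterate_succ, dg_comp _ _ hf (iter_smooth f hf n),
      dg_comp _ _ hf (iter_smooth f hf n)]
    have h1 := ih (f x) (dg E₀ f x v)
    rw [← h x v] at h1
    exact h1

theorem ac_unstable {e : M → F} (hinj : ∀ x, Function.Injective (dm E₀ e x)) {f : M ≃ₜ M}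
    {Es Eu : M → Submodule ℝ E₀} {C a b Ls Lu : ℝ} (hE : EAnosov e f Es Eu C a b Ls Lu)
    {J : ∀ x : M, TangentSpace 𝓘(ℝ, E₀) x →ₗ[ℝ] TangentSpace 𝓘(ℝ, E₀) x} {R : ℝ} (hR : 0 < R)
    (hJ : ∀ (x : M) (v : E₀), ‖dm E₀ e x (J x v)‖ ≤ R * ‖dm E₀ e x v‖)
    (hc : ∀ (x : M) (v : E₀), dg E₀ f.symm x (J x v) = J (f.symm x) (dg E₀ f.symm x v)) :
    ∀ x, ∀ v ∈ Eu x, (J x v : E₀) ∈ Eu x := by
  intro x v hv
  obtain ⟨s, hs, u, hu, hsu⟩ := hE.decomp x (J x v)
  have hC : (0 : ℝ) ≤ C := by linarith [hE.C_pos]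
  have key : ∀ n : ℕ, ‖dm E₀ e x s‖ ≤
      C * a ^ n * (R * (C * b ^ n * ‖dm E₀ e x v‖) + C * b ^ n * ‖dm E₀ e x u‖) := by
    intro n
    have h1 : ‖dm E₀ e x s‖ ≤
        C * a ^ n * ‖dm E₀ e (f.symm^[n] x) (dg E₀ (f.symm^[n]) x s)‖ := by
      have h2 := hE.hS n (f.symm^[n] x) _ (hE.mapS' n x s hs)
      have h3 := dg_inv (f.symm^[n]) (f^[n]) (iter_smooth _ hE.smooth' n)
        (iter_smooth _ hE.smooth n) (fun x => iter_right f n x) x s
      rw [h3, iter_right] at h2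
      exact h2
    have h4 : dg E₀ (f.symm^[n]) x s =
        @id E₀ (J (f.symm^[n] x) (dg E₀ (f.symm^[n]) x v)) - dg E₀ (f.symm^[n]) x u := by
      have h5 := ac_iter hE.smooth' hc n x v
      have h6 : s = @id E₀ (J x v) - u := by
        have h7 : s + u = @id E₀ (J x v) := hsu
        rw [← h7]; abel
      rw [h6, map_sub]
      exact congrArg (· - dg E₀ (f.symm^[n]) x u) h5
    have h7 := hJ (f.symm^[n] x) (dg E₀ (f.symm^[n]) x v)
    have h8 := hE.hU' n x v hv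
    have h9 := hE.hU' n x u hu
    refine h1.trans (mul_le_mul_of_nonneg_left ?_ (by
      have := hE.a_pos; positivity))
    rw [h4, map_sub]
    refine (norm_sub_le _ _).trans (add_le_add (h7.trans ?_) h9)
    exact mul_le_mul_of_nonneg_left h8 hR.le
  have hlim : Tendsto (fun n : ℕ => C * a ^ n * (R * (C * b ^ n * ‖dm E₀ e x v‖) +
      C * b ^ n * ‖dm E₀ e x u‖)) atTop (𝓝 0) := by
    have ha := tendsto_pow_atTop_nhds_zero_of_lt_one hE.a_pos.le hE.a_lt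
    have hb := tendsto_pow_atTop_nhds_zero_of_lt_one hE.b_pos.le hE.b_lt
    have := (ha.const_mul C).mul ((((hb.const_mul C).mul_const ‖dm E₀ e x v‖).const_mul R).add
      ((hb.const_mul C).mul_const ‖dm E₀ e x u‖))
    simpa using this
  have h0 : ‖dm E₀ e x s‖ ≤ 0 := ge_of_tendsto' hlim key
  have h1 : dm E₀ e x s = 0 := norm_le_zero_iff.mp h0
  have h2 : s = 0 := (hinj x) (by rw [h1, map_zero])
  rw [← hsu, h2, zero_add]
  exact hu

end

section

variable {E : Type*} [NormedAddCommGroup E] [NormedSpace ℝ E] [FiniteDimensional ℝ E]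
  {M : Type*} [TopologicalSpace M] [T2Space M] [CompactSpace M]
  [ChartedSpace E M] [IsManifold 𝓘(ℝ, E) ∞ M]

/-- The stable and unstable bundles of an Anosov diffeomorphism which preserves a continuous almost
complex structure are complex subbundles. -/
theorem PreservesAC.invComplexOn {f : Diffeomorph 𝓘(ℝ, E) 𝓘(ℝ, E) M M 1}
    {Es Eu : ∀ x : M, Submodule ℝ (TangentSpace 𝓘(ℝ, E) x)} (hA : IsAnosov f Es Eu)
    {J : ∀ x : M, TangentSpace 𝓘(ℝ, E) x →ₗ[ℝ] TangentSpace 𝓘(ℝ, E) x}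
    (h : PreservesAC f J) : InvComplexOn f Es J ∧ InvComplexOn f Eu J := by
  obtain ⟨m, e, he, hemb, hinj⟩ := exists_embedding_euclidean_of_compact (I := 𝓘(ℝ, E)) (M := M)
  let _ : MetricSpace M := hemb.isEmbedding.comapMetricSpace e
  have he1 : ContMDiff 𝓘(ℝ, E) (𝓡 m) 1 e := he.of_le (by simp)
  obtain ⟨C', a, b, Ls, Lu, hE⟩ := eanosov_of_isAnosov e he1 hinj f Es Eu hA
  obtain ⟨N, C, l, hN, -⟩ := hA.rates
  obtain ⟨R, hR, hJ⟩ := ac_bound hN h e he1 hinj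
  have hc : ∀ (x : M) (v : E), dg E f x (J x v) = J (f x) (dg E f x v) := h.comm
  have hc' : ∀ (x : M) (v : E), dg E f.toHomeomorph.symm x (J x v) =
      J (f.toHomeomorph.symm x) (dg E f.toHomeomorph.symm x v) := by
    intro x v
    have h1 : ∀ (y : M) (w : E), dg E f.toHomeomorph.symm (f y) (dg E f y w) = w :=
      dg_inv f f.toHomeomorph.symm hE.smooth hE.smooth' (fun x => f.toHomeomorph.symm_apply_apply x)
    have h2 : ∀ (y : M) (w : E), dg E f (f.toHomeomorph.symm y)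
        (dg E f.toHomeomorph.symm y w) = w :=
      dg_inv f.toHomeomorph.symm f hE.smooth' hE.smooth
        (fun x => f.toHomeomorph.apply_symm_apply x)
    obtain ⟨y, rfl⟩ : ∃ y, f y = x := ⟨f.toHomeomorph.symm x, f.toHomeomorph.apply_symm_apply x⟩
    obtain ⟨w, rfl⟩ : ∃ w, dg E f y w = v := by
      refine ⟨dg E f.toHomeomorph.symm (f y) v, ?_⟩
      have h3 := h2 (f y) v
      have h4 : f.toHomeomorph.symm (f y) = y := f.toHomeomorph.symm_apply_apply y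
      rw [h4] at h3
      exact h3
    have h4 : f.toHomeomorph.symm (f y) = y := f.toHomeomorph.symm_apply_apply y
    have h5 := h1 y (J y w)
    have h6 : dg E f y (J y w) = J (f y) (dg E f y w) := hc y w
    rw [h6] at h5
    refine h5.trans ?_
    rw [h1 y w]
    clear h5 h6
    revert h4
    generalize f.toHomeomorph.symm (f y) = y'
    rintro rfl
    rfl
  have hU := ac_unstable hinj hE hR hJ hc'
  have hS := ac_unstable hinj hE.symm hR hJ hc
  exact ⟨⟨h.continuous.continuousOn, hS, fun x v _ => h.sq x v, fun x v _ => h.comm x v⟩,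
    ⟨h.continuous.continuousOn, hU, fun x v _ => h.sq x v, fun x v _ => h.comm x v⟩⟩

end

end Pool.Agent.H779R2.An
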