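import Pool.Agent.H779R2.An.CMain
import Pool.Agent.H779R2.An.AC

set_option autoImplicit false
set_option linter.unusedSectionVars false

open scoped Manifold ContDiff Topology Bundle
open Set Filter Bundle

namespace Pool.Agent.H779R2.An

open Pool.Agent.H721R2 Pool.Agent.H789R2.AN

/-- Theorem C, for the usual definition of an Anosov diffeomorphism. -/
theorem main_resultC (E : Type*) [NormedAddCommGroup E] [NormedSpace ℝ E] [FiniteDimensional ℝ E]
    (M : Type*) [TopologicalSpace M] [T2Space M] [CompactSpace M] [ConnectedSpace M]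
    [ChartedSpace E M] [IsManifold 𝓘(ℝ, E) ∞ M] (f : Diffeomorph 𝓘(ℝ, E) 𝓘(ℝ, E) M M 1)
    (hf2 : ContMDiff 𝓘(ℝ, E) 𝓘(ℝ, E) 2 f) (hf2' : ContMDiff 𝓘(ℝ, E) 𝓘(ℝ, E) 2 f.symm)
    (Es Eu : ∀ x : M, Submodule ℝ (TangentSpace 𝓘(ℝ, E) x)) (hA : IsAnosov f Es Eu)
    (ds du : ℕ) (hds : ∀ x, Module.finrank ℝ (Es x) = ds)
    (hdu : ∀ x, Module.finrank ℝ (Eu x) = du)
    (hJ : (du = 2 ∧ 2 ≤ ds ∧ ∃ J, InvComplexOn f Eu J) ∨
      (ds = 2 ∧ 2 ≤ du ∧ ∃ J, InvComplexOn f Es J)) :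
    TopTransitive f := by
  obtain ⟨m, e, he, hemb, hinj⟩ := exists_embedding_euclidean_of_compact (I := 𝓘(ℝ, E)) (M := M)
  let _ : MetricSpace M := hemb.isEmbedding.comapMetricSpace e
  have hiso : ∀ x y : M, dist x y = ‖e x - e y‖ := fun x y => dist_eq_norm (e x) (e y)
  have he1 : ContMDiff 𝓘(ℝ, E) (𝓡 m) 1 e := he.of_le (by simp)
  have he2 : ContMDiff 𝓘(ℝ, E) (𝓡 m) 2 e := he.of_le (by
    exact_mod_cast (ENat.LEInfty.out : (2 : WithTop ℕ∞) ≤ ∞))
  obtain ⟨C', a, b, Ls, Lu, hE⟩ := eanosov_of_isAnosov e he1 hinj f Es Eu hA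
  obtain ⟨K, hK, hang⟩ := hE.angle he1 hinj
  have t1 : Tendsto (fun n : ℕ => K * (C' * a ^ n)) atTop (𝓝 0) := by
    have := ((tendsto_pow_atTop_nhds_zero_of_lt_one hE.a_pos.le hE.a_lt).const_mul C').const_mul K
    simpa using this
  have t2 : Tendsto (fun n : ℕ => K * (C' * b ^ n)) atTop (𝓝 0) := by
    have := ((tendsto_pow_atTop_nhds_zero_of_lt_one hE.b_pos.le hE.b_lt).const_mul C').const_mul K
    simpa using this
  obtain ⟨n, hn1, hn2⟩ := (((tendsto_order.mp t1).2 (1 / 16) (by norm_num)).and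
    ((tendsto_order.mp t2).2 (1 / 16) (by norm_num))).exists
  obtain ⟨S, hS⟩ := exists_realizes hiso he1 hinj hE K hK hang n hn1.le hn2.le
  obtain ⟨Q, r, hQ⟩ := quad_of_realizes hiso he2 hinj hE hf2 hf2' hS
  have hfin : ∀ (x : M) (V : Submodule ℝ E),
      Module.finrank ℝ (V.map (dm E e x).toLinearMap) = Module.finrank ℝ V := fun x V =>
    (LinearEquiv.finrank_eq (Submodule.equivMapOfInjective (dm E e x).toLinearMap (hinj x) V)).symm
  have hfs : ∀ x, Module.finrank ℝ (S.Vs x) = ds := fun x => by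
    rw [hS.Vs_eq, hfin]; exact hds x
  have hfu : ∀ x, Module.finrank ℝ (S.Vu x) = du := fun x => by
    rw [hS.Vu_eq, hfin]; exact hdu x
  have hgn : ∀ (k : ℕ) (x : M), (S.g^[k]) x = f^[n * k] x := by
    intro k x
    rw [hS.g_eq, Function.iterate_mul]
    rfl
  intro U V hU hUn hV hVn
  rcases hJ with ⟨h2, hle, J, hJ⟩ | ⟨h2, hle, J, hJ⟩
  · obtain ⟨J₀⟩ := cj0_of_realizes hiso he1 hinj hE J hJ hS
    obtain ⟨k, hk⟩ := abstract_main2 S hQ J₀ ds hle (fun x => by rw [hfu, h2]) hfs U V hU hUn hV hVn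
    refine ⟨n * k, ?_⟩
    have : (S.g^[k]) = (f^[n * k]) := funext (hgn k)
    rwa [this] at hk
  · obtain ⟨J₀⟩ := cj0_of_realizes hiso he1 hinj hE.symm J (invComplexOn_symm hE hJ) hS.symm
    obtain ⟨k, hk⟩ := abstract_main2 S.symm hQ.symm J₀ du hle
      (fun x => (hfs x).trans h2) hfu V U hV hVn hU hUn
    refine ⟨n * k, ?_⟩
    obtain ⟨y, ⟨x, hx, hxy⟩, hy⟩ := hk
    refine ⟨x, ⟨y, hy, ?_⟩, hx⟩
    rw [← hgn, ← hxy]
    exact iter_iter_symm S k x

/-- A nonzero real vector space with a complex structure has dimension at least two. -/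
theorem two_le_finrank_of_sq {V : Type*} [AddCommGroup V] [Module ℝ V] [FiniteDimensional ℝ V]
    (W : Submodule ℝ V) (J : V →ₗ[ℝ] V) (h1 : ∀ v ∈ W, J v ∈ W) (h2 : ∀ v ∈ W, J (J v) = -v)
    (h : 1 ≤ Module.finrank ℝ W) : 2 ≤ Module.finrank ℝ W := by
  by_contra hcon
  have h3 : Module.finrank ℝ W = 1 := by omega
  obtain ⟨w, hw, hspan⟩ := finrank_eq_one_iff'.mp h3
  obtain ⟨c, hc⟩ := hspan ⟨J w, h1 _ w.2⟩
  have hc' : c • (w : V) = J w := congrArg Subtype.val hc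
  have h4 := h2 w w.2
  rw [← hc', map_smul, ← hc', smul_smul] at h4
  have h5 : (c * c + 1) • (w : V) = 0 := by
    rw [add_smul, one_smul, h4, neg_add_cancel]
  have h6 : (w : V) ≠ 0 := fun h => hw (Subtype.ext h)
  rcases smul_eq_zero.mp h5 with h7 | h7
  · nlinarith [mul_self_nonneg c]
  · exact h6 h7

end Pool.Agent.H779R2.An
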