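import Pool.Agent.H779R2.An.CDefs
import Pool.Agent.H779R2.An.CJE

set_option autoImplicit false

namespace Pool.Agent.H779R2.An

open Pool.Agent.H721R2 Filter Topology MeasureTheory
open scoped BigOperators

variable {X E : Type*} [MetricSpace X] [CompactSpace X] [NormedAddCommGroup E]
  [InnerProductSpace ℝ E] [FiniteDimensional ℝ E]

/-- the adapted norm of `a v + b J v` -/
theorem CQC.norm_sq {S : HypSys X E} (J₀ : CJ0 S) (x : X) {v : E} (hv : v ∈ S.Vu x) (a b : ℝ) :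
    ‖a • v + b • J₀.J x v‖ ^ 2 + ‖J₀.J x (a • v + b • J₀.J x v)‖ ^ 2 =
      (a ^ 2 + b ^ 2) * (‖v‖ ^ 2 + ‖J₀.J x v‖ ^ 2) := by
  rw [map_add, map_smul, map_smul, J₀.J_sq x v hv]
  have h1 : ‖a • v + b • J₀.J x v‖ ^ 2 = a ^ 2 * ‖v‖ ^ 2 +
      2 * (a * (b * inner ℝ v (J₀.J x v))) + b ^ 2 * ‖J₀.J x v‖ ^ 2 := by
    rw [norm_add_sq_real, norm_smul, norm_smul, real_inner_smul_left, real_inner_smul_right,
      mul_pow, mul_pow, Real.norm_eq_abs, Real.norm_eq_abs, sq_abs, sq_abs]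
  have h2 : ‖a • J₀.J x v + b • (-v)‖ ^ 2 = a ^ 2 * ‖J₀.J x v‖ ^ 2 -
      2 * (a * (b * inner ℝ v (J₀.J x v))) + b ^ 2 * ‖v‖ ^ 2 := by
    rw [norm_add_sq_real, norm_smul, norm_smul, real_inner_smul_left, real_inner_smul_right,
      inner_neg_right, norm_neg, real_inner_comm v (J₀.J x v),
      mul_pow, mul_pow, Real.norm_eq_abs, Real.norm_eq_abs, sq_abs, sq_abs]
    ring
  rw [h1, h2]
  ring

/-- every vector is a complex multiple of a nonzero one -/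
theorem CQC.span {S : HypSys X E} (J₀ : CJ0 S) (x : X) (h2 : Module.finrank ℝ (S.Vu x) = 2)
    {v w : E} (hv : v ∈ S.Vu x) (hw : w ∈ S.Vu x) (h0 : v ≠ 0) :
    ∃ a b : ℝ, w = a • v + b • J₀.J x v := by
  have hli : LinearIndependent ℝ ![(⟨v, hv⟩ : S.Vu x), ⟨J₀.J x v, J₀.J_mem x v hv⟩] := by
    rw [LinearIndependent.pair_iff]
    intro a b hab
    have hab' : a • v + b • J₀.J x v = 0 := congrArg Subtype.val hab
    have h3 := CQC.norm_sq J₀ x hv a b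
    rw [hab', map_zero, norm_zero] at h3
    have h4 : 0 < ‖v‖ ^ 2 + ‖J₀.J x v‖ ^ 2 := by
      have := norm_pos_iff.mpr h0
      positivity
    have h5 : a ^ 2 + b ^ 2 = 0 := by
      have h6 : (a ^ 2 + b ^ 2) * (‖v‖ ^ 2 + ‖J₀.J x v‖ ^ 2) = 0 := by
        rw [← h3]; norm_num
      rcases mul_eq_zero.mp h6 with h | h
      · exact h
      · exact absurd h h4.ne'
    constructor
    · nlinarith [sq_nonneg a, sq_nonneg b]
    · nlinarith [sq_nonneg a, sq_nonneg b]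
  have htop := hli.span_eq_top_of_card_eq_finrank (by rw [Fintype.card_fin, h2])
  have hmem : (⟨w, hw⟩ : S.Vu x) ∈ Submodule.span ℝ
      (Set.range ![(⟨v, hv⟩ : S.Vu x), ⟨J₀.J x v, J₀.J_mem x v hv⟩]) := by
    rw [htop]; exact Submodule.mem_top
  rw [Matrix.range_cons, Matrix.range_cons, Matrix.range_empty, Set.union_empty,
    Set.singleton_union, Submodule.mem_span_pair] at hmem
  obtain ⟨a, b, hab⟩ := hmem
  exact ⟨a, b, (congrArg Subtype.val hab).symm⟩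

/-- K1 -/
theorem qc_of_cj0 {S : HypSys X E} (J₀ : CJ0 S) (h2 : ∀ x, Module.finrank ℝ (S.Vu x) = 2) :
    ∃ K, QC S K := by
  obtain ⟨C, hC, hJ⟩ := J₀.exists_bound
  refine ⟨1 + C ^ 2, ?_⟩
  intro n x v hv w hw
  by_cases h0 : v = 0
  · rw [h0, map_zero, norm_zero]; simp
  obtain ⟨a, b, hab⟩ := CQC.span J₀ x (h2 x) hv hw h0
  have e1 : Dn S n x w = a • Dn S n x v + b • J₀.J (S.g^[n] x) (Dn S n x v) := by
    rw [hab, map_add, map_smul, map_smul, J₀.J_Dn n x hv]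
  have n1 := CQC.norm_sq J₀ x hv a b
  rw [← hab] at n1
  have n2 := CQC.norm_sq J₀ (S.g^[n] x) (Dn_mem S n x hv) a b
  rw [← e1] at n2
  have b1 := hJ x v hv
  have b2 := hJ _ _ (Dn_mem S n x hw)
  set p := ‖v‖ with hp
  set q := ‖w‖ with hq
  set P := ‖Dn S n x v‖ with hP
  set Q := ‖Dn S n x w‖ with hQ
  set p' := ‖J₀.J x v‖ with hp'
  set q' := ‖J₀.J x w‖ with hq'
  set P' := ‖J₀.J (S.g^[n] x) (Dn S n x v)‖ with hP'
  set Q' := ‖J₀.J (S.g^[n] x) (Dn S n x w)‖ with hQ'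
  have p0 : 0 ≤ p := norm_nonneg _
  have q0 : 0 ≤ q := norm_nonneg _
  have P0 : 0 ≤ P := norm_nonneg _
  have Q0 : 0 ≤ Q := norm_nonneg _
  have p0' : 0 ≤ p' := norm_nonneg _
  have q0' : 0 ≤ q' := norm_nonneg _
  have P0' : 0 ≤ P' := norm_nonneg _
  have Q0' : 0 ≤ Q' := norm_nonneg _
  have key : (P * q) ^ 2 ≤ ((1 + C ^ 2) * (Q * p)) ^ 2 := by
    have k1 : P ^ 2 * q ^ 2 ≤ (P ^ 2 + P' ^ 2) * (q ^ 2 + q' ^ 2) := by
      apply mul_le_mul <;> nlinarith [sq_nonneg P, sq_nonneg P', sq_nonneg q, sq_nonneg q']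
    have k2 : (P ^ 2 + P' ^ 2) * (q ^ 2 + q' ^ 2) = (Q ^ 2 + Q' ^ 2) * (p ^ 2 + p' ^ 2) := by
      rw [n1, n2]; ring
    have k3 : Q ^ 2 + Q' ^ 2 ≤ (1 + C ^ 2) * Q ^ 2 := by
      have : Q' ^ 2 ≤ (C * Q) ^ 2 := pow_le_pow_left₀ Q0' b2 2
      nlinarith
    have k4 : p ^ 2 + p' ^ 2 ≤ (1 + C ^ 2) * p ^ 2 := by
      have : p' ^ 2 ≤ (C * p) ^ 2 := pow_le_pow_left₀ p0' b1 2
      nlinarith
    have k5 : (Q ^ 2 + Q' ^ 2) * (p ^ 2 + p' ^ 2) ≤ ((1 + C ^ 2) * Q ^ 2) * ((1 + C ^ 2) * p ^ 2) :=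
      mul_le_mul k3 k4 (by positivity) (by positivity)
    calc (P * q) ^ 2 = P ^ 2 * q ^ 2 := by ring
      _ ≤ _ := k1
      _ = _ := k2
      _ ≤ _ := k5
      _ = _ := by ring
  exact (pow_le_pow_iff_left₀ (by positivity) (by positivity) two_ne_zero).1 key

end Pool.Agent.H779R2.An
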