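import Pool.Agent.H779R2.An.LCov
import Pool.Agent.H779R2.An.MainA
import Pool.Agent.H789R2.GP.ManC

set_option autoImplicit false
set_option linter.unusedSectionVars false

open scoped Manifold ContDiff Topology Bundle
open Set Filter Bundle

namespace Pool.Agent.H779R2.An

open Pool.Agent.H721R2 Pool.Agent.H789R2.AN Pool.Agent.H789R2.GP

/-- Covering by a vector space. -/
theorem main_cov (E : Type*) [NormedAddCommGroup E] [NormedSpace ℝ E] [FiniteDimensional ℝ E]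
    (M : Type*) [TopologicalSpace M] [T2Space M] [CompactSpace M] [ConnectedSpace M]
    [ChartedSpace E M] [IsManifold 𝓘(ℝ, E) ∞ M] (f : Diffeomorph 𝓘(ℝ, E) 𝓘(ℝ, E) M M 1)
    (hf2 : ContMDiff 𝓘(ℝ, E) 𝓘(ℝ, E) 2 f) (hf2' : ContMDiff 𝓘(ℝ, E) 𝓘(ℝ, E) 2 f.symm)
    (Es Eu : ∀ x : M, Submodule ℝ (TangentSpace 𝓘(ℝ, E) x)) (hA : IsAnosov f Es Eu)
    (N : TangentBundle 𝓘(ℝ, E) M → ℝ) (hN : IsTangentNorm N)
    (hqs : UniformlyQC f N Es) (hqu : UniformlyQC f N Eu) (ds du : ℕ) (hds1 : 1 ≤ ds)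
    (hdu1 : 1 ≤ du) (hds : ∀ x, Module.finrank ℝ (Es x) = ds)
    (hdu : ∀ x, Module.finrank ℝ (Eu x) = du)
    (hJ : (du < ds ∧ ∃ J, InvComplexOn f Eu J) ∨ (ds < du ∧ ∃ J, InvComplexOn f Es J)) :
    ∃ q : E → M, IsCoveringMap q ∧ Function.Surjective q := by
  obtain ⟨m, e, he, hemb, hinj⟩ := exists_embedding_euclidean_of_compact (I := 𝓘(ℝ, E)) (M := M)
  let _ : MetricSpace M := hemb.isEmbedding.comapMetricSpace e
  have hiso : ∀ x y : M, dist x y = ‖e x - e y‖ := fun x y => dist_eq_norm (e x) (e y)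
  have he1 : ContMDiff 𝓘(ℝ, E) (𝓡 m) 1 e := he.of_le (by simp)
  have he2 : ContMDiff 𝓘(ℝ, E) (𝓡 m) 2 e := he.of_le (by
    exact_mod_cast (ENat.LEInfty.out : (2 : WithTop ℕ∞) ≤ ∞))
  obtain ⟨C', a, b, Ls, Lu, hE⟩ := eanosov_of_isAnosov e he1 hinj f Es Eu hA
  obtain ⟨K, hK, hang⟩ := hE.angle he1 hinj
  have t1 : Tendsto (fun n : ℕ => K * (C' * a ^ n)) atTop (𝓝 0) := by
    have := ((tendsto_pow_atTop_nhds_zero_of_lt_one hE.a_pos.le hE.a_lt).const_mul C').const_mul K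
    simpa using this
  have t2 : Tendsto (fun n : ℕ => K * (C' * b ^ n)) atTop (𝓝 0) := by
    have := ((tendsto_pow_atTop_nhds_zero_of_lt_one hE.b_pos.le hE.b_lt).const_mul C').const_mul K
    simpa using this
  obtain ⟨n, hn1, hn2⟩ := (((tendsto_order.mp t1).2 (1 / 16) (by norm_num)).and
    ((tendsto_order.mp t2).2 (1 / 16) (by norm_num))).exists
  obtain ⟨S, hS⟩ := exists_realizes hiso he1 hinj hE K hK hang n hn1.le hn2.le
  obtain ⟨Q, r, hQ⟩ := quad_of_realizes hiso he2 hinj hE hf2 hf2' hS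
  obtain ⟨Ku, hKu⟩ := hqu
  obtain ⟨Ks, hKs⟩ := hqs
  obtain ⟨K1, hK1⟩ := qc_of_realizes hN he1 hinj hE (K := Ku) (fun n x v hv w hw =>
    hKu n x v hv w hw) hS
  obtain ⟨K2, hK2⟩ := qc_of_realizes hN he1 hinj hE.symm (K := Ks)
    (qc_inverse hN hE (fun n x v hv w hw => hKs n x v hv w hw)) hS.symm
  have hfin : ∀ (x : M) (V : Submodule ℝ E),
      Module.finrank ℝ (V.map (dm E e x).toLinearMap) = Module.finrank ℝ V := fun x V =>
    (LinearEquiv.finrank_eq (Submodule.equivMapOfInjective (dm E e x).toLinearMap (hinj x) V)).symm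
  have hfs : ∀ x, Module.finrank ℝ (S.Vs x) = ds := fun x => by
    rw [hS.Vs_eq, hfin]; exact hds x
  have hfu : ∀ x, Module.finrank ℝ (S.Vu x) = du := fun x => by
    rw [hS.Vu_eq, hfin]; exact hdu x
  have key : ∃ q : E → M, IsCoveringMap q := by
    rcases hJ with ⟨hle, J, hJ⟩ | ⟨hle, J, hJ⟩
    · obtain ⟨J₀⟩ := cj0_of_realizes hiso he1 hinj hE J hJ hS
      exact abstract_cov S hQ hK1 hK2 J₀ du ds hdu1 hle hfu hfs
    · obtain ⟨J₀⟩ := cj0_of_realizes hiso he1 hinj hE.symm J (invComplexOn_symm hE hJ) hS.symm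
      exact abstract_cov S.symm hQ.symm hK2 hK1 J₀ ds du hds1 hle hfs hfu
  obtain ⟨q, hq⟩ := key
  exact ⟨q, hq, covering_surj hq⟩

/-- Commutativity of the fundamental group. -/
theorem main_pi1 (E : Type*) [NormedAddCommGroup E] [NormedSpace ℝ E] [FiniteDimensional ℝ E]
    (M : Type*) [TopologicalSpace M] [T2Space M] [CompactSpace M] [ConnectedSpace M]
    [ChartedSpace E M] [IsManifold 𝓘(ℝ, E) ∞ M] (f : Diffeomorph 𝓘(ℝ, E) 𝓘(ℝ, E) M M 1)
    (hf2 : ContMDiff 𝓘(ℝ, E) 𝓘(ℝ, E) 2 f) (hf2' : ContMDiff 𝓘(ℝ, E) 𝓘(ℝ, E) 2 f.symm)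
    (Es Eu : ∀ x : M, Submodule ℝ (TangentSpace 𝓘(ℝ, E) x)) (hA : IsAnosov f Es Eu)
    (N : TangentBundle 𝓘(ℝ, E) M → ℝ) (hN : IsTangentNorm N)
    (hqs : UniformlyQC f N Es) (hqu : UniformlyQC f N Eu) (ds du : ℕ)
    (hds : ∀ x, Module.finrank ℝ (Es x) = ds)
    (hdu : ∀ x, Module.finrank ℝ (Eu x) = du)
    (hJ : (du = 2 ∧ 2 < ds ∧ ∃ J, InvComplexOn f Eu J) ∨
      (ds = 2 ∧ 2 < du ∧ ∃ J, InvComplexOn f Es J)) :
    ∀ x : M, ∀ α β : FundamentalGroup M x, α * β = β * α := by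
  obtain ⟨m, e, he, hemb, hinj⟩ := exists_embedding_euclidean_of_compact (I := 𝓘(ℝ, E)) (M := M)
  let _ : MetricSpace M := hemb.isEmbedding.comapMetricSpace e
  have hiso : ∀ x y : M, dist x y = ‖e x - e y‖ := fun x y => dist_eq_norm (e x) (e y)
  have he1 : ContMDiff 𝓘(ℝ, E) (𝓡 m) 1 e := he.of_le (by simp)
  have he2 : ContMDiff 𝓘(ℝ, E) (𝓡 m) 2 e := he.of_le (by
    exact_mod_cast (ENat.LEInfty.out : (2 : WithTop ℕ∞) ≤ ∞))
  obtain ⟨C', a, b, Ls, Lu, hE⟩ := eanosov_of_isAnosov e he1 hinj f Es Eu hA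
  obtain ⟨K, hK, hang⟩ := hE.angle he1 hinj
  have t1 : Tendsto (fun n : ℕ => K * (C' * a ^ n)) atTop (𝓝 0) := by
    have := ((tendsto_pow_atTop_nhds_zero_of_lt_one hE.a_pos.le hE.a_lt).const_mul C').const_mul K
    simpa using this
  have t2 : Tendsto (fun n : ℕ => K * (C' * b ^ n)) atTop (𝓝 0) := by
    have := ((tendsto_pow_atTop_nhds_zero_of_lt_one hE.b_pos.le hE.b_lt).const_mul C').const_mul K
    simpa using this
  obtain ⟨n, hn1, hn2⟩ := (((tendsto_order.mp t1).2 (1 / 16) (by norm_num)).and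
    ((tendsto_order.mp t2).2 (1 / 16) (by norm_num))).exists
  obtain ⟨S, hS⟩ := exists_realizes hiso he1 hinj hE K hK hang n hn1.le hn2.le
  obtain ⟨Q, r, hQ⟩ := quad_of_realizes hiso he2 hinj hE hf2 hf2' hS
  obtain ⟨Ku, hKu⟩ := hqu
  obtain ⟨Ks, hKs⟩ := hqs
  obtain ⟨K1, hK1⟩ := qc_of_realizes hN he1 hinj hE (K := Ku) (fun n x v hv w hw =>
    hKu n x v hv w hw) hS
  obtain ⟨K2, hK2⟩ := qc_of_realizes hN he1 hinj hE.symm (K := Ks)
    (qc_inverse hN hE (fun n x v hv w hw => hKs n x v hv w hw)) hS.symm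
  have hfin : ∀ (x : M) (V : Submodule ℝ E),
      Module.finrank ℝ (V.map (dm E e x).toLinearMap) = Module.finrank ℝ V := fun x V =>
    (LinearEquiv.finrank_eq (Submodule.equivMapOfInjective (dm E e x).toLinearMap (hinj x) V)).symm
  have hfs : ∀ x, Module.finrank ℝ (S.Vs x) = ds := fun x => by
    rw [hS.Vs_eq, hfin]; exact hds x
  have hfu : ∀ x, Module.finrank ℝ (S.Vu x) = du := fun x => by
    rw [hS.Vu_eq, hfin]; exact hdu x
  have hpc : PathConnectedSpace M := by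
    have : LocallyPathConnectedSpace M := ChartedSpace.locallyPathConnectedSpace E M
    exact pathConnectedSpace_iff_connectedSpace.mpr inferInstance
  rcases hJ with ⟨h2, hle, J, hJ⟩ | ⟨h2, hle, J, hJ⟩
  · obtain ⟨J₀⟩ := cj0_of_realizes hiso he1 hinj hE J hJ hS
    exact abstract_pi1 (E' := E) S hQ hK1 hK2 J₀ ds hle (fun x => (hfu x).trans h2) hfs
  · obtain ⟨J₀⟩ := cj0_of_realizes hiso he1 hinj hE.symm J (invComplexOn_symm hE hJ) hS.symm
    exact abstract_pi1 (E' := E) S.symm hQ.symm hK2 hK1 J₀ du hle (fun x => (hfs x).trans h2) hfu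

end Pool.Agent.H779R2.An
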