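import Pool.Agent.H779R2.An.CDefs

set_option autoImplicit false

namespace Pool.Agent.H779R2.An

open Pool.Agent.H721R2 Filter Topology MeasureTheory
open scoped BigOperators

variable {X E : Type*} [MetricSpace X] [CompactSpace X] [NormedAddCommGroup E]
  [InnerProductSpace ℝ E] [FiniteDimensional ℝ E]

namespace CCF

variable {S : HypSys X E} {F : Flat S}

/-- Hermitian norm. -/
noncomputable def nn (J : CJ F) (x : X) (v : E) : ℝ := Real.sqrt (‖v‖ ^ 2 + ‖J.J x v‖ ^ 2)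

omit [CompactSpace X] [FiniteDimensional ℝ E] in
theorem nn_sq (J : CJ F) (x : X) (v : E) : nn J x v ^ 2 = ‖v‖ ^ 2 + ‖J.J x v‖ ^ 2 :=
  Real.sq_sqrt (by positivity)

omit [CompactSpace X] [FiniteDimensional ℝ E] in
theorem nn_nonneg (J : CJ F) (x : X) (v : E) : 0 ≤ nn J x v := Real.sqrt_nonneg _

omit [CompactSpace X] [FiniteDimensional ℝ E] in
theorem norm_le_nn (J : CJ F) (x : X) (v : E) : ‖v‖ ≤ nn J x v := by
  apply Real.le_sqrt_of_sq_le
  nlinarith [sq_nonneg ‖J.J x v‖]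

/-- the constant -/
noncomputable def cc (J : CJ F) : ℝ := Real.sqrt (1 + J.C ^ 2)

omit [CompactSpace X] [FiniteDimensional ℝ E] in
theorem one_le_cc (J : CJ F) : 1 ≤ cc J := by
  apply Real.le_sqrt_of_sq_le
  nlinarith [sq_nonneg J.C]

omit [CompactSpace X] [FiniteDimensional ℝ E] in
theorem nn_le (J : CJ F) (x : X) {v : E} (hv : v ∈ S.Vu x) : nn J x v ≤ cc J * ‖v‖ := by
  unfold nn cc
  rw [← Real.sqrt_sq (norm_nonneg v), ← Real.sqrt_mul (by positivity), Real.sqrt_sq (norm_nonneg v)]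
  apply Real.sqrt_le_sqrt
  have h1 := J.J_le x v hv
  have h2 : ‖J.J x v‖ ^ 2 ≤ (J.C * ‖v‖) ^ 2 := pow_le_pow_left₀ (norm_nonneg _) h1 2
  nlinarith

omit [CompactSpace X] in
theorem exists_b (J : CJ F) (h2 : ∀ x, Module.finrank ℝ (S.Vu x) = 2) :
    ∃ b : X → E, ∀ x, b x ∈ S.Vu x ∧ nn J x (b x) = 1 := by
  have : ∀ x, ∃ v : E, v ∈ S.Vu x ∧ nn J x v = 1 := by
    intro x
    have h3 : 0 < Module.finrank ℝ (S.Vu x) := by rw [h2 x]; norm_num
    obtain ⟨w, hw⟩ := (Module.finrank_pos_iff_exists_ne_zero).1 h3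
    have hw0 : (w : E) ≠ 0 := fun h => hw (Subtype.ext h)
    have hpos : 0 < nn J x w := lt_of_lt_of_le (norm_pos_iff.2 hw0) (norm_le_nn J x w)
    refine ⟨(nn J x w)⁻¹ • (w : E), (S.Vu x).smul_mem _ w.2, ?_⟩
    have h5 : nn J x ((nn J x w)⁻¹ • (w : E)) ^ 2 = 1 := by
      rw [nn_sq, map_smul, norm_smul, norm_smul, mul_pow, mul_pow, ← mul_add, ← nn_sq,
        Real.norm_of_nonneg (inv_nonneg.2 hpos.le), ← mul_pow, inv_mul_cancel₀ hpos.ne', one_pow]
    have h6 := nn_nonneg J x ((nn J x w)⁻¹ • (w : E))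
    nlinarith
  choose b hb using this
  exact ⟨b, hb⟩

/-- the chart -/
noncomputable def vec (J : CJ F) (b : X → E) (x : X) (z : ℂ) : E :=
  z.re • b x + z.im • J.J x (b x)

section

variable {J : CJ F} {b : X → E} (hb : ∀ x, b x ∈ S.Vu x ∧ nn J x (b x) = 1)

include hb

omit [CompactSpace X] [FiniteDimensional ℝ E] in
theorem vec_mem (x : X) (z : ℂ) : vec J b x z ∈ S.Vu x :=
  (S.Vu x).add_mem ((S.Vu x).smul_mem _ (hb x).1)
    ((S.Vu x).smul_mem _ (J.J_mem x _ (hb x).1))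

omit [CompactSpace X] [FiniteDimensional ℝ E] in
theorem J_vec (x : X) (z : ℂ) : J.J x (vec J b x z) = vec J b x (Complex.I * z) := by
  unfold vec
  rw [map_add, map_smul, map_smul, J.J_sq x _ (hb x).1]
  simp only [Complex.mul_re, Complex.mul_im, Complex.I_re, Complex.I_im]
  module

omit [CompactSpace X] [FiniteDimensional ℝ E] in
theorem nn_vec (x : X) (z : ℂ) : nn J x (vec J b x z) = ‖z‖ := by
  have h1 : nn J x (vec J b x z) ^ 2 = ‖z‖ ^ 2 := by
    rw [nn_sq, J_vec hb]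
    have h2 := nn_sq J x (b x)
    rw [(hb x).2] at h2
    rw [Complex.sq_norm, Complex.normSq_apply]
    unfold vec
    simp only [Complex.mul_re, Complex.mul_im, Complex.I_re, Complex.I_im]
    rw [← real_inner_self_eq_norm_sq, ← real_inner_self_eq_norm_sq]
    rw [← real_inner_self_eq_norm_sq, ← real_inner_self_eq_norm_sq] at h2
    simp only [inner_add_left, inner_add_right, real_inner_smul_left, real_inner_smul_right]
    rw [real_inner_comm (b x) (J.J x (b x))]
    linear_combination (-(z.re ^ 2 + z.im ^ 2)) * h2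
  have h3 := nn_nonneg J x (vec J b x z)
  have h4 := norm_nonneg z
  nlinarith

omit [CompactSpace X] [FiniteDimensional ℝ E] in
theorem vec_add (x : X) (z w : ℂ) : vec J b x (z + w) = vec J b x z + vec J b x w := by
  unfold vec
  simp only [Complex.add_re, Complex.add_im]
  module

omit [CompactSpace X] [FiniteDimensional ℝ E] in
theorem vec_smul (x : X) (r : ℝ) (z : ℂ) : vec J b x (r • z) = r • vec J b x z := by
  unfold vec
  simp only [Complex.real_smul, Complex.mul_re, Complex.mul_im, Complex.ofReal_re,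
    Complex.ofReal_im]
  module

omit [CompactSpace X] [FiniteDimensional ℝ E] in
theorem vec_inj (x : X) {z w : ℂ} (h : vec J b x z = vec J b x w) : z = w := by
  have h1 : vec J b x (z - w) = 0 := by
    have := vec_add hb x (z - w) w
    rw [sub_add_cancel, h] at this
    exact left_eq_add.1 (by rw [add_comm]; exact this)
  have h2 := nn_vec hb x (z - w)
  rw [h1] at h2
  have h3 : nn J x 0 = 0 := by unfold nn; simp
  rw [h3] at h2
  exact sub_eq_zero.1 (norm_eq_zero.1 h2.symm)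

omit [CompactSpace X] in
theorem vec_surj (h2 : ∀ x, Module.finrank ℝ (S.Vu x) = 2) (x : X) {v : E} (hv : v ∈ S.Vu x) :
    ∃ z, vec J b x z = v := by
  let L : ℂ →ₗ[ℝ] S.Vu x :=
    { toFun := fun z => ⟨vec J b x z, vec_mem hb x z⟩
      map_add' := fun z w => Subtype.ext (vec_add hb x z w)
      map_smul' := fun r z => Subtype.ext (vec_smul hb x r z) }
  have hinj : Function.Injective L := fun z w h => vec_inj hb x (congrArg Subtype.val h)
  have hfr : Module.finrank ℝ ℂ = Module.finrank ℝ (S.Vu x) := by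
    rw [h2 x, Complex.finrank_real_complex]
  have hsur := (LinearMap.injective_iff_surjective_of_finrank_eq_finrank hfr).1 hinj
  obtain ⟨z, hz⟩ := hsur ⟨v, hv⟩
  exact ⟨z, congrArg Subtype.val hz⟩

end

open Classical in
/-- the coordinate -/
noncomputable def co (J : CJ F) (b : X → E) (x : X) (v : E) : ℂ :=
  if h : ∃ z, vec J b x z = v then h.choose else 0

section

variable {J : CJ F} {b : X → E} (hb : ∀ x, b x ∈ S.Vu x ∧ nn J x (b x) = 1)

include hb

omit [CompactSpace X] [FiniteDimensional ℝ E] in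
theorem co_vec (x : X) (z : ℂ) : co J b x (vec J b x z) = z := by
  have h : ∃ w, vec J b x w = vec J b x z := ⟨z, rfl⟩
  unfold co
  rw [dif_pos h]
  exact vec_inj hb x h.choose_spec

omit [CompactSpace X] [FiniteDimensional ℝ E] in
theorem co_zero (x : X) : co J b x 0 = 0 := by
  have := co_vec hb x 0
  have h0 : vec J b x 0 = 0 := by unfold vec; simp
  rwa [h0] at this

omit [CompactSpace X] [FiniteDimensional ℝ E] in
theorem co_b (x : X) : co J b x (b x) = 1 := by
  have := co_vec hb x 1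
  have h0 : vec J b x 1 = b x := by unfold vec; simp
  rwa [h0] at this

variable (h2 : ∀ x, Module.finrank ℝ (S.Vu x) = 2)

include h2

omit [CompactSpace X] in
theorem vec_co (x : X) {v : E} (hv : v ∈ S.Vu x) : vec J b x (co J b x v) = v := by
  obtain ⟨z, rfl⟩ := vec_surj hb h2 x hv
  rw [co_vec hb]

omit [CompactSpace X] in
theorem norm_co (x : X) {v : E} (hv : v ∈ S.Vu x) : ‖co J b x v‖ = nn J x v := by
  conv_rhs => rw [← vec_co hb h2 x hv]
  rw [nn_vec hb]

omit [CompactSpace X] in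
theorem co_inj (x : X) {v w : E} (hv : v ∈ S.Vu x) (hw : w ∈ S.Vu x)
    (h : co J b x v = co J b x w) : v = w := by
  rw [← vec_co hb h2 x hv, h, vec_co hb h2 x hw]

omit [CompactSpace X] in
theorem co_sub (x : X) {v w : E} (hv : v ∈ S.Vu x) (hw : w ∈ S.Vu x) :
    co J b x (v - w) = co J b x v - co J b x w := by
  apply vec_inj hb x
  rw [vec_co hb h2 x ((S.Vu x).sub_mem hv hw)]
  have := vec_add hb x (co J b x v - co J b x w) (co J b x w)
  rw [sub_add_cancel, vec_co hb h2 x hv, vec_co hb h2 x hw] at this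
  exact sub_eq_of_eq_add this

omit [CompactSpace X] in
theorem co_map (L : E →ₗ[ℝ] E) (x y : X) (hL : ∀ v ∈ S.Vu x, L v ∈ S.Vu y)
    (hJ : ∀ v ∈ S.Vu x, L (J.J x v) = J.J y (L v)) {v : E} (hv : v ∈ S.Vu x) :
    co J b y (L v) = co J b y (L (b x)) * co J b x v := by
  apply vec_inj hb y
  rw [vec_co hb h2 y (hL v hv)]
  obtain ⟨z, rfl⟩ := vec_surj hb h2 x hv
  rw [co_vec hb]
  have h3 := vec_co hb h2 y (hL _ (hb x).1)
  generalize co J b y (L (b x)) = w at h3
  have h4 : L (vec J b x z) = z.re • L (b x) + z.im • J.J y (L (b x)) := by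
    unfold vec
    rw [map_add, map_smul, map_smul, hJ _ (hb x).1]
  rw [h4, ← h3, J_vec hb]
  unfold vec
  simp only [Complex.mul_re, Complex.mul_im, Complex.I_re, Complex.I_im]
  module

omit [CompactSpace X] in
theorem norm_co_map_le (L : E →ₗ[ℝ] E) (x y : X) (hL : ∀ v ∈ S.Vu x, L v ∈ S.Vu y) (K : ℝ)
    (hK : 0 ≤ K) (hLK : ∀ v ∈ S.Vu x, ‖L v‖ ≤ K * ‖v‖) : ‖co J b y (L (b x))‖ ≤ cc J * K := by
  rw [norm_co hb h2 y (hL _ (hb x).1)]
  have h3 := nn_le J y (hL _ (hb x).1)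
  have h4 := hLK _ (hb x).1
  have h5 := norm_le_nn J x (b x)
  rw [(hb x).2] at h5
  have h6 := one_le_cc J
  calc nn J y (L (b x)) ≤ cc J * ‖L (b x)‖ := h3
    _ ≤ cc J * (K * ‖b x‖) := mul_le_mul_of_nonneg_left h4 (by linarith)
    _ ≤ cc J * (K * 1) := mul_le_mul_of_nonneg_left (mul_le_mul_of_nonneg_left h5 hK) (by linarith)
    _ = cc J * K := by ring

end

/-- The data. -/
noncomputable def mk (J : CJ F) (b : X → E) (hb : ∀ x, b x ∈ S.Vu x ∧ nn J x (b x) = 1)
    (h2 : ∀ x, Module.finrank ℝ (S.Vu x) = 2)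
    (hJD : ∀ x, ∀ v ∈ S.Vu x, S.D x (J.J x v) = J.J (S.g x) (S.D x v))
    (ε : ℝ) (hε : 0 < ε) (hε' : ε ≤ F.ε₀)
    (hCD : ∀ w w', S.SRel ε w w' → ∀ η > 0, ∃ ρ > 0, ∀ q q', S.URel ε w q → ‖F.Lc w q‖ ≤ ρ →
      S.SRel ε q q' → S.URel ε w' q' →
      ‖F.Lc w' q' - F.H w w' (F.Lc w q)‖ ≤ η * ‖F.Lc w q‖) : CF S where
  ε₀ := ε
  geo := F.geo.mono hε hε'
  M := cc J * (S.Lu + 2)
  one_le_M := by
    have h1 := one_le_cc J
    have h3 := S.one_le_Lu
    nlinarith
  lam := fun x => co J b (S.g x) (S.D x (b x))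
  lam_ge := fun x => by
    rw [norm_co hb h2 _ (S.mapU _ _ (hb x).1)]
    have h1 : ∀ v ∈ S.Vu x, 16 * ‖v‖ ≤ ‖S.D x v‖ := fun v hv => by
      have := le_Dn S 1 x hv
      rwa [pow_one, Dn_succ, Dn_zero, Function.iterate_zero, id] at this
    have h3 := h1 _ (hb x).1
    have h4 := h1 _ (J.J_mem x _ (hb x).1)
    rw [hJD x _ (hb x).1] at h4
    have h5 := nn_sq J x (b x)
    rw [(hb x).2] at h5
    have h6 := nn_sq J (S.g x) (S.D x (b x))
    have h7 := nn_nonneg J (S.g x) (S.D x (b x))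
    have h8 : (16 * ‖b x‖) ^ 2 ≤ ‖S.D x (b x)‖ ^ 2 := pow_le_pow_left₀ (by positivity) h3 2
    have h9 : (16 * ‖J.J x (b x)‖) ^ 2 ≤ ‖J.J (S.g x) (S.D x (b x))‖ ^ 2 :=
      pow_le_pow_left₀ (by positivity) h4 2
    nlinarith
  lam_le := fun x => by
    have h1 := norm_co_map_le hb h2 (S.D x) x (S.g x) (S.mapU x) S.Lu
      (by linarith [S.one_le_Lu]) (S.boundU x)
    have h3 := one_le_cc J
    nlinarith
  lc := fun x y => co J b x (F.Lc x y)
  tau := fun x y => co J b y (F.τ x y (b x))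
  eta := fun x y => co J b y (F.H x y (b x))
  lc_equi := fun x y h => by
    rw [F.Lc_equi x y h]
    exact co_map hb h2 (S.D x) x (S.g x) (S.mapU x) (hJD x) (F.Lc_mem x y h)
  lc_self := fun x => by rw [F.Lc_self, co_zero hb]
  lc_le := fun x y h => by
    have h' := h.mono hε'
    have hm := F.Lc_mem x y (F.geo.uasym x y h')
    rw [norm_co hb h2 x hm]
    have h1 := nn_le J x hm
    have h3 := F.Lc_le x y h'
    have h4 := one_le_cc J
    have h5 := S.one_le_Lu
    have h6 : 0 ≤ dist x y := dist_nonneg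
    calc nn J x (F.Lc x y) ≤ cc J * ‖F.Lc x y‖ := h1
      _ ≤ cc J * (2 * dist x y) := mul_le_mul_of_nonneg_left h3 (by linarith)
      _ ≤ cc J * (S.Lu + 2) * dist x y := by
        rw [mul_assoc]
        exact mul_le_mul_of_nonneg_left (mul_le_mul_of_nonneg_right (by linarith) h6) (by linarith)
  dist_le := fun x y h => by
    have h' := h.mono hε'
    have hm := F.Lc_mem x y (F.geo.uasym x y h')
    rw [norm_co hb h2 x hm]
    have h1 := norm_le_nn J x (F.Lc x y)
    have h3 := F.dist_le x y h'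
    have h4 := one_le_cc J
    have h5 := S.one_le_Lu
    have h6 := nn_nonneg J x (F.Lc x y)
    have h7 : 2 ≤ cc J * (S.Lu + 2) := by nlinarith
    calc dist x y ≤ 2 * ‖F.Lc x y‖ := h3
      _ ≤ 2 * nn J x (F.Lc x y) := by linarith
      _ ≤ _ := mul_le_mul_of_nonneg_right h7 h6
  inj := fun x y z hy hz h =>
    F.inj x y z hy hz (co_inj hb h2 x (F.Lc_mem x y hy) (F.Lc_mem x z hz) h)
  surj := fun δ hδ => by
    obtain ⟨ρ, hρ, hs⟩ := F.surj δ hδ
    refine ⟨ρ, hρ, fun x u hu => ?_⟩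
    obtain ⟨y, hy, hyv⟩ := hs x (vec J b x u) (vec_mem hb x u)
      ((norm_le_nn J x _).trans (by rw [nn_vec hb]; exact hu))
    exact ⟨y, hy, by rw [hyv, co_vec hb]⟩
  small := fun δ hδ => by
    obtain ⟨ρ, hρ, hs⟩ := F.small δ hδ
    refine ⟨ρ, hρ, fun x y hxy h => ?_⟩
    rw [norm_co hb h2 x (F.Lc_mem x y hxy)] at h
    exact hs x y hxy ((norm_le_nn J x _).trans h)
  tau_self := fun x => by rw [F.τ_self x _ (hb x).1, co_b hb]
  tau_comp := fun x y z hxy hyz => by
    rw [← F.τ_comp x y z hxy hyz _ (hb x).1]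
    exact (co_map hb h2 (F.τ y z) y z (F.τ_mem y z hyz) (J.J_τ y z hyz)
      (F.τ_mem x y hxy _ (hb x).1)).symm
  tau_equi := fun x y hxy => by
    rw [← co_map hb h2 (S.D y) y (S.g y) (S.mapU y) (hJD y) (F.τ_mem x y hxy _ (hb x).1),
      ← F.τ_equi x y hxy _ (hb x).1]
    exact (co_map hb h2 (F.τ (S.g x) (S.g y)) (S.g x) (S.g y) (F.τ_mem _ _ hxy.map)
      (J.J_τ _ _ hxy.map) (S.mapU _ _ (hb x).1)).symm
  tau_le := fun x y h => by
    have h' := h.mono hε'
    have h1 := norm_co_map_le hb h2 (F.τ x y) x y (F.τ_mem x y (F.geo.uasym x y h')) 2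
      (by norm_num) (F.τ_le x y h')
    have h3 := one_le_cc J
    have h4 := S.one_le_Lu
    nlinarith
  base := fun x y z hxy hxz => by
    rw [F.base x y z hxy hxz, ← co_sub hb h2 x (F.Lc_mem x z hxz) (F.Lc_mem x y hxy)]
    exact co_map hb h2 (F.τ x y) x y (F.τ_mem x y hxy) (J.J_τ x y hxy)
      ((S.Vu x).sub_mem (F.Lc_mem x z hxz) (F.Lc_mem x y hxy))
  eta_self := fun x => by rw [F.H_self x _ (hb x).1, co_b hb]
  eta_comp := fun x y z hxy hyz => by
    rw [← F.H_comp x y z hxy hyz _ (hb x).1]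
    exact (co_map hb h2 (F.H y z) y z (F.H_mem y z hyz) (J.J_H y z hyz)
      (F.H_mem x y hxy _ (hb x).1)).symm
  eta_equi := fun x y hxy => by
    rw [← co_map hb h2 (S.D y) y (S.g y) (S.mapU y) (hJD y) (F.H_mem x y hxy _ (hb x).1),
      ← F.H_equi x y hxy _ (hb x).1]
    exact (co_map hb h2 (F.H (S.g x) (S.g y)) (S.g x) (S.g y) (F.H_mem _ _ hxy.map)
      (J.J_H _ _ hxy.map) (S.mapU _ _ (hb x).1)).symm
  eta_le := fun x y h => by
    have h' := h.mono hε'
    have h1 := norm_co_map_le hb h2 (F.H x y) x y (F.H_mem x y (F.geo.sasym x y h')) 2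
      (by norm_num) (F.H_le x y h')
    have h3 := one_le_cc J
    have h4 := S.one_le_Lu
    nlinarith
  cd := fun w w' hw η hη => by
    have h3 := one_le_cc J
    have hw' := F.geo.sasym w w' (hw.mono hε')
    obtain ⟨ρ, hρ, hcd⟩ := hCD w w' hw (η / cc J) (by positivity)
    refine ⟨ρ, hρ, fun q q' hq hqρ hqq' hq' => ?_⟩
    have hqU := F.geo.uasym w q (hq.mono hε')
    have hq'U := F.geo.uasym w' q' (hq'.mono hε')
    have hm := F.Lc_mem w q hqU
    have hm' := F.Lc_mem w' q' hq'U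
    have hHm := F.H_mem w w' hw' _ hm
    have h4 := hcd q q' hq (by
      rw [norm_co hb h2 w hm] at hqρ
      exact (norm_le_nn J w _).trans hqρ) hqq' hq'
    rw [← co_map hb h2 (F.H w w') w w' (F.H_mem w w' hw') (J.J_H w w' hw') hm,
      ← co_sub hb h2 w' hm' hHm, norm_co hb h2 w' ((S.Vu w').sub_mem hm' hHm),
      norm_co hb h2 w hm]
    have h5 := nn_le J w' ((S.Vu w').sub_mem hm' hHm)
    have h6 := norm_le_nn J w (F.Lc w q)
    calc nn J w' (F.Lc w' q' - F.H w w' (F.Lc w q))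
        ≤ cc J * ‖F.Lc w' q' - F.H w w' (F.Lc w q)‖ := h5
      _ ≤ cc J * (η / cc J * ‖F.Lc w q‖) := mul_le_mul_of_nonneg_left h4 (by linarith)
      _ = η * ‖F.Lc w q‖ := by field_simp
      _ ≤ η * nn J w (F.Lc w q) := mul_le_mul_of_nonneg_left h6 hη.le

end CCF

/-- K2 -/
theorem exists_cf {S : HypSys X E} (F : Flat S) (J : CJ F)
    (hJD : ∀ x, ∀ v ∈ S.Vu x, S.D x (J.J x v) = J.J (S.g x) (S.D x v)) (hCD : CDProp F)
    (h2 : ∀ x, Module.finrank ℝ (S.Vu x) = 2) :
    ∃ c : CF S, ∀ B : UV S, ∃ C : ℝ, 0 < C ∧ ∀ k y, c.cw k y ≤ C * om S B k y := by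
  obtain ⟨b, hb⟩ := CCF.exists_b J h2
  obtain ⟨ε, hε, hcd⟩ := hCD
  have hF := F.geo.pos
  refine ⟨CCF.mk J b hb h2 hJD (min ε F.ε₀) (lt_min hε hF) (min_le_right _ _)
    (fun w w' hw η hη => ?_), fun B => ⟨CCF.cc J, by linarith [CCF.one_le_cc J], fun k y => ?_⟩⟩
  · obtain ⟨ρ, hρ, h⟩ := hcd w w' (hw.mono (min_le_left _ _)) η hη
    exact ⟨ρ, hρ, fun q q' h1 h3 h4 h5 => h q q' (h1.mono (min_le_left _ _)) h3
      (h4.mono (min_le_left _ _)) (h5.mono (min_le_left _ _))⟩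
  · set c := CCF.mk J b hb h2 hJD (min ε F.ε₀) (lt_min hε hF) (min_le_right _ _)
      (fun w w' hw η hη => _) with hc
    -- iterates
    have hJn : ∀ (n : ℕ) (x : X), ∀ v ∈ S.Vu x,
        Dn S n x (J.J x v) = J.J (S.g^[n] x) (Dn S n x v) := by
      intro n x v hv
      induction n with
      | zero => rfl
      | succ n ih =>
        rw [Dn_succ, ih, hJD _ _ (Dn_mem S n x hv), Dn_succ, Function.iterate_succ_apply']
    have hLp : ∀ (n : ℕ) (x : X), CCF.co J b (S.g^[n] x) (Dn S n x (b x)) = c.Lp n x := by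
      intro n x
      induction n with
      | zero =>
        rw [Dn_zero, Function.iterate_zero, id, CCF.co_b hb]
        simp [CF.Lp]
      | succ n ih =>
        rw [Dn_succ, Function.iterate_succ_apply',
          CCF.co_map hb h2 (S.D (S.g^[n] x)) (S.g^[n] x) _ (S.mapU _) (hJD _)
            (Dn_mem S n x (hb x).1), ih]
        unfold CF.Lp
        rw [Finset.prod_range_succ, mul_comm]
        rfl
    set x := S.g.symm^[k] y with hx
    have hxy : S.g^[k] x = y := iter_iter_symm S k y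
    have hw : Dn S.symm k y (B.b y) ∈ S.Vu x := Dn_symm_mem S k y (B.mem y)
    have h3 : Dn S k x (Dn S.symm k y (B.b y)) = B.b y := Dn_Dn_symm S k y (B.mem y)
    have h4 := CCF.co_map hb h2 (Dn S k x) x (S.g^[k] x) (fun v hv => Dn_mem S k x hv)
      (hJn k x) hw
    rw [h3, hLp k x, hxy] at h4
    have h5 := congrArg norm h4
    rw [norm_mul, CCF.norm_co hb h2 y (B.mem y), CCF.norm_co hb h2 x hw] at h5
    have h6 := CCF.norm_le_nn J y (B.b y)
    rw [B.norm y] at h6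
    have h7 := CCF.nn_le J x hw
    have h8 : (1 : ℝ) ≤ ‖c.Lp k x‖ * (CCF.cc J * om S B k y) := by
      calc (1 : ℝ) ≤ CCF.nn J y (B.b y) := h6
        _ = ‖c.Lp k x‖ * CCF.nn J x (Dn S.symm k y (B.b y)) := h5
        _ ≤ _ := mul_le_mul_of_nonneg_left h7 (norm_nonneg _)
    have h9 : 0 < ‖c.Lp k x‖ := by
      rcases (norm_nonneg (c.Lp k x)).lt_or_eq with h | h
      · exact h
      · rw [← h] at h8; norm_num at h8
    change ‖c.Lp k x‖⁻¹ ≤ _
    rw [inv_le_iff_one_le_mul₀' h9]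
    exact h8

end Pool.Agent.H779R2.An
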