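import Pool.Agent.H779R2.An.CDefs

set_option autoImplicit false

namespace Pool.Agent.H779R2.An

open Pool.Agent.H721R2 Filter Topology MeasureTheory
open scoped BigOperators

variable {X E : Type*} [MetricSpace X] [CompactSpace X] [NormedAddCommGroup E]
  [InnerProductSpace ℝ E] [FiniteDimensional ℝ E]

/-- a maximal separated subset -/
private theorem k8_maximal (S : HypSys X E) (κ : ℝ) (k : ℕ) (hκ : 0 < κ) (T : Finset X) :
    ∃ A ⊆ T, (∀ y ∈ A, ∀ y' ∈ A, y ≠ y' → ¬ S.SRel κ (S.g.symm^[k] y) (S.g.symm^[k] y')) ∧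
      ∀ t ∈ T, ∃ a ∈ A, S.SRel κ (S.g.symm^[k] t) (S.g.symm^[k] a) := by
  classical
  set P : Finset X → Prop := fun A =>
    ∀ y ∈ A, ∀ y' ∈ A, y ≠ y' → ¬ S.SRel κ (S.g.symm^[k] y) (S.g.symm^[k] y') with hP
  obtain ⟨A, hA, hmax⟩ := (T.powerset.filter P).exists_max_image Finset.card
    ⟨∅, by rw [Finset.mem_filter, Finset.mem_powerset]; exact ⟨Finset.empty_subset _, by
      intro y hy; exact absurd hy (Finset.notMem_empty _)⟩⟩
  rw [Finset.mem_filter, Finset.mem_powerset] at hA
  refine ⟨A, hA.1, hA.2, ?_⟩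
  intro t ht
  by_cases htA : t ∈ A
  · refine ⟨t, htA, ?_⟩
    intro n
    rw [dist_self]
    exact hκ.le
  · by_contra hcon
    push Not at hcon
    have h1 : insert t A ∈ T.powerset.filter P := by
      rw [Finset.mem_filter, Finset.mem_powerset]
      refine ⟨Finset.insert_subset ht hA.1, ?_⟩
      intro y hy y' hy' hne
      rw [Finset.mem_insert] at hy hy'
      rcases hy with rfl | hy
      · rcases hy' with rfl | hy'
        · exact absurd rfl hne
        · exact hcon y' hy'
      · rcases hy' with rfl | hy'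
        · intro h
          exact hcon y hy h.symm
        · exact hA.2 y hy y' hy' hne
    have h2 := hmax _ h1
    rw [Finset.card_insert_of_notMem htA] at h2
    omega

/-- a chain with distinct points -/
private theorem k8_path {α : Type*} (Rel : α → α → Prop) (hsymm : ∀ a b, Rel a b → Rel b a)
    (A : Finset α) (n : ℕ) (a : ℕ → α) (ha : ∀ i ≤ n, a i ∈ A)
    (hrel : ∀ i < n, Rel (a i) (a (i + 1))) :
    ∃ (L : ℕ) (b : ℕ → α), b 0 = a 0 ∧ b L = a n ∧ (∀ i ≤ L, b i ∈ A) ∧
      (∀ i < L, Rel (b i) (b (i + 1))) ∧ Set.InjOn b {i | i ≤ L} := by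
  classical
  set G : SimpleGraph α := SimpleGraph.fromRel (fun y y' => y ∈ A ∧ y' ∈ A ∧ Rel y y') with hG
  have hreach : ∀ i ≤ n, G.Reachable (a 0) (a i) := by
    intro i
    induction i with
    | zero => intro _; exact SimpleGraph.Reachable.refl _
    | succ i ih =>
      intro hi
      have h1 := ih (by omega)
      by_cases he : a i = a (i + 1)
      · rw [← he]; exact h1
      · refine h1.trans (SimpleGraph.Adj.reachable ?_)
        rw [hG, SimpleGraph.fromRel_adj]
        exact ⟨he, Or.inl ⟨ha i (by omega), ha (i + 1) hi, hrel i (by omega)⟩⟩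
  obtain ⟨p, hp⟩ := (hreach n le_rfl).exists_isPath
  have hadj : ∀ i < p.length, p.getVert i ∈ A ∧ Rel (p.getVert i) (p.getVert (i + 1)) := by
    intro i hi
    have h1 := p.adj_getVert_succ hi
    have h1' := (SimpleGraph.fromRel_adj _ _ _).1 h1
    rcases h1'.2 with h | h
    · exact ⟨h.1, h.2.2⟩
    · exact ⟨h.2.1, hsymm _ _ h.2.2⟩
  refine ⟨p.length, p.getVert, p.getVert_zero, p.getVert_length, ?_, fun i hi => (hadj i hi).2,
    hp.getVert_injOn⟩
  intro i hi
  rcases Nat.lt_or_ge i p.length with h | h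
  · exact (hadj i h).1
  · have : i = p.length := le_antisymm hi h
    rw [this, p.getVert_length]
    exact ha n le_rfl

/-- K8 -/
theorem chain2 {S : HypSys X E} (c : CF S) (B : UV S) {R : Set X} (hR : MinR S R)
    (hcw : ∃ C : ℝ, 0 < C ∧ ∀ k y, c.cw k y ≤ C * om S B k y) (hseg : SegProp S)
    (hsum : SumProp S B R 2) : Chain2Prop c R := by
  classical
  intro ε hε ρ hρ
  set κ : ℝ := ε / 3 with hκdef
  have hκ : 0 < κ := by positivity
  obtain ⟨ρs, hρs, hs⟩ := hsum κ hκ
  obtain ⟨ρ', hρ', hsg⟩ := hseg (min ρ ρs) (lt_min hρ hρs)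
  refine ⟨ρ', hρ', ?_⟩
  intro x hx x' hxx' δ hδ
  obtain ⟨C, hC, hcw'⟩ := hcw
  obtain ⟨N, hN⟩ := hs (δ / (2 * C ^ 2)) (by positivity)
  -- choose k
  have hlim : Tendsto (fun k : ℕ => C ^ 2 * ((1 / 16 : ℝ) ^ k) ^ 2) atTop (𝓝 (C ^ 2 * 0 ^ 2)) := by
    refine Tendsto.const_mul _ (Tendsto.pow ?_ 2)
    exact tendsto_pow_atTop_nhds_zero_of_lt_one (by norm_num) (by norm_num)
  have hev : ∀ᶠ k : ℕ in atTop, C ^ 2 * ((1 / 16 : ℝ) ^ k) ^ 2 < δ / 2 := by
    refine hlim.eventually_lt_const ?_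
    simp only [ne_eq, OfNat.ofNat_ne_zero, not_false_eq_true, zero_pow, mul_zero]
    positivity
  obtain ⟨k, hkN, hk2⟩ := ((eventually_ge_atTop N).and hev).exists
  obtain ⟨n, e, he0, hen, heρ, hestep⟩ := hsg x x' hxx' k κ hκ
  obtain ⟨A, hAT, hAsep, hAmax⟩ := k8_maximal S κ k hκ ((Finset.range (n + 1)).image e)
  have hmemT : ∀ i ≤ n, e i ∈ (Finset.range (n + 1)).image e := fun i hi =>
    Finset.mem_image_of_mem _ (Finset.mem_range.2 (by omega))
  have hex : ∀ i, ∃ a, i ≤ n → a ∈ A ∧ S.SRel κ (S.g.symm^[k] (e i)) (S.g.symm^[k] a) := by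
    intro i
    by_cases hi : i ≤ n
    · obtain ⟨a, ha, h⟩ := hAmax (e i) (hmemT i hi)
      exact ⟨a, fun _ => ⟨ha, h⟩⟩
    · exact ⟨x, fun h => absurd h hi⟩
  choose a ha using hex
  set Rel : X → X → Prop := fun y y' => S.SRel ε (S.g.symm^[k] y) (S.g.symm^[k] y') with hRel
  obtain ⟨L, b, hb0, hbL, hbA, hbrel, hbinj⟩ := k8_path Rel (fun _ _ h => h.symm) A n a
    (fun i hi => (ha i hi).1) (fun i hi => by
      have h1 := (ha i hi.le).2
      have h2 := (ha (i + 1) hi).2
      have h3 := hestep i hi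
      exact ((h1.symm.trans h3).trans h2).mono (by rw [hκdef]; linarith))
  have hAρ : ∀ y ∈ A, S.SRel (min ρ ρs) x y := by
    intro y hy
    obtain ⟨i, hi, rfl⟩ := Finset.mem_image.1 (hAT hy)
    exact heρ i (by have := Finset.mem_range.1 hi; omega)
  obtain ⟨f, hf0, hf1⟩ : ∃ f : ℕ → X, f 0 = x ∧ ∀ j, f (j + 1) = if j ≤ L then b j else x' :=
    ⟨fun i => Nat.casesOn i x (fun j => if j ≤ L then b j else x'), rfl, fun _ => rfl⟩
  refine ⟨k, L + 2, f, hf0, ?_, ?_, ?_, ?_⟩
  · rw [hf1]; simp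
  · intro i hi
    cases i with
    | zero =>
      intro m
      rw [hf0, dist_self]
      exact hρ.le
    | succ j =>
      rw [hf1]
      split_ifs with h
      · exact (hAρ _ (hbA j h)).mono (min_le_left _ _)
      · have := heρ n le_rfl
        rw [hen] at this
        exact this.mono (min_le_left _ _)
  · intro i hi
    cases i with
    | zero =>
      rw [hf0, hf1, if_pos (Nat.zero_le _), hb0]
      have h1 := (ha 0 (Nat.zero_le _)).2
      rw [he0] at h1
      exact h1.mono (by rw [hκdef]; linarith)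
    | succ j =>
      rw [hf1, hf1]
      rcases Nat.lt_or_ge j L with h | h
      · have h1 : j ≤ L := h.le
        have h2 : j + 1 ≤ L := h
        rw [if_pos h1, if_pos h2]
        exact hbrel j h
      · have h0 : j = L := by omega
        subst h0
        have h2 : ¬ (j + 1 ≤ j) := by omega
        rw [if_pos le_rfl, if_neg h2, hbL]
        have h1 := (ha n le_rfl).2
        rw [hen] at h1
        exact h1.symm.mono (by rw [hκdef]; linarith)
  · rw [Finset.sum_range_succ' _ (L + 1)]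
    simp only [hf0, hf1]
    have hcw0 : ∀ y, 0 ≤ c.cw k y := fun y => inv_nonneg.2 (norm_nonneg _)
    have hx2 : c.cw k x ^ 2 ≤ δ / 2 := by
      have h1 : om S B k x ≤ (1 / 16 : ℝ) ^ k := by
        have := Dn_symm_le S k x (B.mem x)
        rw [B.norm x, mul_one] at this
        exact this
      have h2 : c.cw k x ≤ C * (1 / 16 : ℝ) ^ k :=
        (hcw' k x).trans (mul_le_mul_of_nonneg_left h1 hC.le)
      calc c.cw k x ^ 2 ≤ (C * (1 / 16 : ℝ) ^ k) ^ 2 := pow_le_pow_left₀ (hcw0 x) h2 2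
        _ = C ^ 2 * ((1 / 16 : ℝ) ^ k) ^ 2 := by ring
        _ ≤ δ / 2 := hk2.le
    have hsumle : ∑ j ∈ Finset.range (L + 1), c.cw k (if j ≤ L then b j else x') ^ 2 ≤ δ / 2 := by
      have h1 : ∑ j ∈ Finset.range (L + 1), c.cw k (if j ≤ L then b j else x') ^ 2
          = ∑ j ∈ Finset.range (L + 1), c.cw k (b j) ^ 2 := by
        refine Finset.sum_congr rfl fun j hj => ?_
        have : j ≤ L := by have := Finset.mem_range.1 hj; omega
        rw [if_pos this]
      rw [h1]
      have hinj : Set.InjOn b (Finset.range (L + 1) : Finset ℕ) := by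
        intro i hi j hj h
        have hi' := Finset.mem_range.1 (Finset.mem_coe.1 hi)
        have hj' := Finset.mem_range.1 (Finset.mem_coe.1 hj)
        exact hbinj (show i ≤ L by omega) (show j ≤ L by omega) h
      rw [← Finset.sum_image (f := fun y => c.cw k y ^ 2) hinj]
      have hsub : (Finset.range (L + 1)).image b ⊆ A := by
        intro y hy
        obtain ⟨j, hj, rfl⟩ := Finset.mem_image.1 hy
        exact hbA j (by have := Finset.mem_range.1 hj; omega)
      calc ∑ y ∈ (Finset.range (L + 1)).image b, c.cw k y ^ 2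
          ≤ ∑ y ∈ A, c.cw k y ^ 2 :=
            Finset.sum_le_sum_of_subset_of_nonneg hsub fun y _ _ => sq_nonneg _
        _ ≤ ∑ y ∈ A, C ^ 2 * om S B k y ^ 2 := by
            refine Finset.sum_le_sum fun y _ => ?_
            calc c.cw k y ^ 2 ≤ (C * om S B k y) ^ 2 := pow_le_pow_left₀ (hcw0 y) (hcw' k y) 2
              _ = C ^ 2 * om S B k y ^ 2 := by ring
        _ = C ^ 2 * ∑ y ∈ A, om S B k y ^ 2 := by rw [Finset.mul_sum]
        _ ≤ C ^ 2 * (δ / (2 * C ^ 2)) := by
            refine mul_le_mul_of_nonneg_left ?_ (sq_nonneg _)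
            exact hN k hkN x hx A (fun y hy => (hAρ y hy).mono (min_le_right _ _)) hAsep
        _ = δ / 2 := by field_simp
    linarith

end Pool.Agent.H779R2.An
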