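import Pool.Agent.H779R2.An.CDefs

set_option autoImplicit false

namespace Pool.Agent.H779R2.An

open Pool.Agent.H721R2 Filter Topology MeasureTheory
open scoped BigOperators

variable {X E : Type*} [MetricSpace X] [CompactSpace X] [NormedAddCommGroup E]
  [InnerProductSpace ℝ E] [FiniteDimensional ℝ E]

omit [CompactSpace X] [FiniteDimensional ℝ E] in
private theorem cov_cw_le {S : HypSys X E} (c : CF S) (k : ℕ) (y : X) :
    c.cw k y ≤ (1 / 16 : ℝ) ^ k := by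
  unfold CF.cw CF.Lp
  rw [norm_prod, one_div, inv_pow]
  have h1 : (16 : ℝ) ^ k ≤ ∏ i ∈ Finset.range k, ‖c.lam (S.g^[i] (S.g.symm^[k] y))‖ := by
    calc (16 : ℝ) ^ k = ∏ _i ∈ Finset.range k, (16 : ℝ) := by
          rw [Finset.prod_const, Finset.card_range]
      _ ≤ _ := Finset.prod_le_prod (fun _ _ => by norm_num) (fun i _ => c.lam_ge _)
  exact inv_anti₀ (by positivity) h1

private theorem cov_loc {S : HypSys X E} {c : CF S} (T : TH c) {R : Set X}
    (hlev : LevProp T) (htr : TrackProp T R) :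
    ∃ ρ₀ > 0, ∀ (d : ℕ) (v : X) (ρ ρ₁ : ℝ) (ψ : EuclideanSpace ℝ (Fin d) → X), ρ ≤ ρ₀ →
      IsChart S v ρ ρ₁ ψ → ∀ a, ‖a‖ < ρ₁ → (∃ x ∈ R, UAsym S (ψ a) x) →
      ∃ δ > 0, ∀ a', ‖a' - a‖ < δ → ∃ x ∈ R, UAsym S (ψ a') x := by
  obtain ⟨C, hC, εl, hεl, -, hl, -⟩ := hlev
  obtain ⟨εt, hεt, -, ht⟩ := htr
  have hg := c.geo
  refine ⟨min c.ε₀ εt / 2, by have := lt_min hg.pos hεt; positivity, ?_⟩
  intro d v ρ ρ₁ ψ hρ hch a ha hax
  obtain ⟨x, hx, hax⟩ := hax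
  set B := ‖c.lc (ψ a) x‖ with hB
  have hB0 : 0 ≤ B := norm_nonneg _
  have hlim : Tendsto (fun n : ℕ => (1 / 16 : ℝ) ^ n * (C * B)) atTop (𝓝 0) := by
    have := (tendsto_pow_atTop_nhds_zero_of_lt_one (by norm_num : (0 : ℝ) ≤ 1 / 16)
      (by norm_num)).mul_const (C * B)
    simpa using this
  obtain ⟨k, hk⟩ := (hlim.eventually (gt_mem_nhds (by norm_num : (0 : ℝ) < 1 / 2))).exists
  obtain ⟨δ₁, hδ₁, hlevel⟩ := SRel_level hg k εl hεl
  have h2ρ : 2 * ρ ≤ min c.ε₀ εt := by linarith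
  have hra : 0 < ρ₁ - ‖a‖ := by linarith
  refine ⟨min (ρ₁ - ‖a‖) (δ₁ / 2), lt_min hra (by positivity), ?_⟩
  intro a' ha'
  have ha1 : ‖a' - a‖ < ρ₁ - ‖a‖ := lt_of_lt_of_le ha' (min_le_left _ _)
  have ha2 : ‖a' - a‖ < δ₁ / 2 := lt_of_lt_of_le ha' (min_le_right _ _)
  set σ : ℝ → EuclideanSpace ℝ (Fin d) := fun t => a + t • (a' - a) with hσ
  have hσd : ∀ t ∈ Set.Icc (0 : ℝ) 1, ‖σ t - a‖ ≤ ‖a' - a‖ := by
    intro t ht
    have : σ t - a = t • (a' - a) := by simp [hσ]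
    rw [this, norm_smul, Real.norm_eq_abs, abs_of_nonneg ht.1]
    calc t * ‖a' - a‖ ≤ 1 * ‖a' - a‖ := mul_le_mul_of_nonneg_right ht.2 (norm_nonneg _)
      _ = _ := one_mul _
  have hσn : ∀ t ∈ Set.Icc (0 : ℝ) 1, ‖σ t‖ ≤ ρ₁ := by
    intro t ht
    have h1 := hσd t ht
    have h2 : ‖σ t‖ ≤ ‖a‖ + ‖σ t - a‖ := by
      have := norm_add_le a (σ t - a)
      rwa [add_sub_cancel] at this
    linarith
  have hcont : ContinuousOn (fun t => ψ (σ t)) (Set.Icc 0 1) := by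
    have hψ : ContinuousOn ψ (Metric.closedBall 0 ρ₁) := by
      have : LipschitzOnWith 2 ψ (Metric.closedBall 0 ρ₁) := by
        refine LipschitzOnWith.of_dist_le_mul ?_
        intro p hp q hq
        have := hch.le p q (by simpa using hp) (by simpa using hq)
        rw [dist_eq_norm p q]
        exact_mod_cast this
      exact this.continuousOn
    refine hψ.comp (f := σ) (by fun_prop) ?_
    intro t ht
    simpa using hσn t ht
  have hrelσ : ∀ t ∈ Set.Icc (0 : ℝ) 1, S.SRel (2 * ρ) (ψ a) (ψ (σ t)) := by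
    intro t ht
    have h1 := hch.rel a ha.le
    have h2 := hch.rel (σ t) (hσn t ht)
    have h3 := h1.symm.trans h2
    have : ρ + ρ = 2 * ρ := by ring
    rwa [this] at h3
  have h0 : σ 0 = a := by simp [hσ]
  have h1' : σ 1 = a' := by simp [hσ]
  obtain ⟨x', hx', hU, -⟩ := ht (ψ a) (fun t => ψ (σ t)) hcont (by simp only [h0])
    (fun t ht' => (hrelσ t ht').mono (h2ρ.trans (min_le_right _ _))) x hx hax (by
      intro t ht' heq
      have hS := (hrelσ t ht').mono (h2ρ.trans (min_le_left _ _))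
      have hd : dist (ψ a) (ψ (σ t)) ≤ δ₁ := by
        have h3 := hch.le a (σ t) ha.le (hσn t ht')
        have h4 := hσd t ht'
        rw [norm_sub_rev] at h4
        linarith
      have h5 := hl k _ _ (hlevel _ _ hS hd)
      have h6 := cov_cw_le c k (ψ a)
      have h7 : ‖T.th (ψ a) (ψ (σ t)) * c.lc (ψ a) x‖ ≤ (1 / 16 : ℝ) ^ k * (C * B) := by
        rw [norm_mul]
        calc _ ≤ (C * c.cw k (ψ a)) * B := mul_le_mul_of_nonneg_right h5 hB0
          _ ≤ (C * (1 / 16 : ℝ) ^ k) * B :=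
            mul_le_mul_of_nonneg_right (mul_le_mul_of_nonneg_left h6 hC.le) hB0
          _ = _ := by ring
      rw [heq, norm_one] at h7
      linarith)
  simp only [h1'] at hU
  exact ⟨x', hx', hU⟩

/-- K22 -/
theorem cover2 [PreconnectedSpace X] {S : HypSys X E} {c : CF S} (T : TH c) {R : Set X}
    (hR : MinR S R) (hlev : LevProp T) (htr : TrackProp T R) (d : ℕ) (hch : ChartProp S d)
    (hcc : ∃ ρ₀ > 0, ∀ (v : X) (ρ ρ₁ : ℝ) (ψ : EuclideanSpace ℝ (Fin d) → X), ρ ≤ ρ₀ →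
      IsChart S v ρ ρ₁ ψ → ∀ w : EuclideanSpace ℝ (Fin d), ‖w‖ < ρ₁ →
      (∀ a, ‖a‖ < ‖w‖ → ∃ x ∈ R, UAsym S (ψ a) x) → (∃ x ∈ R, UAsym S v x) →
      ∃ x ∈ R, UAsym S (ψ w) x) :
    ∀ v, ∃ x ∈ R, UAsym S v x := by
  obtain ⟨ρa, hρa, hloc⟩ := cov_loc T hlev htr
  obtain ⟨ρc, hρc, hcc⟩ := hcc
  obtain ⟨ρ₁, hρ₁, ε', hε', hchart⟩ := hch (min ρa ρc) (lt_min hρa hρc)
  have hs : ∀ v v', S.SRel ε' v v' → (∃ x ∈ R, UAsym S v x) → ∃ x ∈ R, UAsym S v' x := by
    intro v v' hvv' hv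
    obtain ⟨ψ, hψ, hb⟩ := hchart v
    obtain ⟨b, hb1, hb2⟩ := hb v' hvv'
    by_contra hno
    have hbρ : ‖b‖ < ρ₁ := by linarith
    set Bd : Set (EuclideanSpace ℝ (Fin d)) := {a | ‖a‖ ≤ ‖b‖ ∧ ¬ ∃ x ∈ R, UAsym S (ψ a) x}
      with hBd
    have hclosed : IsClosed Bd := by
      rw [← isOpen_compl_iff, Metric.isOpen_iff]
      intro a ha
      by_cases hab : ‖a‖ ≤ ‖b‖
      · have hax : ∃ x ∈ R, UAsym S (ψ a) x := by
          by_contra h
          exact ha ⟨hab, h⟩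
        obtain ⟨δ, hδ, h⟩ := hloc d v _ ρ₁ ψ (min_le_left _ _) hψ a (by linarith) hax
        refine ⟨δ, hδ, fun a' ha' hmem => hmem.2 (h a' ?_)⟩
        rw [← dist_eq_norm]
        exact ha'
      · have hab' : ‖b‖ < ‖a‖ := not_le.mp hab
        refine ⟨‖a‖ - ‖b‖, by linarith, fun a' ha' hmem => ?_⟩
        have h1 : dist a' a < ‖a‖ - ‖b‖ := ha'
        rw [dist_eq_norm, norm_sub_rev] at h1
        have h2 := norm_sub_norm_le a a'
        have h3 := hmem.1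
        linarith
    have hcomp : IsCompact Bd := by
      refine IsCompact.of_isClosed_subset (isCompact_closedBall (0 : EuclideanSpace ℝ (Fin d)) ‖b‖)
        hclosed ?_
      intro a ha
      simpa using ha.1
    have hne : Bd.Nonempty := ⟨b, le_rfl, by rw [hb2]; exact hno⟩
    obtain ⟨w, hw, hmin⟩ := hcomp.exists_isMinOn hne continuous_norm.continuousOn
    have hwρ : ‖w‖ < ρ₁ := by
      have := hw.1
      linarith
    refine hw.2 (hcc v _ ρ₁ ψ (min_le_right _ _) hψ w hwρ ?_ hv)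
    intro a ha
    by_contra h
    have hmem : a ∈ Bd := ⟨by have := hw.1; linarith, h⟩
    have := hmin hmem
    simp only [Set.mem_setOf_eq] at this
    linarith
  have hg := c.geo
  obtain ⟨εb, hεb, hb⟩ := exists_bracket S (min ε' c.ε₀) (lt_min hε' hg.pos)
  set V : Set X := {v | ∃ x ∈ R, UAsym S v x} with hV
  have hlocV : ∀ v ∈ V, ∀ v', dist v v' ≤ εb → v' ∈ V := by
    intro v hv v' hd
    obtain ⟨w, h1, h2⟩ := hb v v' hd
    obtain ⟨x, hx, hwx⟩ := hs v w (h1.mono (min_le_left _ _)) hv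
    exact ⟨x, hx, (hg.uasym _ _ (h2.mono (min_le_right _ _))).symm.trans hwx⟩
  have hopen : IsOpen V := by
    rw [Metric.isOpen_iff]
    intro v hv
    refine ⟨εb, hεb, fun v' hv' => hlocV v hv v' ?_⟩
    rw [dist_comm]
    exact (Metric.mem_ball.mp hv').le
  have hopen' : IsOpen Vᶜ := by
    rw [Metric.isOpen_iff]
    intro v hv
    refine ⟨εb, hεb, fun v' hv' hmem => hv (hlocV v' hmem v ?_)⟩
    exact (Metric.mem_ball.mp hv').le
  have hclop : IsClopen V := ⟨isOpen_compl_iff.mp hopen', hopen⟩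
  have hne : V.Nonempty := by
    obtain ⟨x, hx⟩ := hR.nonempty
    exact ⟨x, x, hx, UAsym.refl S x⟩
  have huniv := hclop.eq_univ hne
  intro v
  have : v ∈ V := by rw [huniv]; exact Set.mem_univ v
  exact this

end Pool.Agent.H779R2.An
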