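import Pool.Agent.H779R2.An.CDefs

set_option autoImplicit false

namespace Pool.Agent.H779R2.An

open Pool.Agent.H721R2 Filter Topology MeasureTheory
open scoped BigOperators

namespace K15

theorem packing {Y : Type*} (Z : Finset Y) (f : Y → ℂ) (a : ℂ) (ρ r : ℝ) (hρ : 0 ≤ ρ) (hr : 0 < r)
    (h1 : ∀ x ∈ Z, ‖f x - a‖ ≤ ρ) (h2 : ∀ x ∈ Z, ∀ x' ∈ Z, x ≠ x' → r ≤ ‖f x - f x'‖) :
    (Z.card : ℝ) ≤ (2 * ρ / r + 1) ^ 2 := by
  have hsub : (⋃ x ∈ Z, Metric.ball (f x) (r / 2)) ⊆ Metric.ball a (ρ + r / 2) := by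
    intro y hy
    simp only [Set.mem_iUnion] at hy
    obtain ⟨x, hx, hy⟩ := hy
    rw [Metric.mem_ball] at hy ⊢
    have := h1 x hx
    rw [← dist_eq_norm] at this
    calc dist y a ≤ dist y (f x) + dist (f x) a := dist_triangle _ _ _
      _ < r / 2 + ρ := by linarith
      _ = ρ + r / 2 := by ring
  have hdisj : (Z : Set Y).PairwiseDisjoint (fun x => Metric.ball (f x) (r / 2)) := by
    intro x hx x' hx' hne
    apply Metric.ball_disjoint_ball
    rw [dist_eq_norm]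
    have := h2 x hx x' hx' hne
    linarith
  have hvol : volume (⋃ x ∈ Z, Metric.ball (f x) (r / 2)) =
      ∑ x ∈ Z, volume (Metric.ball (f x) (r / 2)) :=
    measure_biUnion_finset hdisj (fun _ _ => measurableSet_ball)
  have h3 := measure_mono (μ := volume) hsub
  rw [hvol] at h3
  simp only [Complex.volume_ball, Finset.sum_const, nsmul_eq_mul] at h3
  have h4 : (Z.card : ℝ) * ((r / 2) ^ 2 * Real.pi) ≤ (ρ + r / 2) ^ 2 * Real.pi := by
    have h5 := ENNReal.toReal_mono (by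
      apply ENNReal.mul_ne_top
      · exact ENNReal.pow_ne_top ENNReal.ofReal_ne_top
      · exact ENNReal.coe_ne_top) h3
    simp only [ENNReal.toReal_mul, ENNReal.toReal_natCast, ENNReal.toReal_pow,
      ENNReal.coe_toReal, NNReal.coe_real_pi] at h5
    rwa [ENNReal.toReal_ofReal (by positivity), ENNReal.toReal_ofReal (by positivity)] at h5
  have hpi := Real.pi_pos
  have h6 : (Z.card : ℝ) * (r / 2) ^ 2 ≤ (ρ + r / 2) ^ 2 := by
    have : (Z.card : ℝ) * (r / 2) ^ 2 * Real.pi ≤ (ρ + r / 2) ^ 2 * Real.pi := by linarith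
    exact le_of_mul_le_mul_right this hpi
  have h7 : (2 * ρ / r + 1) ^ 2 = (ρ + r / 2) ^ 2 / (r / 2) ^ 2 := by
    field_simp
  rw [h7, le_div_iff₀ (by positivity)]
  exact h6

theorem thin {Y : Type*} (Z : Finset Y) (f : Y → ℂ) (r a : ℝ) (hr : 0 < r) (ha : 0 < a)
    (h2 : ∀ x ∈ Z, ∀ x' ∈ Z, x ≠ x' → a * r ≤ ‖f x - f x'‖) :
    ∃ W ⊆ Z, (∀ x ∈ W, ∀ x' ∈ W, x ≠ x' → r ≤ ‖f x - f x'‖) ∧
      (Z.card : ℝ) ≤ (2 / a + 1) ^ 2 * W.card := by
  classical
  obtain ⟨P, hP⟩ : ∃ P : Finset Y → Prop,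
    ∀ W, P W ↔ ∀ x ∈ W, ∀ x' ∈ W, x ≠ x' → r ≤ ‖f x - f x'‖ := ⟨_, fun _ => Iff.rfl⟩
  obtain ⟨W, hW, hmax⟩ := Finset.exists_max_image (Z.powerset.filter P) Finset.card
    ⟨∅, by rw [Finset.mem_filter, Finset.mem_powerset, hP]; simp⟩
  rw [Finset.mem_filter, Finset.mem_powerset, hP] at hW
  refine ⟨W, hW.1, hW.2, ?_⟩
  have hcov : ∀ x ∈ Z, ∃ y ∈ W, ‖f x - f y‖ < r := by
    intro x hx
    by_contra hcon
    push Not at hcon
    have hxW : x ∉ W := fun h => by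
      have := hcon x h
      simp at this
      linarith
    have := hmax (insert x W) (by
      rw [Finset.mem_filter, Finset.mem_powerset, hP]
      refine ⟨Finset.insert_subset hx hW.1, ?_⟩
      intro y hy y' hy' hne
      rcases Finset.mem_insert.mp hy with h1 | h1
      · rcases Finset.mem_insert.mp hy' with h3 | h3
        · exact absurd (h1.trans h3.symm) hne
        · rw [h1]; exact hcon y' h3
      · rcases Finset.mem_insert.mp hy' with h3 | h3
        · rw [norm_sub_rev, h3]; exact hcon y h1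
        · exact hW.2 y h1 y' h3 hne)
    rw [Finset.card_insert_of_notMem hxW] at this
    omega
  have hZ : Z ⊆ W.biUnion (fun y => Z.filter (fun x => ‖f x - f y‖ < r)) := by
    intro x hx
    obtain ⟨y, hy, hxy⟩ := hcov x hx
    exact Finset.mem_biUnion.mpr ⟨y, hy, Finset.mem_filter.mpr ⟨hx, hxy⟩⟩
  have h3 : ∀ y ∈ W, ((Z.filter (fun x => ‖f x - f y‖ < r)).card : ℝ) ≤ (2 / a + 1) ^ 2 := by
    intro y _
    have := packing (Z.filter (fun x => ‖f x - f y‖ < r)) f (f y) r (a * r) hr.le (by positivity)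
      (fun x hx => (Finset.mem_filter.mp hx).2.le)
      (fun x hx x' hx' hne => h2 x (Finset.mem_filter.mp hx).1 x' (Finset.mem_filter.mp hx').1 hne)
    have h4 : 2 * r / (a * r) = 2 / a := by field_simp
    rwa [h4] at this
  calc (Z.card : ℝ) ≤ ((W.biUnion (fun y => Z.filter (fun x => ‖f x - f y‖ < r))).card : ℝ) := by
        exact_mod_cast Finset.card_le_card hZ
    _ ≤ ((∑ y ∈ W, (Z.filter (fun x => ‖f x - f y‖ < r)).card : ℕ) : ℝ) := by
        exact_mod_cast Finset.card_biUnion_le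
    _ = ∑ y ∈ W, ((Z.filter (fun x => ‖f x - f y‖ < r)).card : ℝ) := by push_cast; rfl
    _ ≤ ∑ _y ∈ W, (2 / a + 1) ^ 2 := Finset.sum_le_sum h3
    _ = (2 / a + 1) ^ 2 * W.card := by rw [Finset.sum_const, nsmul_eq_mul]; ring

end K15

variable {X E : Type*} [MetricSpace X] [CompactSpace X] [NormedAddCommGroup E]
  [InnerProductSpace ℝ E] [FiniteDimensional ℝ E]

section aux

variable {S : HypSys X E} (c : CF S)

omit [CompactSpace X] [FiniteDimensional ℝ E]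

theorem K15.le_Lp (m : ℕ) (x : X) : (16 : ℝ) ^ m ≤ ‖c.Lp m x‖ := by
  unfold CF.Lp
  rw [norm_prod]
  calc (16 : ℝ) ^ m = ∏ _i ∈ Finset.range m, (16 : ℝ) := by simp
    _ ≤ _ := Finset.prod_le_prod (fun _ _ => by norm_num) (fun i _ => c.lam_ge _)

theorem K15.Lp_le (m : ℕ) (x : X) : ‖c.Lp m x‖ ≤ c.M ^ m := by
  unfold CF.Lp
  rw [norm_prod]
  calc _ ≤ ∏ _i ∈ Finset.range m, c.M :=
        Finset.prod_le_prod (fun _ _ => norm_nonneg _) (fun i _ => c.lam_le _)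
    _ = c.M ^ m := by simp

theorem K15.Lp_pos (m : ℕ) (x : X) : 0 < ‖c.Lp m x‖ :=
  lt_of_lt_of_le (by positivity) (K15.le_Lp c m x)

theorem K15.lc_iter {z x : X} (h : UAsym S z x) (m : ℕ) :
    c.lc (S.g^[m] z) (S.g^[m] x) = c.Lp m z * c.lc z x := by
  induction m with
  | zero => simp [CF.Lp]
  | succ m ih =>
    rw [Function.iterate_succ_apply', Function.iterate_succ_apply', c.lc_equi _ _ (h.iter m), ih]
    unfold CF.Lp
    rw [Finset.prod_range_succ]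
    ring

theorem K15.tau_iter {z x : X} (h : UAsym S z x) (m : ℕ) :
    c.tau (S.g^[m] z) (S.g^[m] x) * c.Lp m z = c.Lp m x * c.tau z x := by
  induction m with
  | zero => simp [CF.Lp]
  | succ m ih =>
    rw [Function.iterate_succ_apply', Function.iterate_succ_apply']
    have h1 := c.tau_equi _ _ (h.iter m)
    unfold CF.Lp at ih ⊢
    rw [Finset.prod_range_succ, Finset.prod_range_succ]
    linear_combination (∏ i ∈ Finset.range m, c.lam (S.g^[i] z)) * h1 + c.lam (S.g^[m] x) * ih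

theorem K15.tau_inv {z x : X} (h : UAsym S z x) : c.tau x z * c.tau z x = 1 := by
  rw [c.tau_comp z x z h h.symm, c.tau_self]

theorem K15.R_iter {R : Set X} (hR : MinR S R) (m : ℕ) {x : X} (hx : x ∈ R) : S.g^[m] x ∈ R := by
  induction m with
  | zero => exact hx
  | succ m ih => rw [Function.iterate_succ_apply']; exact hR.map _ ih

theorem K15.R_symm_iter {R : Set X} (hR : MinR S R) (m : ℕ) {x : X} (hx : x ∈ R) :
    S.g.symm^[m] x ∈ R := by
  induction m with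
  | zero => exact hx
  | succ m ih => rw [Function.iterate_succ_apply']; exact hR.map' _ ih

end aux

/-- K15 -/
theorem sepN_card_le {S : HypSys X E} (c : CF S) (R : Set X) (z : X) (ρ r : ℝ) (hρ : 0 ≤ ρ)
    (hr : 0 < r) (n : ℕ) (h : SepN c R z ρ r n) : (n : ℝ) ≤ (2 * ρ / r + 1) ^ 2 := by
  obtain ⟨Z, rfl, h1, h2⟩ := h
  exact K15.packing Z (c.lc z) 0 ρ r hρ hr (fun x hx => by rw [sub_zero]; exact (h1 x hx).2.2) h2

/-- K15 -/
theorem sepN_thin {S : HypSys X E} (c : CF S) (R : Set X) (z : X) (ρ r a : ℝ)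
    (hr : 0 < r) (ha : 0 < a) (ha1 : a ≤ 1) (n : ℕ) (h : SepN c R z ρ (a * r) n) :
    ∃ m, SepN c R z ρ r m ∧ (n : ℝ) ≤ (2 / a + 1) ^ 2 * m := by
  obtain ⟨Z, rfl, h1, h2⟩ := h
  obtain ⟨W, hW, h3, h4⟩ := K15.thin Z (c.lc z) r a hr ha h2
  exact ⟨W.card, ⟨W, rfl, fun x hx => h1 x (hW hx), h3⟩, h4⟩

/-- K15 -/
theorem sepN_map {S : HypSys X E} (c : CF S) {R : Set X} (hR : MinR S R) (z : X) (ρ r : ℝ)
    (n m : ℕ) : SepN c R (S.g^[m] z) (‖c.Lp m z‖ * ρ) (‖c.Lp m z‖ * r) n ↔ SepN c R z ρ r n := by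
  classical
  have hpos := K15.Lp_pos c m z
  constructor
  · rintro ⟨Z, rfl, h1, h2⟩
    have hinj : Function.Injective (fun x => S.g.symm^[m] x) := S.g.symm.injective.iterate m
    have hu : ∀ x ∈ Z, UAsym S z (S.g.symm^[m] x) := fun x hx =>
      UAsym.of_iter m (by rw [iter_iter_symm]; exact (h1 x hx).2.1)
    have hlc : ∀ x ∈ Z, c.lc (S.g^[m] z) x = c.Lp m z * c.lc z (S.g.symm^[m] x) := fun x hx => by
      have := K15.lc_iter c (hu x hx) m
      rwa [iter_iter_symm] at this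
    refine ⟨Z.image (fun x => S.g.symm^[m] x), Finset.card_image_of_injective _ hinj, ?_, ?_⟩
    · intro y hy
      obtain ⟨x, hx, rfl⟩ := Finset.mem_image.mp hy
      refine ⟨K15.R_symm_iter hR m (h1 x hx).1, hu x hx, ?_⟩
      have h3 := (h1 x hx).2.2
      rw [hlc x hx, norm_mul] at h3
      exact le_of_mul_le_mul_left h3 hpos
    · intro y hy y' hy' hne
      obtain ⟨x, hx, rfl⟩ := Finset.mem_image.mp hy
      obtain ⟨x', hx', rfl⟩ := Finset.mem_image.mp hy'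
      have hne' : x ≠ x' := fun h => hne (by rw [h])
      have h3 := h2 x hx x' hx' hne'
      rw [hlc x hx, hlc x' hx', ← mul_sub, norm_mul] at h3
      exact le_of_mul_le_mul_left h3 hpos
  · rintro ⟨Z, rfl, h1, h2⟩
    have hinj : Function.Injective (fun x => S.g^[m] x) := S.g.injective.iterate m
    refine ⟨Z.image (fun x => S.g^[m] x), Finset.card_image_of_injective _ hinj, ?_, ?_⟩
    · intro y hy
      obtain ⟨x, hx, rfl⟩ := Finset.mem_image.mp hy
      refine ⟨K15.R_iter hR m (h1 x hx).1, (h1 x hx).2.1.iter m, ?_⟩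
      rw [K15.lc_iter c (h1 x hx).2.1 m, norm_mul]
      exact mul_le_mul_of_nonneg_left (h1 x hx).2.2 hpos.le
    · intro y hy y' hy' hne
      obtain ⟨x, hx, rfl⟩ := Finset.mem_image.mp hy
      obtain ⟨x', hx', rfl⟩ := Finset.mem_image.mp hy'
      have hne' : x ≠ x' := fun h => hne (by rw [h])
      rw [K15.lc_iter c (h1 x hx).2.1 m, K15.lc_iter c (h1 x' hx').2.1 m, ← mul_sub, norm_mul]
      exact mul_le_mul_of_nonneg_left (h2 x hx x' hx' hne') hpos.le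

/-- K15 -/
theorem sepN_base {S : HypSys X E} (c : CF S) {R : Set X} (z x : X) (hzx : UAsym S z x)
    (ρ r : ℝ) (n : ℕ) (h : SepN c R x ρ r n) :
    SepN c R z (‖c.lc z x‖ + ρ / ‖c.tau z x‖) (r / ‖c.tau z x‖) n := by
  obtain ⟨Z, rfl, h1, h2⟩ := h
  have hne : c.tau z x ≠ 0 := fun h => by
    have := K15.tau_inv c hzx
    rw [h, mul_zero] at this
    exact zero_ne_one this
  have hpos : 0 < ‖c.tau z x‖ := norm_pos_iff.mpr hne
  have hlc : ∀ y ∈ Z, c.lc z y = c.lc z x + c.lc x y / c.tau z x := fun y hy => by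
    rw [c.base z x y hzx (hzx.trans (h1 y hy).2.1)]
    field_simp
    ring
  refine ⟨Z, rfl, fun y hy => ⟨(h1 y hy).1, hzx.trans (h1 y hy).2.1, ?_⟩, ?_⟩
  · rw [hlc y hy]
    refine (norm_add_le _ _).trans ?_
    rw [norm_div]
    have := (h1 y hy).2.2
    gcongr
  · intro y hy y' hy' hne'
    have : c.lc z y - c.lc z y' = (c.lc x y - c.lc x y') / c.tau z x := by
      rw [hlc y hy, hlc y' hy']; ring
    rw [this, norm_div]
    have := h2 y hy y' hy' hne'
    gcongr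

/-- K15 -/
theorem tau_bound {S : HypSys X E} (c : CF S) (A : ℝ) : ∃ C : ℝ, 1 ≤ C ∧ ∀ x y, UAsym S x y →
    ‖c.lc x y‖ ≤ A → ‖c.tau x y‖ ≤ C ∧ 1 ≤ C * ‖c.tau x y‖ := by
  obtain ⟨ρ, hρ, hsmall⟩ := c.small c.ε₀ c.geo.pos
  have hM := c.one_le_M
  obtain ⟨n, hn⟩ : ∃ n : ℕ, A / 16 ^ n ≤ ρ := by
    obtain ⟨n, hn⟩ := exists_nat_ge (A / ρ)
    refine ⟨n, ?_⟩
    rw [div_le_iff₀ (by positivity)]
    have h1 : (n : ℝ) ≤ 16 ^ n := by
      have : n < 16 ^ n := Nat.lt_pow_self (by norm_num)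
      exact_mod_cast this.le
    rw [div_le_iff₀ hρ] at hn
    nlinarith
  refine ⟨c.M ^ (n + 1), one_le_pow₀ hM, ?_⟩
  intro x y hxy hA
  set xn := S.g.symm^[n] x with hxn
  set yn := S.g.symm^[n] y with hyn
  have hu : UAsym S xn yn := hxy.symm_iter n
  have h1 := K15.lc_iter c hu n
  have h2 := K15.tau_iter c hu n
  rw [hxn, hyn, iter_iter_symm, iter_iter_symm, ← hxn, ← hyn] at h1 h2
  have hLx := K15.le_Lp c n xn
  have hLy := K15.le_Lp c n yn
  have hLx' := K15.Lp_le c n xn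
  have hLy' := K15.Lp_le c n yn
  have h16 : (1 : ℝ) ≤ 16 ^ n := one_le_pow₀ (by norm_num)
  have h16' : (0 : ℝ) < 16 ^ n := by positivity
  have hlcn : ‖c.lc xn yn‖ ≤ ρ := by
    refine le_trans ?_ hn
    rw [le_div_iff₀ h16']
    rw [h1, norm_mul] at hA
    calc ‖c.lc xn yn‖ * 16 ^ n ≤ ‖c.lc xn yn‖ * ‖c.Lp n xn‖ := by gcongr
      _ = ‖c.Lp n xn‖ * ‖c.lc xn yn‖ := mul_comm _ _
      _ ≤ A := hA
  have hrel := hsmall xn yn hu hlcn
  have h3 := c.tau_le xn yn hrel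
  have h4 := c.tau_le yn xn hrel.symm
  have h5 := congrArg norm (K15.tau_inv c hu)
  rw [norm_mul, norm_one] at h5
  have h6 : 1 ≤ c.M * ‖c.tau xn yn‖ := by
    rw [← h5]
    gcongr
  have h7 := congrArg norm h2
  rw [norm_mul, norm_mul] at h7
  have ht0 := norm_nonneg (c.tau x y)
  have hMn : (0 : ℝ) < c.M ^ n := by positivity
  constructor
  · calc ‖c.tau x y‖ ≤ ‖c.tau x y‖ * ‖c.Lp n xn‖ := by
          have : 1 ≤ ‖c.Lp n xn‖ := h16.trans hLx
          nlinarith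
      _ = ‖c.Lp n yn‖ * ‖c.tau xn yn‖ := h7
      _ ≤ c.M ^ n * c.M := by gcongr
      _ = c.M ^ (n + 1) := (pow_succ _ _).symm
  · have h8 : 1 ≤ c.M * (‖c.tau x y‖ * ‖c.Lp n xn‖) := by
      rw [h7]
      calc 1 ≤ c.M * ‖c.tau xn yn‖ := h6
        _ = 1 * (c.M * ‖c.tau xn yn‖) := (one_mul _).symm
        _ ≤ ‖c.Lp n yn‖ * (c.M * ‖c.tau xn yn‖) := by
            gcongr
            exact h16.trans hLy
        _ = c.M * (‖c.Lp n yn‖ * ‖c.tau xn yn‖) := by ring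
    calc 1 ≤ c.M * (‖c.tau x y‖ * ‖c.Lp n xn‖) := h8
      _ ≤ c.M * (‖c.tau x y‖ * c.M ^ n) := by gcongr
      _ = c.M ^ (n + 1) * ‖c.tau x y‖ := by ring

end Pool.Agent.H779R2.An
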