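import Pool.Agent.H779R2.An.CDefs

set_option autoImplicit false

namespace Pool.Agent.H779R2.An

open Pool.Agent.H721R2 Filter Topology MeasureTheory
open scoped BigOperators

variable {X E : Type*} [MetricSpace X] [CompactSpace X] [NormedAddCommGroup E]
  [InnerProductSpace ℝ E] [FiniteDimensional ℝ E]

/-- K3 -/
theorem hol_prop {S : HypSys X E} (c : CF S) : HolProp c := by
  have hε₀ := c.geo.pos
  have hM := c.one_le_M
  have hM0 : 0 < c.M := by linarith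
  set e2 : ℝ := min c.ε₀ (1 / c.M) / 8 with he2def
  have he2 : 0 < e2 := by
    have : 0 < min c.ε₀ (1 / c.M) := lt_min hε₀ (by positivity)
    positivity
  have he2a : 8 * e2 ≤ c.ε₀ := by
    have := min_le_left c.ε₀ (1 / c.M)
    rw [he2def]; linarith
  have he2b : c.M * e2 ≤ 1 := by
    have h1 := min_le_right c.ε₀ (1 / c.M)
    have h2 : e2 ≤ 1 / c.M := by
      have : 0 < 1 / c.M := by positivity
      rw [he2def]; linarith
    calc c.M * e2 ≤ c.M * (1 / c.M) := mul_le_mul_of_nonneg_left h2 hM0.le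
      _ = 1 := by field_simp
  obtain ⟨e1', he1', hcor⟩ := exists_corner S e2 he2
  set e1 : ℝ := min e1' e2 with he1def
  have he1 : 0 < e1 := lt_min he1' he2
  have he1a : e1 ≤ e1' := min_le_left _ _
  have he1b : e1 ≤ e2 := min_le_right _ _
  obtain ⟨ρ0, hρ0, hsurj⟩ := c.surj e1 he1
  have key : ∀ (z z' : X) (u : ℂ), ∃ q q' : X, S.SRel e1 z z' → ‖u‖ ≤ ρ0 →
      S.URel e1 z q ∧ c.lc z q = u ∧ S.URel e2 z' q' ∧ S.SRel e2 q q' := by
    intro z z' u
    by_cases hu : S.SRel e1 z z' ∧ ‖u‖ ≤ ρ0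
    · obtain ⟨q, hq1, hq2⟩ := hsurj z u hu.2
      obtain ⟨q', hq3, hq4⟩ := hcor z z' q (hu.1.mono he1a) (hq1.mono he1a)
      exact ⟨q, q', fun _ _ => ⟨hq1, hq2, hq3, hq4⟩⟩
    · exact ⟨z, z, fun h1 h2 => absurd ⟨h1, h2⟩ hu⟩
  choose P P' hP using key
  have hε1 : min e1 (ρ0 / (2 * c.M)) ≤ e1 := min_le_left _ _
  have hε2 : min e1 (ρ0 / (2 * c.M)) ≤ ρ0 / (2 * c.M) := min_le_right _ _
  refine ⟨ρ0, hρ0, min e1 (ρ0 / (2 * c.M)), lt_min he1 (by positivity), by linarith,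
    fun z z' u => c.lc z' (P' z z' u), ?_⟩
  intro z z' hzz
  have hzz1 : S.SRel e1 z z' := hzz.mono hε1
  have huas : ∀ u : ℂ, ‖u‖ ≤ ρ0 → UAsym S z (P z z' u) := fun u hn =>
    c.geo.uasym _ _ ((hP z z' u hzz1 hn).1.mono (by linarith))
  have huas' : ∀ u : ℂ, ‖u‖ ≤ ρ0 → UAsym S z' (P' z z' u) := fun u hn =>
    c.geo.uasym _ _ ((hP z z' u hzz1 hn).2.2.1.mono (by linarith))
  have h0ρ : ‖(0 : ℂ)‖ ≤ ρ0 := by rw [norm_zero]; exact hρ0.le
  have hP0 : P z z' 0 = z := by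
    apply c.inj z (P z z' 0) z (huas 0 h0ρ) (UAsym.refl S z)
    rw [(hP z z' 0 hzz1 h0ρ).2.1, c.lc_self]
  have hP'0 : P' z z' 0 = z' := by
    have h1 := (hP z z' 0 hzz1 h0ρ).2.2.2
    rw [hP0] at h1
    exact (c.geo.uniq z' (P' z z' 0) ((hzz1.symm.trans h1).mono (by linarith))
      ((hP z z' 0 hzz1 h0ρ).2.2.1.mono (by linarith))).symm
  -- the basic estimate
  have est : ∀ u0 : ℂ, ‖u0‖ ≤ ρ0 → ∀ η > 0, ∃ ρ > 0, ∀ u : ℂ, ‖u‖ ≤ ρ0 →
      ‖u - u0‖ ≤ ρ → ‖c.lc z' (P' z z' u) - c.lc z' (P' z z' u0) -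
        (u - u0) • (c.tau (P' z z' u0) z' * (c.eta (P z z' u0) (P' z z' u0) *
          c.tau z (P z z' u0)))‖ ≤ η * ‖u - u0‖ := by
    intro u0 hn0 η hη
    obtain ⟨k1, k2, k3, k4⟩ := hP z z' u0 hzz1 hn0
    obtain ⟨ρ', hρ', hcd'⟩ := c.cd (P z z' u0) (P' z z' u0) (k4.mono (by linarith))
      (η / c.M ^ 2) (by positivity)
    refine ⟨ρ' / c.M, by positivity, fun u hn hd => ?_⟩
    obtain ⟨l1, l2, l3, l4⟩ := hP z z' u hzz1 hn
    have b1 : c.lc (P z z' u0) (P z z' u) = c.tau z (P z z' u0) * (u - u0) := by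
      rw [c.base z (P z z' u0) (P z z' u) (huas u0 hn0) (huas u hn), l2, k2]
    have b2 : c.lc (P' z z' u0) (P' z z' u) =
        c.tau z' (P' z z' u0) * (c.lc z' (P' z z' u) - c.lc z' (P' z z' u0)) :=
      c.base z' (P' z z' u0) (P' z z' u) (huas' u0 hn0) (huas' u hn)
    have b3 : ‖c.lc (P z z' u0) (P z z' u)‖ ≤ c.M * ‖u - u0‖ := by
      rw [b1, norm_mul]
      exact mul_le_mul_of_nonneg_right (c.tau_le z (P z z' u0) (k1.mono (by linarith)))
        (norm_nonneg _)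
    have b3' : ‖c.lc (P z z' u0) (P z z' u)‖ ≤ ρ' := by
      refine b3.trans ?_
      rw [le_div_iff₀ hM0] at hd
      linarith
    have b4 := hcd' (P z z' u) (P' z z' u) ((k1.symm.trans l1).mono (by linarith)) b3'
      (l4.mono (by linarith)) ((k3.symm.trans l3).mono (by linarith))
    have b5 : c.tau (P' z z' u0) z' * c.tau z' (P' z z' u0) = 1 := by
      rw [c.tau_comp z' (P' z z' u0) z' (huas' u0 hn0) (huas' u0 hn0).symm, c.tau_self]
    have b6 : c.lc z' (P' z z' u) - c.lc z' (P' z z' u0) -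
        (u - u0) • (c.tau (P' z z' u0) z' * (c.eta (P z z' u0) (P' z z' u0) *
          c.tau z (P z z' u0))) =
        c.tau (P' z z' u0) z' * (c.lc (P' z z' u0) (P' z z' u) -
          c.eta (P z z' u0) (P' z z' u0) * c.lc (P z z' u0) (P z z' u)) := by
      rw [b2, b1, smul_eq_mul]
      linear_combination (-(c.lc z' (P' z z' u) - c.lc z' (P' z z' u0))) * b5
    rw [b6, norm_mul]
    have b8 := c.tau_le (P' z z' u0) z' (k3.symm.mono (by linarith))
    calc _ ≤ c.M * (η / c.M ^ 2 * ‖c.lc (P z z' u0) (P z z' u)‖) :=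
          mul_le_mul b8 b4 (norm_nonneg _) hM0.le
      _ ≤ c.M * (η / c.M ^ 2 * (c.M * ‖u - u0‖)) := by gcongr
      _ = η * ‖u - u0‖ := by field_simp
  have hder : ∀ u0 : ℂ, ‖u0‖ < ρ0 → HasDerivAt (fun u => c.lc z' (P' z z' u))
      (c.tau (P' z z' u0) z' * (c.eta (P z z' u0) (P' z z' u0) * c.tau z (P z z' u0))) u0 := by
    intro u0 hu0
    rw [hasDerivAt_iff_isLittleO, Asymptotics.isLittleO_iff]
    intro η hη
    obtain ⟨ρ, hρ, h1⟩ := est u0 hu0.le η hη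
    have h2 : 0 < min ρ (ρ0 - ‖u0‖) := lt_min hρ (by linarith)
    filter_upwards [Metric.ball_mem_nhds u0 h2] with u hu
    rw [Metric.mem_ball, dist_eq_norm, lt_min_iff] at hu
    have h3 : ‖u‖ ≤ ρ0 := by
      have : ‖u‖ ≤ ‖u - u0‖ + ‖u0‖ := by
        calc ‖u‖ = ‖(u - u0) + u0‖ := by rw [sub_add_cancel]
          _ ≤ _ := norm_add_le _ _
      linarith [hu.2]
    exact h1 u h3 hu.1.le
  refine ⟨?_, ?_, ?_, ?_, ?_⟩
  · intro u hu
    rw [mem_ball_zero_iff] at hu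
    exact (hder u hu).differentiableAt.differentiableWithinAt
  · intro u hu
    rw [mem_ball_zero_iff] at hu
    obtain ⟨k1, k2, k3, k4⟩ := hP z z' u hzz1 hu.le
    have a1 := c.lc_le z' (P' z z' u) (k3.mono (by linarith))
    have a2 : c.M * dist z' (P' z z' u) ≤ c.M * e2 :=
      mul_le_mul_of_nonneg_left k3.dist_le hM0.le
    linarith
  · change c.lc z' (P' z z' 0) = 0
    rw [hP'0, c.lc_self]
  · have h1 := (hder 0 (by rwa [norm_zero])).deriv
    rw [hP0, hP'0, c.tau_self, c.tau_self, one_mul, mul_one] at h1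
    exact h1
  · intro p p' hzp hpp hzp'
    have hzpu : UAsym S z p := c.geo.uasym _ _ (hzp.mono (by linarith))
    have hun : ‖c.lc z p‖ ≤ ρ0 / 2 := by
      have a1 := c.lc_le z p (hzp.mono (by linarith))
      have a2 : dist z p ≤ ρ0 / (2 * c.M) := hzp.dist_le.trans hε2
      have a3 : c.M * dist z p ≤ c.M * (ρ0 / (2 * c.M)) := mul_le_mul_of_nonneg_left a2 hM0.le
      have a4 : c.M * (ρ0 / (2 * c.M)) = ρ0 / 2 := by field_simp
      linarith
    have hun0 : ‖c.lc z p‖ ≤ ρ0 := by linarith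
    refine ⟨by linarith, ?_⟩
    obtain ⟨k1, k2, k3, k4⟩ := hP z z' (c.lc z p) hzz1 hun0
    have hPp : P z z' (c.lc z p) = p := c.inj z _ p (huas _ hun0) hzpu k2
    have hPp' : P' z z' (c.lc z p) = p' := by
      rw [hPp] at k4
      exact (c.geo.uniq p' _ ((hpp.symm.trans k4).mono (by linarith))
        ((hzp'.symm.trans k3).mono (by linarith))).symm
    change c.lc z' p' = c.lc z' (P' z z' (c.lc z p))
    rw [hPp']

end Pool.Agent.H779R2.An
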