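import Pool.Agent.H779R2.An.CJE

set_option autoImplicit false

namespace Pool.Agent.H779R2.An

open Pool.Agent.H721R2 Filter Topology MeasureTheory
open scoped BigOperators

variable {X E : Type*} [MetricSpace X] [CompactSpace X] [NormedAddCommGroup E]
  [InnerProductSpace ℝ E] [FiniteDimensional ℝ E]

/-- TJ, with the identification of the structure -/
theorem exists_cj' {S : HypSys X E} (F : Flat S) (J₀ : CJ0 S) : ∃ J : CJ F, J.J = J₀.J := by
  obtain ⟨C, hC, hJ⟩ := J₀.exists_bound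
  refine ⟨⟨C, J₀.J, J₀.J_mem, J₀.J_sq, hJ, ?_, ?_⟩, rfl⟩
  · intro x y hxy v hv
    have ha : F.τ x y v ∈ S.Vu y := F.τ_mem x y hxy v hv
    have hδ : F.τ x y (J₀.J x v) - J₀.J y (F.τ x y v) ∈ S.Vu y :=
      Submodule.sub_mem _ (F.τ_mem x y hxy _ (J₀.J_mem x v hv)) (J₀.J_mem y _ ha)
    refine sub_eq_zero.mp (null_back F.qc y hδ ha ha fun η hη => ?_)
    obtain ⟨r, hr, h1⟩ := J₀.J_cont (η / 2) (by positivity)
    obtain ⟨ε₁, hε₁, h2⟩ := F.τ_near (η / (2 * C)) (by positivity)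
    obtain ⟨ε₂, hε₂, h3⟩ := F.τ_near r hr
    have hε : 0 < min (min ε₁ ε₂) (min F.ε₀ (r / 2)) :=
      lt_min (lt_min hε₁ hε₂) (lt_min F.geo.pos (by positivity))
    obtain ⟨n, hn⟩ := hxy.eventually hε
    have hU := hn n le_rfl
    refine ⟨n, ?_⟩
    rw [map_sub, ← F.τ_back hxy n (J₀.J_mem x v hv), J₀.J_Dn_symm n y ha,
      ← F.τ_back hxy n hv, J₀.J_Dn_symm n x hv]
    set xn := S.g.symm^[n] x with hxn
    set yn := S.g.symm^[n] y with hyn
    set w := Dn S.symm n x v with hw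
    have hwm : w ∈ S.Vu xn := Dn_symm_mem S n x hv
    have k1 := h2 xn yn (hU.mono ((min_le_left _ _).trans (min_le_left _ _))) (J₀.J xn w)
      (J₀.J_mem _ _ hwm)
    have k2 := h3 xn yn (hU.mono ((min_le_left _ _).trans (min_le_right _ _))) w hwm
    have k3 := F.le_τ xn yn (hU.mono ((min_le_right _ _).trans (min_le_left _ _))) w hwm
    have k4 : dist xn yn < r := by
      have := hU.dist_le
      have h5 : min (min ε₁ ε₂) (min F.ε₀ (r / 2)) ≤ r / 2 :=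
        (min_le_right _ _).trans (min_le_right _ _)
      linarith
    have hmm : UAsym S xn yn := hxy.symm_iter n
    have k5 := h1 xn yn k4 w hwm (F.τ xn yn w) (F.τ_mem _ _ hmm _ hwm) (by
      rw [norm_sub_rev]; exact k2)
    have k6 := hJ xn w hwm
    have k7 : η / (2 * C) * ‖J₀.J xn w‖ ≤ η / 2 * ‖w‖ := by
      calc η / (2 * C) * ‖J₀.J xn w‖ ≤ η / (2 * C) * (C * ‖w‖) :=
            mul_le_mul_of_nonneg_left k6 (by positivity)
        _ = η / 2 * ‖w‖ := by field_simp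
    calc ‖F.τ xn yn (J₀.J xn w) - J₀.J yn (F.τ xn yn w)‖
        = ‖(F.τ xn yn (J₀.J xn w) - J₀.J xn w) + (J₀.J xn w - J₀.J yn (F.τ xn yn w))‖ := by
          congr 1; abel
      _ ≤ ‖F.τ xn yn (J₀.J xn w) - J₀.J xn w‖ + ‖J₀.J xn w - J₀.J yn (F.τ xn yn w)‖ :=
          norm_add_le _ _
      _ ≤ η / 2 * ‖w‖ + η / 2 * ‖w‖ := by linarith
      _ = η * ‖w‖ := by ring
      _ ≤ η * (2 * ‖F.τ xn yn w‖) := mul_le_mul_of_nonneg_left k3 hη.le
      _ = _ := by ring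
  · intro x y hxy v hv
    have ha : F.H x y v ∈ S.Vu y := F.H_mem x y hxy v hv
    have hδ : F.H x y (J₀.J x v) - J₀.J y (F.H x y v) ∈ S.Vu y :=
      Submodule.sub_mem _ (F.H_mem x y hxy _ (J₀.J_mem x v hv)) (J₀.J_mem y _ ha)
    refine sub_eq_zero.mp (null_fwd F.qc y hδ ha ha fun η hη => ?_)
    obtain ⟨r, hr, h1⟩ := J₀.J_cont (η / 2) (by positivity)
    obtain ⟨ε₁, hε₁, h2⟩ := F.H_near (η / (2 * C)) (by positivity)
    obtain ⟨ε₂, hε₂, h3⟩ := F.H_near r hr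
    have hε : 0 < min (min ε₁ ε₂) (min F.ε₀ (r / 2)) :=
      lt_min (lt_min hε₁ hε₂) (lt_min F.geo.pos (by positivity))
    obtain ⟨n, hn⟩ := hxy.eventually hε
    have hU := hn n le_rfl
    refine ⟨n, ?_⟩
    rw [map_sub, ← F.H_iter hxy n (J₀.J_mem x v hv), J₀.J_Dn n y ha,
      ← F.H_iter hxy n hv, J₀.J_Dn n x hv]
    set xn := S.g^[n] x with hxn
    set yn := S.g^[n] y with hyn
    set w := Dn S n x v with hw
    have hwm : w ∈ S.Vu xn := Dn_mem S n x hv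
    have k1 := h2 xn yn (hU.mono ((min_le_left _ _).trans (min_le_left _ _))) (J₀.J xn w)
      (J₀.J_mem _ _ hwm)
    have k2 := h3 xn yn (hU.mono ((min_le_left _ _).trans (min_le_right _ _))) w hwm
    have k3 := F.le_H xn yn (hU.mono ((min_le_right _ _).trans (min_le_left _ _))) w hwm
    have k4 : dist xn yn < r := by
      have := hU.dist_le
      have h5 : min (min ε₁ ε₂) (min F.ε₀ (r / 2)) ≤ r / 2 :=
        (min_le_right _ _).trans (min_le_right _ _)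
      linarith
    have hmm : SAsym S xn yn := hxy.iter n
    have k5 := h1 xn yn k4 w hwm (F.H xn yn w) (F.H_mem _ _ hmm _ hwm) (by
      rw [norm_sub_rev]; exact k2)
    have k6 := hJ xn w hwm
    have k7 : η / (2 * C) * ‖J₀.J xn w‖ ≤ η / 2 * ‖w‖ := by
      calc η / (2 * C) * ‖J₀.J xn w‖ ≤ η / (2 * C) * (C * ‖w‖) :=
            mul_le_mul_of_nonneg_left k6 (by positivity)
        _ = η / 2 * ‖w‖ := by field_simp
    calc ‖F.H xn yn (J₀.J xn w) - J₀.J yn (F.H xn yn w)‖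
        = ‖(F.H xn yn (J₀.J xn w) - J₀.J xn w) + (J₀.J xn w - J₀.J yn (F.H xn yn w))‖ := by
          congr 1; abel
      _ ≤ ‖F.H xn yn (J₀.J xn w) - J₀.J xn w‖ + ‖J₀.J xn w - J₀.J yn (F.H xn yn w)‖ :=
          norm_add_le _ _
      _ ≤ η / 2 * ‖w‖ + η / 2 * ‖w‖ := by linarith
      _ = η * ‖w‖ := by ring
      _ ≤ η * (2 * ‖F.H xn yn w‖) := mul_le_mul_of_nonneg_left k3 hη.le
      _ = _ := by ring

end Pool.Agent.H779R2.An
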