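import Pool.Agent.H779R2.An.CDefs

set_option autoImplicit false

namespace Pool.Agent.H779R2.An

open Pool.Agent.H721R2 Filter Topology
open scoped BigOperators

variable {X E : Type*} [MetricSpace X] [NormedAddCommGroup E] [NormedSpace ℝ E]
variable {S : HypSys X E}

namespace CF

theorem Lp_zero (c : CF S) (x : X) : c.Lp 0 x = 1 := by simp [Lp]

theorem Lp_succ (c : CF S) (n : ℕ) (x : X) : c.Lp (n + 1) x = c.lam (S.g^[n] x) * c.Lp n x := by
  unfold Lp
  rw [Finset.prod_range_succ, mul_comm]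

theorem lam_ne_zero (c : CF S) (x : X) : c.lam x ≠ 0 := by
  intro h
  have := c.lam_ge x
  rw [h, norm_zero] at this
  linarith

theorem Lp_ne_zero (c : CF S) (n : ℕ) (x : X) : c.Lp n x ≠ 0 :=
  Finset.prod_ne_zero_iff.2 fun _ _ => c.lam_ne_zero _

theorem Lp_norm_pos (c : CF S) (n : ℕ) (x : X) : 0 < ‖c.Lp n x‖ := norm_pos_iff.2 (c.Lp_ne_zero n x)

theorem Lp_ge (c : CF S) (n : ℕ) (x : X) : 16 ^ n ≤ ‖c.Lp n x‖ := by
  induction n with
  | zero => simp [Lp_zero]
  | succ n ih =>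
    rw [Lp_succ, norm_mul, pow_succ, mul_comm]
    exact mul_le_mul (c.lam_ge _) ih (by positivity) (norm_nonneg _)

theorem one_le_Lp (c : CF S) (n : ℕ) (x : X) : 1 ≤ ‖c.Lp n x‖ :=
  le_trans (one_le_pow₀ (by norm_num)) (c.Lp_ge n x)

theorem cw_pos (c : CF S) (k : ℕ) (y : X) : 0 < c.cw k y := inv_pos.2 (c.Lp_norm_pos _ _)

theorem cw_le_one (c : CF S) (k : ℕ) (y : X) : c.cw k y ≤ 1 := inv_le_one_of_one_le₀ (c.one_le_Lp _ _)

theorem lc_iter (c : CF S) {x y : X} (h : UAsym S x y) (n : ℕ) :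
    c.lc (S.g^[n] x) (S.g^[n] y) = c.Lp n x * c.lc x y := by
  induction n with
  | zero => simp [Lp_zero]
  | succ n ih =>
    rw [Function.iterate_succ_apply', Function.iterate_succ_apply', c.lc_equi _ _ (h.iter n), ih,
      Lp_succ, mul_assoc]

theorem tau_iter (c : CF S) {x y : X} (h : UAsym S x y) (n : ℕ) :
    c.tau (S.g^[n] x) (S.g^[n] y) * c.Lp n x = c.Lp n y * c.tau x y := by
  induction n with
  | zero => simp [Lp_zero]
  | succ n ih =>
    rw [Function.iterate_succ_apply', Function.iterate_succ_apply', Lp_succ, Lp_succ, ← mul_assoc,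
      c.tau_equi _ _ (h.iter n), mul_assoc, ih, mul_assoc]

theorem eta_iter (c : CF S) {x y : X} (h : SAsym S x y) (n : ℕ) :
    c.eta (S.g^[n] x) (S.g^[n] y) * c.Lp n x = c.Lp n y * c.eta x y := by
  induction n with
  | zero => simp [Lp_zero]
  | succ n ih =>
    rw [Function.iterate_succ_apply', Function.iterate_succ_apply', Lp_succ, Lp_succ, ← mul_assoc,
      c.eta_equi _ _ (h.iter n), mul_assoc, ih, mul_assoc]

theorem eta_symm_mul (c : CF S) {x y : X} (h : SAsym S x y) : c.eta y x * c.eta x y = 1 := by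
  rw [c.eta_comp x y x h h.symm, c.eta_self]

theorem eta_ne_zero (c : CF S) {x y : X} (h : SAsym S x y) : c.eta x y ≠ 0 :=
  right_ne_zero_of_mul_eq_one (c.eta_symm_mul h)

theorem tau_symm_mul (c : CF S) {x y : X} (h : UAsym S x y) : c.tau y x * c.tau x y = 1 := by
  rw [c.tau_comp x y x h h.symm, c.tau_self]

theorem tau_ne_zero (c : CF S) {x y : X} (h : UAsym S x y) : c.tau x y ≠ 0 :=
  right_ne_zero_of_mul_eq_one (c.tau_symm_mul h)

/-- lower bound for the linear holonomy -/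
theorem one_le_eta (c : CF S) {x y : X} (h : S.SRel c.ε₀ x y) : 1 ≤ c.M * ‖c.eta x y‖ := by
  have h1 := c.eta_symm_mul (c.geo.sasym _ _ h)
  have h2 := c.eta_le y x h.symm
  have h3 : ‖c.eta y x‖ * ‖c.eta x y‖ = 1 := by rw [← norm_mul, h1, norm_one]
  have h4 : ‖c.eta y x‖ * ‖c.eta x y‖ ≤ c.M * ‖c.eta x y‖ :=
    mul_le_mul_of_nonneg_right h2 (norm_nonneg _)
  linarith

theorem one_le_tau (c : CF S) {x y : X} (h : S.URel c.ε₀ x y) : 1 ≤ c.M * ‖c.tau x y‖ := by
  have h1 := c.tau_symm_mul (c.geo.uasym _ _ h)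
  have h2 := c.tau_le y x h.symm
  have h3 : ‖c.tau y x‖ * ‖c.tau x y‖ = 1 := by rw [← norm_mul, h1, norm_one]
  have h4 : ‖c.tau y x‖ * ‖c.tau x y‖ ≤ c.M * ‖c.tau x y‖ :=
    mul_le_mul_of_nonneg_right h2 (norm_nonneg _)
  linarith

end CF

theorem TH.th_iter {c : CF S} (T : TH c) {x y : X} (h : SAsym S x y) (n : ℕ) :
    T.th (S.g^[n] x) (S.g^[n] y) * c.Lp n x = T.th x y := by
  induction n with
  | zero => simp [CF.Lp_zero]
  | succ n ih =>
    rw [Function.iterate_succ_apply', Function.iterate_succ_apply', CF.Lp_succ, ← mul_assoc,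
      T.th_equi _ _ (h.iter n), ih]

/-- composition of normalized Moebius maps -/
theorem mob_mob (η θ η' θ' u : ℂ) (h : 1 - θ * u ≠ 0) :
    mob η' θ' (mob η θ u) = mob (η' * η) (θ + η * θ') u := by
  unfold mob
  have h1 : 1 - θ' * (η * u / (1 - θ * u)) = (1 - (θ + η * θ') * u) / (1 - θ * u) := by
    rw [eq_div_iff h, sub_mul, one_mul, mul_assoc θ', div_mul_cancel₀ _ h]
    ring
  rw [h1, mul_div_assoc', div_div_div_cancel_right₀ h, mul_assoc]

theorem mob_zero (η θ : ℂ) : mob η θ 0 = 0 := by simp [mob]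

theorem mob_one_zero (u : ℂ) : mob 1 0 u = u := by simp [mob]

end Pool.Agent.H779R2.An
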