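import Pool.Agent.H779R2.An.CDefs
import Pool.Agent.H779R2.An.CLevAux

set_option autoImplicit false

namespace Pool.Agent.H779R2.An

open Pool.Agent.H721R2 Filter Topology MeasureTheory
open scoped BigOperators

variable {X E : Type*} [MetricSpace X] [CompactSpace X] [NormedAddCommGroup E]
  [InnerProductSpace ℝ E] [FiniteDimensional ℝ E]

/-- Lipschitz estimate for normalized Moebius maps. -/
private theorem mob_lip {η θ u v : ℂ} {M : ℝ} (hη : ‖η‖ ≤ M) (hu : 1 / 2 ≤ ‖1 - θ * u‖)
    (hv : 1 / 3 ≤ ‖1 - θ * v‖) : ‖mob η θ u - mob η θ v‖ ≤ 6 * M * ‖u - v‖ := by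
  have hM : 0 ≤ M := (norm_nonneg _).trans hη
  have hu0 : 1 - θ * u ≠ 0 := by
    intro h; rw [h, norm_zero] at hu; linarith
  have hv0 : 1 - θ * v ≠ 0 := by
    intro h; rw [h, norm_zero] at hv; linarith
  have h1 : mob η θ u - mob η θ v = η * (u - v) / ((1 - θ * u) * (1 - θ * v)) := by
    unfold mob
    rw [div_sub_div _ _ hu0 hv0]
    congr 1
    ring
  rw [h1, norm_div, norm_mul, norm_mul]
  have h2 : 1 / 6 ≤ ‖1 - θ * u‖ * ‖1 - θ * v‖ := by
    have := mul_le_mul hu hv (by norm_num) (norm_nonneg _)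
    linarith
  rw [div_le_iff₀ (by linarith)]
  have h3 : ‖η‖ * ‖u - v‖ ≤ M * ‖u - v‖ := mul_le_mul_of_nonneg_right hη (norm_nonneg _)
  have h4 : M * ‖u - v‖ ≤ 6 * M * ‖u - v‖ * (‖1 - θ * u‖ * ‖1 - θ * v‖) := by
    have h5 : 0 ≤ M * ‖u - v‖ := by positivity
    nlinarith
  linarith

private theorem half_ge {a : ℂ} (h : ‖a‖ ≤ 1 / 2) : 1 / 2 ≤ ‖1 - a‖ := by
  have := norm_sub_norm_le (1 : ℂ) a
  rw [norm_one] at this
  linarith

private theorem half_le {a : ℂ} (h : ‖a‖ ≤ 1 / 2) : ‖1 - a‖ ≤ 3 / 2 := by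
  have := norm_sub_le (1 : ℂ) a
  rw [norm_one] at this
  linarith

/-- K9 -/
theorem mob_prop {S : HypSys X E} {c : CF S} (T : TH c) {R : Set X} (hR : MinR S R)
    (hlev : LevProp T) (hch : Chain2Prop c R) : MobProp T R := by
  obtain ⟨C, hC, εL, hεL, hεLT, -, hlv⟩ := hlev
  have hTε := T.ε_le
  have hM := c.one_le_M
  have hε₀ := c.geo.pos
  obtain ⟨εc, hεc, hcor⟩ := exists_corner S (εL / 4) (by positivity)
  obtain ⟨ρ', hρ', hchain⟩ := hch εL hεL (min εc (εL / 4)) (lt_min hεc (by positivity))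
  refine ⟨min (min ρ' εc) (εL / 4), lt_min (lt_min hρ' hεc) (by positivity),
    (min_le_right _ _).trans (by linarith), ?_⟩
  intro x hx x' p p' hxx hxp hpp hxp'
  set C' : ℝ := 6 * c.M * (C * (c.M * c.ε₀) ^ 3) with hC'
  have hC'0 : 0 < C' := by positivity
  have key : ∀ δ > 0, ‖c.lc x' p' - mob (c.eta x x') (T.th x x') (c.lc x p)‖ ≤ C' * δ := by
    intro δ hδ
    obtain ⟨k, m, e, he0, hem, hei, hek, hsum⟩ := hchain x hx x'
      (hxx.mono ((min_le_left _ _).trans (min_le_left _ _))) δ hδ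
    have hcorner : ∀ i, ∃ q, i ≤ m → S.URel (εL / 4) (e i) q ∧ S.SRel (εL / 4) p q := by
      intro i
      by_cases hi : i ≤ m
      · obtain ⟨q, h1, h2⟩ := hcor x (e i) p ((hei i hi).mono (min_le_left _ _))
          (hxp.mono ((min_le_left _ _).trans (min_le_right _ _)))
        exact ⟨q, fun _ => ⟨h1, h2⟩⟩
      · exact ⟨p, fun h => absurd h hi⟩
    choose q hq using hcorner
    have hq0 : q 0 = p := by
      obtain ⟨h1, h2⟩ := hq 0 (Nat.zero_le _)
      rw [he0] at h1
      have h3 : S.URel c.ε₀ p (q 0) := ((hxp.mono (min_le_right _ _)).symm.trans h1).mono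
        (by linarith)
      exact (c.geo.uniq p (q 0) (h2.mono (by linarith)) h3).symm
    have hqm : q m = p' := by
      obtain ⟨h1, h2⟩ := hq m le_rfl
      rw [hem] at h1
      have h3 : S.URel c.ε₀ p' (q m) := ((hxp'.mono (min_le_right _ _)).symm.trans h1).mono
        (by linarith)
      have h4 : S.SRel c.ε₀ p' (q m) := ((hpp.mono (min_le_right _ _)).symm.trans h2).mono
        (by linarith)
      exact (c.geo.uniq p' (q m) h4 h3).symm
    -- relations along the chain
    have hee : ∀ i ≤ m, ∀ j ≤ m, S.SRel T.ε (e i) (e j) := fun i hi j hj =>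
      ((((hei i hi).mono (min_le_right _ _)).symm).trans ((hei j hj).mono (min_le_right _ _))).mono
        (by linarith)
    have hsa : ∀ i ≤ m, ∀ j ≤ m, SAsym S (e i) (e j) := fun i hi j hj =>
      c.geo.sasym _ _ ((hee i hi j hj).mono hTε)
    have heq : ∀ i ≤ m, S.URel T.ε (e i) (q i) := fun i hi => (hq i hi).1.mono (by linarith)
    have hlcle : ∀ i ≤ m, ‖c.lc (e i) (q i)‖ ≤ c.M * c.ε₀ := fun i hi => by
      have h1 := c.lc_le _ _ ((heq i hi).mono hTε)
      have h2 := (heq i hi).dist_le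
      exact h1.trans (mul_le_mul_of_nonneg_left (h2.trans hTε) (by linarith))
    let W : ℕ → ℂ := fun i => mob (c.eta (e i) x') (T.th (e i) x') (c.lc (e i) (q i))
    have hstep : ∀ {i}, i < m → dist (W i) (W (i + 1)) ≤ C' * c.cw k (e i) ^ 2 := by
      intro i hi
      have hi1 : i + 1 ≤ m := hi
      have hi0 : i ≤ m := hi.le
      have h1 := hlv k (e i) (e (i + 1)) (q i) (q (i + 1)) (hek i hi)
        ((hq i hi0).1.mono (by linarith)) ((hq (i + 1) hi1).1.mono (by linarith))
        (((hq i hi0).2.symm.trans (hq (i + 1) hi1).2).mono (by linarith))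
      have hS1 : SAsym S (e i) (e (i + 1)) := hsa i hi0 (i + 1) hi1
      have hS2 : SAsym S (e (i + 1)) x' := by
        have := hsa (i + 1) hi1 m le_rfl
        rwa [hem] at this
      have ha := T.half (e i) (e (i + 1)) (q i) (hee i hi0 (i + 1) hi1) (heq i hi0)
      have hb := T.half (e i) x' (q i) (by
        have := hee i hi0 m le_rfl
        rwa [hem] at this) (heq i hi0)
      have hcc := T.half (e (i + 1)) x' (q (i + 1)) (by
        have := hee (i + 1) hi1 m le_rfl
        rwa [hem] at this) (heq (i + 1) hi1)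
      have hne : 1 - T.th (e i) (e (i + 1)) * c.lc (e i) (q i) ≠ 0 := by
        intro h
        have := half_ge ha
        rw [h, norm_zero] at this
        linarith
      have hcomp := mob_mob (c.eta (e i) (e (i + 1))) (T.th (e i) (e (i + 1)))
        (c.eta (e (i + 1)) x') (T.th (e (i + 1)) x') (c.lc (e i) (q i)) hne
      rw [c.eta_comp _ _ _ hS1 hS2, ← T.th_comp _ _ _ hS1 hS2] at hcomp
      have hv : 1 / 3 ≤ ‖1 - T.th (e (i + 1)) x' *
          mob (c.eta (e i) (e (i + 1))) (T.th (e i) (e (i + 1))) (c.lc (e i) (q i))‖ := by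
        have h5 : 1 - T.th (e (i + 1)) x' *
          mob (c.eta (e i) (e (i + 1))) (T.th (e i) (e (i + 1))) (c.lc (e i) (q i)) =
            (1 - T.th (e i) x' * c.lc (e i) (q i)) /
              (1 - T.th (e i) (e (i + 1)) * c.lc (e i) (q i)) := by
          rw [T.th_comp _ _ _ hS1 hS2]
          unfold mob
          rw [eq_div_iff hne, sub_mul, one_mul, mul_assoc (T.th (e (i + 1)) x'),
            div_mul_cancel₀ _ hne]
          ring
        rw [h5, norm_div]
        have h6 := half_ge hb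
        have h7 := half_le ha
        have h8 := half_ge ha
        rw [le_div_iff₀ (by linarith)]
        linarith
      have hlip := mob_lip (η := c.eta (e (i + 1)) x') (θ := T.th (e (i + 1)) x')
        (u := c.lc (e (i + 1)) (q (i + 1)))
        (v := mob (c.eta (e i) (e (i + 1))) (T.th (e i) (e (i + 1))) (c.lc (e i) (q i)))
        (M := c.M) (c.eta_le _ _ (by
          have := (hee (i + 1) hi1 m le_rfl).mono hTε
          rwa [hem] at this)) (half_ge hcc) hv
      rw [hcomp] at hlip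
      rw [dist_comm, dist_eq_norm]
      refine hlip.trans ?_
      have h9 : ‖c.lc (e i) (q i)‖ ^ 3 ≤ (c.M * c.ε₀) ^ 3 :=
        pow_le_pow_left₀ (norm_nonneg _) (hlcle i hi0) 3
      have h10 : C * c.cw k (e i) ^ 2 * ‖c.lc (e i) (q i)‖ ^ 3 ≤
          C * c.cw k (e i) ^ 2 * (c.M * c.ε₀) ^ 3 := mul_le_mul_of_nonneg_left h9 (by positivity)
      have h11 : 6 * c.M * ‖c.lc (e (i + 1)) (q (i + 1)) -
          mob (c.eta (e i) (e (i + 1))) (T.th (e i) (e (i + 1))) (c.lc (e i) (q i))‖ ≤
          6 * c.M * (C * c.cw k (e i) ^ 2 * (c.M * c.ε₀) ^ 3) :=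
        mul_le_mul_of_nonneg_left (h1.trans h10) (by positivity)
      refine h11.trans (le_of_eq ?_)
      rw [hC']
      ring
    have htel := dist_le_range_sum_of_dist_le (f := W) m (d := fun i => C' * c.cw k (e i) ^ 2)
      hstep
    rw [← Finset.mul_sum] at htel
    have hW0 : W 0 = mob (c.eta x x') (T.th x x') (c.lc x p) := by
      simp only [W]
      rw [he0, hq0]
    have hWm : W m = c.lc x' p' := by
      simp only [W]
      rw [hem, hqm, c.eta_self, T.th_self, mob_one_zero]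
    rw [hW0, hWm, dist_comm, dist_eq_norm] at htel
    exact htel.trans (mul_le_mul_of_nonneg_left hsum hC'0.le)
  have h0 : ‖c.lc x' p' - mob (c.eta x x') (T.th x x') (c.lc x p)‖ ≤ 0 := by
    refine le_of_forall_pos_le_add fun δ hδ => ?_
    have := key (δ / C') (by positivity)
    rw [mul_div_cancel₀ _ hC'0.ne'] at this
    linarith
  exact sub_eq_zero.1 (norm_le_zero_iff.1 h0)

end Pool.Agent.H779R2.An
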