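import Pool.Agent.H779R2.An.CDefs

set_option autoImplicit false

namespace Pool.Agent.H779R2.An

open Pool.Agent.H721R2 Filter Topology MeasureTheory
open scoped BigOperators

variable {X E : Type*} [MetricSpace X] [CompactSpace X] [NormedAddCommGroup E]
  [InnerProductSpace ℝ E] [FiniteDimensional ℝ E]

/-- K7 -/
theorem seg_of_chart {S : HypSys X E} {d : ℕ} (h : ChartProp S d) : SegProp S := by
  obtain ⟨ε₀, hg⟩ := exists_geo S
  have hε₀ := hg.pos
  intro ε hε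
  set ρ := min ε (ε₀ / 2) with hρd
  have hρ : 0 < ρ := lt_min hε (by positivity)
  have hρε : ρ ≤ ε := min_le_left _ _
  have hρε₀ : ρ ≤ ε₀ / 2 := min_le_right _ _
  obtain ⟨ρ₁, hρ₁, ρ', hρ', hch⟩ := h ρ hρ
  refine ⟨ρ', hρ', fun v v' hvv n ε'' hε'' => ?_⟩
  obtain ⟨ψ, hψ, hsurj⟩ := hch v
  obtain ⟨b, hb, hbv⟩ := hsurj v' hvv
  obtain ⟨δ, hδ, hlev⟩ := SRel_level hg n ε'' hε''
  obtain ⟨m, hm⟩ := exists_nat_gt (2 * ‖b‖ / δ)
  have hm0 : (0 : ℝ) < m := lt_of_le_of_lt (by positivity) hm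
  have hb1 : ‖b‖ ≤ ρ₁ := by linarith
  have hnorm : ∀ i ≤ m, ‖((i : ℝ) / m) • b‖ ≤ ρ₁ := by
    intro i hi
    rw [norm_smul, Real.norm_eq_abs, abs_of_nonneg (by positivity)]
    have h1 : (i : ℝ) / m ≤ 1 := by
      rw [div_le_one hm0]; exact_mod_cast hi
    calc (i : ℝ) / m * ‖b‖ ≤ 1 * ‖b‖ := mul_le_mul_of_nonneg_right h1 (norm_nonneg _)
      _ ≤ ρ₁ := by rw [one_mul]; exact hb1
  have hrel : ∀ i ≤ m, S.SRel ρ v (ψ (((i : ℝ) / m) • b)) := fun i hi => hψ.rel _ (hnorm i hi)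
  refine ⟨m, fun i => ψ (((i : ℝ) / m) • b), ?_, ?_, fun i hi => (hrel i hi).mono hρε, ?_⟩
  · simp only [Nat.cast_zero, zero_div, zero_smul]
    exact hψ.zero
  · simp only [div_self hm0.ne', one_smul]
    exact hbv
  · intro i hi
    apply hlev
    · exact ((hrel i hi.le).symm.trans (hrel (i + 1) hi)).mono (by linarith)
    · refine (hψ.le _ _ (hnorm i hi.le) (hnorm (i + 1) hi)).trans ?_
      have h1 : ((i : ℝ) / m) • b - (((i + 1 : ℕ) : ℝ) / m) • b = (-(1 / m : ℝ)) • b := by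
        rw [← sub_smul]
        congr 1
        push_cast
        ring
      rw [h1, norm_smul, norm_neg, Real.norm_eq_abs, abs_of_nonneg (by positivity)]
      rw [div_lt_iff₀ hδ] at hm
      have h2 : 2 * (1 / (m : ℝ) * ‖b‖) = (2 * ‖b‖) / m := by ring
      rw [h2, div_le_iff₀ hm0]
      linarith

end Pool.Agent.H779R2.An
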