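import Pool.Agent.H779R2.An.CDefs
import Pool.Agent.H779R2.An.CArcs
import Pool.Agent.H779R2.An.CThCont
import Pool.Agent.H779R2.An.CLoc

set_option autoImplicit false

namespace Pool.Agent.H779R2.An

open Pool.Agent.H721R2 Filter Topology MeasureTheory
open scoped BigOperators

variable {X E : Type*} [MetricSpace X] [CompactSpace X] [NormedAddCommGroup E]
  [InnerProductSpace ℝ E] [FiniteDimensional ℝ E]

private theorem sw_lens {d : ℕ} (w a : EuclideanSpace ℝ (Fin d))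
    (ha : ‖a - (1 / 2 : ℝ) • w‖ ≤ ‖w‖ / 2) (hne : a ≠ w) : ‖a‖ < ‖w‖ := by
  by_contra hcon
  push Not at hcon
  apply hne
  have h1 : ‖a - (1 / 2 : ℝ) • w‖ ^ 2 = ‖a‖ ^ 2 - inner ℝ a w + ‖w‖ ^ 2 / 4 := by
    rw [norm_sub_sq_real, norm_smul, inner_smul_right]
    norm_num
    ring
  have h2 : ‖a - w‖ ^ 2 = ‖a‖ ^ 2 - 2 * inner ℝ a w + ‖w‖ ^ 2 := norm_sub_sq_real a w
  have h3 : ‖a - (1 / 2 : ℝ) • w‖ ^ 2 ≤ (‖w‖ / 2) ^ 2 :=
    pow_le_pow_left₀ (norm_nonneg _) ha 2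
  have h4 : ‖w‖ ^ 2 ≤ ‖a‖ ^ 2 := pow_le_pow_left₀ (norm_nonneg _) hcon 2
  have h5 : ‖a - w‖ ^ 2 ≤ 0 := by nlinarith
  have h6 : ‖a - w‖ = 0 := by
    have : ‖a - w‖ ^ 2 = 0 := le_antisymm h5 (sq_nonneg _)
    exact pow_eq_zero_iff (two_ne_zero) |>.mp this
  exact sub_eq_zero.mp (norm_eq_zero.mp h6)

private theorem sw_sep {N : ℕ} {V : Type*} [MetricSpace V] (K : Fin N → Set V)
    (hK : ∀ j, IsCompact (K j)) (hd : ∀ i j, i ≠ j → Disjoint (K i) (K j)) :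
    ∃ η > 0, ∀ i j, i ≠ j → ∀ x ∈ K i, ∀ y ∈ K j, η < dist x y := by
  have h1 : ∀ p : Fin N × Fin N, ∃ r : ℝ, 0 < r ∧ (p.1 ≠ p.2 → ∀ x ∈ K p.1, ∀ y ∈ K p.2,
      r < dist x y) := by
    intro p
    by_cases hp : p.1 = p.2
    · exact ⟨1, one_pos, fun h => absurd hp h⟩
    · obtain ⟨r, hr, h⟩ := Metric.exists_pos_forall_lt_edist (hK p.1) (hK p.2).isClosed
        (hd _ _ hp)
      refine ⟨r, by exact_mod_cast hr, fun _ x hx y hy => ?_⟩
      have := h x hx y hy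
      rw [edist_dist, ENNReal.lt_ofReal_iff_toReal_lt ENNReal.coe_ne_top] at this
      simpa using this
  choose r hr h using h1
  obtain ⟨ε, hε, h2⟩ := Pi.exists_forall_pos_add_lt (x := fun _ : Fin N × Fin N => (0 : ℝ))
    (y := r) hr
  refine ⟨ε, hε, fun i j hij x hx y hy => ?_⟩
  have h3 := h2 (i, j)
  simp only [zero_add] at h3
  exact h3.trans (h (i, j) hij x hx y hy)

private theorem sw_max {α : Type*} (Q : Set α) (Rr : α → α → Prop)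
    (hs : ∀ a b, Rr a b → Rr b a) (B : ℕ)
    (hB : ∀ A : Finset α, (∀ a ∈ A, a ∈ Q) → (∀ a ∈ A, ∀ b ∈ A, a ≠ b → ¬ Rr a b) →
      A.card ≤ B) :
    ∃ A : Finset α, (∀ a ∈ A, a ∈ Q) ∧ (∀ a ∈ A, ∀ b ∈ A, a ≠ b → ¬ Rr a b) ∧
      ∀ a ∈ Q, a ∉ A → ∃ b ∈ A, Rr a b := by
  classical
  set s : Set ℕ := {n | ∃ A : Finset α, (∀ a ∈ A, a ∈ Q) ∧
    (∀ a ∈ A, ∀ b ∈ A, a ≠ b → ¬ Rr a b) ∧ A.card = n} with hsdef
  have hne : s.Nonempty := ⟨0, ∅, by simp, by simp, rfl⟩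
  have hbd : BddAbove s := ⟨B, by
    rintro n ⟨A, h1, h2, rfl⟩
    exact hB A h1 h2⟩
  obtain ⟨A, h1, h2, h3⟩ := Nat.sSup_mem hne hbd
  refine ⟨A, h1, h2, fun a ha haA => ?_⟩
  by_contra hcon
  push Not at hcon
  have h4 : A.card + 1 ∈ s := by
    refine ⟨insert a A, ?_, ?_, Finset.card_insert_of_notMem haA⟩
    · intro b hb
      rcases Finset.mem_insert.mp hb with rfl | hb
      · exact ha
      · exact h1 b hb
    · intro b hb b' hb' hbb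
      rcases Finset.mem_insert.mp hb with hba | hb <;>
        rcases Finset.mem_insert.mp hb' with hba' | hb'
      · exact absurd (hba.trans hba'.symm) hbb
      · rw [hba]
        exact hcon b' hb'
      · rw [hba']
        exact fun h => hcon b hb (hs _ _ h)
      · exact h2 b hb b' hb' hbb
  have h5 := le_csSup hbd h4
  omega

private theorem sw_pack {V : Type*} [MetricSpace V] {Q : Set V} (hQ : IsCompact Q) {δ : ℝ}
    (hδ : 0 < δ) : ∃ B : ℕ, ∀ A : Finset V, (∀ a ∈ A, a ∈ Q) →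
      (∀ a ∈ A, ∀ b ∈ A, a ≠ b → δ ≤ dist a b) → A.card ≤ B := by
  classical
  obtain ⟨t, -, htf, ht⟩ := hQ.finite_cover_balls (half_pos hδ)
  refine ⟨htf.toFinset.card, fun A h1 h2 => ?_⟩
  have h3 : ∀ a : V, ∃ c : V, a ∈ Q → c ∈ t ∧ dist a c < δ / 2 := by
    intro a
    by_cases ha : a ∈ Q
    · have := ht ha
      simp only [Set.mem_iUnion, Metric.mem_ball] at this
      obtain ⟨c, hc, hac⟩ := this
      exact ⟨c, fun _ => ⟨hc, hac⟩⟩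
    · exact ⟨a, fun h => absurd h ha⟩
  choose f hf using h3
  refine Finset.card_le_card_of_injOn f (fun a ha => ?_) ?_
  · exact htf.mem_toFinset.mpr (hf a (h1 a ha)).1
  · intro a ha b hb hab
    by_contra hne
    have h4 := h2 a ha b hb hne
    have h5 := (hf a (h1 a ha)).2
    have h6 := (hf b (h1 b hb)).2
    rw [hab] at h5
    have h7 := dist_triangle_right a b (f b)
    linarith

private theorem sw_Lp_ge {S : HypSys X E} (c : CF S) (n : ℕ) (x : X) : (1 : ℝ) ≤ ‖c.Lp n x‖ := by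
  unfold CF.Lp
  rw [norm_prod]
  induction n with
  | zero => simp
  | succ n ih =>
    rw [Finset.prod_range_succ]
    exact one_le_mul_of_one_le_of_one_le ih (by linarith [c.lam_ge (S.g^[n] x)])

private theorem sw_Lp_le {S : HypSys X E} (c : CF S) (n : ℕ) (x : X) :
    ‖c.Lp n x‖ ≤ c.M ^ n := by
  unfold CF.Lp
  rw [norm_prod]
  calc ∏ i ∈ Finset.range n, ‖c.lam (S.g^[i] x)‖ ≤ ∏ _i ∈ Finset.range n, c.M :=
        Finset.prod_le_prod (fun _ _ => norm_nonneg _) (fun i _ => c.lam_le _)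
    _ = c.M ^ n := by simp

private theorem sw_cw {S : HypSys X E} (c : CF S) (n : ℕ) (x : X) :
    0 < c.cw n x ∧ c.cw n x ≤ 1 ∧ (c.M ^ n)⁻¹ ≤ c.cw n x := by
  have h1 := sw_Lp_ge c n (S.g.symm^[n] x)
  have h2 := sw_Lp_le c n (S.g.symm^[n] x)
  unfold CF.cw
  refine ⟨by positivity, inv_le_one_of_one_le₀ h1, ?_⟩
  exact inv_anti₀ (by linarith) h2

/-- K21d -/
theorem count_contra {S : HypSys X E} {c : CF S} (T : TH c) {R : Set X} (hR : MinR S R)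
    (hlev : LevProp T) (htr : TrackProp T R) (hni : NonIsoProp c R)
    (hU : UpBound c R) (hD : DownBound c R) (hA : LowerA c R) (hB : UpperB c R)
    (d : ℕ) (hd : 2 ≤ d) :
    ∃ ρ₀ > 0, ∀ (v : X) (ρ ρ₁ : ℝ) (ψ : EuclideanSpace ℝ (Fin d) → X), ρ ≤ ρ₀ →
      IsChart S v ρ ρ₁ ψ → ∀ w : EuclideanSpace ℝ (Fin d), ‖w‖ < ρ₁ →
      (∀ a, ‖a‖ < ‖w‖ → ∃ x ∈ R, UAsym S (ψ a) x) → (∃ x ∈ R, UAsym S v x) →
      ∃ x ∈ R, UAsym S (ψ w) x := by
  classical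
  obtain ⟨ρc, hρc, hcont⟩ := th_chart_cont T hlev
  obtain ⟨ρl, hρl, hloc⟩ := loc_bdd T hR hlev htr
  obtain ⟨Cl, hCl, εl, hεl, hεlT, hlev1, -⟩ := hlev
  obtain ⟨εt, hεt, hεtT, htrack⟩ := htr
  obtain ⟨κ₀, hκ₀, hUp⟩ := hU
  have hε₀ := c.geo.pos
  set κ : ℝ := min κ₀ (min εl c.ε₀) with hκdef
  have hκ : 0 < κ := lt_min hκ₀ (lt_min hεl hε₀)
  have hκκ₀ : κ ≤ κ₀ := min_le_left _ _
  have hκl : κ ≤ εl := (min_le_right _ _).trans (min_le_left _ _)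
  have hκε : κ ≤ c.ε₀ := (min_le_right _ _).trans (min_le_right _ _)
  refine ⟨min (min ρc ρl) (min εt (κ / 2)), lt_min (lt_min hρc hρl) (lt_min hεt (by positivity)),
    fun v ρ ρ₁ ψ hρ hψ w hw hball hv => ?_⟩
  have hρρc : ρ ≤ ρc := hρ.trans ((min_le_left _ _).trans (min_le_left _ _))
  have hρρl : ρ ≤ ρl := hρ.trans ((min_le_left _ _).trans (min_le_right _ _))
  have hρεt : ρ ≤ εt := hρ.trans ((min_le_right _ _).trans (min_le_left _ _))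
  have hρκ : ρ ≤ κ / 2 := hρ.trans ((min_le_right _ _).trans (min_le_right _ _))
  have hρε₀ : ρ ≤ c.ε₀ := by linarith
  have hfc := hcont d v ρ ρ₁ ψ hρρc hψ
  by_contra hwR
  have hw0 : w ≠ 0 := by
    rintro rfl
    rw [hψ.zero] at hwR
    exact hwR hv
  have hρ₁ : 0 < ρ₁ := lt_of_le_of_lt (norm_nonneg _) hw
  -- the plaque
  have hrel : ∀ a, ‖a‖ ≤ ρ₁ → S.SRel c.ε₀ v (ψ a) := fun a ha => (hψ.rel a ha).mono hρε₀
  have hrel2 : ∀ a b, ‖a‖ ≤ ρ₁ → ‖b‖ ≤ ρ₁ → S.SRel κ (ψ a) (ψ b) := fun a b ha hb =>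
    ((hψ.rel a ha).symm.trans (hψ.rel b hb)).mono (by linarith)
  have hvR : v ∉ R := by
    intro h
    exact hwR ⟨ψ w, hR.sat v h _ (c.geo.sasym _ _ (hrel w hw.le)), UAsym.refl S _⟩
  set f : EuclideanSpace ℝ (Fin d) → ℂ := fun a => T.th v (ψ a) with hfdef
  have hlcne : ∀ x ∈ R, UAsym S v x → c.lc v x ≠ 0 := by
    intro x hx hvx h0
    have := c.inj v x v hvx (UAsym.refl S v) (by rw [h0, c.lc_self])
    exact hvR (this ▸ hx)
  -- the point x₀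
  obtain ⟨x₀, hx₀R, hvx₀, hx₀f⟩ : ∃ x₀ ∈ R, UAsym S v x₀ ∧ f w * c.lc v x₀ ≠ 1 := by
    obtain ⟨x₁, hx₁, hvx₁⟩ := hv
    obtain ⟨x₂, hx₂, hne, hx12, -⟩ := hni x₁ hx₁ 1 one_pos
    by_cases h1 : f w * c.lc v x₁ = 1
    · refine ⟨x₂, hx₂, hvx₁.trans hx12, fun h2 => hne ?_⟩
      have hf0 : f w ≠ 0 := by
        intro h
        rw [h, zero_mul] at h1
        exact zero_ne_one h1
      exact c.inj v x₂ x₁ (hvx₁.trans hx12) hvx₁ (mul_left_cancel₀ hf0 (h2.trans h1.symm))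
    · exact ⟨x₁, hx₁, hvx₁, h1⟩
  set a₀ : ℂ := c.lc v x₀ with ha₀def
  have ha₀ : a₀ ≠ 0 := hlcne x₀ hx₀R hvx₀
  have ha₀n : 0 < ‖a₀‖ := norm_pos_iff.mpr ha₀
  have hfa : 0 < ‖f w * a₀ - 1‖ := norm_pos_iff.mpr (sub_ne_zero.mpr hx₀f)
  set δ₀ : ℝ := min (‖a₀‖ / 2) (‖f w * a₀ - 1‖ / (2 * (‖f w‖ + 1))) with hδ₀def
  have hδ₀ : 0 < δ₀ := lt_min (by positivity) (by positivity)
  have hδ₀1 : δ₀ ≤ ‖a₀‖ / 2 := min_le_left _ _
  have hδ₀2 : δ₀ * (‖f w‖ + 1) ≤ ‖f w * a₀ - 1‖ / 2 := by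
    have := min_le_right (‖a₀‖ / 2) (‖f w * a₀ - 1‖ / (2 * (‖f w‖ + 1)))
    rw [← hδ₀def, le_div_iff₀ (by positivity)] at this
    linarith
  have hwζ : ∀ ζ : ℂ, ‖ζ - a₀‖ ≤ δ₀ → f w * ζ ≠ 1 := by
    intro ζ hζ h
    have h1 : f w * a₀ - 1 = f w * (a₀ - ζ) := by rw [← h]; ring
    have h2 : ‖f w * a₀ - 1‖ ≤ ‖f w‖ * δ₀ := by
      rw [h1, norm_mul, norm_sub_rev]
      exact mul_le_mul_of_nonneg_left hζ (norm_nonneg _)
    nlinarith
  -- the compact set Q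
  set L : Set (EuclideanSpace ℝ (Fin d)) := Metric.closedBall ((1 / 2 : ℝ) • w) (‖w‖ / 2) with hL
  have hLc : IsCompact L := isCompact_closedBall _ _
  have hLnorm : ∀ a ∈ L, ‖a‖ ≤ ‖w‖ := by
    intro a ha
    by_cases haw : a = w
    · rw [haw]
    · exact (sw_lens w a (by simpa [hL, dist_eq_norm] using ha) haw).le
  have hLρ : ∀ a ∈ L, ‖a‖ ≤ ρ₁ := fun a ha => (hLnorm a ha).trans hw.le
  have hfL : ContinuousOn f L := hfc.mono (fun a ha => by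
    simpa using hLρ a ha)
  set Q : Set (EuclideanSpace ℝ (Fin d)) :=
    {a | a ∈ L ∧ ∃ ζ : ℂ, ‖ζ - a₀‖ ≤ δ₀ ∧ f a * ζ = 1} with hQdef
  have hQL : ∀ a ∈ Q, a ∈ L := fun a ha => ha.1
  have hQρ : ∀ a ∈ Q, ‖a‖ ≤ ρ₁ := fun a ha => hLρ a ha.1
  have hQc : IsCompact Q := by
    have h1 : IsCompact (L ×ˢ Metric.closedBall a₀ δ₀) := hLc.prod (isCompact_closedBall _ _)
    have h2 : ContinuousOn (fun p : EuclideanSpace ℝ (Fin d) × ℂ => f p.1 * p.2)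
        (L ×ˢ Metric.closedBall a₀ δ₀) :=
      (hfL.comp continuousOn_fst (fun p hp => hp.1)).mul continuousOn_snd
    have h3 : IsCompact ((L ×ˢ Metric.closedBall a₀ δ₀) ∩
        (fun p : EuclideanSpace ℝ (Fin d) × ℂ => f p.1 * p.2) ⁻¹' {1}) :=
      h1.of_isClosed_subset (h2.preimage_isClosed_of_isClosed h1.isClosed isClosed_singleton)
        Set.inter_subset_left
    have h4 := h3.image continuous_fst
    convert h4 using 1
    ext a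
    constructor
    · rintro ⟨h5, ζ, h6, h7⟩
      exact ⟨(a, ζ), ⟨⟨h5, by simpa [dist_eq_norm] using h6⟩, h7⟩, rfl⟩
    · rintro ⟨⟨a', ζ⟩, ⟨⟨h5, h6⟩, h7⟩, rfl⟩
      exact ⟨h5, ζ, by simpa [dist_eq_norm] using h6, h7⟩
  have hwQ : w ∉ Q := fun ⟨_, ζ, h1, h2⟩ => hwζ ζ h1 h2
  have hf0 : f 0 = 0 := by rw [hfdef]; simp only [hψ.zero, T.th_self]
  have h0Q : (0 : EuclideanSpace ℝ (Fin d)) ∉ Q := by
    rintro ⟨_, ζ, _, h2⟩
    rw [hf0, zero_mul] at h2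
    exact zero_ne_one h2
  have hQne : ∀ a ∈ Q, f a ≠ 0 := by
    rintro a ⟨_, ζ, _, h2⟩ h
    rw [h, zero_mul] at h2
    exact zero_ne_one h2
  have hQinv : ∀ a ∈ Q, ‖(f a)⁻¹ - a₀‖ ≤ δ₀ := by
    rintro a ⟨_, ζ, h1, h2⟩
    have h3 : (f a)⁻¹ = ζ := inv_eq_of_mul_eq_one_right h2
    rwa [h3]
  obtain ⟨A₀, hA₀⟩ := hloc d v ρ ρ₁ ψ hρρl hψ Q hQc (fun a ha =>
    ⟨lt_of_le_of_lt (hLnorm a ha.1) hw, hball a (sw_lens w a
      (by simpa [hL, dist_eq_norm] using ha.1) (fun h => hwQ (h ▸ ha)))⟩)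
  -- sweeping
  have hsweep : ∀ γ : ℝ → EuclideanSpace ℝ (Fin d), Continuous γ → γ 0 = 0 → γ 1 = w →
      (∀ t ∈ Set.Icc (0 : ℝ) 1, γ t ∈ L) → ∀ x ∈ R, UAsym S v x →
      ∃ t ∈ Set.Icc (0 : ℝ) 1, f (γ t) * c.lc v x = 1 := by
    intro γ hγ hγ0 hγ1 hγL x hx hvx
    by_contra hcon
    push Not at hcon
    have hψc : ContinuousOn ψ L := by
      intro a ha
      rw [Metric.continuousWithinAt_iff]
      intro ε hε
      refine ⟨ε / 2, by positivity, fun b hb hab => ?_⟩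
      have := hψ.le b a (hLρ b hb) (hLρ a ha)
      rw [dist_eq_norm] at hab
      linarith
    obtain ⟨x', hx', hx'1, -⟩ := htrack v (fun t => ψ (γ t))
      (hψc.comp hγ.continuousOn (fun t ht => hγL t ht)) (by simp only [hγ0, hψ.zero])
      (fun t ht => (hψ.rel _ (hLρ _ (hγL t ht))).mono hρεt) x hx hvx hcon
    simp only [hγ1] at hx'1
    exact hwR ⟨x', hx', hx'1⟩
  -- constants
  obtain ⟨CU, hCU, hUp'⟩ := hUp κ hκ hκκ₀ A₀
  set B : ℝ := ‖a₀‖ + δ₀ with hBdef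
  have hBpos : 0 < B := by positivity
  have hMpos : 0 < c.M := lt_of_lt_of_le one_pos c.one_le_M
  set C₁ : ℝ := B * B * (c.M * Cl) with hC₁def
  have hC₁ : 0 < C₁ := by positivity
  obtain ⟨CD, hCD, hDown'⟩ := hD v x₀ hx₀R hvx₀ δ₀ hδ₀ C₁ hC₁
  obtain ⟨N, hN⟩ := exists_nat_gt (CD * CU)
  obtain ⟨γ, hγc, hγ0, hγ1, hγL, hγd⟩ := lens_arcs d hd w hw0 N
  have hγL' : ∀ j, ∀ t ∈ Set.Icc (0 : ℝ) 1, γ j t ∈ L := by
    intro j t ht
    simpa [hL, dist_eq_norm] using hγL j t ht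
  set M : Fin N → Set ℝ := fun j => Set.Icc 0 1 ∩ (γ j) ⁻¹' Q with hMdef
  have hMc : ∀ j, IsCompact (M j) := fun j =>
    isCompact_Icc.inter_right (hQc.isClosed.preimage (hγc j))
  have hMIoo : ∀ j, ∀ t ∈ M j, t ∈ Set.Ioo (0 : ℝ) 1 := by
    rintro j t ⟨⟨h1, h2⟩, h3⟩
    refine ⟨lt_of_le_of_ne h1 ?_, lt_of_le_of_ne h2 ?_⟩
    · rintro rfl
      apply h0Q
      have : γ j 0 ∈ Q := h3
      rwa [hγ0] at this
    · rintro rfl
      apply hwQ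
      have : γ j 1 ∈ Q := h3
      rwa [hγ1] at this
  obtain ⟨η, hη, hsep⟩ := sw_sep (fun j => γ j '' M j) (fun j => (hMc j).image (hγc j)) (by
    intro i j hij
    rw [Set.disjoint_left]
    rintro _ ⟨t, ht, rfl⟩ ⟨t', ht', h⟩
    exact hγd i j hij t (hMIoo i t ht) t' (hMIoo j t' ht') h.symm)
  obtain ⟨k, hk⟩ : ∃ k : ℕ, 4 * κ * (1 / 8 : ℝ) ^ k < η := by
    obtain ⟨k, hk⟩ := exists_pow_lt_of_lt_one (show 0 < η / (4 * κ) by positivity)
      (show (1 / 8 : ℝ) < 1 by norm_num)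
    refine ⟨k, ?_⟩
    rw [lt_div_iff₀ (by positivity)] at hk
    linarith
  -- maximal separated set
  obtain ⟨δ, hδ, hlevel⟩ := SRel_level c.geo k κ hκ
  obtain ⟨Bn, hBn⟩ := sw_pack hQc (half_pos hδ)
  obtain ⟨A, hAQ, hAsep, hAmax⟩ := sw_max Q
    (fun a b => S.SRel κ (S.g.symm^[k] (ψ a)) (S.g.symm^[k] (ψ b)))
    (fun a b h => h.symm) Bn (by
      intro A h1 h2
      refine hBn A h1 (fun a ha b hb hab => ?_)
      by_contra hlt
      push Not at hlt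
      refine h2 a ha b hb hab (hlevel _ _ ((hrel2 a b (hQρ a (h1 a ha)) (hQρ b (h1 b hb))).mono
        hκε) ?_)
      have := hψ.le a b (hQρ a (h1 a ha)) (hQρ b (h1 b hb))
      rw [dist_eq_norm] at hlt
      linarith)
  have hAcov : ∀ a ∈ Q, ∃ b ∈ A, S.SRel κ (S.g.symm^[k] (ψ a)) (S.g.symm^[k] (ψ b)) := by
    intro a ha
    by_cases haA : a ∈ A
    · refine ⟨a, haA, fun j => ?_⟩
      rw [dist_self]
      exact hκ.le
    · exact hAmax a ha haA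
  have hclose : ∀ a ∈ Q, ∀ b ∈ Q, S.SRel κ (S.g.symm^[k] (ψ a)) (S.g.symm^[k] (ψ b)) →
      ‖a - b‖ ≤ 2 * κ * (1 / 8 : ℝ) ^ k := by
    intro a ha b hb h
    have h1 := hψ.ge a b (hQρ a ha) (hQρ b hb)
    have h2 := c.geo.scontr _ _ (h.mono hκε) k
    rw [iter_iter_symm, iter_iter_symm] at h2
    have h3 : (1 / 8 : ℝ) ^ k * dist (S.g.symm^[k] (ψ a)) (S.g.symm^[k] (ψ b)) ≤
        (1 / 8 : ℝ) ^ k * κ := mul_le_mul_of_nonneg_left h.dist_le (by positivity)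
    nlinarith
  set Aj : Fin N → Finset (EuclideanSpace ℝ (Fin d)) := fun j => A.filter
    (fun a => ∃ t ∈ M j, S.SRel κ (S.g.symm^[k] (ψ (γ j t))) (S.g.symm^[k] (ψ a))) with hAjdef
  have hAjd : ∀ i j, i ≠ j → Disjoint (Aj i) (Aj j) := by
    intro i j hij
    rw [Finset.disjoint_left]
    intro a h1 h2
    obtain ⟨h3, t, ht, h4⟩ := Finset.mem_filter.mp h1
    obtain ⟨_, t', ht', h5⟩ := Finset.mem_filter.mp h2
    have h6 := hclose _ ht.2 _ (hAQ a h3) h4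
    have h7 := hclose _ ht'.2 _ (hAQ a h3) h5
    have h8 := hsep i j hij _ ⟨t, ht, rfl⟩ _ ⟨t', ht', rfl⟩
    have h9 : dist (γ i t) (γ j t') ≤ ‖γ i t - a‖ + ‖γ j t' - a‖ := by
      rw [← dist_eq_norm, ← dist_eq_norm]
      exact dist_triangle_right _ _ _
    linarith
  -- the scale r
  set r : ℝ := (c.M ^ k)⁻¹ with hrdef
  have hr : 0 < r := by positivity
  have hSf1 : (1 : ℝ) ≤ Sf c R r := by
    obtain ⟨z, hz⟩ := hR.nonempty
    have h1 : 1 ∈ {n | ∃ z ∈ R, SepN c R z 1 r n} := by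
      refine ⟨z, hz, {z}, by simp, ?_, ?_⟩
      · intro x hx
        rw [Finset.mem_singleton] at hx
        subst hx
        exact ⟨hz, UAsym.refl S _, by rw [c.lc_self]; simp⟩
      · intro x hx x' hx' hne
        rw [Finset.mem_singleton] at hx hx'
        exact absurd (hx.trans hx'.symm) hne
    have h2 := le_csSup (hB.1 r hr) h1
    unfold Sf
    exact_mod_cast h2
  -- lower bound from each arc
  have hlow : ∀ j, (Sf c R r : ℝ) ≤ CD * ∑ a ∈ Aj j, (Sf c R (r / c.cw k (ψ a)) : ℝ) := by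
    intro j
    refine hDown' r (EuclideanSpace ℝ (Fin d)) (Aj j) (fun a => (f a)⁻¹)
      (fun a => c.cw k (ψ a)) hr (fun a _ => ?_) ?_
    · obtain ⟨h1, h2, h3⟩ := sw_cw c k (ψ a)
      exact ⟨h3, h2⟩
    · intro x hx hvx hxδ
      obtain ⟨t, ht, htf⟩ := hsweep (γ j) (hγc j) (hγ0 j) (hγ1 j) (hγL' j) x hx hvx
      have htQ : γ j t ∈ Q := ⟨hγL' j t ht, c.lc v x, hxδ, htf⟩
      obtain ⟨a, haA, hta⟩ := hAcov _ htQ
      have haQ := hAQ a haA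
      refine ⟨a, Finset.mem_filter.mpr ⟨haA, t, ⟨ht, htQ⟩, hta⟩, ?_⟩
      have hρa := hQρ a haQ
      have hρt := hQρ _ htQ
      have hcomp := T.th_comp v (ψ a) (ψ (γ j t)) (c.geo.sasym _ _ (hrel a hρa))
        ((c.geo.sasym _ _ (hrel a hρa)).symm.trans (c.geo.sasym _ _ (hrel _ hρt)))
      have h1 : ‖f (γ j t) - f a‖ ≤ c.M * (Cl * c.cw k (ψ a)) := by
        have h2 : f (γ j t) - f a = c.eta v (ψ a) * T.th (ψ a) (ψ (γ j t)) := by
          rw [hfdef]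
          simp only
          rw [hcomp]
          ring
        rw [h2, norm_mul]
        exact mul_le_mul (c.eta_le _ _ (hrel a hρa))
          (hlev1 k (ψ a) (ψ (γ j t)) (hta.symm.mono hκl)) (norm_nonneg _) hMpos.le
      have h3 : c.lc v x = (f (γ j t))⁻¹ := eq_inv_of_mul_eq_one_right htf
      have h4 : c.lc v x - (f a)⁻¹ = c.lc v x * (f a)⁻¹ * (f a - f (γ j t)) := by
        have h5 := hQne _ htQ
        have h6 := hQne _ haQ
        rw [h3]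
        field_simp
      have h5 : ‖c.lc v x‖ ≤ B := by
        have := norm_add_le (c.lc v x - a₀) a₀
        rw [sub_add_cancel] at this
        linarith
      have h6 : ‖(f a)⁻¹‖ ≤ B := by
        have := norm_add_le ((f a)⁻¹ - a₀) a₀
        rw [sub_add_cancel] at this
        linarith [hQinv a haQ]
      rw [h4, norm_mul, norm_mul, norm_sub_rev (f a)]
      calc ‖c.lc v x‖ * ‖(f a)⁻¹‖ * ‖f (γ j t) - f a‖ ≤
            B * B * (c.M * (Cl * c.cw k (ψ a))) := by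
            refine mul_le_mul (mul_le_mul h5 h6 (norm_nonneg _) hBpos.le) h1 (norm_nonneg _) ?_
            positivity
        _ = C₁ * c.cw k (ψ a) := by rw [hC₁def]; ring
  -- upper bound
  have hψinj : Set.InjOn ψ (A : Set (EuclideanSpace ℝ (Fin d))) := by
    intro a ha b hb hab
    by_contra hne
    have := hψ.ge a b (hQρ a (hAQ a ha)) (hQρ b (hAQ b hb))
    rw [hab, dist_self, mul_zero] at this
    exact hne (sub_eq_zero.mp (norm_le_zero_iff.mp this))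
  have hup : ∑ a ∈ A, (Sf c R (r / c.cw k (ψ a)) : ℝ) ≤ CU * Sf c R r := by
    have h1 := hUp' k (A.image ψ) r hr ?_ ?_ ?_ ?_
    · rwa [Finset.sum_image (fun a ha b hb h => hψinj ha hb h)] at h1
    · intro y hy
      obtain ⟨a, ha, rfl⟩ := Finset.mem_image.mp hy
      exact hA₀ a (hAQ a ha)
    · intro y hy y' hy'
      obtain ⟨a, ha, rfl⟩ := Finset.mem_image.mp hy
      obtain ⟨b, hb, rfl⟩ := Finset.mem_image.mp hy'
      exact hrel2 a b (hQρ a (hAQ a ha)) (hQρ b (hAQ b hb))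
    · intro y hy y' hy' hne
      obtain ⟨a, ha, rfl⟩ := Finset.mem_image.mp hy
      obtain ⟨b, hb, rfl⟩ := Finset.mem_image.mp hy'
      exact hAsep a ha b hb (fun h => hne (by rw [h]))
    · intro y _
      exact (sw_cw c k y).2.2
  have hsum : ∑ j : Fin N, ∑ a ∈ Aj j, (Sf c R (r / c.cw k (ψ a)) : ℝ) ≤
      ∑ a ∈ A, (Sf c R (r / c.cw k (ψ a)) : ℝ) := by
    rw [← Finset.sum_biUnion (fun i _ j _ hij => hAjd i j hij)]
    refine Finset.sum_le_sum_of_subset_of_nonneg ?_ (fun a _ _ => Nat.cast_nonneg _)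
    intro a ha
    obtain ⟨j, _, h⟩ := Finset.mem_biUnion.mp ha
    exact (Finset.mem_filter.mp h).1
  have hfin : (N : ℝ) * Sf c R r ≤ CD * (CU * Sf c R r) := by
    calc (N : ℝ) * Sf c R r = ∑ _j : Fin N, (Sf c R r : ℝ) := by simp
      _ ≤ ∑ j : Fin N, CD * ∑ a ∈ Aj j, (Sf c R (r / c.cw k (ψ a)) : ℝ) :=
          Finset.sum_le_sum (fun j _ => hlow j)
      _ = CD * ∑ j : Fin N, ∑ a ∈ Aj j, (Sf c R (r / c.cw k (ψ a)) : ℝ) := by
          rw [Finset.mul_sum]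
      _ ≤ CD * (CU * Sf c R r) := mul_le_mul_of_nonneg_left (hsum.trans hup) hCD.le
  nlinarith
end Pool.Agent.H779R2.An
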