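import Pool.Agent.H779R2.An.CDefs
import Pool.Agent.H779R2.An.Schwarz

set_option autoImplicit false

namespace Pool.Agent.H779R2.An

open Pool.Agent.H721R2 Filter Topology MeasureTheory
open scoped BigOperators

namespace CThAux

theorem dslope_bd (G : ℂ → ℂ) (ρ M : ℝ) (hρ : 0 < ρ)
    (hG : DifferentiableOn ℂ G (Metric.ball 0 ρ)) (hM : ∀ z ∈ Metric.ball (0 : ℂ) ρ, ‖G z‖ ≤ M) :
    DifferentiableOn ℂ (dslope G 0) (Metric.ball 0 ρ) ∧
      ∀ z ∈ Metric.ball (0 : ℂ) ρ, ‖dslope G 0 z‖ ≤ 2 * M / ρ := by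
  refine ⟨(Complex.differentiableOn_dslope (Metric.ball_mem_nhds _ hρ)).2 hG, fun z hz => ?_⟩
  refine Complex.norm_dslope_le_div_of_mapsTo_ball hG (fun w hw => ?_) hz
  rw [Metric.mem_closedBall, dist_eq_norm]
  have h1 := hM w hw
  have h2 := hM 0 (Metric.mem_ball_self hρ)
  have h3 := norm_sub_le (G w) (G 0)
  linarith

theorem taylor2 (F : ℂ → ℂ) (ρ : ℝ) (hρ : 0 < ρ)
    (hF : DifferentiableOn ℂ F (Metric.ball 0 ρ)) (hM : ∀ z ∈ Metric.ball (0 : ℂ) ρ, ‖F z‖ ≤ 1)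
    (h0 : F 0 = 0) : ∃ a : ℂ, ‖a‖ ≤ 4 / ρ ^ 2 ∧ ∀ u ∈ Metric.ball (0 : ℂ) ρ,
      ‖F u - deriv F 0 * u - a * u ^ 2‖ ≤ 8 / ρ ^ 3 * ‖u‖ ^ 3 := by
  obtain ⟨d1, b1⟩ := dslope_bd F ρ 1 hρ hF hM
  obtain ⟨d2, b2⟩ := dslope_bd (dslope F 0) ρ _ hρ d1 b1
  obtain ⟨d3, b3⟩ := dslope_bd (dslope (dslope F 0) 0) ρ _ hρ d2 b2
  refine ⟨dslope (dslope F 0) 0 0, ?_, fun u hu => ?_⟩
  · refine (b2 0 (Metric.mem_ball_self hρ)).trans (le_of_eq ?_)
    field_simp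
    norm_num
  · have e1 := sub_smul_dslope F 0 u
    have e2 := sub_smul_dslope (dslope F 0) 0 u
    have e3 := sub_smul_dslope (dslope (dslope F 0) 0) 0 u
    rw [sub_zero, smul_eq_mul] at e1 e2 e3
    have e4 : F u - deriv F 0 * u - dslope (dslope F 0) 0 0 * u ^ 2 =
        dslope (dslope (dslope F 0) 0) 0 u * u ^ 3 := by
      have e5 : dslope F 0 0 = deriv F 0 := dslope_same F 0
      rw [e5] at e2
      rw [h0, sub_zero] at e1
      rw [← e1]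
      linear_combination (-u) * e2 - u ^ 2 * e3
    rw [e4, norm_mul, norm_pow]
    refine mul_le_mul_of_nonneg_right ((b3 u hu).trans (le_of_eq ?_)) (by positivity)
    field_simp
    norm_num

/-- uniqueness of the second order coefficient -/
theorem uniq2 (b : ℂ) (ρ B : ℝ) (hρ : 0 < ρ) (h : ∀ u : ℂ, ‖u‖ ≤ ρ → ‖b * u ^ 2‖ ≤ B * ‖u‖ ^ 3) :
    b = 0 := by
  by_contra hb
  have hb0 : 0 < ‖b‖ := norm_pos_iff.mpr hb
  set t : ℝ := min ρ (‖b‖ / (2 * (|B| + 1))) with ht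
  have hB : 0 < |B| + 1 := by positivity
  have ht0 : 0 < t := lt_min hρ (by positivity)
  have hn : ‖(t : ℂ)‖ = t := by rw [Complex.norm_real, Real.norm_of_nonneg ht0.le]
  have h1 := h (t : ℂ) (by rw [hn]; exact min_le_left _ _)
  rw [norm_mul, norm_pow, hn] at h1
  have h2 : ‖b‖ ≤ B * t := by
    have h3 : ‖b‖ * t ^ 2 ≤ (B * t) * t ^ 2 := by nlinarith
    exact le_of_mul_le_mul_right h3 (by positivity)
  have h4 : B * t ≤ (|B| + 1) * t := mul_le_mul_of_nonneg_right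
    (by linarith [le_abs_self B]) ht0.le
  have h5 : (|B| + 1) * t ≤ (|B| + 1) * (‖b‖ / (2 * (|B| + 1))) :=
    mul_le_mul_of_nonneg_left (min_le_right _ _) hB.le
  have h6 : (|B| + 1) * (‖b‖ / (2 * (|B| + 1))) = ‖b‖ / 2 := by
    field_simp
  linarith

/-- the Moebius map and its 2-jet -/
theorem mob_jet (M A : ℝ) (η θ u : ℂ) (hη : ‖η‖ ≤ M) (hθ : ‖θ‖ ≤ A) (hu : ‖θ * u‖ ≤ 1 / 2) :
    ‖mob η θ u - (η * u + η * θ * u ^ 2)‖ ≤ 2 * M * A ^ 2 * ‖u‖ ^ 3 := by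
  have h1 : (1 : ℝ) / 2 ≤ ‖1 - θ * u‖ := by
    have := norm_sub_norm_le (1 : ℂ) (θ * u)
    rw [norm_one] at this
    linarith
  have h0 : (1 : ℂ) - θ * u ≠ 0 := by
    intro h
    rw [h, norm_zero] at h1
    norm_num at h1
  have e : mob η θ u - (η * u + η * θ * u ^ 2) = (η * θ ^ 2 * u ^ 3) / (1 - θ * u) := by
    unfold mob
    rw [eq_div_iff h0, sub_mul, div_mul_cancel₀ _ h0]
    ring
  rw [e, norm_div, div_le_iff₀ (by linarith), norm_mul, norm_mul, norm_pow, norm_pow]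
  have hM : 0 ≤ M := (norm_nonneg _).trans hη
  have hA : 0 ≤ A := (norm_nonneg _).trans hθ
  have h2 : ‖η‖ * ‖θ‖ ^ 2 * ‖u‖ ^ 3 ≤ M * A ^ 2 * ‖u‖ ^ 3 := by
    gcongr
  have h3 : 2 * M * A ^ 2 * ‖u‖ ^ 3 * (1 / 2) ≤ 2 * M * A ^ 2 * ‖u‖ ^ 3 * ‖1 - θ * u‖ :=
    mul_le_mul_of_nonneg_left h1 (by positivity)
  linarith

end CThAux

variable {X E : Type*} [MetricSpace X] [CompactSpace X] [NormedAddCommGroup E]
  [InnerProductSpace ℝ E] [FiniteDimensional ℝ E]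

namespace CThAux

theorem eta_mul {S : HypSys X E} (c : CF S) {x y : X} (h : SAsym S x y) :
    c.eta y x * c.eta x y = 1 := by
  rw [c.eta_comp x y x h h.symm, c.eta_self]

theorem eta_ne {S : HypSys X E} (c : CF S) {x y : X} (h : SAsym S x y) : c.eta x y ≠ 0 := by
  intro h0
  have := eta_mul c h
  rw [h0, mul_zero] at this
  exact zero_ne_one this

theorem lam_ne {S : HypSys X E} (c : CF S) (x : X) : c.lam x ≠ 0 := by
  intro h0
  have := c.lam_ge x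
  rw [h0, norm_zero] at this
  norm_num at this

/-- Local data. -/
theorem local_data {S : HypSys X E} (c : CF S) (hH : HolProp c) :
    ∃ ε₁ > 0, ε₁ ≤ c.ε₀ ∧ ∃ A > 0, ∃ B > 0, ∃ thl : X → X → ℂ,
      (∀ z z', S.SRel ε₁ z z' → ‖thl z z'‖ ≤ A) ∧
      ∀ z z' p p', S.SRel ε₁ z z' → S.URel ε₁ z p → S.SRel ε₁ p p' → S.URel ε₁ z' p' →
        ‖c.lc z' p' - (c.eta z z' * c.lc z p + c.eta z z' * thl z z' * (c.lc z p) ^ 2)‖ ≤
          B * ‖c.lc z p‖ ^ 3 := by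
  obtain ⟨ρ₀, hρ₀, ε, hε, hle, h, hh⟩ := hH
  have key : ∀ z z', ∃ t : ℂ, S.SRel ε z z' → ‖t‖ ≤ 4 / ρ₀ ^ 2 * c.M ∧
      ∀ u ∈ Metric.ball (0 : ℂ) ρ₀, ‖h z z' u - (c.eta z z' * u + c.eta z z' * t * u ^ 2)‖ ≤
        8 / ρ₀ ^ 3 * ‖u‖ ^ 3 := by
    intro z z'
    by_cases hz : S.SRel ε z z'
    · obtain ⟨h1, h2, h3, h4, h5⟩ := hh z z' hz
      obtain ⟨a, ha, ha'⟩ := taylor2 (h z z') ρ₀ hρ₀ h1 h2 h3
      have has : SAsym S z z' := c.geo.sasym z z' (hz.mono hle)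
      have hne := eta_ne c has
      refine ⟨a * c.eta z' z, fun _ => ⟨?_, fun u hu => ?_⟩⟩
      · rw [norm_mul]
        have h6 := c.eta_le z' z (hz.symm.mono hle)
        exact mul_le_mul ha h6 (norm_nonneg _) (by positivity)
      · have h7 := ha' u hu
        rw [h4] at h7
        have h8 : h z z' u - (c.eta z z' * u + c.eta z z' * (a * c.eta z' z) * u ^ 2) =
            h z z' u - c.eta z z' * u - a * u ^ 2 := by
          have h9 := eta_mul c has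
          linear_combination (-a * u ^ 2) * h9
        rw [h8]
        exact h7
    · exact ⟨0, fun h' => absurd h' hz⟩
  choose thl hthl using key
  have hM : 0 < c.M := lt_of_lt_of_le one_pos c.one_le_M
  refine ⟨ε, hε, hle, 4 / ρ₀ ^ 2 * c.M, by positivity, 8 / ρ₀ ^ 3, by positivity, thl,
    fun z z' hz => (hthl z z' hz).1, fun z z' p p' h1 h2 h3 h4 => ?_⟩
  obtain ⟨h5, h6⟩ := (hh z z' h1).2.2.2.2 p p' h2 h3 h4
  rw [h6]
  exact (hthl z z' h1).2 _ (mem_ball_zero_iff.2 h5)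

/-- Corners, with small sides. -/
theorem corner {S : HypSys X E} (c : CF S) (κ : ℝ) (hκ : 0 < κ) (hκε : κ ≤ c.ε₀)
    (A B ε₁ : ℝ) (hA : 0 < A) (hB : 0 < B) (hκ1 : κ ≤ ε₁) (thl : X → X → ℂ)
    (h1 : ∀ z z', S.SRel ε₁ z z' → ‖thl z z'‖ ≤ A)
    (h2 : ∀ z z' p p', S.SRel ε₁ z z' → S.URel ε₁ z p → S.SRel ε₁ p p' → S.URel ε₁ z' p' →
        ‖c.lc z' p' - (c.eta z z' * c.lc z p + c.eta z z' * thl z z' * (c.lc z p) ^ 2)‖ ≤
          B * ‖c.lc z p‖ ^ 3) :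
    ∃ ε₂ > 0, ε₂ ≤ κ ∧ ∃ D > 0, ∀ z z', S.SRel ε₂ z z' → ∀ δ > 0, ∃ ρ > 0, ρ ≤ 1 ∧ ∀ p,
      UAsym S z p → ‖c.lc z p‖ ≤ ρ → S.URel δ z p ∧ ∃ p', UAsym S z' p' ∧ S.SRel κ p p' ∧
        S.URel δ z' p' ∧ ‖c.lc z' p'‖ ≤ D * ‖c.lc z p‖ := by
  obtain ⟨ε, hε, hc⟩ := exists_corner S κ hκ
  have hM : 0 < c.M := lt_of_lt_of_le one_pos c.one_le_M
  refine ⟨min ε κ, lt_min hε hκ, min_le_right _ _, c.M + c.M * A + B, by positivity,
    fun z z' hz δ hδ => ?_⟩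
  obtain ⟨ρ₁, hρ₁, h3⟩ := c.small (min δ (min ε κ)) (lt_min hδ (lt_min hε hκ))
  set D := c.M + c.M * A + B with hD
  have hD0 : 0 < D := by positivity
  refine ⟨min 1 (min ρ₁ (ρ₁ / D)), lt_min one_pos (lt_min hρ₁ (by positivity)),
    min_le_left _ _, fun p hp hlp => ?_⟩
  have hp1 : ‖c.lc z p‖ ≤ 1 := hlp.trans (min_le_left _ _)
  have hp2 : ‖c.lc z p‖ ≤ ρ₁ := hlp.trans ((min_le_right _ _).trans (min_le_left _ _))
  have hp3 : ‖c.lc z p‖ ≤ ρ₁ / D := hlp.trans ((min_le_right _ _).trans (min_le_right _ _))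
  have hU := h3 z p hp hp2
  refine ⟨hU.mono (min_le_left _ _), ?_⟩
  obtain ⟨p', h4, h5⟩ := hc z z' p (hz.mono (min_le_left _ _))
    (hU.mono ((min_le_right _ _).trans (min_le_left _ _)))
  have h6 : ‖c.lc z' p'‖ ≤ D * ‖c.lc z p‖ := by
    have h7 := h2 z z' p p' (hz.mono ((min_le_right _ _).trans hκ1))
      (hU.mono ((min_le_right _ _).trans ((min_le_right _ _).trans hκ1))) (h5.mono hκ1)
      (h4.mono hκ1)
    have h8 := norm_le_norm_add_norm_sub' (c.lc z' p')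
      (c.eta z z' * c.lc z p + c.eta z z' * thl z z' * (c.lc z p) ^ 2)
    have h9 := norm_add_le (c.eta z z' * c.lc z p) (c.eta z z' * thl z z' * (c.lc z p) ^ 2)
    rw [norm_mul, norm_mul, norm_mul, norm_pow] at h9
    have h10 := c.eta_le z z' (hz.mono ((min_le_right _ _).trans hκε))
    have h11 := h1 z z' (hz.mono ((min_le_right _ _).trans hκ1))
    set u := ‖c.lc z p‖ with hu
    have hu0 : 0 ≤ u := norm_nonneg _
    have hu2 : u ^ 2 ≤ u := by nlinarith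
    have hu3 : u ^ 3 ≤ u := by nlinarith [mul_nonneg hu0 hu0]
    have h12 : ‖c.eta z z'‖ * u ≤ c.M * u := mul_le_mul_of_nonneg_right h10 hu0
    have h13 : ‖c.eta z z'‖ * ‖thl z z'‖ * u ^ 2 ≤ c.M * A * u :=
      mul_le_mul (mul_le_mul h10 h11 (norm_nonneg _) hM.le) hu2 (by positivity) (by positivity)
    have h14 : B * u ^ 3 ≤ B * u := mul_le_mul_of_nonneg_left hu3 hB.le
    have h15 : D * u = c.M * u + c.M * A * u + B * u := by rw [hD]; ring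
    linarith
  have h7 : UAsym S z' p' := c.geo.uasym z' p' (h4.mono hκε)
  have h8 : ‖c.lc z' p'‖ ≤ ρ₁ := by
    refine h6.trans ?_
    rw [le_div_iff₀ hD0] at hp3
    linarith
  exact ⟨p', h7, h5, (h3 z' p' h7 h8).mono (min_le_left _ _), h6⟩

theorem local_equi {S : HypSys X E} (c : CF S) (κ : ℝ) (hκ : 0 < κ) (hκε : κ ≤ c.ε₀)
    (A B ε₁ : ℝ) (hB : 0 < B) (hκ1 : κ ≤ ε₁) (thl : X → X → ℂ)
    (h2 : ∀ z z' p p', S.SRel ε₁ z z' → S.URel ε₁ z p → S.SRel ε₁ p p' → S.URel ε₁ z' p' →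
        ‖c.lc z' p' - (c.eta z z' * c.lc z p + c.eta z z' * thl z z' * (c.lc z p) ^ 2)‖ ≤
          B * ‖c.lc z p‖ ^ 3)
    (ε₂ D : ℝ) (hε₂ : 0 < ε₂) (hε₂κ : ε₂ ≤ κ) (hD : 0 < D)
    (hc : ∀ z z', S.SRel ε₂ z z' → ∀ δ > 0, ∃ ρ > 0, ρ ≤ 1 ∧ ∀ p,
      UAsym S z p → ‖c.lc z p‖ ≤ ρ → S.URel δ z p ∧ ∃ p', UAsym S z' p' ∧ S.SRel κ p p' ∧
        S.URel δ z' p' ∧ ‖c.lc z' p'‖ ≤ D * ‖c.lc z p‖)
    (z z' : X) (hz : S.SRel ε₂ z z') : thl (S.g z) (S.g z') * c.lam z = thl z z' := by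
  have hM : 0 < c.M := lt_of_lt_of_le one_pos c.one_le_M
  have hε₁ : 0 < ε₁ := lt_of_lt_of_le hκ hκ1
  have hsas : SAsym S z z' := c.geo.sasym z z' (hz.mono (hε₂κ.trans hκε))
  obtain ⟨ρ₁, hρ₁, hρ₁1, h3⟩ := hc z z' hz ε₁ hε₁
  obtain ⟨ρ₂, hρ₂, h4⟩ := c.surj c.ε₀ c.geo.pos
  obtain ⟨ρ₃, hρ₃, h5⟩ := c.small ε₁ hε₁
  have key : ∀ u : ℂ, ‖u‖ ≤ min ρ₁ (min ρ₂ (ρ₃ / (c.M * (1 + D)))) →
      ‖(c.lam z' * c.eta z z' * (thl z z' - thl (S.g z) (S.g z') * c.lam z)) * u ^ 2‖ ≤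
        (B * c.M ^ 3 + c.M * B) * ‖u‖ ^ 3 := by
    intro u hu
    have hu1 : ‖u‖ ≤ ρ₁ := hu.trans (min_le_left _ _)
    have hu2 : ‖u‖ ≤ ρ₂ := hu.trans ((min_le_right _ _).trans (min_le_left _ _))
    have hu3 : ‖u‖ ≤ ρ₃ / (c.M * (1 + D)) :=
      hu.trans ((min_le_right _ _).trans (min_le_right _ _))
    rw [le_div_iff₀ (by positivity)] at hu3
    obtain ⟨p, hp, hpu⟩ := h4 z u hu2
    have hpa := c.geo.uasym z p hp
    obtain ⟨h6, p', h7, h8, h9, h10⟩ := h3 p hpa (by rw [hpu]; exact hu1)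
    have e1 : c.lc (S.g z) (S.g p) = c.lam z * u := by rw [c.lc_equi z p hpa, hpu]
    have e2 : c.lc (S.g z') (S.g p') = c.lam z' * c.lc z' p' := c.lc_equi z' p' h7
    have hn1 : ‖c.lc (S.g z) (S.g p)‖ ≤ c.M * ‖u‖ := by
      rw [e1, norm_mul]
      exact mul_le_mul_of_nonneg_right (c.lam_le z) (norm_nonneg _)
    have hn2 : ‖c.lc (S.g z') (S.g p')‖ ≤ c.M * (D * ‖u‖) := by
      rw [e2, norm_mul]
      rw [hpu] at h10
      exact mul_le_mul (c.lam_le z') h10 (norm_nonneg _) hM.le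
    have hu0 : 0 ≤ ‖u‖ := norm_nonneg _
    have hMu : 0 ≤ c.M * ‖u‖ := by positivity
    have hMDu : 0 ≤ c.M * (D * ‖u‖) := by positivity
    have h11 : S.URel ε₁ (S.g z) (S.g p) := h5 _ _ hpa.map (by nlinarith)
    have h12 : S.URel ε₁ (S.g z') (S.g p') := h5 _ _ h7.map (by nlinarith)
    have hA := h2 z z' p p' (hz.mono (hε₂κ.trans hκ1)) h6 (h8.mono hκ1) h9
    have hB := h2 (S.g z) (S.g z') (S.g p) (S.g p') (hz.mono (hε₂κ.trans hκ1)).map h11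
      (h8.mono hκ1).map h12
    have heq := c.eta_equi z z' hsas
    rw [e1, e2] at hB
    rw [hpu] at hA
    have e3 : (c.lam z' * c.eta z z' * (thl z z' - thl (S.g z) (S.g z') * c.lam z)) * u ^ 2 =
        (c.lam z' * c.lc z' p' - (c.eta (S.g z) (S.g z') * (c.lam z * u) +
          c.eta (S.g z) (S.g z') * thl (S.g z) (S.g z') * (c.lam z * u) ^ 2)) -
        c.lam z' * (c.lc z' p' - (c.eta z z' * u + c.eta z z' * thl z z' * u ^ 2)) := by
      linear_combination (u + thl (S.g z) (S.g z') * c.lam z * u ^ 2) * heq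
    rw [e3]
    refine (norm_sub_le _ _).trans ?_
    have hC : ‖c.lam z * u‖ ^ 3 ≤ c.M ^ 3 * ‖u‖ ^ 3 := by
      rw [norm_mul, mul_pow]
      exact mul_le_mul_of_nonneg_right (pow_le_pow_left₀ (norm_nonneg _) (c.lam_le z) 3)
        (by positivity)
    have hD' : ‖c.lam z' * (c.lc z' p' - (c.eta z z' * u + c.eta z z' * thl z z' * u ^ 2))‖ ≤
        c.M * (B * ‖u‖ ^ 3) := by
      rw [norm_mul]
      exact mul_le_mul (c.lam_le z') hA (norm_nonneg _) hM.le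
    have hE := mul_le_mul_of_nonneg_left hC (le_of_lt ‹0 < B›)
    nlinarith
  have h0 := uniq2 _ _ _ (lt_min hρ₁ (lt_min hρ₂ (by positivity))) key
  rw [mul_eq_zero, mul_eq_zero] at h0
  rcases h0 with (h0 | h0) | h0
  · exact absurd h0 (lam_ne c z')
  · exact absurd h0 (eta_ne c hsas)
  · exact (sub_eq_zero.1 h0).symm

theorem local_comp {S : HypSys X E} (c : CF S) (κ : ℝ) (hκ : 0 < κ) (hκε : κ ≤ c.ε₀)
    (A B ε₁ : ℝ) (hA : 0 < A) (hB : 0 < B) (hκ1 : κ + κ ≤ ε₁) (thl : X → X → ℂ)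
    (h1 : ∀ z z', S.SRel ε₁ z z' → ‖thl z z'‖ ≤ A)
    (h2 : ∀ z z' p p', S.SRel ε₁ z z' → S.URel ε₁ z p → S.SRel ε₁ p p' → S.URel ε₁ z' p' →
        ‖c.lc z' p' - (c.eta z z' * c.lc z p + c.eta z z' * thl z z' * (c.lc z p) ^ 2)‖ ≤
          B * ‖c.lc z p‖ ^ 3)
    (ε₂ D : ℝ) (hε₂ : 0 < ε₂) (hε₂κ : ε₂ ≤ κ) (hD : 0 < D)
    (hc : ∀ z z', S.SRel ε₂ z z' → ∀ δ > 0, ∃ ρ > 0, ρ ≤ 1 ∧ ∀ p,
      UAsym S z p → ‖c.lc z p‖ ≤ ρ → S.URel δ z p ∧ ∃ p', UAsym S z' p' ∧ S.SRel κ p p' ∧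
        S.URel δ z' p' ∧ ‖c.lc z' p'‖ ≤ D * ‖c.lc z p‖)
    (x y z : X) (hxy : S.SRel ε₂ x y) (hyz : S.SRel ε₂ y z) (hxz : S.SRel ε₂ x z) :
    thl x z = thl x y + c.eta x y * thl y z := by
  have hM : 0 < c.M := lt_of_lt_of_le one_pos c.one_le_M
  have hκ1' : κ ≤ ε₁ := by linarith
  have hε₁ : 0 < ε₁ := lt_of_lt_of_le hκ hκ1'
  have hsxy : SAsym S x y := c.geo.sasym x y (hxy.mono (hε₂κ.trans hκε))
  have hsyz : SAsym S y z := c.geo.sasym y z (hyz.mono (hε₂κ.trans hκε))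
  obtain ⟨ρ₁, hρ₁, hρ₁1, h3⟩ := hc x y hxy ε₁ hε₁
  obtain ⟨ρ₂, hρ₂, hρ₂1, h4⟩ := hc y z hyz ε₁ hε₁
  obtain ⟨ρ₃, hρ₃, h5⟩ := c.surj c.ε₀ c.geo.pos
  have key : ∀ u : ℂ, ‖u‖ ≤ min ρ₁ (min (ρ₂ / D) ρ₃) →
      ‖(c.eta y z * c.eta x y * (thl x z - (thl x y + c.eta x y * thl y z))) * u ^ 2‖ ≤
        (B + B * D ^ 3 + c.M * B + c.M * A * ((B + c.M * A) * (D + c.M))) * ‖u‖ ^ 3 := by
    intro u hu
    have hu1 : ‖u‖ ≤ ρ₁ := hu.trans (min_le_left _ _)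
    have hu2 : ‖u‖ ≤ ρ₂ / D := hu.trans ((min_le_right _ _).trans (min_le_left _ _))
    have hu3 : ‖u‖ ≤ ρ₃ := hu.trans ((min_le_right _ _).trans (min_le_right _ _))
    have hu4 : ‖u‖ ≤ 1 := hu1.trans hρ₁1
    rw [le_div_iff₀ hD] at hu2
    obtain ⟨p, hp, hpu⟩ := h5 x u hu3
    have hpa := c.geo.uasym x p hp
    obtain ⟨h6, p', h7, h8, h9, h10⟩ := h3 p hpa (by rw [hpu]; exact hu1)
    rw [hpu] at h10
    obtain ⟨h11, p'', h12, h13, h14, h15⟩ := h4 p' h7 (by linarith)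
    have hA' := h2 x y p p' (hxy.mono (hε₂κ.trans hκ1')) h6 (h8.mono hκ1') h9
    have hB' := h2 y z p' p'' (hyz.mono (hε₂κ.trans hκ1')) h11 (h13.mono hκ1') h14
    have hC' := h2 x z p p'' (hxz.mono (hε₂κ.trans hκ1')) h6 ((h8.trans h13).mono hκ1) h14
    rw [hpu] at hA' hC'
    rw [← c.eta_comp x y z hsxy hsyz] at hC'
    have ht := h1 x y (hxy.mono (hε₂κ.trans hκ1'))
    have ht' := h1 y z (hyz.mono (hε₂κ.trans hκ1'))
    have hη := c.eta_le x y (hxy.mono (hε₂κ.trans hκε))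
    have hη' := c.eta_le y z (hyz.mono (hε₂κ.trans hκε))
    generalize c.lc y p' = v at *
    generalize c.lc z p'' = w at *
    generalize c.eta x y = η at *
    generalize c.eta y z = η' at *
    generalize thl x y = t at *
    generalize thl y z = t' at *
    generalize thl x z = t'' at *
    have e : (η' * η * (t'' - (t + η * t'))) * u ^ 2 =
        -(w - (η' * η * u + η' * η * t'' * u ^ 2)) + (w - (η' * v + η' * t' * v ^ 2)) +
        η' * (v - (η * u + η * t * u ^ 2)) + η' * t' * ((v - η * u) * (v + η * u)) := by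
      ring
    rw [e]
    have n1 : ‖v - η * u‖ ≤ (B + c.M * A) * ‖u‖ ^ 2 := by
      have e1 : v - η * u = (v - (η * u + η * t * u ^ 2)) + η * t * u ^ 2 := by ring
      rw [e1]
      refine (norm_add_le _ _).trans ?_
      have h16 : ‖η * t * u ^ 2‖ ≤ c.M * A * ‖u‖ ^ 2 := by
        rw [norm_mul, norm_mul, norm_pow]
        exact mul_le_mul_of_nonneg_right (mul_le_mul hη ht (norm_nonneg _) hM.le) (by positivity)
      have h17 : B * ‖u‖ ^ 3 ≤ B * ‖u‖ ^ 2 :=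
        mul_le_mul_of_nonneg_left (pow_le_pow_of_le_one (norm_nonneg _) hu4 (by norm_num)) hB.le
      linarith
    have n2 : ‖v + η * u‖ ≤ (D + c.M) * ‖u‖ := by
      refine (norm_add_le _ _).trans ?_
      have h16 : ‖η * u‖ ≤ c.M * ‖u‖ := by
        rw [norm_mul]
        exact mul_le_mul_of_nonneg_right hη (norm_nonneg _)
      linarith
    have n3 : ‖η' * t' * ((v - η * u) * (v + η * u))‖ ≤
        c.M * A * ((B + c.M * A) * (D + c.M)) * ‖u‖ ^ 3 := by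
      rw [norm_mul, norm_mul, norm_mul]
      have h16 : ‖v - η * u‖ * ‖v + η * u‖ ≤
          ((B + c.M * A) * ‖u‖ ^ 2) * ((D + c.M) * ‖u‖) :=
        mul_le_mul n1 n2 (norm_nonneg _) (by positivity)
      have h17 : ‖η'‖ * ‖t'‖ ≤ c.M * A := mul_le_mul hη' ht' (norm_nonneg _) hM.le
      calc _ ≤ (c.M * A) * (((B + c.M * A) * ‖u‖ ^ 2) * ((D + c.M) * ‖u‖)) :=
            mul_le_mul h17 h16 (by positivity) (by positivity)
        _ = _ := by ring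
    have n4 : ‖η' * (v - (η * u + η * t * u ^ 2))‖ ≤ c.M * (B * ‖u‖ ^ 3) := by
      rw [norm_mul]
      exact mul_le_mul hη' hA' (norm_nonneg _) hM.le
    have n5 : B * ‖v‖ ^ 3 ≤ B * (D ^ 3 * ‖u‖ ^ 3) := by
      refine mul_le_mul_of_nonneg_left ?_ hB.le
      rw [← mul_pow]
      exact pow_le_pow_left₀ (norm_nonneg _) h10 3
    have n6 := norm_add_le (-(w - (η' * η * u + η' * η * t'' * u ^ 2)) +
      (w - (η' * v + η' * t' * v ^ 2)) + η' * (v - (η * u + η * t * u ^ 2)))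
      (η' * t' * ((v - η * u) * (v + η * u)))
    have n7 := norm_add_le (-(w - (η' * η * u + η' * η * t'' * u ^ 2)) +
      (w - (η' * v + η' * t' * v ^ 2))) (η' * (v - (η * u + η * t * u ^ 2)))
    have n8 := norm_add_le (-(w - (η' * η * u + η' * η * t'' * u ^ 2)))
      (w - (η' * v + η' * t' * v ^ 2))
    rw [norm_neg] at n8
    have n9 : (B + B * D ^ 3 + c.M * B + c.M * A * ((B + c.M * A) * (D + c.M))) * ‖u‖ ^ 3 =
      B * ‖u‖ ^ 3 + B * (D ^ 3 * ‖u‖ ^ 3) + c.M * (B * ‖u‖ ^ 3) +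
        c.M * A * ((B + c.M * A) * (D + c.M)) * ‖u‖ ^ 3 := by ring
    rw [n9]
    linarith
  have h0 := uniq2 _ _ _ (lt_min hρ₁ (lt_min (by positivity) hρ₃)) key
  rw [mul_eq_zero, mul_eq_zero] at h0
  rcases h0 with (h0 | h0) | h0
  · exact absurd h0 (eta_ne c hsyz)
  · exact absurd h0 (eta_ne c hsxy)
  · exact sub_eq_zero.1 h0

theorem Lp_zero' {S : HypSys X E} (c : CF S) (x : X) : c.Lp 0 x = 1 := by
  simp [CF.Lp]

theorem Lp_succ_r {S : HypSys X E} (c : CF S) (n : ℕ) (x : X) :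
    c.Lp (n + 1) x = c.Lp n x * c.lam (S.g^[n] x) := by
  simp only [CF.Lp, Finset.prod_range_succ]

theorem Lp_succ_l {S : HypSys X E} (c : CF S) (n : ℕ) (x : X) :
    c.Lp (n + 1) x = c.Lp n (S.g x) * c.lam x := by
  simp only [CF.Lp, Finset.prod_range_succ', Function.iterate_succ_apply, Function.iterate_zero,
    id_eq]

theorem eta_iter {S : HypSys X E} (c : CF S) {x y : X} (h : SAsym S x y) (n : ℕ) :
    c.eta (S.g^[n] x) (S.g^[n] y) * c.Lp n x = c.Lp n y * c.eta x y := by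
  induction n with
  | zero => rw [Lp_zero', Lp_zero']; simp
  | succ n ih =>
    rw [Function.iterate_succ_apply', Function.iterate_succ_apply', Lp_succ_r, Lp_succ_r]
    have h1 := c.eta_equi _ _ (h.iter n)
    linear_combination c.Lp n x * h1 + c.lam (S.g^[n] y) * ih

theorem SRel_le {S : HypSys X E} {ε : ℝ} {x y : X} {n m : ℕ} (hnm : n ≤ m)
    (h : S.SRel ε (S.g^[n] x) (S.g^[n] y)) : S.SRel ε (S.g^[m] x) (S.g^[m] y) := by
  obtain ⟨k, rfl⟩ := Nat.exists_eq_add_of_le hnm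
  rw [add_comm, Function.iterate_add_apply, Function.iterate_add_apply]
  exact h.iter k

end CThAux

open CThAux in
/-- K4 -/
theorem exists_th {S : HypSys X E} (c : CF S) (hH : HolProp c) : Nonempty (TH c) := by
  classical
  obtain ⟨ε₁, hε₁, hε₁', A, hA, B, hB, thl, h1, h2⟩ := local_data c hH
  have hκ : 0 < ε₁ / 2 := by positivity
  have hκ0 : ε₁ / 2 ≤ c.ε₀ := by linarith
  obtain ⟨ε₂, hε₂, hε₂κ, D, hD, hc⟩ := corner c (ε₁ / 2) hκ hκ0 A B ε₁ hA hB (by linarith) thl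
    h1 h2
  have hequi := local_equi c (ε₁ / 2) hκ hκ0 A B ε₁ hB (by linarith) thl h2 ε₂ D hε₂ hε₂κ hD hc
  have hcomp := local_comp c (ε₁ / 2) hκ hκ0 A B ε₁ hA hB (by linarith) thl h1 h2 ε₂ D hε₂
    hε₂κ hD hc
  have hM : 0 < c.M := lt_of_lt_of_le one_pos c.one_le_M
  have hε₂1 : ε₂ ≤ ε₁ := by linarith
  set F : ℕ → X → X → ℂ := fun n x y => c.Lp n x * thl (S.g^[n] x) (S.g^[n] y) with hF
  have hFs : ∀ n x y, S.SRel ε₂ (S.g^[n] x) (S.g^[n] y) → F (n + 1) x y = F n x y := by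
    intro n x y h
    have h3 := hequi _ _ h
    simp only [hF]
    rw [Lp_succ_r, Function.iterate_succ_apply', Function.iterate_succ_apply', ← h3]
    ring
  have hFm : ∀ n m x y, n ≤ m → S.SRel ε₂ (S.g^[n] x) (S.g^[n] y) → F m x y = F n x y := by
    intro n m x y hnm h
    induction m, hnm using Nat.le_induction with
    | base => rfl
    | succ m hm ih => rw [hFs m x y (SRel_le hm h), ih]
  set T : X → X → ℂ := fun x y =>
    if h : ∃ n, S.SRel ε₂ (S.g^[n] x) (S.g^[n] y) then F h.choose x y else 0 with hT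
  have hTe : ∀ n x y, S.SRel ε₂ (S.g^[n] x) (S.g^[n] y) → T x y = F n x y := by
    intro n x y h
    have hex : ∃ n, S.SRel ε₂ (S.g^[n] x) (S.g^[n] y) := ⟨n, h⟩
    have h3 : T x y = F hex.choose x y := by
      simp only [hT]
      rw [dif_pos hex]
    rw [h3, ← hFm _ (max n hex.choose) x y (le_max_right _ _) hex.choose_spec,
      hFm n (max n hex.choose) x y (le_max_left _ _) h]
  have hT0 : ∀ x y, S.SRel ε₂ x y → T x y = thl x y := by
    intro x y h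
    rw [hTe 0 x y h]
    simp only [hF]
    rw [Lp_zero', one_mul]
    rfl
  set ε' : ℝ := min ε₂ (1 / (2 * (A * c.M))) with hε'
  have hε'0 : 0 < ε' := lt_min hε₂ (by positivity)
  have hε'2 : ε' ≤ ε₂ := min_le_left _ _
  have hhalf : ∀ z z' p, S.SRel ε' z z' → S.URel ε' z p → ‖thl z z' * c.lc z p‖ ≤ 1 / 2 := by
    intro z z' p h h'
    rw [norm_mul]
    have h3 := h1 z z' (h.mono (hε'2.trans hε₂1))
    have h4 := c.lc_le z p (h'.mono (hε'2.trans (hε₂1.trans hε₁')))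
    have h5 := h'.dist_le
    have h6 : ε' ≤ 1 / (2 * (A * c.M)) := min_le_right _ _
    rw [le_div_iff₀ (by positivity)] at h6
    have h7 : c.M * dist z p ≤ c.M * ε' := mul_le_mul_of_nonneg_left h5 hM.le
    have h8 : ‖thl z z'‖ * ‖c.lc z p‖ ≤ A * (c.M * ε') :=
      mul_le_mul h3 (h4.trans h7) (norm_nonneg _) hA.le
    linarith
  refine ⟨{
    ε := ε'
    ε_pos := hε'0
    ε_le := hε'2.trans (hε₂1.trans hε₁')
    C := A + B + 2 * c.M * A ^ 2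
    C_pos := by positivity
    th := T
    th_self := ?_
    th_equi := ?_
    th_comp := ?_
    th_le := ?_
    half := ?_
    cubic := ?_ }⟩
  · intro x
    have hr : S.SRel ε₂ x x := fun k => by rw [dist_self]; exact hε₂.le
    have h3 := hcomp x x x hr hr hr
    rw [c.eta_self] at h3
    rw [hT0 x x hr]
    linear_combination -h3
  · intro x y h
    obtain ⟨N, hN⟩ := h.map.eventually hε₂
    have h3 := hN N le_rfl
    rw [hTe N _ _ h3, hTe (N + 1) x y (by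
      rw [Function.iterate_succ_apply, Function.iterate_succ_apply]; exact h3)]
    simp only [hF]
    rw [Lp_succ_l, Function.iterate_succ_apply, Function.iterate_succ_apply]
    ring
  · intro x y z hxy hyz
    obtain ⟨N1, hN1⟩ := hxy.eventually hε₂
    obtain ⟨N2, hN2⟩ := hyz.eventually hε₂
    obtain ⟨N3, hN3⟩ := (hxy.trans hyz).eventually hε₂
    set N := max N1 (max N2 N3) with hN
    have h3 := hN1 N (le_max_left _ _)
    have h4 := hN2 N ((le_max_left _ _).trans (le_max_right _ _))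
    have h5 := hN3 N ((le_max_right _ _).trans (le_max_right _ _))
    rw [hTe N x z h5, hTe N x y h3, hTe N y z h4]
    simp only [hF]
    rw [hcomp _ _ _ h3 h4 h5]
    have h6 := eta_iter c hxy N
    linear_combination thl (S.g^[N] y) (S.g^[N] z) * h6
  · intro x y h
    rw [hT0 x y (h.mono hε'2)]
    have h3 := h1 x y (h.mono (hε'2.trans hε₂1))
    have h4 : 0 < B + 2 * c.M * A ^ 2 := by positivity
    linarith
  · intro z z' p h h'
    rw [hT0 z z' (h.mono hε'2)]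
    exact hhalf z z' p h h'
  · intro z z' p p' h3 h4 h5 h6
    rw [hT0 z z' (h3.mono hε'2)]
    have h7 := hhalf z z' p h3 h4
    have h8 := h2 z z' p p' (h3.mono (hε'2.trans hε₂1)) (h4.mono (hε'2.trans hε₂1))
      (h5.mono (hε'2.trans hε₂1)) (h6.mono (hε'2.trans hε₂1))
    have h9 := mob_jet c.M A (c.eta z z') (thl z z') (c.lc z p)
      (c.eta_le z z' (h3.mono (hε'2.trans (hε₂1.trans hε₁'))))
      (h1 z z' (h3.mono (hε'2.trans hε₂1))) h7
    have h10 : c.lc z' p' - mob (c.eta z z') (thl z z') (c.lc z p) =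
        (c.lc z' p' - (c.eta z z' * c.lc z p + c.eta z z' * thl z z' * (c.lc z p) ^ 2)) -
        (mob (c.eta z z') (thl z z') (c.lc z p) -
          (c.eta z z' * c.lc z p + c.eta z z' * thl z z' * (c.lc z p) ^ 2)) := by ring
    rw [h10]
    refine (norm_sub_le _ _).trans ?_
    have h11 : 0 ≤ A * ‖c.lc z p‖ ^ 3 := by positivity
    linarith

end Pool.Agent.H779R2.An
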