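import Pool.Agent.H779R2.An.CDefs

set_option autoImplicit false

namespace Pool.Agent.H779R2.An

open Pool.Agent.H721R2 Filter Topology MeasureTheory
open scoped BigOperators

variable {X E : Type*} [MetricSpace X] [CompactSpace X] [NormedAddCommGroup E]
  [InnerProductSpace ℝ E] [FiniteDimensional ℝ E]

section aux

variable {S : HypSys X E} (c : CF S)

omit [CompactSpace X] [FiniteDimensional ℝ E] in
private theorem tr_Lp_succ (n : ℕ) (x : X) : c.Lp (n + 1) x = c.Lp n x * c.lam (S.g^[n] x) := by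
  unfold CF.Lp
  rw [Finset.prod_range_succ]

omit [CompactSpace X] [FiniteDimensional ℝ E] in
private theorem tr_Lp_ge (n : ℕ) (x : X) : (16 : ℝ) ^ n ≤ ‖c.Lp n x‖ := by
  induction n with
  | zero => simp [CF.Lp]
  | succ n ih =>
    rw [tr_Lp_succ, norm_mul, pow_succ]
    exact mul_le_mul ih (c.lam_ge _) (by norm_num) (norm_nonneg _)

omit [CompactSpace X] [FiniteDimensional ℝ E] in
private theorem tr_Lp_ne (n : ℕ) (x : X) : c.Lp n x ≠ 0 := by
  intro h
  have h1 := tr_Lp_ge c n x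
  rw [h, norm_zero] at h1
  have : (0 : ℝ) < 16 ^ n := by positivity
  linarith

omit [CompactSpace X] [FiniteDimensional ℝ E] in
private theorem tr_lc_iter {x y : X} (h : UAsym S x y) (n : ℕ) :
    c.lc (S.g^[n] x) (S.g^[n] y) = c.Lp n x * c.lc x y := by
  induction n with
  | zero => simp [CF.Lp]
  | succ n ih =>
    rw [Function.iterate_succ_apply', Function.iterate_succ_apply', c.lc_equi _ _ (h.iter n), ih,
      tr_Lp_succ]
    ring

omit [CompactSpace X] [FiniteDimensional ℝ E] in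
private theorem tr_eta_iter {x y : X} (h : SAsym S x y) (n : ℕ) :
    c.eta (S.g^[n] x) (S.g^[n] y) * c.Lp n x = c.Lp n y * c.eta x y := by
  induction n with
  | zero => simp [CF.Lp]
  | succ n ih =>
    rw [Function.iterate_succ_apply', Function.iterate_succ_apply', tr_Lp_succ, tr_Lp_succ]
    have h1 := c.eta_equi _ _ (h.iter n)
    calc _ = c.eta (S.g (S.g^[n] x)) (S.g (S.g^[n] y)) * c.lam (S.g^[n] x) * c.Lp n x := by ring
      _ = c.lam (S.g^[n] y) * (c.eta (S.g^[n] x) (S.g^[n] y) * c.Lp n x) := by rw [h1]; ring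
      _ = _ := by rw [ih]; ring

omit [CompactSpace X] [FiniteDimensional ℝ E] in
private theorem tr_th_iter (T : TH c) {x y : X} (h : SAsym S x y) (n : ℕ) :
    T.th (S.g^[n] x) (S.g^[n] y) * c.Lp n x = T.th x y := by
  induction n with
  | zero => simp [CF.Lp]
  | succ n ih =>
    rw [Function.iterate_succ_apply', Function.iterate_succ_apply', tr_Lp_succ]
    have h1 := T.th_equi _ _ (h.iter n)
    calc _ = T.th (S.g (S.g^[n] x)) (S.g (S.g^[n] y)) * c.lam (S.g^[n] x) * c.Lp n x := by ring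
      _ = T.th (S.g^[n] x) (S.g^[n] y) * c.Lp n x := by rw [h1]
      _ = _ := ih

omit [CompactSpace X] [FiniteDimensional ℝ E] in
private theorem tr_cw_le (k : ℕ) (y : X) : c.cw k y ≤ (1 / 16) ^ k := by
  unfold CF.cw
  have h1 := tr_Lp_ge c k (S.g.symm^[k] y)
  have h2 : (0 : ℝ) < 16 ^ k := by positivity
  rw [one_div, inv_pow]
  exact inv_anti₀ h2 h1

private theorem tr_mob_scale {L L' η H θ Θ u U : ℂ} (hη : H * L = L' * η)
    (hθ : Θ * L = θ) (hu : U = L * u) : L' * mob η θ u = mob H Θ U := by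
  unfold mob
  subst hu
  subst hθ
  have h1 : H * (L * u) = L' * (η * u) := by rw [← mul_assoc, hη, mul_assoc]
  have h2 : Θ * L * u = Θ * (L * u) := by ring
  rw [h1, h2]
  exact (mul_div_assoc _ _ _).symm

private theorem tr_mob_comp {η θ η' θ' u : ℂ} (h : 1 - θ * u ≠ 0) :
    mob η' θ' (mob η θ u) = mob (η' * η) (θ + η * θ') u := by
  unfold mob
  have h3 : 1 - θ' * (η * u / (1 - θ * u)) = (1 - (θ + η * θ') * u) / (1 - θ * u) := by
    rw [eq_div_iff h, sub_mul, one_mul, mul_assoc θ', div_mul_cancel₀ _ h]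
    ring
  rw [h3, div_div_eq_mul_div, mul_assoc η', div_mul_cancel₀ _ h, ← mul_assoc η']

end aux

omit [FiniteDimensional ℝ E] in
/-- Continuity of the cocycle `th` along a path inside a plaque. -/
private theorem tr_cont {S : HypSys X E} {c : CF S} (T : TH c) (hlev : LevProp T) {v : X}
    {γ : ℝ → X} (hγ : ContinuousOn γ (Set.Icc 0 1))
    (hrel : ∀ t ∈ Set.Icc (0 : ℝ) 1, S.SRel (T.ε / 2) v (γ t)) :
    ContinuousOn (fun t => T.th v (γ t)) (Set.Icc 0 1) := by
  obtain ⟨C, hC, εl, hεl, -, hl, -⟩ := hlev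
  have hTp := T.ε_pos
  have hM : (0 : ℝ) < c.M := by linarith [c.one_le_M]
  have hgeo := c.geo
  have hpair : ∀ t ∈ Set.Icc (0 : ℝ) 1, ∀ s ∈ Set.Icc (0 : ℝ) 1, S.SRel c.ε₀ (γ t) (γ s) := by
    intro t ht s hs
    have h1 := (hrel t ht).symm.trans (hrel s hs)
    rw [add_halves] at h1
    exact h1.mono T.ε_le
  rw [Metric.continuousOn_iff]
  intro t ht η hη
  -- choose the level
  have hlim : Tendsto (fun k : ℕ => c.M * (C * (1 / 16 : ℝ) ^ k)) atTop (𝓝 0) := by
    have h1 : Tendsto (fun k : ℕ => (1 / 16 : ℝ) ^ k) atTop (𝓝 0) :=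
      tendsto_pow_atTop_nhds_zero_of_lt_one (by norm_num) (by norm_num)
    have := (h1.const_mul C).const_mul c.M
    simpa using this
  obtain ⟨k, hk⟩ := ((tendsto_order.mp hlim).2 η hη).exists
  obtain ⟨δ, hδ, hlev⟩ := SRel_level hgeo k εl hεl
  obtain ⟨r, hr, hcont⟩ := (Metric.continuousOn_iff.mp hγ) t ht δ hδ
  refine ⟨r, hr, fun s hs hst => ?_⟩
  have h1 := hcont s hs hst
  have h2 : S.SRel εl (S.g.symm^[k] (γ t)) (S.g.symm^[k] (γ s)) :=
    hlev _ _ (hpair t ht s hs) (by rw [dist_comm]; exact h1.le)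
  have h3 := hl k _ _ h2
  have hvt : S.SRel c.ε₀ v (γ t) := (hrel t ht).mono (by linarith [T.ε_le])
  have h4 := T.th_comp v (γ t) (γ s) (hgeo.sasym _ _ hvt) (hgeo.sasym _ _ (hpair t ht s hs))
  rw [dist_eq_norm, h4, add_sub_cancel_left, norm_mul]
  have h5 := c.eta_le _ _ hvt
  have h6 : ‖T.th (γ t) (γ s)‖ ≤ C * (1 / 16 : ℝ) ^ k :=
    h3.trans (mul_le_mul_of_nonneg_left (tr_cw_le c k _) hC.le)
  calc _ ≤ c.M * (C * (1 / 16 : ℝ) ^ k) := mul_le_mul h5 h6 (norm_nonneg _) hM.le
    _ < η := hk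

/-- K11 -/
theorem track {S : HypSys X E} {c : CF S} (T : TH c) {R : Set X} (hR : MinR S R)
    (hlev : LevProp T) (hm : MobProp' T R) : TrackProp T R := by
  have hTp := T.ε_pos
  have hM : (0 : ℝ) < c.M := by linarith [c.one_le_M]
  have hgeo := c.geo
  refine ⟨T.ε / 2, by positivity, by linarith, ?_⟩
  intro v γ hγ hγ0 hrel x hx hvx hpole
  obtain ⟨εm, hεm, hεmT, hmob⟩ := hm
  obtain ⟨ε2, hε2, hcor⟩ := exists_corner S εm hεm
  set ε3 := min εm ε2 with hε3
  have hε3p : 0 < ε3 := lt_min hεm hε2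
  obtain ⟨ρ, hρ, hsmall⟩ := c.small ε3 hε3p
  have hpair : ∀ t ∈ Set.Icc (0 : ℝ) 1, ∀ s ∈ Set.Icc (0 : ℝ) 1, S.SRel c.ε₀ (γ t) (γ s) := by
    intro t ht s hs
    have h1 := (hrel t ht).symm.trans (hrel s hs)
    rw [add_halves] at h1
    exact h1.mono T.ε_le
  have hvt : ∀ t ∈ Set.Icc (0 : ℝ) 1, S.SRel c.ε₀ v (γ t) := fun t ht =>
    (hrel t ht).mono (by linarith [T.ε_le])
  set a := c.lc v x with ha
  -- lower bound of the denominator
  have hfc : ContinuousOn (fun t => ‖1 - T.th v (γ t) * a‖) (Set.Icc 0 1) :=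
    (continuousOn_const.sub ((tr_cont T hlev hγ hrel).mul continuousOn_const)).norm
  obtain ⟨t0, ht0, hmin⟩ := isCompact_Icc.exists_isMinOn
    (Set.nonempty_Icc.mpr (zero_le_one (α := ℝ))) hfc
  set c₀ := ‖1 - T.th v (γ t0) * a‖ with hc₀
  have hc₀p : 0 < c₀ := by
    rw [hc₀, norm_pos_iff]
    intro h
    exact hpole t0 ht0 (sub_eq_zero.mp h).symm
  have hden : ∀ t ∈ Set.Icc (0 : ℝ) 1, c₀ ≤ ‖1 - T.th v (γ t) * a‖ := fun t ht => hmin ht
  have hmobB : ∀ t ∈ Set.Icc (0 : ℝ) 1,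
      ‖mob (c.eta v (γ t)) (T.th v (γ t)) a‖ ≤ c.M * ‖a‖ / c₀ := by
    intro t ht
    unfold mob
    rw [norm_div, norm_mul]
    have h1 := c.eta_le _ _ (hvt t ht)
    exact div_le_div₀ (by positivity) (mul_le_mul_of_nonneg_right h1 (norm_nonneg _)) hc₀p
      (hden t ht)
  set B := c.M * ‖a‖ / c₀ with hB
  have hB0 : 0 ≤ B := by positivity
  -- level
  obtain ⟨n, hn⟩ : ∃ n : ℕ, B * (1 / 16 : ℝ) ^ n ≤ ρ := by
    have h1 : Tendsto (fun k : ℕ => B * (1 / 16 : ℝ) ^ k) atTop (𝓝 (B * 0)) :=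
      (tendsto_pow_atTop_nhds_zero_of_lt_one (by norm_num) (by norm_num)).const_mul B
    rw [mul_zero] at h1
    obtain ⟨n, hn⟩ := ((tendsto_order.mp h1).2 ρ hρ).exists
    exact ⟨n, hn.le⟩
  obtain ⟨δ, hδ, hlevel⟩ := SRel_level hgeo n ε3 hε3p
  -- uniform continuity
  have huc : UniformContinuousOn γ (Set.Icc 0 1) := isCompact_Icc.uniformContinuousOn_of_continuous hγ
  obtain ⟨r, hr, huc⟩ := Metric.uniformContinuousOn_iff.mp huc δ hδ
  obtain ⟨m, hm⟩ := exists_nat_gt (1 / r)
  have hm0 : (0 : ℝ) < m := lt_trans (by positivity) hm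
  have hm1 : (1 : ℝ) / m < r := by
    rw [div_lt_iff₀ hm0]
    rw [div_lt_iff₀ hr] at hm
    linarith
  have hti : ∀ i : ℕ, i ≤ m → (i : ℝ) / m ∈ Set.Icc (0 : ℝ) 1 := by
    intro i hi
    refine ⟨by positivity, ?_⟩
    rw [div_le_one hm0]
    exact_mod_cast hi
  have hstep : ∀ i : ℕ, i ≤ m → ∃ x' ∈ R, UAsym S (γ ((i : ℝ) / m)) x' ∧
      c.lc (γ ((i : ℝ) / m)) x' =
        mob (c.eta v (γ ((i : ℝ) / m))) (T.th v (γ ((i : ℝ) / m))) a := by
    intro i
    induction i with
    | zero =>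
      intro _
      rw [Nat.cast_zero, zero_div, hγ0]
      refine ⟨x, hx, hvx, ?_⟩
      unfold mob
      rw [c.eta_self, T.th_self, zero_mul, sub_zero, one_mul, div_one]
    | succ i ih =>
      intro hi
      obtain ⟨xi, hxi, hui, hli⟩ := ih (by omega)
      have ht := hti i (by omega)
      have hs := hti (i + 1) hi
      set t := (i : ℝ) / m with htdef
      set s := ((i + 1 : ℕ) : ℝ) / m with hsdef
      have hts : dist (γ t) (γ s) ≤ δ := by
        refine (huc t ht s hs ?_).le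
        rw [Real.dist_eq, htdef, hsdef, ← sub_div]
        push_cast
        rw [sub_add_cancel_left, abs_div, abs_neg, abs_one, abs_of_pos hm0]
        exact hm1
      have hww := hlevel _ _ (hpair t ht s hs) hts
      set w := S.g.symm^[n] (γ t) with hw
      set w' := S.g.symm^[n] (γ s) with hw'
      set y := S.g.symm^[n] xi with hy
      have hgw : S.g^[n] w = γ t := iter_iter_symm S n _
      have hgw' : S.g^[n] w' = γ s := iter_iter_symm S n _
      have hgy : S.g^[n] y = xi := iter_iter_symm S n _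
      have hwy : UAsym S w y := hui.symm_iter n
      have hyR : y ∈ R := by
        rw [hy]
        have : ∀ k : ℕ, S.g.symm^[k] xi ∈ R := by
          intro k
          induction k with
          | zero => exact hxi
          | succ k ih =>
            rw [Function.iterate_succ_apply']
            exact hR.map' _ ih
        exact this n
      have hlcn := tr_lc_iter c hwy n
      rw [hgw, hgy] at hlcn
      have hlcs : ‖c.lc w y‖ ≤ ρ := by
        have h1 : ‖c.lc (γ t) xi‖ ≤ B := by rw [hli]; exact hmobB t ht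
        rw [hlcn, norm_mul] at h1
        have h2 := tr_Lp_ge c n w
        have h3 : (16 : ℝ) ^ n * ‖c.lc w y‖ ≤ B :=
          (mul_le_mul_of_nonneg_right h2 (norm_nonneg _)).trans h1
        have h4 : ‖c.lc w y‖ = (1 / 16 : ℝ) ^ n * (16 ^ n * ‖c.lc w y‖) := by
          rw [← mul_assoc, ← mul_pow]; norm_num
        rw [h4]
        calc _ ≤ (1 / 16 : ℝ) ^ n * B := mul_le_mul_of_nonneg_left h3 (by positivity)
          _ = B * (1 / 16 : ℝ) ^ n := mul_comm _ _
          _ ≤ ρ := hn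
      have hury := hsmall w y hwy hlcs
      obtain ⟨y', hy'1, hy'2⟩ := hcor w w' y (hww.mono (min_le_right _ _))
        (hury.mono (min_le_right _ _))
      have hεmc : εm ≤ c.ε₀ := hεmT.trans T.ε_le
      have hmb := hmob y hyR y' w w' hy'2 (hury.symm.mono (min_le_left _ _))
        (hww.mono (min_le_left _ _)) hy'1.symm
      have hsww : SAsym S w w' := hgeo.sasym _ _ (hww.mono ((min_le_left _ _).trans hεmc))
      have hsyy : SAsym S y y' := hgeo.sasym _ _ (hy'2.mono hεmc)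
      have hy'R : y' ∈ R := hR.sat _ hyR _ hsyy
      have huw'y' : UAsym S w' y' := hgeo.uasym _ _ (hy'1.mono hεmc)
      refine ⟨S.g^[n] y', ?_, ?_, ?_⟩
      · have : ∀ k : ℕ, S.g^[k] y' ∈ R := by
          intro k
          induction k with
          | zero => exact hy'R
          | succ k ih =>
            rw [Function.iterate_succ_apply']
            exact hR.map _ ih
        exact this n
      · rw [← hgw']
        exact huw'y'.iter n
      · have h1 := tr_lc_iter c huw'y' n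
        have h2 := tr_eta_iter c hsww n
        have h3 := tr_th_iter c T hsww n
        rw [hgw, hgw'] at h2 h3
        rw [hgw', hmb, tr_mob_scale h2 h3 hlcn, hli] at h1
        rw [h1, tr_mob_comp]
        · have h4 := hgeo.sasym _ _ (hvt t ht)
          have h5 := hgeo.sasym _ _ (hpair t ht s hs)
          rw [c.eta_comp _ _ _ h4 h5, T.th_comp _ _ _ h4 h5]
        · intro h
          exact hpole t ht (sub_eq_zero.mp h).symm
  obtain ⟨x', h1, h2, h3⟩ := hstep m le_rfl
  rw [div_self hm0.ne'] at h2 h3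
  exact ⟨x', h1, h2, h3⟩

end Pool.Agent.H779R2.An
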