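import Pool.Agent.H779R2.An.CDefs
import Pool.Agent.H779R2.An.CCount

set_option autoImplicit false

namespace Pool.Agent.H779R2.An

open Pool.Agent.H721R2 Filter Topology MeasureTheory
open scoped BigOperators

variable {X E : Type*} [MetricSpace X] [CompactSpace X] [NormedAddCommGroup E]
  [InnerProductSpace ℝ E] [FiniteDimensional ℝ E]

private theorem trans_mob_lower {η θ u : ℂ} {M : ℝ} (hM : 1 ≤ M) (hη : 1 ≤ M * ‖η‖)
    (hθ : ‖θ * u‖ ≤ 1 / 2) : 2 * ‖u‖ ≤ 3 * M * ‖mob η θ u‖ := by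
  unfold mob
  rw [norm_div, norm_mul]
  have h1 : ‖1 - θ * u‖ ≤ 3 / 2 := by
    have := norm_sub_le (1 : ℂ) (θ * u)
    rw [norm_one] at this
    linarith
  have h2 : 1 / 2 ≤ ‖1 - θ * u‖ := by
    have := norm_sub_norm_le (1 : ℂ) (θ * u)
    rw [norm_one] at this
    linarith
  have h3 : 0 < ‖1 - θ * u‖ := by linarith
  rw [mul_div_assoc', le_div_iff₀ h3]
  have h4 : 2 * ‖u‖ * ‖1 - θ * u‖ ≤ 2 * ‖u‖ * (3 / 2) :=
    mul_le_mul_of_nonneg_left h1 (by positivity)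
  have h5 : ‖u‖ * 1 ≤ ‖u‖ * (M * ‖η‖) := mul_le_mul_of_nonneg_left hη (norm_nonneg _)
  calc _ ≤ 2 * ‖u‖ * (3 / 2) := h4
    _ = 3 * (‖u‖ * 1) := by ring
    _ ≤ 3 * (‖u‖ * (M * ‖η‖)) := by linarith
    _ = _ := by ring

/-- K17 -/
theorem trans_prop {S : HypSys X E} {c : CF S} (T : TH c) {R : Set X} (hR : MinR S R) :
    TransProp c R := by
  obtain ⟨ε₁, hε₁, hlp⟩ := S.local_product
  have hK := S.one_le_K
  have hM := c.one_le_M
  have hC := T.C_pos
  have hTε := T.ε_pos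
  have hTε₀ := T.ε_le
  set K := S.K with hKdef
  set M := c.M with hMdef
  set C₀ := T.C with hC₀
  have hM0 : 0 < M := by linarith
  have hK0 : 0 < K := by linarith
  set e3 : ℝ := min (T.ε / 2) (1 / (6 * M ^ 2 * (C₀ + 1))) with he3
  have he30 : 0 < e3 := lt_min (by positivity) (by positivity)
  have he31 : e3 ≤ T.ε / 2 := min_le_left _ _
  have he32 : 2 * M * e3 ≤ 1 / (3 * M * (C₀ + 1)) := by
    have h1 : e3 ≤ 1 / (6 * M ^ 2 * (C₀ + 1)) := min_le_right _ _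
    calc 2 * M * e3 ≤ 2 * M * (1 / (6 * M ^ 2 * (C₀ + 1))) :=
          mul_le_mul_of_nonneg_left h1 (by positivity)
      _ = _ := by field_simp; norm_num
  have hsmallC : ∀ t : ℝ, 0 ≤ t → t ≤ 2 * M * e3 → C₀ * t ^ 3 ≤ t / (3 * M) := by
    intro t ht0 ht
    have h1 : t ≤ 1 / (3 * M * (C₀ + 1)) := ht.trans he32
    have h2 : 1 / (3 * M * (C₀ + 1)) ≤ 1 := by
      rw [div_le_one (by positivity)]
      nlinarith
    have h3 : t ≤ 1 := h1.trans h2
    have h4 : C₀ * t ≤ 1 / (3 * M) := by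
      have h5 : C₀ * t ≤ (C₀ + 1) * (1 / (3 * M * (C₀ + 1))) :=
        mul_le_mul (by linarith) h1 ht0 (by positivity)
      have h6 : (C₀ + 1) * (1 / (3 * M * (C₀ + 1))) = 1 / (3 * M) := by field_simp
      linarith
    have h5 : t * t ≤ t := by nlinarith
    calc C₀ * t ^ 3 = (C₀ * t) * (t * t) := by ring
      _ ≤ (1 / (3 * M)) * t := mul_le_mul h4 h5 (by positivity) (by positivity)
      _ = _ := by ring
  obtain ⟨ρ, hρ, hsmall⟩ := c.small e3 he30
  set η : ℝ := min ε₁ (T.ε / (18 * K)) with hη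
  have hη0 : 0 < η := lt_min hε₁ (by positivity)
  have hη1 : η ≤ ε₁ := min_le_left _ _
  have hη2 : 9 * K * η ≤ T.ε / 2 := by
    have h1 : η ≤ T.ε / (18 * K) := min_le_right _ _
    calc 9 * K * η ≤ 9 * K * (T.ε / (18 * K)) := mul_le_mul_of_nonneg_left h1 (by positivity)
      _ = _ := by field_simp; norm_num
  refine ⟨η / 2, by positivity, min ρ (η / (2 * M)), lt_min hρ (by positivity), 9 * K * M ^ 3,
    ?_, ?_⟩
  · have h1 : 1 ≤ M ^ 3 := one_le_pow₀ hM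
    nlinarith
  intro x hx y hy hxy δ hδ0 hδ1 r hr n hsep
  have hδρ : δ ≤ ρ := hδ1.trans (min_le_left _ _)
  have hδη : M * δ ≤ η / 2 := by
    have h1 : δ ≤ η / (2 * M) := hδ1.trans (min_le_right _ _)
    calc M * δ ≤ M * (η / (2 * M)) := mul_le_mul_of_nonneg_left h1 hM0.le
      _ = _ := by field_simp
  obtain ⟨Z, hZn, hZ, hZs⟩ := hsep
  -- construction of the transported points
  have hcon : ∀ x' : X, ∃ y' : X, x' ∈ Z → (y' ∈ R ∧ UAsym S y y' ∧
      ‖c.lc y y'‖ ≤ 9 * K * M ^ 3 * (δ + dist x y) ∧ S.SRel T.ε x' y' ∧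
      S.URel (T.ε / 2) y y' ∧ S.URel e3 x x') := by
    intro x'
    by_cases hx' : x' ∈ Z
    · obtain ⟨hx'R, hx'U, hx'l⟩ := hZ x' hx'
      have hu : S.URel e3 x x' := hsmall x x' hx'U (hx'l.trans hδρ)
      have hu0 : S.URel c.ε₀ x x' := hu.mono (by linarith)
      have hd1 : dist x x' ≤ M * δ := (c.dist_le x x' hu0).trans
        (mul_le_mul_of_nonneg_left hx'l hM0.le)
      have hd2 : dist x' y ≤ M * δ + dist x y := by
        have := dist_triangle x' x y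
        rw [dist_comm x' x] at this
        linarith
      have hd3 : dist x' y ≤ η := by linarith
      obtain ⟨y', h1, h2⟩ := hlp x' y (hd3.trans hη1)
      have h9 : 9 * S.K * dist x' y ≤ T.ε / 2 := by
        have : 9 * S.K * dist x' y ≤ 9 * K * η :=
          mul_le_mul_of_nonneg_left hd3 (by positivity)
        linarith
      have hy'U : S.URel (T.ε / 2) y y' := (h2.mono h9).symm
      have hy'U0 : S.URel c.ε₀ y y' := hy'U.mono (by linarith)
      have hy'S : S.SRel T.ε x' y' := h1.mono (by linarith)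
      refine ⟨y', fun _ => ⟨hR.sat x' hx'R y' (c.geo.sasym x' y' (hy'S.mono hTε₀)),
        c.geo.uasym y y' hy'U0, ?_, hy'S, hy'U, hu⟩⟩
      have h3 : dist y y' ≤ 9 * K * (M * δ + dist x y) := by
        have h4 : dist y y' ≤ 9 * S.K * dist x' y := by
          have := h2.dist_le
          rwa [dist_comm] at this
        exact h4.trans (mul_le_mul_of_nonneg_left hd2 (by positivity))
      have h5 : M * δ + dist x y ≤ M * (δ + dist x y) := by
        have : dist x y ≤ M * dist x y := le_mul_of_one_le_left dist_nonneg hM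
        linarith
      calc ‖c.lc y y'‖ ≤ M * dist y y' := c.lc_le y y' hy'U0
        _ ≤ M * (9 * K * (M * δ + dist x y)) := mul_le_mul_of_nonneg_left h3 hM0.le
        _ ≤ M * (9 * K * (M * (δ + dist x y))) := by
            apply mul_le_mul_of_nonneg_left _ hM0.le
            exact mul_le_mul_of_nonneg_left h5 (by positivity)
        _ = 9 * K * M ^ 2 * (δ + dist x y) := by ring
        _ ≤ 9 * K * M ^ 3 * (δ + dist x y) := by
            apply mul_le_mul_of_nonneg_right _ (by positivity)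
            apply mul_le_mul_of_nonneg_left _ (by positivity)
            exact pow_le_pow_right₀ hM (by norm_num)
    · exact ⟨x', fun h => absurd h hx'⟩
  choose f hf using hcon
  -- separation
  have key : ∀ x₁ ∈ Z, ∀ x₂ ∈ Z, x₁ ≠ x₂ → r ≤ 3 * M ^ 3 * ‖c.lc y (f x₁) - c.lc y (f x₂)‖ := by
    intro x₁ h1 x₂ h2 hne
    obtain ⟨a1, a2, a3, a4, a5, a6⟩ := hf x₁ h1
    obtain ⟨b1, b2, b3, b4, b5, b6⟩ := hf x₂ h2
    have hU1 : UAsym S x x₁ := (hZ x₁ h1).2.1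
    have hU2 : UAsym S x x₂ := (hZ x₂ h2).2.1
    have hr0 : r ≤ ‖c.lc x x₂ - c.lc x x₁‖ := by
      have := hZs x₂ h2 x₁ h1 hne.symm
      exact this
    -- tau x x₁ lower bound
    have ht1 : 1 ≤ M * ‖c.tau x x₁‖ := by
      have e1 := c.tau_comp x x₁ x hU1 hU1.symm
      rw [c.tau_self] at e1
      have e2 : ‖c.tau x₁ x‖ ≤ M := c.tau_le x₁ x ((a6.mono (by linarith)).symm)
      calc (1 : ℝ) = ‖c.tau x₁ x * c.tau x x₁‖ := by rw [e1, norm_one]
        _ = ‖c.tau x₁ x‖ * ‖c.tau x x₁‖ := norm_mul _ _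
        _ ≤ M * ‖c.tau x x₁‖ := mul_le_mul_of_nonneg_right e2 (norm_nonneg _)
    have hl1 : r ≤ M * ‖c.lc x₁ x₂‖ := by
      rw [c.base x x₁ x₂ hU1 hU2, norm_mul]
      calc r ≤ ‖c.lc x x₂ - c.lc x x₁‖ := hr0
        _ = 1 * ‖c.lc x x₂ - c.lc x x₁‖ := (one_mul _).symm
        _ ≤ M * ‖c.tau x x₁‖ * ‖c.lc x x₂ - c.lc x x₁‖ :=
            mul_le_mul_of_nonneg_right ht1 (norm_nonneg _)
        _ = _ := by ring
    have hU12 : S.URel (e3 + e3) x₁ x₂ := a6.symm.trans b6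
    have hU12' : S.URel T.ε x₁ x₂ := hU12.mono (by linarith)
    have hUy : S.URel T.ε (f x₁) (f x₂) := (a5.symm.trans b5).mono (by linarith)
    have hcub := T.cubic x₁ (f x₁) x₂ (f x₂) a4 hU12' b4 hUy
    have hhalf := T.half x₁ (f x₁) x₂ a4 hU12'
    have hSA : SAsym S x₁ (f x₁) := c.geo.sasym _ _ (a4.mono hTε₀)
    have he1 : 1 ≤ M * ‖c.eta x₁ (f x₁)‖ := by
      have e1 := c.eta_comp x₁ (f x₁) x₁ hSA hSA.symm
      rw [c.eta_self] at e1
      have e2 : ‖c.eta (f x₁) x₁‖ ≤ M := c.eta_le _ _ ((a4.mono hTε₀).symm)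
      calc (1 : ℝ) = ‖c.eta (f x₁) x₁ * c.eta x₁ (f x₁)‖ := by rw [e1, norm_one]
        _ = ‖c.eta (f x₁) x₁‖ * ‖c.eta x₁ (f x₁)‖ := norm_mul _ _
        _ ≤ M * ‖c.eta x₁ (f x₁)‖ := mul_le_mul_of_nonneg_right e2 (norm_nonneg _)
    have hmob := trans_mob_lower hM he1 hhalf
    have hu1 : ‖c.lc x₁ x₂‖ ≤ 2 * M * e3 := by
      have e1 := c.lc_le x₁ x₂ (hU12.mono (by linarith))
      have e2 : dist x₁ x₂ ≤ e3 + e3 := hU12.dist_le
      calc _ ≤ M * dist x₁ x₂ := e1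
        _ ≤ M * (e3 + e3) := mul_le_mul_of_nonneg_left e2 hM0.le
        _ = _ := by ring
    have hc3 := hsmallC _ (norm_nonneg (c.lc x₁ x₂)) hu1
    -- lower bound for lc (f x₁) (f x₂)
    have hl2 : ‖c.lc x₁ x₂‖ ≤ 3 * M * ‖c.lc (f x₁) (f x₂)‖ := by
      set u := ‖c.lc x₁ x₂‖ with hu
      set m := mob (c.eta x₁ (f x₁)) (T.th x₁ (f x₁)) (c.lc x₁ x₂) with hm
      have e1 : ‖m‖ ≤ ‖c.lc (f x₁) (f x₂)‖ + ‖c.lc (f x₁) (f x₂) - m‖ := by
        have := norm_sub_le (c.lc (f x₁) (f x₂)) (c.lc (f x₁) (f x₂) - m)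
        rwa [sub_sub_cancel] at this
      have e2 : ‖m‖ ≤ ‖c.lc (f x₁) (f x₂)‖ + u / (3 * M) := by linarith
      have e3' : 3 * M * ‖m‖ ≤ 3 * M * (‖c.lc (f x₁) (f x₂)‖ + u / (3 * M)) :=
        mul_le_mul_of_nonneg_left e2 (by positivity)
      have e4 : 3 * M * (‖c.lc (f x₁) (f x₂)‖ + u / (3 * M)) =
          3 * M * ‖c.lc (f x₁) (f x₂)‖ + u := by field_simp
      linarith
    have ht2 : ‖c.tau y (f x₁)‖ ≤ M := c.tau_le _ _ (a5.mono (by linarith))
    have hl3 : ‖c.lc (f x₁) (f x₂)‖ ≤ M * ‖c.lc y (f x₁) - c.lc y (f x₂)‖ := by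
      rw [c.base y (f x₁) (f x₂) a2 b2, norm_mul, norm_sub_rev (c.lc y (f x₁))]
      exact mul_le_mul_of_nonneg_right ht2 (norm_nonneg _)
    calc r ≤ M * ‖c.lc x₁ x₂‖ := hl1
      _ ≤ M * (3 * M * ‖c.lc (f x₁) (f x₂)‖) := mul_le_mul_of_nonneg_left hl2 hM0.le
      _ ≤ M * (3 * M * (M * ‖c.lc y (f x₁) - c.lc y (f x₂)‖)) := by
          apply mul_le_mul_of_nonneg_left _ hM0.le
          exact mul_le_mul_of_nonneg_left hl3 (by positivity)
      _ = _ := by ring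
  have hinj : Set.InjOn f Z := by
    intro x₁ h1 x₂ h2 heq
    by_contra hne
    have := key x₁ h1 x₂ h2 hne
    rw [heq, sub_self, norm_zero, mul_zero] at this
    linarith
  classical
  refine ⟨Z.image f, ?_, ?_, ?_⟩
  · rw [Finset.card_image_of_injOn hinj, hZn]
  · intro y' hy'
    obtain ⟨x', hx', rfl⟩ := Finset.mem_image.mp hy'
    obtain ⟨a1, a2, a3, -⟩ := hf x' hx'
    exact ⟨a1, a2, a3⟩
  · intro y₁ hy₁ y₂ hy₂ hne
    obtain ⟨x₁, h1, rfl⟩ := Finset.mem_image.mp hy₁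
    obtain ⟨x₂, h2, rfl⟩ := Finset.mem_image.mp hy₂
    have hne' : x₁ ≠ x₂ := fun h => hne (by rw [h])
    have h3 := key x₁ h1 x₂ h2 hne'
    rw [div_le_iff₀ (by positivity)]
    calc r ≤ 3 * M ^ 3 * ‖c.lc y (f x₁) - c.lc y (f x₂)‖ := h3
      _ ≤ 9 * K * M ^ 3 * ‖c.lc y (f x₁) - c.lc y (f x₂)‖ := by
          apply mul_le_mul_of_nonneg_right _ (norm_nonneg _)
          apply mul_le_mul_of_nonneg_right _ (by positivity)
          linarith
      _ = _ := by ring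

end Pool.Agent.H779R2.An
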