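import Pool.Agent.H779R2.An.CDefs
import Pool.Agent.H779R2.An.CCount

set_option autoImplicit false

namespace Pool.Agent.H779R2.An

open Pool.Agent.H721R2 Filter Topology MeasureTheory
open scoped BigOperators

variable {X E : Type*} [MetricSpace X] [CompactSpace X] [NormedAddCommGroup E]
  [InnerProductSpace ℝ E] [FiniteDimensional ℝ E]

namespace K19

omit [CompactSpace X] [FiniteDimensional ℝ E] in
theorem lc_iter {S : HypSys X E} (c : CF S) {x y : X} (h : UAsym S x y) (n : ℕ) :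
    c.lc (S.g^[n] x) (S.g^[n] y) = c.Lp n x * c.lc x y := by
  induction n with
  | zero => simp [CF.Lp]
  | succ n ih =>
    rw [Function.iterate_succ_apply', Function.iterate_succ_apply', c.lc_equi _ _ (h.iter n), ih]
    simp only [CF.Lp, Finset.prod_range_succ]
    ring

omit [CompactSpace X] [FiniteDimensional ℝ E] in
theorem tau_iter {S : HypSys X E} (c : CF S) {x y : X} (h : UAsym S x y) (n : ℕ) :
    c.tau (S.g^[n] x) (S.g^[n] y) * c.Lp n x = c.Lp n y * c.tau x y := by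
  induction n with
  | zero => simp [CF.Lp]
  | succ n ih =>
    rw [Function.iterate_succ_apply', Function.iterate_succ_apply']
    have h1 := c.tau_equi _ _ (h.iter n)
    simp only [CF.Lp, Finset.prod_range_succ] at ih ⊢
    linear_combination (∏ i ∈ Finset.range n, c.lam (S.g^[i] x)) * h1 +
      c.lam (S.g^[n] y) * ih

omit [CompactSpace X] [FiniteDimensional ℝ E] in
theorem le_Lp {S : HypSys X E} (c : CF S) (n : ℕ) (x : X) : (16 : ℝ) ^ n ≤ ‖c.Lp n x‖ := by
  induction n with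
  | zero => simp [CF.Lp]
  | succ n ih =>
    have h1 : c.Lp (n + 1) x = c.Lp n x * c.lam (S.g^[n] x) := by
      simp [CF.Lp, Finset.prod_range_succ]
    rw [h1, norm_mul, pow_succ]
    exact mul_le_mul ih (c.lam_ge _) (by norm_num) (norm_nonneg _)

omit [CompactSpace X] [FiniteDimensional ℝ E] in
theorem one_le_Lp {S : HypSys X E} (c : CF S) (n : ℕ) (x : X) : 1 ≤ ‖c.Lp n x‖ :=
  (one_le_pow₀ (by norm_num : (1 : ℝ) ≤ 16)).trans (le_Lp c n x)

omit [CompactSpace X] [FiniteDimensional ℝ E] in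
/-- lower bound of `tau` on local leaves. -/
theorem le_tau {S : HypSys X E} (c : CF S) {x y : X} (h : S.URel c.ε₀ x y) :
    1 ≤ c.M * ‖c.tau x y‖ := by
  have h1 := c.tau_comp x y x (c.geo.uasym _ _ h) (c.geo.uasym _ _ h.symm)
  rw [c.tau_self] at h1
  have h2 : ‖c.tau y x‖ * ‖c.tau x y‖ = 1 := by rw [← norm_mul, h1, norm_one]
  have h3 := c.tau_le y x h.symm
  have h4 := mul_le_mul_of_nonneg_right h3 (norm_nonneg (c.tau x y))
  linarith

omit [CompactSpace X] [FiniteDimensional ℝ E] in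
/-- The local stable holonomy is Lipschitz in the linearizing coordinates. -/
theorem hol_lip {S : HypSys X E} {c : CF S} (T : TH c) : ∃ ε > 0, ε ≤ c.ε₀ ∧ ∀ z z' p p',
    S.SRel ε z z' → S.URel ε z p → S.SRel ε p p' → S.URel ε z' p' →
    ‖c.lc z' p'‖ ≤ 3 * c.M * ‖c.lc z p‖ := by
  have hM := c.one_le_M
  have hM0 : 0 < c.M := by linarith
  have hC := T.C_pos
  have hCM : 0 < c.M * (T.C + 1) := by positivity
  refine ⟨min T.ε (1 / (c.M * (T.C + 1))), lt_min T.ε_pos (by positivity),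
    (min_le_left _ _).trans T.ε_le, ?_⟩
  intro z z' p p' h1 h2 h3 h4
  have e1 : min T.ε (1 / (c.M * (T.C + 1))) ≤ T.ε := min_le_left _ _
  have h1' := h1.mono e1
  have h2' := h2.mono e1
  have h3' := h3.mono e1
  have h4' := h4.mono e1
  have hcub := T.cubic z z' p p' h1' h2' h3' h4'
  have hhalf := T.half z z' p h1' h2'
  have heta := c.eta_le z z' (h1'.mono T.ε_le)
  set u := c.lc z p with hu
  have hu1 : ‖u‖ ≤ 1 / (T.C + 1) := by
    have h5 := c.lc_le z p (h2'.mono T.ε_le)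
    have h6 : dist z p ≤ 1 / (c.M * (T.C + 1)) := h2.dist_le.trans (min_le_right _ _)
    calc ‖u‖ ≤ c.M * dist z p := h5
      _ ≤ c.M * (1 / (c.M * (T.C + 1))) := mul_le_mul_of_nonneg_left h6 hM0.le
      _ = 1 / (T.C + 1) := by field_simp
  have hu0 := norm_nonneg u
  have hu2 : T.C * ‖u‖ ^ 3 ≤ c.M * ‖u‖ := by
    have h7 : T.C * ‖u‖ ≤ 1 := by
      rw [le_div_iff₀ (by linarith)] at hu1
      nlinarith
    have h8 : ‖u‖ ≤ 1 := by
      refine hu1.trans ?_
      rw [div_le_one (by linarith)]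
      linarith
    have h9 : T.C * ‖u‖ * ‖u‖ ≤ 1 * 1 := mul_le_mul h7 h8 hu0 (by norm_num)
    calc T.C * ‖u‖ ^ 3 = T.C * ‖u‖ * ‖u‖ * ‖u‖ := by ring
      _ ≤ (1 * 1) * ‖u‖ := mul_le_mul_of_nonneg_right h9 hu0
      _ ≤ c.M * ‖u‖ := by nlinarith
  have hmob : ‖mob (c.eta z z') (T.th z z') u‖ ≤ 2 * c.M * ‖u‖ := by
    have h10 : 1 / 2 ≤ ‖1 - T.th z z' * u‖ := by
      have := norm_sub_norm_le (1 : ℂ) (T.th z z' * u)
      rw [norm_one] at this
      linarith
    unfold mob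
    rw [norm_div, norm_mul, div_le_iff₀ (by linarith)]
    have h11 : ‖c.eta z z'‖ * ‖u‖ ≤ c.M * ‖u‖ := mul_le_mul_of_nonneg_right heta hu0
    have h12 : 0 ≤ c.M * ‖u‖ := by positivity
    nlinarith
  have h13 : ‖c.lc z' p'‖ ≤ ‖c.lc z' p' - mob (c.eta z z') (T.th z z') u‖ +
      ‖mob (c.eta z z') (T.th z z') u‖ := by
    have := norm_add_le (c.lc z' p' - mob (c.eta z z') (T.th z z') u)
      (mob (c.eta z z') (T.th z z') u)
    rwa [sub_add_cancel] at this
  linarith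

omit [NormedAddCommGroup E] [InnerProductSpace ℝ E] [FiniteDimensional ℝ E] in
theorem finite_net (δ : ℝ) (hδ : 0 < δ) : ∃ t : Finset X, ∀ x : X, ∃ y ∈ t, dist x y < δ := by
  obtain ⟨t, -, ht, hcov⟩ := finite_cover_balls_of_compact
    (isCompact_univ : IsCompact (Set.univ : Set X)) hδ
  refine ⟨ht.toFinset, fun x => ?_⟩
  have h1 := hcov (Set.mem_univ x)
  simp only [Set.mem_iUnion, Metric.mem_ball, exists_prop] at h1
  obtain ⟨y, hy, hxy⟩ := h1
  exact ⟨y, by simpa using hy, hxy⟩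

omit [NormedAddCommGroup E] [InnerProductSpace ℝ E] [FiniteDimensional ℝ E] in
theorem sep_card_le (δ : ℝ) (hδ : 0 < δ) : ∃ Q : ℕ, ∀ A : Finset X,
    (∀ x ∈ A, ∀ y ∈ A, x ≠ y → δ ≤ dist x y) → A.card ≤ Q := by
  obtain ⟨t, ht⟩ := finite_net (X := X) (δ / 2) (half_pos hδ)
  choose f hf hfd using ht
  refine ⟨t.card, fun A hA => ?_⟩
  refine Finset.card_le_card_of_injOn f (fun x _ => by simpa using hf x) ?_
  intro x hx y hy hxy
  by_contra hne
  have h1 := hA x hx y hy hne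
  have h2 := hfd x
  have h3 := hfd y
  have h4 : f x = f y := hxy
  rw [h4] at h2
  linarith [dist_triangle_right x y (f y)]

omit [FiniteDimensional ℝ E] in
theorem unif_back (S : HypSys X E) (J : ℕ) (κ : ℝ) (hκ : 0 < κ) : ∃ δ > 0, ∀ x y : X,
    dist x y < δ → ∀ j < J, dist (S.g.symm^[j] x) (S.g.symm^[j] y) ≤ κ := by
  induction J with
  | zero => exact ⟨1, one_pos, fun x y _ j hj => by omega⟩
  | succ J ih =>
    obtain ⟨δ, hδ, h1⟩ := ih
    have := CompactSpace.uniformContinuous_of_continuous (S.g.symm.continuous.iterate J)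
    obtain ⟨δ', hδ', h2⟩ := Metric.uniformContinuous_iff.mp this κ hκ
    refine ⟨min δ δ', lt_min hδ hδ', fun x y hxy j hj => ?_⟩
    rcases Nat.lt_or_ge j J with h3 | h3
    · exact h1 x y (lt_of_lt_of_le hxy (min_le_left _ _)) j h3
    · have : j = J := by omega
      subst this
      exact (h2 (lt_of_lt_of_le hxy (min_le_right _ _))).le

theorem sep_count {ι : Type*} (P : Finset ι) (φ : ι → ℂ) (r' : ℝ) (hr' : 0 < r') (Q : ℕ)
    (h : ∀ i₀ ∈ P, (P.filter (fun i => ‖φ i - φ i₀‖ < r')).card ≤ Q) :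
    ∃ N ⊆ P, (∀ i ∈ N, ∀ i' ∈ N, i ≠ i' → r' ≤ ‖φ i - φ i'‖) ∧ P.card ≤ Q * N.card := by
  classical
  obtain ⟨sep, hsep⟩ : ∃ sep : Finset ι → Prop, ∀ N, sep N ↔
      (∀ i ∈ N, ∀ i' ∈ N, i ≠ i' → r' ≤ ‖φ i - φ i'‖) := ⟨_, fun _ => Iff.rfl⟩
  set F := P.powerset.filter sep with hF
  have hne : F.Nonempty := ⟨∅, by simp [hF, hsep]⟩
  obtain ⟨N, hN, hmax⟩ := Finset.exists_max_image F Finset.card hne
  obtain ⟨hNP', hNsep'⟩ := Finset.mem_filter.mp hN
  have hNP := Finset.mem_powerset.mp hNP'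
  have hNsep := (hsep N).mp hNsep'
  refine ⟨N, hNP, hNsep, ?_⟩
  have hcov : P ⊆ N.biUnion (fun i₀ => P.filter (fun i => ‖φ i - φ i₀‖ < r')) := by
    intro i hi
    rw [Finset.mem_biUnion]
    by_cases hiN : i ∈ N
    · exact ⟨i, hiN, by simp [hi, hr']⟩
    · by_contra hcon
      push Not at hcon
      have h1 : insert i N ∈ F := by
        refine Finset.mem_filter.mpr ⟨Finset.mem_powerset.mpr (Finset.insert_subset hi hNP),
          (hsep _).mpr ?_⟩
        intro a ha a' ha' hne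
        rw [Finset.mem_insert] at ha ha'
        have h2 : ∀ a' ∈ N, r' ≤ ‖φ i - φ a'‖ := by
          intro a' ha'
          have := hcon a' ha'
          rw [Finset.mem_filter, not_and] at this
          have := this hi
          linarith [not_lt.mp this]
        rcases ha with rfl | ha
        · rcases ha' with rfl | ha'
          · exact absurd rfl hne
          · exact h2 a' ha'
        · rcases ha' with rfl | ha'
          · rw [norm_sub_rev]
            exact h2 a ha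
          · exact hNsep a ha a' ha' hne
      have h3 := hmax _ h1
      rw [Finset.card_insert_of_notMem hiN] at h3
      omega
  calc P.card ≤ _ := Finset.card_le_card hcov
    _ ≤ N.card * Q := Finset.card_biUnion_le_card_mul _ _ _ (fun i hi => h i (hNP hi))
    _ = Q * N.card := mul_comm _ _

omit [CompactSpace X] [FiniteDimensional ℝ E] in
theorem class_bound {S : HypSys X E} {c : CF S} {R : Set X}
    (hB1 : ∀ r, 0 < r → BddAbove {n | ∃ z ∈ R, SepN c R z 1 r n})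
    (Y : Finset X) (Z : X → Finset X) (b : X) (hb : b ∈ R) (ph : X → X) (r' : ℝ) (hr' : 0 < r')
    (h1 : ∀ y ∈ Y, ∀ p ∈ Z y, ph p ∈ R ∧ UAsym S b (ph p) ∧ ‖c.lc b (ph p)‖ ≤ 1)
    (Q : ℕ) (δ : ℝ)
    (hQ : ∀ A : Finset X, (∀ x ∈ A, ∀ y ∈ A, x ≠ y → δ ≤ dist x y) → A.card ≤ Q)
    (h2 : ∀ y ∈ Y, ∀ p ∈ Z y, ∀ p' ∈ Z y, p ≠ p' →
      2 * r' ≤ ‖c.lc b (ph p) - c.lc b (ph p')‖)
    (h3 : ∀ y ∈ Y, ∀ y' ∈ Y, y ≠ y' → ∀ p ∈ Z y, ∀ p' ∈ Z y',
      ‖c.lc b (ph p) - c.lc b (ph p')‖ < 2 * r' → δ ≤ dist y y') :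
    ∑ y ∈ Y, (Z y).card ≤ Q * Sf c R r' := by
  classical
  set P : Finset (Σ _ : X, X) := Y.sigma Z with hP
  set φ : (Σ _ : X, X) → ℂ := fun i => c.lc b (ph i.2) with hφ
  have hclose : ∀ i₀ i i' : (Σ _ : X, X), ‖φ i - φ i₀‖ < r' → ‖φ i' - φ i₀‖ < r' →
      ‖φ i - φ i'‖ < 2 * r' := by
    intro i₀ i i' ha hb'
    have h4 : φ i - φ i' = (φ i - φ i₀) - (φ i' - φ i₀) := by ring
    rw [h4]
    linarith [norm_sub_le (φ i - φ i₀) (φ i' - φ i₀)]
  have hcl : ∀ i₀ ∈ P, (P.filter (fun i => ‖φ i - φ i₀‖ < r')).card ≤ Q := by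
    intro i₀ _
    set F := P.filter (fun i => ‖φ i - φ i₀‖ < r') with hF
    have hmem : ∀ i ∈ F, i.1 ∈ Y ∧ i.2 ∈ Z i.1 ∧ ‖φ i - φ i₀‖ < r' := by
      intro i hi
      rw [hF, Finset.mem_filter, hP, Finset.mem_sigma] at hi
      exact ⟨hi.1.1, hi.1.2, hi.2⟩
    have hinj : Set.InjOn (fun i : (Σ _ : X, X) => i.1) (F : Set (Σ _ : X, X)) := by
      intro i hi i' hi' hii
      obtain ⟨ha1, ha2, ha3⟩ := hmem i hi
      obtain ⟨hb1, hb2, hb3⟩ := hmem i' hi'
      have hii' : i.1 = i'.1 := hii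
      have hlt := hclose i₀ i i' ha3 hb3
      by_contra hne
      have hne2 : i.2 ≠ i'.2 := by
        intro h5
        apply hne
        rcases i with ⟨i1, i2⟩
        rcases i' with ⟨j1, j2⟩
        simp only at hii' h5
        subst hii' h5
        rfl
      have h6 := h2 i.1 ha1 i.2 ha2 i'.2 (hii' ▸ hb2) hne2
      have h7 : ‖φ i - φ i'‖ = ‖c.lc b (ph i.2) - c.lc b (ph i'.2)‖ := rfl
      linarith
    have h8 : F.card = (F.image (fun i : (Σ _ : X, X) => i.1)).card :=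
      (Finset.card_image_of_injOn hinj).symm
    rw [h8]
    apply hQ
    intro x hx y hy hxy
    rw [Finset.mem_image] at hx hy
    obtain ⟨i, hi, rfl⟩ := hx
    obtain ⟨i', hi', rfl⟩ := hy
    obtain ⟨ha1, ha2, ha3⟩ := hmem i hi
    obtain ⟨hb1, hb2, hb3⟩ := hmem i' hi'
    exact h3 i.1 ha1 i'.1 hb1 hxy i.2 ha2 i'.2 hb2 (hclose i₀ i i' ha3 hb3)
  obtain ⟨N, hNP, hNsep, hNcard⟩ := sep_count P φ r' hr' Q hcl
  have hsum : ∑ y ∈ Y, (Z y).card = P.card := (Finset.card_sigma _ _).symm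
  rw [hsum]
  refine hNcard.trans (Nat.mul_le_mul_left _ ?_)
  -- `N` gives a separated set
  have hinj : Set.InjOn (fun i : (Σ _ : X, X) => ph i.2) (N : Set (Σ _ : X, X)) := by
    intro i hi i' hi' hii
    by_contra hne
    have h5 := hNsep i hi i' hi' hne
    have h6 : φ i = φ i' := by
      simp only [hφ]
      have : ph i.2 = ph i'.2 := hii
      rw [this]
    rw [h6, sub_self, norm_zero] at h5
    linarith
  have hsep : SepN c R b 1 r' N.card := by
    refine ⟨N.image (fun i : (Σ _ : X, X) => ph i.2), Finset.card_image_of_injOn hinj, ?_, ?_⟩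
    · intro x hx
      rw [Finset.mem_image] at hx
      obtain ⟨i, hi, rfl⟩ := hx
      have hiP := hNP hi
      rw [hP, Finset.mem_sigma] at hiP
      exact h1 i.1 hiP.1 i.2 hiP.2
    · intro x hx x' hx' hne
      rw [Finset.mem_image] at hx hx'
      obtain ⟨i, hi, rfl⟩ := hx
      obtain ⟨i', hi', rfl⟩ := hx'
      have hne' : i ≠ i' := by
        intro h5
        apply hne
        rw [h5]
      exact hNsep i hi i' hi' hne'
  exact le_csSup (hB1 r' hr') ⟨b, hb, hsep⟩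

omit [CompactSpace X] [FiniteDimensional ℝ E] in
theorem ratio {S : HypSys X E} (c : CF S) {A Cτ : ℝ} (hC1 : 1 ≤ Cτ)
    (hC : ∀ x y, UAsym S x y → ‖c.lc x y‖ ≤ A → ‖c.tau x y‖ ≤ Cτ ∧ 1 ≤ Cτ * ‖c.tau x y‖)
    (k : ℕ) {y x : X} (h : UAsym S y x) (hA : ‖c.lc y x‖ ≤ A) :
    c.cw k y ≤ Cτ ^ 2 * c.cw k x ∧ c.cw k x ≤ Cτ ^ 2 * c.cw k y := by
  set w := S.g.symm^[k] y with hw
  set z := S.g.symm^[k] x with hz
  have hwz : UAsym S w z := h.symm_iter k
  have h1 := tau_iter c hwz k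
  have h2 := lc_iter c hwz k
  rw [hw, hz, iter_iter_symm, iter_iter_symm, ← hw, ← hz] at h1 h2
  have hLw := one_le_Lp c k w
  have hLz := one_le_Lp c k z
  have h3 : ‖c.lc w z‖ ≤ A := by
    rw [h2, norm_mul] at hA
    have := norm_nonneg (c.lc w z)
    nlinarith
  obtain ⟨t1, t2⟩ := hC y x h hA
  obtain ⟨t3, t4⟩ := hC w z hwz h3
  have h4 : ‖c.tau y x‖ * ‖c.Lp k w‖ = ‖c.Lp k z‖ * ‖c.tau w z‖ := by
    rw [← norm_mul, ← norm_mul, h1]
  have hCτ0 : 0 < Cτ := by linarith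
  have hw0 : 0 < ‖c.Lp k w‖ := by linarith
  have hz0 : 0 < ‖c.Lp k z‖ := by linarith
  unfold CF.cw
  rw [← hw, ← hz]
  set a := ‖c.Lp k w‖
  set b := ‖c.Lp k z‖
  set p := ‖c.tau y x‖
  set q := ‖c.tau w z‖
  -- `p a = b q`, `p ≤ C`, `1 ≤ C p`, `q ≤ C`, `1 ≤ C q`
  constructor
  · -- `1/a ≤ C² / b`, i.e. `b ≤ C² a`
    rw [← div_eq_mul_inv, inv_eq_one_div, div_le_div_iff₀ hw0 hz0]
    have e1 : b ≤ Cτ * q * b := by nlinarith
    have e2 : Cτ * q * b = Cτ * (p * a) := by rw [h4]; ring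
    have e3 : p * a ≤ Cτ * a := mul_le_mul_of_nonneg_right t1 hw0.le
    have e4 : Cτ * (p * a) ≤ Cτ * (Cτ * a) := mul_le_mul_of_nonneg_left e3 hCτ0.le
    calc 1 * b = b := one_mul b
      _ ≤ Cτ * q * b := e1
      _ = Cτ * (p * a) := e2
      _ ≤ Cτ * (Cτ * a) := e4
      _ = Cτ ^ 2 * a := by ring
  · rw [← div_eq_mul_inv, inv_eq_one_div, div_le_div_iff₀ hz0 hw0]
    have e1 : a ≤ Cτ * p * a := by nlinarith
    have e2 : Cτ * p * a = Cτ * (b * q) := by rw [← h4]; ring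
    have e3 : b * q ≤ b * Cτ := mul_le_mul_of_nonneg_left t3 hz0.le
    have e4 : Cτ * (b * q) ≤ Cτ * (b * Cτ) := mul_le_mul_of_nonneg_left e3 hCτ0.le
    calc 1 * a = a := one_mul a
      _ ≤ Cτ * p * a := e1
      _ = Cτ * (b * q) := e2
      _ ≤ Cτ * (b * Cτ) := e4
      _ = Cτ ^ 2 * b := by ring

end K19

/-- K19 -/
theorem up_bound {S : HypSys X E} {c : CF S} (T : TH c) {R : Set X} (hR : MinR S R)
    (hB : UpperB c R) (hA : LowerA c R) : UpBound c R := by
  classical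
  refine ⟨1, one_pos, fun κ hκ _ A₀ => ?_⟩
  have hM := c.one_le_M
  have hM0 : 0 < c.M := by linarith
  set A := max A₀ 0 with hAdef
  obtain ⟨Cτ, hCτ1, hCτ⟩ := tau_bound c A
  have hCτ0 : 0 < Cτ := by linarith
  obtain ⟨εH, hεH, hεHle, hHL⟩ := K19.hol_lip T
  set ε5 := min εH (κ / 8) / 2 with hε5
  have hε5pos : 0 < ε5 := by positivity
  have h5H : 2 * ε5 ≤ εH := by
    have := min_le_left εH (κ / 8)
    rw [hε5]; linarith
  have h5κ : 2 * ε5 ≤ κ / 8 := by
    have := min_le_right εH (κ / 8)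
    rw [hε5]; linarith
  obtain ⟨εK, hεK, hCor⟩ := exists_corner S ε5 hε5pos
  set ε6 := min (min ε5 (εK / 2)) (1 / c.M) with hε6
  have hε6pos : 0 < ε6 := by positivity
  have h65 : ε6 ≤ ε5 := (min_le_left _ _).trans (min_le_left _ _)
  have h6K : 2 * ε6 ≤ εK := by
    have : ε6 ≤ εK / 2 := (min_le_left _ _).trans (min_le_right _ _)
    linarith
  have h6M : c.M * ε6 ≤ 1 := by
    have : ε6 ≤ 1 / c.M := min_le_right _ _
    rw [le_div_iff₀ hM0] at this
    linarith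
  have h6H : ε6 ≤ εH := by linarith
  have h6H2 : 2 * ε6 ≤ εH := by linarith
  obtain ⟨εB, hεB, hBr⟩ := exists_bracket S ε6 hε6pos
  set ε7 := min (min (εB / 2) (εH / 2)) (κ / 8) with hε7
  have hε7pos : 0 < ε7 := by positivity
  have h7B : ε7 ≤ εB / 2 := (min_le_left _ _).trans (min_le_left _ _)
  have h7H : ε7 ≤ εH / 2 := (min_le_left _ _).trans (min_le_right _ _)
  have h7κ : ε7 ≤ κ / 8 := min_le_right _ _
  obtain ⟨ρ7, hρ7, hsm⟩ := c.small ε7 hε7pos
  set c' := ρ7 / 2 with hc'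
  have hc'pos : 0 < c' := by positivity
  obtain ⟨CA, hCA, hLow⟩ := hA c' hc'pos
  obtain ⟨jA, hjA⟩ : ∃ j : ℕ, A ≤ ρ7 * 16 ^ j := by
    obtain ⟨j, hj⟩ := pow_unbounded_of_one_lt (A / ρ7) (by norm_num : (1 : ℝ) < 16)
    refine ⟨j, ?_⟩
    rw [div_lt_iff₀ hρ7] at hj
    linarith
  obtain ⟨δQ, hδQ, hUB⟩ := K19.unif_back S jA κ hκ
  obtain ⟨Q, hQ⟩ := K19.sep_card_le (X := X) δQ hδQ
  obtain ⟨t, ht⟩ := K19.finite_net (X := X) (εB / 4) (by positivity)
  set a := min c' (1 / 2) / (6 * c.M ^ 3 * Cτ ^ 2) with hadef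
  have hD1 : 1 ≤ 6 * c.M ^ 3 * Cτ ^ 2 := by
    have e1 : 1 ≤ c.M ^ 3 := one_le_pow₀ hM
    have e2 : 1 ≤ Cτ ^ 2 := one_le_pow₀ hCτ1
    nlinarith
  have hD0 : 0 < 6 * c.M ^ 3 * Cτ ^ 2 := by linarith
  have hapos : 0 < a := by positivity
  have haD : a * (6 * c.M ^ 3 * Cτ ^ 2) = min c' (1 / 2) := by
    rw [hadef]; field_simp
  have haD1 : a * (6 * c.M ^ 3 * Cτ ^ 2) ≤ c' := haD ▸ min_le_left _ _
  have haD2 : a * (6 * c.M ^ 3 * Cτ ^ 2) ≤ 1 / 2 := haD ▸ min_le_right _ _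
  have ha1 : a ≤ 1 := by nlinarith
  obtain ⟨CB, hCB, hSf⟩ := hB.2.1 a hapos ha1
  refine ⟨CA * (t.card * Q * CB) + 1, by positivity, ?_⟩
  intro k Y r hr hY hYrel hYsep hYr
  -- choose the data
  have H : ∀ y ∈ Y, ∃ (x : X) (n : ℕ) (Z : Finset X), x ∈ R ∧ UAsym S y x ∧ ‖c.lc y x‖ ≤ A ∧
      Z.card = n ∧ (Sf c R (r / c.cw k y) : ℝ) ≤ CA * n ∧
      (∀ p ∈ Z, p ∈ R ∧ UAsym S (S.g.symm^[k] x) p ∧
        ‖c.lc (S.g.symm^[k] x) p‖ ≤ c' * c.cw k x) ∧
      (∀ p ∈ Z, ∀ p' ∈ Z, p ≠ p' →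
        r / Cτ ^ 2 ≤ ‖c.lc (S.g.symm^[k] x) p - c.lc (S.g.symm^[k] x) p'‖) := by
    intro y hy
    obtain ⟨x, hxR, hyx, hlc⟩ := hY y hy
    have hlcA : ‖c.lc y x‖ ≤ A := hlc.trans (le_max_left _ _)
    have hcw0 : 0 < c.cw k y := lt_of_lt_of_le hr (hYr y hy)
    have hr1 : r / c.cw k y ≤ 1 := (div_le_one hcw0).mpr (hYr y hy)
    obtain ⟨n, hn, hSfn⟩ := hLow x hxR (r / c.cw k y) (by positivity) hr1
    set z := S.g.symm^[k] x with hz
    have hLz : 0 < ‖c.Lp k z‖ := by linarith [K19.one_le_Lp c k z]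
    have hcwx : c.cw k x = ‖c.Lp k z‖⁻¹ := rfl
    have hn' : SepN c R (S.g^[k] z) (‖c.Lp k z‖ * (c' * c.cw k x))
        (‖c.Lp k z‖ * (r / c.cw k y * c.cw k x)) n := by
      have e1 : ‖c.Lp k z‖ * (c' * c.cw k x) = c' := by rw [hcwx]; field_simp
      have e2 : ‖c.Lp k z‖ * (r / c.cw k y * c.cw k x) = r / c.cw k y := by
        rw [hcwx]; field_simp
      rw [e1, e2, hz, iter_iter_symm]
      exact hn
    rw [sepN_map c hR] at hn'
    obtain ⟨Z, hZc, hZ1, hZ2⟩ := hn'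
    refine ⟨x, n, Z, hxR, hyx, hlcA, hZc, hSfn, hZ1, fun p hp p' hp' hne => ?_⟩
    refine le_trans ?_ (hZ2 p hp p' hp' hne)
    have h1 := (K19.ratio c hCτ1 hCτ k hyx hlcA).1
    rw [div_mul_eq_mul_div, div_le_div_iff₀ (by positivity) hcw0]
    calc r * c.cw k y ≤ r * (Cτ ^ 2 * c.cw k x) := mul_le_mul_of_nonneg_left h1 hr.le
      _ = r * c.cw k x * Cτ ^ 2 := by ring
  choose! xf nf Zf hxR hyx hlcA hZc hSfn hZ1 hZ2 using H
  have hcw1 : ∀ x, c.cw k x ≤ 1 := fun x => inv_le_one_of_one_le₀ (K19.one_le_Lp c k _)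
  have hcw0 : ∀ x, 0 < c.cw k x := fun x =>
    inv_pos.mpr (by linarith [K19.one_le_Lp c k (S.g.symm^[k] x)])
  have hback : ∀ n : ℕ, ∀ x ∈ R, S.g.symm^[n] x ∈ R := by
    intro n
    induction n with
    | zero => exact fun x hx => hx
    | succ n ih =>
      intro x hx
      rw [Function.iterate_succ_apply']
      exact hR.map' _ (ih x hx)
  have hUz : ∀ y ∈ Y, ∀ p ∈ Zf y, S.URel ε7 (S.g.symm^[k] (xf y)) p := by
    intro y hy p hp
    obtain ⟨-, h2, h3⟩ := hZ1 y hy p hp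
    refine hsm _ _ h2 (h3.trans ?_)
    have := hcw1 (xf y)
    have := hcw0 (xf y)
    nlinarith
  choose netf hnt hnd using ht
  -- the bound for one class
  have hclass : ∀ s ∈ t, ∑ y ∈ Y.filter (fun y => netf (S.g.symm^[k] (xf y)) = s),
      (Zf y).card ≤ Q * Sf c R (a * r) := by
    intro s _
    set Y' := Y.filter (fun y => netf (S.g.symm^[k] (xf y)) = s) with hY'
    rcases Y'.eq_empty_or_nonempty with he | ⟨y₀, hy₀⟩
    · rw [he]; simp
    have hY'Y : ∀ y ∈ Y', y ∈ Y ∧ netf (S.g.symm^[k] (xf y)) = s := fun y hy =>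
      Finset.mem_filter.mp hy
    set b := S.g.symm^[k] (xf y₀) with hb
    have hbR : b ∈ R := hback k _ (hxR y₀ (hY'Y y₀ hy₀).1)
    have hbs : dist b s < εB / 4 := by
      have := hnd b
      rwa [(hY'Y y₀ hy₀).2] at this
    have hph : ∀ p : X, ∃ w, dist p b ≤ εB → S.SRel ε6 p w ∧ S.URel ε6 w b := by
      intro p
      by_cases h : dist p b ≤ εB
      · obtain ⟨w, hw1, hw2⟩ := hBr p b h
        exact ⟨w, fun _ => ⟨hw1, hw2⟩⟩
      · exact ⟨p, fun h' => absurd h' h⟩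
    choose ph hph using hph
    have hpp : ∀ y ∈ Y', ∀ p ∈ Zf y, S.SRel ε6 p (ph p) ∧ S.URel ε6 (ph p) b := by
      intro y hy p hp
      apply hph
      have h1 := (hUz y (hY'Y y hy).1 p hp).dist_le
      have h2 := hnd (S.g.symm^[k] (xf y))
      rw [(hY'Y y hy).2] at h2
      have h3 := dist_triangle p (S.g.symm^[k] (xf y)) b
      have h4 := dist_triangle (S.g.symm^[k] (xf y)) s b
      rw [dist_comm p (S.g.symm^[k] (xf y))] at h3
      rw [dist_comm s b] at h4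
      linarith
    refine K19.class_bound hB.1 Y' Zf b hbR ph (a * r) (by positivity) ?_ Q δQ hQ ?_ ?_
    · intro y hy p hp
      obtain ⟨h1, h2⟩ := hpp y hy p hp
      refine ⟨hR.sat p (hZ1 y (hY'Y y hy).1 p hp).1 _ (c.geo.sasym _ _ (h1.mono (by linarith))),
        c.geo.uasym _ _ (h2.symm.mono (by linarith)), ?_⟩
      have h3 := c.lc_le b (ph p) (h2.symm.mono (by linarith))
      have h4 := h2.symm.dist_le
      exact h3.trans ((mul_le_mul_of_nonneg_left h4 hM0.le).trans h6M)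
    · -- separation inside one `Zf y`
      intro y hy p hp p' hp' hne
      obtain ⟨h1, h2⟩ := hpp y hy p hp
      obtain ⟨h1', h2'⟩ := hpp y hy p' hp'
      have hyY := (hY'Y y hy).1
      have hu := hUz y hyY p hp
      have hu' := hUz y hyY p' hp'
      by_contra hcon
      push Not at hcon
      have k1 := hHL (ph p) p (ph p') p' (h1.symm.mono h6H)
        ((h2.trans h2'.symm).mono (by linarith)) (h1'.symm.mono h6H)
        ((hu.symm.trans hu').mono (by linarith))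
      have k2 := c.base b (ph p) (ph p') (c.geo.uasym _ _ (h2.symm.mono (by linarith)))
        (c.geo.uasym _ _ (h2'.symm.mono (by linarith)))
      have k3 := c.tau_le b (ph p) (h2.symm.mono (by linarith))
      have k4 := c.base (S.g.symm^[k] (xf y)) p p' (hZ1 y hyY p hp).2.1 (hZ1 y hyY p' hp').2.1
      have k5 := K19.le_tau c (hu.mono (by linarith))
      have k6 := hZ2 y hyY p hp p' hp' hne
      rw [k2, norm_mul] at k1
      rw [k4, norm_mul] at k1
      rw [norm_sub_rev] at k6 hcon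
      set u := ‖c.lc (S.g.symm^[k] (xf y)) p' - c.lc (S.g.symm^[k] (xf y)) p‖
      set v := ‖c.lc b (ph p') - c.lc b (ph p)‖
      set τ₁ := ‖c.tau (S.g.symm^[k] (xf y)) p‖
      set τ₂ := ‖c.tau b (ph p)‖
      have hu0 : 0 ≤ u := norm_nonneg _
      have hv0 : 0 ≤ v := norm_nonneg _
      -- `u ≤ M τ₁ u ≤ 3 M² τ₂ v ≤ 3 M³ v < 6 M³ a r`
      have e1 : u ≤ c.M * τ₁ * u := by nlinarith
      have e2 : c.M * τ₁ * u ≤ c.M * (3 * c.M * (τ₂ * v)) := by
        rw [mul_assoc]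
        exact mul_le_mul_of_nonneg_left k1 hM0.le
      have e3 : τ₂ * v ≤ c.M * v := mul_le_mul_of_nonneg_right k3 hv0
      have e4 : c.M * (3 * c.M * (τ₂ * v)) ≤ c.M * (3 * c.M * (c.M * v)) := by gcongr
      have e5 : c.M * (3 * c.M * (c.M * v)) < c.M * (3 * c.M * (c.M * (2 * (a * r)))) := by
        gcongr
      have e6 : c.M * (3 * c.M * (c.M * (2 * (a * r)))) = 6 * c.M ^ 3 * a * r := by ring
      have e7 : r < 6 * c.M ^ 3 * a * r * Cτ ^ 2 := by
        rw [← div_lt_iff₀ (by positivity)]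
        linarith
      have e8 : 6 * c.M ^ 3 * a * r * Cτ ^ 2 = (a * (6 * c.M ^ 3 * Cτ ^ 2)) * r := by ring
      rw [e8] at e7
      nlinarith
    · -- multiplicity
      intro y hy y' hy' hne p hp p' hp' hclose
      obtain ⟨h1, h2⟩ := hpp y hy p hp
      obtain ⟨h1', h2'⟩ := hpp y' hy' p' hp'
      have hyY := (hY'Y y hy).1
      have hyY' := (hY'Y y' hy').1
      have hu := hUz y hyY p hp
      have hu' := hUz y' hyY' p' hp'
      by_contra hcon
      push Not at hcon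
      obtain ⟨q, hq1, hq2⟩ := hCor (ph p') p' (ph p) (h1'.symm.mono (by linarith))
        ((h2'.trans h2.symm).mono (by linarith))
      have k1 := hHL (ph p') p' (ph p) q (h1'.symm.mono h6H)
        ((h2'.trans h2.symm).mono (by linarith)) (hq2.mono (by linarith))
        (hq1.mono (by linarith))
      have k2 := c.base b (ph p') (ph p) (c.geo.uasym _ _ (h2'.symm.mono (by linarith)))
        (c.geo.uasym _ _ (h2.symm.mono (by linarith)))
      have k3 := c.tau_le b (ph p') (h2'.symm.mono (by linarith))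
      have hzp' := (hZ1 y' hyY' p' hp').2.1
      have hp'q : UAsym S p' q := c.geo.uasym _ _ (hq1.mono (by linarith))
      have hzq : UAsym S (S.g.symm^[k] (xf y')) q := hzp'.trans hp'q
      have k4 := c.base (S.g.symm^[k] (xf y')) p' q hzp' hzq
      have k5 := K19.le_tau c (hu'.mono (by linarith))
      have k6 := (hZ1 y' hyY' p' hp').2.2
      have k7 := (K19.ratio c hCτ1 hCτ k (hyx y' hyY') (hlcA y' hyY')).1
      have k8 := hYr y' hyY'
      rw [k2, k4, norm_mul, norm_mul] at k1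
      set z' := S.g.symm^[k] (xf y') with hz'
      have hlq : ‖c.lc z' q‖ ≤ ρ7 * c.cw k (xf y') := by
        have hv0 : 0 ≤ ‖c.lc b (ph p) - c.lc b (ph p')‖ := norm_nonneg _
        have hu0 : 0 ≤ ‖c.lc z' q - c.lc z' p'‖ := norm_nonneg _
        set u := ‖c.lc z' q - c.lc z' p'‖ with hudef
        set v := ‖c.lc b (ph p) - c.lc b (ph p')‖
        set τ₁ := ‖c.tau z' p'‖
        set τ₂ := ‖c.tau b (ph p')‖
        have e1 : u ≤ c.M * τ₁ * u := by nlinarith
        have e2 : c.M * τ₁ * u ≤ c.M * (3 * c.M * (τ₂ * v)) := by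
          rw [mul_assoc]
          exact mul_le_mul_of_nonneg_left k1 hM0.le
        have e3 : τ₂ * v ≤ c.M * v := mul_le_mul_of_nonneg_right k3 hv0
        have e4 : c.M * (3 * c.M * (τ₂ * v)) ≤ c.M * (3 * c.M * (c.M * v)) := by gcongr
        have e5 : c.M * (3 * c.M * (c.M * v)) ≤ c.M * (3 * c.M * (c.M * (2 * (a * r)))) := by
          gcongr
        have e6 : c.M * (3 * c.M * (c.M * (2 * (a * r)))) = 6 * c.M ^ 3 * a * r := by ring
        have e7 : 6 * c.M ^ 3 * a * r ≤ 6 * c.M ^ 3 * a * (Cτ ^ 2 * c.cw k (xf y')) :=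
          mul_le_mul_of_nonneg_left (k8.trans k7) (by positivity)
        have e8 : 6 * c.M ^ 3 * a * (Cτ ^ 2 * c.cw k (xf y')) =
          (a * (6 * c.M ^ 3 * Cτ ^ 2)) * c.cw k (xf y') := by ring
        have e9 : (a * (6 * c.M ^ 3 * Cτ ^ 2)) * c.cw k (xf y') ≤ c' * c.cw k (xf y') :=
          mul_le_mul_of_nonneg_right haD1 (hcw0 _).le
        have e10 : ‖c.lc z' q‖ ≤ u + ‖c.lc z' p'‖ := by
          have := norm_add_le (c.lc z' q - c.lc z' p') (c.lc z' p')
          rwa [sub_add_cancel] at this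
        have e11 : c' * c.cw k (xf y') + c' * c.cw k (xf y') = ρ7 * c.cw k (xf y') := by
          rw [hc']; ring
        linarith
      -- forward
      have hLz' : 0 < ‖c.Lp k z'‖ := by linarith [K19.one_le_Lp c k z']
      have hxq : S.URel ε7 (xf y') (S.g^[k] q) := by
        have e1 := K19.lc_iter c hzq k
        have e2 : S.g^[k] z' = xf y' := by rw [hz', iter_iter_symm]
        have e3 := hzq.iter k
        rw [e2] at e1 e3
        refine hsm _ _ e3 ?_
        rw [e1, norm_mul]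
        have e4 : c.cw k (xf y') = ‖c.Lp k z'‖⁻¹ := rfl
        rw [e4] at hlq
        calc ‖c.Lp k z'‖ * ‖c.lc z' q‖ ≤ ‖c.Lp k z'‖ * (ρ7 * ‖c.Lp k z'‖⁻¹) :=
              mul_le_mul_of_nonneg_left hlq hLz'.le
          _ = ρ7 := by field_simp
      have hxp : S.URel ε7 (xf y) (S.g^[k] p) := by
        obtain ⟨-, f1, f2⟩ := hZ1 y hyY p hp
        have e1 := K19.lc_iter c f1 k
        have e2 : S.g^[k] (S.g.symm^[k] (xf y)) = xf y := iter_iter_symm S k _
        have e3 := f1.iter k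
        rw [e2] at e1 e3
        refine hsm _ _ e3 ?_
        rw [e1, norm_mul]
        have hLz : 0 < ‖c.Lp k (S.g.symm^[k] (xf y))‖ := by
          linarith [K19.one_le_Lp c k (S.g.symm^[k] (xf y))]
        have e4 : c.cw k (xf y) = ‖c.Lp k (S.g.symm^[k] (xf y))‖⁻¹ := rfl
        rw [e4] at f2
        calc ‖c.Lp k (S.g.symm^[k] (xf y))‖ * ‖c.lc (S.g.symm^[k] (xf y)) p‖
            ≤ ‖c.Lp k (S.g.symm^[k] (xf y))‖ * (c' * ‖c.Lp k (S.g.symm^[k] (xf y))‖⁻¹) :=
              mul_le_mul_of_nonneg_left f2 hLz.le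
          _ = c' := by field_simp
          _ ≤ ρ7 := by rw [hc']; linarith
      have hpq : S.SRel (κ / 8) p q := (h1.trans hq2).mono (by linarith)
      -- closeness of `y`, `y'` at times `-j`
      have hfar : ∀ w ∈ Y, ∀ j, jA ≤ j →
          dist (S.g.symm^[j] w) (S.g.symm^[j] (xf w)) ≤ κ / 8 := by
        intro w hw j hj
        have e1 := (hyx w hw).symm_iter j
        have e2 := K19.lc_iter c e1 j
        rw [iter_iter_symm, iter_iter_symm] at e2
        have e3 := K19.le_Lp c j (S.g.symm^[j] w)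
        have e4 := hlcA w hw
        rw [e2, norm_mul] at e4
        have e5 : (16 : ℝ) ^ jA ≤ 16 ^ j := pow_le_pow_right₀ (by norm_num) hj
        have e6 : ‖c.lc (S.g.symm^[j] w) (S.g.symm^[j] (xf w))‖ ≤ ρ7 := by
          have e7 : (0 : ℝ) < 16 ^ jA := by positivity
          have e8 := norm_nonneg (c.lc (S.g.symm^[j] w) (S.g.symm^[j] (xf w)))
          have e9 : (16 : ℝ) ^ jA * ‖c.lc (S.g.symm^[j] w) (S.g.symm^[j] (xf w))‖ ≤
              ρ7 * 16 ^ jA := by
            calc _ ≤ ‖c.Lp j (S.g.symm^[j] w)‖ *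
                  ‖c.lc (S.g.symm^[j] w) (S.g.symm^[j] (xf w))‖ :=
                  mul_le_mul_of_nonneg_right (e5.trans e3) e8
              _ ≤ A := e4
              _ ≤ _ := hjA
          rw [mul_comm ρ7] at e9
          exact le_of_mul_le_mul_left e9 e7
        exact ((hsm _ _ e1 e6).dist_le).trans h7κ
      apply hYsep y hyY y' hyY' hne
      refine SRel_back k (hYrel y hyY y' hyY') (fun j hj => ?_)
      rcases Nat.lt_or_ge j jA with hjj | hjj
      · exact hUB y y' hcon j hjj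
      · have g1 := hfar y hyY j hjj
        have g2 := hfar y' hyY' j hjj
        have g3 := hxp j
        have g4 := hxq j
        have g5 := hpq (k - j)
        rw [symm_iter_iter_le S hj] at g3 g4
        have d1 := dist_triangle (S.g.symm^[j] y) (S.g.symm^[j] (xf y)) (S.g.symm^[j] y')
        have d2 := dist_triangle (S.g.symm^[j] (xf y)) (S.g^[k - j] p) (S.g.symm^[j] y')
        have d3 := dist_triangle (S.g^[k - j] p) (S.g^[k - j] q) (S.g.symm^[j] y')
        have d4 := dist_triangle (S.g^[k - j] q) (S.g.symm^[j] (xf y')) (S.g.symm^[j] y')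
        rw [dist_comm (S.g^[k - j] q) (S.g.symm^[j] (xf y')),
          dist_comm (S.g.symm^[j] (xf y')) (S.g.symm^[j] y')] at d4
        linarith
  have hsum : ∑ y ∈ Y, (Zf y).card ≤ t.card * (Q * Sf c R (a * r)) := by
    rw [← Finset.sum_fiberwise_of_maps_to (s := Y) (t := t)
      (g := fun y => netf (S.g.symm^[k] (xf y))) (fun y _ => hnt _)]
    calc _ ≤ ∑ s ∈ t, Q * Sf c R (a * r) := Finset.sum_le_sum hclass
      _ = _ := by rw [Finset.sum_const, smul_eq_mul]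
  have hSf' := hSf r hr
  have hSf0 : (0 : ℝ) ≤ Sf c R r := Nat.cast_nonneg _
  calc ∑ y ∈ Y, (Sf c R (r / c.cw k y) : ℝ) ≤ ∑ y ∈ Y, CA * ((Zf y).card : ℝ) := by
        refine Finset.sum_le_sum (fun y hy => ?_)
        rw [hZc y hy]
        exact hSfn y hy
    _ = CA * ((∑ y ∈ Y, (Zf y).card : ℕ) : ℝ) := by rw [← Finset.mul_sum]; push_cast; rfl
    _ ≤ CA * ((t.card * (Q * Sf c R (a * r)) : ℕ) : ℝ) := by
        refine mul_le_mul_of_nonneg_left ?_ hCA.le
        exact_mod_cast hsum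
    _ = CA * (t.card * Q) * (Sf c R (a * r) : ℝ) := by push_cast; ring
    _ ≤ CA * (t.card * Q) * (CB * Sf c R r) := by
        refine mul_le_mul_of_nonneg_left hSf' (by positivity)
    _ ≤ (CA * (t.card * Q * CB) + 1) * Sf c R r := by
        have : CA * (t.card * Q) * (CB * (Sf c R r : ℝ)) = CA * (t.card * Q * CB) * Sf c R r := by
          ring
        rw [this, add_mul, one_mul]
        linarith

end Pool.Agent.H779R2.An
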