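import Pool.Agent.H779R2.An.Assembly
import Pool.Agent.H779R2.An.CJE2
import Pool.Agent.H779R2.An.CQC
import Pool.Agent.H779R2.An.CCF
import Pool.Agent.H779R2.An.CHol
import Pool.Agent.H779R2.An.CTh
import Pool.Agent.H779R2.An.CLev
import Pool.Agent.H779R2.An.CChart
import Pool.Agent.H779R2.An.CSeg
import Pool.Agent.H779R2.An.CChain
import Pool.Agent.H779R2.An.CMob
import Pool.Agent.H779R2.An.CMob2
import Pool.Agent.H779R2.An.CTrack
import Pool.Agent.H779R2.An.CMinR
import Pool.Agent.H779R2.An.CNonIso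
import Pool.Agent.H779R2.An.CDense
import Pool.Agent.H779R2.An.CUpper
import Pool.Agent.H779R2.An.CTrans
import Pool.Agent.H779R2.An.CLower
import Pool.Agent.H779R2.An.CUp
import Pool.Agent.H779R2.An.CDown
import Pool.Agent.H779R2.An.CSweep
import Pool.Agent.H779R2.An.CCover

set_option autoImplicit false

namespace Pool.Agent.H779R2.An

open Pool.Agent.H721R2 Filter Topology MeasureTheory
open scoped BigOperators

variable {X E : Type*} [MetricSpace X] [CompactSpace X] [NormedAddCommGroup E]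
  [InnerProductSpace ℝ E] [FiniteDimensional ℝ E]

/-- Abstract main theorem, conformal case. -/
theorem abstract_main2 [PreconnectedSpace X] (S : HypSys X E) {Q r : ℝ} (hQ : Quad S Q r)
    (J₀ : CJ0 S) (d : ℕ) (hd : 2 ≤ d)
    (hfu : ∀ x, Module.finrank ℝ (S.Vu x) = 2) (hfs : ∀ x, Module.finrank ℝ (S.Vs x) = d)
    (U V : Set X) (hU : IsOpen U) (hUn : U.Nonempty) (hV : IsOpen V) (hVn : V.Nonempty) :
    ∃ n : ℕ, (S.g^[n] '' U ∩ V).Nonempty := by
  obtain ⟨K, hK⟩ := qc_of_cj0 J₀ hfu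
  have hflat : Nonempty (Flat S) := by
    obtain ⟨Lc, a1, a2, a3⟩ := hasLc S hQ hK
    obtain ⟨τ, b1, b2, b3⟩ := hasTau S hQ hK
    obtain ⟨H, c1, c2, c3⟩ := hasHol S hQ hK
    obtain ⟨L⟩ := exists_lin1 (S := S) ⟨K, hK, Lc, a1, a2, a3, τ, b1, b2, b3, H, c1, c2, c3⟩
    exact exists_flat L
  have hunit : Nonempty (UV S) := by
    have : ∀ x, ∃ b ∈ S.Vu x, ‖b‖ = 1 := by
      intro x
      have hpos : 0 < Module.finrank ℝ (S.Vu x) := by rw [hfu]; norm_num
      have : Nontrivial (S.Vu x) := Module.finrank_pos_iff.mp hpos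
      obtain ⟨v, hv⟩ := exists_ne (0 : S.Vu x)
      have hv' : ‖(v : E)‖ ≠ 0 := by
        rw [norm_ne_zero_iff]
        exact fun h => hv (Subtype.ext h)
      refine ⟨‖(v : E)‖⁻¹ • (v : E), Submodule.smul_mem _ _ v.2, ?_⟩
      rw [norm_smul, norm_inv, norm_norm, inv_mul_cancel₀ hv']
    choose b hb1 hb2 using this
    exact ⟨⟨b, hb1, hb2⟩⟩
  obtain ⟨F⟩ := hflat
  obtain ⟨B⟩ := hunit
  obtain ⟨J, hJJ⟩ := exists_cj' F J₀
  have hJD : ∀ x, ∀ v ∈ S.Vu x, S.D x (J.J x v) = J.J (S.g x) (S.D x v) := by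
    intro x v hv
    rw [hJJ]
    exact J₀.J_D x v hv
  have hCD := cd F
  have hQE := qe F J hCD
  obtain ⟨c, hc⟩ := exists_cf F J hJD hCD hfu
  obtain ⟨T⟩ := exists_th c (hol_prop c)
  have hlev := lev_prop T
  have hchart := chart_prop S d hfs
  have hseg := seg_of_chart hchart
  apply transitive_of_no_trap S _ U V hU hUn hV hVn
  intro W hW hne htrap
  by_contra hnu
  obtain ⟨R, hR2, hRW⟩ := exists_minR2 S W hW hne hnu htrap
  have hR := hR2.toMinR
  have hnull := null F B hR (fun ρ₁ hρ₁ => holes F hR ρ₁ hρ₁) 2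
  have hsum := sum_prop F B hQE hR 2 hfu hnull
  have hchain := chain2 c B hR (hc B) hseg hsum
  have hmob := mob_prop T hR hlev hchain
  have hmob' := mob_prop' T hR hmob
  have htr := track T hR hlev hmob'
  have hni := non_iso c hR2 (by omega : 1 ≤ d) hchart
  have hB := upperB c hR
  have hA := lowerA c hR hB (trans_prop T hR) (dense_prop hR2)
  have hcc := count_contra T hR hlev htr hni (up_bound T hR hB hA) (down_bound c hR hB hA) hA hB
    d hd
  have hcov := cover2 T hR hlev htr d hchart hcc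
  exact trap_contra hR hRW hW hne htrap hcov

end Pool.Agent.H779R2.An
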