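import Pool.Agent.H779R2.An.Basic

set_option autoImplicit false

namespace Pool.Agent.H779R2.An

open Pool.Agent.H721R2 Filter Topology
open scoped BigOperators

variable {X E : Type*} [MetricSpace X] [NormedAddCommGroup E] [NormedSpace ℝ E]

/-- Complex linearization data along a two-dimensional unstable bundle with an invariant complex
structure: all maps between unstable spaces become multiplications by complex numbers. -/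
structure CF (S : HypSys X E) where
  ε₀ : ℝ
  geo : Geo S ε₀
  M : ℝ
  one_le_M : 1 ≤ M
  lam : X → ℂ
  lam_ge : ∀ x, 16 ≤ ‖lam x‖
  lam_le : ∀ x, ‖lam x‖ ≤ M
  lc : X → X → ℂ
  tau : X → X → ℂ
  eta : X → X → ℂ
  lc_equi : ∀ x y, UAsym S x y → lc (S.g x) (S.g y) = lam x * lc x y
  lc_self : ∀ x, lc x x = 0
  lc_le : ∀ x y, S.URel ε₀ x y → ‖lc x y‖ ≤ M * dist x y
  dist_le : ∀ x y, S.URel ε₀ x y → dist x y ≤ M * ‖lc x y‖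
  inj : ∀ x y z, UAsym S x y → UAsym S x z → lc x y = lc x z → y = z
  surj : ∀ ε > 0, ∃ ρ > 0, ∀ x, ∀ u : ℂ, ‖u‖ ≤ ρ → ∃ y, S.URel ε x y ∧ lc x y = u
  small : ∀ ε > 0, ∃ ρ > 0, ∀ x y, UAsym S x y → ‖lc x y‖ ≤ ρ → S.URel ε x y
  tau_self : ∀ x, tau x x = 1
  tau_comp : ∀ x y z, UAsym S x y → UAsym S y z → tau y z * tau x y = tau x z
  tau_equi : ∀ x y, UAsym S x y → tau (S.g x) (S.g y) * lam x = lam y * tau x y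
  tau_le : ∀ x y, S.URel ε₀ x y → ‖tau x y‖ ≤ M
  base : ∀ x y z, UAsym S x y → UAsym S x z → lc y z = tau x y * (lc x z - lc x y)
  eta_self : ∀ x, eta x x = 1
  eta_comp : ∀ x y z, SAsym S x y → SAsym S y z → eta y z * eta x y = eta x z
  eta_equi : ∀ x y, SAsym S x y → eta (S.g x) (S.g y) * lam x = lam y * eta x y
  eta_le : ∀ x y, S.SRel ε₀ x y → ‖eta x y‖ ≤ M
  cd : ∀ w w', S.SRel ε₀ w w' → ∀ η > 0, ∃ ρ > 0, ∀ q q', S.URel ε₀ w q → ‖lc w q‖ ≤ ρ →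
    S.SRel ε₀ q q' → S.URel ε₀ w' q' → ‖lc w' q' - eta w w' * lc w q‖ ≤ η * ‖lc w q‖

variable {S : HypSys X E}

/-- Multiplier of `g^n` at `x`. -/
noncomputable def CF.Lp (c : CF S) (n : ℕ) (x : X) : ℂ := ∏ i ∈ Finset.range n, c.lam (S.g^[i] x)

/-- The size at time `-k` of a unit disc at `y` (inverse of the multiplier of `g^k` at `g^{-k} y`). -/
noncomputable def CF.cw (c : CF S) (k : ℕ) (y : X) : ℝ := ‖c.Lp k (S.g.symm^[k] y)‖⁻¹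

/-- Normalized Moebius map fixing `0`. -/
noncomputable def mob (η θ u : ℂ) : ℂ := η * u / (1 - θ * u)

/-- Holomorphy of the local stable holonomy. -/
def HolProp (c : CF S) : Prop :=
  ∃ ρ₀ > 0, ∃ ε > 0, ε ≤ c.ε₀ ∧ ∃ h : X → X → ℂ → ℂ, ∀ z z', S.SRel ε z z' →
    DifferentiableOn ℂ (h z z') (Metric.ball 0 ρ₀) ∧
    (∀ u ∈ Metric.ball (0 : ℂ) ρ₀, ‖h z z' u‖ ≤ 1) ∧ h z z' 0 = 0 ∧
    deriv (h z z') 0 = c.eta z z' ∧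
    ∀ p p', S.URel ε z p → S.SRel ε p p' → S.URel ε z' p' →
      ‖c.lc z p‖ < ρ₀ ∧ c.lc z' p' = h z z' (c.lc z p)

/-- The nonlinearity cocycle of the stable holonomy and the cubic Moebius estimate. -/
structure TH (c : CF S) where
  ε : ℝ
  ε_pos : 0 < ε
  ε_le : ε ≤ c.ε₀
  C : ℝ
  C_pos : 0 < C
  th : X → X → ℂ
  th_self : ∀ x, th x x = 0
  th_equi : ∀ x y, SAsym S x y → th (S.g x) (S.g y) * c.lam x = th x y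
  th_comp : ∀ x y z, SAsym S x y → SAsym S y z → th x z = th x y + c.eta x y * th y z
  th_le : ∀ x y, S.SRel ε x y → ‖th x y‖ ≤ C
  half : ∀ z z' p, S.SRel ε z z' → S.URel ε z p → ‖th z z' * c.lc z p‖ ≤ 1 / 2
  cubic : ∀ z z' p p', S.SRel ε z z' → S.URel ε z p → S.SRel ε p p' → S.URel ε z' p' →
    ‖c.lc z' p' - mob (c.eta z z') (th z z') (c.lc z p)‖ ≤ C * ‖c.lc z p‖ ^ 3

/-- Level-`k` versions. -/
def LevProp {c : CF S} (T : TH c) : Prop :=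
  ∃ C > 0, ∃ ε > 0, ε ≤ T.ε ∧ (∀ (k : ℕ) (y y' : X), S.SRel ε (S.g.symm^[k] y) (S.g.symm^[k] y') →
      ‖T.th y y'‖ ≤ C * c.cw k y) ∧
    ∀ (k : ℕ) (y y' q q' : X), S.SRel ε (S.g.symm^[k] y) (S.g.symm^[k] y') → S.URel ε y q →
      S.URel ε y' q' → S.SRel ε q q' →
      ‖c.lc y' q' - mob (c.eta y y') (T.th y y') (c.lc y q)‖ ≤ C * c.cw k y ^ 2 * ‖c.lc y q‖ ^ 3

/-- `ψ` is a bi-Lipschitz chart of the stable plaque of size `ρ` at `x`. -/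
structure IsChart (S : HypSys X E) {d : ℕ} (x : X) (ρ ρ₁ : ℝ)
    (ψ : EuclideanSpace ℝ (Fin d) → X) : Prop where
  zero : ψ 0 = x
  rel : ∀ a, ‖a‖ ≤ ρ₁ → S.SRel ρ x (ψ a)
  le : ∀ a a', ‖a‖ ≤ ρ₁ → ‖a'‖ ≤ ρ₁ → dist (ψ a) (ψ a') ≤ 2 * ‖a - a'‖
  ge : ∀ a a', ‖a‖ ≤ ρ₁ → ‖a'‖ ≤ ρ₁ → ‖a - a'‖ ≤ 2 * dist (ψ a) (ψ a')

/-- Bi-Lipschitz charts of stable plaques. -/
def ChartProp (S : HypSys X E) (d : ℕ) : Prop :=
  ∀ ρ > 0, ∃ ρ₁ > 0, ∃ ρ' > 0, ∀ x : X, ∃ ψ : EuclideanSpace ℝ (Fin d) → X,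
    IsChart S x ρ ρ₁ ψ ∧ ∀ x', S.SRel ρ' x x' → ∃ b, ‖b‖ ≤ ρ₁ / 4 ∧ ψ b = x'

/-- Chains along stable plaques of `R` with small square sums. -/
def Chain2Prop (c : CF S) (R : Set X) : Prop :=
  ∀ ε > 0, ∀ ρ > 0, ∃ ρ' > 0, ∀ x ∈ R, ∀ x', S.SRel ρ' x x' → ∀ δ > 0, ∃ (k m : ℕ) (e : ℕ → X),
    e 0 = x ∧ e m = x' ∧ (∀ i ≤ m, S.SRel ρ x (e i)) ∧
    (∀ i < m, S.SRel ε (S.g.symm^[k] (e i)) (S.g.symm^[k] (e (i + 1)))) ∧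
    ∑ i ∈ Finset.range m, c.cw k (e i) ^ 2 ≤ δ

/-- On leaves of `R` the stable holonomy is Moebius. -/
def MobProp {c : CF S} (T : TH c) (R : Set X) : Prop :=
  ∃ ε > 0, ε ≤ T.ε ∧ ∀ x ∈ R, ∀ x' p p', S.SRel ε x x' → S.URel ε x p → S.SRel ε p p' →
    S.URel ε x' p' → c.lc x' p' = mob (c.eta x x') (T.th x x') (c.lc x p)

/-- The same with the point of `R` and the base point exchanged. -/
def MobProp' {c : CF S} (T : TH c) (R : Set X) : Prop :=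
  ∃ ε > 0, ε ≤ T.ε ∧ ∀ y ∈ R, ∀ y' w w', S.SRel ε y y' → S.URel ε y w → S.SRel ε w w' →
    S.URel ε y' w' → c.lc w' y' = mob (c.eta w w') (T.th w w') (c.lc w y)

/-- Tracking a point of `R` in the unstable leaf of a moving point, as long as there is no pole. -/
def TrackProp {c : CF S} (T : TH c) (R : Set X) : Prop :=
  ∃ ε > 0, ε ≤ T.ε ∧ ∀ (v : X) (γ : ℝ → X), ContinuousOn γ (Set.Icc 0 1) → γ 0 = v →
    (∀ t ∈ Set.Icc (0 : ℝ) 1, S.SRel ε v (γ t)) → ∀ x ∈ R, UAsym S v x →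
    (∀ t ∈ Set.Icc (0 : ℝ) 1, T.th v (γ t) * c.lc v x ≠ 1) →
    ∃ x' ∈ R, UAsym S (γ 1) x' ∧
      c.lc (γ 1) x' = mob (c.eta v (γ 1)) (T.th v (γ 1)) (c.lc v x)

/-- `MinR` together with minimality. -/
structure MinR2 (S : HypSys X E) (R : Set X) : Prop extends MinR S R where
  minimal : ∀ R' ⊆ R, IsClosed R' → R'.Nonempty → (∀ x ∈ R', S.g x ∈ R') →
    (∀ x ∈ R', S.g.symm x ∈ R') → (∀ x ∈ R', ∀ y, SAsym S x y → y ∈ R') → R' = R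

/-- Density of the stable leaf of the orbit of any point of `R`. -/
def DenseProp (S : HypSys X E) (R : Set X) : Prop :=
  ∀ x ∈ R, ∀ z ∈ R, ∀ ε > 0, ∃ y ∈ R, dist y z < ε ∧
    ∃ n : ℕ, SAsym S (S.g^[n] x) y ∨ SAsym S (S.g.symm^[n] x) y

/-- Points of `R` are not isolated in the trace of `R` on their unstable leaf. -/
def NonIsoProp (c : CF S) (R : Set X) : Prop :=
  ∀ x ∈ R, ∀ δ > 0, ∃ x' ∈ R, x' ≠ x ∧ UAsym S x x' ∧ ‖c.lc x x'‖ < δ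

/-- There are `n` points of `R` in the unstable leaf of `z`, at (linearized) distance `≤ ρ` from
`z` and mutual distances `≥ r`. -/
def SepN (c : CF S) (R : Set X) (z : X) (ρ r : ℝ) (n : ℕ) : Prop :=
  ∃ Z : Finset X, Z.card = n ∧ (∀ x ∈ Z, x ∈ R ∧ UAsym S z x ∧ ‖c.lc z x‖ ≤ ρ) ∧
    ∀ x ∈ Z, ∀ x' ∈ Z, x ≠ x' → r ≤ ‖c.lc z x - c.lc z x'‖

/-- Largest number of `r`-separated points of `R` in an unstable disc of radius `1` centred on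
`R`. -/
noncomputable def Sf (c : CF S) (R : Set X) (r : ℝ) : ℕ := sSup {n | ∃ z ∈ R, SepN c R z 1 r n}

/-- Local transport of separated sets of `R`. -/
def TransProp (c : CF S) (R : Set X) : Prop :=
  ∃ ε > 0, ∃ δ₁ > 0, ∃ C : ℝ, 1 ≤ C ∧ ∀ x ∈ R, ∀ y ∈ R, dist x y ≤ ε → ∀ δ, 0 < δ → δ ≤ δ₁ →
    ∀ r, 0 < r → ∀ n, SepN c R x δ r n → SepN c R y (C * (δ + dist x y)) (r / C) n

/-- Upper regularity of the counting function. -/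
def UpperB (c : CF S) (R : Set X) : Prop :=
  (∀ r, 0 < r → BddAbove {n | ∃ z ∈ R, SepN c R z 1 r n}) ∧
  (∀ a, 0 < a → a ≤ 1 → ∃ C : ℝ, 0 < C ∧ ∀ r, 0 < r → (Sf c R (a * r) : ℝ) ≤ C * Sf c R r) ∧
  ∀ ρ, 0 < ρ → ∃ C : ℝ, 0 < C ∧ ∀ z ∈ R, ∀ r, 0 < r → ∀ n, SepN c R z ρ r n →
    (n : ℝ) ≤ C * Sf c R r

/-- Lower regularity of the counting function. -/
def LowerA (c : CF S) (R : Set X) : Prop :=
  ∀ ρ, 0 < ρ → ∃ C : ℝ, 0 < C ∧ ∀ z ∈ R, ∀ r, 0 < r → r ≤ 1 →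
    ∃ n, SepN c R z ρ r n ∧ (Sf c R r : ℝ) ≤ C * n

/-- Packing estimate. -/
def UpBound (c : CF S) (R : Set X) : Prop :=
  ∃ κ₀ > 0, ∀ κ, 0 < κ → κ ≤ κ₀ → ∀ A₀ : ℝ, ∃ C : ℝ, 0 < C ∧ ∀ (k : ℕ) (Y : Finset X) (r : ℝ),
    0 < r → (∀ y ∈ Y, ∃ x ∈ R, UAsym S y x ∧ ‖c.lc y x‖ ≤ A₀) →
    (∀ y ∈ Y, ∀ y' ∈ Y, S.SRel κ y y') →
    (∀ y ∈ Y, ∀ y' ∈ Y, y ≠ y' → ¬ S.SRel κ (S.g.symm^[k] y) (S.g.symm^[k] y')) →
    (∀ y ∈ Y, r ≤ c.cw k y) → ∑ y ∈ Y, (Sf c R (r / c.cw k y) : ℝ) ≤ C * Sf c R r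

/-- Covering estimate. -/
def DownBound (c : CF S) (R : Set X) : Prop :=
  ∀ v, ∀ x₀ ∈ R, UAsym S v x₀ → ∀ δ₀ > 0, ∀ C₁ > 0, ∃ C : ℝ, 0 < C ∧
    ∀ (r : ℝ) (ι : Type) (Y : Finset ι) (ζ : ι → ℂ) (ω : ι → ℝ), 0 < r →
    (∀ y ∈ Y, r ≤ ω y ∧ ω y ≤ 1) →
    (∀ x ∈ R, UAsym S v x → ‖c.lc v x - c.lc v x₀‖ ≤ δ₀ → ∃ y ∈ Y, ‖c.lc v x - ζ y‖ ≤ C₁ * ω y) →
    (Sf c R r : ℝ) ≤ C * ∑ y ∈ Y, (Sf c R (r / ω y) : ℝ)

end Pool.Agent.H779R2.An
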