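import Pool.Agent.H779R2.An.DefsB
import Pool.Agent.H779R2.An.Basic

set_option autoImplicit false
set_option linter.unusedSectionVars false

open scoped Manifold ContDiff Topology Bundle
open Set Filter Bundle

namespace Pool.Agent.H779R2.An

open Pool.Agent.H721R2

variable {E₀ : Type*} [NormedAddCommGroup E₀] [NormedSpace ℝ E₀] [FiniteDimensional ℝ E₀]
  {M : Type*} [TopologicalSpace M] [ChartedSpace E₀ M] [IsManifold 𝓘(ℝ, E₀) ∞ M]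
  {F : Type*} [NormedAddCommGroup F] [NormedSpace ℝ F]
  {F' : Type*} [NormedAddCommGroup F'] [NormedSpace ℝ F']

theorem hatMap_contDiffAt2 (h : M → F) (hh : ContMDiff 𝓘(ℝ, E₀) 𝓘(ℝ, F) 2 h) (x₀ : M) (p : E₀)
    (hp : p ∈ (extChartAt 𝓘(ℝ, E₀) x₀).target) : ContDiffAt ℝ 2 (hatMap h x₀) p := by
  rw [← contMDiffAt_iff_contDiffAt]
  have h1 : ContMDiffOn 𝓘(ℝ, E₀) 𝓘(ℝ, E₀) 2 (extChartAt 𝓘(ℝ, E₀) x₀).symm
      (extChartAt 𝓘(ℝ, E₀) x₀).target := contMDiffOn_extChartAt_symm x₀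
  have h2 : ContMDiffAt 𝓘(ℝ, E₀) 𝓘(ℝ, E₀) 2 (extChartAt 𝓘(ℝ, E₀) x₀).symm p :=
    h1.contMDiffAt ((isOpen_extChartAt_target x₀).mem_nhds hp)
  exact ContMDiffAt.comp p hh.contMDiffAt h2

theorem hatMap_local2 (h : M → F) (hh : ContMDiff 𝓘(ℝ, E₀) 𝓘(ℝ, F) 2 h) (x₀ : M) :
    ∃ C > 0, ∃ r > 0,
      (∀ p ∈ Metric.ball (extChartAt 𝓘(ℝ, E₀) x₀ x₀) r,
        ∀ q ∈ Metric.ball (extChartAt 𝓘(ℝ, E₀) x₀ x₀) r,
        ‖fderiv ℝ (hatMap h x₀) p - fderiv ℝ (hatMap h x₀) q‖ ≤ C * ‖q - p‖) ∧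
      (∀ p ∈ Metric.ball (extChartAt 𝓘(ℝ, E₀) x₀ x₀) r,
        ∀ q ∈ Metric.ball (extChartAt 𝓘(ℝ, E₀) x₀ x₀) r,
        ‖hatMap h x₀ q - hatMap h x₀ p - fderiv ℝ (hatMap h x₀) p (q - p)‖ ≤
          C * ‖q - p‖ ^ 2) := by
  set p₀ := extChartAt 𝓘(ℝ, E₀) x₀ x₀ with hp₀
  have hp₀t : p₀ ∈ (extChartAt 𝓘(ℝ, E₀) x₀).target := mem_extChartAt_target x₀
  have hc := hatMap_contDiffAt2 h hh x₀ p₀ hp₀t
  have hcd : ContDiffAt ℝ 1 (fderiv ℝ (hatMap h x₀)) p₀ := hc.fderiv_right (m := 1) (by norm_num)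
  obtain ⟨K, t, ht, hK⟩ := hcd.exists_lipschitzOnWith
  have h3 : (extChartAt 𝓘(ℝ, E₀) x₀).target ∈ 𝓝 p₀ := extChartAt_target_mem_nhds x₀
  obtain ⟨r, hr0, hr⟩ := Metric.mem_nhds_iff.mp (inter_mem ht h3)
  have hlip : ∀ p ∈ Metric.ball p₀ r, ∀ q ∈ Metric.ball p₀ r,
      ‖fderiv ℝ (hatMap h x₀) p - fderiv ℝ (hatMap h x₀) q‖ ≤ ((K : ℝ) + 1) * ‖q - p‖ := by
    intro p hp q hq
    have h4 := hK.dist_le_mul p (hr hp).1 q (hr hq).1
    rw [dist_eq_norm, dist_eq_norm, norm_sub_rev p q] at h4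
    nlinarith [norm_nonneg (q - p)]
  refine ⟨(K : ℝ) + 1, by positivity, r, hr0, hlip, fun p hp q hq => ?_⟩
  have hseg : segment ℝ p q ⊆ Metric.ball p₀ r :=
    (convex_ball p₀ r).segment_subset hp hq
  have h5 := Convex.norm_image_sub_le_of_norm_fderiv_le' (𝕜 := ℝ) (f := hatMap h x₀)
    (φ := fderiv ℝ (hatMap h x₀) p) (C := ((K : ℝ) + 1) * ‖q - p‖) (s := segment ℝ p q)
    (x := p) (y := q)
    (fun z hz => (hatMap_contDiffAt2 h hh x₀ z (hr (hseg hz)).2).differentiableAt (by norm_num))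
    (fun z hz => by
      refine (hlip z (hseg hz) p hp).trans ?_
      apply mul_le_mul_of_nonneg_left _ (by positivity)
      rw [segment_eq_image'] at hz
      obtain ⟨θ, hθ, rfl⟩ := hz
      have : p - (p + θ • (q - p)) = -(θ • (q - p)) := by abel
      rw [this, norm_neg, norm_smul, Real.norm_eq_abs, abs_of_nonneg hθ.1]
      nlinarith [hθ.2, norm_nonneg (q - p)])
    (convex_segment p q) (left_mem_segment ℝ p q) (right_mem_segment ℝ p q)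
  refine h5.trans (le_of_eq ?_)
  ring

/-- G1 -/
theorem local_all2 (e : M → F) (he : ContMDiff 𝓘(ℝ, E₀) 𝓘(ℝ, F) 2 e)
    (hinj : ∀ x, Function.Injective (dm E₀ e x))
    (h : M → F') (hh : ContMDiff 𝓘(ℝ, E₀) 𝓘(ℝ, F') 2 h) (x₀ : M) :
    ∃ C > 0, ∃ W ∈ 𝓝 x₀,
      (∀ x ∈ W, ∀ y ∈ W, ∃ v : E₀,
        ‖e y - e x - dm E₀ e x v‖ ≤ C * ‖e y - e x‖ ^ 2 ∧
        ‖h y - h x - dm E₀ h x v‖ ≤ C * ‖e y - e x‖ ^ 2) ∧
      (∀ x ∈ W, ∀ y ∈ W, ∀ v : E₀, ∃ w : E₀,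
        ‖dm E₀ e x v - dm E₀ e y w‖ ≤ C * ‖e y - e x‖ * ‖dm E₀ e x v‖ ∧
        ‖dm E₀ h x v - dm E₀ h y w‖ ≤ C * ‖e y - e x‖ * ‖dm E₀ e x v‖) := by
  have he1 : ContMDiff 𝓘(ℝ, E₀) 𝓘(ℝ, F) 1 e := he.of_le (by norm_num)
  have hh1 : ContMDiff 𝓘(ℝ, E₀) 𝓘(ℝ, F') 1 h := hh.of_le (by norm_num)
  set φ := extChartAt 𝓘(ℝ, E₀) x₀ with hφ
  set p₀ := φ x₀ with hp₀
  set L := fderiv ℝ (hatMap e x₀) p₀ with hL
  -- injectivity of L
  have hx₀ : x₀ ∈ φ.source := mem_extChartAt_source x₀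
  have hLinj : Function.Injective L := by
    obtain ⟨A, hA⟩ := isInvertible_mfderiv_extChartAt (I := 𝓘(ℝ, E₀)) hx₀
    intro a b hab
    have h1 : ∀ w : E₀, dm E₀ e x₀ (A.symm w) = L w := by
      intro w
      have h2 := hatMap_mfderiv e he1 x₀ x₀ hx₀ (A.symm w)
      rw [h2, ← hφ]
      have h3 : dm E₀ φ x₀ (A.symm w) = w := by
        show mfderiv 𝓘(ℝ, E₀) 𝓘(ℝ, E₀) φ x₀ (A.symm w) = w
        rw [← hA]; exact A.apply_symm_apply w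
      rw [h3]
    have h4 : A.symm a = A.symm b := by
      apply hinj x₀
      exact (h1 a).trans (hab.trans (h1 b).symm)
    exact A.symm.injective h4
  obtain ⟨K, hK0, hK⟩ := (LinearMap.injective_iff_antilipschitz (L : E₀ →ₗ[ℝ] F)).mp hLinj
  set κ : ℝ := (K : ℝ) with hκ
  have hκ0 : 0 < κ := hK0
  have hLlow : ∀ w : E₀, ‖w‖ ≤ κ * ‖L w‖ := fun w =>
    ZeroHomClass.bound_of_antilipschitz (L : E₀ →ₗ[ℝ] F) hK w
  obtain ⟨r1, hr1, a1, a2, a3⟩ := hatMap_local e he1 x₀ (1 / (4 * κ)) (by positivity)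
  obtain ⟨C1, hC1, r2, hr2, b1, b2⟩ := hatMap_local2 e he x₀
  obtain ⟨C2, hC2, r3, hr3, c1, c2⟩ := hatMap_local2 h hh x₀
  rw [← hφ, ← hp₀] at a1 a2 a3 b1 b2 c1 c2
  set r := min r1 (min r2 r3) with hr
  have hr0 : 0 < r := lt_min hr1 (lt_min hr2 hr3)
  have hs1 : Metric.ball p₀ r ⊆ Metric.ball p₀ r1 := Metric.ball_subset_ball (min_le_left _ _)
  have hs2 : Metric.ball p₀ r ⊆ Metric.ball p₀ r2 :=
    Metric.ball_subset_ball ((min_le_right _ _).trans (min_le_left _ _))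
  have hs3 : Metric.ball p₀ r ⊆ Metric.ball p₀ r3 :=
    Metric.ball_subset_ball ((min_le_right _ _).trans (min_le_right _ _))
  have hη'3 : 1 / (4 * κ) * (4 * κ) = 1 := by field_simp
  have low : ∀ p ∈ Metric.ball p₀ r, ∀ w : E₀,
      ‖w‖ ≤ 2 * κ * ‖fderiv ℝ (hatMap e x₀) p w‖ := by
    intro p hp w
    have h1 := a2 p (hs1 hp)
    have h2 := hLlow w
    have h3 : ‖L w‖ ≤ ‖fderiv ℝ (hatMap e x₀) p w‖ + 1 / (4 * κ) * ‖w‖ := by
      have e1 : L w = fderiv ℝ (hatMap e x₀) p w - (fderiv ℝ (hatMap e x₀) p - L) w := by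
        simp only [sub_apply]; abel
      rw [e1]
      refine (norm_sub_le _ _).trans (add_le_add_right ?_ _)
      exact (ContinuousLinearMap.le_opNorm _ _).trans
        (mul_le_mul_of_nonneg_right h1 (norm_nonneg _))
    have h4 : κ * ‖L w‖ ≤ κ * (‖fderiv ℝ (hatMap e x₀) p w‖ + 1 / (4 * κ) * ‖w‖) :=
      mul_le_mul_of_nonneg_left h3 hκ0.le
    have h5 : 1 / (4 * κ) * (4 * κ) * ‖w‖ = 1 * ‖w‖ := by rw [hη'3]
    nlinarith [norm_nonneg w, norm_nonneg (fderiv ℝ (hatMap e x₀) p w)]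
  have hlen : ∀ p ∈ Metric.ball p₀ r, ∀ q ∈ Metric.ball p₀ r,
      ‖q - p‖ ≤ 4 * κ * ‖hatMap e x₀ q - hatMap e x₀ p‖ := by
    intro p hp q hq
    have h1 := a3 p (hs1 hp) q (hs1 hq)
    have h2 := low p hp (q - p)
    have h3 := norm_sub_le (hatMap e x₀ q - hatMap e x₀ p)
      (hatMap e x₀ q - hatMap e x₀ p - fderiv ℝ (hatMap e x₀) p (q - p))
    rw [sub_sub_cancel] at h3
    have h4 : 2 * κ * ‖fderiv ℝ (hatMap e x₀) p (q - p)‖ ≤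
        2 * κ * (‖hatMap e x₀ q - hatMap e x₀ p‖ + 1 / (4 * κ) * ‖q - p‖) :=
      mul_le_mul_of_nonneg_left (by linarith) (by positivity)
    have h5 : 1 / (4 * κ) * (4 * κ) * ‖q - p‖ = 1 * ‖q - p‖ := by rw [hη'3]
    nlinarith [norm_nonneg (q - p)]
  have hpull : φ.source ∩ φ ⁻¹' Metric.ball p₀ r ∈ 𝓝 x₀ := by
    have h1 : ContinuousAt φ x₀ := continuousAt_extChartAt x₀
    exact inter_mem ((isOpen_extChartAt_source (I := 𝓘(ℝ, E₀)) x₀).mem_nhds hx₀)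
      (h1.preimage_mem_nhds (Metric.ball_mem_nhds _ hr0))
  refine ⟨(C1 + C2) * (4 * κ) ^ 2, by positivity, _, hpull, ?_, ?_⟩
  · rintro x ⟨hxs, hxb⟩ y ⟨hys, hyb⟩
    have hxb' : φ x ∈ Metric.ball p₀ r := hxb
    have hyb' : φ y ∈ Metric.ball p₀ r := hyb
    obtain ⟨A, hA⟩ := isInvertible_mfderiv_extChartAt (I := 𝓘(ℝ, E₀)) hxs
    have hAv : dm E₀ φ x (A.symm (φ y - φ x)) = φ y - φ x := by
      show mfderiv 𝓘(ℝ, E₀) 𝓘(ℝ, E₀) φ x (A.symm (φ y - φ x)) = φ y - φ x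
      rw [← hA]; exact A.apply_symm_apply (φ y - φ x)
    have ex : e x = hatMap e x₀ (φ x) := by
      show e x = e (φ.symm (φ x)); rw [φ.left_inv hxs]
    have ey : e y = hatMap e x₀ (φ y) := by
      show e y = e (φ.symm (φ y)); rw [φ.left_inv hys]
    have hx' : h x = hatMap h x₀ (φ x) := by
      show h x = h (φ.symm (φ x)); rw [φ.left_inv hxs]
    have hy' : h y = hatMap h x₀ (φ y) := by
      show h y = h (φ.symm (φ y)); rw [φ.left_inv hys]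
    have h2 := hlen _ hxb' _ hyb'
    have h2' : ‖φ y - φ x‖ ^ 2 ≤ (4 * κ) ^ 2 * ‖hatMap e x₀ (φ y) - hatMap e x₀ (φ x)‖ ^ 2 := by
      rw [← mul_pow]
      exact pow_le_pow_left₀ (norm_nonneg _) h2 2
    refine ⟨A.symm (φ y - φ x), ?_, ?_⟩
    · have hv1 := hatMap_mfderiv e he1 x₀ x hxs (A.symm (φ y - φ x))
      rw [hv1, ← hφ, hAv, ex, ey]
      refine (b2 _ (hs2 hxb') _ (hs2 hyb')).trans ?_
      calc C1 * ‖φ y - φ x‖ ^ 2 ≤ (C1 + C2) * ‖φ y - φ x‖ ^ 2 :=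
            mul_le_mul_of_nonneg_right (by linarith) (by positivity)
        _ ≤ (C1 + C2) * ((4 * κ) ^ 2 * ‖hatMap e x₀ (φ y) - hatMap e x₀ (φ x)‖ ^ 2) :=
            mul_le_mul_of_nonneg_left h2' (by positivity)
        _ = _ := by ring
    · have hv1 := hatMap_mfderiv h hh1 x₀ x hxs (A.symm (φ y - φ x))
      rw [hv1, ← hφ, hAv, ex, ey, hx', hy']
      refine (c2 _ (hs3 hxb') _ (hs3 hyb')).trans ?_
      calc C2 * ‖φ y - φ x‖ ^ 2 ≤ (C1 + C2) * ‖φ y - φ x‖ ^ 2 :=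
            mul_le_mul_of_nonneg_right (by linarith) (by positivity)
        _ ≤ (C1 + C2) * ((4 * κ) ^ 2 * ‖hatMap e x₀ (φ y) - hatMap e x₀ (φ x)‖ ^ 2) :=
            mul_le_mul_of_nonneg_left h2' (by positivity)
        _ = _ := by ring
  · rintro x ⟨hxs, hxb⟩ y ⟨hys, hyb⟩ v
    have hxb' : φ x ∈ Metric.ball p₀ r := hxb
    have hyb' : φ y ∈ Metric.ball p₀ r := hyb
    obtain ⟨A, hA⟩ := isInvertible_mfderiv_extChartAt (I := 𝓘(ℝ, E₀)) hys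
    set w : E₀ := dm E₀ φ x v with hw
    have hAv : dm E₀ φ y (A.symm w) = w := by
      show mfderiv 𝓘(ℝ, E₀) 𝓘(ℝ, E₀) φ y (A.symm w) = w
      rw [← hA]; exact A.apply_symm_apply w
    refine ⟨A.symm w, ?_⟩
    have ex : e x = hatMap e x₀ (φ x) := by
      show e x = e (φ.symm (φ x)); rw [φ.left_inv hxs]
    have ey : e y = hatMap e x₀ (φ y) := by
      show e y = e (φ.symm (φ y)); rw [φ.left_inv hys]
    have a1' := hatMap_mfderiv e he1 x₀ x hxs v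
    have a2' := hatMap_mfderiv e he1 x₀ y hys (A.symm w)
    have b1' := hatMap_mfderiv h hh1 x₀ x hxs v
    have b2' := hatMap_mfderiv h hh1 x₀ y hys (A.symm w)
    rw [← hφ] at a1' a2' b1' b2'
    rw [hAv] at a2' b2'
    rw [a1', a2', b1', b2', ← hw, ex, ey]
    have h1 := low _ hxb' w
    have h2 := hlen _ hxb' _ hyb'
    have h3 : ‖φ y - φ x‖ * ‖w‖ ≤ (4 * κ * ‖hatMap e x₀ (φ y) - hatMap e x₀ (φ x)‖) *
        (4 * κ * ‖fderiv ℝ (hatMap e x₀) (φ x) w‖) := by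
      apply mul_le_mul h2 _ (norm_nonneg _) (by positivity)
      refine h1.trans ?_
      apply mul_le_mul_of_nonneg_right _ (norm_nonneg _)
      linarith
    constructor
    · rw [← sub_apply]
      refine (ContinuousLinearMap.le_opNorm _ _).trans ?_
      have h4 := b1 _ (hs2 hxb') _ (hs2 hyb')
      calc ‖fderiv ℝ (hatMap e x₀) (φ x) - fderiv ℝ (hatMap e x₀) (φ y)‖ * ‖w‖
          ≤ (C1 * ‖φ y - φ x‖) * ‖w‖ := mul_le_mul_of_nonneg_right h4 (norm_nonneg _)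
        _ = C1 * (‖φ y - φ x‖ * ‖w‖) := by ring
        _ ≤ (C1 + C2) * (‖φ y - φ x‖ * ‖w‖) :=
            mul_le_mul_of_nonneg_right (by linarith) (by positivity)
        _ ≤ (C1 + C2) * ((4 * κ * ‖hatMap e x₀ (φ y) - hatMap e x₀ (φ x)‖) *
        (4 * κ * ‖fderiv ℝ (hatMap e x₀) (φ x) w‖)) :=
            mul_le_mul_of_nonneg_left h3 (by positivity)
        _ = _ := by ring
    · rw [← sub_apply]
      refine (ContinuousLinearMap.le_opNorm _ _).trans ?_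
      have h4 := c1 _ (hs3 hxb') _ (hs3 hyb')
      calc ‖fderiv ℝ (hatMap h x₀) (φ x) - fderiv ℝ (hatMap h x₀) (φ y)‖ * ‖w‖
          ≤ (C2 * ‖φ y - φ x‖) * ‖w‖ := mul_le_mul_of_nonneg_right h4 (norm_nonneg _)
        _ = C2 * (‖φ y - φ x‖ * ‖w‖) := by ring
        _ ≤ (C1 + C2) * (‖φ y - φ x‖ * ‖w‖) :=
            mul_le_mul_of_nonneg_right (by linarith) (by positivity)
        _ ≤ (C1 + C2) * ((4 * κ * ‖hatMap e x₀ (φ y) - hatMap e x₀ (φ x)‖) *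
        (4 * κ * ‖fderiv ℝ (hatMap e x₀) (φ x) w‖)) :=
            mul_le_mul_of_nonneg_left h3 (by positivity)
        _ = _ := by ring

end Pool.Agent.H779R2.An
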