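import Pool.Agent.H779R2.An.DefsB
import Pool.Agent.H779R2.An.Basic
import Pool.Agent.H779R2.An.Local2

set_option autoImplicit false
set_option linter.unusedSectionVars false

open scoped Manifold ContDiff Topology Bundle
open Set Filter Bundle

namespace Pool.Agent.H779R2.An

open Pool.Agent.H721R2

variable {E₀ : Type*} [NormedAddCommGroup E₀] [NormedSpace ℝ E₀] [FiniteDimensional ℝ E₀]
  {M : Type*} [MetricSpace M] [CompactSpace M] [ChartedSpace E₀ M] [IsManifold 𝓘(ℝ, E₀) ∞ M]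
  {F : Type*} [NormedAddCommGroup F] [NormedSpace ℝ F]

/-- second order facts for one map, with constant `C` -/
def Stmt2 (E₀ : Type*) [NormedAddCommGroup E₀] [NormedSpace ℝ E₀]
    {M : Type*} [TopologicalSpace M] [ChartedSpace E₀ M]
    {F : Type*} [NormedAddCommGroup F] [NormedSpace ℝ F] (e : M → F) (G : M → M) (C : ℝ)
    (x y : M) : Prop :=
  (∃ v : E₀, ‖e y - e x - dm E₀ e x v‖ ≤ C * ‖e y - e x‖ ^ 2 ∧
    ‖e (G y) - e (G x) - dm E₀ e (G x) (dg E₀ G x v)‖ ≤ C * ‖e y - e x‖ ^ 2) ∧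
  (∀ v : E₀, ∃ w : E₀, ‖dm E₀ e x v - dm E₀ e y w‖ ≤ C * ‖e y - e x‖ * ‖dm E₀ e x v‖ ∧
    ‖dm E₀ e (G x) (dg E₀ G x v) - dm E₀ e (G y) (dg E₀ G y w)‖ ≤
      C * ‖e y - e x‖ * ‖dm E₀ e x v‖)

theorem Stmt2.mono {e : M → F} {G : M → M} {C C' : ℝ} {x y : M} (h : Stmt2 E₀ e G C x y)
    (hC : C ≤ C') : Stmt2 E₀ e G C' x y := by
  obtain ⟨⟨v, h1, h2⟩, h3⟩ := h
  refine ⟨⟨v, h1.trans ?_, h2.trans ?_⟩, fun v => ?_⟩
  · exact mul_le_mul_of_nonneg_right hC (by positivity)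
  · exact mul_le_mul_of_nonneg_right hC (by positivity)
  · obtain ⟨w, h4, h5⟩ := h3 v
    refine ⟨w, h4.trans ?_, h5.trans ?_⟩
    · exact mul_le_mul_of_nonneg_right (mul_le_mul_of_nonneg_right hC (by positivity))
        (by positivity)
    · exact mul_le_mul_of_nonneg_right (mul_le_mul_of_nonneg_right hC (by positivity))
        (by positivity)

theorem glob2 {e : M → F} (he : ContMDiff 𝓘(ℝ, E₀) 𝓘(ℝ, F) 2 e)
    (hinj : ∀ x, Function.Injective (dm E₀ e x)) (G : M → M)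
    (hG : ContMDiff 𝓘(ℝ, E₀) 𝓘(ℝ, E₀) 2 G) :
    ∃ c > 0, ∀ x y, dist x y < c → Stmt2 E₀ e G (1 / c) x y := by
  have he1 : ContMDiff 𝓘(ℝ, E₀) 𝓘(ℝ, F) 1 e := he.of_le (by norm_num)
  have hG1 : ContMDiff 𝓘(ℝ, E₀) 𝓘(ℝ, E₀) 1 G := hG.of_le (by norm_num)
  apply exists_uniform_small (fun c x => ∀ y, dist x y < c → Stmt2 E₀ e G (1 / c) x y)
  · intro C C' x hCC' h y hy
    have hC' : 0 < C' := lt_of_le_of_lt dist_nonneg hy
    exact (h y (lt_of_lt_of_le hy hCC')).mono (one_div_le_one_div_of_le hC' hCC')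
  · intro x₀
    obtain ⟨C, hC, W, hW, h1, h2⟩ := local_all2 e he hinj (e ∘ G) (he.comp hG) x₀
    obtain ⟨ρ, hρ, hρW⟩ := Metric.mem_nhds_iff.mp hW
    refine ⟨min (ρ / 2) (1 / C), lt_min (by positivity) (by positivity), ?_⟩
    filter_upwards [Metric.ball_mem_nhds x₀ (half_pos hρ)] with x hx y hy
    rw [Metric.mem_ball] at hx
    have hxW : x ∈ W := hρW (Metric.mem_ball.mpr (by linarith))
    have hy1 : dist x y < ρ / 2 := lt_of_lt_of_le hy (min_le_left _ _)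
    have hyW : y ∈ W := hρW (Metric.mem_ball.mpr (by
      have := dist_triangle y x x₀
      rw [dist_comm y x] at this
      linarith))
    have hCc : C ≤ 1 / min (ρ / 2) (1 / C) := by
      rw [le_div_iff₀ (lt_min (by positivity) (by positivity))]
      have h3 : min (ρ / 2) (1 / C) ≤ 1 / C := min_le_right _ _
      have h4 := mul_le_mul_of_nonneg_left h3 hC.le
      have h5 : C * (1 / C) = 1 := by field_simp
      linarith
    refine Stmt2.mono ?_ hCc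
    constructor
    · obtain ⟨v, h3, h4⟩ := h1 x hxW y hyW
      rw [dm_comp e he1 _ hG1] at h4
      exact ⟨v, h3, h4⟩
    · intro v
      obtain ⟨w, h3, h4⟩ := h2 x hxW y hyW v
      rw [dm_comp e he1 _ hG1, dm_comp e he1 _ hG1] at h4
      exact ⟨w, h3, h4⟩

theorem iter_smooth2 (f : M → M) (hf : ContMDiff 𝓘(ℝ, E₀) 𝓘(ℝ, E₀) 2 f) (n : ℕ) :
    ContMDiff 𝓘(ℝ, E₀) 𝓘(ℝ, E₀) 2 (f^[n]) := by
  induction n with
  | zero => exact contMDiff_id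
  | succ n ih => exact ih.comp hf

/-- G2 -/
theorem quad_of_realizes {e : M → F} (hiso : ∀ x y, dist x y = ‖e x - e y‖)
    (he : ContMDiff 𝓘(ℝ, E₀) 𝓘(ℝ, F) 2 e) (hinj : ∀ x, Function.Injective (dm E₀ e x))
    {f : M ≃ₜ M} {Es Eu : M → Submodule ℝ E₀} {C a b Ls Lu : ℝ}
    (h : EAnosov e f Es Eu C a b Ls Lu) (hf : ContMDiff 𝓘(ℝ, E₀) 𝓘(ℝ, E₀) 2 f)
    (hf' : ContMDiff 𝓘(ℝ, E₀) 𝓘(ℝ, E₀) 2 f.symm) {S : HypSys M F} {N : ℕ}
    (hS : Realizes S e f Es Eu N) : ∃ Q r, Quad S Q r := by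
  have hdist : ∀ x y, ‖e y - e x‖ = dist x y := fun x y => by rw [hiso, norm_sub_rev]
  obtain ⟨c, hc, h1⟩ := glob2 he hinj (f^[N]) (iter_smooth2 f hf N)
  obtain ⟨c', hc', h1'⟩ := glob2 he hinj (f.symm^[N]) (iter_smooth2 f.symm hf' N)
  set r := min c c' with hr
  have hr0 : 0 < r := lt_min hc hc'
  have k1 : ∀ x y, dist x y < r → Stmt2 E₀ e (f^[N]) (1 / r) x y := fun x y hxy =>
    (h1 x y (lt_of_lt_of_le hxy (min_le_left _ _))).mono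
      (one_div_le_one_div_of_le hr0 (min_le_left _ _))
  have k2 : ∀ x y, dist x y < r → Stmt2 E₀ e (f.symm^[N]) (1 / r) x y := fun x y hxy =>
    (h1' x y (lt_of_lt_of_le hxy (min_le_right _ _))).mono
      (one_div_le_one_div_of_le hr0 (min_le_right _ _))
  have hg : ∀ x, S.g x = f^[N] x := fun x => by rw [hS.g_eq]; rfl
  have hg' : ∀ x, S.g.symm x = f.symm^[N] x := fun x => by rw [hS.g_eq]; rfl
  have hVs : ∀ x w, w ∈ S.Vs x ↔ ∃ v ∈ Es x, dm E₀ e x v = w := fun x w => by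
    rw [hS.Vs_eq]; rfl
  have hVu : ∀ x w, w ∈ S.Vu x ↔ ∃ v ∈ Eu x, dm E₀ e x v = w := fun x w => by
    rw [hS.Vu_eq]; rfl
  refine ⟨1 / r, r, by positivity, hr0, ?_, ?_, ?_, ?_⟩
  · intro x y hxy
    obtain ⟨⟨v, h3, h4⟩, -⟩ := k1 x y hxy
    obtain ⟨s, hs, u, hu, hsu⟩ := h.decomp x v
    refine ⟨dm E₀ e x s, (hVs _ _).2 ⟨s, hs, rfl⟩, dm E₀ e x u, (hVu _ _).2 ⟨u, hu, rfl⟩, ?_, ?_⟩
    · rw [← map_add, hsu, hS.e_eq, ← hdist]; exact h3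
    · rw [← map_add, hsu, hS.e_eq, hS.D_eq, hg, hg, ← hdist]; exact h4
  · intro x y hxy
    obtain ⟨⟨v, h3, h4⟩, -⟩ := k2 x y hxy
    obtain ⟨s, hs, u, hu, hsu⟩ := h.decomp x v
    refine ⟨dm E₀ e x s, (hVs _ _).2 ⟨s, hs, rfl⟩, dm E₀ e x u, (hVu _ _).2 ⟨u, hu, rfl⟩, ?_, ?_⟩
    · rw [← map_add, hsu, hS.e_eq, ← hdist]; exact h3
    · rw [← map_add, hsu, hS.e_eq, hS.D'_eq, hg', hg', ← hdist]; exact h4
  · intro x y hxy s' hs' u' hu'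
    obtain ⟨s, hs, rfl⟩ := (hVs _ _).1 hs'
    obtain ⟨u, hu, rfl⟩ := (hVu _ _).1 hu'
    obtain ⟨-, h3⟩ := k1 x y hxy
    obtain ⟨w, h4, h5⟩ := h3 (s + u)
    obtain ⟨s2, hs2, u2, hu2, hsu⟩ := h.decomp y w
    refine ⟨dm E₀ e y s2, (hVs _ _).2 ⟨s2, hs2, rfl⟩, dm E₀ e y u2, (hVu _ _).2 ⟨u2, hu2, rfl⟩,
      ?_, ?_⟩
    · rw [← map_add, ← map_add, hsu, ← hdist]; exact h4
    · rw [← map_add, ← map_add, hsu, hS.D_eq, hS.D_eq, ← hdist]; exact h5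
  · intro x y hxy s' hs' u' hu'
    obtain ⟨s, hs, rfl⟩ := (hVs _ _).1 hs'
    obtain ⟨u, hu, rfl⟩ := (hVu _ _).1 hu'
    obtain ⟨-, h3⟩ := k2 x y hxy
    obtain ⟨w, h4, h5⟩ := h3 (s + u)
    obtain ⟨s2, hs2, u2, hu2, hsu⟩ := h.decomp y w
    refine ⟨dm E₀ e y s2, (hVs _ _).2 ⟨s2, hs2, rfl⟩, dm E₀ e y u2, (hVu _ _).2 ⟨u2, hu2, rfl⟩,
      ?_, ?_⟩
    · rw [← map_add, ← map_add, hsu, ← hdist]; exact h4
    · rw [← map_add, ← map_add, hsu, hS.D'_eq, hS.D'_eq, ← hdist]; exact h5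

end Pool.Agent.H779R2.An
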