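import Pool.Agent.H779R2.An.Basic

set_option autoImplicit false

namespace Pool.Agent.H779R2.An

open Pool.Agent.H721R2 Filter Topology MeasureTheory
open scoped BigOperators

variable {X E : Type*} [MetricSpace X] [CompactSpace X] [NormedAddCommGroup E]
  [InnerProductSpace ℝ E] [FiniteDimensional ℝ E]

/-- The statement of `cells` for the inverse system. -/
theorem cells_aux {T : HypSys X E} (F : Flat T) (B : UV T) (d : ℕ)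
    (hd : ∀ x, Module.finrank ℝ (T.Vu x) = d) :
    ∀ ε > 0, ∃ κ > 0, ∀ ρ > 0, ∃ ρ₁ > 0, ρ₁ ≤ 1 ∧ ∃ ρ' > 0, ∀ (x : X) (k : ℕ),
    ∃ (ψ : EuclideanSpace ℝ (Fin d) → X) (rad : EuclideanSpace ℝ (Fin d) → ℝ) (r₀ : ℝ),
      0 < r₀ ∧
      (∀ a, ‖a‖ ≤ ρ₁ → T.URel ρ x (ψ a) ∧ r₀ ≤ rad a ∧ rad a ≤ 1) ∧
      (∀ a a', ‖a‖ ≤ ρ₁ → ‖a'‖ ≤ ρ₁ → dist (ψ a) (ψ a') ≤ 8 * ‖a - a'‖) ∧
      ψ 0 = x ∧
      (∀ x', T.URel ρ' x x' → ∃ b, ‖b‖ ≤ ρ₁ / 4 ∧ ψ b = x') ∧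
      (∀ a a', ‖a‖ ≤ ρ₁ → ‖a'‖ ≤ ρ₁ → ‖a - a'‖ ≤ rad a →
        T.URel ε (T.g^[k] (ψ a)) (T.g^[k] (ψ a'))) ∧
      (∀ a a', ‖a‖ ≤ ρ₁ → ‖a'‖ ≤ ρ₁ → rad a / 5 < ‖a - a'‖ →
        ¬ T.URel κ (T.g^[k] (ψ a)) (T.g^[k] (ψ a'))) := by
  intro ε hε
  obtain ⟨ρε, hρε, hsmall⟩ := F.small ε hε
  have hε₀ := F.geo.pos
  set ε₀ := F.ε₀ with hε₀def
  -- the distortion constant
  obtain ⟨K, hK1, hK⟩ : ∃ K : ℝ, 1 ≤ K ∧ QC T K := by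
    refine ⟨max F.K 1, le_max_right _ _, fun n x v hv w hw => ?_⟩
    exact (F.qc n x v hv w hw).trans (mul_le_mul_of_nonneg_right (le_max_left _ _) (by positivity))
  have hK0 : 0 < K := by linarith
  set κ₁ := min 1 (ρε / (2 * K)) with hκ₁
  have hκ₁0 : 0 < κ₁ := lt_min one_pos (by positivity)
  have hκ₁1 : κ₁ ≤ 1 := min_le_left _ _
  have hκ₁2 : 2 * K * κ₁ ≤ ρε := by
    have h := min_le_right (1 : ℝ) (ρε / (2 * K))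
    rw [le_div_iff₀ (by positivity)] at h
    linarith
  refine ⟨min ε₀ (κ₁ / (40 * K)), lt_min hε₀ (by positivity), fun ρ hρ => ?_⟩
  obtain ⟨ρ₁', hρ₁', hsurj⟩ := F.surj (min ρ (ε₀ / 2)) (lt_min hρ (by positivity))
  set ρ₁ := min ρ₁' 1 with hρ₁
  have hρ₁0 : 0 < ρ₁ := lt_min hρ₁' one_pos
  have hρ₁1 : ρ₁ ≤ 1 := min_le_right _ _
  have hρ₁2 : ρ₁ ≤ ρ₁' := min_le_left _ _
  refine ⟨ρ₁, hρ₁0, hρ₁1, min ε₀ (ρ₁ / 8), lt_min hε₀ (by positivity), fun x k => ?_⟩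
  -- a linear isometry onto the unstable space
  obtain ⟨A, hA1, hA2⟩ : ∃ A : EuclideanSpace ℝ (Fin d) →ₗᵢ[ℝ] E,
      (∀ ζ, A ζ ∈ T.Vu x) ∧ ∀ v ∈ T.Vu x, ∃ ζ, A ζ = v := by
    let b := (stdOrthonormalBasis ℝ (T.Vu x)).reindex (finCongr (hd x))
    refine ⟨(T.Vu x).subtypeₗᵢ.comp b.repr.symm.toLinearIsometry, fun ζ => ?_, fun v hv => ?_⟩
    · exact (b.repr.symm ζ).2
    · refine ⟨b.repr ⟨v, hv⟩, ?_⟩
      change ((b.repr.symm (b.repr ⟨v, hv⟩) : T.Vu x) : E) = v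
      rw [LinearIsometryEquiv.symm_apply_apply]
  -- the parametrisation
  have hex : ∀ a : EuclideanSpace ℝ (Fin d), ∃ y : X, ‖a‖ ≤ ρ₁ →
      T.URel (min ρ (ε₀ / 2)) x y ∧ F.Lc x y = A a := by
    intro a
    by_cases ha : ‖a‖ ≤ ρ₁
    · obtain ⟨y, h1, h2⟩ := hsurj x (A a) (hA1 a) (by rw [A.norm_map]; exact ha.trans hρ₁2)
      exact ⟨y, fun _ => ⟨h1, h2⟩⟩
    · exact ⟨x, fun h => absurd h ha⟩
  choose ψ hψ using hex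
  have hψρ : ∀ a, ‖a‖ ≤ ρ₁ → T.URel ρ x (ψ a) := fun a ha =>
    (hψ a ha).1.mono (min_le_left _ _)
  have hψε : ∀ a, ‖a‖ ≤ ρ₁ → T.URel (ε₀ / 2) x (ψ a) := fun a ha =>
    (hψ a ha).1.mono (min_le_right _ _)
  have hψε' : ∀ a, ‖a‖ ≤ ρ₁ → T.URel ε₀ x (ψ a) := fun a ha =>
    (hψε a ha).mono (by linarith)
  have hψU : ∀ a, ‖a‖ ≤ ρ₁ → UAsym T x (ψ a) := fun a ha => F.geo.uasym _ _ (hψε' a ha)
  have hψL : ∀ a, ‖a‖ ≤ ρ₁ → F.Lc x (ψ a) = A a := fun a ha => (hψ a ha).2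
  have hpair : ∀ a a', ‖a‖ ≤ ρ₁ → ‖a'‖ ≤ ρ₁ → T.URel ε₀ (ψ a) (ψ a') := by
    intro a a' ha ha'
    have h := (hψε a ha).symm.trans (hψε a' ha')
    rwa [add_halves] at h
  have hbase : ∀ a a', ‖a‖ ≤ ρ₁ → ‖a'‖ ≤ ρ₁ →
      F.Lc (ψ a) (ψ a') = F.τ x (ψ a) (A (a' - a)) := by
    intro a a' ha ha'
    rw [F.base x (ψ a) (ψ a') (hψU a ha) (hψU a' ha'), hψL a ha, hψL a' ha', A.map_sub]
  have hup : ∀ a a', ‖a‖ ≤ ρ₁ → ‖a'‖ ≤ ρ₁ → ‖F.Lc (ψ a) (ψ a')‖ ≤ 2 * ‖a - a'‖ := by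
    intro a a' ha ha'
    rw [hbase a a' ha ha']
    refine (F.τ_le x (ψ a) (hψε' a ha) _ (hA1 _)).trans ?_
    rw [A.norm_map, norm_sub_rev]
  have hlow : ∀ a a', ‖a‖ ≤ ρ₁ → ‖a'‖ ≤ ρ₁ → ‖a - a'‖ ≤ 2 * ‖F.Lc (ψ a) (ψ a')‖ := by
    intro a a' ha ha'
    rw [hbase a a' ha ha']
    have h := F.le_τ x (ψ a) (hψε' a ha) _ (hA1 (a' - a))
    rw [A.norm_map, norm_sub_rev] at h
    exact h
  have hLmem : ∀ a a', ‖a‖ ≤ ρ₁ → ‖a'‖ ≤ ρ₁ → F.Lc (ψ a) (ψ a') ∈ T.Vu (ψ a) :=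
    fun a a' ha ha' => F.Lc_mem _ _ (F.geo.uasym _ _ (hpair a a' ha ha'))
  have hit : ∀ a a', ‖a‖ ≤ ρ₁ → ‖a'‖ ≤ ρ₁ →
      F.Lc (T.g^[k] (ψ a)) (T.g^[k] (ψ a')) = Dn T k (ψ a) (F.Lc (ψ a) (ψ a')) :=
    fun a a' ha ha' => F.Lc_iter (F.geo.uasym _ _ (hpair a a' ha ha')) k
  -- the size at level k
  let σ : EuclideanSpace ℝ (Fin d) → ℝ := fun a => ‖Dn T k (ψ a) (B.b (ψ a))‖
  have hσ1 : ∀ a, 1 ≤ σ a := by
    intro a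
    have h := le_Dn T k (ψ a) (B.mem (ψ a))
    rw [B.norm, mul_one] at h
    exact (one_le_pow₀ (by norm_num)).trans h
  have hσ2 : ∀ a, σ a ≤ T.Lu ^ k := by
    intro a
    have h := Dn_le T k (ψ a) (B.mem (ψ a))
    rwa [B.norm, mul_one] at h
  have hLu : 0 < T.Lu ^ k := by
    have := T.one_le_Lu
    positivity
  have hDup : ∀ a, ∀ v ∈ T.Vu (ψ a), ‖Dn T k (ψ a) v‖ ≤ K * (σ a * ‖v‖) := by
    intro a v hv
    have h := hK k (ψ a) v hv (B.b (ψ a)) (B.mem _)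
    rwa [B.norm, mul_one] at h
  have hDlow : ∀ a, ∀ v ∈ T.Vu (ψ a), σ a * ‖v‖ ≤ K * ‖Dn T k (ψ a) v‖ := by
    intro a v hv
    have h := hK k (ψ a) (B.b (ψ a)) (B.mem _) v hv
    rwa [B.norm, mul_one] at h
  refine ⟨ψ, fun a => κ₁ / σ a, κ₁ / T.Lu ^ k, by positivity, ?_, ?_, ?_, ?_, ?_, ?_⟩
  · intro a ha
    have h1 := hσ1 a
    have h2 := hσ2 a
    refine ⟨hψρ a ha, ?_, ?_⟩
    · exact div_le_div_of_nonneg_left hκ₁0.le (by linarith) h2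
    · rw [div_le_one (by linarith)]
      linarith
  · intro a a' ha ha'
    have h1 := F.dist_le _ _ (hpair a a' ha ha')
    have h2 := hup a a' ha ha'
    have h3 := norm_nonneg (a - a')
    linarith
  · have h0 : ‖(0 : EuclideanSpace ℝ (Fin d))‖ ≤ ρ₁ := by
      rw [norm_zero]; exact hρ₁0.le
    refine F.inj x _ _ (hψU 0 h0) (UAsym.refl T x) ?_
    rw [hψL 0 h0, F.Lc_self, map_zero]
  · intro x' hx'
    have h1 : T.URel ε₀ x x' := hx'.mono (min_le_left _ _)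
    have h2 := F.geo.uasym _ _ h1
    obtain ⟨b, hb⟩ := hA2 _ (F.Lc_mem _ _ h2)
    have h3 : ‖b‖ ≤ ρ₁ / 4 := by
      have h4 := F.Lc_le _ _ h1
      rw [← hb, A.norm_map] at h4
      have h5 : dist x x' ≤ ρ₁ / 8 := hx'.dist_le.trans (min_le_right _ _)
      linarith
    have h4 : ‖b‖ ≤ ρ₁ := by linarith
    refine ⟨b, h3, ?_⟩
    refine F.inj x _ _ (hψU b h4) h2 ?_
    rw [hψL b h4, hb]
  · intro a a' ha ha' haa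
    have h1 := hσ1 a
    have h0 : 0 < σ a := by linarith
    apply hsmall _ _ ((F.geo.uasym _ _ (hpair a a' ha ha')).iter k)
    rw [hit a a' ha ha']
    have h2 := hDup a _ (hLmem a a' ha ha')
    have h3 := hup a a' ha ha'
    have h4 : σ a * ‖F.Lc (ψ a) (ψ a')‖ ≤ σ a * (2 * (κ₁ / σ a)) :=
      mul_le_mul_of_nonneg_left (by linarith) h0.le
    have h5 : σ a * (2 * (κ₁ / σ a)) = 2 * κ₁ := by
      field_simp
    rw [h5] at h4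
    have h6 : K * (σ a * ‖F.Lc (ψ a) (ψ a')‖) ≤ K * (2 * κ₁) :=
      mul_le_mul_of_nonneg_left h4 hK0.le
    linarith
  · intro a a' ha ha' haa hrel
    have h1 := hσ1 a
    have h0 : 0 < σ a := by linarith
    have h2 := F.Lc_le _ _ (hrel.mono (min_le_left _ _))
    rw [hit a a' ha ha'] at h2
    have h3 : dist (T.g^[k] (ψ a)) (T.g^[k] (ψ a')) ≤ κ₁ / (40 * K) :=
      hrel.dist_le.trans (min_le_right _ _)
    have h4 := hDlow a _ (hLmem a a' ha ha')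
    have h5 := hlow a a' ha ha'
    have h6 : K * ‖Dn T k (ψ a) (F.Lc (ψ a) (ψ a'))‖ ≤ K * (2 * (κ₁ / (40 * K))) :=
      mul_le_mul_of_nonneg_left (by linarith) hK0.le
    have h7 : K * (2 * (κ₁ / (40 * K))) = κ₁ / 20 := by
      field_simp
      norm_num
    have h8 : σ a * (κ₁ / σ a / 5) < σ a * ‖a - a'‖ := mul_lt_mul_of_pos_left haa h0
    have h9 : σ a * (κ₁ / σ a / 5) = κ₁ / 5 := by
      field_simp
    have h10 : σ a * ‖a - a'‖ ≤ σ a * (2 * ‖F.Lc (ψ a) (ψ a')‖) :=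
      mul_le_mul_of_nonneg_left h5 h0.le
    have h11 : σ a * (2 * ‖F.Lc (ψ a) (ψ a')‖) = 2 * (σ a * ‖F.Lc (ψ a) (ψ a')‖) := by ring
    linarith

/-- T14a (apply with `F : Flat S.symm`, `B : UV S.symm`) -/
theorem cells {S : HypSys X E} (F : Flat S.symm) (B : UV S.symm) (d : ℕ)
    (hd : ∀ x, Module.finrank ℝ (S.Vs x) = d) : CellProp S d :=
  cells_aux F B d hd

end Pool.Agent.H779R2.An
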