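import Pool.Agent.H779R2.An.Defs
import Pool.Agent.H721R2.Riem

set_option autoImplicit false
set_option linter.unusedSectionVars false

open scoped Manifold ContDiff Topology Bundle
open Set Filter Bundle

namespace Pool.Agent.H779R2.An

open Pool.Agent.H721R2

section

variable {E : Type*} [NormedAddCommGroup E] [NormedSpace ℝ E]
  {M : Type*} [TopologicalSpace M] [ChartedSpace E M]

/-- `f` is uniformly quasiconformal on the invariant field of subspaces `V`: there is `K` with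
`‖Dfⁿ v‖ / ‖v‖ ≤ K ‖Dfⁿ w‖ / ‖w‖` for all `n ≥ 0` and all `v, w ∈ V x` (written without
denominators). -/
def UniformlyQC (f : M → M) (N : TangentBundle 𝓘(ℝ, E) M → ℝ)
    (V : ∀ x : M, Submodule ℝ (TangentSpace 𝓘(ℝ, E) x)) : Prop :=
  ∃ K : ℝ, ∀ (n : ℕ) (x : M), ∀ v ∈ V x, ∀ w ∈ V x,
    N (tangentMap 𝓘(ℝ, E) 𝓘(ℝ, E) (f^[n]) ⟨x, v⟩) * N ⟨x, w⟩ ≤
      K * (N (tangentMap 𝓘(ℝ, E) 𝓘(ℝ, E) (f^[n]) ⟨x, w⟩) * N ⟨x, v⟩)

/-- `J` restricts to a complex structure on the field of subspaces `V`, is continuous there, and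
commutes with `Df` on `V`. -/
structure InvComplexOn [IsManifold 𝓘(ℝ, E) 1 M] (f : M → M) (V : ∀ x : M, Submodule ℝ (TangentSpace 𝓘(ℝ, E) x))
    (J : ∀ x : M, TangentSpace 𝓘(ℝ, E) x →ₗ[ℝ] TangentSpace 𝓘(ℝ, E) x) : Prop where
  continuousOn : ContinuousOn (fun p : TangentBundle 𝓘(ℝ, E) M =>
    (⟨p.1, J p.1 p.2⟩ : TangentBundle 𝓘(ℝ, E) M)) {p | p.2 ∈ V p.1}
  mem : ∀ x, ∀ v ∈ V x, J x v ∈ V x
  sq : ∀ x, ∀ v ∈ V x, J x (J x v) = -v
  comm : ∀ x, ∀ v ∈ V x, mfderiv 𝓘(ℝ, E) 𝓘(ℝ, E) f x (J x v) =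
    J (f x) (mfderiv 𝓘(ℝ, E) 𝓘(ℝ, E) f x v)

end

section

variable {E₀ : Type*} [NormedAddCommGroup E₀] [NormedSpace ℝ E₀] [FiniteDimensional ℝ E₀]
  {M : Type*} [MetricSpace M] [CompactSpace M] [ChartedSpace E₀ M] [IsManifold 𝓘(ℝ, E₀) 1 M]
  {F : Type*} [NormedAddCommGroup F] [NormedSpace ℝ F]

/-- The abstract system `S` is the `N`-th iterate of `f`, seen in the ambient space via `e`. -/
structure Realizes (S : HypSys M F) (e : M → F) (f : M ≃ₜ M) (Es Eu : M → Submodule ℝ E₀)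
    (N : ℕ) : Prop where
  g_eq : S.g = iterHomeo f N
  e_eq : S.e = e
  Vs_eq : ∀ x, S.Vs x = (Es x).map (dm E₀ e x).toLinearMap
  Vu_eq : ∀ x, S.Vu x = (Eu x).map (dm E₀ e x).toLinearMap
  D_eq : ∀ x v, S.D x (dm E₀ e x v) = dm E₀ e (f^[N] x) (dg E₀ (f^[N]) x v)
  D'_eq : ∀ x v, S.D' x (dm E₀ e x v) = dm E₀ e (f.symm^[N] x) (dg E₀ (f.symm^[N]) x v)

theorem Realizes.symm {S : HypSys M F} {e : M → F} {f : M ≃ₜ M} {Es Eu : M → Submodule ℝ E₀}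
    {N : ℕ} (h : Realizes S e f Es Eu N) : Realizes S.symm e f.symm Eu Es N where
  g_eq := by
    change S.g.symm = iterHomeo f.symm N
    rw [h.g_eq]
    ext x
    rfl
  e_eq := h.e_eq
  Vs_eq := h.Vu_eq
  Vu_eq := h.Vs_eq
  D_eq := h.D'_eq
  D'_eq := h.D_eq

end

end Pool.Agent.H779R2.An
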