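import Pool.Agent.H779R2.An.LDeck
import Pool.Agent.H789R2.GP.ManC

set_option autoImplicit false

namespace Pool.Agent.H779R2.An

open Pool.Agent.H721R2 Filter Topology MeasureTheory
open scoped BigOperators

variable {X E : Type*} [MetricSpace X] [CompactSpace X] [NormedAddCommGroup E]
  [InnerProductSpace ℝ E] [FiniteDimensional ℝ E]

open Pool.Agent.H789R2.GP Pool.Agent.H789R2.AN

omit [CompactSpace X] in
private theorem ab_pr_base {g : X ≃ₜ X} {c' : ℝ} (T : QS g c') (p : X) :
    (Leaf.base g p).pr T = p := by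
  obtain ⟨ε, hε, ht⟩ := T.tiny
  have h1 : SR g ε p p := fun k => by rw [dist_self]; exact hε.le
  have h2 : SR g.symm ε p p := fun k => by rw [dist_self]; exact hε.le
  exact Leaf.pr_eq T (ht p p p p h1 h2 h1 h2)

/-- Deck maps commute with the monodromy. -/
private theorem ab_mono {A B : Type*} [TopologicalSpace A] [TopologicalSpace B] {π : A → B}
    (cov : IsCoveringMap π) {x : B} (β : FundamentalGroup B x) (D : C(A, A))
    (hD : ∀ w, π (D w) = π w) (e : π ⁻¹' {x}) :
    cov.monodromy β ⟨D e.1, (hD e.1).trans e.2⟩ =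
      ⟨D (cov.monodromy β e).1, (hD _).trans (cov.monodromy β e).2⟩ := by
  obtain ⟨γ⟩ := β
  apply Subtype.ext
  have h0 : ∀ t, π (cov.liftPath γ e.1 (γ.source.trans e.2.symm) t) = γ t := fun t =>
    congrFun (cov.liftPath_lifts γ e.1 (γ.source.trans e.2.symm)) t
  have h1 : D.comp (cov.liftPath γ e.1 (γ.source.trans e.2.symm)) =
      cov.liftPath γ (D e.1) (γ.source.trans ((hD e.1).trans e.2).symm) := by
    rw [cov.eq_liftPath_iff']
    refine ⟨?_, ?_⟩
    · funext t
      show π (D (cov.liftPath γ e.1 _ t)) = γ t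
      rw [hD]
      exact h0 t
    · show D (cov.liftPath γ e.1 _ 0) = D e.1
      rw [cov.liftPath_zero]
  exact (congrArg (fun f : C(unitInterval, A) => f 1) h1).symm

private theorem ab_cast {B : Type*} [TopologicalSpace B] {x y x' y' : B} (h1 : x' = x)
    (h2 : y' = y) (γ γ' : Path x y) (h : Path.Homotopic (γ.cast h1 h2) (γ'.cast h1 h2)) :
    Path.Homotopic γ γ' := by
  subst h1
  subst h2
  exact h

/-- The monodromy of a simply connected covering is injective. -/
private theorem ab_inj {A B : Type*} [TopologicalSpace A] [TopologicalSpace B] {π : A → B}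
    [SimplyConnectedSpace A] (cov : IsCoveringMap π) {x : B} (α β : FundamentalGroup B x)
    (e : π ⁻¹' {x}) (h : cov.monodromy α e = cov.monodromy β e) : α = β := by
  obtain ⟨γ⟩ := α
  obtain ⟨γ'⟩ := β
  have h' : cov.liftPath γ e.1 (γ.source.trans e.2.symm) 1 =
      cov.liftPath γ' e.1 (γ'.source.trans e.2.symm) 1 := congrArg Subtype.val h
  have h0 : ∀ t, π (cov.liftPath γ e.1 (γ.source.trans e.2.symm) t) = γ t := fun t =>
    congrFun (cov.liftPath_lifts γ e.1 (γ.source.trans e.2.symm)) t
  have h0' : ∀ t, π (cov.liftPath γ' e.1 (γ'.source.trans e.2.symm) t) = γ' t := fun t =>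
    congrFun (cov.liftPath_lifts γ' e.1 (γ'.source.trans e.2.symm)) t
  let P : Path e.1 (cov.liftPath γ e.1 (γ.source.trans e.2.symm) 1) :=
    ⟨cov.liftPath γ e.1 (γ.source.trans e.2.symm), cov.liftPath_zero _ _ _, rfl⟩
  let P' : Path e.1 (cov.liftPath γ e.1 (γ.source.trans e.2.symm) 1) :=
    ⟨cov.liftPath γ' e.1 (γ'.source.trans e.2.symm), cov.liftPath_zero _ _ _, h'.symm⟩
  have h2 : π (cov.liftPath γ e.1 (γ.source.trans e.2.symm) 1) = x := (h0 1).trans γ.target
  have hP : P.map cov.continuous = γ.cast e.2 h2 := by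
    ext t
    exact h0 t
  have hP' : P'.map cov.continuous = γ'.cast e.2 h2 := by
    ext t
    exact h0' t
  have hh : Path.Homotopic (P.map cov.continuous) (P'.map cov.continuous) :=
    (SimplyConnectedSpace.paths_homotopic P P').map ⟨π, cov.continuous⟩
  rw [hP, hP'] at hh
  exact Quotient.sound (ab_cast _ _ _ _ hh)

/-- L11: commutativity of the fundamental group from commuting deck transformations. -/
theorem pi1_comm_of_deck {E' : Type*} [NormedAddCommGroup E'] [NormedSpace ℝ E'] [ProperSpace E']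
    [ChartedSpace E' X] [PathConnectedSpace X] {g : X ≃ₜ X} {c c' : ℝ}
    (h : LP g c) (hc' : 0 < c') (T : QS g c') (p : X) (N : ℕ) (hN : 1 ≤ N) (hp : g^[N] p = p)
    (hcomm : ∀ z w y y' : Leaf g p, z.pr T = p → w.pr T = p → y.pr T = p → y'.pr T = p →
      T.Q z.s p w.u y.u → T.Q w.s p z.u y'.u → y = y') :
    ∀ x : X, ∀ α β : FundamentalGroup X x, α * β = β * α := by
  have cov : IsCoveringMap (Leaf.pr T : Leaf g p → X) := pr_isCoveringMap h hc' T p
  -- the leaf is simply connected
  have hsc : SimplyConnectedSpace (Leaf g p) := by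
    obtain ⟨ψ, hψ, -⟩ := cov.isLocalHomeomorph (Leaf.base g p)
    let Φ := ψ.trans (chartAt E' (ψ (Leaf.base g p)))
    have hΦ : Leaf.base g p ∈ Φ.source := by
      rw [OpenPartialHomeomorph.trans_source]
      exact ⟨hψ, mem_chart_source E' _⟩
    obtain ⟨e⟩ := leaf_homeo h p N hN hp Φ hΦ
    have : ContractibleSpace (Leaf g p) := e.symm.contractibleSpace
    infer_instance
  set b : (Leaf.pr T : Leaf g p → X) ⁻¹' {p} := ⟨Leaf.base g p, ab_pr_base T p⟩ with hb
  -- injectivity of the monodromy at the base point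
  have hinj : ∀ α β : FundamentalGroup X p, cov.monodromy α b = cov.monodromy β b → α = β :=
    fun α β hαβ => ab_inj cov α β b hαβ
  -- the deck transformations
  have hdeck : ∀ α β : FundamentalGroup X p,
      T.Q (cov.monodromy α b).1.s p (cov.monodromy β b).1.u
        (cov.monodromy β (cov.monodromy α b)).1.u := by
    intro α β
    obtain ⟨D, hD1, hD2, hD3⟩ := exists_deck h hc' T p (cov.monodromy α b).1
      (cov.monodromy α b).2
    have h1 := ab_mono cov β D hD1 b
    have h2 : (⟨D b.1, (hD1 b.1).trans b.2⟩ : (Leaf.pr T : Leaf g p → X) ⁻¹' {p}) =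
        cov.monodromy α b := Subtype.ext hD2
    rw [h2] at h1
    rw [h1]
    exact hD3 _
  have hmul : ∀ α β : FundamentalGroup X p,
      cov.monodromy (α * β) b = cov.monodromy α (cov.monodromy β b) := by
    intro α β
    exact cov.monodromy_trans_apply (x := p) (y := p) (z := p) β α b
  have hp1 : ∀ α β : FundamentalGroup X p, α * β = β * α := by
    intro α β
    apply hinj
    rw [hmul, hmul]
    apply Subtype.ext
    exact hcomm (cov.monodromy β b).1 (cov.monodromy α b).1 _ _ (cov.monodromy β b).2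
      (cov.monodromy α b).2 (cov.monodromy α (cov.monodromy β b)).2
      (cov.monodromy β (cov.monodromy α b)).2 (hdeck β α) (hdeck α β)
  intro x α β
  let e := FundamentalGroup.fundamentalGroupMulEquivOfPathConnected (X := X) (x₀ := x) (x₁ := p)
  apply e.injective
  rw [map_mul, map_mul, hp1]

end Pool.Agent.H779R2.An
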