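import Pool.Agent.H779R2.An.LDefs

set_option autoImplicit false

namespace Pool.Agent.H779R2.An

open Pool.Agent.H721R2 Filter Topology MeasureTheory
open scoped BigOperators

variable {X E : Type*} [MetricSpace X] [CompactSpace X] [NormedAddCommGroup E]
  [InnerProductSpace ℝ E] [FiniteDimensional ℝ E]

/-- L6 -/
theorem comm_loc {S : HypSys X E} (F : Flat S) (hL : LinProp F Set.univ) : CommLoc F := by
  obtain ⟨εL, hεL, hLin⟩ := hL
  have hε₀ : 0 < F.ε₀ := F.geo.pos
  set m : ℝ := min εL F.ε₀ / 2 with hm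
  have hm0 : 0 < m := by
    have := lt_min hεL hε₀
    positivity
  have hmL : m + m ≤ εL := by
    have := min_le_left εL F.ε₀
    rw [hm]; linarith
  have hm₀ : m + m ≤ F.ε₀ := by
    have := min_le_right εL F.ε₀
    rw [hm]; linarith
  obtain ⟨ε₃, hε₃, hcor⟩ := exists_corner S m hm0
  set ε : ℝ := min ε₃ m with hε
  have hε0 : 0 < ε := lt_min hε₃ hm0
  have hεm : ε ≤ m := min_le_right _ _
  have hεε₃ : ε ≤ ε₃ := min_le_left _ _
  refine ⟨ε, hε0, by linarith, ?_⟩
  intro a s u x has hau hux hsx v hv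
  obtain ⟨ρ, hρ, hsurj⟩ := F.surj ε hε0
  have hUau : UAsym S a u := F.geo.uasym _ _ (hau.mono (by linarith))
  have hUsx : UAsym S s x := F.geo.uasym _ _ (hsx.mono (by linarith))
  set w := F.τ a u v with hw
  have hwmem : w ∈ S.Vu u := F.τ_mem a u hUau v hv
  set t : ℝ := ρ / (‖w‖ + 1) with ht
  have hwn : 0 < ‖w‖ + 1 := by positivity
  have ht0 : 0 < t := by positivity
  have htw : ‖t • w‖ ≤ ρ := by
    rw [norm_smul, Real.norm_of_nonneg ht0.le, ht, div_mul_eq_mul_div, div_le_iff₀ hwn]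
    have := norm_nonneg w
    nlinarith
  obtain ⟨q, huq, hLuq⟩ := hsurj u (t • w) ((S.Vu u).smul_mem t hwmem) htw
  obtain ⟨q', hxq', hqq'⟩ := hcor u x q (hux.mono hεε₃) (huq.mono hεε₃)
  have haq : S.URel (ε + ε) a q := hau.trans huq
  have hsq' : S.URel (ε + m) s q' := hsx.trans hxq'
  have hUaq : UAsym S a q := F.geo.uasym _ _ (haq.mono (by linarith))
  have hUsq' : UAsym S s q' := F.geo.uasym _ _ (hsq'.mono (by linarith))
  -- three uses of linearity
  have e1 := hLin u (Set.mem_univ _) x q q' (hux.mono (by linarith)) (huq.mono (by linarith))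
    (hqq'.mono (by linarith)) (hxq'.mono (by linarith))
  have e2 := hLin a (Set.mem_univ _) s q q' (has.mono (by linarith)) (haq.mono (by linarith))
    (hqq'.mono (by linarith)) (hsq'.mono (by linarith))
  have e3 := hLin a (Set.mem_univ _) s u x (has.mono (by linarith)) (hau.mono (by linarith))
    (hux.mono (by linarith)) (hsx.mono (by linarith))
  -- base changes
  have b1 := F.base a u q hUau hUaq
  have b2 := F.base s x q' hUsx hUsq'
  have hd : F.Lc a q - F.Lc a u = t • v := by
    have hmem : F.Lc a q - F.Lc a u ∈ S.Vu a :=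
      (S.Vu a).sub_mem (F.Lc_mem a q hUaq) (F.Lc_mem a u hUau)
    have h1 := F.τ_comp a u a hUau hUau.symm _ hmem
    rw [F.τ_self a _ hmem, ← b1, hLuq, map_smul, hw,
      F.τ_comp a u a hUau hUau.symm _ hv, F.τ_self a _ hv] at h1
    exact h1.symm
  have h2 : F.τ s x (F.H a s (t • v)) = F.H u x (t • w) := by
    rw [← hd, map_sub, ← e2, ← e3, ← b2, e1, hLuq]
  rw [map_smul, map_smul, map_smul] at h2
  exact smul_right_injective E ht0.ne' h2

end Pool.Agent.H779R2.An
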