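import Pool.Agent.H779R2.An.LDefs

set_option autoImplicit false

namespace Pool.Agent.H779R2.An

open Pool.Agent.H721R2 Filter Topology MeasureTheory
open scoped BigOperators

variable {X E : Type*} [MetricSpace X] [CompactSpace X] [NormedAddCommGroup E]
  [InnerProductSpace ℝ E] [FiniteDimensional ℝ E]

omit [CompactSpace X] [FiniteDimensional ℝ E] in
theorem QdF.trans {S : HypSys X E} {F : Flat S} {a s u x s' x' : X} (h : QdF F a s u x)
    (h' : QdF F s s' x x') : QdF F a s' u x' := by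
  obtain ⟨h1, h2, h3, h4, h5, h6⟩ := h
  obtain ⟨k1, k2, k3, k4, k5, k6⟩ := h'
  refine ⟨h1.trans k1, h2, h3.trans k3, k4, ?_, ?_⟩
  · rw [k5, h5, F.H_comp a s s' h1 k1 _ (F.Lc_mem a u h2)]
  · intro v hv
    rw [← F.H_comp a s s' h1 k1 v hv, k6 _ (F.H_mem a s h1 v hv), h6 v hv,
      F.H_comp u x x' h3 k3 _ (F.τ_mem a u h2 v hv)]

omit [CompactSpace X] [FiniteDimensional ℝ E] in
theorem QdF.iter {S : HypSys X E} {F : Flat S} {a s u x : X} (h : QdF F a s u x) (n : ℕ) :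
    QdF F (S.g^[n] a) (S.g^[n] s) (S.g^[n] u) (S.g^[n] x) := by
  obtain ⟨h1, h2, h3, h4, h5, h6⟩ := h
  refine ⟨h1.iter n, h2.iter n, h3.iter n, h4.iter n, ?_, ?_⟩
  · rw [F.Lc_iter h4, F.Lc_iter h2, h5, F.H_iter h1 n (F.Lc_mem a u h2)]
  · intro v hv
    obtain ⟨v0, hv0, rfl⟩ : ∃ v0 ∈ S.Vu a, Dn S n a v0 = v := by
      refine ⟨Dn S.symm n (S.g^[n] a) v, ?_, ?_⟩
      · have := Dn_symm_mem S n (S.g^[n] a) hv
        rwa [iter_symm_iter] at this
      · have := Dn_Dn_symm S n (S.g^[n] a) hv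
        rwa [iter_symm_iter] at this
    rw [F.H_iter h1 n hv0, F.τ_iter h4 n (F.H_mem a s h1 v0 hv0), h6 v0 hv0,
      F.τ_iter h2 n hv0, F.H_iter h3 n (F.τ_mem a u h2 v0 hv0)]

omit [CompactSpace X] [FiniteDimensional ℝ E] in
theorem QdF.back {S : HypSys X E} {F : Flat S} {a s u x : X} (h : QdF F a s u x) (n : ℕ) :
    QdF F (S.g.symm^[n] a) (S.g.symm^[n] s) (S.g.symm^[n] u) (S.g.symm^[n] x) := by
  obtain ⟨h1, h2, h3, h4, h5, h6⟩ := h
  refine ⟨h1.symm_iter n, h2.symm_iter n, h3.symm_iter n, h4.symm_iter n, ?_, ?_⟩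
  · rw [F.Lc_back h4, F.Lc_back h2, h5, F.H_back h1 n (F.Lc_mem a u h2)]
  · intro v hv
    obtain ⟨v0, hv0, rfl⟩ : ∃ v0 ∈ S.Vu a, Dn S.symm n a v0 = v := by
      refine ⟨Dn S n (S.g.symm^[n] a) v, ?_, ?_⟩
      · have := Dn_mem S n (S.g.symm^[n] a) hv
        rwa [iter_iter_symm] at this
      · have := Dn_symm_Dn S n (S.g.symm^[n] a) hv
        rwa [iter_iter_symm] at this
    rw [F.H_back h1 n hv0, F.τ_back h4 n (F.H_mem a s h1 v0 hv0), h6 v0 hv0,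
      F.τ_back h2 n hv0, F.H_back h3 n (F.τ_mem a u h2 v0 hv0)]

omit [FiniteDimensional ℝ E] in
theorem quad_local {S : HypSys X E} (F : Flat S) (hL : LinProp F Set.univ) (hC : CommLoc F) :
    ∃ ε > 0, ∀ a s u, S.SRel ε a s → S.URel ε a u → ∃ x, QdF F a s u x := by
  obtain ⟨εL, hεL, hLin⟩ := hL
  obtain ⟨εC, hεC, hεC₀, hCom⟩ := hC
  obtain ⟨ε₃, hε₃, hcor⟩ := exists_corner S (min εL εC) (lt_min hεL hεC)
  refine ⟨min ε₃ (min εL εC), lt_min hε₃ (lt_min hεL hεC), fun a s u has hau => ?_⟩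
  obtain ⟨x, hsx, hux⟩ := hcor a s u (has.mono (min_le_left _ _)) (hau.mono (min_le_left _ _))
  have has' := has.mono (min_le_right _ _)
  have hau' := hau.mono (min_le_right _ _)
  have hεC' : min εL εC ≤ F.ε₀ := (min_le_right _ _).trans hεC₀
  refine ⟨x, F.geo.sasym _ _ (has'.mono hεC'), F.geo.uasym _ _ (hau'.mono hεC'),
    F.geo.sasym _ _ (hux.mono hεC'), F.geo.uasym _ _ (hsx.mono hεC'), ?_, ?_⟩
  · exact hLin a (Set.mem_univ _) s u x (has'.mono (min_le_left _ _)) (hau'.mono (min_le_left _ _))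
      (hux.mono (min_le_left _ _)) (hsx.mono (min_le_left _ _))
  · exact hCom a s u x (has'.mono (min_le_right _ _)) (hau'.mono (min_le_right _ _))
      (hux.mono (min_le_right _ _)) (hsx.mono (min_le_right _ _))

/-- L7 -/
theorem quad_glob {S : HypSys X E} (F : Flat S) (hL : LinProp F Set.univ) (hC : CommLoc F)
    (hseg : SegProp S) : QuadGlob F := by
  obtain ⟨ε₂, hε₂, hloc⟩ := quad_local F hL hC
  obtain ⟨ρ, hρ, hsmall⟩ := F.small ε₂ hε₂
  obtain ⟨ε', hε', hsegs⟩ := hseg F.ε₀ F.geo.pos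
  intro a s u has hau
  obtain ⟨N, hN⟩ := has.eventually hε'
  have hN' := hN N le_rfl
  have hau1 := hau.iter N
  set a₁ := S.g^[N] a with ha₁
  set s₁ := S.g^[N] s with hs₁
  set u₁ := S.g^[N] u with hu₁
  suffices hmain : ∃ x, QdF F a₁ s₁ u₁ x by
    obtain ⟨x, hx⟩ := hmain
    have := hx.back N
    rw [ha₁, hs₁, hu₁, iter_symm_iter, iter_symm_iter, iter_symm_iter] at this
    exact ⟨_, this⟩
  -- choice of n
  obtain ⟨n, hn⟩ : ∃ n : ℕ, (1 / 16 : ℝ) ^ n * (2 * ‖F.Lc a₁ u₁‖) ≤ ρ := by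
    have hlim : Tendsto (fun n : ℕ => (1 / 16 : ℝ) ^ n * (2 * ‖F.Lc a₁ u₁‖)) atTop (𝓝 0) := by
      have := (tendsto_pow_atTop_nhds_zero_of_lt_one (by norm_num : (0 : ℝ) ≤ 1 / 16)
        (by norm_num)).mul_const (2 * ‖F.Lc a₁ u₁‖)
      simpa using this
    exact (hlim.eventually (ge_mem_nhds hρ)).exists
  obtain ⟨m, c, hc0, hcm, hcs, hcc⟩ := hsegs a₁ s₁ hN' n ε₂ hε₂
  have hstep : ∀ i ≤ m, ∃ x, QdF F (S.g.symm^[n] a₁) (S.g.symm^[n] (c i)) (S.g.symm^[n] u₁) x := by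
    intro i
    induction i with
    | zero =>
      intro _
      rw [hc0]
      refine ⟨S.g.symm^[n] u₁, SAsym.refl S _, hau1.symm_iter n, SAsym.refl S _, hau1.symm_iter n,
        ?_, ?_⟩
      · rw [F.H_self _ _ (F.Lc_mem _ _ (hau1.symm_iter n))]
      · intro v hv
        rw [F.H_self _ _ hv, F.H_self _ _ (F.τ_mem _ _ (hau1.symm_iter n) _ hv)]
    | succ i ih =>
      intro hi
      obtain ⟨x, hx⟩ := ih (by omega)
      have hci := hcs i (by omega)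
      have hsas : SAsym S a₁ (c i) := F.geo.sasym _ _ hci
      have hnorm : ‖F.Lc (S.g.symm^[n] (c i)) x‖ ≤ ρ := by
        rw [hx.2.2.2.2.1, F.Lc_back hau1, F.H_back hsas n (F.Lc_mem _ _ hau1)]
        have h1 := Dn_symm_le S n (c i) (F.H_mem a₁ (c i) hsas _ (F.Lc_mem _ _ hau1))
        have h2 := F.H_le a₁ (c i) hci _ (F.Lc_mem _ _ hau1)
        refine h1.trans (le_trans ?_ hn)
        exact mul_le_mul_of_nonneg_left h2 (by positivity)
      have hU := hsmall _ _ hx.2.2.2.1 hnorm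
      obtain ⟨x', hx'⟩ := hloc _ _ _ (hcc i (by omega)) hU
      exact ⟨x', hx.trans hx'⟩
  obtain ⟨x, hx⟩ := hstep m le_rfl
  rw [hcm] at hx
  have := hx.iter n
  rw [iter_iter_symm, iter_iter_symm, iter_iter_symm] at this
  exact ⟨_, this⟩

end Pool.Agent.H779R2.An
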