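import Pool.Agent.H779R2.An.Lin

set_option autoImplicit false

namespace Pool.Agent.H779R2.An

open Pool.Agent.H721R2 Filter Topology MeasureTheory
open scoped BigOperators

variable {X E : Type*} [MetricSpace X] [CompactSpace X] [NormedAddCommGroup E]
  [InnerProductSpace ℝ E] [FiniteDimensional ℝ E]

/-- the proof of `lin`, for an arbitrary set `R` -/
theorem lin_of_line {S : HypSys X E} (F : Flat S) (B : UV S) {R : Set X}
    (hQ : QEkProp F B) (hL : LineProp S B R) : LinProp F R := by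
  obtain ⟨C, hC, εk, hεk, hQ⟩ := hQ
  have hε₀ : 0 < F.ε₀ := F.geo.pos
  obtain ⟨ε2, hε2, h2k, h20⟩ : ∃ ε2 : ℝ, 0 < ε2 ∧ 4 * ε2 ≤ εk ∧ 4 * ε2 ≤ F.ε₀ := by
    have hm : 0 < min εk F.ε₀ := lt_min hεk hε₀
    refine ⟨min εk F.ε₀ / 4, by positivity, ?_, ?_⟩
    · linarith [min_le_left εk F.ε₀]
    · linarith [min_le_right εk F.ε₀]
  obtain ⟨εc, hεc, hcor⟩ := exists_corner S ε2 hε2
  obtain ⟨ρ', hρ', hL⟩ := hL εk hεk (min εc ε2) (lt_min hεc hε2)
  refine ⟨min (min ρ' εc) ε2, lt_min (lt_min hρ' hεc) hε2, ?_⟩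
  intro x hx x' p p' hxx' hxp hpp' hx'p'
  have e1 : min (min ρ' εc) ε2 ≤ ρ' := (min_le_left _ _).trans (min_le_left _ _)
  have e2 : min (min ρ' εc) ε2 ≤ εc := (min_le_left _ _).trans (min_le_right _ _)
  have e3 : min (min ρ' εc) ε2 ≤ ε2 := min_le_right _ _
  have f1 : min εc ε2 ≤ εc := min_le_left _ _
  have f2 : min εc ε2 ≤ ε2 := min_le_right _ _
  have hom : ∀ k y, om S B k y ≤ (1 / 16) ^ k := by
    intro k y
    have := Dn_symm_le S k y (B.mem y)
    rwa [B.norm, mul_one] at this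
  have hom0 : ∀ k y, 0 ≤ om S B k y := fun k y => norm_nonneg _
  have step : ∀ (k0 : ℕ) (u v a b : X), S.SRel εk (S.g.symm^[k0] u) (S.g.symm^[k0] v) →
      S.URel ε2 u a → S.URel ε2 v b → S.SRel εk a b → S.SRel F.ε₀ u v → S.SRel F.ε₀ v x' →
      ‖F.H v x' (F.Lc v b) - F.H u x' (F.Lc u a)‖ ≤
        2 * (C * om S B k0 u * (2 * ε2) ^ 2) := by
    intro k0 u v a b h1 h2 h3 h4 h5 h6
    have g1 := hQ k0 u v a b h1 (h2.mono (by linarith)) (h3.mono (by linarith)) h4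
    have g2 : ‖F.Lc u a‖ ≤ 2 * ε2 := by
      have := F.Lc_le u a (h2.mono (by linarith))
      have := h2.dist_le
      linarith
    have mu : F.Lc u a ∈ S.Vu u := F.Lc_mem _ _ (F.geo.uasym _ _ (h2.mono (by linarith)))
    have mv : F.Lc v b ∈ S.Vu v := F.Lc_mem _ _ (F.geo.uasym _ _ (h3.mono (by linarith)))
    have suv := F.geo.sasym _ _ h5
    have svx := F.geo.sasym _ _ h6
    have g3 : F.H v x' (F.Lc v b) - F.H u x' (F.Lc u a) =
        F.H v x' (F.Lc v b - F.H u v (F.Lc u a)) := by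
      rw [map_sub, F.H_comp u v x' suv svx _ mu]
    rw [g3]
    have g4 := F.H_le v x' h6 _ (Submodule.sub_mem _ mv (F.H_mem u v suv _ mu))
    have g5 : C * om S B k0 u * ‖F.Lc u a‖ ^ 2 ≤ C * om S B k0 u * (2 * ε2) ^ 2 := by
      apply mul_le_mul_of_nonneg_left _ (mul_nonneg hC.le (hom0 _ _))
      exact pow_le_pow_left₀ (norm_nonneg _) g2 2
    linarith
  -- the key estimate
  have key : ∀ η > 0, ‖F.Lc x' p' - F.H x x' (F.Lc x p)‖ ≤ 6 * (C * (2 * ε2) ^ 2) * η := by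
    intro η hη
    obtain ⟨k', hk'⟩ := exists_pow_lt_of_lt_one hη (by norm_num : (1 / 16 : ℝ) < 1)
    obtain ⟨δ', hδ', hlev⟩ := SRel_level F.geo k' εk hεk
    obtain ⟨k, m, c, hc1, hc2, hc3, hc4, hc5⟩ :=
      hL x hx x' (hxx'.mono e1) (min δ' η) (lt_min hδ' hη)
    have hq : ∀ i, ∃ q, i ≤ m → S.URel ε2 (c i) q ∧ S.SRel ε2 p q := by
      intro i
      by_cases hi : i ≤ m
      · obtain ⟨w, h1, h2⟩ := hcor x (c i) p ((hc1 i hi).mono f1) (hxp.mono e2)
        exact ⟨w, fun _ => ⟨h1, h2⟩⟩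
      · exact ⟨p, fun h => absurd h hi⟩
    choose q hq using hq
    have hxc : ∀ i ≤ m, S.SRel F.ε₀ x (c i) := fun i hi => (hc1 i hi).mono (by linarith)
    have hcx : ∀ i ≤ m, S.SRel F.ε₀ (c i) x' := fun i hi =>
      ((hc1 i hi).symm.trans hxx').mono (by linarith)
    have hcc : ∀ i < m, S.SRel F.ε₀ (c i) (c (i + 1)) := fun i hi =>
      ((hc1 i hi.le).symm.trans (hc1 (i + 1) hi)).mono (by linarith)
    have hqq : ∀ i < m, S.SRel εk (q i) (q (i + 1)) := fun i hi =>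
      ((hq i hi.le).2.symm.trans (hq (i + 1) hi).2).mono (by linarith)
    -- telescoping
    have tel : ∀ j ≤ m, ‖F.H (c j) x' (F.Lc (c j) (q j)) - F.H (c 0) x' (F.Lc (c 0) (q 0))‖ ≤
        ∑ i ∈ Finset.range j, 2 * (C * om S B k (c i) * (2 * ε2) ^ 2) := by
      intro j
      induction j with
      | zero => intro _; simp
      | succ j ih =>
        intro hj
        have i1 := ih (by omega)
        have i2 := step k (c j) (c (j + 1)) (q j) (q (j + 1)) (hc4 j hj) (hq j (by omega)).1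
          (hq (j + 1) hj).1 (hqq j hj) (hcc j hj) (hcx (j + 1) hj)
        rw [Finset.sum_range_succ]
        have i3 := norm_sub_le_norm_sub_add_norm_sub (F.H (c (j + 1)) x' (F.Lc (c (j + 1)) (q (j + 1))))
          (F.H (c j) x' (F.Lc (c j) (q j))) (F.H (c 0) x' (F.Lc (c 0) (q 0)))
        linarith
    have t1 := tel m le_rfl
    have t1' : ∑ i ∈ Finset.range m, 2 * (C * om S B k (c i) * (2 * ε2) ^ 2) =
        2 * (C * (2 * ε2) ^ 2) * ∑ i ∈ Finset.range m, om S B k (c i) := by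
      rw [Finset.mul_sum]
      refine Finset.sum_congr rfl fun i _ => by ring
    have hCC : 0 < C * (2 * ε2) ^ 2 := by positivity
    have t1'' : 2 * (C * (2 * ε2) ^ 2) * ∑ i ∈ Finset.range m, om S B k (c i) ≤
        2 * (C * (2 * ε2) ^ 2) * η :=
      mul_le_mul_of_nonneg_left (hc5.trans (min_le_right _ _)) (by linarith)
    -- the two ends
    have t2 := step k' x (c 0) p (q 0)
      (hlev _ _ (hxc 0 (Nat.zero_le _)) (hc2.trans (min_le_left _ _)))
      (hxp.mono e3) (hq 0 (Nat.zero_le _)).1 ((hq 0 (Nat.zero_le _)).2.mono (by linarith))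
      (hxc 0 (Nat.zero_le _)) (hcx 0 (Nat.zero_le _))
    have hx'x' : S.SRel F.ε₀ x' x' := fun n => by rw [dist_self]; exact hε₀.le
    have t3 := step k' (c m) x' (q m) p'
      (hlev _ _ (hcx m le_rfl) (by rw [dist_comm]; exact hc3.trans (min_le_left _ _)))
      (hq m le_rfl).1 (hx'p'.mono e3)
      (((hq m le_rfl).2.symm.trans hpp').mono (by linarith)) (hcx m le_rfl) hx'x'
    have mx' : F.Lc x' p' ∈ S.Vu x' :=
      F.Lc_mem _ _ (F.geo.uasym _ _ (hx'p'.mono (by linarith)))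
    rw [F.H_self x' _ mx'] at t3
    have o1 : C * om S B k' x * (2 * ε2) ^ 2 ≤ C * (2 * ε2) ^ 2 * η := by
      have := (hom k' x).trans hk'.le
      calc C * om S B k' x * (2 * ε2) ^ 2 = C * (2 * ε2) ^ 2 * om S B k' x := by ring
        _ ≤ _ := mul_le_mul_of_nonneg_left this hCC.le
    have o2 : C * om S B k' (c m) * (2 * ε2) ^ 2 ≤ C * (2 * ε2) ^ 2 * η := by
      have := (hom k' (c m)).trans hk'.le
      calc C * om S B k' (c m) * (2 * ε2) ^ 2 = C * (2 * ε2) ^ 2 * om S B k' (c m) := by ring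
        _ ≤ _ := mul_le_mul_of_nonneg_left this hCC.le
    have n1 := norm_sub_le_norm_sub_add_norm_sub (F.Lc x' p')
      (F.H (c m) x' (F.Lc (c m) (q m))) (F.H x x' (F.Lc x p))
    have n2 := norm_sub_le_norm_sub_add_norm_sub (F.H (c m) x' (F.Lc (c m) (q m)))
      (F.H (c 0) x' (F.Lc (c 0) (q 0))) (F.H x x' (F.Lc x p))
    linarith
  have hCC : 0 < 6 * (C * (2 * ε2) ^ 2) := by positivity
  have hz : ‖F.Lc x' p' - F.H x x' (F.Lc x p)‖ ≤ 0 := by
    refine le_of_forall_pos_le_add fun η hη => ?_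
    have := key (η / (6 * (C * (2 * ε2) ^ 2))) (by positivity)
    rw [mul_div_cancel₀ _ hCC.ne'] at this
    linarith
  exact sub_eq_zero.1 (norm_le_zero_iff.1 hz)

/-- L5 -/
theorem lin_univ {S : HypSys X E} (F : Flat S) (B : UV S) (hQ : QEkProp F B)
    (hL : LineProp S B Set.univ) : LinProp F Set.univ :=
  lin_of_line F B hQ hL

end Pool.Agent.H779R2.An
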