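import Pool.Agent.H779R2.An.Basic
import Pool.Agent.H779R2.An.MeasLine

set_option autoImplicit false

namespace Pool.Agent.H779R2.An

open Pool.Agent.H721R2 Filter Topology MeasureTheory
open scoped BigOperators

variable {X E : Type*} [MetricSpace X] [CompactSpace X] [NormedAddCommGroup E]
  [InnerProductSpace ℝ E] [FiniteDimensional ℝ E]

/-- Young type inequality, second form -/
theorem MeasLine.young2 (d D : ℕ) (hD : 1 ≤ D) (hd : D < d) (lam : ℝ) (hlam : 0 < lam)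
    (r ω R : ℝ) (hr : 0 < r) (h1 : r ≤ R) (h0 : 0 ≤ ω) :
    ω * r ^ (d - 1) ≤ lam * r ^ d + (lam ^ (D - 1))⁻¹ * R ^ (d - D) * ω ^ D := by
  have hR : 0 < R := hr.trans_le h1
  by_cases h : ω ≤ lam * r
  · have h2 : ω * r ^ (d - 1) ≤ lam * r * r ^ (d - 1) := mul_le_mul_of_nonneg_right h (by positivity)
    have h3 : 0 ≤ (lam ^ (D - 1))⁻¹ * R ^ (d - D) * ω ^ D := by positivity
    have h4 : lam * r * r ^ (d - 1) = lam * r ^ d := by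
      rw [mul_assoc, ← pow_succ', Nat.sub_add_cancel (hD.trans hd.le)]
    linarith
  · push Not at h
    have h2 : r ≤ ω / lam := by
      rw [le_div_iff₀ hlam]
      linarith
    have h3 : r ^ (d - 1) = r ^ (D - 1) * r ^ (d - D) := by
      rw [← pow_add]
      congr 1
      omega
    have h4 : r ^ (D - 1) * r ^ (d - D) ≤ (ω / lam) ^ (D - 1) * R ^ (d - D) := by
      gcongr
    have h5 : ω * ((ω / lam) ^ (D - 1) * R ^ (d - D)) =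
        (lam ^ (D - 1))⁻¹ * R ^ (d - D) * ω ^ D := by
      obtain ⟨e, rfl⟩ : ∃ e, D = e + 1 := ⟨D - 1, by omega⟩
      rw [Nat.add_sub_cancel, div_pow, pow_succ]
      field_simp
    have h6 : 0 ≤ lam * r ^ d := by positivity
    calc ω * r ^ (d - 1) = ω * (r ^ (D - 1) * r ^ (d - D)) := by rw [h3]
      _ ≤ ω * ((ω / lam) ^ (D - 1) * R ^ (d - D)) := mul_le_mul_of_nonneg_left h4 h0
      _ = (lam ^ (D - 1))⁻¹ * R ^ (d - D) * ω ^ D := h5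
      _ ≤ _ := by linarith

open MeasLine in
/-- L3 -/
theorem meas_line2 (d D : ℕ) (hD : 1 ≤ D) (hd : D < d) (ρ₁ : ℝ) (hρ₁ : 0 < ρ₁) (C δ : ℝ)
    (hδ : 0 < δ) : ∃ r > 0, ∀ (u : Finset (EuclideanSpace ℝ (Fin d)))
    (rad ω : EuclideanSpace ℝ (Fin d) → ℝ),
    (∀ a ∈ u, ‖a‖ ≤ ρ₁ ∧ 0 < rad a ∧ rad a ≤ 1 ∧ rad a ≤ r ∧ 0 ≤ ω a ∧ ω a ≤ 1) →
    (∀ a ∈ u, ∀ a' ∈ u, a ≠ a' →
      Disjoint (Metric.closedBall a (rad a / 5)) (Metric.closedBall a' (rad a' / 5))) →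
    ∑ a ∈ u, ω a ^ D ≤ C →
    ∀ b : EuclideanSpace ℝ (Fin d), ‖b‖ ≤ ρ₁ → ∃ w : EuclideanSpace ℝ (Fin d), ‖w‖ ≤ δ ∧
      ∀ v ⊆ u, (∀ a ∈ v, ∃ t ∈ Set.Icc (0 : ℝ) 1, ‖t • b + w - a‖ ≤ rad a) →
        ∑ a ∈ v, ω a ≤ δ := by
  classical
  have hd1 : 1 ≤ d := hD.trans hd.le
  obtain ⟨C1, hC1⟩ : ∃ C1 : ℝ, C1 = (5 * (ρ₁ + 1)) ^ d := ⟨_, rfl⟩
  obtain ⟨C2, hC2⟩ : ∃ C2 : ℝ, C2 = (ρ₁ + 2) * 2 ^ d := ⟨_, rfl⟩
  have hC1p : 0 < C1 := by rw [hC1]; positivity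
  have hC2p : 0 < C2 := by rw [hC2]; positivity
  obtain ⟨lam, hlam⟩ : ∃ lam : ℝ, lam = δ ^ (d + 1) / (4 * C1 * C2) := ⟨_, rfl⟩
  have hlamp : 0 < lam := by rw [hlam]; positivity
  obtain ⟨K, hK⟩ : ∃ K : ℝ, K = C2 * ((lam ^ (D - 1))⁻¹ * max C 0) := ⟨_, rfl⟩
  have hKp : 0 ≤ K := by rw [hK]; positivity
  obtain ⟨r, hr⟩ : ∃ r : ℝ, r = min 1 (δ ^ (d + 1) / (4 * (K + 1))) := ⟨_, rfl⟩
  have hrp : 0 < r := by rw [hr]; exact lt_min one_pos (by positivity)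
  refine ⟨r, hrp, ?_⟩
  intro u rad ω hu0 hdisj hθ b hb
  have hu : ∀ a ∈ u, ‖a‖ ≤ ρ₁ ∧ 0 < rad a ∧ rad a ≤ 1 ∧ 0 ≤ ω a ∧ ω a ≤ 1 := fun a ha =>
    ⟨(hu0 a ha).1, (hu0 a ha).2.1, (hu0 a ha).2.2.1, (hu0 a ha).2.2.2.2⟩
  by_contra hcon
  push Not at hcon
  have hV0 : volume (Metric.ball (0 : EuclideanSpace ℝ (Fin d)) 1) ≠ 0 :=
    (Metric.measure_ball_pos volume 0 one_pos).ne'
  have hVt : volume (Metric.ball (0 : EuclideanSpace ℝ (Fin d)) 1) ≠ ⊤ :=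
    measure_ball_lt_top.ne
  have hU : ∀ a : EuclideanSpace ℝ (Fin d), ∃ U : Set (EuclideanSpace ℝ (Fin d)),
      MeasurableSet U ∧ (a ∈ u → (∀ w, (∃ t ∈ Set.Icc (0 : ℝ) 1, ‖t • b + w - a‖ ≤ rad a) → w ∈ U) ∧
      volume U ≤ ENNReal.ofReal ((ρ₁ + 2) * 2 ^ d * rad a ^ (d - 1)) *
        volume (Metric.ball (0 : EuclideanSpace ℝ (Fin d)) 1)) := by
    intro a
    by_cases ha : a ∈ u
    · obtain ⟨h1, h2, h3, -, -⟩ := hu a ha
      obtain ⟨U, hU1, hU2, hU3⟩ := cover d ρ₁ hρ₁ hd1 (rad a) h2 h3 a b hb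
      exact ⟨U, hU1, fun _ => ⟨hU2, hU3⟩⟩
    · exact ⟨∅, MeasurableSet.empty, fun h => absurd h ha⟩
  choose U hUm hUu using hU
  obtain ⟨g, hg⟩ : ∃ g : EuclideanSpace ℝ (Fin d) → ENNReal,
      g = fun w => ∑ a ∈ u, (U a).indicator (fun _ => ENNReal.ofReal (ω a)) w := ⟨_, rfl⟩
  have hglow : ∀ w ∈ Metric.closedBall (0 : EuclideanSpace ℝ (Fin d)) δ, ENNReal.ofReal δ ≤ g w := by
    intro w hw
    rw [mem_closedBall_zero_iff] at hw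
    obtain ⟨v, hv, hhit, hlt⟩ := hcon w hw
    have h1 : ENNReal.ofReal δ ≤ ∑ a ∈ v, ENNReal.ofReal (ω a) := by
      rw [← ENNReal.ofReal_sum_of_nonneg (fun a ha => (hu a (hv ha)).2.2.2.1)]
      exact ENNReal.ofReal_le_ofReal hlt.le
    refine h1.trans ?_
    have h2 : ∑ a ∈ v, ENNReal.ofReal (ω a) =
        ∑ a ∈ v, (U a).indicator (fun _ => ENNReal.ofReal (ω a)) w := by
      refine Finset.sum_congr rfl fun a ha => ?_
      rw [Set.indicator_of_mem ((hUu a (hv ha)).1 w (hhit a ha))]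
    rw [h2, hg]
    exact Finset.sum_le_sum_of_subset hv
  have hgup : ∫⁻ w in Metric.closedBall (0 : EuclideanSpace ℝ (Fin d)) δ, g w ≤
      ∑ a ∈ u, ENNReal.ofReal (ω a) * volume (U a) := by
    refine (setLIntegral_le_lintegral _ _).trans (le_of_eq ?_)
    rw [hg, lintegral_finsetSum _ (fun a _ => measurable_const.indicator (hUm a))]
    refine Finset.sum_congr rfl fun a _ => ?_
    rw [lintegral_indicator (hUm a), setLIntegral_const]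
  have hlow : ENNReal.ofReal δ * volume (Metric.closedBall (0 : EuclideanSpace ℝ (Fin d)) δ) ≤
      ∫⁻ w in Metric.closedBall (0 : EuclideanSpace ℝ (Fin d)) δ, g w := by
    rw [← setLIntegral_const]
    exact setLIntegral_mono' Metric.isClosed_closedBall.measurableSet hglow
  have hsum : ∑ a ∈ u, ENNReal.ofReal (ω a) * volume (U a) ≤
      ENNReal.ofReal (∑ a ∈ u, ω a * (C2 * rad a ^ (d - 1))) *
        volume (Metric.ball (0 : EuclideanSpace ℝ (Fin d)) 1) := by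
    rw [ENNReal.ofReal_sum_of_nonneg (fun a ha => by
      obtain ⟨-, h2, -, h4, -⟩ := hu a ha
      positivity), Finset.sum_mul]
    refine Finset.sum_le_sum fun a ha => ?_
    rw [ENNReal.ofReal_mul (hu a ha).2.2.2.1, mul_assoc]
    gcongr
    rw [hC2]
    exact (hUu a ha).2
  rw [Measure.addHaar_closedBall _ _ hδ.le, finrank_euclideanSpace_fin, ← mul_assoc,
    ← ENNReal.ofReal_mul hδ.le] at hlow
  have h1 := (ENNReal.mul_le_mul_iff_left hV0 hVt).mp ((hlow.trans hgup).trans hsum)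
  have h2 : δ * δ ^ d ≤ ∑ a ∈ u, ω a * (C2 * rad a ^ (d - 1)) := by
    refine (ENNReal.ofReal_le_ofReal_iff (Finset.sum_nonneg fun a ha => ?_)).mp h1
    obtain ⟨-, h2, -, h4, -⟩ := hu a ha
    positivity
  have h3 : ∑ a ∈ u, ω a * (C2 * rad a ^ (d - 1)) ≤
      ∑ a ∈ u, C2 * (lam * rad a ^ d + (lam ^ (D - 1))⁻¹ * r ^ (d - D) * ω a ^ D) := by
    refine Finset.sum_le_sum fun a ha => ?_
    obtain ⟨-, h5, -, h6, h7, -⟩ := hu0 a ha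
    have h8 := young2 d D hD hd lam hlamp (rad a) (ω a) r h5 h6 h7
    calc ω a * (C2 * rad a ^ (d - 1)) = C2 * (ω a * rad a ^ (d - 1)) := by ring
      _ ≤ _ := mul_le_mul_of_nonneg_left h8 hC2p.le
  have h4 : ∑ a ∈ u, C2 * (lam * rad a ^ d + (lam ^ (D - 1))⁻¹ * r ^ (d - D) * ω a ^ D) =
      C2 * (lam * ∑ a ∈ u, rad a ^ d + (lam ^ (D - 1))⁻¹ * r ^ (d - D) * ∑ a ∈ u, ω a ^ D) := by
    rw [← Finset.mul_sum, Finset.sum_add_distrib, ← Finset.mul_sum, ← Finset.mul_sum]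
  have h5 : ∑ a ∈ u, rad a ^ d ≤ C1 := by
    rw [hC1]
    exact sum_rad d ρ₁ hρ₁ u rad (fun a ha => ⟨(hu a ha).1, (hu a ha).2.1, (hu a ha).2.2.1⟩) hdisj
  have hrr : r ^ (d - D) ≤ r := by
    have hr1 : r ≤ 1 := by rw [hr]; exact min_le_left _ _
    calc r ^ (d - D) ≤ r ^ 1 := pow_le_pow_of_le_one hrp.le hr1 (by omega)
      _ = r := pow_one r
  have h6 : C2 * (lam * ∑ a ∈ u, rad a ^ d + (lam ^ (D - 1))⁻¹ * r ^ (d - D) * ∑ a ∈ u, ω a ^ D) ≤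
      C2 * (lam * C1 + (lam ^ (D - 1))⁻¹ * r * max C 0) := by
    have hs : 0 ≤ ∑ a ∈ u, ω a ^ D :=
      Finset.sum_nonneg fun a ha => pow_nonneg (hu a ha).2.2.2.1 _
    have hs2 : ∑ a ∈ u, ω a ^ D ≤ max C 0 := hθ.trans (le_max_left _ _)
    gcongr
  have h7 : C2 * (lam * C1 + (lam ^ (D - 1))⁻¹ * r * max C 0) =
      δ ^ (d + 1) / 4 + K * r := by
    have h8 : lam * C1 = δ ^ (d + 1) / (4 * C2) := by
      rw [hlam]
      field_simp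
    rw [h8, hK]
    field_simp
  have h8 : (0 : ℝ) < δ ^ (d + 1) := by positivity
  have h9 : δ * δ ^ d = δ ^ (d + 1) := by ring
  have h10 : K * r ≤ δ ^ (d + 1) / 4 := by
    have h11 : r ≤ δ ^ (d + 1) / (4 * (K + 1)) := by rw [hr]; exact min_le_right _ _
    calc K * r ≤ (K + 1) * r := by nlinarith
      _ ≤ (K + 1) * (δ ^ (d + 1) / (4 * (K + 1))) := by gcongr
      _ = δ ^ (d + 1) / 4 := by field_simp
  linarith

end Pool.Agent.H779R2.An
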