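import Pool.Agent.H779R2.An.LDefs
import Pool.Agent.H779R2.An.LMeas
import Pool.Agent.H779R2.An.Line

set_option autoImplicit false

namespace Pool.Agent.H779R2.An

open Pool.Agent.H721R2 Filter Topology MeasureTheory
open scoped BigOperators

variable {X E : Type*} [MetricSpace X] [CompactSpace X] [NormedAddCommGroup E]
  [InnerProductSpace ℝ E] [FiniteDimensional ℝ E]

/-- L4 -/
theorem line_univ {S : HypSys X E} {ε₀ : ℝ} (G : Geo S ε₀) (B : UV S)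
    (d D : ℕ) (hD : 1 ≤ D) (hd : D < d) (hC : CellProp2 S d) (hS : SumB S B D) :
    LineProp S B Set.univ := by
  classical
  intro ε hε ρ hρ
  obtain ⟨ε1, hε1, hε1a, hε1b⟩ : ∃ ε1 > 0, ε1 ≤ ε / 2 ∧ ε1 ≤ ε₀ :=
    ⟨min (ε / 2) ε₀, lt_min (by positivity) G.pos, min_le_left _ _, min_le_right _ _⟩
  obtain ⟨κ, hκ, hcell⟩ := hC ε1 hε1
  obtain ⟨ρs, hρs, C, hsum⟩ := hS κ hκ
  obtain ⟨ρ₁, hρ₁, hρ₁1, ρ', hρ', hcells⟩ := hcell (min ρ ρs) (lt_min hρ hρs)
  refine ⟨ρ', hρ', fun x _ x' hxx' δ hδ => ?_⟩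
  obtain ⟨δ1, hδ1, hδ1a, hδ1b, hδ1c⟩ : ∃ δ1 > 0, δ1 ≤ δ / 32 ∧ δ1 ≤ ρ₁ / 4 ∧ δ1 ≤ δ :=
    ⟨min (δ / 32) (ρ₁ / 4), lt_min (by positivity) (by positivity), min_le_left _ _,
      min_le_right _ _, (min_le_left _ _).trans (by linarith)⟩
  obtain ⟨r, hr, hmeas⟩ := meas_line2 d D hD hd ρ₁ hρ₁ C δ1 hδ1
  obtain ⟨N, hN⟩ : ∃ N : ℕ, ∀ k ≥ N, (1 / 16 : ℝ) ^ k ≤ r := by
    have h1 : Tendsto (fun k : ℕ => (1 / 16 : ℝ) ^ k) atTop (𝓝 0) :=
      tendsto_pow_atTop_nhds_zero_of_lt_one (r := (1 / 16 : ℝ)) (by norm_num) (by norm_num)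
    have h2 := (tendsto_order.mp h1).2 r hr
    obtain ⟨N, hN⟩ := eventually_atTop.mp h2
    exact ⟨N, fun k hk => (hN k hk).le⟩
  obtain ⟨k, hkN, hk⟩ : ∃ k ≥ N, (1 / 8 : ℝ) ^ k * ε1 ≤ δ / 2 := by
    have h1 : Tendsto (fun k : ℕ => (1 / 8 : ℝ) ^ k * ε1) atTop (𝓝 0) := by
      have := (tendsto_pow_atTop_nhds_zero_of_lt_one (r := (1 / 8 : ℝ)) (by norm_num)
        (by norm_num)).mul_const ε1
      simpa using this
    have h2 := (tendsto_order.mp h1).2 (δ / 2) (by positivity)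
    obtain ⟨k, hk1, hk2⟩ := (h2.and (eventually_ge_atTop N)).exists
    exact ⟨k, hk2, hk1.le⟩
  obtain ⟨ψ, rad, r₀, hr₀, hrel, hlip, hψ0, hψs, hclose, hsep⟩ := hcells x k
  obtain ⟨b, hb, hψb⟩ := hψs x' hxx'
  have h16 : (1 / 16 : ℝ) ^ k ≤ 1 := pow_le_one₀ (by norm_num) (by norm_num)
  obtain ⟨u, hu1, hu2, hu3⟩ := vitali_finite d ρ₁ r₀ hr₀ rad
    (fun a ha => ⟨(hrel a ha).2.1, (hrel a ha).2.2.trans h16⟩)
  have hradpos : ∀ a, ‖a‖ ≤ ρ₁ → 0 < rad a := fun a ha => lt_of_lt_of_le hr₀ (hrel a ha).2.1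
  -- level closeness gives closeness at time 0
  have hdist : ∀ y y' : X, S.SRel ε1 (S.g.symm^[k] y) (S.g.symm^[k] y') → dist y y' ≤ δ / 2 := by
    intro y y' h
    have h1 := G.scontr _ _ (h.mono hε1b) k
    rw [iter_iter_symm, iter_iter_symm] at h1
    have h2 : dist (S.g.symm^[k] y) (S.g.symm^[k] y') ≤ ε1 := h.dist_le
    calc dist y y' ≤ (1 / 8 : ℝ) ^ k * dist (S.g.symm^[k] y) (S.g.symm^[k] y') := h1
      _ ≤ (1 / 8 : ℝ) ^ k * ε1 := mul_le_mul_of_nonneg_left h2 (by positivity)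
      _ ≤ _ := hk
  -- separation
  have hsep' : ∀ a ∈ u, ∀ a' ∈ u, a ≠ a' →
      ¬ S.SRel κ (S.g.symm^[k] (ψ a)) (S.g.symm^[k] (ψ a')) := by
    intro a ha a' ha' hne
    refine hsep a a' (hu1 a ha) (hu1 a' ha') ?_
    by_contra hcon
    push Not at hcon
    have h1 := hu2 a ha a' ha' hne
    have h3 : a' ∈ Metric.closedBall a (rad a / 5) := by
      rw [Metric.mem_closedBall, dist_comm, dist_eq_norm]
      exact hcon
    have h4 : a' ∈ Metric.closedBall a' (rad a' / 5) := by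
      refine Metric.mem_closedBall_self ?_
      have := hradpos a' (hu1 a' ha')
      positivity
    exact Set.disjoint_left.mp h1 h3 h4
  have hrefl : ∀ y : X, S.SRel κ y y := by
    intro y n
    rw [dist_self]
    exact hκ.le
  have hinj : ∀ a ∈ u, ∀ a' ∈ u, ψ a = ψ a' → a = a' := by
    intro a ha a' ha' h
    by_contra hne
    have := hsep' a ha a' ha' hne
    rw [h] at this
    exact this (hrefl _)
  -- the sum
  have hω : ∀ a, 0 ≤ om S B k (ψ a) ∧ om S B k (ψ a) ≤ 1 := by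
    intro a
    refine ⟨norm_nonneg _, ?_⟩
    have h1 := Dn_symm_le S k (ψ a) (B.mem (ψ a))
    rw [B.norm, mul_one] at h1
    exact h1.trans (pow_le_one₀ (by norm_num) (by norm_num))
  have hS1 : ∑ a ∈ u, om S B k (ψ a) ^ D ≤ C := by
    have h1 := hsum k x (u.image ψ) (by
      intro y hy
      obtain ⟨a, ha, rfl⟩ := Finset.mem_image.mp hy
      exact (hrel a (hu1 a ha)).1.mono (min_le_right _ _)) (by
      intro y hy y' hy' hne
      obtain ⟨a, ha, rfl⟩ := Finset.mem_image.mp hy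
      obtain ⟨a', ha', rfl⟩ := Finset.mem_image.mp hy'
      exact hsep' a ha a' ha' (fun h => hne (by rw [h])))
    rwa [Finset.sum_image (fun a ha a' ha' h => hinj a ha a' ha' h)] at h1
  have hbρ : ‖b‖ ≤ ρ₁ := by linarith [norm_nonneg b]
  obtain ⟨w, hw, hv⟩ := hmeas u rad (fun a => om S B k (ψ a)) (fun a ha =>
    ⟨hu1 a ha, hradpos a (hu1 a ha), (hrel a (hu1 a ha)).2.2.trans h16,
      (hrel a (hu1 a ha)).2.2.trans (hN k hkN), (hω a).1, (hω a).2⟩) hu2 hS1 b hbρ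
  have hnorm : ∀ t ∈ Set.Icc (0 : ℝ) 1, ‖t • b + w‖ ≤ ρ₁ := by
    intro t ht
    have h1 : ‖t • b‖ ≤ ‖b‖ := by
      rw [norm_smul, Real.norm_of_nonneg ht.1]
      exact mul_le_of_le_one_left (norm_nonneg _) ht.2
    have h2 := norm_add_le (t • b) w
    linarith
  obtain ⟨m, c, hc1, hc2, hc3, hc4, hc5, hc6⟩ := chain_extract u
    (fun a => {t : ℝ | ‖t • b + w - a‖ ≤ rad a}) (fun a _ => isClosed_le (by fun_prop)
      continuous_const) (fun t ht => hu3 _ (hnorm t ht))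
  have hclose' : ∀ i ≤ m, ∀ t ∈ Set.Icc (0 : ℝ) 1, ‖t • b + w - c i‖ ≤ rad (c i) →
      S.SRel ε1 (S.g.symm^[k] (ψ (c i))) (S.g.symm^[k] (ψ (t • b + w))) := by
    intro i hi t ht h
    refine hclose (c i) (t • b + w) (hu1 _ (hc1 i hi)) (hnorm t ht) ?_
    rwa [norm_sub_rev]
  refine ⟨k, m, fun i => ψ (c i), fun i hi => ?_, ?_, ?_, fun i hi => ?_, ?_⟩
  · exact (hrel _ (hu1 _ (hc1 i hi))).1.mono (min_le_left _ _)
  · have h1 := hclose' 0 (Nat.zero_le _) 0 ⟨le_rfl, zero_le_one⟩ hc3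
    rw [zero_smul, zero_add] at h1
    have h2 := hdist _ _ h1
    have h3 := hlip 0 w (by rw [norm_zero]; exact hρ₁.le) (by linarith)
    rw [hψ0, zero_sub, norm_neg] at h3
    have h4 := dist_triangle x (ψ w) (ψ (c 0))
    rw [dist_comm (ψ (c 0)) (ψ w)] at h2
    linarith
  · have h1 := hclose' m le_rfl 1 ⟨zero_le_one, le_rfl⟩ hc4
    rw [one_smul] at h1
    have h2 := hdist _ _ h1
    have h0 := hnorm 1 ⟨zero_le_one, le_rfl⟩
    rw [one_smul] at h0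
    have h3 := hlip b (b + w) hbρ h0
    rw [hψb, sub_add_cancel_left, norm_neg] at h3
    have h4 := dist_triangle x' (ψ (b + w)) (ψ (c m))
    rw [dist_comm (ψ (c m)) (ψ (b + w))] at h2
    linarith
  · obtain ⟨t, ⟨ht1, ht2⟩, ht⟩ := hc6 i hi
    have h1 := hclose' i hi.le t ht ht1
    have h2 := hclose' (i + 1) hi t ht ht2
    intro n
    have h3 := h1 n
    have h4 := h2 n
    have h5 := dist_triangle_right (S.g^[n] (S.g.symm^[k] (ψ (c i))))
      (S.g^[n] (S.g.symm^[k] (ψ (c (i + 1))))) (S.g^[n] (S.g.symm^[k] (ψ (t • b + w))))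
    linarith
  · have h1 := hv ((Finset.range m).image c) (by
      intro a ha
      obtain ⟨i, hi, rfl⟩ := Finset.mem_image.mp ha
      exact hc1 i (Finset.mem_range.mp hi).le) (by
      intro a ha
      obtain ⟨i, hi, rfl⟩ := Finset.mem_image.mp ha
      obtain ⟨t, ht1, ht⟩ := hc5 i (Finset.mem_range.mp hi).le
      exact ⟨t, ht, ht1⟩)
    rw [Finset.sum_image (fun i hi j hj h => hc2 i (Finset.mem_range.mp hi).le j
      (Finset.mem_range.mp hj).le h)] at h1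
    exact h1.trans hδ1c

end Pool.Agent.H779R2.An
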