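import Pool.Agent.H779R2.An.LDefs
import Pool.Agent.H789R2.GP.Defs
import Pool.Agent.H789R2.AN.Hyp

set_option autoImplicit false

namespace Pool.Agent.H779R2.An

open Pool.Agent.H721R2 Filter Topology MeasureTheory
open scoped BigOperators

variable {X E : Type*} [MetricSpace X] [CompactSpace X] [NormedAddCommGroup E]
  [InnerProductSpace ℝ E] [FiniteDimensional ℝ E]

open Pool.Agent.H789R2.GP Pool.Agent.H789R2.AN

namespace LQSaux

variable {S : HypSys X E} (F : Flat S)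

theorem unique {a s u x x' : X} (h : QdF F a s u x) (h' : QdF F a s u x') : x = x' :=
  F.inj s x x' h.2.2.2.1 h'.2.2.2.1 (by rw [h.2.2.2.2.1, h'.2.2.2.2.1])

theorem compU {a s u x u' x' : X} (h : QdF F a s u x) (h' : QdF F u x u' x') :
    QdF F a s u' x' := by
  obtain ⟨h1, h2, h3, h4, h5, h6⟩ := h
  obtain ⟨-, k2, k3, k4, k5, k6⟩ := h'
  have hLs : F.Lc s x ∈ S.Vu s := F.Lc_mem _ _ h4
  have hLs' : F.Lc s x' ∈ S.Vu s := F.Lc_mem _ _ (h4.trans k4)
  have hLa : F.Lc a u ∈ S.Vu a := F.Lc_mem _ _ h2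
  have hLa' : F.Lc a u' ∈ S.Vu a := F.Lc_mem _ _ (h2.trans k2)
  have hd : F.Lc a u' - F.Lc a u ∈ S.Vu a := Submodule.sub_mem _ hLa' hLa
  refine ⟨h1, h2.trans k2, k3, h4.trans k4, ?_, ?_⟩
  · have e1 := F.base s x x' h4 (h4.trans k4)
    have e2 := F.base a u u' h2 (h2.trans k2)
    have e3 : F.τ s x (F.Lc s x' - F.Lc s x) = F.τ s x (F.H a s (F.Lc a u' - F.Lc a u)) := by
      rw [← e1, k5, e2, h6 _ hd]
    have e4 := congrArg (F.τ x s) e3
    rw [F.τ_comp s x s h4 h4.symm _ (Submodule.sub_mem _ hLs' hLs),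
      F.τ_comp s x s h4 h4.symm _ (F.H_mem _ _ h1 _ hd),
      F.τ_self _ _ (Submodule.sub_mem _ hLs' hLs), F.τ_self _ _ (F.H_mem _ _ h1 _ hd), map_sub,
      h5] at e4
    exact sub_left_injective e4
  · intro v hv
    rw [← F.τ_comp s x x' h4 k4 _ (F.H_mem _ _ h1 _ hv), h6 v hv,
      k6 _ (F.τ_mem _ _ h2 _ hv), F.τ_comp a u u' h2 k2 _ hv]

theorem compS {a s u x s' x' : X} (h : QdF F a s u x) (h' : QdF F s s' x x') :
    QdF F a s' u x' := by
  obtain ⟨h1, h2, h3, h4, h5, h6⟩ := h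
  obtain ⟨k1, -, k3, k4, k5, k6⟩ := h'
  have hLa : F.Lc a u ∈ S.Vu a := F.Lc_mem _ _ h2
  refine ⟨h1.trans k1, h2, h3.trans k3, k4, ?_, ?_⟩
  · rw [k5, h5, F.H_comp a s s' h1 k1 _ hLa]
  · intro v hv
    rw [← F.H_comp a s s' h1 k1 _ hv, k6 _ (F.H_mem _ _ h1 _ hv), h6 v hv,
      F.H_comp u x x' h3 k3 _ (F.τ_mem _ _ h2 _ hv)]

theorem flipU {a s u x : X} (h : QdF F a s u x) : QdF F u x a s := by
  obtain ⟨h1, h2, h3, h4, h5, h6⟩ := h
  have hLa : F.Lc a u ∈ S.Vu a := F.Lc_mem _ _ h2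
  refine ⟨h3, h2.symm, h1, h4.symm, ?_, ?_⟩
  · have e1 := F.base s x s h4 (UAsym.refl S s)
    have e2 := F.base a u a h2 (UAsym.refl S a)
    rw [F.Lc_self, zero_sub, map_neg] at e1 e2
    rw [e1, e2, map_neg, h5, h6 _ hLa]
  · intro w hw
    have hv : F.τ u a w ∈ S.Vu a := F.τ_mem _ _ h2.symm _ hw
    have e1 : F.τ a u (F.τ u a w) = w := by
      rw [F.τ_comp u a u h2.symm h2 _ hw, F.τ_self _ _ hw]
    have e2 := h6 _ hv
    rw [e1] at e2
    rw [← e2, F.τ_comp s x s h4 h4.symm _ (F.H_mem _ _ h1 _ hv),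
      F.τ_self _ _ (F.H_mem _ _ h1 _ hv)]

theorem flipS {a s u x : X} (h : QdF F a s u x) : QdF F s a x u := by
  obtain ⟨h1, h2, h3, h4, h5, h6⟩ := h
  have hLa : F.Lc a u ∈ S.Vu a := F.Lc_mem _ _ h2
  refine ⟨h1.symm, h4, h3.symm, h2, ?_, ?_⟩
  · rw [h5, F.H_comp a s a h1 h1.symm _ hLa, F.H_self _ _ hLa]
  · intro w hw
    have hv : F.H s a w ∈ S.Vu a := F.H_mem _ _ h1.symm _ hw
    have e1 : F.H a s (F.H s a w) = w := by
      rw [F.H_comp s a s h1.symm h1 _ hw, F.H_self _ _ hw]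
    have e2 := h6 _ hv
    rw [e1] at e2
    rw [e2, F.H_comp u x u h3 h3.symm _ (F.τ_mem _ _ h2 _ hv),
      F.H_self _ _ (F.τ_mem _ _ h2 _ hv)]

theorem back {a s u x : X} (h : QdF F a s u x) (n : ℕ) :
    QdF F (S.g.symm^[n] a) (S.g.symm^[n] s) (S.g.symm^[n] u) (S.g.symm^[n] x) := by
  obtain ⟨h1, h2, h3, h4, h5, h6⟩ := h
  have hLa : F.Lc a u ∈ S.Vu a := F.Lc_mem _ _ h2
  refine ⟨h1.symm_iter n, h2.symm_iter n, h3.symm_iter n, h4.symm_iter n, ?_, ?_⟩
  · rw [F.toLin0.Lc_back h4 n, F.toLin0.Lc_back h2 n, F.toLin0.H_back h1 n hLa, h5]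
  · intro v' hv'
    set v := Dn S n (S.g.symm^[n] a) v' with hvdef
    have hv : v ∈ S.Vu a := by
      have := Dn_mem S n (S.g.symm^[n] a) hv'
      rwa [iter_iter_symm] at this
    have e : v' = Dn S.symm n a v := by
      have := Dn_symm_Dn S n (S.g.symm^[n] a) hv'
      rw [iter_iter_symm] at this
      exact this.symm
    rw [e, F.toLin0.H_back h1 n hv, F.toLin0.τ_back h2 n hv,
      F.toLin0.τ_back h4 n (F.H_mem _ _ h1 _ hv), F.toLin0.H_back h3 n (F.τ_mem _ _ h2 _ hv),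
      h6 v hv]

theorem tiny (hL : LinProp F Set.univ) (hC : CommLoc F) : ∃ ε > 0, ε ≤ F.ε₀ ∧
    ∀ a s u x, S.SRel ε a s → S.URel ε a u → S.SRel ε u x → S.URel ε s x → QdF F a s u x := by
  obtain ⟨ε₁, hε₁, h1⟩ := hL
  obtain ⟨ε₂, hε₂, hle, h2⟩ := hC
  refine ⟨min ε₁ ε₂, lt_min hε₁ hε₂, (min_le_right _ _).trans hle, ?_⟩
  intro a s u x ha hb hc hd
  have l1 : min ε₁ ε₂ ≤ ε₁ := min_le_left _ _
  have l2 : min ε₁ ε₂ ≤ ε₂ := min_le_right _ _
  refine ⟨F.geo.sasym _ _ (ha.mono (l2.trans hle)), F.geo.uasym _ _ (hb.mono (l2.trans hle)),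
    F.geo.sasym _ _ (hc.mono (l2.trans hle)), F.geo.uasym _ _ (hd.mono (l2.trans hle)), ?_, ?_⟩
  · exact h1 a (Set.mem_univ _) s u x (ha.mono l1) (hb.mono l1) (hc.mono l1) (hd.mono l1)
  · exact h2 a s u x (ha.mono l2) (hb.mono l2) (hc.mono l2) (hd.mono l2)

theorem isClosed_URel (S : HypSys X E) {Y : Type*} [TopologicalSpace Y] (ε : ℝ) {p q : Y → X}
    (hp : Continuous p) (hq : Continuous q) : IsClosed {y | S.URel ε (p y) (q y)} := by
  have : {y | S.URel ε (p y) (q y)} =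
      ⋂ n : ℕ, {y | dist (S.g.symm^[n] (p y)) (S.g.symm^[n] (q y)) ≤ ε} := by
    ext y
    simp only [Set.mem_iInter]
    rfl
  rw [this]
  refine isClosed_iInter fun n => isClosed_le ?_ continuous_const
  exact ((S.g.symm.continuous.iterate n).comp hp).dist ((S.g.symm.continuous.iterate n).comp hq)

theorem isClosed_SRel (S : HypSys X E) {Y : Type*} [TopologicalSpace Y] (ε : ℝ) {p q : Y → X}
    (hp : Continuous p) (hq : Continuous q) : IsClosed {y | S.SRel ε (p y) (q y)} := by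
  have : {y | S.SRel ε (p y) (q y)} =
      ⋂ n : ℕ, {y | dist (S.g^[n] (p y)) (S.g^[n] (q y)) ≤ ε} := by
    ext y
    simp only [Set.mem_iInter]
    rfl
  rw [this]
  refine isClosed_iInter fun n => isClosed_le ?_ continuous_const
  exact ((S.g.continuous.iterate n).comp hp).dist ((S.g.continuous.iterate n).comp hq)

/-- thin quadrilaterals are thin on the other side -/
theorem thin {S : HypSys X E} {ε₀ c ε₂ : ℝ} (hg : Geo S ε₀) (hc : c + ε₂ ≤ ε₀) (h2 : ε₂ ≤ ε₀)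
    (ε : ℝ) (hε : 0 < ε) : ∃ η > 0, ∀ a s u x, S.URel c a u → S.SRel ε₂ u x → S.URel ε₂ s x →
      dist a s ≤ η → dist u x ≤ ε := by
  let K : Set (X × X × X × X) := {y | S.URel c y.1 y.2.2.1} ∩ ({y | S.SRel ε₂ y.2.2.1 y.2.2.2} ∩
    ({y | S.URel ε₂ y.2.1 y.2.2.2} ∩ {y | ε ≤ dist y.2.2.1 y.2.2.2}))
  have hK : IsCompact K := by
    apply IsClosed.isCompact
    refine (isClosed_URel S c continuous_fst (continuous_fst.comp (continuous_snd.comp
      continuous_snd))).inter ((isClosed_SRel S ε₂ (continuous_fst.comp (continuous_snd.comp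
      continuous_snd)) (continuous_snd.comp (continuous_snd.comp continuous_snd))).inter
      ((isClosed_URel S ε₂ (continuous_fst.comp continuous_snd)
        (continuous_snd.comp (continuous_snd.comp continuous_snd))).inter
        (isClosed_le continuous_const ?_)))
    exact (continuous_fst.comp (continuous_snd.comp
      continuous_snd)).dist (continuous_snd.comp (continuous_snd.comp continuous_snd))
  have hcont : ContinuousOn (fun y : X × X × X × X => dist y.1 y.2.1) K :=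
    (continuous_fst.dist (continuous_fst.comp continuous_snd)).continuousOn
  rcases K.eq_empty_or_nonempty with hem | hne
  · refine ⟨1, one_pos, fun a s u x k1 k2 k3 _ => ?_⟩
    by_contra hcon
    push Not at hcon
    have : (a, s, u, x) ∈ K := ⟨k1, k2, k3, hcon.le⟩
    rw [hem] at this
    exact this
  · obtain ⟨y, hy, hmin⟩ := hK.exists_isMinOn hne hcont
    have hpos : 0 < dist y.1 y.2.1 := by
      rw [dist_pos]
      intro heq
      obtain ⟨k1, k2, k3, k4⟩ := hy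
      have k3' : S.URel ε₂ y.1 y.2.2.2 := by rw [heq]; exact k3
      have k5 : S.URel (c + ε₂) y.2.2.1 y.2.2.2 :=
        HypSys.URel.trans (HypSys.URel.symm k1) k3'
      have k6 := hg.uniq _ _ (HypSys.SRel.mono k2 h2) (k5.mono hc)
      have k7 : ε ≤ dist y.2.2.1 y.2.2.2 := k4
      rw [k6, dist_self] at k7
      linarith
    refine ⟨dist y.1 y.2.1 / 2, by positivity, fun a s u x k1 k2 k3 k4 => ?_⟩
    by_contra hcon
    push Not at hcon
    have hmem : (a, s, u, x) ∈ K := ⟨k1, k2, k3, hcon.le⟩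
    have h5 : dist y.1 y.2.1 ≤ dist a s := hmin hmem
    linarith

end LQSaux

open LQSaux in
/-- L8 -/
theorem exists_qs {S : HypSys X E} (F : Flat S) (hL : LinProp F Set.univ) (hC : CommLoc F)
    (hG : QuadGlob F) : ∃ c > 0, ∃ T : QS S.g c, ∀ a s u x, T.Q a s u x ↔ QdF F a s u x := by
  obtain ⟨εt, hεt, hεt0, ht⟩ := tiny F hL hC
  have hε₀ := F.geo.pos
  set ε₂ := min εt (F.ε₀ / 2) with hε₂
  have hε₂p : 0 < ε₂ := lt_min hεt (by positivity)
  have hε₂t : ε₂ ≤ εt := min_le_left _ _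
  have hε₂h : ε₂ ≤ F.ε₀ / 2 := min_le_right _ _
  obtain ⟨εc, hεc, hcor⟩ := exists_corner S ε₂ hε₂p
  set c := min εc (min εt (F.ε₀ / 2)) with hc
  have hcp : 0 < c := lt_min hεc (lt_min hεt (by positivity))
  have hcc : c ≤ εc := min_le_left _ _
  have hct : c ≤ εt := (min_le_right _ _).trans (min_le_left _ _)
  have hch : c ≤ F.ε₀ / 2 := (min_le_right _ _).trans (min_le_right _ _)
  refine ⟨c, hcp, ⟨QdF F, ?_, ?_, ?_, ?_, ?_, ?_, ?_, ?_, ?_, ?_, ?_⟩, fun a s u x => Iff.rfl⟩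
  · exact fun a s u h1 h2 => hG a s u h1 h2
  · exact fun a s u x x' h h' => unique F h h'
  · exact fun a s u x h => h.2.2.1
  · exact fun a s u x h => h.2.2.2.1
  · exact fun a s u x u' x' h h' => compU F h h'
  · exact fun a s u x s' x' h h' => compS F h h'
  · exact fun a s u x h => flipU F h
  · exact fun a s u x h => flipS F h
  · exact ⟨εt, hεt, fun a s u x h1 h2 h3 h4 => ht a s u x h1 h2 h3 h4⟩
  · -- contS
    intro j ε hε
    obtain ⟨η', hη', hthin⟩ := thin F.geo (c := c) (ε₂ := ε₂) (by linarith) (by linarith) ε hε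
    obtain ⟨δ, hδ, hlev⟩ := SRel_level F.geo j (min (min εc εt) η')
      (lt_min (lt_min hεc hεt) hη')
    refine ⟨min δ F.ε₀, lt_min hδ hε₀, fun a s u x hQ has hau => ?_⟩
    have has0 : S.SRel F.ε₀ a s := fun k => (has k).trans (min_le_right _ _)
    have hdas : dist a s ≤ δ := (has 0).trans (min_le_left _ _)
    have h1 := hlev a s has0 hdas
    have hau' : S.URel c (S.g.symm^[j] a) (S.g.symm^[j] u) := hau
    obtain ⟨w, hw1, hw2⟩ := hcor (S.g.symm^[j] a) (S.g.symm^[j] s) (S.g.symm^[j] u)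
      (h1.mono ((min_le_left _ _).trans (min_le_left _ _))) (hau'.mono hcc)
    have hQw : QdF F (S.g.symm^[j] a) (S.g.symm^[j] s) (S.g.symm^[j] u) w :=
      ht _ _ _ _ (h1.mono ((min_le_left _ _).trans (min_le_right _ _))) (hau'.mono hct)
        (hw2.mono hε₂t) (hw1.mono hε₂t)
    have hwx : w = S.g.symm^[j] x := unique F hQw (back F hQ j)
    subst hwx
    have hd1 : dist (S.g.symm^[j] a) (S.g.symm^[j] s) ≤ η' :=
      (h1 0).trans (min_le_right _ _)
    have hd := hthin _ _ _ _ hau' hw2 hw1 hd1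
    have h2 := F.geo.SRel_dist (hw2.mono (by linarith : ε₂ ≤ F.ε₀))
    exact SRel_fwd j (h2.mono hd)
  · -- contU
    intro j ε hε
    obtain ⟨ρ, hρ, hsm⟩ := F.small ε hε
    have hLu : 0 < S.Lu := by linarith [S.one_le_Lu]
    have hLj : 0 < S.Lu ^ j := pow_pos hLu j
    refine ⟨min F.ε₀ (ρ / (4 * S.Lu ^ j)), lt_min hε₀ (by positivity),
      fun a s u x hQ hau has => ?_⟩
    obtain ⟨h1, h2, h3, h4, h5, h6⟩ := hQ
    have hLa : F.Lc a u ∈ S.Vu a := F.Lc_mem _ _ h2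
    have hHm := F.H_mem _ _ h1 _ hLa
    have hau0 : S.URel F.ε₀ a u := fun k => (hau k).trans (min_le_left _ _)
    have hda : dist a u ≤ ρ / (4 * S.Lu ^ j) := (hau 0).trans (min_le_right _ _)
    have hL1 : ‖F.Lc a u‖ ≤ 2 * dist a u := F.Lc_le _ _ hau0
    have has' : S.SRel F.ε₀ (S.g^[j] a) (S.g^[j] s) := fun k => (has k).trans (by linarith)
    have k1 := F.toLin0.H_iter h1 j hLa
    have k2 := F.H_le _ _ has' _ (Dn_mem S j a hLa)
    rw [k1] at k2
    have k3 := le_Dn S j s hHm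
    have k4 := Dn_le S j a hLa
    have k5 : ‖F.H a s (F.Lc a u)‖ ≤ 16 ^ j * ‖F.H a s (F.Lc a u)‖ :=
      le_mul_of_one_le_left (norm_nonneg _) (one_le_pow₀ (by norm_num))
    have k6 : ‖F.Lc s x‖ ≤ ρ := by
      rw [h5]
      calc ‖F.H a s (F.Lc a u)‖ ≤ 2 * (S.Lu ^ j * ‖F.Lc a u‖) := by linarith
        _ ≤ 2 * (S.Lu ^ j * (2 * (ρ / (4 * S.Lu ^ j)))) := by
            have : ‖F.Lc a u‖ ≤ 2 * (ρ / (4 * S.Lu ^ j)) := by linarith
            have := mul_le_mul_of_nonneg_left this hLj.le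
            linarith
        _ = ρ := by field_simp; ring
    exact hsm s x h4 k6

end Pool.Agent.H779R2.An
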