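import Pool.Agent.H779R2.An.LDefs
import Pool.Agent.H789R2.GP.Leaf

set_option autoImplicit false

namespace Pool.Agent.H779R2.An

open Pool.Agent.H721R2 Filter Topology MeasureTheory
open scoped BigOperators

variable {X E : Type*} [MetricSpace X] [CompactSpace X] [NormedAddCommGroup E]
  [InnerProductSpace ℝ E] [FiniteDimensional ℝ E]

open Pool.Agent.H789R2.GP Pool.Agent.H789R2.AN

/-- Linear algebra in a complex line. -/
theorem deckaux_lin {V : Submodule ℝ E} (h2 : Module.finrank ℝ V = 2) (J A : E →ₗ[ℝ] E)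
    (hJ : ∀ v ∈ V, J v ∈ V) (hJ2 : ∀ v ∈ V, J (J v) = -v) (hA : ∀ v ∈ V, A v ∈ V)
    (hAJ : ∀ v ∈ V, A (J v) = J (A v)) {v0 : E} (hv0 : v0 ∈ V) (hne : A v0 ≠ 0) (t : E)
    (ht : t ∈ V) : ∃ v ∈ V, A v = t := by
  have hinj : Function.Injective (A.restrict hA) := by
    rw [← LinearMap.ker_eq_bot, LinearMap.ker_eq_bot']
    intro v hv
    by_contra hv'
    have hvE : A (v : E) = 0 := by
      have := congrArg (fun x : V => (x : E)) hv
      simpa using this
    have hvne : (v : E) ≠ 0 := fun h => hv' (Subtype.ext h)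
    set w : V := ⟨J v, hJ v v.2⟩ with hw
    have hli : LinearIndependent ℝ ![v, w] := by
      rw [LinearIndependent.pair_iff]
      intro a b hab
      have h3 : a • (v : E) + b • J v = 0 := by
        have := congrArg (fun x : V => (x : E)) hab
        simpa [hw] using this
      have h4 : a • J (v : E) - b • (v : E) = 0 := by
        have := congrArg J h3
        rw [map_add, map_smul, map_smul, hJ2 v v.2, map_zero, smul_neg] at this
        rw [sub_eq_add_neg]
        exact this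
      have h5 : (a ^ 2 + b ^ 2) • (v : E) = 0 := by
        have h6 : (a ^ 2 + b ^ 2) • (v : E) = a • (a • (v : E) + b • J v) -
            b • (a • J (v : E) - b • (v : E)) := by
          module
        rw [h6, h3, h4, smul_zero, smul_zero, sub_zero]
      have h7 := (smul_eq_zero.mp h5).resolve_right hvne
      have ha : a ^ 2 = 0 := by nlinarith [sq_nonneg a, sq_nonneg b]
      have hb : b ^ 2 = 0 := by nlinarith [sq_nonneg a, sq_nonneg b]
      exact ⟨pow_eq_zero_iff two_ne_zero |>.mp ha, pow_eq_zero_iff two_ne_zero |>.mp hb⟩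
    have hspan := hli.span_eq_top_of_card_eq_finrank' (by rw [h2]; simp)
    have hmem : (⟨v0, hv0⟩ : V) ∈ Submodule.span ℝ (Set.range ![v, w]) := by
      rw [hspan]; trivial
    rw [Matrix.range_cons, Matrix.range_cons, Matrix.range_empty, Set.union_empty,
      Set.singleton_union, Submodule.mem_span_pair] at hmem
    obtain ⟨a, b, hab⟩ := hmem
    have h8 : a • (v : E) + b • J v = v0 := by
      have := congrArg (fun x : V => (x : E)) hab
      simpa [hw] using this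
    apply hne
    rw [← h8, map_add, map_smul, map_smul, hAJ v v.2, hvE, map_zero, smul_zero, smul_zero, add_zero]
  have hsurj := LinearMap.injective_iff_surjective.mp hinj
  obtain ⟨v, hv⟩ := hsurj ⟨t, ht⟩
  refine ⟨v, v.2, ?_⟩
  have := congrArg (fun x : V => (x : E)) hv
  simpa using this

/-- Global surjectivity of the linearizing coordinate. -/
theorem deckaux_surj {S : HypSys X E} (F : Flat S) (p : X) {v : E} (hv : v ∈ S.Vu p) :
    ∃ y, UAsym S p y ∧ F.Lc p y = v := by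
  obtain ⟨ρ, hρ, h⟩ := F.surj F.ε₀ F.geo.pos
  obtain ⟨n, hn⟩ : ∃ n : ℕ, (1 / 16 : ℝ) ^ n * ‖v‖ ≤ ρ := by
    have h1 : Tendsto (fun k : ℕ => (1 / 16 : ℝ) ^ k * ‖v‖) atTop (𝓝 0) := by
      have := (tendsto_pow_atTop_nhds_zero_of_lt_one (r := (1 / 16 : ℝ)) (by norm_num)
        (by norm_num)).mul_const ‖v‖
      simpa using this
    obtain ⟨n, hn⟩ := ((tendsto_order.mp h1).2 ρ hρ).exists
    exact ⟨n, hn.le⟩
  obtain ⟨y, hy1, hy2⟩ := h _ _ (Dn_symm_mem S n p hv) ((Dn_symm_le S n p hv).trans hn)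
  have hy3 := F.geo.uasym _ _ hy1
  refine ⟨S.g^[n] y, ?_, ?_⟩
  · have := hy3.iter n
    rwa [iter_iter_symm] at this
  · have := F.Lc_iter hy3 n
    rwa [iter_iter_symm, hy2, Dn_Dn_symm S n p hv] at this

/-- The quadrilateral relation, in coordinates at `p`. -/
theorem deckaux_Q {S : HypSys X E} (F : Flat S) (p s u x : X) (h : QdF F s p u x)
    (hs : UAsym S p s) : F.Lc p x = F.H s p (F.τ p s (F.Lc p u)) - F.H s p (F.τ p s (F.Lc p s)) := by
  obtain ⟨_, h2, _, _, h5, _⟩ := h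
  rw [h5, F.base p s u hs (hs.trans h2), map_sub, map_sub]

theorem deckaux_tr {S : HypSys X E} (F : Flat S) {c : ℝ} (T : QS S.g c)
    (hT : ∀ a s u x, T.Q a s u x ↔ QdF F a s u x) (p : X) (z : Leaf S.g p) (hz : z.pr T = p) :
    UAsym S z.s p ∧ SAsym S z.s p ∧ F.Lc p z.u = - F.H z.s p (F.τ p z.s (F.Lc p z.s)) := by
  have h1 := z.pr_spec T
  rw [hz] at h1
  have h2 := T.flipS _ _ _ _ h1
  rw [hT] at h2 h1
  refine ⟨h1.2.2.2.1, h2.1, ?_⟩
  have h3 := deckaux_Q F p z.s p z.u h2 h1.2.2.2.1.symm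
  rw [F.Lc_self, map_zero, map_zero, zero_sub] at h3
  exact h3

theorem deckaux_id {S : HypSys X E} (F : Flat S) (J : CJ F)
    (h2 : ∀ x, Module.finrank ℝ (S.Vu x) = 2) {c : ℝ} (T : QS S.g c)
    (hT : ∀ a s u x, T.Q a s u x ↔ QdF F a s u x) (p : X) (z : Leaf S.g p) (hz : z.pr T = p) :
    ∀ v ∈ S.Vu p, F.H z.s p (F.τ p z.s v) = v := by
  obtain ⟨hu, hs, htr⟩ := deckaux_tr F T hT p z hz
  by_contra hcon
  push Not at hcon
  obtain ⟨v0, hv0, hne⟩ := hcon
  have hmem : ∀ v ∈ S.Vu p, F.H z.s p (F.τ p z.s v) ∈ S.Vu p := fun v hv =>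
    F.H_mem _ _ hs _ (F.τ_mem _ _ hu.symm _ hv)
  have hzu : UAsym S p z.u := z.hu
  obtain ⟨v, hv, hAv⟩ := deckaux_lin (h2 p) (J.J p)
    (LinearMap.id - (F.H z.s p).comp (F.τ p z.s)) (J.J_mem p) (J.J_sq p)
    (fun v hv => by
      simp only [LinearMap.sub_apply, LinearMap.id_apply, LinearMap.comp_apply]
      exact (S.Vu p).sub_mem hv (hmem v hv))
    (fun v hv => by
      simp only [LinearMap.sub_apply, LinearMap.id_apply, LinearMap.comp_apply]
      rw [J.J_τ _ _ hu.symm _ hv, J.J_H _ _ hs _ (F.τ_mem _ _ hu.symm _ hv), map_sub])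
    hv0 (by
      simp only [LinearMap.sub_apply, LinearMap.id_apply, LinearMap.comp_apply]
      intro h
      exact hne (sub_eq_zero.mp h).symm)
    (F.Lc p z.u) (F.Lc_mem _ _ hzu)
  simp only [LinearMap.sub_apply, LinearMap.id_apply, LinearMap.comp_apply] at hAv
  obtain ⟨y₀, hy₀, hy₀v⟩ := deckaux_surj F p hv
  obtain ⟨x, hx⟩ := T.ex z.s p y₀ hs (hu.trans hy₀)
  have hxQ := (hT _ _ _ _).mp hx
  have h3 := deckaux_Q F p z.s y₀ x hxQ hu.symm
  rw [hy₀v] at h3
  have h4 : F.Lc p x = F.Lc p y₀ := by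
    rw [h3, hy₀v]
    have h5 : v = F.H z.s p (F.τ p z.s v) + F.Lc p z.u := by
      rw [← hAv]; abel
    conv_rhs => rw [h5]
    rw [htr]
    abel
  have h6 : x = y₀ := F.inj p x y₀ hxQ.2.2.2.1 hy₀ h4
  rw [h6] at hx
  have h7 := T.flipU _ _ _ _ hx
  have huy : UAsym S y₀ z.s := (hu.trans hy₀).symm
  have h8 : T.Q y₀ y₀ z.s z.s := by
    rw [hT]
    refine ⟨SAsym.refl S y₀, huy, SAsym.refl S z.s, huy, ?_, ?_⟩
    · rw [F.H_self _ _ (F.Lc_mem _ _ huy)]
    · intro v hv
      rw [F.H_self _ _ hv, F.H_self _ _ (F.τ_mem _ _ huy _ hv)]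
  have h9 : z.s = p := T.unique _ _ _ _ _ h8 h7
  apply hne
  rw [h9, F.τ_self _ _ hv0, F.H_self _ _ hv0]

/-- L12: in real dimension two with a complex structure the affine holonomies of closed paths are
translations. -/
theorem deck_comm {S : HypSys X E} (F : Flat S) (J : CJ F)
    (h2 : ∀ x, Module.finrank ℝ (S.Vu x) = 2) {c : ℝ} (T : QS S.g c)
    (hT : ∀ a s u x, T.Q a s u x ↔ QdF F a s u x) (p : X)
    (z w y y' : Leaf S.g p) (hz : z.pr T = p) (hw : w.pr T = p) (hy : y.pr T = p)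
    (hy' : y'.pr T = p) (h1 : T.Q z.s p w.u y.u) (h3 : T.Q w.s p z.u y'.u) : y = y' := by
  have hzu : UAsym S p z.u := z.hu
  have hwu : UAsym S p w.u := w.hu
  have hyu : UAsym S p y.u := y.hu
  have hyu' : UAsym S p y'.u := y'.hu
  have key : ∀ (z w y : Leaf S.g p), z.pr T = p → T.Q z.s p w.u y.u →
      F.Lc p y.u = F.Lc p w.u + F.Lc p z.u := by
    intro z w y hz h
    obtain ⟨hu, hs, htr⟩ := deckaux_tr F T hT p z hz
    have h4 := deckaux_Q F p z.s w.u y.u ((hT _ _ _ _).mp h) hu.symm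
    have hwu : UAsym S p w.u := w.hu
    rw [deckaux_id F J h2 T hT p z hz _ (F.Lc_mem _ _ hwu)] at h4
    rw [h4, htr]
    abel
  have e1 := key z w y hz h1
  have e2 := key w z y' hw h3
  have hu : y.u = y'.u := F.inj p y.u y'.u hyu hyu' (by rw [e1, e2, add_comm])
  have q1 := y.pr_spec T
  have q2 := y'.pr_spec T
  rw [hy] at q1
  rw [hy'] at q2
  have q3 := T.flipU _ _ _ _ q1
  have q4 := T.flipU _ _ _ _ q2
  rw [← hu] at q4
  exact Leaf.ext hu (T.unique _ _ _ _ _ q3 q4)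

end Pool.Agent.H779R2.An
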