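import Pool.Agent.H779R2.An.Assembly
import Pool.Agent.H779R2.An.CJE2
import Pool.Agent.H779R2.An.LSum
import Pool.Agent.H779R2.An.LCells
import Pool.Agent.H779R2.An.LLine
import Pool.Agent.H779R2.An.LLin
import Pool.Agent.H779R2.An.LComm
import Pool.Agent.H779R2.An.LGlob
import Pool.Agent.H779R2.An.LQS
import Pool.Agent.H779R2.An.LAb
import Pool.Agent.H779R2.An.LTrans

set_option autoImplicit false

namespace Pool.Agent.H779R2.An

open Pool.Agent.H721R2 Filter Topology MeasureTheory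
open scoped BigOperators

variable {X E : Type*} [MetricSpace X] [CompactSpace X] [NormedAddCommGroup E]
  [InnerProductSpace ℝ E] [FiniteDimensional ℝ E]

open Pool.Agent.H789R2.GP Pool.Agent.H789R2.AN

/-- The quadrilateral structure given by the linear holonomies. -/
theorem exists_qs_lin (S : HypSys X E) {Q r K K' : ℝ} (hQ : Quad S Q r)
    (hK : QC S K) (hK' : QC S.symm K') (J₀ : CJ0 S) (D d : ℕ) (hD : 1 ≤ D) (hDd : D < d)
    (hfu : ∀ x, Module.finrank ℝ (S.Vu x) = D) (hfs : ∀ x, Module.finrank ℝ (S.Vs x) = d) :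
    ∃ (F : Flat S) (_ : CJ F) (c : ℝ) (T : QS S.g c), 0 < c ∧
      ∀ a s u x, T.Q a s u x ↔ QdF F a s u x := by
  have hflat : ∀ (S : HypSys X E) {K : ℝ}, Quad S Q r → QC S K → Nonempty (Flat S) := by
    intro S K hQ hK
    obtain ⟨Lc, a1, a2, a3⟩ := hasLc S hQ hK
    obtain ⟨τ, b1, b2, b3⟩ := hasTau S hQ hK
    obtain ⟨H, c1, c2, c3⟩ := hasHol S hQ hK
    obtain ⟨L⟩ := exists_lin1 (S := S) ⟨K, hK, Lc, a1, a2, a3, τ, b1, b2, b3, H, c1, c2, c3⟩
    exact exists_flat L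
  have hunit : ∀ (S : HypSys X E), (∀ x, 1 ≤ Module.finrank ℝ (S.Vu x)) → Nonempty (UV S) := by
    intro S h
    have : ∀ x, ∃ b ∈ S.Vu x, ‖b‖ = 1 := by
      intro x
      have hpos : 0 < Module.finrank ℝ (S.Vu x) := h x
      have : Nontrivial (S.Vu x) := Module.finrank_pos_iff.mp hpos
      obtain ⟨v, hv⟩ := exists_ne (0 : S.Vu x)
      have hv' : ‖(v : E)‖ ≠ 0 := by
        rw [norm_ne_zero_iff]
        exact fun h => hv (Subtype.ext h)
      refine ⟨‖(v : E)‖⁻¹ • (v : E), Submodule.smul_mem _ _ v.2, ?_⟩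
      rw [norm_smul, norm_inv, norm_norm, inv_mul_cancel₀ hv']
    choose b hb1 hb2 using this
    exact ⟨⟨b, hb1, hb2⟩⟩
  obtain ⟨F⟩ := hflat S hQ hK
  obtain ⟨Fs⟩ := hflat S.symm hQ.symm hK'
  obtain ⟨B⟩ := hunit S (fun x => by rw [hfu]; exact hD)
  obtain ⟨Bs⟩ := hunit S.symm (fun x => by
    change 1 ≤ Module.finrank ℝ (S.Vs x)
    rw [hfs]; omega)
  obtain ⟨J⟩ := exists_cj F J₀
  have hCD := cd F
  have hQE := qe F J hCD
  have hQEk := qek F B hQE
  have hseg := seg (S := S) Fs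
  have hcell := cells2 (S := S) Fs Bs d hfs
  have hsum := sum_bdd F B hQE D hfu
  have hline := line_univ F.geo B d D hD hDd hcell hsum
  have hlin := lin_univ F B hQEk hline
  have hcomm := comm_loc F hlin
  have hglob := quad_glob F hlin hcomm hseg
  obtain ⟨c, hc, T, hT⟩ := exists_qs F hlin hcomm hglob
  exact ⟨F, J, c, T, hc, hT⟩

/-- Covering by a vector space. -/
theorem abstract_cov [Nonempty X] {E' : Type*} [NormedAddCommGroup E'] [NormedSpace ℝ E']
    [ProperSpace E'] [ChartedSpace E' X] (S : HypSys X E) {Q r K K' : ℝ} (hQ : Quad S Q r)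
    (hK : QC S K) (hK' : QC S.symm K') (J₀ : CJ0 S) (D d : ℕ) (hD : 1 ≤ D) (hDd : D < d)
    (hfu : ∀ x, Module.finrank ℝ (S.Vu x) = D) (hfs : ∀ x, Module.finrank ℝ (S.Vs x) = d) :
    ∃ π : E' → X, IsCoveringMap π := by
  obtain ⟨F, J, c, T, hc, hT⟩ := exists_qs_lin S hQ hK hK' J₀ D d hD hDd hfu hfs
  obtain ⟨c₀, hLP⟩ := exists_LP S
  obtain ⟨q, hq, p, hp⟩ := S.exists_periodic
  exact exists_covering hLP hc T p q hq hp

/-- Commutativity of the fundamental group. -/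
theorem abstract_pi1 {E' : Type*} [NormedAddCommGroup E'] [NormedSpace ℝ E']
    [ProperSpace E'] [ChartedSpace E' X] [PathConnectedSpace X] (S : HypSys X E)
    {Q r K K' : ℝ} (hQ : Quad S Q r)
    (hK : QC S K) (hK' : QC S.symm K') (J₀ : CJ0 S) (d : ℕ) (hDd : 2 < d)
    (hfu : ∀ x, Module.finrank ℝ (S.Vu x) = 2) (hfs : ∀ x, Module.finrank ℝ (S.Vs x) = d) :
    ∀ x : X, ∀ α β : FundamentalGroup X x, α * β = β * α := by
  obtain ⟨F, J, c, T, hc, hT⟩ := exists_qs_lin S hQ hK hK' J₀ 2 d (by norm_num) hDd hfu hfs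
  obtain ⟨c₀, hLP⟩ := exists_LP S
  obtain ⟨q, hq, p, hp⟩ := S.exists_periodic
  exact pi1_comm_of_deck (E' := E') hLP hc T p q hq hp
    (fun z w y y' hz hw hy hy' h1 h3 => deck_comm F J hfu T hT p z w y y' hz hw hy hy' h1 h3)

end Pool.Agent.H779R2.An
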