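import Pool.Agent.H779R2.An.LDefs
import Pool.Agent.H789R2.GP.CovA
import Pool.Agent.H789R2.GP.CovB

set_option autoImplicit false

namespace Pool.Agent.H779R2.An

open Pool.Agent.H721R2 Filter Topology MeasureTheory
open scoped BigOperators

variable {X E : Type*} [MetricSpace X] [CompactSpace X] [NormedAddCommGroup E]
  [InnerProductSpace ℝ E] [FiniteDimensional ℝ E]

open Pool.Agent.H789R2.GP Pool.Agent.H789R2.AN

omit [CompactSpace X] in
private theorem deck_SR {g : X ≃ₜ X} {c' : ℝ} (hc' : 0 < c') {x y : X} (h : WS g x y) :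
    ∃ j : ℕ, SR g c' (g^[j] x) (g^[j] y) := by
  obtain ⟨j, hj⟩ := h.eventually_lt hc'
  refine ⟨j, fun k => ?_⟩
  rw [← Function.iterate_add_apply, ← Function.iterate_add_apply]
  exact (hj (k + j) (by omega)).le

/-- L10: deck transformations of the leaf covering. -/
theorem exists_deck {g : X ≃ₜ X} {c c' : ℝ} (h : LP g c) (hc' : 0 < c') (T : QS g c') (p : X)
    (z : Leaf g p) (hz : z.pr T = p) : ∃ D : C(Leaf g p, Leaf g p),
      (∀ w, (D w).pr T = w.pr T) ∧ D (Leaf.base g p) = z ∧ ∀ w, T.Q z.s p w.u (D w).u := by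
  have q0 : T.Q p z.s z.u p := by
    have := z.pr_spec T
    rwa [hz] at this
  have hsp : WS g.symm z.s p := T.wU _ _ _ _ q0
  have hup : WS g z.u p := T.wS _ _ _ _ q0
  have exu : ∀ w : Leaf g p, ∃ y', T.Q z.s p w.u y' := fun w =>
    T.ex z.s p w.u z.hs.symm' (hsp.trans w.hu)
  have exs : ∀ w : Leaf g p, ∃ t', T.Q z.u w.s p t' := fun w =>
    T.ex z.u w.s p (hup.trans w.hs) z.hu.symm'
  choose fu hfu using exu
  choose fs hfs using exs
  set D0 : Leaf g p → Leaf g p := fun w =>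
    ⟨fu w, fs w, T.wU _ _ _ _ (hfu w), T.wS _ _ _ _ (hfs w)⟩ with hD0
  have hcont : Continuous D0 := by
    rw [continuous_iff_continuousAt]
    intro w₁
    rw [Metric.continuousAt_iff]
    intro ε hε
    obtain ⟨j, hj⟩ := deck_SR hc' (T.wS _ _ _ _ (hfu w₁))
    obtain ⟨η, hη, hu⟩ := T.contU j (ε / 2) (by linarith)
    obtain ⟨j', hj'⟩ := deck_SR hc' (T.wU _ _ _ _ (hfs w₁))
    obtain ⟨η', hη', hs⟩ := T.contS j' (ε / 2) (by linarith)
    refine ⟨min η η', lt_min hη hη', fun w₂ hw => ?_⟩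
    rw [dist_comm] at hw
    obtain ⟨h1, h2⟩ := (Leaf.dist_le w₁ w₂ (lt_min hη hη').le).mp hw.le
    rw [dist_comm]
    refine lt_of_le_of_lt ((Leaf.dist_le (D0 w₁) (D0 w₂) (by linarith : 0 ≤ ε / 2)).mpr ⟨?_, ?_⟩)
      (by linarith)
    · have q1 : T.Q w₁.u (fu w₁) w₂.u (fu w₂) :=
        T.compU _ _ _ _ _ _ (T.flipU _ _ _ _ (hfu w₁)) (hfu w₂)
      exact hu _ _ _ _ q1 (h1.mono (min_le_left _ _)) hj
    · have q1 : T.Q w₁.s w₂.s (fs w₁) (fs w₂) :=
        T.compS _ _ _ _ _ _ (T.flipS _ _ _ _ (hfs w₁)) (hfs w₂)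
      exact hs _ _ _ _ q1 (h2.mono (min_le_right _ _)) hj'
  have q1 : T.Q z.s p p z.u := T.flipS _ _ _ _ q0
  have q2 : T.Q z.u p p z.s := T.flipU _ _ _ _ q0
  refine ⟨⟨D0, hcont⟩, ?_, ?_, ?_⟩
  · intro w
    show (D0 w).pr T = w.pr T
    apply Leaf.pr_eq
    show T.Q p (fs w) (fu w) (w.pr T)
    have a1 : T.Q p (fs w) z.u w.s := T.flipU _ _ _ _ (hfs w)
    have a2 : T.Q p z.u z.s p := T.flipU _ _ _ _ q1
    have a3 : T.Q p z.u w.u (fu w) := T.compU _ _ _ _ _ _ a2 (hfu w)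
    have a4 : T.Q z.u p (fu w) w.u := T.flipS _ _ _ _ a3
    have a5 : T.Q z.u w.s (fu w) (w.pr T) := T.compS _ _ _ _ _ _ a4 (w.pr_spec T)
    exact T.compU _ _ _ _ _ _ a1 a5
  · show D0 (Leaf.base g p) = z
    apply Leaf.ext
    · exact T.unique _ _ _ _ _ (hfu (Leaf.base g p)) q1
    · exact T.unique _ _ _ _ _ (hfs (Leaf.base g p)) q2
  · intro w
    exact hfu w

end Pool.Agent.H779R2.An
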