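import Pool.Agent.H779R2.An.Basic

set_option autoImplicit false

namespace Pool.Agent.H779R2.An

open Pool.Agent.H721R2 Filter Topology MeasureTheory
open scoped BigOperators

variable {X E : Type*} [MetricSpace X] [CompactSpace X] [NormedAddCommGroup E]
  [InnerProductSpace ℝ E] [FiniteDimensional ℝ E]

variable {S : HypSys X E}

/-- Bounded sums of `om ^ D` over sets of points of a stable plaque which are separated at time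
`-k`. -/
def SumB (S : HypSys X E) (B : UV S) (D : ℕ) : Prop :=
  ∀ κ > 0, ∃ ρ > 0, ∃ C : ℝ, ∀ (k : ℕ) (x : X) (A : Finset X), (∀ y ∈ A, S.SRel ρ x y) →
    (∀ y ∈ A, ∀ y' ∈ A, y ≠ y' → ¬ S.SRel κ (S.g.symm^[k] y) (S.g.symm^[k] y')) →
    ∑ y ∈ A, om S B k y ^ D ≤ C

/-- Coordinate cells in stable plaques at level `k`, with small radii (`CellProp` with the extra
bound `rad a ≤ 16⁻ᵏ`). -/
def CellProp2 (S : HypSys X E) (d : ℕ) : Prop :=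
  ∀ ε > 0, ∃ κ > 0, ∀ ρ > 0, ∃ ρ₁ > 0, ρ₁ ≤ 1 ∧ ∃ ρ' > 0, ∀ (x : X) (k : ℕ),
    ∃ (ψ : EuclideanSpace ℝ (Fin d) → X) (rad : EuclideanSpace ℝ (Fin d) → ℝ) (r₀ : ℝ),
      0 < r₀ ∧
      (∀ a, ‖a‖ ≤ ρ₁ → S.SRel ρ x (ψ a) ∧ r₀ ≤ rad a ∧ rad a ≤ (1 / 16) ^ k) ∧
      (∀ a a', ‖a‖ ≤ ρ₁ → ‖a'‖ ≤ ρ₁ → dist (ψ a) (ψ a') ≤ 8 * ‖a - a'‖) ∧
      ψ 0 = x ∧
      (∀ x', S.SRel ρ' x x' → ∃ b, ‖b‖ ≤ ρ₁ / 4 ∧ ψ b = x') ∧
      (∀ a a', ‖a‖ ≤ ρ₁ → ‖a'‖ ≤ ρ₁ → ‖a - a'‖ ≤ rad a →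
        S.SRel ε (S.g.symm^[k] (ψ a)) (S.g.symm^[k] (ψ a'))) ∧
      (∀ a a', ‖a‖ ≤ ρ₁ → ‖a'‖ ≤ ρ₁ → rad a / 5 < ‖a - a'‖ →
        ¬ S.SRel κ (S.g.symm^[k] (ψ a)) (S.g.symm^[k] (ψ a')))

/-- Local commutation of the linear holonomy and the transport. -/
def CommLoc (F : Flat S) : Prop :=
  ∃ ε > 0, ε ≤ F.ε₀ ∧ ∀ a s u x, S.SRel ε a s → S.URel ε a u → S.SRel ε u x → S.URel ε s x →
    ∀ v ∈ S.Vu a, F.τ s x (F.H a s v) = F.H u x (F.τ a u v)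

/-- `x` is the fourth corner of the quadrilateral with sides `a → s` (stable) and `a → u`
(unstable), all leaves being affinely identified by the holonomy. -/
def QdF (F : Flat S) (a s u x : X) : Prop :=
  SAsym S a s ∧ UAsym S a u ∧ SAsym S u x ∧ UAsym S s x ∧ F.Lc s x = F.H a s (F.Lc a u) ∧
    ∀ v ∈ S.Vu a, F.τ s x (F.H a s v) = F.H u x (F.τ a u v)

/-- Global existence of fourth corners. -/
def QuadGlob (F : Flat S) : Prop :=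
  ∀ a s u, SAsym S a s → UAsym S a u → ∃ x, QdF F a s u x

end Pool.Agent.H779R2.An
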