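import Pool.Agent.H779R2.An.Basic

set_option autoImplicit false

namespace Pool.Agent.H779R2.An

open Pool.Agent.H721R2 Filter Topology
open scoped BigOperators

variable {X E : Type*} [MetricSpace X] [CompactSpace X] [NormedAddCommGroup E]
  [InnerProductSpace ℝ E] [FiniteDimensional ℝ E]

/-- Periodic points of a transitive hyperbolic system are dense. -/
theorem periodic_dense (S : HypSys X E)
    (htr : ∀ U V : Set X, IsOpen U → U.Nonempty → IsOpen V → V.Nonempty →
      ∃ n : ℕ, (S.g^[n] '' U ∩ V).Nonempty) (x : X) (ε : ℝ) (hε : 0 < ε) :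
    ∃ (y : X) (N : ℕ), 1 ≤ N ∧ S.g^[N] y = y ∧ dist y x < ε := by
  obtain ⟨ε₀, G⟩ := exists_geo S
  obtain ⟨ε₁, hε₁, hsh⟩ := S.shadowing
  have hK := S.one_le_K
  have hK0 : 0 < S.K := by linarith
  have hG := G.pos
  obtain ⟨δ, hδ, hδ1, hδ2, hδ3⟩ : ∃ δ > 0, δ ≤ ε₁ ∧ 8 * S.K * δ ≤ ε / 4 ∧ 16 * S.K * δ ≤ ε₀ := by
    refine ⟨min ε₁ (min (ε / (32 * S.K)) (ε₀ / (16 * S.K))), by positivity, min_le_left _ _, ?_, ?_⟩
    · have h1 : min ε₁ (min (ε / (32 * S.K)) (ε₀ / (16 * S.K))) ≤ ε / (32 * S.K) :=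
        (min_le_right _ _).trans (min_le_left _ _)
      calc _ ≤ 8 * S.K * (ε / (32 * S.K)) := mul_le_mul_of_nonneg_left h1 (by positivity)
        _ = ε / 4 := by field_simp; ring
    · have h1 : min ε₁ (min (ε / (32 * S.K)) (ε₀ / (16 * S.K))) ≤ ε₀ / (16 * S.K) :=
        (min_le_right _ _).trans (min_le_right _ _)
      calc _ ≤ 16 * S.K * (ε₀ / (16 * S.K)) := mul_le_mul_of_nonneg_left h1 (by positivity)
        _ = ε₀ := by field_simp
  set r := min (ε / 2) (δ / 2) with hr
  have hr0 : 0 < r := by positivity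
  have hr1 : r ≤ ε / 2 := min_le_left _ _
  have hr2 : r ≤ δ / 2 := min_le_right _ _
  obtain ⟨n, w, ⟨z, hz, hzw⟩, hw⟩ := htr (Metric.ball x r) (S.g ⁻¹' Metric.ball x r)
    Metric.isOpen_ball ⟨x, Metric.mem_ball_self hr0⟩
    (Metric.isOpen_ball.preimage S.g.continuous)
    ⟨S.g.symm x, by simp [hr0]⟩
  obtain ⟨N, hN⟩ : ∃ N : ℕ, N = n + 1 := ⟨_, rfl⟩
  have hN1 : 1 ≤ N := by omega
  have hNz : S.g^[N] z ∈ Metric.ball x r := by
    rw [hN, Function.iterate_succ_apply', hzw]
    exact hw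
  rw [Metric.mem_ball] at hz hNz
  have hclose : dist (S.g^[N] z) z ≤ δ := by
    have := dist_triangle_right (S.g^[N] z) z x
    linarith
  have hNpos : (0 : ℤ) < N := by exact_mod_cast hN1
  -- the periodic pseudo-orbit
  let p : ℤ → X := fun k => S.g^[(k % N).toNat] z
  have hp : ∀ k, dist (S.g (p k)) (p (k + 1)) ≤ δ := by
    intro k
    have h1 := Int.emod_nonneg k hNpos.ne'
    have h2 := Int.emod_lt_of_pos k hNpos
    change dist (S.g (S.g^[(k % N).toNat] z)) (S.g^[((k + 1) % N).toNat] z) ≤ δ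
    rw [← Function.iterate_succ_apply' S.g, Nat.succ_eq_add_one]
    by_cases h : k % N + 1 = N
    · have h3 : (k + 1) % N = 0 := by
        rw [Int.add_emod]
        rcases eq_or_lt_of_le hN1 with h4 | h4
        · rw [← h4]; simp
        · have h5 : (1 : ℤ) % N = 1 := Int.emod_eq_of_lt (by norm_num) (by exact_mod_cast h4)
          rw [h5, h, Int.emod_self]
      have h4 : (k % N).toNat + 1 = N := by omega
      rw [h3, h4]
      exact hclose
    · have h3 : (k + 1) % N = k % N + 1 := by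
        have h6 : 1 < N := by omega
        rw [Int.add_emod]
        have h5 : (1 : ℤ) % N = 1 := Int.emod_eq_of_lt (by norm_num) (by exact_mod_cast h6)
        rw [h5]
        exact Int.emod_eq_of_lt (by omega) (by omega)
      have h4 : ((k + 1) % N).toNat = (k % N).toNat + 1 := by omega
      rw [h4, dist_self]
      exact hδ.le
  obtain ⟨y, hy1, hy2⟩ := hsh δ hδ1 p hp
  have hper : ∀ k : ℤ, dist (y k) (y (k + N)) ≤ ε₀ := by
    intro k
    have h1 := hy2 k
    have h2 := hy2 (k + N)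
    have h3 : p (k + N) = p k := by
      change S.g^[((k + N) % N).toNat] z = S.g^[(k % N).toNat] z
      rw [Int.add_emod_right]
    rw [h3] at h2
    have h4 := dist_triangle_right (y k) (y (k + N)) (p k)
    calc _ ≤ 8 * S.K * δ + 8 * S.K * δ := by linarith
      _ = 16 * S.K * δ := by ring
      _ ≤ _ := hδ3
  have hyN : ∀ k : ℤ, (fun n => y (n + N)) (k + 1) = S.g ((fun n => y (n + N)) k) := by
    intro k
    change y (k + 1 + N) = S.g (y (k + N))
    rw [← hy1 (k + N)]
    congr 1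
    ring
  have heq : y 0 = y N := by
    refine G.uniq _ _ (fun k => ?_) (fun k => ?_)
    · have h1 := HypSys.orbit_nat S y hy1 k
      have h2 := HypSys.orbit_nat S (fun n => y (n + N)) hyN k
      simp only [zero_add] at h2
      rw [← h1, ← h2]
      exact hper k
    · have h1 := HypSys.orbit_neg S y hy1 k
      have h2 := HypSys.orbit_neg S (fun n => y (n + N)) hyN k
      simp only [zero_add] at h2
      rw [← h1, ← h2]
      exact hper (-k)
  refine ⟨y 0, N, hN1, ?_, ?_⟩
  · rw [← HypSys.orbit_nat S y hy1 N]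
    exact heq.symm
  · have h1 := hy2 0
    have h2 : p 0 = z := by
      change S.g^[((0 : ℤ) % N).toNat] z = z
      simp
    rw [h2] at h1
    have h3 := dist_triangle (y 0) z x
    linarith

end Pool.Agent.H779R2.An
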