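import Pool.Agent.H779R2.An.MainA
import Pool.Agent.H779R2.An.MainC
import Pool.Agent.H779R2.An.Periodic

set_option autoImplicit false
set_option linter.unusedSectionVars false

open scoped Manifold ContDiff Topology Bundle
open Set Filter Bundle

namespace Pool.Agent.H779R2.An

open Pool.Agent.H721R2 Pool.Agent.H789R2.AN

/-- Density of periodic points for the two classes of Anosov diffeomorphisms. -/
theorem main_periodic (E : Type*) [NormedAddCommGroup E] [NormedSpace ℝ E]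
    [FiniteDimensional ℝ E]
    (M : Type*) [TopologicalSpace M] [T2Space M] [CompactSpace M] [ConnectedSpace M]
    [ChartedSpace E M] [IsManifold 𝓘(ℝ, E) ∞ M] (f : Diffeomorph 𝓘(ℝ, E) 𝓘(ℝ, E) M M 1)
    (hf2 : ContMDiff 𝓘(ℝ, E) 𝓘(ℝ, E) 2 f) (hf2' : ContMDiff 𝓘(ℝ, E) 𝓘(ℝ, E) 2 f.symm)
    (Es Eu : ∀ x : M, Submodule ℝ (TangentSpace 𝓘(ℝ, E) x)) (hA : IsAnosov f Es Eu)
    (ds du : ℕ) (hds1 : 1 ≤ ds)
    (hdu1 : 1 ≤ du) (hds : ∀ x, Module.finrank ℝ (Es x) = ds)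
    (hdu : ∀ x, Module.finrank ℝ (Eu x) = du)
    (hJ : ((∃ N : TangentBundle 𝓘(ℝ, E) M → ℝ, IsTangentNorm N ∧ UniformlyQC f N Es ∧
        UniformlyQC f N Eu) ∧
        ((du ≤ ds ∧ ∃ J, InvComplexOn f Eu J) ∨ (ds ≤ du ∧ ∃ J, InvComplexOn f Es J))) ∨
      (du = 2 ∧ 2 ≤ ds ∧ ∃ J, InvComplexOn f Eu J) ∨
      (ds = 2 ∧ 2 ≤ du ∧ ∃ J, InvComplexOn f Es J)) :
    Dense (Function.periodicPts f) := by
  obtain ⟨m, e, he, hemb, hinj⟩ := exists_embedding_euclidean_of_compact (I := 𝓘(ℝ, E)) (M := M)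
  let _ : MetricSpace M := hemb.isEmbedding.comapMetricSpace e
  have hiso : ∀ x y : M, dist x y = ‖e x - e y‖ := fun x y => dist_eq_norm (e x) (e y)
  have he1 : ContMDiff 𝓘(ℝ, E) (𝓡 m) 1 e := he.of_le (by simp)
  have he2 : ContMDiff 𝓘(ℝ, E) (𝓡 m) 2 e := he.of_le (by
    exact_mod_cast (ENat.LEInfty.out : (2 : WithTop ℕ∞) ≤ ∞))
  obtain ⟨C', a, b, Ls, Lu, hE⟩ := eanosov_of_isAnosov e he1 hinj f Es Eu hA
  obtain ⟨K, hK, hang⟩ := hE.angle he1 hinj
  have t1 : Tendsto (fun n : ℕ => K * (C' * a ^ n)) atTop (𝓝 0) := by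
    have := ((tendsto_pow_atTop_nhds_zero_of_lt_one hE.a_pos.le hE.a_lt).const_mul C').const_mul K
    simpa using this
  have t2 : Tendsto (fun n : ℕ => K * (C' * b ^ n)) atTop (𝓝 0) := by
    have := ((tendsto_pow_atTop_nhds_zero_of_lt_one hE.b_pos.le hE.b_lt).const_mul C').const_mul K
    simpa using this
  obtain ⟨n, hn1, hn2⟩ := (((tendsto_order.mp t1).2 (1 / 16) (by norm_num)).and
    ((tendsto_order.mp t2).2 (1 / 16) (by norm_num))).exists
  -- replace `n` by a positive number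
  obtain ⟨S, hS⟩ := exists_realizes hiso he1 hinj hE K hK hang n hn1.le hn2.le
  obtain ⟨Q, r, hQ⟩ := quad_of_realizes hiso he2 hinj hE hf2 hf2' hS
  have hfin : ∀ (x : M) (V : Submodule ℝ E),
      Module.finrank ℝ (V.map (dm E e x).toLinearMap) = Module.finrank ℝ V := fun x V =>
    (LinearEquiv.finrank_eq (Submodule.equivMapOfInjective (dm E e x).toLinearMap (hinj x) V)).symm
  have hfs : ∀ x, Module.finrank ℝ (S.Vs x) = ds := fun x => by
    rw [hS.Vs_eq, hfin]; exact hds x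
  have hfu : ∀ x, Module.finrank ℝ (S.Vu x) = du := fun x => by
    rw [hS.Vu_eq, hfin]; exact hdu x
  have hgn : ∀ (k : ℕ) (x : M), (S.g^[k]) x = f^[n * k] x := by
    intro k x
    rw [hS.g_eq, Function.iterate_mul]
    rfl
  -- transitivity of `S`
  have htr : ∀ U V : Set M, IsOpen U → U.Nonempty → IsOpen V → V.Nonempty →
      ∃ k : ℕ, (S.g^[k] '' U ∩ V).Nonempty := by
    intro U V hU hUn hV hVn
    have hrev : (∃ k : ℕ, (S.symm.g^[k] '' V ∩ U).Nonempty) →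
        ∃ k : ℕ, (S.g^[k] '' U ∩ V).Nonempty := by
      rintro ⟨k, y, ⟨x, hx, hxy⟩, hy⟩
      refine ⟨k, x, ⟨y, hy, ?_⟩, hx⟩
      rw [← hxy]
      exact iter_iter_symm S k x
    rcases hJ with ⟨⟨N, hN, ⟨Ks, hKs⟩, ⟨Ku, hKu⟩⟩, hJ⟩ | hJ
    · obtain ⟨K1, hK1⟩ := qc_of_realizes hN he1 hinj hE (K := Ku) (fun n x v hv w hw =>
        hKu n x v hv w hw) hS
      obtain ⟨K2, hK2⟩ := qc_of_realizes hN he1 hinj hE.symm (K := Ks)
        (qc_inverse hN hE (fun n x v hv w hw => hKs n x v hv w hw)) hS.symm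
      rcases hJ with ⟨hle, J, hJ⟩ | ⟨hle, J, hJ⟩
      · obtain ⟨J₀⟩ := cj0_of_realizes hiso he1 hinj hE J hJ hS
        exact abstract_main S hQ hK1 hK2 J₀ du ds hdu1 hle hfu hfs U V hU hUn hV hVn
      · obtain ⟨J₀⟩ := cj0_of_realizes hiso he1 hinj hE.symm J (invComplexOn_symm hE hJ) hS.symm
        exact hrev (abstract_main S.symm hQ.symm hK2 hK1 J₀ ds du hds1 hle hfs hfu V U hV hVn
          hU hUn)
    · rcases hJ with ⟨h2, hle, J, hJ⟩ | ⟨h2, hle, J, hJ⟩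
      · obtain ⟨J₀⟩ := cj0_of_realizes hiso he1 hinj hE J hJ hS
        exact abstract_main2 S hQ J₀ ds hle (fun x => by rw [hfu, h2]) hfs U V hU hUn hV hVn
      · obtain ⟨J₀⟩ := cj0_of_realizes hiso he1 hinj hE.symm J (invComplexOn_symm hE hJ) hS.symm
        exact hrev (abstract_main2 S.symm hQ.symm J₀ du hle
          (fun x => (hfs x).trans h2) hfu V U hV hVn hU hUn)
  have hn0 : n ≠ 0 := by
    rintro rfl
    have h1 := hE.C_pos
    rw [pow_zero, mul_one] at hn1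
    nlinarith
  intro x
  rw [Metric.mem_closure_iff]
  intro ε hε
  obtain ⟨y, N, hN1, hy, hd⟩ := periodic_dense S htr x ε hε
  refine ⟨y, ⟨n * N, Nat.mul_pos (Nat.pos_of_ne_zero hn0) hN1, ?_⟩, by rwa [dist_comm]⟩
  rw [Function.IsPeriodicPt, Function.IsFixedPt, ← hgn]
  exact hy

end Pool.Agent.H779R2.An
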